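import Mathlib
import Pool.Agent.Y742.SF.SubS
import Pool.Agent.Y742.SF.PDex
import Pool.Agent.TeamU.GMink
import Pool.Agent.Helper259.HtExt

/-!
The subspace theorem over a number field in projective form.
-/

set_option autoImplicit false
set_option linter.unusedSectionVars false

open Finset Filter Topology

namespace Pool.Agent.R405

open NumberField IsDedekindDomain Height
open Pool.Agent.Y742.SF
open Pool.Agent.TH286.GT.GrowD (sg sg_coe sg_inj)

variable {K : Type} [Field K] [NumberField K]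

/-- forms given place by place -/
theorem subW [IsGalois ℚ K] (D : PD K) {α : Type} (𝓕 : Filter α) {n : ℕ} (hn : 1 ≤ n)
    (Φ : ((K ≃ₐ[ℚ] K) ⊕ Fin D.s) → Fin n → Fin n → K)
    (hdet : ∀ p, (Matrix.of (Φ p)).det ≠ 0)
    (N : α → ℝ) (hN : Tendsto N 𝓕 atTop) (x : α → Fin n → K)
    (hint : ∀ᶠ t in 𝓕, ∀ j, D.TInt (x t j)) (c : ℝ)
    (hsz : ∀ᶠ t in 𝓕, ∀ j v, D.av v (x t j) ≤ Real.exp (c * N t))
    (hind : ∀ d : Fin n → K, d ≠ 0 → ∀ᶠ t in 𝓕, ∑ j, d j * x t j ≠ 0) (ε : ℝ) (hε : 0 < ε) :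
    ∀ᶠ t in 𝓕, -(ε * N t) ≤ ∑ p, ∑ a, Real.log (D.av p (∑ j, Φ p a j * x t j)) := by
  classical
  let e : ((K ≃ₐ[ℚ] K) ⊕ Fin D.s) × Fin n ≃ Fin (Fintype.card (((K ≃ₐ[ℚ] K) ⊕ Fin D.s) × Fin n)) :=
    Fintype.equivFin _
  let Ψ : Fin (Fintype.card (((K ≃ₐ[ℚ] K) ⊕ Fin D.s) × Fin n)) → Fin n → K :=
    fun i => Φ (e.symm i).1 (e.symm i).2
  have hΨ : ∀ p a, Ψ (e (p, a)) = Φ p a := by
    intro p a
    simp only [Ψ, Equiv.symm_apply_apply]
  have h := subS D 𝓕 hn Ψ (fun i h0 => by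
      apply hdet (e.symm i).1
      exact Matrix.det_eq_zero_of_row_eq_zero (e.symm i).2 fun j => congrFun h0 j)
    (fun p a => e (p, a)) (fun p => by
      have h1 : (Matrix.of fun a j => Ψ (e (p, a)) j) = Matrix.of (Φ p) := by
        ext a j
        rw [Matrix.of_apply, Matrix.of_apply, hΨ]
      rw [h1]
      exact hdet p) N hN x hint c hsz hind ε hε
  filter_upwards [h] with t ht
  refine ht.trans (le_of_eq ?_)
  refine Finset.sum_congr rfl fun p _ => Finset.sum_congr rfl fun a _ => ?_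
  rw [hΨ]

end Pool.Agent.R405
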