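import Mathlib
import Pool.Agent.R405.Sch1
import Pool.Agent.R405.Rep

/-!
The subspace theorem over a Galois number field in projective form.
-/

set_option autoImplicit false
set_option linter.unusedSectionVars false

open Finset Filter Topology

namespace Pool.Agent.R405

open NumberField IsDedekindDomain Height
open Pool.Agent.Y742.SF

variable {K : Type} [Field K] [NumberField K]

/-- the embedding given by an automorphism -/
noncomputable def em (ψ : K →+* ℂ) (σ : K ≃ₐ[ℚ] K) : K →+* ℂ := ψ.comp σ.toRingEquiv.toRingHom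

theorem em_apply (ψ : K →+* ℂ) (σ : K ≃ₐ[ℚ] K) (x : K) : em ψ σ x = ψ (σ x) := rfl

theorem mk_em (ψ : K →+* ℂ) (σ : K ≃ₐ[ℚ] K) (x : K) :
    InfinitePlace.mk (em ψ σ) x = ‖ψ (σ x)‖ := by
  rw [InfinitePlace.apply, em_apply]

theorem em_bij [IsGalois ℚ K] (ψ : K →+* ℂ) : Function.Bijective (em ψ) := by
  constructor
  · intro σ τ h
    ext x
    exact ψ.injective (RingHom.congr_fun h x)
  · intro φ
    obtain ⟨σ, hσ⟩ := exists_embs ψ φ
    exact ⟨σ, RingHom.ext fun x => (hσ x).symm⟩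

theorem prod_gal [IsGalois ℚ K] (ψ : K →+* ℂ) (g : InfinitePlace K → ℝ) :
    ∏ σ : K ≃ₐ[ℚ] K, g (InfinitePlace.mk (em ψ σ)) = ∏ w, g w ^ w.mult := by
  rw [Pool.Agent.Helper259.HtExt.prod_infinitePlace_pow_mult K g]
  exact Fintype.prod_bijective _ (em_bij ψ) _ _ fun _ => rfl

/-- the norm of a point at a place -/
noncomputable def nr [IsGalois ℚ K] (D : PD K) (p : (K ≃ₐ[ℚ] K) ⊕ Fin D.s) {n : ℕ}
    (x : Fin n → K) : ℝ := ⨆ j, D.av p (x j)

theorem le_nr [IsGalois ℚ K] (D : PD K) (p : (K ≃ₐ[ℚ] K) ⊕ Fin D.s) {n : ℕ}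
    (x : Fin n → K) (j : Fin n) : D.av p (x j) ≤ nr D p x :=
  le_ciSup (f := fun j => D.av p (x j)) (Set.finite_range _).bddAbove j

theorem nr_pos [IsGalois ℚ K] (D : PD K) (p : (K ≃ₐ[ℚ] K) ⊕ Fin D.s) {n : ℕ}
    {x : Fin n → K} (hx : x ≠ 0) : 0 < nr D p x := by
  obtain ⟨j, hj⟩ := Function.ne_iff.1 hx
  exact (D.av_pos p _ hj).trans_le (le_nr D p x j)

theorem nr_smul [IsGalois ℚ K] (D : PD K) (p : (K ≃ₐ[ℚ] K) ⊕ Fin D.s) {n : ℕ}
    (x : Fin n → K) (l : K) : nr D p (fun j => l * x j) = D.av p l * nr D p x := by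
  unfold nr
  rw [Real.mul_iSup_of_nonneg (D.av_nonneg p l)]
  exact iSup_congr fun j => D.av_mul p _ _

/-- the sum of the logarithms of the norms of an integral point -/
theorem sum_nr [IsGalois ℚ K] (D : PD K) {n : ℕ} (y : Fin n → 𝓞 K) (hy : y ≠ 0) {C : ℝ}
    (hC : (Ideal.absNorm (Ideal.span (Set.range y)) : ℝ) ≤ C) :
    ∑ p, Real.log (nr D p (fun j => (y j : K))) ≤ logHeight (fun j => (y j : K)) + Real.log C := by
  have hyK : (fun j => (y j : K)) ≠ 0 := by
    intro h
    apply hy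
    funext i
    have := congrFun h i
    simpa using this
  have h1 := mulHeight_int y hy
  have hN0 : (0 : ℝ) < Ideal.absNorm (Ideal.span (Set.range y)) := by
    have hb : Ideal.span (Set.range y) ≠ ⊥ := by
      obtain ⟨j, hj⟩ := Function.ne_iff.1 hy
      intro h
      apply hj
      have : y j ∈ Ideal.span (Set.range y) := Ideal.subset_span (Set.mem_range_self j)
      rw [h] at this
      exact this
    have : Ideal.absNorm (Ideal.span (Set.range y)) ≠ 0 := by
      rwa [Ne, Ideal.absNorm_eq_zero_iff]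
    exact_mod_cast Nat.pos_of_ne_zero this
  have hH := mulHeight_pos (fun j => (y j : K))
  rw [Fintype.sum_sum_type]
  have h2 : ∑ σ : K ≃ₐ[ℚ] K, Real.log (nr D (Sum.inl σ) (fun j => (y j : K))) =
      logHeight (fun j => (y j : K)) + Real.log (Ideal.absNorm (Ideal.span (Set.range y))) := by
    rw [← Real.log_prod (fun σ _ => (nr_pos D _ hyK).ne'), logHeight_eq_log_mulHeight,
      ← Real.log_mul hH.ne' hN0.ne', h1, ← prod_gal D.ψ]
    rfl
  have h3 : ∑ v : Fin D.s, Real.log (nr D (Sum.inr v) (fun j => (y j : K))) ≤ 0 := by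
    refine Finset.sum_nonpos fun v _ => Real.log_nonpos (nr_pos D _ hyK).le ?_
    exact Real.iSup_le (fun j => fv_int _ _) zero_le_one
  have h4 := Real.log_le_log hN0 hC
  rw [h2]
  linarith

/-- **The subspace theorem** in projective form, for points over a number field which is Galois
over `ℚ` and contains a square root of `-1`. -/
theorem schK [IsGalois ℚ K] (D : PD K) {α : Type} (𝓕 : Filter α) {n : ℕ} (hn : 1 ≤ n)
    (Φ : ((K ≃ₐ[ℚ] K) ⊕ Fin D.s) → Fin n → Fin n → K)
    (hdet : ∀ p, (Matrix.of (Φ p)).det ≠ 0) (x : α → Fin n → K)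
    (hN : Tendsto (fun t => logHeight (x t)) 𝓕 atTop)
    (hind : ∀ d : Fin n → K, d ≠ 0 → ∀ᶠ t in 𝓕, ∑ j, d j * x t j ≠ 0) (ε : ℝ) (hε : 0 < ε) :
    ∀ᶠ t in 𝓕, ∑ p, ∑ a, (Real.log (nr D p (x t)) - Real.log (D.av p (∑ j, Φ p a j * x t j))) ≤
      (n + ε) * logHeight (x t) := by
  classical
  obtain ⟨C, hC1, hrep⟩ := exists_rep K
  have hrep' : ∀ t, ∃ (lam : K) (y : Fin n → 𝓞 K), x t ≠ 0 → lam ≠ 0 ∧
      (∀ j, (y j : K) = lam * x t j) ∧
        (∀ (w : InfinitePlace K) (j : Fin n), w (y j : K) ≤ C * mulHeight (x t) ^ 2) ∧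
        (Ideal.absNorm (Ideal.span (Set.range y)) : ℝ) ≤ C := by
    intro t
    by_cases h : x t = 0
    · exact ⟨0, 0, fun h' => absurd h h'⟩
    · obtain ⟨l, y, h1⟩ := hrep n (x t) h
      exact ⟨l, y, fun _ => h1⟩
  choose lam y hy using hrep'
  have hx0 : ∀ᶠ t in 𝓕, x t ≠ 0 := by
    have hne : (Pi.single (⟨0, hn⟩ : Fin n) (1 : K) : Fin n → K) ≠ 0 := by
      intro h
      have := congrFun h ⟨0, hn⟩
      rw [Pi.single_eq_same] at this
      exact one_ne_zero this
    filter_upwards [hind _ hne] with t ht h0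
    apply ht
    rw [h0]
    simp
  have hN1 : ∀ᶠ t in 𝓕, 1 ≤ logHeight (x t) := hN.eventually_ge_atTop 1
  have hsub := subW D 𝓕 hn Φ hdet (fun t => logHeight (x t)) hN (fun t j => (y t j : K))
    (by
      filter_upwards with t j w _
      exact fv_int w _) (2 + |Real.log C|)
    (by
      filter_upwards [hx0, hN1] with t ht h1 j v
      obtain ⟨_, _, h3, _⟩ := hy t ht
      have hpos : 0 < mulHeight (x t) := mulHeight_pos _
      have hbig : C * mulHeight (x t) ^ 2 ≤ Real.exp ((2 + |Real.log C|) * logHeight (x t)) := by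
        have hC0 : 0 < C := by linarith
        rw [← Real.log_le_iff_le_exp (by positivity), Real.log_mul hC0.ne' (by positivity),
          Real.log_pow, ← logHeight_eq_log_mulHeight]
        have h4 := le_abs_self (Real.log C)
        have h5 := abs_nonneg (Real.log C)
        push_cast
        nlinarith
      rcases v with σ | w
      · refine le_trans ?_ hbig
        have := h3 (InfinitePlace.mk (em D.ψ σ)) j
        rw [mk_em] at this
        exact this
      · refine le_trans (fv_int _ _) ?_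
        rw [← Real.exp_zero]
        exact Real.exp_le_exp.2 (by positivity))
    (by
      intro d hd
      filter_upwards [hx0, hind d hd] with t ht h1
      obtain ⟨hl, h2, _, _⟩ := hy t ht
      have h3 : ∑ j, d j * (y t j : K) = lam t * ∑ j, d j * x t j := by
        rw [Finset.mul_sum]
        refine Finset.sum_congr rfl fun j _ => ?_
        rw [h2 j]
        ring
      rw [h3]
      exact mul_ne_zero hl h1) (ε / 2) (by linarith)
  have hΦ0 : ∀ p a, Φ p a ≠ 0 := fun p a h0 => hdet p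
    (Matrix.det_eq_zero_of_row_eq_zero a fun j => congrFun h0 j)
  have hval : ∀ᶠ t in 𝓕, ∀ p a, ∑ j, Φ p a j * x t j ≠ 0 := by
    have h1 : ∀ᶠ t in 𝓕, ∀ i ∈ (Finset.univ : Finset ((((K ≃ₐ[ℚ] K) ⊕ Fin D.s)) × Fin n)),
        ∑ j, Φ i.1 i.2 j * x t j ≠ 0 :=
      (Filter.eventually_all_finset _).2 fun i _ => hind _ (hΦ0 i.1 i.2)
    filter_upwards [h1] with t ht p a
    exact ht (p, a) (Finset.mem_univ _)
  have hNbig : ∀ᶠ t in 𝓕, 2 * n * Real.log C / ε ≤ logHeight (x t) := hN.eventually_ge_atTop _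
  filter_upwards [hsub, hx0, hval, hNbig] with t h1 hxt hv hbig
  obtain ⟨hl, h2, h3, h4⟩ := hy t hxt
  have hyK : (fun j => (y t j : K)) = fun j => lam t * x t j := funext h2
  have hy0 : y t ≠ 0 := by
    intro h0
    obtain ⟨j, hj⟩ := Function.ne_iff.1 hxt
    have := h2 j
    rw [h0] at this
    have h5 : lam t * x t j = 0 := by
      rw [← this]
      simp
    exact (mul_ne_zero hl hj) h5
  have hht : logHeight (fun j => (y t j : K)) = logHeight (x t) := by
    rw [hyK]
    exact logHeight_smul_eq_logHeight _ hl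
  have h5 := sum_nr D (y t) hy0 h4
  rw [hht] at h5
  have h6 : ∀ p a, Real.log (nr D p (x t)) - Real.log (D.av p (∑ j, Φ p a j * x t j)) =
      Real.log (nr D p (fun j => (y t j : K))) -
        Real.log (D.av p (∑ j, Φ p a j * (y t j : K))) := by
    intro p a
    have e1 : ∑ j, Φ p a j * (y t j : K) = lam t * ∑ j, Φ p a j * x t j := by
      rw [Finset.mul_sum]
      refine Finset.sum_congr rfl fun j _ => ?_
      rw [h2 j]
      ring
    rw [e1, hyK, nr_smul, D.av_mul, Real.log_mul (D.av_pos p _ hl).ne' (nr_pos D p hxt).ne',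
      Real.log_mul (D.av_pos p _ hl).ne' (D.av_pos p _ (hv p a)).ne']
    ring
  have h7 : ∑ p, ∑ a, (Real.log (nr D p (x t)) - Real.log (D.av p (∑ j, Φ p a j * x t j))) =
      n * ∑ p, Real.log (nr D p (fun j => (y t j : K))) -
        ∑ p, ∑ a, Real.log (D.av p (∑ j, Φ p a j * (y t j : K))) := by
    rw [Finset.mul_sum, ← Finset.sum_sub_distrib]
    refine Finset.sum_congr rfl fun p _ => ?_
    rw [Finset.sum_congr rfl fun a _ => h6 p a, Finset.sum_sub_distrib, Finset.sum_const,
      Finset.card_univ, Fintype.card_fin, nsmul_eq_mul]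
  rw [h7]
  have h8 : n * Real.log C ≤ ε / 2 * logHeight (x t) := by
    rw [div_le_iff₀ hε] at hbig
    linarith
  have h9 : (n : ℝ) * ∑ p, Real.log (nr D p (fun j => (y t j : K))) ≤
      n * (logHeight (x t) + Real.log C) := mul_le_mul_of_nonneg_left h5 (Nat.cast_nonneg _)
  have h10 : -(ε / 2 * logHeight (x t)) ≤
      ∑ p, ∑ a, Real.log (D.av p (∑ j, Φ p a j * (y t j : K))) := h1
  nlinarith

end Pool.Agent.R405
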