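import Mathlib
import Pool.Agent.R405.PlaceExt
import Pool.Agent.W180.OP.Global

/-!
The subspace theorem over a number field, linear forms with algebraic coefficients, along a filter.
-/

set_option autoImplicit false
set_option linter.unusedSectionVars false

open Finset Filter Topology

namespace Pool.Agent.R405

open NumberField IsDedekindDomain Height Module
open Pool.Agent.Y742.SF (fv fv_le_one_iff fv_mul fv_nonneg fv_pos fv_one fv_zero PD exists_PD
  finite_primes fv_add_le)
open Pool.Agent.TeamU (Over)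
open Pool.Agent.W180.OP (Pl av wt nrm le_nrm nrm_pos)

variable {k K : Type} [Field k] [NumberField k] [Field K] [NumberField K] [Algebra k K]

/-- a root of the absolute value of a prime -/
noncomputable def rootAbs (Q : HeightOneSpectrum (𝓞 K)) (c : ℝ) (hc : 0 < c) :
    AbsoluteValue K ℝ where
  toFun := fun y => fv Q y ^ c⁻¹
  map_mul' := fun x y => by
    rw [fv_mul, Real.mul_rpow (fv_nonneg _ _) (fv_nonneg _ _)]
  nonneg' := fun x => Real.rpow_nonneg (fv_nonneg _ _) _
  eq_zero' := fun x => by
    constructor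
    · intro h
      by_contra hx
      exact (Real.rpow_pos_of_pos (fv_pos Q x hx) c⁻¹).ne' h
    · rintro rfl
      show fv Q 0 ^ c⁻¹ = 0
      rw [fv_zero, Real.zero_rpow (inv_pos.2 hc).ne']
  add_le' := fun x y => by
    have hx := Real.rpow_nonneg (fv_nonneg Q x) c⁻¹
    have hy := Real.rpow_nonneg (fv_nonneg Q y) c⁻¹
    have h1 := Real.rpow_le_rpow (fv_nonneg _ _) (fv_add_le Q x y) (inv_pos.2 hc).le
    refine h1.trans ?_
    rcases le_total (fv Q x) (fv Q y) with h | h
    · rw [max_eq_right h]
      linarith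
    · rw [max_eq_left h]
      linarith

/-- an absolute value of `K` above a place of `k` -/
def Good (v : Pl k) (f : AbsoluteValue K ℝ) : Prop :=
  match v with
  | Sum.inl v => ∃ w : InfinitePlace K, w.comap (algebraMap k K) = v ∧ ∀ y, f y = w y
  | Sum.inr v => ∃ (Q : HeightOneSpectrum (𝓞 K)) (c : ℝ), Over Q v ∧ 0 < c ∧
      (∀ x : k, fv Q (algebraMap k K x) = fv v x ^ c) ∧ ∀ y, f y = fv Q y ^ c⁻¹

theorem exists_good (v : Pl k) : ∃ f : AbsoluteValue K ℝ, Good v f := by
  rcases v with v | v
  · obtain ⟨w, hw⟩ := InfinitePlace.comap_surjective (k := k) (K := K) v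
    exact ⟨w.1, w, hw, fun _ => rfl⟩
  · obtain ⟨Q, hQ⟩ := exists_over (K := K) v
    obtain ⟨c, hc, h⟩ := exists_exp hQ
    exact ⟨rootAbs Q c hc, Q, c, hQ, hc, h, fun _ => rfl⟩

theorem Good.ext {v : Pl k} {f : AbsoluteValue K ℝ} (h : Good v f) (y : k) :
    f (algebraMap k K y) = av v y := by
  rcases v with v | v
  · obtain ⟨w, hw, hf⟩ := h
    rw [hf, ← hw]
    rfl
  · obtain ⟨Q, c, _, hc, h1, hf⟩ := h
    rw [hf, h1, ← Real.rpow_mul (fv_nonneg _ _), mul_inv_cancel₀ hc.ne', Real.rpow_one]
    rfl

/-- the place of `k` below an index -/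
noncomputable def res [IsGalois ℚ K] (D : PD K) : (K ≃ₐ[ℚ] K) ⊕ Fin D.s → Pl k
  | Sum.inl σ => Sum.inl ((InfinitePlace.mk (em D.ψ σ)).comap (algebraMap k K))
  | Sum.inr w => Sum.inr ((D.P w).under (𝓞 k))

theorem over_iff (Q : HeightOneSpectrum (𝓞 K)) (v : HeightOneSpectrum (𝓞 k)) :
    Q.under (𝓞 k) = v ↔ Over Q v := by
  constructor
  · rintro rfl
    rfl
  · intro h
    exact HeightOneSpectrum.ext h

/-- the indices above `v`, counted with the exponent -/
theorem above [IsGalois ℚ K] (D : PD K) (v : Pl k) (f : AbsoluteValue K ℝ) (hf : Good v f)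
    (hD : ∀ (v' : HeightOneSpectrum (𝓞 k)) (Q : HeightOneSpectrum (𝓞 K)), v = Sum.inr v' →
      Over Q v' → ∃ w, Q = D.P w) [DecidableEq (Pl k)] :
    ∃ c : ℝ, 0 < c ∧ (((Finset.univ.filter fun p => res D p = v).card : ℕ) : ℝ) * c =
      finrank k K * wt v ∧
      ∀ p, res D p = v → ∃ g : K ≃ₐ[k] K, ∀ y, D.av p y = f (g y) ^ c := by
  classical
  have hG : IsGalois k K := IsGalois.tower_top_of_isGalois ℚ k K
  rcases v with v | v
  · obtain ⟨w, hw, hf⟩ := hf
    refine ⟨1, one_pos, ?_, ?_⟩
    · rw [mul_one]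
      have h1 : (Finset.univ.filter fun p => res D p = (Sum.inl v : Pl k)).card =
          ((Finset.univ : Finset (K ≃ₐ[ℚ] K)).filter fun σ =>
            (InfinitePlace.mk (em D.ψ σ)).comap (algebraMap k K) = v).card := by
        symm
        refine Finset.card_bij (fun σ _ => Sum.inl σ) ?_ ?_ ?_
        · intro σ hσ
          rw [Finset.mem_filter] at hσ ⊢
          exact ⟨Finset.mem_univ _, congrArg Sum.inl hσ.2⟩
        · intro a _ b _ h
          exact Sum.inl.inj h
        · intro p hp
          rw [Finset.mem_filter] at hp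
          rcases p with σ | w'
          · exact ⟨σ, Finset.mem_filter.2 ⟨Finset.mem_univ _, Sum.inl.inj hp.2⟩, rfl⟩
          · exact absurd hp.2 (by simp [res])
      have h2 := card_inf (k := k) D.ψ v
      rw [h1]
      have h3 : (((Finset.univ : Finset (K ≃ₐ[ℚ] K)).filter fun σ =>
            (InfinitePlace.mk (em D.ψ σ)).comap (algebraMap k K) = v).card : ℝ) =
            ((finrank k K * v.mult : ℕ) : ℝ) := by
        rw [← h2]
      rw [h3]
      push_cast
      rfl
    · intro p hp
      rcases p with σ | w'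
      · have h1 : (InfinitePlace.mk (em D.ψ σ)).comap (algebraMap k K) = v := Sum.inl.inj hp
        obtain ⟨τ, hτ⟩ := InfinitePlace.exists_smul_eq_of_comap_eq (k := k) (hw.trans h1.symm)
        refine ⟨τ.symm, fun y => ?_⟩
        rw [Real.rpow_one, hf]
        have h2 : D.av (Sum.inl σ) y = InfinitePlace.mk (em D.ψ σ) y := (mk_em _ _ _).symm
        rw [h2, ← hτ, InfinitePlace.smul_apply]
      · exact absurd hp (by simp [res])
  · obtain ⟨Q, c, hQ, hc, h1, hf⟩ := hf
    refine ⟨c, hc, ?_, ?_⟩
    · have hcard := card_fin ((Finset.univ.filter fun w : Fin D.s => Over (D.P w) v).image D.P)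
        (fun Q' => by
          constructor
          · intro h
            obtain ⟨w, hw, rfl⟩ := Finset.mem_image.1 h
            exact (Finset.mem_filter.1 hw).2
          · intro h
            obtain ⟨w, rfl⟩ := hD v Q' rfl h
            exact Finset.mem_image_of_mem _ (Finset.mem_filter.2 ⟨Finset.mem_univ _, h⟩)) hQ h1
      rw [Finset.card_image_of_injective _ D.hP] at hcard
      have h2 : (Finset.univ.filter fun p => res D p = (Sum.inr v : Pl k)).card =
          (Finset.univ.filter fun w : Fin D.s => Over (D.P w) v).card := by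
        symm
        refine Finset.card_bij (fun w _ => Sum.inr w) ?_ ?_ ?_
        · intro w hw
          rw [Finset.mem_filter] at hw ⊢
          exact ⟨Finset.mem_univ _, congrArg Sum.inr ((over_iff _ _).2 hw.2)⟩
        · intro a _ b _ h
          exact Sum.inr.inj h
        · intro p hp
          rw [Finset.mem_filter] at hp
          rcases p with σ | w'
          · exact absurd hp.2 (by simp [res])
          · exact ⟨w', Finset.mem_filter.2 ⟨Finset.mem_univ _,
              (over_iff _ _).1 (Sum.inr.inj hp.2)⟩, rfl⟩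
      rw [h2, hcard]
      show _ = _ * (1 : ℝ)
      rw [mul_one]
    · intro p hp
      rcases p with σ | w'
      · exact absurd hp (by simp [res])
      · have h3 : Over (D.P w') v := (over_iff _ _).1 (Sum.inr.inj hp)
        obtain ⟨g, hg⟩ := exists_conj hQ h3
        refine ⟨g, fun y => ?_⟩
        rw [hf, ← Real.rpow_mul (fv_nonneg _ _), inv_mul_cancel₀ hc.ne', Real.rpow_one]
        exact hg y

theorem nr_ext [IsGalois ℚ K] (D : PD K) (p : (K ≃ₐ[ℚ] K) ⊕ Fin D.s) (v : Pl k)
    (f : AbsoluteValue K ℝ) (hf : Good v f) {c : ℝ} (hc : 0 < c) (g : K ≃ₐ[k] K)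
    (hg : ∀ y, D.av p y = f (g y) ^ c) {n : ℕ} (hn : 1 ≤ n) (x : Fin n → k) :
    nr D p (fun j => algebraMap k K (x j)) = nrm (av v) x ^ c := by
  have h1 : ∀ j, D.av p (algebraMap k K (x j)) = av v (x j) ^ c := by
    intro j
    rw [hg, g.commutes, hf.ext]
  have : Nonempty (Fin n) := ⟨⟨0, hn⟩⟩
  apply le_antisymm
  · refine ciSup_le fun j => ?_
    rw [h1]
    exact Real.rpow_le_rpow ((av v).nonneg _) (le_nrm _ _ _) hc.le
  · obtain ⟨j, hj⟩ := Pool.Agent.W180.OP.exists_nrm (av v) hn x
    rw [← hj, ← h1]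
    exact le_nr D p (fun j => algebraMap k K (x j)) j

theorem schF [IsGalois ℚ K] (hi : ∃ z : K, z ^ 2 = -1) {α : Type} (𝓕 : Filter α) {n : ℕ}
    (hn : 1 ≤ n) (S : Finset (Pl k)) (f : Pl k → AbsoluteValue K ℝ) (hf : ∀ v ∈ S, Good v (f v))
    (B : Pl k → Fin n → Fin n → K) (hdet : ∀ v ∈ S, (Matrix.of (B v)).det ≠ 0)
    (x : α → Fin n → k) (hN : Tendsto (fun t => logHeight (x t)) 𝓕 atTop)
    (hind : ∀ d : Fin n → K, d ≠ 0 → ∀ᶠ t in 𝓕, ∑ j, d j * algebraMap k K (x t j) ≠ 0)
    (ε : ℝ) (hε : 0 < ε) :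
    ∀ᶠ t in 𝓕, ∑ v ∈ S, wt v * ∑ a, (Real.log (nrm (av v) (x t)) -
      Real.log (f v (∑ j, B v a j * algebraMap k K (x t j)))) ≤ (n + ε) * logHeight (x t) := by
  classical
  have hfin : (⋃ v ∈ S.toRight, {Q : HeightOneSpectrum (𝓞 K) |
      ((Ideal.absNorm v.asIdeal : ℕ) : 𝓞 K) ∈ Q.asIdeal}).Finite :=
    Set.Finite.biUnion S.toRight.finite_toSet fun v _ => finite_primes _ (by
      rw [Ne, Ideal.absNorm_eq_zero_iff]
      exact v.ne_bot)
  obtain ⟨D, hD⟩ := exists_PD hi _ hfin
  have hD' : ∀ v ∈ S, ∀ (v' : HeightOneSpectrum (𝓞 k)) (Q : HeightOneSpectrum (𝓞 K)),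
      v = Sum.inr v' → Over Q v' → ∃ w, Q = D.P w := by
    intro v hv v' Q hvv hQ
    subst hvv
    apply hD
    refine Set.mem_biUnion (x := v') (Finset.mem_toRight.2 hv) ?_
    have h1 : ((Ideal.absNorm v'.asIdeal : ℕ) : 𝓞 k) ∈
        Q.asIdeal.comap (algebraMap (𝓞 k) (𝓞 K)) := by
      rw [hQ]
      exact Ideal.absNorm_mem _
    rw [Ideal.mem_comap, map_natCast] at h1
    exact h1
  have hab : ∀ v : Pl k, ∃ c : ℝ, v ∈ S → 0 < c ∧
      (((Finset.univ.filter fun p => res D p = v).card : ℕ) : ℝ) * c = finrank k K * wt v ∧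
      ∀ p, res D p = v → ∃ g : K ≃ₐ[k] K, ∀ y, D.av p y = f v (g y) ^ c := by
    intro v
    by_cases hv : v ∈ S
    · obtain ⟨c, h1, h2, h3⟩ := above D v (f v) (hf v hv) (hD' v hv)
      exact ⟨c, fun _ => ⟨h1, h2, h3⟩⟩
    · exact ⟨0, fun h => absurd h hv⟩
  choose c hc using hab
  have hg : ∀ p, ∃ g : K ≃ₐ[k] K, res D p ∈ S →
      ∀ y, D.av p y = f (res D p) (g y) ^ c (res D p) := by
    intro p
    by_cases hp : res D p ∈ S
    · obtain ⟨g, hg⟩ := (hc _ hp).2.2 p rfl
      exact ⟨g, fun _ => hg⟩
    · exact ⟨AlgEquiv.refl, fun h => absurd h hp⟩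
  choose g hg using hg
  let Φ : ((K ≃ₐ[ℚ] K) ⊕ Fin D.s) → Fin n → Fin n → K := fun p a j =>
    if res D p ∈ S then (g p).symm (B (res D p) a j) else (1 : Matrix (Fin n) (Fin n) K) a j
  have hΦ : ∀ p, (Matrix.of (Φ p)).det ≠ 0 := by
    intro p
    by_cases hp : res D p ∈ S
    · have h1 : Matrix.of (Φ p) = (Matrix.of (B (res D p))).map (g p).symm := by
        ext a j
        show (if _ then _ else _) = _
        rw [if_pos hp]
        rfl
      rw [h1]
      have h2 : ((Matrix.of (B (res D p))).map (g p).symm).det =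
          (g p).symm (Matrix.of (B (res D p))).det := by
        exact (RingHom.map_det ((g p).symm : K →+* K) _).symm
      rw [h2]
      exact (map_ne_zero _).2 (hdet _ hp)
    · have h1 : Matrix.of (Φ p) = 1 := by
        ext a j
        show (if _ then _ else _) = _
        rw [if_neg hp]
      rw [h1, Matrix.det_one]
      exact one_ne_zero
  set d : ℝ := (finrank k K : ℝ) with hd
  have hd0 : 0 < d := by
    rw [hd]
    exact_mod_cast finrank_pos
  have hht : ∀ t, logHeight (fun j => algebraMap k K (x t j)) = d * logHeight (x t) := fun t =>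
    Pool.Agent.Helper259.HtExt.logHeight_ext _
  have key := schK D 𝓕 hn Φ hΦ (fun t j => algebraMap k K (x t j))
    (by
      simp only [hht]
      exact hN.const_mul_atTop hd0) hind ε hε
  have hgen : ∀ᶠ t in 𝓕, ∀ a, x t a ≠ 0 := by
    rw [Filter.eventually_all]
    intro a
    have h1 := hind (Pi.single a 1) (by
      intro h
      have := congrFun h a
      rw [Pi.single_eq_same] at this
      exact one_ne_zero this)
    filter_upwards [h1] with t ht h0
    apply ht
    rw [Finset.sum_eq_single a]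
    · rw [h0, map_zero, mul_zero]
    · intro b _ hb
      rw [Pi.single_eq_of_ne hb, zero_mul]
    · intro h
      exact absurd (Finset.mem_univ _) h
  filter_upwards [key, hgen] with t hkey hx
  have hx0 : x t ≠ 0 := by
    intro h
    exact hx ⟨0, hn⟩ (congrFun h _)
  rw [hht] at hkey
  -- the terms
  have hterm : ∀ p, res D p ∈ S → ∑ a, (Real.log (nr D p (fun j => algebraMap k K (x t j))) -
      Real.log (D.av p (∑ j, Φ p a j * algebraMap k K (x t j)))) =
      c (res D p) * ∑ a, (Real.log (nrm (av (res D p)) (x t)) -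
        Real.log (f (res D p) (∑ j, B (res D p) a j * algebraMap k K (x t j)))) := by
    intro p hp
    rw [Finset.mul_sum]
    refine Finset.sum_congr rfl fun a _ => ?_
    have hcp := (hc _ hp).1
    rw [nr_ext D p (res D p) (f (res D p)) (hf _ hp) hcp (g p) (hg p hp) hn (x t), hg p hp]
    have h1 : g p (∑ j, Φ p a j * algebraMap k K (x t j)) =
        ∑ j, B (res D p) a j * algebraMap k K (x t j) := by
      rw [map_sum]
      refine Finset.sum_congr rfl fun j _ => ?_
      rw [map_mul, (g p).commutes]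
      congr 1
      show g p (if _ then _ else _) = _
      rw [if_pos hp, AlgEquiv.apply_symm_apply]
    rw [h1, Real.log_rpow (nrm_pos _ hx0)]
    by_cases h0 : f (res D p) (∑ j, B (res D p) a j * algebraMap k K (x t j)) = 0
    · rw [h0, Real.zero_rpow hcp.ne']
      simp
    · rw [Real.log_rpow (lt_of_le_of_ne ((f _).nonneg _) (Ne.symm h0))]
      ring
  have hterm' : ∀ p, res D p ∉ S → 0 ≤ ∑ a, (Real.log (nr D p (fun j => algebraMap k K (x t j))) -
      Real.log (D.av p (∑ j, Φ p a j * algebraMap k K (x t j)))) := by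
    intro p hp
    refine Finset.sum_nonneg fun a _ => sub_nonneg.2 ?_
    have h1 : ∑ j, Φ p a j * algebraMap k K (x t j) = algebraMap k K (x t a) := by
      rw [Finset.sum_eq_single a]
      · show (if _ then _ else _) * _ = _
        rw [if_neg hp, Matrix.one_apply_eq, one_mul]
      · intro b _ hb
        show (if _ then _ else _) * _ = _
        rw [if_neg hp, Matrix.one_apply_ne (Ne.symm hb), zero_mul]
      · intro h
        exact absurd (Finset.mem_univ _) h
    rw [h1]
    exact Real.log_le_log (D.av_pos p _ (by rw [Ne, map_eq_zero]; exact hx a))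
      (le_nr D p (fun j => algebraMap k K (x t j)) a)
  have hsum : d * ∑ v ∈ S, wt v * ∑ a, (Real.log (nrm (av v) (x t)) -
      Real.log (f v (∑ j, B v a j * algebraMap k K (x t j)))) ≤
      ∑ p, ∑ a, (Real.log (nr D p (fun j => algebraMap k K (x t j))) -
      Real.log (D.av p (∑ j, Φ p a j * algebraMap k K (x t j)))) := by
    have h1 : ∑ p ∈ Finset.univ.filter (fun p => res D p ∈ S),
        ∑ a, (Real.log (nr D p (fun j => algebraMap k K (x t j))) -
          Real.log (D.av p (∑ j, Φ p a j * algebraMap k K (x t j)))) =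
        d * ∑ v ∈ S, wt v * ∑ a, (Real.log (nrm (av v) (x t)) -
          Real.log (f v (∑ j, B v a j * algebraMap k K (x t j)))) := by
      rw [← Finset.sum_fiberwise_of_maps_to (s := Finset.univ.filter (fun p => res D p ∈ S))
        (t := S) (g := fun p => res D p) (fun p hp => (Finset.mem_filter.1 hp).2), Finset.mul_sum]
      refine Finset.sum_congr rfl fun v hv => ?_
      have h2 : (Finset.univ.filter (fun p => res D p ∈ S)).filter (fun p => res D p = v) =
          Finset.univ.filter fun p => res D p = v := by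
        ext p
        simp only [Finset.mem_filter, Finset.mem_univ, true_and]
        constructor
        · exact fun h => h.2
        · intro h
          exact ⟨h ▸ hv, h⟩
      rw [h2]
      have h3 : ∀ p ∈ Finset.univ.filter (fun p => res D p = v),
          ∑ a, (Real.log (nr D p (fun j => algebraMap k K (x t j))) -
          Real.log (D.av p (∑ j, Φ p a j * algebraMap k K (x t j)))) =
          c v * ∑ a, (Real.log (nrm (av v) (x t)) -
          Real.log (f v (∑ j, B v a j * algebraMap k K (x t j)))) := by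
        intro p hp
        have h4 : res D p = v := (Finset.mem_filter.1 hp).2
        rw [hterm p (by rw [h4]; exact hv), h4]
      rw [Finset.sum_congr rfl h3, Finset.sum_const, nsmul_eq_mul, ← mul_assoc, (hc v hv).2.1,
        mul_assoc]
    rw [← h1]
    refine Finset.sum_le_sum_of_subset_of_nonneg (Finset.filter_subset _ _) fun p _ hp => ?_
    exact hterm' p (fun h => hp (Finset.mem_filter.2 ⟨Finset.mem_univ _, h⟩))
  have h5 := hsum.trans hkey
  have h6 : d * ∑ v ∈ S, wt v * ∑ a, (Real.log (nrm (av v) (x t)) -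
      Real.log (f v (∑ j, B v a j * algebraMap k K (x t j)))) ≤
      d * ((n + ε) * logHeight (x t)) := by
    refine h5.trans (le_of_eq ?_)
    ring
  exact le_of_mul_le_mul_left h6 hd0

end Pool.Agent.R405
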