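import Mathlib
import Pool.Agent.R405.Tang
import Pool.Agent.W180.OP.Fin1

/-!
Vojta's inequality in the plane at one place, for lines and conics.
-/

set_option autoImplicit false
set_option linter.unusedSectionVars false

open Finset

namespace Pool.Agent.R405

open NumberField IsDedekindDomain Height Module MvPolynomial
open Pool.Agent.W180.OP (Pl av wt nrm le_nrm nrm_pos nrm_nonneg exists_nrm lam lam_eq liou
  wt_nonneg cs SNC no_triple min_lam pair_point sum_le_of_few grad_bound)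

variable {k K : Type} [Field k] [NumberField k] [Field K] [NumberField K] [Algebra k K]

/-- the point over the extension -/
noncomputable def up (K : Type) [Field K] [Algebra k K] {n : ℕ} (x : Fin n → k) : Fin n → K :=
  fun j => algebraMap k K (x j)

theorem up_ne {n : ℕ} {x : Fin n → k} (hx : x ≠ 0) : up K x ≠ 0 := by
  intro h
  apply hx
  funext j
  have := congrFun h j
  simpa [up] using this

theorem lam_lff {v : Pl k} {f : AbsoluteValue K ℝ} (hf : Good v f) {n : ℕ} (b : Fin n → K)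
    {x : Fin n → k} (hx : x ≠ 0) (hb : ∑ j, b j * algebraMap k K (x j) ≠ 0) :
    lam f 1 (lff b) (up K x) = Real.log (nrm (av v) x) -
      Real.log (f (∑ j, b j * algebraMap k K (x j))) := by
  have h1 : eval (up K x) (lff b) = ∑ j, b j * algebraMap k K (x j) := eval_lff _ _
  rw [lam_eq f 1 _ (up_ne hx) (by rw [h1]; exact hb), h1, Nat.cast_one, one_mul]
  congr 2
  exact hf.nrm_ext x

/-- one place -/
theorem sch1 [IsGalois ℚ K] (hi : ∃ z : K, z ^ 2 = -1) {n : ℕ} (hn : 1 ≤ n) (v : Pl k)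
    (f : AbsoluteValue K ℝ) (hf : Good v f) (B : Fin n → Fin n → K)
    (hdet : (Matrix.of B).det ≠ 0) (ε : ℝ) (hε : 0 < ε) :
    ∃ (Z : Finset (Fin n → K)) (C : ℝ), (∀ d ∈ Z, d ≠ 0) ∧ ∀ x : Fin n → k, x ≠ 0 →
      (∀ d ∈ Z, ∑ j, d j * algebraMap k K (x j) ≠ 0) →
      (∀ a, ∑ j, B a j * algebraMap k K (x j) ≠ 0) ∧
      wt v * ∑ a, lam f 1 (lff (B a)) (up K x) ≤ (n + ε) * logHeight x + C := by
  classical
  obtain ⟨Z, C, hZ, hC⟩ := sch hi hn {v} (fun _ => f) (by
    intro w hw
    rw [Finset.mem_singleton] at hw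
    subst hw
    exact hf) (fun _ => B) (fun _ _ => hdet) ε hε
  refine ⟨Z ∪ Finset.univ.image B, C, ?_, fun x hx hZx => ?_⟩
  · intro d hd
    rcases Finset.mem_union.1 hd with h | h
    · exact hZ d h
    · obtain ⟨a, -, rfl⟩ := Finset.mem_image.1 h
      intro h0
      exact hdet (Matrix.det_eq_zero_of_row_eq_zero a fun j => congrFun h0 j)
  · have h1 : ∀ a, ∑ j, B a j * algebraMap k K (x j) ≠ 0 := fun a =>
      hZx _ (Finset.mem_union_right _ (Finset.mem_image_of_mem _ (Finset.mem_univ a)))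
    refine ⟨h1, ?_⟩
    have h2 := hC x fun d hd => hZx d (Finset.mem_union_left _ hd)
    rw [Finset.sum_singleton] at h2
    have h3 : ∀ a, lam f 1 (lff (B a)) (up K x) = Real.log (nrm (av v) x) -
      Real.log (f (∑ j, B a j * algebraMap k K (x j))) := fun a => lam_lff hf _ hx (h1 a)
    simp only [h3]
    exact h2

theorem det_update {n : ℕ} (g : Fin n → K) (a : Fin n) (ha : g a ≠ 0) :
    (Matrix.of fun i j => if i = a then g j else (1 : Matrix (Fin n) (Fin n) K) i j).det ≠ 0 := by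
  classical
  intro h
  obtain ⟨w, hw0, hw⟩ := Matrix.exists_mulVec_eq_zero_iff.2 h
  have h1 : ∀ i, i ≠ a → w i = 0 := by
    intro i hi
    have h2 := congrFun hw i
    rw [Matrix.mulVec, dotProduct, Pi.zero_apply] at h2
    simp only [Matrix.of_apply, if_neg hi, Matrix.one_apply, ite_mul, one_mul, zero_mul,
      Finset.sum_ite_eq, Finset.mem_univ, if_true] at h2
    exact h2
  apply hw0
  funext i
  by_cases hi : i = a
  · subst hi
    have h2 := congrFun hw i
    rw [Matrix.mulVec, dotProduct, Pi.zero_apply] at h2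
    simp only [Matrix.of_apply, if_true] at h2
    rw [Finset.sum_eq_single i] at h2
    · exact (mul_eq_zero.1 h2).resolve_left ha
    · intro j _ hj
      rw [h1 j hj, mul_zero]
    · intro h
      exact absurd (Finset.mem_univ _) h
  · exact h1 i hi

/-- one linear form at one place -/
theorem schLine [IsGalois ℚ K] (hi : ∃ z : K, z ^ 2 = -1) {n : ℕ} (v : Pl k)
    (f : AbsoluteValue K ℝ) (hf : Good v f) (g : Fin n → K) (hg : g ≠ 0) (ε : ℝ) (hε : 0 < ε) :
    ∃ (Z : Finset (Fin n → K)) (C : ℝ), (∀ d ∈ Z, d ≠ 0) ∧ ∀ x : Fin n → k, x ≠ 0 →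
      (∀ d ∈ Z, ∑ j, d j * algebraMap k K (x j) ≠ 0) →
      wt v * lam f 1 (lff g) (up K x) ≤ (n + ε) * logHeight x + C := by
  classical
  obtain ⟨a, ha⟩ := Function.ne_iff.1 hg
  have hn : 1 ≤ n := Fin.pos a
  obtain ⟨Z, C, hZ, hC⟩ := sch1 hi hn v f hf (fun i j => if i = a then g j else
    (1 : Matrix (Fin n) (Fin n) K) i j) (det_update g a ha) ε hε
  refine ⟨Z, C, hZ, fun x hx hZx => ?_⟩
  obtain ⟨h1, h2⟩ := hC x hx hZx
  refine le_trans (mul_le_mul_of_nonneg_left ?_ (wt_nonneg v)) h2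
  have h3 : ∀ i ∈ (Finset.univ : Finset (Fin n)), 0 ≤ lam f 1 (lff (fun j => if i = a then g j else
      (1 : Matrix (Fin n) (Fin n) K) i j)) (up K x) ∨ i = a := by
    intro i _
    by_cases hia : i = a
    · exact Or.inr hia
    · left
      have h4 := h1 i
      rw [lam_lff hf _ hx h4]
      have h5 : ∑ j, (if i = a then g j else (1 : Matrix (Fin n) (Fin n) K) i j) *
          algebraMap k K (x j) = algebraMap k K (x i) := by
        rw [Finset.sum_eq_single i]
        · rw [if_neg hia, Matrix.one_apply_eq, one_mul]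
        · intro b _ hb
          rw [if_neg hia, Matrix.one_apply_ne (Ne.symm hb), zero_mul]
        · intro h
          exact absurd (Finset.mem_univ _) h
      rw [h5] at h4 ⊢
      rw [hf.ext]
      refine sub_nonneg.2 (Real.log_le_log ((av v).pos_iff.2 ?_) (le_nrm _ _ _))
      intro h0
      rw [h0, map_zero] at h4
      exact h4 rfl
  have h4 : (∑ i, if i = a then lam f 1 (lff g) (up K x) else 0) ≤
      ∑ i, lam f 1 (lff (fun j => if i = a then g j else
      (1 : Matrix (Fin n) (Fin n) K) i j)) (up K x) := by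
    refine Finset.sum_le_sum fun i hi' => ?_
    by_cases hia : i = a
    · rw [if_pos hia]
      simp only [hia, if_true]
      exact le_rfl
    · rw [if_neg hia]
      exact (h3 i hi').resolve_right hia
  rw [Finset.sum_ite_eq' Finset.univ a] at h4
  simpa using h4

/-- a linear form is a constant times its gradient form -/
theorem lff_tg {F : MvPolynomial (Fin 3) K} (hF : F.IsHomogeneous 1) (y : Fin 3 → K) :
    lff (tg y F) = F := by
  have h1 := hF.sum_X_mul_pderiv
  rw [one_smul] at h1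
  conv_rhs => rw [← h1]
  unfold lff
  refine Finset.sum_congr rfl fun j _ => ?_
  have h2 : (pderiv j F).IsHomogeneous 0 := hF.pderiv
  have h3 : pderiv j F = C (coeff 0 (pderiv j F)) :=
    totalDegree_eq_zero_iff_eq_C.1 ((totalDegree_zero_iff_isHomogeneous _).2 h2)
  rw [mul_comm, tg]
  congr 1
  rw [h3]
  simp

/-- a pair of transversal curves through the point `y` -/
theorem pairY [IsGalois ℚ K] (hi : ∃ z : K, z ^ 2 = -1) (v : Pl k)
    (f : AbsoluteValue K ℝ) (hf : Good v f) {F G : MvPolynomial (Fin 3) K} {d e : ℕ}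
    (hF : F.IsHomogeneous d) (hG : G.IsHomogeneous e) (y : Fin 3 → K) (hy : y ≠ 0)
    (hFy : eval y F = 0) (hGy : eval y G = 0)
    (hli : LinearIndependent K ![tg y F, tg y G]) (ε : ℝ) (hε : 0 < ε) :
    ∃ (Z : Finset (Fin 3 → K)) (C : ℝ), (∀ d ∈ Z, d ≠ 0) ∧ ∀ x : Fin 3 → k, x ≠ 0 →
      (∀ d ∈ Z, ∑ j, d j * algebraMap k K (x j) ≠ 0) →
      eval (up K x) (lff (tg y F)) ≠ 0 ∧ eval (up K x) (lff (tg y G)) ≠ 0 ∧
      wt v * (lam f 1 (lff (tg y F)) (up K x) + lam f 1 (lff (tg y G)) (up K x)) ≤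
        (3 + ε) * logHeight x + C := by
  classical
  obtain ⟨a, ha⟩ := Function.ne_iff.1 hy
  obtain ⟨Z, C, hZ, hC⟩ := sch1 hi (by norm_num) v f hf ![tg y F, tg y G, Pi.single a 1]
    (det_grad f _ _ y a ha hli (by
      rw [← tg_self hF y hFy]
      exact Finset.sum_congr rfl fun b _ => mul_comm _ _) (by
      rw [← tg_self hG y hGy]
      exact Finset.sum_congr rfl fun b _ => mul_comm _ _)) ε hε
  refine ⟨Z, C, hZ, fun x hx hZx => ?_⟩
  obtain ⟨h1, h2⟩ := hC x hx hZx
  have h10 := h1 0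
  have h11 := h1 1
  have h12 := h1 2
  simp only [Matrix.cons_val] at h10 h11 h12
  refine ⟨by rw [eval_lff]; exact h10, by rw [eval_lff]; exact h11, ?_⟩
  have h3 : (0 : ℝ) ≤ lam f 1 (lff (Pi.single a 1)) (up K x) := by
    rw [lam_lff hf _ hx h12]
    have h5 : ∑ j, (Pi.single a (1 : K) : Fin 3 → K) j * algebraMap k K (x j) =
        algebraMap k K (x a) := by
      rw [Finset.sum_eq_single a]
      · rw [Pi.single_eq_same, one_mul]
      · intro b _ hb
        rw [Pi.single_eq_of_ne hb, zero_mul]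
      · intro h
        exact absurd (Finset.mem_univ _) h
    rw [h5] at h12 ⊢
    rw [hf.ext]
    refine sub_nonneg.2 (Real.log_le_log ((av v).pos_iff.2 ?_) (le_nrm _ _ _))
    intro h0
    rw [h0, map_zero] at h12
    exact h12 rfl
  rw [Fin.sum_univ_three] at h2
  simp only [Matrix.cons_val] at h2
  have h4 := wt_nonneg v
  have h5 := mul_nonneg h4 h3
  rw [mul_add] at h2
  push_cast at h2
  linarith

theorem arith1 {m h ε C C1 B l1 l2 t1 t2 : ℝ} (hm : 0 ≤ m) (hh : 0 ≤ h) (hε : 0 ≤ ε)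
    (hB : 0 ≤ B) (hC : 0 ≤ C)
    (hC1 : 0 ≤ C1) (h1 : l1 = t1 ∨ m * l1 ≤ 2 * h + C1) (_h21 : l2 ≤ l1) (h2 : 0 ≤ l2)
    (ht1 : min l1 (2 * l2) ≤ t1 + B) (ht2 : min l2 (2 * l2) ≤ t2 + B)
    (ht : m * (t1 + t2) ≤ (3 + ε) * h + C) :
    m * (l1 + l2) ≤ (3 + ε) * h + (C + C1 + 2 * (m * B)) := by
  rw [min_eq_left (by linarith : l2 ≤ 2 * l2)] at ht2
  have hmB : 0 ≤ m * B := mul_nonneg hm hB
  have e2 : m * l2 ≤ m * t2 + m * B := by
    rw [← mul_add]
    exact mul_le_mul_of_nonneg_left ht2 hm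
  rcases h1 with rfl | h1
  · linarith [mul_add m l1 l2, mul_add m l1 t2]
  · rcases le_total l1 (2 * l2) with h' | h'
    · rw [min_eq_left h'] at ht1
      have e1 : m * l1 ≤ m * t1 + m * B := by
        rw [← mul_add]
        exact mul_le_mul_of_nonneg_left ht1 hm
      linarith [mul_add m l1 l2, mul_add m t1 t2]
    · rw [min_eq_right h'] at ht1
      have e1 : m * (2 * l2) ≤ m * t1 + m * B := by
        rw [← mul_add]
        exact mul_le_mul_of_nonneg_left ht1 hm
      have e3 : 3 * (m * l2) ≤ (3 + ε) * h + C + 2 * (m * B) := by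
        linarith [mul_add m t1 t2]
      have : 0 ≤ ε * h := mul_nonneg hε hh
      linarith [mul_add m l1 l2]

/-- a pair of components -/
theorem pairB [IsGalois ℚ K] (hi : ∃ z : K, z ^ 2 = -1) (v : Pl k)
    (f : AbsoluteValue K ℝ) (hf : Good v f) {F G : MvPolynomial (Fin 3) K} {d e : ℕ}
    (hd : 1 ≤ d) (he : 1 ≤ e)
    (hF : F.IsHomogeneous d) (hG : G.IsHomogeneous e) (P : Finset (Fin 3 → K))
    (hP : ∀ y ∈ P, y ≠ 0) (hPF : ∀ y ∈ P, eval y F = 0 ∧ eval y G = 0)
    (hcommon : ∀ (L : Type) [Field L] [Algebra K L] (x : Fin 3 → L), x ≠ 0 → aeval x F = 0 →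
      aeval x G = 0 → ∃ y ∈ P, ∃ c : L, x = c • fun b => algebraMap K L (y b))
    (hli : ∀ y ∈ P, eval y F = 0 → eval y G = 0 →
      LinearIndependent K ![fun b => eval y (pderiv b F), fun b => eval y (pderiv b G)])
    (ε : ℝ) (hε : 0 < ε) (C1 : ℝ) (hC1 : 0 ≤ C1) :
    ∃ (Z : Finset (Fin 3 → K)) (C : ℝ), (∀ d ∈ Z, d ≠ 0) ∧ ∀ x : Fin 3 → k, x ≠ 0 →
      (∀ d ∈ Z, ∑ j, d j * algebraMap k K (x j) ≠ 0) →
      eval (up K x) F ≠ 0 → eval (up K x) G ≠ 0 →
      (d = 1 ∨ wt v * lam f d F (up K x) ≤ 2 * logHeight x + C1) →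
      (e = 1 ∨ wt v * lam f e G (up K x) ≤ 2 * logHeight x + C1) →
      (wt v * lam f d F (up K x) ≤ (3 + ε) * logHeight x + C1) →
      (wt v * lam f e G (up K x) ≤ (3 + ε) * logHeight x + C1) →
      wt v * (lam f d F (up K x) + lam f e G (up K x)) ≤ (3 + ε) * logHeight x + C := by
  classical
  obtain ⟨B, hB0, hB⟩ := pair_point f hd he hF hG P hP hcommon hli
  have hY : ∀ y : P, ∃ (Z : Finset (Fin 3 → K)) (C : ℝ), (∀ d ∈ Z, d ≠ 0) ∧ 0 ≤ C ∧
      (eval y.1 F = 0 → eval y.1 G = 0 →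
      ∀ x : Fin 3 → k, x ≠ 0 →
      (∀ d ∈ Z, ∑ j, d j * algebraMap k K (x j) ≠ 0) →
      eval (up K x) (lff (tg y.1 F)) ≠ 0 ∧ eval (up K x) (lff (tg y.1 G)) ≠ 0 ∧
      wt v * (lam f 1 (lff (tg y.1 F)) (up K x) + lam f 1 (lff (tg y.1 G)) (up K x)) ≤
        (3 + ε) * logHeight x + C) := by
    intro y
    by_cases h : eval y.1 F = 0 ∧ eval y.1 G = 0
    · obtain ⟨Z, C, hZ, hC⟩ := pairY hi v f hf hF hG y.1 (hP y.1 y.2) h.1 h.2
        (hli y.1 y.2 h.1 h.2) ε hε
      refine ⟨Z, |C|, hZ, abs_nonneg _, fun _ _ x hx hZx => ?_⟩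
      obtain ⟨h1, h2, h3⟩ := hC x hx hZx
      exact ⟨h1, h2, h3.trans (by linarith [le_abs_self C])⟩
    · exact ⟨∅, 0, fun d hd => absurd hd (Finset.notMem_empty _), le_rfl,
        fun h1 h2 => absurd ⟨h1, h2⟩ h⟩
  choose ZY CY hZY hCY0 hCY using hY
  have hT : ∀ y : P, ∃ B' : ℝ, 0 ≤ B' ∧ (eval y.1 F = 0 → eval y.1 G = 0 →
      ∀ x : Fin 3 → K, x ≠ 0 → eval x F ≠ 0 → eval x G ≠ 0 →
      eval x (lff (tg y.1 F)) ≠ 0 → eval x (lff (tg y.1 G)) ≠ 0 → ∀ c : ℝ, B' ≤ c →
      (∀ M : MvPolynomial (Fin 3) K, M.IsHomogeneous 1 → eval y.1 M = 0 → eval x M ≠ 0 →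
        c ≤ lam f 1 M x + B + |Real.log (cs f M)|) →
      min (lam f d F x) (2 * c) ≤ lam f 1 (lff (tg y.1 F)) x + B' ∧
      min (lam f e G x) (2 * c) ≤ lam f 1 (lff (tg y.1 G)) x + B') := by
    intro y
    by_cases h : eval y.1 F = 0 ∧ eval y.1 G = 0
    · obtain ⟨B1, hB10, hB1⟩ := tang f hF y.1 (hP y.1 y.2) h.1 B
      obtain ⟨B2, hB20, hB2⟩ := tang f hG y.1 (hP y.1 y.2) h.2 B
      refine ⟨B1 + B2, by positivity, fun _ _ x hx hFx hGx hTF hTG c hc hlin => ⟨?_, ?_⟩⟩
      · have := hB1 x hx hFx hTF c (by linarith) hlin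
        linarith
      · have := hB2 x hx hGx hTG c (by linarith) hlin
        linarith
    · exact ⟨0, le_rfl, fun h1 h2 => absurd ⟨h1, h2⟩ h⟩
  choose BT hBT0 hBT using hT
  set BS : ℝ := ∑ y, BT y with hBS
  have hBS0 : 0 ≤ BS := Finset.sum_nonneg fun y _ => hBT0 y
  have hBSle : ∀ y, BT y ≤ BS := fun y =>
    Finset.single_le_sum (f := BT) (fun y _ => hBT0 y) (Finset.mem_univ y)
  set CS : ℝ := ∑ y, CY y with hCS
  have hCS0 : 0 ≤ CS := Finset.sum_nonneg fun y _ => hCY0 y
  have hCSle : ∀ y, CY y ≤ CS := fun y =>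
    Finset.single_le_sum (f := CY) (fun y _ => hCY0 y) (Finset.mem_univ y)
  have hw := wt_nonneg v
  refine ⟨Finset.univ.biUnion ZY, CS + C1 + 2 * (wt v * (B + BS)), ?_,
    fun x hx hZx hFx hGx hF1 hG1 hF2 hG2 => ?_⟩
  · intro d hd
    obtain ⟨y, -, h⟩ := Finset.mem_biUnion.1 hd
    exact hZY y d h
  · have hh := logHeight_nonneg x
    -- one of them is bounded
    have hsmall : min (lam f d F (up K x)) (lam f e G (up K x)) ≤ B + BS →
        wt v * (lam f d F (up K x) + lam f e G (up K x)) ≤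
          (3 + ε) * logHeight x + (CS + C1 + 2 * (wt v * (B + BS))) := by
      intro h
      have hb : 0 ≤ wt v * (B + BS) := by positivity
      rcases min_le_iff.1 h with h | h
      · have := mul_le_mul_of_nonneg_left h hw
        linarith [mul_add (wt v) (lam f d F (up K x)) (lam f e G (up K x))]
      · have := mul_le_mul_of_nonneg_left h hw
        linarith [mul_add (wt v) (lam f d F (up K x)) (lam f e G (up K x))]
    rcases hB (up K x) (up_ne hx) hFx hGx with h | ⟨y, hy, hyM⟩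
    · exact hsmall (by linarith)
    · by_cases hc : min (lam f d F (up K x)) (lam f e G (up K x)) < BS
      · exact hsmall (by linarith)
      push Not at hc
      obtain ⟨hyF, hyG⟩ := hPF y hy
      obtain ⟨h1, h2, h3⟩ := hCY ⟨y, hy⟩ hyF hyG x hx fun d hd =>
        hZx d (Finset.mem_biUnion.2 ⟨_, Finset.mem_univ _, hd⟩)
      have hBy := hBSle ⟨y, hy⟩
      have hCy := hCSle ⟨y, hy⟩
      obtain ⟨h4, h5⟩ := hBT ⟨y, hy⟩ hyF hyG (up K x) (up_ne hx) hFx hGx h1 h2 _
        (hBy.trans hc) hyM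
      have hF1' : lam f d F (up K x) = lam f 1 (lff (tg y F)) (up K x) ∨
          wt v * lam f d F (up K x) ≤ 2 * logHeight x + C1 := by
        rcases hF1 with rfl | h
        · left
          rw [lff_tg hF]
        · exact Or.inr h
      have hG1' : lam f e G (up K x) = lam f 1 (lff (tg y G)) (up K x) ∨
          wt v * lam f e G (up K x) ≤ 2 * logHeight x + C1 := by
        rcases hG1 with rfl | h
        · left
          rw [lff_tg hG]
        · exact Or.inr h
      have h3' : wt v * (lam f 1 (lff (tg y F)) (up K x) + lam f 1 (lff (tg y G)) (up K x)) ≤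
          (3 + ε) * logHeight x + CS := h3.trans (by linarith)
      have hmB : wt v * BS ≤ wt v * (B + BS) := mul_le_mul_of_nonneg_left (by linarith) hw
      rcases le_total (lam f e G (up K x)) (lam f d F (up K x)) with hle | hle
      · rw [min_eq_right hle] at h4 h5 hc
        have h4' : min (lam f d F (up K x)) (2 * lam f e G (up K x)) ≤
            lam f 1 (lff (tg y F)) (up K x) + BS := h4.trans (by linarith)
        have h5' : min (lam f e G (up K x)) (2 * lam f e G (up K x)) ≤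
            lam f 1 (lff (tg y G)) (up K x) + BS := h5.trans (by linarith)
        have := arith1 hw hh hε.le hBS0 hCS0 hC1 hF1' hle (by linarith) h4' h5' h3'
        linarith
      · rw [min_eq_left hle] at h4 h5 hc
        have h3'' : wt v * (lam f 1 (lff (tg y G)) (up K x) + lam f 1 (lff (tg y F)) (up K x)) ≤
            (3 + ε) * logHeight x + CS := by
          rw [add_comm (lam f 1 (lff (tg y G)) (up K x))]
          exact h3'
        have h5' : min (lam f e G (up K x)) (2 * lam f d F (up K x)) ≤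
            lam f 1 (lff (tg y G)) (up K x) + BS := h5.trans (by linarith)
        have h4' : min (lam f d F (up K x)) (2 * lam f d F (up K x)) ≤
            lam f 1 (lff (tg y F)) (up K x) + BS := h4.trans (by linarith)
        have := arith1 hw hh hε.le hBS0 hCS0 hC1 hG1' hle (by linarith) h5' h4' h3''
        rw [add_comm (lam f d F (up K x))]
        linarith

/-- the main inequality over a large field -/
theorem core [IsGalois ℚ K] (hi : ∃ z : K, z ^ 2 = -1) (v : Pl k)
    (f : AbsoluteValue K ℝ) (hf : Good v f) {q : ℕ} (F : Fin q → MvPolynomial (Fin 3) K)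
    (d : Fin q → ℕ) (hF : ∀ i, (F i).IsHomogeneous (d i)) (hS : SNC F)
    (hd : ∀ i, d i = 1 ∨ (d i = 2 ∧ ∃ Q : MvPolynomial (Fin 3) k, F i = map (algebraMap k K) Q))
    (P : Finset (Fin 3 → K)) (hP : ∀ y ∈ P, y ≠ 0)
    (hcr : ∀ i j, i ≠ j → ∀ (L : Type) [Field L] [Algebra K L] (x : Fin 3 → L), x ≠ 0 →
      aeval x (F i) = 0 → aeval x (F j) = 0 → ∃ y ∈ P, ∃ c : L, x = c • fun b => algebraMap K L (y b))
    (ε : ℝ) (hε : 0 < ε) :
    ∃ (Z : Finset (Fin 3 → K)) (C : ℝ), (∀ d ∈ Z, d ≠ 0) ∧ ∀ x : Fin 3 → k, x ≠ 0 →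
      (∀ d ∈ Z, ∑ j, d j * algebraMap k K (x j) ≠ 0) → (∀ i, eval (up K x) (F i) ≠ 0) →
      wt v * ∑ i, lam f (d i) (F i) (up K x) ≤ (3 + ε) * logHeight x + C := by
  classical
  have hw := wt_nonneg v
  have hd1 : ∀ i, 1 ≤ d i := by
    intro i
    rcases hd i with h | ⟨h, -⟩ <;> omega
  -- one component
  have hsing : ∀ i, ∃ (Z : Finset (Fin 3 → K)) (C : ℝ), 0 ≤ C ∧ (∀ d ∈ Z, d ≠ 0) ∧
      ∀ x : Fin 3 → k, x ≠ 0 → (∀ d ∈ Z, ∑ j, d j * algebraMap k K (x j) ≠ 0) →
      eval (up K x) (F i) ≠ 0 →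
      (d i = 1 ∨ wt v * lam f (d i) (F i) (up K x) ≤ 2 * logHeight x + C) ∧
      wt v * lam f (d i) (F i) (up K x) ≤ (3 + ε) * logHeight x + C := by
    intro i
    rcases hd i with h | ⟨h, Q, hQ⟩
    · have hF1 : (F i).IsHomogeneous 1 := h ▸ hF i
      by_cases hg : tg 0 (F i) = 0
      · refine ⟨∅, 0, le_rfl, fun d hd => absurd hd (Finset.notMem_empty _),
          fun x hx _ hFx => ?_⟩
        exfalso
        apply hFx
        rw [← lff_tg hF1 0, hg, eval_lff]
        simp
      · obtain ⟨Z, C, hZ, hC⟩ := schLine hi v f hf (tg 0 (F i)) hg ε hε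
        refine ⟨Z, |C|, abs_nonneg _, hZ, fun x hx hZx _ => ⟨Or.inl h, ?_⟩⟩
        have h1 := hC x hx hZx
        rw [lff_tg hF1] at h1
        rw [h]
        have := le_abs_self C
        push_cast at h1
        linarith
    · have hQhom : Q.IsHomogeneous 2 := by
        have h1 : (map (algebraMap k K) Q).IsHomogeneous 2 := by
          rw [← hQ, ← h]
          exact hF i
        intro m hm
        apply h1
        rw [coeff_map, Ne, map_eq_zero]
        exact hm
      obtain ⟨C, hC0, hC⟩ := liou Q 2 hQhom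
      refine ⟨∅, C, hC0, fun d hd => absurd hd (Finset.notMem_empty _), fun x hx _ hFx => ?_⟩
      have hev : eval (up K x) (F i) = algebraMap k K (eval x Q) := by
        rw [hQ]
        exact (eval₂_comp_left (algebraMap k K) (RingHom.id k) x Q ▸ by
          rw [eval_map]
          rfl)
      have hQx : eval x Q ≠ 0 := by
        intro h0
        apply hFx
        rw [hev, h0, map_zero]
      have h1 := hC {v} x hx hQx
      rw [Finset.sum_singleton] at h1
      have h2 : lam f (d i) (F i) (up K x) = lam (av v) 2 Q x := by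
        rw [lam_eq f _ _ (up_ne hx) hFx, lam_eq _ _ _ hx hQx, hev, hf.ext, h]
        congr 3
        exact hf.nrm_ext x
      rw [h2]
      have h3 := mul_le_mul_of_nonneg_left (le_max_right 0 (lam (av v) 2 Q x)) hw
      have h4 := logHeight_nonneg x
      have h5 : 0 ≤ ε * logHeight x := mul_nonneg hε.le h4
      push_cast at h1
      exact ⟨Or.inr (by linarith), by linarith⟩
  choose Z1 C1 hC10 hZ1 hC1 using hsing
  set CC : ℝ := ∑ i, C1 i with hCC
  have hCC0 : 0 ≤ CC := Finset.sum_nonneg fun i _ => hC10 i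
  have hCCle : ∀ i, C1 i ≤ CC := fun i =>
    Finset.single_le_sum (f := C1) (fun i _ => hC10 i) (Finset.mem_univ i)
  -- pairs
  have hpair : ∀ i j, ∃ (Z : Finset (Fin 3 → K)) (C : ℝ), (∀ d ∈ Z, d ≠ 0) ∧ (i ≠ j →
      ∀ x : Fin 3 → k, x ≠ 0 → (∀ d ∈ Z, ∑ j, d j * algebraMap k K (x j) ≠ 0) →
      eval (up K x) (F i) ≠ 0 → eval (up K x) (F j) ≠ 0 →
      (d i = 1 ∨ wt v * lam f (d i) (F i) (up K x) ≤ 2 * logHeight x + CC) →
      (d j = 1 ∨ wt v * lam f (d j) (F j) (up K x) ≤ 2 * logHeight x + CC) →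
      (wt v * lam f (d i) (F i) (up K x) ≤ (3 + ε) * logHeight x + CC) →
      (wt v * lam f (d j) (F j) (up K x) ≤ (3 + ε) * logHeight x + CC) →
      wt v * (lam f (d i) (F i) (up K x) + lam f (d j) (F j) (up K x)) ≤
        (3 + ε) * logHeight x + C) := by
    intro i j
    by_cases hij : i = j
    · exact ⟨∅, 0, fun d hd => absurd hd (Finset.notMem_empty _), fun h => absurd hij h⟩
    · obtain ⟨Z, C, hZ, hC⟩ := pairB hi v f hf (hd1 i) (hd1 j) (hF i) (hF j)
        (P.filter fun y => eval y (F i) = 0 ∧ eval y (F j) = 0)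
        (fun y hy => hP y (Finset.mem_filter.1 hy).1)
        (fun y hy => (Finset.mem_filter.1 hy).2)
        (by
          intro L _ _ x hx h1 h2
          obtain ⟨y, hy, c, hc⟩ := hcr i j hij L x hx h1 h2
          have hc0 : c ≠ 0 := by
            rintro rfl
            apply hx
            rw [hc, zero_smul]
          refine ⟨y, Finset.mem_filter.2 ⟨hy, ?_, ?_⟩, c, hc⟩
          · rw [hc, Pool.Agent.W180.OP.aeval_smul_hom _ (hF i),
              Pool.Agent.W180.OP.aeval_map_K] at h1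
            have := (mul_eq_zero.1 h1).resolve_left (pow_ne_zero _ hc0)
            rwa [map_eq_zero] at this
          · rw [hc, Pool.Agent.W180.OP.aeval_smul_hom _ (hF j),
              Pool.Agent.W180.OP.aeval_map_K] at h2
            have := (mul_eq_zero.1 h2).resolve_left (pow_ne_zero _ hc0)
            rwa [map_eq_zero] at this)
        (fun y hy h1 h2 => hS.pair hij (hP y (Finset.mem_filter.1 hy).1) h1 h2) ε hε CC hCC0
      exact ⟨Z, C, hZ, fun _ => hC⟩
  choose Z2 C2 hZ2 hC2 using hpair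
  -- triples
  have htrip : ∀ i j l, ∃ B : ℝ, i ≠ j → i ≠ l → j ≠ l → ∀ x : Fin 3 → K, x ≠ 0 →
      (∀ i, eval x (F i) ≠ 0) → min (lam f (d i) (F i) x) (min (lam f (d j) (F j) x)
        (lam f (d l) (F l) x)) ≤ B := by
    intro i j l
    by_cases hd3 : i ≠ j ∧ i ≠ l ∧ j ≠ l
    · obtain ⟨B, hB⟩ := min_lam (by norm_num : 0 < 3)
        (![F i, F j, F l] : Fin 3 → MvPolynomial (Fin 3) K) ![d i, d j, d l] (by
          intro l'
          fin_cases l'
          · exact hF i
          · exact hF j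
          · exact hF l) (by
          intro L _ _ x hx
          exact no_triple hF hS hd3.1 hd3.2.1 hd3.2.2 L x (hx 0) (hx 1) (hx 2)) f
      refine ⟨B, fun _ _ _ x hx hFx => ?_⟩
      obtain ⟨l', hl⟩ := hB x hx (by
        intro l'
        fin_cases l'
        · exact hFx i
        · exact hFx j
        · exact hFx l)
      fin_cases l'
      · exact (min_le_left _ _).trans hl
      · exact ((min_le_right _ _).trans (min_le_left _ _)).trans hl
      · exact ((min_le_right _ _).trans (min_le_right _ _)).trans hl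
    · exact ⟨0, fun h1 h2 h3 => absurd ⟨h1, h2, h3⟩ hd3⟩
  choose B3 hB3 using htrip
  set B' : ℝ := ∑ i, ∑ j, ∑ l, |B3 i j l| with hB'def
  have hB'n : 0 ≤ B' := Finset.sum_nonneg fun _ _ => Finset.sum_nonneg fun _ _ =>
    Finset.sum_nonneg fun _ _ => abs_nonneg _
  set B : ℝ := CC + ∑ i, ∑ j, |C2 i j| with hBdef
  have hBn : 0 ≤ B := add_nonneg hCC0
    (Finset.sum_nonneg fun _ _ => Finset.sum_nonneg fun _ _ => abs_nonneg _)
  refine ⟨Finset.univ.biUnion Z1 ∪ Finset.univ.biUnion fun i => Finset.univ.biUnion (Z2 i),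
    B + q * (wt v * B'), ?_, fun x hx hZx hFx => ?_⟩
  · intro d hd
    rcases Finset.mem_union.1 hd with h | h
    · obtain ⟨i, -, h⟩ := Finset.mem_biUnion.1 h
      exact hZ1 i d h
    · obtain ⟨i, -, h⟩ := Finset.mem_biUnion.1 h
      obtain ⟨j, -, h⟩ := Finset.mem_biUnion.1 h
      exact hZ2 i j d h
  have hx0 := logHeight_nonneg x
  have hs : ∀ i, (d i = 1 ∨ wt v * lam f (d i) (F i) (up K x) ≤ 2 * logHeight x + CC) ∧
      wt v * lam f (d i) (F i) (up K x) ≤ (3 + ε) * logHeight x + CC := by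
    intro i
    obtain ⟨h1, h2⟩ := hC1 i x hx (fun d hd => hZx d (Finset.mem_union_left _
      (Finset.mem_biUnion.2 ⟨i, Finset.mem_univ _, hd⟩))) (hFx i)
    have := hCCle i
    refine ⟨?_, by linarith⟩
    rcases h1 with h1 | h1
    · exact Or.inl h1
    · exact Or.inr (by linarith)
  rw [Finset.mul_sum]
  refine (sum_le_of_few (fun i => wt v * lam f (d i) (F i) (up K x)) (wt v * B')
    ((3 + ε) * logHeight x + B) (by positivity) (by positivity) ?_ ?_ ?_).trans
      (le_of_eq (by ring))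
  · intro i j l hij hik hjk
    have h5 := hB3 i j l hij hik hjk (up K x) (up_ne hx) hFx
    have h6 : B3 i j l ≤ B' := by
      refine (le_abs_self _).trans ?_
      refine (Finset.single_le_sum (f := fun l => |B3 i j l|) (fun _ _ => abs_nonneg _)
        (Finset.mem_univ l)).trans ?_
      refine (Finset.single_le_sum (f := fun j => ∑ l, |B3 i j l|)
        (fun _ _ => Finset.sum_nonneg fun _ _ => abs_nonneg _) (Finset.mem_univ j)).trans ?_
      exact Finset.single_le_sum (f := fun i => ∑ j, ∑ l, |B3 i j l|)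
        (fun _ _ => Finset.sum_nonneg fun _ _ => Finset.sum_nonneg fun _ _ => abs_nonneg _)
        (Finset.mem_univ i)
    rw [← mul_min_of_nonneg _ _ hw, ← mul_min_of_nonneg _ _ hw]
    exact mul_le_mul_of_nonneg_left (h5.trans h6) hw
  · intro i
    have h5 := (hs i).2
    have g2 : 0 ≤ ∑ i, ∑ j, |C2 i j| :=
      Finset.sum_nonneg fun _ _ => Finset.sum_nonneg fun _ _ => abs_nonneg _
    show wt v * lam f (d i) (F i) (up K x) ≤ (3 + ε) * logHeight x + B
    linarith
  · intro i j hij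
    have h5 := hC2 i j hij x hx (fun d hd => hZx d (Finset.mem_union_right _
      (Finset.mem_biUnion.2 ⟨i, Finset.mem_univ _, Finset.mem_biUnion.2
        ⟨j, Finset.mem_univ _, hd⟩⟩))) (hFx i) (hFx j) (hs i).1 (hs j).1 (hs i).2 (hs j).2
    have h6 : C2 i j ≤ B := by
      have g1 : |C2 i j| ≤ ∑ i, ∑ j, |C2 i j| := by
        refine (Finset.single_le_sum (f := fun j => |C2 i j|) (fun _ _ => abs_nonneg _)
          (Finset.mem_univ j)).trans ?_
        exact Finset.single_le_sum (f := fun i => ∑ j, |C2 i j|)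
          (fun _ _ => Finset.sum_nonneg fun _ _ => abs_nonneg _) (Finset.mem_univ i)
      have := le_abs_self (C2 i j)
      linarith
    show wt v * lam f (d i) (F i) (up K x) + wt v * lam f (d j) (F j) (up K x) ≤
      (3 + ε) * logHeight x + B
    linarith [mul_add (wt v) (lam f (d i) (F i) (up K x)) (lam f (d j) (F j) (up K x))]

end Pool.Agent.R405
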