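import Mathlib
import Pool.Agent.R405.Line
import Pool.Agent.R405.Alg
import Pool.Agent.R405.Big

/-!
Vojta's inequality in the plane at one place for lines and conics, with the exceptional lines.
-/

set_option autoImplicit false
set_option linter.unusedSectionVars false

open Finset

namespace Pool.Agent.R405

open NumberField IsDedekindDomain Height Module MvPolynomial
open Pool.Agent.W180.OP (Pl av wt nrm le_nrm nrm_pos nrm_nonneg nrm_le exists_nrm lam lam_eq liou
  wt_nonneg cs SNC bc bc_hom eval_bc common_bc lam_smul eval_smul_hom)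

section prelim

variable {k K : Type} [Field k] [Field K] [Algebra k K]

/-- a linear form over an extension gives a linear form over the base -/
theorem descend [FiniteDimensional k K] {n : ℕ} (d : Fin n → K) (hd : d ≠ 0) :
    ∃ m : Fin n → k, m ≠ 0 ∧ ∀ x : Fin n → k, ∑ j, m j * x j ≠ 0 →
      ∑ j, d j * algebraMap k K (x j) ≠ 0 := by
  classical
  let β := Module.finBasis k K
  obtain ⟨j0, hj0⟩ := Function.ne_iff.1 hd
  obtain ⟨r, hr⟩ : ∃ r, β.repr (d j0) r ≠ 0 := by
    by_contra hcon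
    push Not at hcon
    apply hj0
    have : β.repr (d j0) = 0 := Finsupp.ext hcon
    simpa using this
  refine ⟨fun j => β.repr (d j) r, fun h => hr (congrFun h j0), fun x hx h0 => hx ?_⟩
  have h1 : ∑ j, d j * algebraMap k K (x j) = ∑ j, x j • d j :=
    Finset.sum_congr rfl fun j _ => by rw [Algebra.smul_def, mul_comm]
  rw [h1] at h0
  have h2 := congrArg (fun y => β.repr y r) h0
  simp only [map_sum, map_smul, Finsupp.finsetSum_apply, Finsupp.smul_apply, smul_eq_mul,
    map_zero, Finsupp.zero_apply] at h2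
  rw [← h2]
  exact Finset.sum_congr rfl fun j _ => mul_comm _ _

/-- only one rational line passes through an irrational point -/
theorem unique_line (m m' : Fin 3 → k) (hm : m ≠ 0) (y : Fin 3 → K)
    (hy : ¬ ∃ (y0 : Fin 3 → k) (c : K), y = c • fun b => algebraMap k K (y0 b))
    (h : ∑ b, algebraMap k K (m b) * y b = 0) (h' : ∑ b, algebraMap k K (m' b) * y b = 0)
    (x : Fin 3 → k) (hx : ∑ j, m j * x j = 0) : ∑ j, m' j * x j = 0 := by
  classical
  by_contra hcon
  apply hy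
  -- `m` and `m'` are independent
  have hli : LinearIndependent k ![m, m'] := by
    rw [LinearIndependent.pair_iff]
    intro s t hst
    have h1 : t * ∑ j, m' j * x j = 0 := by
      have h2 : ∑ j, (s • m + t • m') j * x j = 0 := by
        rw [hst]
        simp
      simp only [Pi.add_apply, Pi.smul_apply, smul_eq_mul, add_mul, Finset.sum_add_distrib,
        mul_assoc, ← Finset.mul_sum] at h2
      rw [hx, mul_zero, zero_add] at h2
      exact h2
    have ht : t = 0 := (mul_eq_zero.1 h1).resolve_right hcon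
    rw [ht, zero_smul, add_zero] at hst
    exact ⟨(smul_eq_zero.1 hst).resolve_right hm, ht⟩
  set w := crossProduct m m' with hw
  have hw0 : w ≠ 0 := crossProduct_ne_zero_iff_linearIndependent.2 hli
  obtain ⟨a, ha⟩ := Function.ne_iff.1 hw0
  have ha' : algebraMap k K (w a) ≠ 0 := by
    rw [Ne, map_eq_zero]
    exact ha
  refine ⟨w, y a / algebraMap k K (w a), ?_⟩
  have w0 : w 0 = m 1 * m' 2 - m 2 * m' 1 := by simp [hw, cross_apply]
  have w1 : w 1 = m 2 * m' 0 - m 0 * m' 2 := by simp [hw, cross_apply]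
  have w2 : w 2 = m 0 * m' 1 - m 1 * m' 0 := by simp [hw, cross_apply]
  rw [Fin.sum_univ_three] at h h'
  have k01 : y 0 * algebraMap k K (w 1) = y 1 * algebraMap k K (w 0) := by
    rw [w0, w1]
    simp only [map_sub, map_mul]
    linear_combination algebraMap k K (m 2) * h' - algebraMap k K (m' 2) * h
  have k02 : y 0 * algebraMap k K (w 2) = y 2 * algebraMap k K (w 0) := by
    rw [w0, w2]
    simp only [map_sub, map_mul]
    linear_combination algebraMap k K (m' 1) * h - algebraMap k K (m 1) * h'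
  have k12 : y 1 * algebraMap k K (w 2) = y 2 * algebraMap k K (w 1) := by
    rw [w1, w2]
    simp only [map_sub, map_mul]
    linear_combination algebraMap k K (m 0) * h' - algebraMap k K (m' 0) * h
  have hpar : ∀ b c, y b * algebraMap k K (w c) = y c * algebraMap k K (w b) := by
    intro b c
    fin_cases b <;> fin_cases c
    · rfl
    · exact k01
    · exact k02
    · exact k01.symm
    · rfl
    · exact k12
    · exact k02.symm
    · exact k12.symm
    · rfl
  funext b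
  rw [Pi.smul_apply, smul_eq_mul, div_mul_eq_mul_div, eq_div_iff ha']
  exact hpar b a

end prelim

section main

variable {k K : Type} [Field k] [NumberField k] [Field K] [NumberField K] [Algebra k K]

/-- the excess -/
noncomputable def ex (v : Pl k) (e : ℕ) (F0 : MvPolynomial (Fin 3) k) (ε : ℝ) (x : Fin 3 → k) : ℝ :=
  wt v * lam (av v) e F0 x - (3 + ε) * logHeight x

theorem ex_smul (v : Pl k) (e : ℕ) {F0 : MvPolynomial (Fin 3) k} (hF0 : F0.IsHomogeneous e) (ε : ℝ)
    {x : Fin 3 → k} (hx : x ≠ 0) (hFx : eval x F0 ≠ 0) {c : k} (hc : c ≠ 0) :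
    ex v e F0 ε (c • x) = ex v e F0 ε x := by
  unfold ex
  rw [lam_smul _ F0 hF0 c hc x hx hFx, logHeight_smul_eq_logHeight _ hc]

theorem lam_prod {v : Pl k} {f : AbsoluteValue K ℝ} (hf : Good v f) {q : ℕ}
    (F : Fin q → MvPolynomial (Fin 3) K) (d : Fin q → ℕ) (F0 : MvPolynomial (Fin 3) k)
    (hF0 : map (algebraMap k K) F0 = ∏ i, F i) {x : Fin 3 → k} (hx : x ≠ 0)
    (hFx : eval x F0 ≠ 0) :
    (∀ i, eval (up K x) (F i) ≠ 0) ∧
    ∑ i, lam f (d i) (F i) (up K x) = lam (av v) (∑ i, d i) F0 x := by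
  have h1 : ∏ i, eval (up K x) (F i) = algebraMap k K (eval x F0) := by
    rw [← eval_up, hF0, map_prod]
  have h2 : ∀ i, eval (up K x) (F i) ≠ 0 := by
    intro i h
    have h3 : ∏ i, eval (up K x) (F i) = 0 := Finset.prod_eq_zero (Finset.mem_univ i) h
    rw [h1, map_eq_zero] at h3
    exact hFx h3
  refine ⟨h2, ?_⟩
  rw [lam_eq _ _ _ hx hFx, ← hf.ext, ← h1, map_prod, Real.log_prod (fun i _ =>
    (f.pos_iff.2 (h2 i)).ne')]
  rw [Finset.sum_congr rfl fun i _ => lam_eq f (d i) (F i) (up_ne hx) (h2 i),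
    Finset.sum_sub_distrib, ← Finset.sum_mul, nrm_up hf]
  push_cast
  rfl

/-- the constant for one rational line -/
theorem lineConst [IsGalois ℚ K] (hi : ∃ z : K, z ^ 2 = -1) (v : Pl k)
    (f : AbsoluteValue K ℝ) (hf : Good v f) {q : ℕ} (F : Fin q → MvPolynomial (Fin 3) K)
    (d : Fin q → ℕ) (hF : ∀ i, (F i).IsHomogeneous (d i)) (hS : SNC F)
    (hd : ∀ i, d i = 1 ∨ (d i = 2 ∧ ∃ Q : MvPolynomial (Fin 3) k, F i = map (algebraMap k K) Q))
    (P : Finset (Fin 3 → K)) (hP : ∀ y ∈ P, y ≠ 0)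
    (hcr : ∀ i j, i ≠ j → ∀ (L : Type) [Field L] [Algebra K L] (x : Fin 3 → L), x ≠ 0 →
      aeval x (F i) = 0 → aeval x (F j) = 0 → ∃ y ∈ P, ∃ c : L, x = c • fun b => algebraMap K L (y b))
    (F0 : MvPolynomial (Fin 3) k) (hF0 : map (algebraMap k K) F0 = ∏ i, F i)
    (hF0h : F0.IsHomogeneous (∑ i, d i))
    (m : Fin 3 → k) (hm : m ≠ 0)
    (hnode : ∀ y ∈ P, ∀ i j, i ≠ j → eval y (F i) = 0 → eval y (F j) = 0 →
      ∑ b, algebraMap k K (m b) * y b = 0 → ∃ (y0 : Fin 3 → k) (c : K), y = c • up K y0)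
    (ε : ℝ) (hε : 0 < ε) :
    ∃ C : ℝ, 0 ≤ C ∧ ∀ x : Fin 3 → k, x ≠ 0 → ∑ j, m j * x j = 0 → eval x F0 ≠ 0 →
      ex v (∑ i, d i) F0 ε x ≤ C := by
  classical
  obtain ⟨a, ha⟩ := Function.ne_iff.1 hm
  have ha' : m a ≠ 0 := ha
  obtain ⟨Z, C, hZ, hC⟩ := onLine hi v f hf F d hF hS hd P hP hcr m a ha' hnode ε hε
  -- the exceptional points
  have hpt : ∀ e : Fin 2 → K, ∃ C : ℝ, 0 ≤ C ∧ (e ≠ 0 → ∀ x : Fin 3 → k, x ≠ 0 →
      ∑ j, m j * x j = 0 → eval x F0 ≠ 0 →
      ∑ i, e i * algebraMap k K (x (a.succAbove i)) = 0 → ex v (∑ i, d i) F0 ε x ≤ C) := by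
    intro e
    by_cases h : e ≠ 0 ∧ ∃ x : Fin 3 → k, x ≠ 0 ∧ ∑ j, m j * x j = 0 ∧ eval x F0 ≠ 0 ∧
      ∑ i, e i * algebraMap k K (x (a.succAbove i)) = 0
    · obtain ⟨he, x0, hx0, hmx0, hFx0, hex0⟩ := h
      refine ⟨|ex v (∑ i, d i) F0 ε x0|, abs_nonneg _, fun _ x hx hmx hFx hex => ?_⟩
      -- `x` and `x0` are proportional
      have hdet : x (a.succAbove 0) * x0 (a.succAbove 1) =
          x (a.succAbove 1) * x0 (a.succAbove 0) := by
        rw [Fin.sum_univ_two] at hex hex0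
        apply (algebraMap k K).injective
        rw [map_mul, map_mul]
        obtain ⟨i, hi'⟩ := Function.ne_iff.1 he
        fin_cases i
        · have h0 : e 0 ≠ 0 := hi'
          apply mul_left_cancel₀ h0
          linear_combination algebraMap k K (x0 (a.succAbove 1)) * hex -
            algebraMap k K (x (a.succAbove 1)) * hex0
        · have h0 : e 1 ≠ 0 := hi'
          apply mul_left_cancel₀ h0
          linear_combination algebraMap k K (x (a.succAbove 0)) * hex0 -
            algebraMap k K (x0 (a.succAbove 0)) * hex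
      have hxa : ∀ x : Fin 3 → k, ∑ j, m j * x j = 0 →
          m a * x a = -(m (a.succAbove 0) * x (a.succAbove 0) +
            m (a.succAbove 1) * x (a.succAbove 1)) := by
        intro x hmx
        rw [Fin.sum_univ_succAbove _ a, Fin.sum_univ_two] at hmx
        linear_combination hmx
      have hcov : ∀ j : Fin 3, j = a ∨ j = a.succAbove 0 ∨ j = a.succAbove 1 := by
        intro j
        by_cases hj : j = a
        · exact Or.inl hj
        · obtain ⟨i, hi'⟩ := Fin.exists_succAbove_eq hj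
          fin_cases i
          · exact Or.inr (Or.inl hi'.symm)
          · exact Or.inr (Or.inr hi'.symm)
      -- a nonzero coordinate of `x0` among the last two
      obtain ⟨i, hi0⟩ : ∃ i : Fin 2, x0 (a.succAbove i) ≠ 0 := by
        by_contra hcon
        push Not at hcon
        apply hx0
        funext j
        rcases hcov j with rfl | rfl | rfl
        · have h1 := hxa x0 hmx0
          rw [hcon 0, hcon 1, mul_zero, mul_zero, add_zero, neg_zero] at h1
          exact (mul_eq_zero.1 h1).resolve_left ha'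
        · exact hcon 0
        · exact hcon 1
      have hxx : x = (x (a.succAbove i) / x0 (a.succAbove i)) • x0 := by
        have h01 : ∀ i' : Fin 2, x (a.succAbove i') * x0 (a.succAbove i) =
            x (a.succAbove i) * x0 (a.succAbove i') := by
          intro i'
          fin_cases i <;> fin_cases i'
          · rfl
          · exact hdet.symm
          · exact hdet
          · rfl
        funext j
        rw [Pi.smul_apply, smul_eq_mul, div_mul_eq_mul_div, eq_div_iff hi0]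
        rcases hcov j with rfl | rfl | rfl
        · apply mul_left_cancel₀ ha'
          have e1 := hxa x hmx
          have e2 := hxa x0 hmx0
          have e3 := h01 0
          have e4 := h01 1
          linear_combination x0 (j.succAbove i) * e1 - x (j.succAbove i) * e2 -
            m (j.succAbove 0) * e3 - m (j.succAbove 1) * e4
        · exact h01 0
        · exact h01 1
      have hc0 : x (a.succAbove i) / x0 (a.succAbove i) ≠ 0 := by
        intro h
        apply hx
        rw [hxx, h, zero_smul]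
      rw [hxx, ex_smul v _ hF0h ε hx0 hFx0 hc0]
      exact le_abs_self _
    · refine ⟨0, le_rfl, fun he x hx hmx hFx hex => absurd ⟨he, x, hx, hmx, hFx, hex⟩ h⟩
  choose C3 hC30 hC3 using hpt
  refine ⟨|C| + ∑ e ∈ Z, C3 e, add_nonneg (abs_nonneg _) (Finset.sum_nonneg fun e _ => hC30 e),
    fun x hx hmx hFx => ?_⟩
  have hs0 : 0 ≤ ∑ e ∈ Z, C3 e := Finset.sum_nonneg fun e _ => hC30 e
  by_cases h : ∀ e ∈ Z, ∑ i, e i * algebraMap k K (x (a.succAbove i)) ≠ 0
  · obtain ⟨h1, h2⟩ := lam_prod hf F d F0 hF0 hx hFx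
    have h3 := hC x hx hmx h h1
    rw [h2] at h3
    unfold ex
    have := le_abs_self C
    linarith
  · push Not at h
    obtain ⟨e, he, hex⟩ := h
    have h1 := hC3 e (hZ e he) x hx hmx hFx hex
    have h2 : C3 e ≤ ∑ e ∈ Z, C3 e := Finset.single_le_sum (f := C3) (fun e _ => hC30 e) he
    have := abs_nonneg C
    linarith

/-- the main theorem over a large field -/
theorem mainK [IsGalois ℚ K] (hi : ∃ z : K, z ^ 2 = -1) {q : ℕ}
    (F : Fin q → MvPolynomial (Fin 3) K)
    (d : Fin q → ℕ) (hF : ∀ i, (F i).IsHomogeneous (d i)) (hS : SNC F)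
    (hd : ∀ i, d i = 1 ∨ (d i = 2 ∧ ∃ Q : MvPolynomial (Fin 3) k, F i = map (algebraMap k K) Q))
    (P : Finset (Fin 3 → K)) (hP : ∀ y ∈ P, y ≠ 0)
    (hcr : ∀ i j, i ≠ j → ∀ (L : Type) [Field L] [Algebra K L] (x : Fin 3 → L), x ≠ 0 →
      aeval x (F i) = 0 → aeval x (F j) = 0 → ∃ y ∈ P, ∃ c : L, x = c • fun b => algebraMap K L (y b))
    (F0 : MvPolynomial (Fin 3) k) (hF0 : map (algebraMap k K) F0 = ∏ i, F i)
    (v : Pl k) (ε : ℝ) (hε : 0 < ε) :
    ∃ C : ℝ, ∀ x : Fin 3 → k, x ≠ 0 → eval x F0 ≠ 0 →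
      (∀ m : Fin 3 → k, m ≠ 0 → (∃ y ∈ P, (∃ i j, i ≠ j ∧ eval y (F i) = 0 ∧ eval y (F j) = 0) ∧
        (¬ ∃ (y0 : Fin 3 → k) (c : K), y = c • up K y0) ∧
        ∑ b, algebraMap k K (m b) * y b = 0) → ∑ j, m j * x j ≠ 0) →
      wt v * lam (av v) (∑ i, d i) F0 x ≤ (3 + ε) * logHeight x + C := by
  classical
  obtain ⟨f, hf⟩ := exists_good (K := K) v
  have hfd : FiniteDimensional k K := Module.Finite.of_restrictScalars_finite ℚ k K
  have hF0h : F0.IsHomogeneous (∑ i, d i) := by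
    refine hom_of_map (K := K) ?_
    rw [hF0]
    exact IsHomogeneous.prod _ _ _ fun i _ => hF i
  obtain ⟨Z, C0, hZ, hC0⟩ := core hi v f hf F d hF hS hd P hP hcr ε hε
  have hline : ∀ g : Fin 3 → K, ∃ C : ℝ, 0 ≤ C ∧ (g ≠ 0 → ∀ x : Fin 3 → k, x ≠ 0 →
      eval x F0 ≠ 0 → ∑ j, g j * algebraMap k K (x j) = 0 →
      (∀ m : Fin 3 → k, m ≠ 0 → (∃ y ∈ P, (∃ i j, i ≠ j ∧ eval y (F i) = 0 ∧ eval y (F j) = 0) ∧
        (¬ ∃ (y0 : Fin 3 → k) (c : K), y = c • up K y0) ∧
        ∑ b, algebraMap k K (m b) * y b = 0) → ∑ j, m j * x j ≠ 0) →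
      ex v (∑ i, d i) F0 ε x ≤ C) := by
    intro g
    by_cases hg : g = 0
    · exact ⟨0, le_rfl, fun h => absurd hg h⟩
    obtain ⟨m, hm, hmx⟩ := descend (k := k) g hg
    by_cases hb : ∃ y ∈ P, (∃ i j, i ≠ j ∧ eval y (F i) = 0 ∧ eval y (F j) = 0) ∧
        (¬ ∃ (y0 : Fin 3 → k) (c : K), y = c • up K y0) ∧
        ∑ b, algebraMap k K (m b) * y b = 0
    · refine ⟨0, le_rfl, fun _ x hx hFx hgx hbad => ?_⟩
      exact absurd hgx (hmx x (hbad m hm hb))
    · obtain ⟨C, hC0, hC⟩ := lineConst hi v f hf F d hF hS hd P hP hcr F0 hF0 hF0h m hm (by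
        intro y hy i j hij h1 h2 h3
        by_contra hcon
        exact hb ⟨y, hy, ⟨i, j, hij, h1, h2⟩, hcon, h3⟩) ε hε
      refine ⟨C, hC0, fun _ x hx hFx hgx hbad => hC x hx ?_ hFx⟩
      by_contra h
      exact hmx x h hgx
  choose C1 hC10 hC1 using hline
  refine ⟨|C0| + ∑ g ∈ Z, C1 g, fun x hx hFx hbad => ?_⟩
  have hs0 : 0 ≤ ∑ e ∈ Z, C1 e := Finset.sum_nonneg fun e _ => hC10 e
  by_cases h : ∀ g ∈ Z, ∑ j, g j * algebraMap k K (x j) ≠ 0
  · obtain ⟨h1, h2⟩ := lam_prod hf F d F0 hF0 hx hFx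
    have h3 := hC0 x hx h h1
    rw [h2] at h3
    have := le_abs_self C0
    linarith
  · push Not at h
    obtain ⟨g, hg, hgx⟩ := h
    have h1 := hC1 g (hZ g hg) x hx hFx hgx hbad
    have h2 : C1 g ≤ ∑ e ∈ Z, C1 e := Finset.single_le_sum (f := C1) (fun e _ => hC10 e) hg
    have := abs_nonneg C0
    unfold ex at h1
    linarith

end main

section final

variable {k K : Type} [Field k] [NumberField k] [Field K] [NumberField K] [Algebra k K]

/-- the rational line `m` passes through an irrational crossing point of two components -/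
def Bad (k : Type) {K : Type} [Field k] [Field K] [Algebra k K] {q : ℕ}
    (F : Fin q → MvPolynomial (Fin 3) K) (m : Fin 3 → k) : Prop :=
  ∃ (L : Type) (_ : Field L) (_ : Algebra K L) (y : Fin 3 → L), y ≠ 0 ∧
    (∃ i j, i ≠ j ∧ aeval y (F i) = 0 ∧ aeval y (F j) = 0) ∧
    (¬ ∃ (y0 : Fin 3 → k) (c : L), y = c • fun b => algebraMap K L (algebraMap k K (y0 b))) ∧
    ∑ b, algebraMap K L (algebraMap k K (m b)) * y b = 0

/-- the main theorem -/
theorem mainT {q : ℕ} (F : Fin q → MvPolynomial (Fin 3) K)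
    (d : Fin q → ℕ) (hF : ∀ i, (F i).IsHomogeneous (d i)) (hS : SNC F)
    (hd : ∀ i, d i = 1 ∨ (d i = 2 ∧ ∃ Q : MvPolynomial (Fin 3) k, F i = map (algebraMap k K) Q))
    (F0 : MvPolynomial (Fin 3) k) (hF0 : map (algebraMap k K) F0 = ∏ i, F i) :
    ∃ Z : Finset (Fin 3 → k), (∀ m ∈ Z, m ≠ 0 ∧ Bad k F m) ∧
      ∀ (v : Pl k) (ε : ℝ), 0 < ε → ∃ C : ℝ, ∀ x : Fin 3 → k, x ≠ 0 → eval x F0 ≠ 0 →
        (∀ m ∈ Z, ∑ j, m j * x j ≠ 0) →
        wt v * lam (av v) (∑ i, d i) F0 x ≤ (3 + ε) * logHeight x + C := by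
  classical
  obtain ⟨K1, hfd1, P, hP, hcr⟩ := exists_cross F d hF hS
  have : FiniteDimensional ℚ K1 := Module.Finite.trans (R := ℚ) K K1
  have : NumberField K1 := ⟨⟩
  obtain ⟨M, hM1, hM2, hi, ⟨φ⟩⟩ := exists_big K1
  have : NumberField M := ⟨⟩
  let _ : Algebra K1 M := φ.toAlgebra
  let _ : Algebra K M := (φ.comp (algebraMap K K1)).toAlgebra
  let _ : Algebra k M := ((φ.comp (algebraMap K K1)).comp (algebraMap k K)).toAlgebra
  have : IsScalarTower K K1 M := IsScalarTower.of_algebraMap_eq fun _ => rfl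
  have : IsScalarTower k K M := IsScalarTower.of_algebraMap_eq fun _ => rfl
  have hFM : ∀ i, bc M (bc K1 (F i)) = bc M (F i) := by
    intro i
    rw [bc, bc, bc, MvPolynomial.map_map]
    rfl
  set PM : Finset (Fin 3 → M) := P.image fun y => fun b => algebraMap K1 M (y b) with hPM
  have hPM0 : ∀ y ∈ PM, y ≠ 0 := by
    intro y hy h0
    obtain ⟨z, hz, rfl⟩ := Finset.mem_image.1 hy
    apply hP z hz
    funext b
    have := congrFun h0 b
    simpa using this
  have hcrM : ∀ i j, i ≠ j → ∀ (L : Type) [Field L] [Algebra M L] (x : Fin 3 → L), x ≠ 0 →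
      aeval x (bc M (F i)) = 0 → aeval x (bc M (F j)) = 0 →
      ∃ y ∈ PM, ∃ c : L, x = c • fun b => algebraMap M L (y b) := by
    intro i j hij L _ _ x hx h1 h2
    rw [← hFM] at h1 h2
    obtain ⟨y, c, h⟩ := common_bc (fun y : P => y.1) (by
      intro L' _ _ x' hx' h1' h2'
      obtain ⟨y, hy, c, hc⟩ := hcr i j hij L' x' hx' h1' h2'
      exact ⟨⟨y, hy⟩, c, hc⟩) M L x hx h1 h2
    exact ⟨_, Finset.mem_image_of_mem _ y.2, c, h⟩
  -- the exceptional lines
  let B : (Fin 3 → M) → (Fin 3 → k) → Prop := fun y m => m ≠ 0 ∧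
    (∃ i j, i ≠ j ∧ eval y (bc M (F i)) = 0 ∧ eval y (bc M (F j)) = 0) ∧
    (¬ ∃ (y0 : Fin 3 → k) (c : M), y = c • up M y0) ∧ ∑ b, algebraMap k M (m b) * y b = 0
  let c0 : (Fin 3 → M) → (Fin 3 → k) := fun y => if h : ∃ m, B y m then h.choose else 0
  have hc0 : ∀ y, (∃ m, B y m) → B y (c0 y) := by
    intro y h
    show B y (if h : ∃ m, B y m then h.choose else 0)
    rw [dif_pos h]
    exact h.choose_spec
  refine ⟨(PM.filter fun y => ∃ m, B y m).image c0, ?_, ?_⟩
  · intro m hm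
    obtain ⟨y, hy, rfl⟩ := Finset.mem_image.1 hm
    rw [Finset.mem_filter] at hy
    obtain ⟨h1, ⟨i, j, hij, h2, h3⟩, h4, h5⟩ := hc0 y hy.2
    refine ⟨h1, M, inferInstance, inferInstance, y, hPM0 y hy.1, ⟨i, j, hij, ?_, ?_⟩, h4, h5⟩
    · rw [← eval_bc]
      exact h2
    · rw [← eval_bc]
      exact h3
  · intro v ε hε
    obtain ⟨C, hC⟩ := mainK (k := k) (K := M) hi (fun i => bc M (F i)) d
      (fun i => bc_hom (hF i)) (hS.bc M) (by
        intro i
        rcases hd i with h | ⟨h, Q, hQ⟩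
        · exact Or.inl h
        · refine Or.inr ⟨h, Q, ?_⟩
          rw [hQ, bc, MvPolynomial.map_map]
          rfl) PM hPM0 hcrM F0 (by
        have h1 := congrArg (map (algebraMap K M)) hF0
        rw [MvPolynomial.map_map, map_prod] at h1
        exact h1) v ε hε
    refine ⟨C, fun x hx hFx hZx => hC x hx hFx ?_⟩
    rintro m hm ⟨y, hy, h1, h2, h3⟩ hmx
    have hB : B y m := ⟨hm, h1, h2, h3⟩
    obtain ⟨g1, g2, g3, g4⟩ := hc0 y ⟨m, hB⟩
    refine hZx (c0 y) (Finset.mem_image_of_mem _ (Finset.mem_filter.2 ⟨hy, m, hB⟩)) ?_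
    exact unique_line m (c0 y) hm y h2 h3 g4 x hmx

end final

end Pool.Agent.R405
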