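import Mathlib

/-!
An abstract gap principle: points in one family, with local heights with respect to finitely many
targets at finitely many places.
-/

set_option autoImplicit false
set_option linter.unusedSectionVars false

open Finset

namespace Pool.Agent.R405.AQ

private theorem min_aux {a b η s : ℝ} {N : ℕ} (hη : 0 < η) (hs : 0 ≤ s) (hb : -s ≤ b)
    (h : min ⌊max 0 a / η⌋₊ N = min ⌊max 0 b / η⌋₊ N) {t : ℝ} (ht : 0 ≤ t) (htN : t ≤ N * η) :
    min a t - η - s ≤ min a b := by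
  rcases lt_or_ge ⌊max 0 a / η⌋₊ N with hlt | hge
  · have h' : ⌊max 0 a / η⌋₊ = ⌊max 0 b / η⌋₊ := by
      rw [min_eq_left hlt.le] at h
      rcases le_total ⌊max 0 b / η⌋₊ N with h2 | h2
      · rwa [min_eq_left h2] at h
      · rw [min_eq_right h2] at h
        omega
    refine le_min (by linarith [min_le_left a t]) ?_
    have h1 : max 0 a / η < ⌊max 0 a / η⌋₊ + 1 := Nat.lt_floor_add_one _
    have h2 : (⌊max 0 b / η⌋₊ : ℝ) ≤ max 0 b / η :=
      Nat.floor_le (div_nonneg (le_max_left _ _) hη.le)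
    rw [h'] at h1
    have h3 : max 0 a / η < max 0 b / η + 1 := by linarith
    have h4 : max 0 a < max 0 b + η := by
      have := mul_lt_mul_of_pos_right h3 hη
      rwa [div_mul_cancel₀ _ hη.ne', add_mul, div_mul_cancel₀ _ hη.ne', one_mul] at this
    have h5 := le_max_right 0 a
    have h6 := min_le_left a t
    rcases le_total 0 b with hb0 | hb0
    · rw [max_eq_right hb0] at h4
      linarith
    · rw [max_eq_left hb0] at h4
      linarith
  · have key : ∀ c : ℝ, N ≤ ⌊max 0 c / η⌋₊ → t ≤ max 0 c := by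
      intro c hc
      have h1 : ((N : ℕ) : ℝ) ≤ max 0 c / η :=
        le_trans (by exact_mod_cast hc) (Nat.floor_le (div_nonneg (le_max_left _ _) hη.le))
      rw [le_div_iff₀ hη] at h1
      linarith
    have hb' : N ≤ ⌊max 0 b / η⌋₊ := by
      rw [min_eq_right hge] at h
      rw [h]
      exact min_le_left _ _
    have h1 := key a hge
    have h2 := key b hb'
    have h6 := min_le_left a t
    have h7 := min_le_right a t
    refine le_min (by linarith) ?_
    rcases le_total 0 b with hb0 | hb0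
    · rw [max_eq_right hb0] at h2
      linarith
    · rw [max_eq_left hb0] at h2
      linarith

/-- the data of the gap principle -/
structure Gap (α τ : Type) [Fintype τ] (q : ℕ) (s c1 c2 : ℝ) where
  /-- the local heights -/
  l : α → τ → Fin q → ℝ
  /-- the height -/
  h : α → ℝ
  /-- lower bound -/
  lo : ∀ x v j, -s ≤ l x v j
  /-- only one target is near -/
  near : ∀ x, ∃ J : τ → Fin q, ∑ v, ∑ j, l x v j ≤ ∑ v, l x v (J v) + c1
  /-- two different points near the same targets -/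
  gap : ∀ x y, x ≠ y → ∀ J : τ → Fin q, ∑ v, min (l x v (J v)) (l y v (J v)) ≤ h x + h y + c2

private theorem trunc_sum {τ : Type} [Fintype τ] (a : τ → ℝ) {s t : ℝ} (hs : 0 ≤ s) (ht : 0 ≤ t)
    (ha : ∀ v, -s ≤ a v) :
    min (∑ v, a v) (t - Fintype.card τ * s) ≤ ∑ v, min (a v) t := by
  classical
  by_cases h : ∀ v, a v ≤ t
  · have : ∑ v, min (a v) t = ∑ v, a v := Finset.sum_congr rfl fun v _ => min_eq_left (h v)
    rw [this]
    exact min_le_left _ _
  · push Not at h
    obtain ⟨v0, hv0⟩ := h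
    refine (min_le_right _ _).trans ?_
    rw [← Finset.add_sum_erase Finset.univ _ (Finset.mem_univ v0), min_eq_right hv0.le]
    have h1 : ∑ v ∈ Finset.univ.erase v0, (-s) ≤ ∑ v ∈ Finset.univ.erase v0, min (a v) t :=
      Finset.sum_le_sum fun v _ => le_min (ha v) (by linarith)
    rw [Finset.sum_const, nsmul_eq_mul] at h1
    have h2 : ((Finset.univ.erase v0).card : ℝ) ≤ Fintype.card τ := by
      exact_mod_cast Finset.card_le_univ _
    have h3 : ((Finset.univ.erase v0).card : ℝ) * s ≤ Fintype.card τ * s :=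
      mul_le_mul_of_nonneg_right h2 hs
    linarith

/-- the points in one scale -/
private theorem scale {α τ : Type} [Fintype τ] [DecidableEq α] {q : ℕ} {s c1 c2 : ℝ}
    (G : Gap α τ q s c1 c2) {κ c η L : ℝ} {N : ℕ} (hq : 1 ≤ q) (hs : 0 ≤ s) (hc1 : 0 ≤ c1)
    (hc : 0 ≤ c) (hκ3 : κ ≤ 3) (hκ0 : 0 ≤ κ)
    (hη : 0 < η) (hηn : (Fintype.card τ + 2) * η ≤ (κ - 2) / 2)
    (hN : 3 ≤ N * η) (hL0 : 0 < L)
    (hL2 : c + c1 + c2 + 2 * (Fintype.card τ * s) < (κ - 2) / 2 * L)
    (F : Finset α) (hF : ∀ x ∈ F, L ≤ G.h x ∧ G.h x ≤ (1 + η) * L ∧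
      κ * G.h x ≤ ∑ v, ∑ j, G.l x v j + c) :
    F.card ≤ (q * (N + 1)) ^ Fintype.card τ := by
  classical
  have : Nonempty (Fin q) := ⟨⟨0, by omega⟩⟩
  choose J hJ using G.near
  have hηL : 0 < η * L := mul_pos hη hL0
  let g : α → (τ → Fin q × ℕ) := fun x v =>
    (J x v, min ⌊max 0 (G.l x v (J x v)) / (η * L)⌋₊ N)
  have hmaps : Set.MapsTo g F (Fintype.piFinset fun _ : τ =>
      (univ : Finset (Fin q)) ×ˢ Finset.range (N + 1)) := by
    intro x hx
    rw [Finset.mem_coe, Fintype.mem_piFinset]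
    intro v
    rw [Finset.mem_product]
    refine ⟨Finset.mem_univ _, ?_⟩
    rw [Finset.mem_range]
    exact Nat.lt_succ_of_le (min_le_right _ _)
  have hinj : Set.InjOn g F := by
    intro x hx y hy hxy
    by_contra hne
    obtain ⟨hx2, hx3, hx4⟩ := hF x hx
    obtain ⟨hy2, hy3, hy4⟩ := hF y hy
    have hJv : ∀ v, J x v = J y v := fun v => congrArg Prod.fst (congrFun hxy v)
    have hfl : ∀ v, min ⌊max 0 (G.l x v (J x v)) / (η * L)⌋₊ N =
        min ⌊max 0 (G.l y v (J x v)) / (η * L)⌋₊ N := by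
      intro v
      have e1 : min ⌊max 0 (G.l x v (J x v)) / (η * L)⌋₊ N =
        min ⌊max 0 (G.l y v (J y v)) / (η * L)⌋₊ N := congrArg Prod.snd (congrFun hxy v)
      rw [e1, hJv v]
    have a1 := G.gap x y hne (J x)
    have h3L : 3 * L ≤ N * (η * L) := by nlinarith
    have a2 : ∑ v, (min (G.l x v (J x v)) (3 * L) - η * L - s) ≤
        ∑ v, min (G.l x v (J x v)) (G.l y v (J x v)) := by
      refine Finset.sum_le_sum fun v _ => ?_
      exact min_aux hηL hs (G.lo y v _) (hfl v) (by positivity) h3L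
    rw [Finset.sum_sub_distrib, Finset.sum_sub_distrib, Finset.sum_const, Finset.sum_const,
      nsmul_eq_mul, nsmul_eq_mul, Finset.card_univ] at a2
    have a3 := hJ x
    have a4 := trunc_sum (fun v => G.l x v (J x v)) hs (by positivity : 0 ≤ 3 * L)
      (fun v => G.lo x v _)
    have a6 := mul_le_mul_of_nonneg_right hηn hL0.le
    have a7 : κ * L ≤ κ * G.h x := mul_le_mul_of_nonneg_left hx2 hκ0
    have hts : 0 ≤ (Fintype.card τ : ℝ) * s := by positivity
    have a8 : κ * L - c - c1 - Fintype.card τ * s ≤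
        min (∑ v, G.l x v (J x v)) (3 * L - Fintype.card τ * s) := by
      refine le_min (by linarith) ?_
      have : κ * L ≤ 3 * L := mul_le_mul_of_nonneg_right hκ3 hL0.le
      linarith
    nlinarith
  have h4 := Finset.card_le_card_of_injOn g hmaps hinj
  refine h4.trans ?_
  rw [Fintype.card_piFinset, Finset.prod_const, Finset.card_product]
  simp only [Finset.card_univ, Fintype.card_fin, Finset.card_range]
  exact le_rfl

/-- the points of large height -/
theorem gap_count (q t : ℕ) (s c1 c2 κ c : ℝ) (hq : 1 ≤ q) (hs : 0 ≤ s) (hc1 : 0 ≤ c1)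
    (hc2 : 0 ≤ c2) (hc : 0 ≤ c) (hκ : 2 < κ) (hκ3 : κ ≤ 3) :
    ∃ L₀ C : ℝ, 0 ≤ L₀ ∧ 0 ≤ C ∧ ∀ (α τ : Type) [Fintype τ] (G : Gap α τ q s c1 c2),
      Fintype.card τ = t → ∀ (H : ℝ) (E : Finset α), 1 ≤ H →
      (∀ x ∈ E, L₀ ≤ G.h x ∧ G.h x ≤ H ∧ κ * G.h x ≤ ∑ v, ∑ j, G.l x v j + c) →
      (E.card : ℝ) ≤ C * (1 + Real.log H) := by
  classical
  have hn0 : (0 : ℝ) < (t : ℝ) + 2 := by positivity
  have hκ2 : 0 < κ - 2 := by linarith
  set η : ℝ := (κ - 2) / (2 * ((t : ℝ) + 2)) with hη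
  have hη0 : 0 < η := div_pos hκ2 (by positivity)
  have hηn : ((t : ℝ) + 2) * η ≤ (κ - 2) / 2 := by
    rw [hη]
    field_simp
    exact le_rfl
  obtain ⟨N, hN⟩ := exists_nat_gt (3 / η)
  have hN3 : 3 ≤ (N : ℝ) * η := by
    rw [div_lt_iff₀ hη0] at hN
    exact hN.le
  set L₀ : ℝ := 1 + 2 * (c + c1 + c2 + 2 * (t * s)) / (κ - 2) with hL₀
  have hts : 0 ≤ (t : ℝ) * s := by positivity
  have hq1 : 0 ≤ 2 * (c + c1 + c2 + 2 * (t * s)) / (κ - 2) := by positivity
  have hL1 : 1 ≤ L₀ := by linarith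
  have hL0 : 0 < L₀ := by linarith
  have hlg : 0 < Real.log (1 + η) := Real.log_pos (by linarith)
  refine ⟨L₀, (q * (N + 1) : ℕ) ^ t * (1 + 1 / Real.log (1 + η)), hL0.le, by positivity, ?_⟩
  intro α τ _ G hcard H E hH hE
  have hlH : 0 ≤ Real.log H := Real.log_nonneg hH
  -- the index of the scale
  let f : α → ℕ := fun x => ⌊Real.log (G.h x / L₀) / Real.log (1 + η)⌋₊
  have hfE : ∀ x ∈ E, f x ∈ Finset.range (⌊Real.log H / Real.log (1 + η)⌋₊ + 1) := by
    intro x hx
    obtain ⟨hx2, hx3, _⟩ := hE x hx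
    rw [Finset.mem_range, Nat.lt_succ_iff]
    refine Nat.floor_le_floor (div_le_div_of_nonneg_right ?_ hlg.le)
    refine Real.log_le_log (div_pos (by linarith) hL0) ?_
    rw [div_le_iff₀ hL0]
    nlinarith
  have hcount := Finset.card_le_mul_card_image_of_maps_to hfE ((q * (N + 1)) ^ t) (by
    intro i _
    have h := scale G (κ := κ) (c := c) (η := η) (L := L₀ * (1 + η) ^ i) (N := N) hq hs hc1 hc
      hκ3 (by linarith) hη0 (by rw [hcard]; exact hηn) hN3 (by positivity) ?_
      (E.filter fun x => f x = i) ?_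
    · rwa [hcard] at h
    · have e1 : 1 ≤ (1 + η) ^ i := one_le_pow₀ (by linarith)
      have e2 : L₀ ≤ L₀ * (1 + η) ^ i := by nlinarith
      have e3 : 2 * (c + c1 + c2 + 2 * (t * s)) / (κ - 2) < L₀ := by linarith
      rw [div_lt_iff₀ hκ2] at e3
      rw [hcard]
      nlinarith
    · intro x hx
      rw [Finset.mem_filter] at hx
      obtain ⟨hxE, hxi⟩ := hx
      obtain ⟨hx2, hx3, hx4⟩ := hE x hxE
      have hpos : 0 < G.h x / L₀ := div_pos (by linarith) hL0
      have hl0 : 0 ≤ Real.log (G.h x / L₀) / Real.log (1 + η) := by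
        refine div_nonneg (Real.log_nonneg ?_) hlg.le
        rwa [le_div_iff₀ hL0, one_mul]
      have e1 : (i : ℝ) ≤ Real.log (G.h x / L₀) / Real.log (1 + η) := by
        rw [← hxi]
        exact Nat.floor_le hl0
      have e2 : Real.log (G.h x / L₀) / Real.log (1 + η) < (i : ℝ) + 1 := by
        rw [← hxi]
        exact Nat.lt_floor_add_one _
      rw [le_div_iff₀ hlg, ← Real.log_pow] at e1
      rw [div_lt_iff₀ hlg] at e2
      have e3 : ((i : ℝ) + 1) * Real.log (1 + η) = Real.log ((1 + η) ^ (i + 1)) := by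
        rw [Real.log_pow]
        push_cast
        ring
      rw [e3] at e2
      have e4 := (Real.log_le_log_iff (by positivity) hpos).1 e1
      have e5 := (Real.log_lt_log_iff hpos (by positivity)).1 e2
      rw [le_div_iff₀ hL0] at e4
      rw [div_lt_iff₀ hL0, pow_succ] at e5
      refine ⟨by linarith, ?_, hx4⟩
      nlinarith)
  rw [Finset.card_range] at hcount
  have h5 : (E.card : ℝ) ≤ (q * (N + 1) : ℕ) ^ t * (⌊Real.log H / Real.log (1 + η)⌋₊ + 1) := by
    exact_mod_cast hcount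
  refine h5.trans ?_
  rw [mul_assoc]
  refine mul_le_mul_of_nonneg_left ?_ (by positivity)
  have h6 : (⌊Real.log H / Real.log (1 + η)⌋₊ : ℝ) ≤ Real.log H / Real.log (1 + η) :=
    Nat.floor_le (div_nonneg hlH hlg.le)
  have h7 : (1 + 1 / Real.log (1 + η)) * (1 + Real.log H) =
      1 + Real.log H / Real.log (1 + η) + (Real.log H + 1 / Real.log (1 + η)) := by
    field_simp
    ring
  have h8 : 0 ≤ 1 / Real.log (1 + η) := by positivity
  rw [h7]
  linarith

end Pool.Agent.R405.AQ
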