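import Mathlib

/-!
Values of homogenised polynomials, general position of the evaluations.
-/

set_option autoImplicit false
set_option linter.unusedSectionVars false

open Finset Polynomial

namespace Pool.Agent.R405.AQ

variable {F : Type} [Field F]

/-- the value at `(u : w)` of the homogenised polynomial of degree `n` -/
noncomputable def hm (n : ℕ) (p : F[X]) (P : F × F) : F :=
  ∑ i ∈ range (n + 1), p.coeff i * (P.1 ^ i * P.2 ^ (n - i))

theorem hm_eq (n : ℕ) (p : F[X]) (P : F × F) :
    hm n p P = MvPolynomial.eval ![P.1, P.2] (p.homogenize n) := by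
  unfold hm homogenize
  rw [map_sum, Finset.Nat.sum_antidiagonal_eq_sum_range_succ_mk]
  refine Finset.sum_congr rfl fun i _ => ?_
  rw [MvPolynomial.eval_monomial, Finsupp.update_eq_add_single (by simp),
    Finsupp.prod_add_index' (by simp) (by intros; rw [pow_add]),
    Finsupp.prod_single_index (by simp), Finsupp.prod_single_index (by simp)]
  simp

theorem hm_mul (m n : ℕ) (p q : F[X]) (hp : p.natDegree ≤ m) (hq : q.natDegree ≤ n) (P : F × F) :
    hm (m + n) (p * q) P = hm m p P * hm n q P := by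
  rw [hm_eq, hm_eq, hm_eq, homogenize_mul p q hp hq, map_mul]

theorem hm_C_mul (n : ℕ) (a : F) (p : F[X]) (P : F × F) : hm n (C a * p) P = a * hm n p P := by
  unfold hm
  rw [Finset.mul_sum]
  refine Finset.sum_congr rfl fun i _ => ?_
  rw [coeff_C_mul]
  ring

theorem hm_lin (a b : F) (P : F × F) : hm 1 (C a * X - C b) P = a * P.1 - b * P.2 := by
  unfold hm
  rw [Finset.sum_range_succ, Finset.sum_range_one]
  simp
  ring

theorem natDegree_lin (a b : F) : (C a * X - C b).natDegree ≤ 1 := by
  refine (natDegree_sub_le _ _).trans (max_le ?_ ?_)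
  · exact (natDegree_C_mul_le a X).trans natDegree_X_le
  · simp

/-- killing finitely many points -/
theorem exists_form {q : ℕ} (P : Fin q → F × F) (hne : ∀ j, P j ≠ 0)
    (hpw : ∀ i j, i ≠ j → (P i).1 * (P j).2 ≠ (P j).1 * (P i).2) (i0 : Fin q)
    (I : Finset (Fin q)) (hi0 : i0 ∉ I) (r : ℕ) (hr : I.card ≤ r) :
    ∃ p : F[X], p.natDegree ≤ r ∧ hm r p (P i0) ≠ 0 ∧ ∀ j ∈ I, hm r p (P j) = 0 := by
  classical
  induction I using Finset.induction_on generalizing r with
  | empty =>
    -- a form which does not vanish at `P i0`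
    have hbase : ∃ a b : F, a * (P i0).1 - b * (P i0).2 ≠ 0 := by
      by_contra hcon
      push Not at hcon
      have h1 := hcon 1 0
      have h2 := hcon 0 (-1)
      simp at h1 h2
      exact hne i0 (Prod.ext h1 h2)
    obtain ⟨a, b, hab⟩ := hbase
    induction r with
    | zero =>
      refine ⟨1, by simp, ?_, by simp⟩
      unfold hm
      simp
    | succ r ih =>
      obtain ⟨p, h1, h2, -⟩ := ih (Nat.zero_le _)
      refine ⟨p * (C a * X - C b), (natDegree_mul_le).trans (add_le_add h1 (natDegree_lin a b)),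
        ?_, by simp⟩
      rw [hm_mul r 1 _ _ h1 (natDegree_lin a b), hm_lin]
      exact mul_ne_zero h2 hab
  | insert j I hj ih =>
    rw [Finset.card_insert_of_notMem hj] at hr
    obtain ⟨s, rfl⟩ : ∃ s, r = s + 1 := ⟨r - 1, by omega⟩
    obtain ⟨p, h1, h2, h3⟩ := ih (fun h => hi0 (Finset.mem_insert_of_mem h)) s (by omega)
    have hji : i0 ≠ j := fun h => hi0 (h ▸ Finset.mem_insert_self _ _)
    refine ⟨p * (C (P j).2 * X - C (P j).1), (natDegree_mul_le).trans
      (add_le_add h1 (natDegree_lin _ _)), ?_, ?_⟩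
    · rw [hm_mul s 1 _ _ h1 (natDegree_lin _ _), hm_lin]
      refine mul_ne_zero h2 ?_
      have := hpw i0 j hji
      rw [mul_comm (P j).2]
      exact sub_ne_zero.2 this
    · intro l hl
      rw [hm_mul s 1 _ _ h1 (natDegree_lin _ _), hm_lin]
      rcases Finset.mem_insert.1 hl with rfl | hl
      · rw [mul_comm (P l).2, sub_self, mul_zero]
      · rw [h3 l hl, zero_mul]

/-- the evaluations at different points are in general position -/
theorem gen_pos {q : ℕ} (P : Fin q → F × F) (hne : ∀ j, P j ≠ 0)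
    (hpw : ∀ i j, i ≠ j → (P i).1 * (P j).2 ≠ (P j).1 * (P i).2) (r : ℕ)
    (I : Finset (Fin q)) (hI : I.card ≤ r + 1) :
    LinearIndependent F (fun i : I => fun k : Fin (r + 1) =>
      (P i).1 ^ (k : ℕ) * (P i).2 ^ (r - k)) := by
  classical
  rw [Fintype.linearIndependent_iff]
  intro g hg i
  obtain ⟨p, h1, h2, h3⟩ := exists_form P hne hpw i.1 (I.erase i.1) (Finset.notMem_erase _ _) r
    (by rw [Finset.card_erase_of_mem i.2]; omega)
  have h4 : ∀ j : I, ∑ k : Fin (r + 1), p.coeff k * ((P j).1 ^ (k : ℕ) * (P j).2 ^ (r - k)) =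
      hm r p (P j) := by
    intro j
    unfold hm
    rw [Finset.sum_range]
  have h5 : ∑ j : I, g j * hm r p (P j) = 0 := by
    have h6 : ∑ k : Fin (r + 1), p.coeff k * (∑ j : I, g j • fun k : Fin (r + 1) =>
      (P j).1 ^ (k : ℕ) * (P j).2 ^ (r - k)) k = 0 := by
      rw [hg]
      simp
    rw [← h6]
    simp only [Finset.sum_apply, Pi.smul_apply, smul_eq_mul, Finset.mul_sum]
    rw [Finset.sum_comm]
    refine Finset.sum_congr rfl fun j _ => ?_
    rw [← h4, Finset.mul_sum]
    exact Finset.sum_congr rfl fun k _ => by ring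
  rw [Finset.sum_eq_single i] at h5
  · exact (mul_eq_zero.1 h5).resolve_right h2
  · intro j _ hji
    rw [h3 j.1 (Finset.mem_erase.2 ⟨fun h => hji (Subtype.ext h), j.2⟩), mul_zero]
  · intro h
    exact absurd (Finset.mem_univ _) h

end Pool.Agent.R405.AQ
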