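import Mathlib
import Pool.Agent.R405.AQ1
import Pool.Agent.R405.SchF
import Pool.Agent.TH876.QR.Pair
import Pool.Agent.TH876.QR.Places2

/-!
The gap principle for the points of one quadratic field, uniformly in the field.
-/

set_option autoImplicit false
set_option linter.unusedSectionVars false

open Finset

namespace Pool.Agent.R405.AQ

open NumberField IsDedekindDomain Module Polynomial
open Pool.Agent.W180.OP (Pl av wt wt_nonneg)
open Pool.Agent.H691R3 (hr aff lamA lam loss lossK aff_ne_zero aff_wedge sum_lam_le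
  lamA_ge_neg_log_two lamA_arch lamA_comm lamA_eq max_pos loss_nonneg)
open Pool.Agent.TH876.QR (pt Pls Pair_hr Pair_lossK Pair_loss_sum)
open Pool.Agent.Y742.SF (fv_int)

/-- the absolute value of an integer at a finite place is not too small -/
theorem fin_int_lower (K : Type) [Field K] [NumberField K] (v : HeightOneSpectrum (𝓞 K)) (b : ℤ)
    (hb : b ≠ 0) : -Real.log (FinitePlace.mk v (b : K)) ≤
      finrank ℚ K * (Real.log (1 + |(b : ℝ)| + 1) + 2 * Real.log 2) := by
  have hbK : (b : K) ≠ 0 := Int.cast_ne_zero.2 hb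
  have h0 : Real.log (1 + |((0 : ℤ) : ℝ)| + |((1 : ℤ) : ℝ)|) = Real.log 2 := by norm_num
  have h1 : pt K (b, 1) ≠ 0 := by
    intro h
    have := congrArg Prod.snd h
    simp [pt] at this
  have h2 : pt K (0, 1) ≠ 0 := by
    intro h
    have := congrArg Prod.snd h
    simp [pt] at this
  have h3 : (pt K (b, 1)).1 * (pt K (0, 1)).2 - (pt K (b, 1)).2 * (pt K (0, 1)).1 ≠ 0 := by
    simpa [pt] using hb
  have h4 := sum_lam_le h1 h2 h3 {Sum.inr v}
  rw [Finset.sum_singleton] at h4
  have h5 := Pair_hr (K := K) b 1 (by simp)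
  have h6 := Pair_hr (K := K) 0 1 (by simp)
  rw [h0] at h6
  have h7 : lam (Sum.inr v : Pl K) (pt K (b, 1)) (pt K (0, 1)) =
      -Real.log (FinitePlace.mk v (b : K)) := by
    unfold lam lamA
    simp only [Sum.elim_inr, pt]
    have e1 : (Pool.Agent.H691R3.fv v) ((b : ℤ) : K) ≤ 1 := by
      have h8 := fv_int v (b : 𝓞 K)
      have h9 : ((b : 𝓞 K) : K) = (b : K) := by simp
      rw [h9] at h8
      exact h8
    rw [Int.cast_one, Int.cast_zero, map_one, map_zero, max_eq_right e1,
      max_eq_right zero_le_one, mul_one, mul_one, one_mul, sub_zero, one_div, Real.log_inv]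
    rfl
  rw [h7] at h4
  have h8 := Pair_lossK K
  have h9 : Real.log (1 + |(b : ℝ)| + |((1 : ℤ) : ℝ)|) = Real.log (1 + |(b : ℝ)| + 1) := by
    norm_num
  rw [h9] at h5
  rw [h8] at h4
  linarith

/-- upper bounds of a fixed algebraic number, uniformly in the field -/
theorem unif_le {M : Type} [Field M] [NumberField M] (y : M) : ∃ C : ℝ, 0 ≤ C ∧
    ∀ (K N : Type) [Field K] [NumberField K] [Field N] [NumberField N] [Algebra K N]
      (i : M →+* N), finrank ℚ K = 2 → ∀ (v : Pl K) (f : AbsoluteValue N ℝ), Good v f →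
      Real.log (f (i y)) ≤ C := by
  classical
  obtain ⟨b, hb0, hb⟩ : ∃ b : ℤ, b ≠ 0 ∧ IsIntegral ℤ ((b : M) * y) := by
    have h1 : IsAlgebraic ℚ y := Algebra.IsAlgebraic.isAlgebraic y
    obtain ⟨b, hb0, hb⟩ := ((IsFractionRing.isAlgebraic_iff ℤ ℚ M).2 h1).exists_integral_multiple
    exact ⟨b, hb0, by rwa [zsmul_eq_mul] at hb⟩
  have hn : 0 ≤ ∑ τ : M →+* ℂ, |Real.log ‖τ y‖| := Finset.sum_nonneg fun _ _ => abs_nonneg _
  have hlb : 0 ≤ Real.log (1 + |(b : ℝ)| + 1) := Real.log_nonneg (by
    have := abs_nonneg (b : ℝ)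
    linarith)
  have hl2 : 0 ≤ Real.log 2 := Real.log_nonneg (by norm_num)
  refine ⟨∑ τ : M →+* ℂ, |Real.log ‖τ y‖| + 2 * (Real.log (1 + |(b : ℝ)| + 1) + 2 * Real.log 2),
    by positivity, ?_⟩
  intro K N _ _ _ _ _ i hK v f hf
  rcases v with v | v
  · obtain ⟨w, hw, hfw⟩ := hf
    have h1 : f (i y) = ‖(w.embedding.comp i) y‖ := by
      rw [hfw, RingHom.comp_apply, InfinitePlace.norm_embedding_eq]
    rw [h1]
    have h2 := Finset.single_le_sum (f := fun τ : M →+* ℂ => |Real.log ‖τ y‖|)
      (fun _ _ => abs_nonneg _) (Finset.mem_univ (w.embedding.comp i))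
    have h3 := le_abs_self (Real.log ‖(w.embedding.comp i) y‖)
    have : 0 ≤ 2 * (Real.log (1 + |(b : ℝ)| + 1) + 2 * Real.log 2) := by positivity
    linarith
  · have hfe := hf.ext (b : K)
    obtain ⟨Q, c, hQ, hc, h1, hfq⟩ := hf
    by_cases hy : y = 0
    · rw [hy, map_zero, map_zero, Real.log_zero]
      positivity
    have hiy : i y ≠ 0 := (map_ne_zero i).2 hy
    have hbN : ((b : ℤ) : N) ≠ 0 := Int.cast_ne_zero.2 hb0
    have h2 : f ((b : N) * i y) ≤ 1 := by
      have h3 : IsIntegral ℤ ((b : N) * i y) := by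
        have h4 := hb.map (i.toIntAlgHom)
        simpa using h4
      rw [hfq]
      have h5 := fv_int Q (⟨(b : N) * i y, h3⟩ : 𝓞 N)
      exact Real.rpow_le_one (Pool.Agent.Y742.SF.fv_nonneg _ _) h5 (inv_pos.2 hc).le
    rw [map_mul] at h2
    have h3 : f (b : N) = FinitePlace.mk v (b : K) := by
      have h4 : f (b : N) = f (algebraMap K N (b : K)) := by rw [map_intCast (algebraMap K N)]
      rw [h4, hfe]
      rfl
    have h5 := fin_int_lower K v b hb0
    rw [hK, ← h3] at h5
    have h6 : Real.log (f (b : N)) + Real.log (f (i y)) ≤ 0 := by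
      rw [← Real.log_mul (f.pos_iff.2 hbN).ne' (f.pos_iff.2 hiy).ne']
      exact Real.log_nonpos (mul_nonneg (f.nonneg _) (f.nonneg _)) h2
    push_cast at h5
    linarith

theorem unif {M : Type} [Field M] [NumberField M] (y : M) : ∃ C : ℝ, 0 ≤ C ∧
    ∀ (K N : Type) [Field K] [NumberField K] [Field N] [NumberField N] [Algebra K N]
      (i : M →+* N), finrank ℚ K = 2 → ∀ (v : Pl K) (f : AbsoluteValue N ℝ), Good v f →
      |Real.log (f (i y))| ≤ C := by
  obtain ⟨C1, hC1, h1⟩ := unif_le y
  obtain ⟨C2, hC2, h2⟩ := unif_le y⁻¹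
  refine ⟨C1 + C2, by positivity, ?_⟩
  intro K N _ _ _ _ _ i hK v f hf
  have h3 := h1 K N i hK v f hf
  have h4 := h2 K N i hK v f hf
  rw [map_inv₀, map_inv₀, Real.log_inv] at h4
  rw [abs_le]
  constructor <;> linarith

theorem unif_max {M : Type} [Field M] [NumberField M] (P : M × M) : ∃ C : ℝ, 0 ≤ C ∧
    ∀ (K N : Type) [Field K] [NumberField K] [Field N] [NumberField N] [Algebra K N]
      (i : M →+* N), finrank ℚ K = 2 → ∀ (v : Pl K) (f : AbsoluteValue N ℝ), Good v f →
      |Real.log (max (f (i P.1)) (f (i P.2)))| ≤ C := by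
  obtain ⟨C1, hC1, h1⟩ := unif P.1
  obtain ⟨C2, hC2, h2⟩ := unif P.2
  refine ⟨C1 + C2, by positivity, ?_⟩
  intro K N _ _ _ _ _ i hK v f hf
  have h3 := h1 K N i hK v f hf
  have h4 := h2 K N i hK v f hf
  rcases max_choice (f (i P.1)) (f (i P.2)) with h | h
  · rw [h]; linarith
  · rw [h]; linarith

/-- the divisor: `q` points over the number field `M`, and the polynomial -/
structure Div (M : Type) [Field M] (q : ℕ) where
  /-- the points -/
  P : Fin q → M × M
  /-- the factor -/
  γ : M
  /-- the polynomial -/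
  g : ℤ[X]
  ne : ∀ j, P j ≠ 0
  pw : ∀ i j, i ≠ j → (P i).1 * (P j).2 ≠ (P j).1 * (P i).2
  γ0 : γ ≠ 0
  fac : g.map (Int.castRingHom M) = C γ * ∏ j, (C (P j).1 - X * C (P j).2)

/-- the local height at a place -/
noncomputable def lh' {K : Type} [Field K] [NumberField K] (g : ℤ[X]) (q : ℕ) (v : Pl K) (x : K) :
    ℝ := wt v * Real.log (max (av v x) 1 ^ q / av v (aeval x g))

/-- the sum of the local heights over the places of `S` -/
noncomputable def Tot {K : Type} [Field K] [NumberField K] (g : ℤ[X]) (q : ℕ) (S : Finset ℕ)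
    (x : K) : ℝ := ∑ᶠ v ∈ Pls K S, lh' g q v x

theorem Div.eval_eq {M : Type} [Field M] {q : ℕ} (D : Div M q) {N : Type} [Field N] (i : M →+* N)
    (y : N) : aeval y D.g = i D.γ * ∏ j, (i (D.P j).1 - y * i (D.P j).2) := by
  have h1 := congrArg (fun p => (p.map i).eval y) D.fac
  simp only [Polynomial.map_map] at h1
  have h2 : (D.g.map (i.comp (Int.castRingHom M))).eval y = aeval y D.g := by
    rw [eval_map, aeval_def]
    congr 1
    exact RingHom.ext_int _ _
  rw [h2] at h1
  rw [h1, Polynomial.map_mul, eval_mul, Polynomial.map_prod, eval_prod, map_C, eval_C]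
  congr 1
  refine Finset.prod_congr rfl fun j _ => ?_
  rw [Polynomial.map_sub, Polynomial.map_mul, map_C, map_C, Polynomial.map_X, eval_sub, eval_mul,
    eval_C, eval_C, eval_X]

theorem wt_le {K : Type} [Field K] [NumberField K] (v : Pl K) : wt v ≤ 2 := by
  rcases v with v | v
  · show (v.mult : ℝ) ≤ 2
    unfold InfinitePlace.mult
    split_ifs <;> norm_num
  · show (1 : ℝ) ≤ 2
    norm_num

theorem perField {M : Type} [Field M] [NumberField M] {q : ℕ} (hq : 1 ≤ q) (D : Div M q)
    (S : Finset ℕ) (hS : ∀ p ∈ S, p.Prime) (κ c : ℝ) (hκ : 2 < κ) (hκ3 : κ ≤ 3) (hc : 0 ≤ c) :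
    ∃ L₀ C : ℝ, 0 ≤ L₀ ∧ 0 ≤ C ∧
    ∀ (K N : Type) [Field K] [NumberField K] [Field N] [NumberField N] [Algebra K N]
      (_ : M →+* N), finrank ℚ K = 2 → ∀ (h : K → ℝ) (H : ℝ) (E : Finset K), 1 ≤ H →
      (∀ x ∈ E, aeval x D.g ≠ 0 ∧ hr (aff x) ≤ h x ∧ L₀ ≤ h x ∧ h x ≤ H ∧
        κ * h x ≤ Tot D.g q S x + c) →
      (E.card : ℝ) ≤ C * (1 + Real.log H) := by
  classical
  have hl2 : 0 ≤ Real.log 2 := Real.log_nonneg (by norm_num)
  -- the constants
  choose a ha0 ha using fun j => unif_max (D.P j)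
  obtain ⟨γc, hγc0, hγc⟩ := unif D.γ
  choose b hb0 hb using fun p : Fin q × Fin q =>
    unif ((D.P p.1).1 * (D.P p.2).2 - (D.P p.1).2 * (D.P p.2).1)
  set t : ℕ := 2 * (S.card + 1) with ht
  set A : ℝ := ∑ j, a j with hA
  set Bc : ℝ := ∑ p : Fin q × Fin q, (b p + 2 * A) with hBc
  have hA0 : 0 ≤ A := Finset.sum_nonneg fun j _ => ha0 j
  have haA : ∀ j, a j ≤ A := fun j => Finset.single_le_sum (f := a) (fun j _ => ha0 j)
    (Finset.mem_univ j)
  have hB0 : 0 ≤ Bc := Finset.sum_nonneg fun p _ => by have := hb0 p; positivity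
  have hbB : ∀ p, b p + 2 * A ≤ Bc := fun p => Finset.single_le_sum
    (f := fun p => b p + 2 * A) (fun p _ => by have := hb0 p; positivity) (Finset.mem_univ p)
  set c1 : ℝ := t * (q * (2 * (Bc + Real.log 2))) with hc1
  set c2 : ℝ := 2 * Real.log 2 + t * (2 * Real.log 2) with hc2
  set c3 : ℝ := t * (2 * (A + γc)) with hc3
  have hc10 : 0 ≤ c1 := by positivity
  have hc30 : 0 ≤ c3 := by positivity
  choose! L₀ C hL₀ hC hmain using fun t' : ℕ => gap_count q t' (2 * Real.log 2) c1 c2 κ (c + c3) hq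
    (by positivity) hc10 (by positivity) (by positivity) hκ hκ3
  refine ⟨∑ t' ∈ range (t + 1), L₀ t', ∑ t' ∈ range (t + 1), C t',
    Finset.sum_nonneg fun t' _ => hL₀ t', Finset.sum_nonneg fun t' _ => hC t', ?_⟩
  intro K N _ _ _ _ _ i hK h H E hH hE
  obtain ⟨hfin, hcard⟩ := Pool.Agent.TH876.QR.places2 K S hS
  rw [hK] at hcard
  set T := hfin.toFinset with hT
  have hTc : T.card ≤ t := by
    rw [hT, ← Set.ncard_eq_toFinset_card _ hfin]
    exact hcard
  choose f hf using fun v : Pl K => exists_good (K := N) v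
  -- elementary facts
  set Q : Fin q → N × N := fun j => (i (D.P j).1, i (D.P j).2) with hQ
  set af : K → N × N := fun x => (algebraMap K N x, 1) with haf
  have haf0 : ∀ x, af x ≠ 0 := fun x h => by
    have := congrArg Prod.snd h
    simp [haf] at this
  have hQ0 : ∀ j, Q j ≠ 0 := by
    intro j h
    apply D.ne j
    have h1 := congrArg Prod.fst h
    have h2 := congrArg Prod.snd h
    simp only [hQ, Prod.fst_zero, Prod.snd_zero, map_eq_zero] at h1 h2
    exact Prod.ext h1 h2
  have hQw : ∀ j l, j ≠ l → (Q j).1 * (Q l).2 - (Q j).2 * (Q l).1 ≠ 0 := by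
    intro j l hjl
    simp only [hQ]
    rw [← map_mul, ← map_mul, ← map_sub]
    refine (map_ne_zero i).2 (sub_ne_zero.2 ?_)
    have := D.pw j l hjl
    rwa [mul_comm (D.P l).1] at this
  have hx0 : ∀ x : K, aeval x D.g ≠ 0 → ∀ j, (Q j).1 - algebraMap K N x * (Q j).2 ≠ 0 := by
    intro x hx j h0
    apply hx
    apply (map_eq_zero (algebraMap K N)).1
    have h1 : algebraMap K N (aeval x D.g) = aeval (algebraMap K N x) D.g :=
      (Polynomial.aeval_algebraMap_apply N x D.g).symm
    rw [h1, D.eval_eq i]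
    rw [Finset.prod_eq_zero (Finset.mem_univ j) h0, mul_zero]
  have hw1 : ∀ x : K, aeval x D.g ≠ 0 → ∀ j, (af x).1 * (Q j).2 - (af x).2 * (Q j).1 ≠ 0 := by
    intro x hx j h0
    apply hx0 x hx j
    simp only [haf, one_mul] at h0
    linear_combination -h0
  let α : Type := {x : K // aeval x D.g ≠ 0 ∧ hr (aff x) ≤ h x}
  let G : Gap α T q (2 * Real.log 2) c1 c2 := {
    l := fun x v j => wt (v : Pl K) * lamA (f v) (af x.1) (Q j)
    h := fun x => h x.1
    lo := by
      intro x v j
      have h1 := lamA_ge_neg_log_two (f v) (haf0 x.1) (hQ0 j) (hw1 x.1 x.2.1 j)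
      have h2 := wt_le (v : Pl K)
      have h3 := wt_nonneg (v : Pl K)
      nlinarith
    near := by
      intro x
      have : Nonempty (Fin q) := ⟨⟨0, hq⟩⟩
      have hJ : ∀ v : T, ∃ j₀ : Fin q, ∀ j, lamA (f v) (af x.1) (Q j) ≤
          lamA (f v) (af x.1) (Q j₀) := fun v =>
        Finite.exists_max (fun j => lamA (f v) (af x.1) (Q j))
      choose J hJ using hJ
      refine ⟨J, ?_⟩
      have h1 : ∀ v : T, ∑ j, wt (v : Pl K) * lamA (f v) (af x.1) (Q j) ≤
          wt (v : Pl K) * lamA (f v) (af x.1) (Q (J v)) + q * (2 * (Bc + Real.log 2)) := by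
        intro v
        rw [← Finset.add_sum_erase Finset.univ _ (Finset.mem_univ (J v))]
        refine add_le_add le_rfl ?_
        have h2 : ∀ j ∈ Finset.univ.erase (J v), wt (v : Pl K) * lamA (f v) (af x.1) (Q j) ≤
            2 * (Bc + Real.log 2) := by
          intro j hj
          have hne : j ≠ J v := Finset.ne_of_mem_erase hj
          have h3 := lamA_arch (f v) (hQ0 j) (haf0 x.1) (hQ0 (J v)) (hQw j (J v) hne)
            (by
              intro h0
              apply hw1 x.1 x.2.1 j
              linear_combination -h0) (hw1 x.1 x.2.1 (J v)) (lamA (f v) (af x.1) (Q j))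
            (by rw [lamA_comm]) (hJ v j)
          have h4 : lamA (f v) (Q j) (Q (J v)) ≤ Bc := by
            rw [lamA_eq (f v) (hQ0 j) (hQ0 _) (hQw j (J v) hne)]
            have e1 := (abs_le.1 (ha j K N i hK v (f v) (hf v))).2
            have e2 := (abs_le.1 (ha (J v) K N i hK v (f v) (hf v))).2
            have e3 := (abs_le.1 (hb (j, J v) K N i hK v (f v) (hf v))).1
            have e4 := haA j
            have e5 := haA (J v)
            have e6 := hbB (j, J v)
            simp only [map_sub, map_mul] at e3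
            simp only [hQ]
            linarith
          have h5 := wt_le (v : Pl K)
          have h6 := wt_nonneg (v : Pl K)
          have h7 : lamA (f v) (af x.1) (Q j) ≤ Bc + Real.log 2 := by linarith
          nlinarith
        refine (Finset.sum_le_sum h2).trans ?_
        rw [Finset.sum_const, nsmul_eq_mul]
        refine mul_le_mul_of_nonneg_right ?_ (by positivity)
        have : (Finset.univ.erase (J v)).card ≤ q := by
          refine (Finset.card_le_univ _).trans ?_
          rw [Fintype.card_fin]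
        exact_mod_cast this
      refine (Finset.sum_le_sum fun v _ => h1 v).trans ?_
      rw [Finset.sum_add_distrib, Finset.sum_const, nsmul_eq_mul, Finset.card_univ,
        Fintype.card_coe]
      refine add_le_add le_rfl ?_
      rw [hc1]
      exact mul_le_mul_of_nonneg_right (by exact_mod_cast hTc) (by positivity)
    gap := by
      intro x y hxy J
      have hne : x.1 ≠ y.1 := fun h0 => hxy (Subtype.ext h0)
      have hww : (af x.1).1 * (af y.1).2 - (af x.1).2 * (af y.1).1 ≠ 0 := by
        simp only [haf, mul_one, one_mul]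
        rw [sub_ne_zero]
        exact fun h0 => hne ((algebraMap K N).injective h0)
      have h1 : ∀ v : T, min (wt (v : Pl K) * lamA (f v) (af x.1) (Q (J v)))
          (wt (v : Pl K) * lamA (f v) (af y.1) (Q (J v))) ≤
          lam (v : Pl K) (aff x.1) (aff y.1) + wt (v : Pl K) * Real.log 2 := by
        intro v
        have h2 := lamA_arch (f v) (haf0 x.1) (hQ0 (J v)) (haf0 y.1) hww
          (hw1 x.1 x.2.1 (J v)) (by
            intro h0
            apply hw1 y.1 y.2.1 (J v)
            linear_combination -h0)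
          (min (lamA (f v) (af x.1) (Q (J v))) (lamA (f v) (af y.1) (Q (J v))))
          (min_le_left _ _) (by rw [lamA_comm (f v) (Q (J v))]; exact min_le_right _ _)
        have h3 : wt (v : Pl K) * lamA (f v) (af x.1) (af y.1) =
            lam (v : Pl K) (aff x.1) (aff y.1) := by
          have h4 : lamA (f v) (af x.1) (af y.1) = lamA (av (v : Pl K)) (aff x.1) (aff y.1) := by
            unfold lamA
            simp only [haf, aff, map_one, mul_one, one_mul]
            rw [← map_sub (algebraMap K N), (hf v).ext, (hf v).ext, (hf v).ext]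
          rw [h4]
          rcases (v : Pl K) with w | w
          · rfl
          · show (1 : ℝ) * _ = _
            rw [one_mul]
            rfl
        have h4 := mul_le_mul_of_nonneg_left h2 (wt_nonneg (v : Pl K))
        rw [mul_sub, h3, mul_min_of_nonneg _ _ (wt_nonneg (v : Pl K))] at h4
        linarith
      refine (Finset.sum_le_sum fun v _ => h1 v).trans ?_
      rw [Finset.sum_add_distrib]
      have h2 : ∑ v : T, lam (v : Pl K) (aff x.1) (aff y.1) = ∑ v ∈ T, lam v (aff x.1) (aff y.1) :=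
        Finset.sum_coe_sort T fun v => lam v (aff x.1) (aff y.1)
      have h3 := sum_lam_le (aff_ne_zero x.1) (aff_ne_zero y.1) (aff_wedge hne) T
      have h4 : ∑ v : T, wt (v : Pl K) * Real.log 2 ≤ t * (2 * Real.log 2) := by
        refine (Finset.sum_le_sum (fun (v : T) _ => mul_le_mul_of_nonneg_right
          (wt_le (v : Pl K)) hl2)).trans ?_
        rw [Finset.sum_const, nsmul_eq_mul, Finset.card_univ, Fintype.card_coe]
        exact mul_le_mul_of_nonneg_right (by exact_mod_cast hTc) (by positivity)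
      have h5 := Pair_lossK K
      rw [hK] at h5
      have h6 := x.2.2
      have h7 := y.2.2
      rw [h2]
      push_cast at h5
      rw [hc2]
      linarith }
  -- the total
  have hTot : ∀ x : K, aeval x D.g ≠ 0 → Tot D.g q S x ≤
      ∑ v : T, ∑ j, wt (v : Pl K) * lamA (f v) (af x) (Q j) + c3 := by
    intro x hx
    have h1 : Tot D.g q S x = ∑ v : T, lh' D.g q (v : Pl K) x := by
      unfold Tot
      rw [finsum_mem_eq_finite_toFinset_sum _ hfin]
      exact (Finset.sum_coe_sort T fun v => lh' D.g q v x).symm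
    rw [h1]
    have h2 : ∀ v : T, lh' D.g q (v : Pl K) x ≤
        ∑ j, wt (v : Pl K) * lamA (f v) (af x) (Q j) + 2 * (A + γc) := by
      intro v
      unfold lh'
      have e1 : av (v : Pl K) x = f v (algebraMap K N x) := ((hf v).ext x).symm
      have e2 : av (v : Pl K) (aeval x D.g) = f v (i D.γ) * ∏ j, f v ((Q j).1 -
          algebraMap K N x * (Q j).2) := by
        rw [← (hf v).ext, ← Polynomial.aeval_algebraMap_apply, D.eval_eq i, map_mul, map_prod]
      have hm0 : 0 < max (f v (algebraMap K N x)) 1 := lt_of_lt_of_le one_pos (le_max_right _ _)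
      have hγ : 0 < f v (i D.γ) := (f v).pos_iff.2 ((map_ne_zero i).2 D.γ0)
      have hpj : ∀ j, 0 < f v ((Q j).1 - algebraMap K N x * (Q j).2) := fun j =>
        (f v).pos_iff.2 (hx0 x hx j)
      have hpp : 0 < ∏ j, f v ((Q j).1 - algebraMap K N x * (Q j).2) :=
        Finset.prod_pos fun j _ => hpj j
      rw [e1, e2, Real.log_div (by positivity) (by positivity), Real.log_pow,
        Real.log_mul hγ.ne' hpp.ne', Real.log_prod (fun j _ => (hpj j).ne')]
      have e3 : ∀ j, lamA (f v) (af x) (Q j) = Real.log (max (f v (algebraMap K N x)) 1) +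
          Real.log (max (f v (Q j).1) (f v (Q j).2)) -
          Real.log (f v ((Q j).1 - algebraMap K N x * (Q j).2)) := by
        intro j
        rw [lamA_eq (f v) (haf0 x) (hQ0 j) (hw1 x hx j)]
        simp only [haf, map_one, one_mul]
        congr 2
        rw [← (f v).map_neg]
        congr 1
        ring
      simp only [e3]
      rw [← Finset.mul_sum, Finset.sum_sub_distrib, Finset.sum_add_distrib, Finset.sum_const,
        Finset.card_univ, Fintype.card_fin, nsmul_eq_mul]
      have e4 : -A ≤ ∑ j, Real.log (max (f v (Q j).1) (f v (Q j).2)) := by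
        rw [hA, ← Finset.sum_neg_distrib]
        exact Finset.sum_le_sum fun j _ => (abs_le.1 (ha j K N i hK v (f v) (hf v))).1
      have e5 := (abs_le.1 (hγc K N i hK v (f v) (hf v))).1
      have e6 := wt_le (v : Pl K)
      have e7 := wt_nonneg (v : Pl K)
      have e8 : wt (v : Pl K) * (A + γc) ≤ 2 * (A + γc) :=
        mul_le_mul_of_nonneg_right e6 (by positivity)
      nlinarith
    refine (Finset.sum_le_sum fun v _ => h2 v).trans ?_
    rw [Finset.sum_add_distrib, Finset.sum_const, nsmul_eq_mul, Finset.card_univ,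
      Fintype.card_coe]
    refine add_le_add le_rfl ?_
    rw [hc3]
    exact mul_le_mul_of_nonneg_right (by exact_mod_cast hTc) (by positivity)
  -- the points
  have hE1 : ∀ x ∈ E, aeval x D.g ≠ 0 ∧ hr (aff x) ≤ h x := fun x hx =>
    ⟨(hE x hx).1, (hE x hx).2.1⟩
  set E' : Finset α := E.subtype (fun x => aeval x D.g ≠ 0 ∧ hr (aff x) ≤ h x) with hE'
  have hcardE : E'.card = E.card := by
    rw [hE', Finset.card_subtype, Finset.filter_true_of_mem hE1]
  have hτ : Fintype.card T = T.card := Fintype.card_coe T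
  have hTr : T.card ∈ range (t + 1) := Finset.mem_range.2 (by omega)
  have hLle := Finset.single_le_sum (f := L₀) (fun t' _ => hL₀ t') hTr
  have hCle := Finset.single_le_sum (f := C) (fun t' _ => hC t') hTr
  have hfinal := hmain T.card α T G hτ H E' hH (by
    intro x hx
    have hxE : x.1 ∈ E := Finset.mem_subtype.1 hx
    obtain ⟨h1, h2, h3, h4, h5⟩ := hE x.1 hxE
    refine ⟨hLle.trans h3, h4, ?_⟩
    have h6 := hTot x.1 h1
    show κ * h x.1 ≤ ∑ v : T, ∑ j, wt (v : Pl K) * lamA (f v) (af x.1) (Q j) + (c + c3)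
    linarith)
  rw [hcardE] at hfinal
  have hlH : 0 ≤ Real.log H := Real.log_nonneg hH
  exact hfinal.trans (mul_le_mul_of_nonneg_right hCle (by linarith))

end Pool.Agent.R405.AQ
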