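import Mathlib
import Pool.Agent.R405.SchP

/-!
The height of a projection.
-/

set_option autoImplicit false
set_option linter.unusedSectionVars false

open Finset

namespace Pool.Agent.R405

open NumberField IsDedekindDomain Height Module
open Pool.Agent.W180.OP (Pl av wt nrm le_nrm nrm_pos nrm_nonneg exists_nrm lam lam_eq liou wt_nonneg
  fv_support_finite)

variable {k : Type} [Field k] [NumberField k]

theorem rect_bound {K : Type} [Field K] (f : AbsoluteValue K ℝ) {m n : ℕ} (P : Fin m → Fin n → K) :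
    ∃ κ : ℝ, 1 ≤ κ ∧ ∀ x : Fin n → K, nrm f (fun i => ∑ j, P i j * x j) ≤ κ * nrm f x := by
  classical
  refine ⟨1 + ∑ i, ∑ j, f (P i j), ?_, fun x => ?_⟩
  · have : 0 ≤ ∑ i, ∑ j, f (P i j) := Finset.sum_nonneg fun _ _ => Finset.sum_nonneg fun _ _ =>
      f.nonneg _
    linarith
  · have hN := nrm_nonneg f x
    have h0 : 0 ≤ ∑ i, ∑ j, f (P i j) := Finset.sum_nonneg fun _ _ => Finset.sum_nonneg fun _ _ =>
      f.nonneg _
    refine Pool.Agent.W180.OP.nrm_le (by positivity) fun i => ?_
    have h1 : f (∑ j, P i j * x j) ≤ ∑ j, f (P i j) * nrm f x := by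
      refine (f.sum_le _ _).trans (Finset.sum_le_sum fun j _ => ?_)
      rw [map_mul]
      exact mul_le_mul_of_nonneg_left (le_nrm f x j) (f.nonneg _)
    rw [← Finset.sum_mul] at h1
    refine h1.trans (mul_le_mul_of_nonneg_right ?_ hN)
    have h2 : ∑ j, f (P i j) ≤ ∑ i, ∑ j, f (P i j) :=
      Finset.single_le_sum (f := fun i => ∑ j, f (P i j))
        (fun _ _ => Finset.sum_nonneg fun _ _ => f.nonneg _) (Finset.mem_univ i)
    linarith

/-- the height as a sum over a large set of places -/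
theorem logHeight_sum {n : ℕ} (x : Fin n → k) (hx : x ≠ 0)
    (T : Finset (HeightOneSpectrum (𝓞 k)))
    (hT : ∀ v, v ∉ T → nrm (Pool.Agent.W180.OP.fv v) x = 1) :
    logHeight x = ∑ w : InfinitePlace k, (w.mult : ℝ) * Real.log (nrm w.1 x) +
      ∑ v ∈ T, Real.log (nrm (Pool.Agent.W180.OP.fv v) x) := by
  classical
  have e : ∏ᶠ v : FinitePlace k, ⨆ i, v (x i) =
      ∏ᶠ v : HeightOneSpectrum (𝓞 k), nrm (Pool.Agent.W180.OP.fv v) x := by
    rw [← finprod_comp_equiv (FinitePlace.equivHeightOneSpectrum (K := k)).symm]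
    rfl
  have e2 : ∏ᶠ v : HeightOneSpectrum (𝓞 k), nrm (Pool.Agent.W180.OP.fv v) x =
      ∏ v ∈ T, nrm (Pool.Agent.W180.OP.fv v) x := by
    refine finprod_eq_prod_of_mulSupport_subset _ fun v hv => ?_
    by_contra hc
    exact hv (hT v hc)
  have hw : ∀ w : InfinitePlace k, (⨆ i, w (x i)) = nrm w.1 x := fun w => rfl
  have h4 : 0 < ∏ w : InfinitePlace k, (⨆ i, w (x i)) ^ w.mult :=
    prod_pos fun w _ => pow_pos (by rw [hw]; exact nrm_pos _ hx) _
  have h5 : 0 < ∏ v ∈ T, nrm (Pool.Agent.W180.OP.fv v) x := prod_pos fun v _ => nrm_pos _ hx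
  rw [logHeight_eq_log_mulHeight, NumberField.mulHeight_eq hx, e, e2,
    Real.log_mul h4.ne' h5.ne', Real.log_prod fun w _ => (pow_pos (by rw [hw]; exact nrm_pos _ hx) _).ne',
    Real.log_prod fun v _ => (nrm_pos _ hx).ne']
  congr 1
  exact Finset.sum_congr rfl fun w _ => by rw [Real.log_pow, hw]

theorem nrm_finite {n : ℕ} (x : Fin n → k) (hx : x ≠ 0) :
    {v : HeightOneSpectrum (𝓞 k) | nrm (Pool.Agent.W180.OP.fv v) x ≠ 1}.Finite := by
  have h1 : (⋃ i : {i : Fin n // x i ≠ 0},
      {v : HeightOneSpectrum (𝓞 k) | Pool.Agent.W180.OP.fv v (x i) ≠ 1}).Finite :=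
    Set.finite_iUnion fun i => fv_support_finite i.2
  refine h1.subset fun v hv => ?_
  by_contra hc
  apply hv
  simp only [Set.mem_iUnion, not_exists, Set.mem_ofPred_eq, not_not] at hc
  obtain ⟨i0, hi0⟩ := Function.ne_iff.1 hx
  obtain ⟨i, hi⟩ := exists_nrm (Pool.Agent.W180.OP.fv v) (Fin.pos i0) x
  by_cases h0 : x i = 0
  · rw [h0, map_zero] at hi
    have := nrm_pos (Pool.Agent.W180.OP.fv v) hx
    linarith
  · rw [← hi]
    exact hc ⟨i, h0⟩

/-- the height of a projection -/
theorem projH {m n : ℕ} (P : Fin m → Fin n → k) (S : Finset (Pl k)) :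
    ∃ C : ℝ, 0 ≤ C ∧ ∀ x : Fin n → k, (fun i => ∑ j, P i j * x j) ≠ 0 →
      logHeight (fun i => ∑ j, P i j * x j) + ∑ v ∈ S, wt v * (Real.log (nrm (av v) x) -
        Real.log (nrm (av v) (fun i => ∑ j, P i j * x j))) ≤ logHeight x + C := by
  classical
  choose κ hκ1 hκ using fun v : Pl k => rect_bound (av v) P
  -- the bad primes
  set T0 : Set (HeightOneSpectrum (𝓞 k)) :=
    ⋃ (i : Fin m) (j : Fin n), {v | P i j ≠ 0 ∧ Pool.Agent.W180.OP.fv v (P i j) ≠ 1} with hT0
  have hT0f : T0.Finite := by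
    refine Set.finite_iUnion fun i => Set.finite_iUnion fun j => ?_
    by_cases h : P i j = 0
    · refine Set.finite_empty.subset ?_
      rintro v ⟨hv, -⟩
      exact absurd h hv
    · exact (fv_support_finite h).subset fun v hv => hv.2
  have hgood : ∀ v : HeightOneSpectrum (𝓞 k), v ∉ T0 → ∀ x : Fin n → k,
      nrm (Pool.Agent.W180.OP.fv v) (fun i => ∑ j, P i j * x j) ≤
        nrm (Pool.Agent.W180.OP.fv v) x := by
    intro v hv x
    refine Pool.Agent.W180.OP.nrm_le (nrm_nonneg _ _) fun i => ?_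
    have h1 : ∀ j, Pool.Agent.W180.OP.fv v (P i j) ≤ 1 := by
      intro j
      by_cases h : P i j = 0
      · rw [h, map_zero]; exact zero_le_one
      · by_contra hc
        apply hv
        simp only [hT0, Set.mem_iUnion]
        exact ⟨i, j, h, fun h' => hc h'.le⟩
    have hna : IsNonarchimedean (Pool.Agent.W180.OP.fv v) := by
      intro a b
      exact FinitePlace.add_le (FinitePlace.mk v) a b
    rcases Nat.eq_zero_or_pos n with hn | hn
    · subst hn
      simp only [Finset.univ_eq_empty, Finset.sum_empty, map_zero]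
      exact nrm_nonneg _ _
    · have : Nonempty (Fin n) := ⟨⟨0, hn⟩⟩
      obtain ⟨j, -, hj⟩ := IsNonarchimedean.finset_image_add_of_nonempty
        hna (fun j => P i j * x j) (t := Finset.univ) Finset.univ_nonempty
      refine hj.trans ?_
      rw [map_mul]
      calc _ ≤ 1 * nrm (Pool.Agent.W180.OP.fv v) x :=
            mul_le_mul (h1 j) (le_nrm _ x j) (AbsoluteValue.nonneg _ _) zero_le_one
        _ = _ := one_mul _
  refine ⟨∑ w : InfinitePlace k, wt (Sum.inl w : Pl k) * Real.log (κ (Sum.inl w)) +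
    ∑ v ∈ hT0f.toFinset, Real.log (κ (Sum.inr v)), ?_, fun x hPx => ?_⟩
  · refine add_nonneg (Finset.sum_nonneg fun w _ => mul_nonneg (wt_nonneg _)
      (Real.log_nonneg (hκ1 _))) (Finset.sum_nonneg fun v _ => Real.log_nonneg (hκ1 _))
  · have hx : x ≠ 0 := by
      rintro rfl
      apply hPx
      funext i
      simp
    set y : Fin m → k := fun i => ∑ j, P i j * x j with hy
    set T : Finset (HeightOneSpectrum (𝓞 k)) := hT0f.toFinset ∪ ((nrm_finite x hx).toFinset ∪
      ((nrm_finite y hPx).toFinset ∪ S.toRight)) with hT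
    have hTx : ∀ v, v ∉ T → nrm (Pool.Agent.W180.OP.fv v) x = 1 := by
      intro v hv
      by_contra hc
      apply hv
      rw [hT]
      simp only [Finset.mem_union, Set.Finite.mem_toFinset, Set.mem_ofPred_eq]
      exact Or.inr (Or.inl hc)
    have hTy : ∀ v, v ∉ T → nrm (Pool.Agent.W180.OP.fv v) y = 1 := by
      intro v hv
      by_contra hc
      apply hv
      rw [hT]
      simp only [Finset.mem_union, Set.Finite.mem_toFinset, Set.mem_ofPred_eq]
      exact Or.inr (Or.inr (Or.inl hc))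
    rw [logHeight_sum x hx T hTx, logHeight_sum y hPx T hTy]
    set g : Pl k → ℝ := fun v => Real.log (nrm (av v) x) - Real.log (nrm (av v) y) with hg
    have hgk : ∀ v, - Real.log (κ v) ≤ g v := by
      intro v
      have h1 := Real.log_le_log (nrm_pos (av v) hPx) (hκ v x)
      rw [Real.log_mul (by linarith [hκ1 v]) (nrm_pos (av v) hx).ne'] at h1
      show _ ≤ Real.log (nrm (av v) x) - Real.log (nrm (av v) y)
      linarith
    have hgg : ∀ v : HeightOneSpectrum (𝓞 k), v ∉ T0 → 0 ≤ g (Sum.inr v) := by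
      intro v hv
      have h1 := Real.log_le_log (nrm_pos (Pool.Agent.W180.OP.fv v) hPx) (hgood v hv x)
      exact sub_nonneg.2 h1
    have hSsum : ∑ v ∈ S, wt v * g v = ∑ w ∈ S.toLeft, wt (Sum.inl w : Pl k) * g (Sum.inl w) +
        ∑ v ∈ S.toRight, g (Sum.inr v) := by
      conv_lhs => rw [← Finset.toLeft_disjSum_toRight (u := S), Finset.sum_disjSum]
      congr 1
      exact Finset.sum_congr rfl fun v _ => one_mul _
    -- archimedean part
    have h1 : ∑ w ∈ S.toLeft, wt (Sum.inl w : Pl k) * g (Sum.inl w) ≤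
        ∑ w : InfinitePlace k, wt (Sum.inl w : Pl k) * g (Sum.inl w) +
          ∑ w : InfinitePlace k, wt (Sum.inl w : Pl k) * Real.log (κ (Sum.inl w)) := by
      rw [← Finset.sum_add_distrib]
      have h2 : ∀ w : InfinitePlace k, 0 ≤ wt (Sum.inl w : Pl k) * g (Sum.inl w) +
          wt (Sum.inl w : Pl k) * Real.log (κ (Sum.inl w)) := by
        intro w
        rw [← mul_add]
        exact mul_nonneg (wt_nonneg _) (by linarith [hgk (Sum.inl w)])
      have h3 : ∑ w ∈ S.toLeft, wt (Sum.inl w : Pl k) * g (Sum.inl w) ≤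
          ∑ w ∈ S.toLeft, (wt (Sum.inl w : Pl k) * g (Sum.inl w) +
          wt (Sum.inl w : Pl k) * Real.log (κ (Sum.inl w))) := by
        refine Finset.sum_le_sum fun w _ => ?_
        have := mul_nonneg (wt_nonneg (Sum.inl w : Pl k)) (Real.log_nonneg (hκ1 (Sum.inl w)))
        linarith
      exact h3.trans (Finset.sum_le_sum_of_subset_of_nonneg (Finset.subset_univ _)
        fun w _ _ => h2 w)
    have h2 : ∑ v ∈ S.toRight, g (Sum.inr v) ≤ ∑ v ∈ T, g (Sum.inr v) +
        ∑ v ∈ hT0f.toFinset, Real.log (κ (Sum.inr v)) := by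
      set c : HeightOneSpectrum (𝓞 k) → ℝ := fun v => if v ∈ T0 then Real.log (κ (Sum.inr v)) else 0
        with hc
      have hc0 : ∀ v, 0 ≤ c v := by
        intro v
        by_cases h : v ∈ T0
        · simp only [hc, h, if_true]; exact Real.log_nonneg (hκ1 _)
        · simp only [hc, h, if_false]; exact le_rfl
      have hgc : ∀ v, 0 ≤ g (Sum.inr v) + c v := by
        intro v
        by_cases h : v ∈ T0
        · simp only [hc, h, if_true]; linarith [hgk (Sum.inr v)]
        · simp only [hc, h, if_false]; linarith [hgg v h]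
      have e1 : ∑ v ∈ hT0f.toFinset, Real.log (κ (Sum.inr v)) = ∑ v ∈ T, c v := by
        rw [← Finset.sum_subset (s₁ := hT0f.toFinset) (s₂ := T) Finset.subset_union_left]
        · refine Finset.sum_congr rfl fun v hv => ?_
          have : v ∈ T0 := (Set.Finite.mem_toFinset _).1 hv
          simp only [hc, this, if_true]
        · intro v _ hv
          have : v ∉ T0 := fun h => hv ((Set.Finite.mem_toFinset _).2 h)
          simp only [hc, this, if_false]
      rw [e1, ← Finset.sum_add_distrib]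
      have h3 : ∑ v ∈ S.toRight, g (Sum.inr v) ≤ ∑ v ∈ S.toRight, (g (Sum.inr v) + c v) :=
        Finset.sum_le_sum fun v _ => by linarith [hc0 v]
      refine h3.trans (Finset.sum_le_sum_of_subset_of_nonneg ?_ fun v _ _ => hgc v)
      rw [hT]
      exact Finset.subset_union_right.trans (Finset.subset_union_right.trans
        Finset.subset_union_right)
    have e1 : ∑ w : InfinitePlace k, wt (Sum.inl w : Pl k) * g (Sum.inl w) =
        ∑ w : InfinitePlace k, (w.mult : ℝ) * Real.log (nrm w.1 x) -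
          ∑ w : InfinitePlace k, (w.mult : ℝ) * Real.log (nrm w.1 y) := by
      rw [← Finset.sum_sub_distrib]
      exact Finset.sum_congr rfl fun w _ => mul_sub _ _ _
    have e2 : ∑ v ∈ T, g (Sum.inr v) = ∑ v ∈ T, Real.log (nrm (Pool.Agent.W180.OP.fv v) x) -
        ∑ v ∈ T, Real.log (nrm (Pool.Agent.W180.OP.fv v) y) := by
      rw [← Finset.sum_sub_distrib]
      rfl
    rw [hSsum]
    rw [e1] at h1
    rw [e2] at h2
    linarith

end Pool.Agent.R405
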