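import Mathlib
import Pool.Agent.R405.ProjH

/-!
Points over a number field of degree at most two with one archimedean place: reduction to rational
points by the fundamental domain of `SL(2, ℤ)`.
-/

set_option autoImplicit false
set_option linter.unusedSectionVars false

open Finset

namespace Pool.Agent.R405.IQ

open NumberField Height Module IsDedekindDomain
open Pool.Agent.W180.OP (nrm le_nrm nrm_pos nrm_nonneg exists_nrm)

variable {L : Type} [Field L] [NumberField L]

theorem mult_eq (w : InfinitePlace L) (hw : ∀ w', w' = w) : w.mult = finrank ℚ L := by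
  classical
  rw [← NumberField.totalWeight_eq_finrank, NumberField.totalWeight_eq_sum_mult]
  have : (Finset.univ : Finset (InfinitePlace L)) = {w} := by
    ext w'
    simp [hw w']
  rw [this, Finset.sum_singleton]

theorem re_im (τ : ℂ) (h1 : |τ.re| ≤ 1 / 2) (h2 : 1 ≤ ‖τ‖) (a b : ℝ) :
    (a ^ 2 + b ^ 2) / 2 ≤ ‖(a : ℂ) * τ + b‖ ^ 2 := by
  have h3 : ‖(a : ℂ) * τ + b‖ ^ 2 = a ^ 2 * ‖τ‖ ^ 2 + 2 * a * b * τ.re + b ^ 2 := by
    rw [← Complex.normSq_eq_norm_sq, ← Complex.normSq_eq_norm_sq, Complex.normSq_apply,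
      Complex.normSq_apply]
    simp
    ring
  rw [h3]
  have h4 : -(|a| * |b|) ≤ 2 * a * b * τ.re := by
    have h5 : |2 * a * b * τ.re| ≤ |a| * |b| := by
      rw [abs_mul, abs_mul, abs_mul, abs_two]
      have := mul_nonneg (abs_nonneg a) (abs_nonneg b)
      nlinarith
    exact (neg_le_neg h5).trans (neg_abs_le _)
  have h5 : a ^ 2 ≤ a ^ 2 * ‖τ‖ ^ 2 := le_mul_of_one_le_right (sq_nonneg a) (one_le_pow₀ h2)
  have h6 : 2 * (|a| * |b|) ≤ a ^ 2 + b ^ 2 := by
    have := sq_nonneg (|a| - |b|)
    rw [← sq_abs a, ← sq_abs b]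
    nlinarith
  linarith

/-- the real coefficients of a small combination are small -/
theorem both_le (τ : ℂ) (h1 : |τ.re| ≤ 1 / 2) (h2 : 1 ≤ ‖τ‖) (a b : ℝ) :
    |a| ≤ 2 * ‖(a : ℂ) * τ + b‖ ∧ |b| ≤ 2 * ‖(a : ℂ) * τ + b‖ := by
  have h3 := re_im τ h1 h2 a b
  have hN := norm_nonneg ((a : ℂ) * τ + b)
  constructor
  · refine abs_le_of_sq_le_sq' ?_ (by positivity) |> abs_le.2
    nlinarith [sq_nonneg b, sq_nonneg ‖(a : ℂ) * τ + b‖]
  · refine abs_le_of_sq_le_sq' ?_ (by positivity) |> abs_le.2
    nlinarith [sq_nonneg a, sq_nonneg ‖(a : ℂ) * τ + b‖]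

/-- a complex basis element over the other is not real -/
theorem im_ne (w : InfinitePlace L) (hw : w.IsComplex) (hd : finrank ℚ L = 2) (a b : L)
    (hab : LinearIndependent ℚ ![a, b]) : (w.embedding a / w.embedding b).im ≠ 0 := by
  intro h0
  have hb : b ≠ 0 := hab.ne_zero 1
  have hσb : w.embedding b ≠ 0 := (map_ne_zero _).2 hb
  have hspan : Submodule.span ℚ (Set.range ![a, b]) = ⊤ :=
    hab.span_eq_top_of_card_eq_finrank' (by simp [hd])
  refine (InfinitePlace.isComplex_iff.1 hw) ?_
  rw [ComplexEmbedding.isReal_iff]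
  apply RingHom.ext
  intro z
  rw [ComplexEmbedding.conjugate_coe_eq]
  have h1 : z * b ∈ Submodule.span ℚ (Set.range ![a, b]) := by rw [hspan]; trivial
  rw [Matrix.range_cons, Matrix.range_cons, Matrix.range_empty, Set.union_empty,
    Set.singleton_union, Submodule.mem_span_pair] at h1
  obtain ⟨s, t, hst⟩ := h1
  have h2 : w.embedding z = (s : ℂ) * (w.embedding a / w.embedding b) + t := by
    have h3 := congrArg w.embedding hst
    rw [map_mul, map_add, Algebra.smul_def, Algebra.smul_def, map_mul, map_mul] at h3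
    have h4 : w.embedding (algebraMap ℚ L s) = s := by simp
    have h5 : w.embedding (algebraMap ℚ L t) = t := by simp
    rw [h4, h5] at h3
    field_simp
    linear_combination -h3
  rw [h2, map_add, map_mul, Complex.conj_eq_iff_im.2 h0]
  simp

/-- the shadow of a point over a field with one archimedean place of degree at most two -/
theorem shadow (hL : finrank ℚ L ≤ 2) (w : InfinitePlace L) (hw : ∀ w', w' = w) {N : ℕ}
    (x : Fin N → L) (hx : x ≠ 0) :
    ∃ (ω : L) (p q c : Fin N → ℤ) (τ : ℂ), ω ≠ 0 ∧ ∑ j, (c j : L) * x j = ω ∧ |τ.re| ≤ 1 / 2 ∧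
      1 ≤ ‖τ‖ ∧ ∀ j, w.embedding (x j) = w.embedding ω * ((p j : ℂ) * τ + (q j : ℂ)) := by
  classical
  set M : Submodule ℤ L := Submodule.span ℤ (Set.range x) with hM
  have hfin : Module.Finite ℤ M := by
    rw [Module.Finite.iff_fg]
    exact Submodule.fg_span (Set.finite_range x)
  have hfree : Module.Free ℤ M := Module.free_of_finite_type_torsion_free'
  set b := Module.finBasis ℤ M with hb
  have hmem : ∀ y ∈ M, ∃ c : Fin N → ℤ, ∑ j, (c j : L) * x j = y := by
    intro y hy
    obtain ⟨c, hc⟩ := (Submodule.mem_span_range_iff_exists_fun ℤ).1 hy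
    refine ⟨c, ?_⟩
    rw [← hc]
    exact Finset.sum_congr rfl fun j _ => by rw [zsmul_eq_mul]
  have hxM : ∀ j, x j ∈ M := fun j => Submodule.subset_span ⟨j, rfl⟩
  have hxb : ∀ j, x j = ∑ i, (b.repr ⟨x j, hxM j⟩ i : L) * (b i : L) := by
    intro j
    have h1 := congrArg (fun y : M => (y : L)) (b.sum_repr ⟨x j, hxM j⟩)
    simp only [Submodule.coe_sum, Submodule.coe_smul, zsmul_eq_mul] at h1
    exact h1.symm
  have hli : LinearIndependent ℚ fun i => ((b i : M) : L) := by
    have h1 : LinearIndependent ℤ fun i => ((b i : M) : L) :=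
      b.linearIndependent.map' M.subtype (Submodule.ker_subtype M)
    exact (LinearIndependent.iff_fractionRing ℤ ℚ).1 h1
  have hcard : finrank ℤ M ≤ 2 := by
    have := hli.fintype_card_le_finrank
    rw [Fintype.card_fin] at this
    omega
  have hpos : finrank ℤ M ≠ 0 := by
    intro h0
    apply hx
    funext j
    rw [hxb j]
    have : IsEmpty (Fin (finrank ℤ M)) := by rw [h0]; infer_instance
    simp
  rcases (by omega : finrank ℤ M = 1 ∨ finrank ℤ M = 2) with h1 | h2
  · -- rank one
    set i0 : Fin (finrank ℤ M) := ⟨0, by omega⟩ with hi0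
    have huniq : ∀ i : Fin (finrank ℤ M), i = i0 := by
      intro i
      apply Fin.ext
      have := i.2
      show i.1 = 0
      omega
    obtain ⟨c, hc⟩ := hmem (b i0 : L) (b i0).2
    refine ⟨(b i0 : L), fun _ => 0, fun j => b.repr ⟨x j, hxM j⟩ i0, c, Complex.I, ?_, hc, ?_, ?_,
      fun j => ?_⟩
    · exact hli.ne_zero i0
    · simp
    · simp
    · have h3 : x j = (b.repr ⟨x j, hxM j⟩ i0 : L) * (b i0 : L) := by
        conv_lhs => rw [hxb j]
        have : (Finset.univ : Finset (Fin (finrank ℤ M))) = {i0} := by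
          ext i
          simp [huniq i]
        rw [this, Finset.sum_singleton]
      conv_lhs => rw [h3]
      rw [map_mul, map_intCast]
      push_cast
      ring
  · -- rank two
    set i0 : Fin (finrank ℤ M) := ⟨0, by omega⟩ with hi0
    set i1 : Fin (finrank ℤ M) := ⟨1, by omega⟩ with hi1
    have huniv : (Finset.univ : Finset (Fin (finrank ℤ M))) = {i0, i1} := by
      ext i
      have := i.2
      simp only [Finset.mem_univ, Finset.mem_insert, Finset.mem_singleton, true_iff, Fin.ext_iff,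
        hi0, hi1]
      omega
    have hne : i0 ≠ i1 := by
      intro h
      have := congrArg Fin.val h
      simp [hi0, hi1] at this
    have hd : finrank ℚ L = 2 := by
      have := hli.fintype_card_le_finrank
      rw [Fintype.card_fin] at this
      omega
    have hcx : w.IsComplex := by
      by_contra hcon
      have h3 := mult_eq w hw
      rw [InfinitePlace.not_isComplex_iff_isReal] at hcon
      rw [InfinitePlace.mult, if_pos hcon, hd] at h3
      omega
    -- oriented basis
    have hor : ∃ (a d : L) (s t : Fin N → ℤ), a ∈ M ∧ d ∈ M ∧ d ≠ 0 ∧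
        (∀ j, x j = s j * a + t j * d) ∧ 0 < (w.embedding a / w.embedding d).im := by
      have h4 : LinearIndependent ℚ ![((b i0 : M) : L), (b i1 : L)] := by
        have h5 := hli.comp ![i0, i1] (by
          intro u v huv
          fin_cases u <;> fin_cases v
          · rfl
          · exact absurd huv hne
          · exact absurd huv.symm hne
          · rfl)
        convert h5 using 1
        funext u
        fin_cases u <;> rfl
      have h5 := im_ne w hcx hd _ _ h4
      have h6 : ∀ j, x j = (b.repr ⟨x j, hxM j⟩ i0 : L) * (b i0 : L) +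
          (b.repr ⟨x j, hxM j⟩ i1 : L) * (b i1 : L) := by
        intro j
        conv_lhs => rw [hxb j]
        rw [huniv, Finset.sum_pair hne]
      rcases lt_or_gt_of_ne h5 with h7 | h7
      · refine ⟨-(b i0 : L), (b i1 : L), fun j => -b.repr ⟨x j, hxM j⟩ i0,
          fun j => b.repr ⟨x j, hxM j⟩ i1, M.neg_mem (b i0).2, (b i1).2, hli.ne_zero i1,
          fun j => ?_, ?_⟩
        · rw [h6 j]
          push_cast
          ring
        · rw [map_neg, neg_div, Complex.neg_im]
          linarith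
      · exact ⟨(b i0 : L), (b i1 : L), fun j => b.repr ⟨x j, hxM j⟩ i0,
          fun j => b.repr ⟨x j, hxM j⟩ i1, (b i0).2, (b i1).2, hli.ne_zero i1, h6, h7⟩
    obtain ⟨a, d, s, t, haM, hdM, hd0, hst, him⟩ := hor
    have hσd : w.embedding d ≠ 0 := (map_ne_zero _).2 hd0
    set z : UpperHalfPlane := ⟨w.embedding a / w.embedding d, him⟩ with hz
    obtain ⟨g, hg⟩ := ModularGroup.exists_smul_mem_fd z
    set τ : ℂ := ((g • z : UpperHalfPlane) : ℂ) with hτ
    have hdet : (g 0 0 : ℤ) * g 1 1 - g 0 1 * g 1 0 = 1 := by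
      have := g.2
      rw [Matrix.det_fin_two] at this
      exact this
    have hden : UpperHalfPlane.denom g z ≠ 0 := UpperHalfPlane.denom_ne_zero _ _
    have hτe : τ = ((g 0 0 : ℤ) * (w.embedding a / w.embedding d) + (g 0 1 : ℤ)) /
        ((g 1 0 : ℤ) * (w.embedding a / w.embedding d) + (g 1 1 : ℤ)) := by
      rw [hτ, UpperHalfPlane.specialLinearGroup_apply]
      rfl
    have hden' : ((g 1 0 : ℤ) : ℂ) * (w.embedding a / w.embedding d) + (g 1 1 : ℤ) ≠ 0 := by
      have := UpperHalfPlane.denom_ne_zero (g : Matrix.GeneralLinearGroup (Fin 2) ℝ) z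
      simpa [UpperHalfPlane.denom] using this
    obtain ⟨c, hc⟩ := hmem (((g 1 0 : ℤ) : L) * a + ((g 1 1 : ℤ) : L) * d)
      (M.add_mem (by rw [← zsmul_eq_mul]; exact M.smul_mem _ haM)
        (by rw [← zsmul_eq_mul]; exact M.smul_mem _ hdM))
    have hσω : w.embedding (((g 1 0 : ℤ) : L) * a + ((g 1 1 : ℤ) : L) * d) =
        w.embedding d * (((g 1 0 : ℤ) : ℂ) * (w.embedding a / w.embedding d) + (g 1 1 : ℤ)) := by
      rw [map_add, map_mul, map_mul, map_intCast, map_intCast]
      field_simp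
    refine ⟨((g 1 0 : ℤ) : L) * a + ((g 1 1 : ℤ) : L) * d,
      fun j => g 1 1 * s j - g 1 0 * t j, fun j => -g 0 1 * s j + g 0 0 * t j, c, τ, ?_, hc, ?_,
      ?_, fun j => ?_⟩
    · intro h0
      rw [h0, map_zero] at hσω
      exact mul_ne_zero hσd hden' hσω.symm
    · exact hg.2
    · have h3 : 1 ≤ Complex.normSq τ := hg.1
      rw [Complex.normSq_eq_norm_sq] at h3
      exact (one_le_sq_iff₀ (norm_nonneg _)).1 h3
    · rw [hσω, hst j, map_add, map_mul, map_mul, map_intCast, map_intCast, hτe]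
      push_cast
      set u := w.embedding a / w.embedding d with hu
      have ha : w.embedding a = u * w.embedding d := by
        rw [hu, div_mul_cancel₀ _ hσd]
      rw [ha]
      have hdetC : ((g 0 0 : ℤ) : ℂ) * ((g 1 1 : ℤ) : ℂ) - ((g 0 1 : ℤ) : ℂ) * ((g 1 0 : ℤ) : ℂ) = 1 := by
        exact_mod_cast hdet
      set D : ℂ := ((g 1 0 : ℤ) : ℂ) * u + ((g 1 1 : ℤ) : ℂ) with hD
      set E : ℂ := ((g 0 0 : ℤ) : ℂ) * u + ((g 0 1 : ℤ) : ℂ) with hE
      have hτD : E / D * D = E := div_mul_cancel₀ _ hden'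
      linear_combination (-w.embedding d * (((g 1 1 : ℤ) : ℂ) * s j - ((g 1 0 : ℤ) : ℂ) * t j)) * hτD
        - w.embedding d * (s j * u + t j) * hdetC

/-- comparison with the height -/
theorem height_ge (w : InfinitePlace L) (hw : ∀ w', w' = w) {N : ℕ} (x : Fin N → L) (hx : x ≠ 0)
    (ω : L) (hω : ω ≠ 0) (c : Fin N → ℤ) (hc : ∑ j, (c j : L) * x j = ω) :
    Real.log (⨆ j, w (x j)) - Real.log (w ω) ≤ logHeight x / finrank ℚ L := by
  classical
  obtain ⟨j0, hj0⟩ := Function.ne_iff.1 hx
  have hne : Nonempty (Fin N) := ⟨j0⟩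
  have huniv : (Finset.univ : Finset (InfinitePlace L)) = {w} := by
    ext w'
    simp [hw w']
  have hm := mult_eq w hw
  have hmpos : (0 : ℝ) < finrank ℚ L := by exact_mod_cast finrank_pos (R := ℚ) (M := L)
  have hω' : (fun _ : Fin 1 => ω) ≠ 0 := fun h => hω (congrFun h 0)
  set T : Finset (HeightOneSpectrum (𝓞 L)) := (nrm_finite x hx).toFinset ∪
    (nrm_finite _ hω').toFinset with hT
  have h1 := logHeight_sum x hx T (by
    intro v hv
    by_contra hc
    apply hv
    rw [hT]
    simp only [Finset.mem_union, Set.Finite.mem_toFinset, Set.mem_ofPred_eq]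
    exact Or.inl hc)
  have h2 := logHeight_sum (fun _ : Fin 1 => ω) hω' T (by
    intro v hv
    by_contra hc
    apply hv
    rw [hT]
    simp only [Finset.mem_union, Set.Finite.mem_toFinset, Set.mem_ofPred_eq]
    exact Or.inr hc)
  rw [Height.logHeight_eq_zero_of_subsingleton] at h2
  rw [huniv, Finset.sum_singleton, hm] at h1 h2
  have h3 : ∀ f : AbsoluteValue L ℝ, nrm f (fun _ : Fin 1 => ω) = f ω := fun f => by
    unfold nrm
    exact ciSup_const
  rw [h3] at h2
  have h4 : ∑ v ∈ T, Real.log (nrm (Pool.Agent.W180.OP.fv v) (fun _ : Fin 1 => ω)) ≤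
      ∑ v ∈ T, Real.log (nrm (Pool.Agent.W180.OP.fv v) x) := by
    refine Finset.sum_le_sum fun v _ => Real.log_le_log (nrm_pos _ hω') ?_
    rw [h3, ← hc]
    have hna : IsNonarchimedean (Pool.Agent.W180.OP.fv v) := by
      intro a b
      exact FinitePlace.add_le (FinitePlace.mk v) a b
    obtain ⟨j, -, hj⟩ := IsNonarchimedean.finset_image_add_of_nonempty
      hna (fun j => (c j : L) * x j) (t := Finset.univ) Finset.univ_nonempty
    refine hj.trans ?_
    rw [map_mul]
    calc _ ≤ 1 * nrm (Pool.Agent.W180.OP.fv v) x :=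
          mul_le_mul (IsNonarchimedean.apply_intCast_le_one hna) (le_nrm _ x j)
            (AbsoluteValue.nonneg _ _) zero_le_one
      _ = _ := one_mul _
  rw [le_div_iff₀ hmpos]
  have h5 : Real.log (⨆ j, w (x j)) = Real.log (nrm w.1 x) := rfl
  have h6 : Real.log (w ω) = Real.log (w.1 ω) := rfl
  rw [h5, h6, sub_mul]
  linarith

end Pool.Agent.R405.IQ
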