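import Mathlib

/-!
Semistability for weighted families of subspaces (for Vojta's refinement of the subspace theorem).
-/

set_option autoImplicit false
set_option linter.unusedSectionVars false

open Finset Module

namespace Pool.Agent.R405

variable {k K : Type} [Field k] [Field K] [Algebra k K] {n : ℕ}

/-- extension of scalars of a vector -/
def exv (K : Type) [Field K] [Algebra k K] (u : Fin n → k) : Fin n → K :=
  fun j => algebraMap k K (u j)

/-- extension of scalars of a subspace -/
def exs (K : Type) [Field K] [Algebra k K] (U : Submodule k (Fin n → k)) :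
    Submodule K (Fin n → K) := Submodule.span K (exv K '' (U : Set (Fin n → k)))

theorem exv_add (u u' : Fin n → k) : exv K (u + u') = exv K u + exv K u' := by
  funext j; simp [exv]

theorem exv_smul (c : k) (u : Fin n → k) : exv K (c • u) = algebraMap k K c • exv K u := by
  funext j; simp [exv]

theorem exv_zero : exv K (0 : Fin n → k) = 0 := by
  funext j; simp [exv]

theorem exv_sum {α : Type} (s : Finset α) (u : α → Fin n → k) :
    exv K (∑ a ∈ s, u a) = ∑ a ∈ s, exv K (u a) := by
  funext j; simp [exv]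

theorem exs_mono {U U' : Submodule k (Fin n → k)} (h : U ≤ U') : exs K U ≤ exs K U' :=
  Submodule.span_mono (Set.image_mono h)

theorem exs_sup (U U' : Submodule k (Fin n → k)) : exs K (U ⊔ U') = exs K U ⊔ exs K U' := by
  apply le_antisymm
  · refine Submodule.span_le.2 ?_
    rintro _ ⟨u, hu, rfl⟩
    obtain ⟨a, ha, b, hb, rfl⟩ := Submodule.mem_sup.1 hu
    rw [exv_add]
    exact Submodule.add_mem_sup (Submodule.subset_span ⟨a, ha, rfl⟩)
      (Submodule.subset_span ⟨b, hb, rfl⟩)
  · exact sup_le (exs_mono le_sup_left) (exs_mono le_sup_right)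

theorem exs_bot : exs K (⊥ : Submodule k (Fin n → k)) = ⊥ := by
  rw [eq_bot_iff]
  refine Submodule.span_le.2 ?_
  rintro _ ⟨u, hu, rfl⟩
  have : u = 0 := hu
  rw [this, exv_zero]
  exact Submodule.zero_mem _

/-- independent vectors remain independent -/
theorem exv_li {ι : Type} {b : ι → Fin n → k} (hb : LinearIndependent k b) :
    LinearIndependent K (fun i => exv K (b i)) := by
  classical
  rw [linearIndependent_iff']
  intro s g hg i hi
  rw [← Module.forall_dual_apply_eq_zero_iff k]
  intro φ
  have h1 : ∑ i ∈ s, φ (g i) • b i = 0 := by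
    funext j
    have h2 := congrArg φ (congrFun hg j)
    simp only [Finset.sum_apply, Pi.smul_apply, exv, Pi.zero_apply, map_zero, map_sum,
      smul_eq_mul] at h2 ⊢
    rw [← h2]
    refine Finset.sum_congr rfl fun i _ => ?_
    rw [mul_comm (g i), ← Algebra.smul_def, map_smul, smul_eq_mul, mul_comm]
  exact linearIndependent_iff'.1 hb s _ h1 i hi

theorem finrank_exs (U : Submodule k (Fin n → k)) : finrank K (exs K U) = finrank k U := by
  classical
  let b := Module.finBasis k U
  have h1 : LinearIndependent K (fun i => exv K ((b i : U) : Fin n → k)) :=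
    exv_li (b.linearIndependent.map' U.subtype (Submodule.ker_subtype U))
  have h2 : exs K U = Submodule.span K (Set.range fun i => exv K ((b i : U) : Fin n → k)) := by
    apply le_antisymm
    · refine Submodule.span_le.2 ?_
      rintro _ ⟨u, hu, rfl⟩
      have h3 : u = ∑ i, b.repr ⟨u, hu⟩ i • ((b i : U) : Fin n → k) := by
        have h4 := congrArg U.subtype (b.sum_repr ⟨u, hu⟩)
        rw [map_sum] at h4
        simp only [map_smul, Submodule.subtype_apply] at h4
        exact h4.symm
      rw [h3, exv_sum]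
      refine Submodule.sum_mem _ fun i _ => ?_
      rw [exv_smul]
      exact Submodule.smul_mem _ _ (Submodule.subset_span ⟨i, rfl⟩)
    · refine Submodule.span_le.2 ?_
      rintro _ ⟨i, rfl⟩
      exact Submodule.subset_span ⟨_, (b i).2, rfl⟩
  rw [h2, finrank_span_eq_card h1, Fintype.card_fin]

theorem exs_inf (U U' : Submodule k (Fin n → k)) : exs K (U ⊓ U') = exs K U ⊓ exs K U' := by
  refine Submodule.eq_of_le_of_finrank_eq (le_inf (exs_mono inf_le_left) (exs_mono inf_le_right)) ?_
  have h1 := Submodule.finrank_sup_add_finrank_inf_eq (exs K U) (exs K U')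
  have h2 := Submodule.finrank_sup_add_finrank_inf_eq U U'
  rw [← exs_sup, finrank_exs, finrank_exs, finrank_exs] at h1
  rw [finrank_exs]
  omega

section weights

variable {ι : Type} [Fintype ι] [DecidableEq ι] (L : ι → Fin n → K)

/-- the span of some of the forms -/
def flat (A : Finset ι) : Submodule K (Fin n → K) := Submodule.span K (L '' (A : Set ι))

/-- the dimension of the intersection with a flat -/
noncomputable def dm (A : Finset ι) (U : Submodule k (Fin n → k)) : ℕ :=
  finrank K ((flat L A ⊓ exs K U : Submodule K (Fin n → K)))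

/-- the degree of a subspace -/
noncomputable def dg (w : Finset ι → ℝ) (U : Submodule k (Fin n → k)) : ℝ :=
  ∑ A, w A * dm L A U

theorem dm_bot (A : Finset ι) : dm L A (⊥ : Submodule k (Fin n → k)) = 0 := by
  unfold dm
  rw [exs_bot, inf_bot_eq, finrank_bot]

theorem dm_super (A : Finset ι) (U U' : Submodule k (Fin n → k)) :
    dm L A U + dm L A U' ≤ dm L A (U ⊔ U') + dm L A (U ⊓ U') := by
  unfold dm
  have h1 := Submodule.finrank_sup_add_finrank_inf_eq (flat L A ⊓ exs K U) (flat L A ⊓ exs K U')
  have h2 : finrank K ((flat L A ⊓ exs K U) ⊔ (flat L A ⊓ exs K U') : Submodule K (Fin n → K)) ≤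
      finrank K (flat L A ⊓ exs K (U ⊔ U') : Submodule K (Fin n → K)) := by
    refine Submodule.finrank_mono ?_
    rw [exs_sup]
    exact sup_le (inf_le_inf le_rfl le_sup_left) (inf_le_inf le_rfl le_sup_right)
  have h3 : (flat L A ⊓ exs K U) ⊓ (flat L A ⊓ exs K U') = flat L A ⊓ exs K (U ⊓ U') := by
    rw [exs_inf, ← inf_inf_distrib_left]
  rw [h3] at h1
  omega

theorem dg_super {w : Finset ι → ℝ} (hw : ∀ A, 0 ≤ w A) (U U' : Submodule k (Fin n → k)) :
    dg L w U + dg L w U' ≤ dg L w (U ⊔ U') + dg L w (U ⊓ U') := by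
  unfold dg
  rw [← Finset.sum_add_distrib, ← Finset.sum_add_distrib]
  refine Finset.sum_le_sum fun A _ => ?_
  rw [← mul_add, ← mul_add]
  exact mul_le_mul_of_nonneg_left (by exact_mod_cast dm_super L A U U') (hw A)

theorem dg_bot (w : Finset ι → ℝ) : dg L w (⊥ : Submodule k (Fin n → k)) = 0 := by
  unfold dg
  simp [dm_bot]

/-- the maximal destabilizing subspace, with its slope -/
def IsHN (w : Finset ι → ℝ) (U : Submodule k (Fin n → k)) (μ : ℝ) : Prop :=
  U ≠ ⊥ ∧ dg L w U = μ * finrank k U ∧ (∀ U' : Submodule k (Fin n → k),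
    dg L w U' ≤ μ * finrank k U') ∧ ∀ U' : Submodule k (Fin n → k), U' ≠ ⊥ →
      dg L w U' = μ * finrank k U' → finrank k U' ≤ finrank k U

theorem IsHN.unique {w : Finset ι → ℝ} (hw : ∀ A, 0 ≤ w A) {U U' : Submodule k (Fin n → k)}
    {μ : ℝ} (h : IsHN L w U μ) (h' : IsHN L w U' μ) : U = U' := by
  have key : ∀ V V' : Submodule k (Fin n → k), IsHN L w V μ → IsHN L w V' μ → V' ≤ V := by
    intro V V' hV hV'
    obtain ⟨h1, h2, h3, h4⟩ := hV
    obtain ⟨g1, g2, g3, g4⟩ := hV'
    have hs := dg_super L hw V V'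
    have hd := Submodule.finrank_sup_add_finrank_inf_eq V V'
    have hd' : (finrank k (V ⊔ V' : Submodule k (Fin n → k)) : ℝ) +
        finrank k (V ⊓ V' : Submodule k (Fin n → k)) = finrank k V + finrank k V' := by
      exact_mod_cast hd
    have h5 := h3 (V ⊓ V')
    have h6 := h3 (V ⊔ V')
    have h7 : dg L w (V ⊔ V') = μ * finrank k (V ⊔ V' : Submodule k (Fin n → k)) := by
      apply le_antisymm h6
      have h8 : μ * ((finrank k (V ⊔ V' : Submodule k (Fin n → k)) : ℝ) +
        finrank k (V ⊓ V' : Submodule k (Fin n → k))) = μ * finrank k V + μ * finrank k V' := by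
          rw [hd']; ring
      linarith
    have h8 := h4 (V ⊔ V') (fun h0 => h1 (eq_bot_iff.2 (le_sup_left.trans h0.le))) h7
    have h9 : V = V ⊔ V' := Submodule.eq_of_le_of_finrank_le le_sup_left h8
    rw [h9]
    exact le_sup_right
  exact le_antisymm (key U' U h' h) (key U U' h h')

theorem exists_HN (hn : 1 ≤ n) (w : Finset ι → ℝ) :
    ∃ (U : Submodule k (Fin n → k)) (μ : ℝ), IsHN L w U μ := by
  classical
  -- the types
  have hfin : (Set.range fun U : {U : Submodule k (Fin n → k) // U ≠ ⊥} =>
      toLex ((dg L w U.1) / (finrank k U.1 : ℝ), finrank k U.1)).Finite := by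
    have h1 : (Set.range fun U : {U : Submodule k (Fin n → k) // U ≠ ⊥} =>
        ((⟨finrank k U.1, by
          have := Submodule.finrank_le U.1
          rw [finrank_fin_fun] at this
          omega⟩ : Fin (n + 1)), (fun A : Finset ι => (⟨dm L A U.1, by
          have := Submodule.finrank_le (flat L A ⊓ exs K U.1)
          rw [finrank_fin_fun] at this
          exact Nat.lt_succ_of_le this⟩ : Fin (n + 1))))).Finite := Set.toFinite _
    have h2 := h1.image (fun p : Fin (n + 1) × (Finset ι → Fin (n + 1)) =>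
      toLex ((∑ A, w A * ((p.2 A : ℕ) : ℝ)) / ((p.1 : ℕ) : ℝ), (p.1 : ℕ)))
    refine h2.subset ?_
    rintro _ ⟨U, rfl⟩
    exact ⟨_, ⟨U, rfl⟩, rfl⟩
  have hne : (Set.range fun U : {U : Submodule k (Fin n → k) // U ≠ ⊥} =>
      toLex ((dg L w U.1) / (finrank k U.1 : ℝ), finrank k U.1)).Nonempty := by
    have htop : (⊤ : Submodule k (Fin n → k)) ≠ ⊥ := by
      intro h
      have h1 : finrank k (⊤ : Submodule k (Fin n → k)) = n := by
        rw [finrank_top, finrank_fin_fun]
      rw [h, finrank_bot] at h1
      omega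
    exact ⟨_, ⟨⟨⊤, htop⟩, rfl⟩⟩
  obtain ⟨_, ⟨⟨U, rfl⟩, hmax⟩⟩ := Set.exists_max_image _ id hfin hne
  have hpos : ∀ V : Submodule k (Fin n → k), V ≠ ⊥ → (0 : ℝ) < finrank k V := by
    intro V hV
    have : 0 < finrank k V := Nat.pos_of_ne_zero fun h => hV (Submodule.finrank_eq_zero.1 h)
    exact_mod_cast this
  have hU := hpos U.1 U.2
  have hm : ∀ V : Submodule k (Fin n → k), V ≠ ⊥ →
      dg L w V / finrank k V < dg L w U.1 / finrank k U.1 ∨
      (dg L w V / finrank k V = dg L w U.1 / finrank k U.1 ∧ finrank k V ≤ finrank k U.1) := by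
    intro V hV
    have := hmax _ ⟨⟨V, hV⟩, rfl⟩
    simp only [id] at this
    rw [Prod.Lex.toLex_le_toLex] at this
    exact this
  refine ⟨U.1, dg L w U.1 / finrank k U.1, U.2, by field_simp, fun V => ?_, fun V hV h => ?_⟩
  · by_cases hV : V = ⊥
    · rw [hV, dg_bot, finrank_bot]
      simp
    · rw [← div_le_iff₀ (hpos V hV)]
      rcases hm V hV with h | h
      · exact h.le
      · exact h.1.le
  · rcases hm V hV with h' | h'
    · exfalso
      rw [h, mul_div_assoc, div_self (hpos V hV).ne', mul_one] at h'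
      exact lt_irrefl _ h'
    · exact h'.2

/-- the finitely many destabilizing subspaces -/
theorem finite_HN : {U : Submodule k (Fin n → k) | ∃ (w : Finset ι → ℝ) (μ : ℝ),
    (∀ A, 0 ≤ w A) ∧ IsHN L w U μ}.Finite := by
  classical
  have hfin : (Set.univ : Set (Fin (n + 1) × (Finset ι → Fin (n + 1)))).Finite := Set.toFinite _
  refine Set.Finite.of_finite_image (f := fun U : Submodule k (Fin n → k) =>
    ((⟨finrank k U, by
          have := Submodule.finrank_le U
          rw [finrank_fin_fun] at this
          omega⟩ : Fin (n + 1)), (fun A : Finset ι => (⟨dm L A U, by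
          have := Submodule.finrank_le (flat L A ⊓ exs K U)
          rw [finrank_fin_fun] at this
          exact Nat.lt_succ_of_le this⟩ : Fin (n + 1))))) (hfin.subset (Set.subset_univ _)) ?_
  rintro U ⟨w, μ, hw, hU⟩ U' - h
  simp only [Prod.mk.injEq, Fin.mk.injEq] at h
  obtain ⟨h1, h2⟩ := h
  have h3 : ∀ A, dm L A U = dm L A U' := fun A => by
    have := congrFun h2 A
    simpa using this
  have h4 : dg L w U = dg L w U' := by
    unfold dg
    exact Finset.sum_congr rfl fun A _ => by rw [h3]
  have hU' : IsHN L w U' μ := by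
    obtain ⟨g1, g2, g3, g4⟩ := hU
    refine ⟨?_, by rw [← h4, ← h1]; exact g2, g3, fun V hV hV' => ?_⟩
    · intro h0
      rw [h0, finrank_bot] at h1
      exact g1 (Submodule.finrank_eq_zero.1 h1)
    · rw [← h1]
      exact g4 V hV hV'
  exact hU.unique L hw hU'

end weights

end Pool.Agent.R405
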