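import Mathlib
import Pool.Agent.R405.SchV
import Pool.Agent.R405.MI

/-!
Multiplier ideals of arrangements over a number field.
-/

set_option autoImplicit false
set_option linter.unusedSectionVars false

open Finset

namespace Pool.Agent.R405

open NumberField IsDedekindDomain Height Module MvPolynomial
open Pool.Agent.W180.OP (Pl av wt nrm le_nrm nrm_pos nrm_nonneg exists_nrm lam lam_eq liou wt_nonneg)

/-- a basis of forms which is minimal at a point -/
theorem greedy {K : Type} [Field K] {n : ℕ} {ι : Type} [Fintype ι] [DecidableEq ι]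
    (f : AbsoluteValue K ℝ) (L : ι → Fin n → K)
    (hspan : ∃ β : Fin n → ι, (Matrix.of fun a => L (β a)).det ≠ 0) (x : Fin n → K)
    (hx : ∀ l, dot (L l) x ≠ 0) :
    ∃ β : Fin n → ι, (Matrix.of fun a => L (β a)).det ≠ 0 ∧
      ∀ B' : Matrix (Fin n) (Fin n) K, B' * (Matrix.of fun a => L (β a)) = 1 →
        ∀ l i, Matrix.vecMul (L l) B' i ≠ 0 → f (dot (L (β i)) x) ≤ f (dot (L l) x) := by
  classical
  obtain ⟨β0, hβ0⟩ := hspan
  obtain ⟨β, hβ, hmin⟩ := Finset.exists_min_image
    (Finset.univ.filter fun β : Fin n → ι => (Matrix.of fun a => L (β a)).det ≠ 0)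
    (fun β => ∏ a, f (dot (L (β a)) x)) ⟨β0, Finset.mem_filter.2 ⟨Finset.mem_univ _, hβ0⟩⟩
  have hβd := (Finset.mem_filter.1 hβ).2
  refine ⟨β, hβd, fun B' hB' l i hi => ?_⟩
  set A : Matrix (Fin n) (Fin n) K := Matrix.of fun a => L (β a) with hA
  have h1 : ∑ a, (Matrix.vecMul (L l) B' a) • A a = L l := by
    have h2 : Matrix.vecMul (Matrix.vecMul (L l) B') A = L l := by
      rw [Matrix.vecMul_vecMul, hB', Matrix.vecMul_one]
    conv_rhs => rw [← h2]
    funext j
    rw [Finset.sum_apply]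
    rfl
  have h2 := Matrix.det_updateRow_sum A i (Matrix.vecMul (L l) B')
  rw [h1] at h2
  have h3 : (Matrix.of fun a => L (Function.update β i l a)) = A.updateRow i (L l) := by
    ext a j
    by_cases h : a = i
    · subst h
      simp [Matrix.updateRow_self]
    · simp [Matrix.updateRow_ne h, Function.update_of_ne h, hA]
  have h4 : (Matrix.of fun a => L (Function.update β i l a)).det ≠ 0 := by
    rw [h3, h2, smul_eq_mul]
    exact mul_ne_zero hi hβd
  have h5 := hmin _ (Finset.mem_filter.2 ⟨Finset.mem_univ _, h4⟩)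
  rw [← Finset.mul_prod_erase _ _ (Finset.mem_univ i),
    ← Finset.mul_prod_erase _ (fun a => f (dot (L (Function.update β i l a)) x))
      (Finset.mem_univ i), Function.update_self] at h5
  have h6 : ∏ a ∈ Finset.univ.erase i, f (dot (L (Function.update β i l a)) x) =
      ∏ a ∈ Finset.univ.erase i, f (dot (L (β a)) x) :=
    Finset.prod_congr rfl fun a ha => by
      rw [Function.update_of_ne (Finset.ne_of_mem_erase ha)]
  rw [h6] at h5
  exact le_of_mul_le_mul_right h5 (Finset.prod_pos fun a _ => f.pos_iff.2 (hx _))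

/-- the local height of the ideal generated by `F` -/
noncomputable def lamI {k : Type} [Field k] (f : AbsoluteValue k ℝ) {n a : ℕ} (d : Fin a → ℕ)
    (F : Fin a → MvPolynomial (Fin n) k) (x : Fin n → k) : ℝ :=
  -Real.log (⨆ j, f (eval x (F j)) / nrm f x ^ d j)

variable {k K : Type} [Field k] [NumberField k] [Field K] [NumberField K] [Algebra k K] {n : ℕ}
  {ι : Type} [Fintype ι] [DecidableEq ι]

theorem aeval_exv (x : Fin n → k) (P : MvPolynomial (Fin n) k) :
    aeval (exv K x) P = algebraMap k K (eval x P) := by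
  have h2 := MvPolynomial.aeval_algebraMap_apply K x P
  rw [aeval_eq_eval] at h2
  exact h2

theorem Good.aeval_ext {v : Pl k} {f : AbsoluteValue K ℝ} (h : Good v f) (x : Fin n → k)
    (P : MvPolynomial (Fin n) k) : f (aeval (exv K x) P) = av v (eval x P) := by
  rw [aeval_exv, h.ext]

theorem arrK [IsGalois ℚ K] (hi : ∃ z : K, z ^ 2 = -1) (hn : 1 ≤ n) (L : ι → Fin n → K)
    (hL0 : ∀ l, L l ≠ 0) (hspan : ∃ β : Fin n → ι, (Matrix.of fun a => L (β a)).det ≠ 0) :
    ∃ Z : Finset (Fin n → k), (∀ z ∈ Z, z ≠ 0) ∧ ∀ (a : ℕ) (Fs : Fin a → MvPolynomial (Fin n) k)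
      (c : Fin a → K) (d : Fin a → ℕ) (σ : ∀ j, Fin (d j) → ι),
      (∀ j, map (algebraMap k K) (Fs j) = C (c j) * ∏ s, lff (L (σ j s))) → (∃ j, Fs j ≠ 0) →
      ∀ (b : ℕ) (us : Fin b → MvPolynomial (Fin n) k) (e : Fin b → ℕ),
      (∀ i, (us i).IsHomogeneous (e i)) → (∀ i, InMultV Fs (us i)) →
      ∀ (S : Finset (Pl k)) (ε : ℝ), 0 < ε → ∃ C : ℝ, ∀ x : Fin n → k, x ≠ 0 →
        (∀ z ∈ Z, ∑ j, z j * x j ≠ 0) → (∃ i, eval x (us i) ≠ 0) →
        ∑ v ∈ S, wt v * (lamI (av v) d Fs x - lamI (av v) e us x) ≤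
          (n + ε) * logHeight x + C := by
  classical
  obtain ⟨Z0, hZ0, hmain⟩ := schV (k := k) hi hn L
  have hdes : ∀ l, ∃ g : Fin n → k, g ≠ 0 ∧ ∀ x : Fin n → k,
      ∑ j, g j * x j ≠ 0 → ∑ j, L l j * algebraMap k K (x j) ≠ 0 := fun l =>
    descend (k := k) (L l) (hL0 l)
  choose g hg0 hg using hdes
  refine ⟨Z0 ∪ Finset.univ.image g, ?_, ?_⟩
  · intro z hz
    rcases Finset.mem_union.1 hz with hz | hz
    · exact hZ0 z hz
    · obtain ⟨l, -, rfl⟩ := Finset.mem_image.1 hz
      exact hg0 l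
  intro a Fs c d σ hfac hne b us e hus hm S ε hε
  choose f hf using fun v : Pl k => exists_good (K := K) v
  obtain ⟨C0, hC0, hsch⟩ := hmain S f (fun v _ => hf v) ε hε
  -- the local constants
  have hloc : ∀ (v : Pl k) (β : Fin n → ι) (i : Fin b), ∃ C : ℝ, 0 ≤ C ∧
      ((Matrix.of fun a => L (β a)).det ≠ 0 → ∀ x : Fin n → K, x ≠ 0 →
      (∀ l, dot (L l) x ≠ 0) →
      (∀ B' : Matrix (Fin n) (Fin n) K, B' * (Matrix.of fun a => L (β a)) = 1 →
        ∀ l i, Matrix.vecMul (L l) B' i ≠ 0 → f v (dot (L (β i)) x) ≤ f v (dot (L l) x)) →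
      aeval x (us i) ≠ 0 → 0 < ⨆ j, f v (aeval x (Fs j)) / nrm (f v) x ^ d j →
      -Real.log (⨆ j, f v (aeval x (Fs j)) / nrm (f v) x ^ d j) ≤
        -Real.log (f v (aeval x (us i)) / nrm (f v) x ^ e i) +
        ∑ i, (Real.log (nrm (f v) x) - Real.log (f v (dot (L (β i)) x))) + C) := by
    intro v β i
    by_cases hβ : (Matrix.of fun a => L (β a)).det ≠ 0
    · set A : Matrix (Fin n) (Fin n) K := Matrix.of fun a => L (β a) with hA
      have hu : IsUnit A.det := IsUnit.mk0 _ hβ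
      have hB : A * A⁻¹ = 1 := Matrix.mul_nonsing_inv _ hu
      have hB2 : A⁻¹ * A = 1 := Matrix.nonsing_inv_mul _ hu
      obtain ⟨C, hC, h⟩ := toricIneq (f v) A A⁻¹ hB hB2 L Fs c d σ hfac (us i) (e i) (hus i) (hm i)
      exact ⟨C, hC, fun _ x hx hL hgr hux hs => h x hx (fun i => hL _)
        (fun l i hli => hgr A⁻¹ hB2 l i hli) hux hs⟩
    · exact ⟨0, le_rfl, fun h => absurd h hβ⟩
  choose C hC0' hC using hloc
  refine ⟨∑ v ∈ S, wt v * ∑ β, ∑ i, C v β i + C0, fun x hx hZx hux => ?_⟩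
  have hxK : exv K x ≠ 0 := exv_ne hx
  have hLx : ∀ l, dot (L l) (exv K x) ≠ 0 := fun l =>
    hg l x (hZx _ (Finset.mem_union_right _ (Finset.mem_image_of_mem _ (Finset.mem_univ _))))
  choose β hβ hgr using fun v : Pl k => greedy (f v) L hspan (exv K x) hLx
  have h1 := hsch x hx (fun z hz => hZx z (Finset.mem_union_left _ hz)) hLx β (fun v _ => hβ v)
  -- the generators do not vanish
  have hFx : ∃ j, eval x (Fs j) ≠ 0 := by
    obtain ⟨j, hj⟩ := hne
    refine ⟨j, fun h0 => ?_⟩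
    have h2 : aeval (exv K x) (Fs j) = c j * ∏ s, dot (L (σ j s)) (exv K x) := by
      have h3 : aeval (exv K x) (Fs j) = eval (exv K x) (map (algebraMap k K) (Fs j)) := by
        rw [eval_map, aeval_def]
      rw [h3, hfac, map_mul, eval_C, map_prod]
      congr 1
      exact Finset.prod_congr rfl fun s _ => eval_lff _ _
    have h3 : aeval (exv K x) (Fs j) = 0 := by
      rw [aeval_exv, h0, map_zero]
    rw [h2] at h3
    have h4 : c j ≠ 0 := by
      intro h5
      apply hj
      apply map_injective _ (algebraMap k K).injective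
      rw [hfac, h5, C_0, zero_mul, map_zero]
    exact mul_ne_zero h4 (Finset.prod_ne_zero_iff.2 fun s _ => hLx _) h3
  have hkey : ∀ v ∈ S, wt v * (lamI (av v) d Fs x - lamI (av v) e us x) ≤
      wt v * ∑ a, (Real.log (nrm (av v) x) - Real.log (f v (dot (L (β v a)) (exv K x)))) +
      wt v * ∑ β, ∑ i, C v β i := by
    intro v _
    rw [← mul_add]
    refine mul_le_mul_of_nonneg_left ?_ (wt_nonneg v)
    have hN : 0 < nrm (av v) x := nrm_pos _ hx
    have hnrm : nrm (f v) (exv K x) = nrm (av v) x := (hf v).nrm_ext x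
    have hb : 0 < b := by
      obtain ⟨i, _⟩ := hux
      exact Fin.pos i
    have : Nonempty (Fin b) := ⟨⟨0, hb⟩⟩
    obtain ⟨i, hi'⟩ := exists_eq_ciSup_of_finite
      (f := fun i : Fin b => av v (eval x (us i)) / nrm (av v) x ^ e i)
    have hbdd : BddAbove (Set.range fun i : Fin b => av v (eval x (us i)) / nrm (av v) x ^ e i) :=
      (Set.finite_range _).bddAbove
    have hpos : 0 < av v (eval x (us i)) / nrm (av v) x ^ e i := by
      obtain ⟨i1, hi1⟩ := hux
      have h2 : 0 < av v (eval x (us i1)) / nrm (av v) x ^ e i1 :=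
        div_pos ((av v).pos_iff.2 hi1) (pow_pos hN _)
      have h3 := le_ciSup hbdd i1
      rw [← hi'] at h3
      exact h2.trans_le h3
    have hui : eval x (us i) ≠ 0 := by
      intro h0
      rw [h0, map_zero, zero_div] at hpos
      exact lt_irrefl _ hpos
    have hbddF : BddAbove (Set.range fun j : Fin a => av v (eval x (Fs j)) / nrm (av v) x ^ d j) :=
      (Set.finite_range _).bddAbove
    have hFpos : 0 < ⨆ j, f v (aeval (exv K x) (Fs j)) / nrm (f v) (exv K x) ^ d j := by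
      obtain ⟨j, hj⟩ := hFx
      simp only [(hf v).aeval_ext, hnrm]
      exact (div_pos ((av v).pos_iff.2 hj) (pow_pos hN _)).trans_le (le_ciSup hbddF j)
    have h2 := hC v (β v) i (hβ v) (exv K x) hxK hLx (hgr v) (by
      intro h0
      have h3 := (hf v).aeval_ext x (us i)
      rw [h0, map_zero] at h3
      exact hui ((AbsoluteValue.eq_zero _).1 h3.symm)) hFpos
    simp only [(hf v).aeval_ext, hnrm] at h2
    unfold lamI
    rw [← hi']
    have h3 : C v (β v) i ≤ ∑ β, ∑ i, C v β i := by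
      have h4 : C v (β v) i ≤ ∑ i, C v (β v) i :=
        Finset.single_le_sum (f := fun i => C v (β v) i) (fun i _ => hC0' v (β v) i)
          (Finset.mem_univ i)
      exact h4.trans (Finset.single_le_sum (f := fun β => ∑ i, C v β i)
        (fun β _ => Finset.sum_nonneg fun i _ => hC0' v β i) (Finset.mem_univ (β v)))
    linarith
  have h2 := Finset.sum_le_sum hkey
  rw [Finset.sum_add_distrib] at h2
  linarith

theorem map_lff {M : Type} [Field M] [Algebra K M] (b : Fin n → K) :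
    map (algebraMap K M) (lff b) = lff (exv M b) := by
  unfold lff
  rw [map_sum]
  refine Finset.sum_congr rfl fun i _ => ?_
  rw [map_mul, map_C, map_X]
  rfl

theorem arrT (hn : 1 ≤ n) (L : ι → Fin n → K) (hL0 : ∀ l, L l ≠ 0) :
    ∃ Z : Finset (Fin n → k), (∀ z ∈ Z, z ≠ 0) ∧ ∀ (a : ℕ) (Fs : Fin a → MvPolynomial (Fin n) k)
      (c : Fin a → K) (d : Fin a → ℕ) (σ : ∀ j, Fin (d j) → ι),
      (∀ j, map (algebraMap k K) (Fs j) = C (c j) * ∏ s, lff (L (σ j s))) → (∃ j, Fs j ≠ 0) →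
      ∀ (b : ℕ) (us : Fin b → MvPolynomial (Fin n) k) (e : Fin b → ℕ),
      (∀ i, (us i).IsHomogeneous (e i)) → (∀ i, InMultV Fs (us i)) →
      ∀ (S : Finset (Pl k)) (ε : ℝ), 0 < ε → ∃ C : ℝ, ∀ x : Fin n → k, x ≠ 0 →
        (∀ z ∈ Z, ∑ j, z j * x j ≠ 0) → (∃ i, eval x (us i) ≠ 0) →
        ∑ v ∈ S, wt v * (lamI (av v) d Fs x - lamI (av v) e us x) ≤
          (n + ε) * logHeight x + C := by
  classical
  obtain ⟨M, hM1, hM2, hi, ⟨φ⟩⟩ := exists_big K
  have : NumberField M := ⟨⟩
  let _ : Algebra K M := φ.toAlgebra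
  let _ : Algebra k M := (φ.comp (algebraMap k K)).toAlgebra
  have : IsScalarTower k K M := IsScalarTower.of_algebraMap_eq fun _ => rfl
  set L' : ι ⊕ Fin n → Fin n → M := Sum.elim (fun l => exv M (L l)) (fun i => Pi.single i 1)
    with hL'
  obtain ⟨Z, hZ, hmain⟩ := arrK (k := k) hi hn L' (by
    intro l
    rcases l with l | i
    · exact exv_ne (hL0 l)
    · intro h
      have := congrFun h i
      simp [hL'] at this) ⟨fun i => Sum.inr i, by
      have h1 : (Matrix.of fun a => L' (Sum.inr a)) = (1 : Matrix (Fin n) (Fin n) M) := by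
        ext i j
        simp only [hL', Matrix.of_apply, Sum.elim_inr]
        by_cases h : i = j
        · subst h; simp
        · rw [Pi.single_eq_of_ne (Ne.symm h), Matrix.one_apply_ne h]
      rw [h1, Matrix.det_one]
      exact one_ne_zero⟩
  refine ⟨Z, hZ, fun a Fs c d σ hfac => hmain a Fs (fun j => algebraMap K M (c j)) d
    (fun j s => Sum.inl (σ j s)) fun j => ?_⟩
  have h1 := congrArg (map (algebraMap K M)) (hfac j)
  rw [MvPolynomial.map_map, map_mul, map_prod, map_C] at h1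
  simp only [map_lff] at h1
  exact h1

end Pool.Agent.R405
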