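import Mathlib
import Pool.Agent.R405.Arr

/-!
Selection of a basis of linear forms at a point.
-/

set_option autoImplicit false
set_option linter.unusedSectionVars false

open Finset

namespace Pool.Agent.R405.IQ

open Module
open Pool.Agent.W180.OP (nrm le_nrm nrm_pos nrm_nonneg exists_nrm)

variable {K : Type} [Field K] {N q : ℕ}

/-- the forms and the coordinates -/
def wc (H : Fin q → Fin N → K) : Fin q ⊕ Fin N → Fin N → K :=
  Sum.elim H (fun i => Pi.single i 1)

theorem det_coord (H : Fin q → Fin N → K) :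
    (Matrix.of fun a => wc H (Sum.inr a)).det ≠ 0 := by
  have h1 : (Matrix.of fun a => wc H (Sum.inr a)) = (1 : Matrix (Fin N) (Fin N) K) := by
    ext i j
    simp only [wc, Matrix.of_apply, Sum.elim_inr]
    by_cases h : i = j
    · subst h; simp
    · rw [Pi.single_eq_of_ne (Ne.symm h), Matrix.one_apply_ne h]
  rw [h1, Matrix.det_one]
  exact one_ne_zero

theorem extend (H : Fin q → Fin N → K) (J : Finset (Fin q))
    (hJ : LinearIndependent K (fun i : J => H i)) :
    ∃ β : Fin N → Fin q ⊕ Fin N, (Matrix.of fun a => wc H (β a)).det ≠ 0 ∧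
      ∀ l ∈ J, ∃ a, β a = Sum.inl l := by
  classical
  obtain ⟨β, hβ, hmax⟩ := Finset.exists_max_image
    (Finset.univ.filter fun β : Fin N → Fin q ⊕ Fin N => (Matrix.of fun a => wc H (β a)).det ≠ 0)
    (fun β => (J.filter fun l => ∃ a, β a = Sum.inl l).card)
    ⟨fun a => Sum.inr a, Finset.mem_filter.2 ⟨Finset.mem_univ _, det_coord H⟩⟩
  have hβd := (Finset.mem_filter.1 hβ).2
  refine ⟨β, hβd, fun l0 hl0 => ?_⟩
  by_contra hcon
  push Not at hcon
  set A : Matrix (Fin N) (Fin N) K := Matrix.of fun a => wc H (β a) with hA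
  have hu : IsUnit A.det := IsUnit.mk0 _ hβd
  have hB : A⁻¹ * A = 1 := Matrix.nonsing_inv_mul _ hu
  set c := Matrix.vecMul (H l0) A⁻¹ with hc
  have h1 : ∑ a, c a • A a = H l0 := by
    have h2 : Matrix.vecMul c A = H l0 := by
      rw [hc, Matrix.vecMul_vecMul, hB, Matrix.vecMul_one]
    conv_rhs => rw [← h2]
    funext j
    rw [Finset.sum_apply]
    rfl
  -- an index outside of `J`
  have hex : ∃ a, c a ≠ 0 ∧ ∀ l ∈ J, β a ≠ Sum.inl l := by
    by_contra hno
    push Not at hno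
    have h3 := hJ.notMem_span_image (s := {i | i ≠ ⟨l0, hl0⟩}) (x := ⟨l0, hl0⟩) (by simp)
    apply h3
    show H l0 ∈ _
    rw [← h1]
    refine Submodule.sum_mem _ fun a _ => ?_
    by_cases hca : c a = 0
    · rw [hca, zero_smul]
      exact Submodule.zero_mem _
    · obtain ⟨l, hl, hal⟩ := hno a hca
      refine Submodule.smul_mem _ _ (Submodule.subset_span ⟨⟨l, hl⟩, ?_, ?_⟩)
      · intro h
        have : l = l0 := congrArg Subtype.val h
        exact hcon a (this ▸ hal)
      · show H l = wc H (β a)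
        rw [hal]
        rfl
  obtain ⟨a, hca, haJ⟩ := hex
  have h2 := Matrix.det_updateRow_sum A a c
  rw [h1] at h2
  have h3 : (Matrix.of fun b => wc H (Function.update β a (Sum.inl l0) b)) = A.updateRow a (H l0) := by
    ext b j
    by_cases h : b = a
    · subst h
      simp [Matrix.updateRow_self, wc]
    · simp [Matrix.updateRow_ne h, Function.update_of_ne h, hA]
  have h4 : (Matrix.of fun b => wc H (Function.update β a (Sum.inl l0) b)).det ≠ 0 := by
    rw [h3, h2, smul_eq_mul]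
    exact mul_ne_zero hca hβd
  have h5 := hmax _ (Finset.mem_filter.2 ⟨Finset.mem_univ _, h4⟩)
  have h6 : (J.filter fun l => ∃ b, β b = Sum.inl l) ⊂
      (J.filter fun l => ∃ b, Function.update β a (Sum.inl l0) b = Sum.inl l) := by
    rw [Finset.ssubset_iff_of_subset]
    · refine ⟨l0, Finset.mem_filter.2 ⟨hl0, a, Function.update_self _ _ _⟩, ?_⟩
      rw [Finset.mem_filter]
      rintro ⟨_, b, hb⟩
      exact hcon b hb
    · intro l hl
      obtain ⟨hlJ, b, hb⟩ := Finset.mem_filter.1 hl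
      refine Finset.mem_filter.2 ⟨hlJ, b, ?_⟩
      rw [Function.update_of_ne, hb]
      rintro rfl
      exact haJ l hlJ hb
  exact absurd (Finset.card_lt_card h6) (not_lt.2 h5)

variable {F : Type} [Field F] [Algebra K F]

/-- basic bounds for one choice of the basis -/
theorem inv_bound (f : AbsoluteValue F ℝ) (H : Fin q → Fin N → K) (β : Fin N → Fin q ⊕ Fin N)
    (hβ : (Matrix.of fun a => wc H (β a)).det ≠ 0) :
    ∃ κ : ℝ, 1 ≤ κ ∧ ∀ (x : Fin N → F) (t : ℝ), 0 ≤ t →
      (∀ a, f (dot (exv F (wc H (β a))) x) ≤ t) → nrm f x ≤ κ * t := by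
  classical
  set A : Matrix (Fin N) (Fin N) K := Matrix.of fun a => wc H (β a) with hA
  have hu : IsUnit A.det := IsUnit.mk0 _ hβ
  have hB : A⁻¹ * A = 1 := Matrix.nonsing_inv_mul _ hu
  have h0 : 0 ≤ ∑ i, ∑ j, f (algebraMap K F (A⁻¹ i j)) :=
    Finset.sum_nonneg fun _ _ => Finset.sum_nonneg fun _ _ => f.nonneg _
  refine ⟨1 + ∑ i, ∑ j, f (algebraMap K F (A⁻¹ i j)), by linarith, fun x t ht h => ?_⟩
  refine Pool.Agent.W180.OP.nrm_le (by positivity) fun i => ?_
  have h1 : x i = ∑ a, algebraMap K F (A⁻¹ i a) * dot (exv F (wc H (β a))) x := by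
    unfold dot exv
    simp only [Finset.mul_sum]
    rw [Finset.sum_comm]
    have h2 : ∀ j, ∑ a, algebraMap K F (A⁻¹ i a) * (algebraMap K F (wc H (β a) j) * x j) =
        (if i = j then 1 else 0) * x j := by
      intro j
      have h3 := congrArg (fun B : Matrix (Fin N) (Fin N) K => algebraMap K F (B i j)) hB
      simp only [Matrix.mul_apply, Matrix.one_apply, map_sum, map_mul] at h3
      rw [show (if i = j then (1 : F) else 0) = algebraMap K F (if i = j then 1 else 0) by
        split_ifs <;> simp, ← h3, Finset.sum_mul]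
      exact Finset.sum_congr rfl fun a _ => by rw [← mul_assoc]; rfl
    rw [Finset.sum_congr rfl fun j _ => h2 j]
    simp
  rw [h1]
  have h3 : f (∑ a, algebraMap K F (A⁻¹ i a) * dot (exv F (wc H (β a))) x) ≤
      ∑ a, f (algebraMap K F (A⁻¹ i a)) * t := by
    refine (f.sum_le _ _).trans (Finset.sum_le_sum fun a _ => ?_)
    rw [map_mul]
    exact mul_le_mul_of_nonneg_left (h a) (f.nonneg _)
  rw [← Finset.sum_mul] at h3
  refine h3.trans (mul_le_mul_of_nonneg_right ?_ ht)
  have h4 : ∑ j, f (algebraMap K F (A⁻¹ i j)) ≤ ∑ i, ∑ j, f (algebraMap K F (A⁻¹ i j)) :=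
    Finset.single_le_sum (f := fun i => ∑ j, f (algebraMap K F (A⁻¹ i j)))
      (fun _ _ => Finset.sum_nonneg fun _ _ => f.nonneg _) (Finset.mem_univ i)
  linarith

/-- the local heights of forms in general position are bounded by those of a basis -/
theorem select (f : AbsoluteValue F ℝ) (H : Fin q → Fin N → K)
    (hgp : ∀ I : Finset (Fin q), I.card ≤ N → LinearIndependent K (fun i : I => H i)) :
    ∃ C : ℝ, 0 ≤ C ∧ ∀ x : Fin N → F, x ≠ 0 → (∀ l, dot (exv F (wc H l)) x ≠ 0) →
      ∃ β : Fin N → Fin q ⊕ Fin N, (Matrix.of fun a => wc H (β a)).det ≠ 0 ∧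
        ∑ l, (Real.log (nrm f x) - Real.log (f (dot (exv F (H l)) x))) ≤
          ∑ a, (Real.log (nrm f x) - Real.log (f (dot (exv F (wc H (β a))) x))) + C := by
  classical
  -- the constants
  have hκ : ∀ β : Fin N → Fin q ⊕ Fin N, ∃ κ : ℝ, 1 ≤ κ ∧
      ((Matrix.of fun a => wc H (β a)).det ≠ 0 → ∀ (x : Fin N → F) (t : ℝ), 0 ≤ t →
        (∀ a, f (dot (exv F (wc H (β a))) x) ≤ t) → nrm f x ≤ κ * t) := by
    intro β
    by_cases hβ : (Matrix.of fun a => wc H (β a)).det ≠ 0
    · obtain ⟨κ, h1, h2⟩ := inv_bound f H β hβ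
      exact ⟨κ, h1, fun _ => h2⟩
    · exact ⟨1, le_rfl, fun h => absurd h hβ⟩
  choose κ hκ1 hκ2 using hκ
  set Λ : ℝ := ∑ β : Fin N → Fin q ⊕ Fin N, κ β with hΛ
  have hΛκ : ∀ β, κ β ≤ Λ := fun β => Finset.single_le_sum (f := κ)
    (fun β _ => zero_le_one.trans (hκ1 β)) (Finset.mem_univ β)
  have hΛ1 : 1 ≤ Λ := (hκ1 fun a => Sum.inr a).trans (hΛκ _)
  set D : Fin q ⊕ Fin N → ℝ := fun l => Real.log (1 + ∑ j, f (exv F (wc H l) j)) with hD
  have hD0 : ∀ l, 0 ≤ D l := fun l => Real.log_nonneg (by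
    have : 0 ≤ ∑ j, f (exv F (wc H l) j) := Finset.sum_nonneg fun _ _ => f.nonneg _
    linarith)
  refine ⟨q * Real.log (2 * Λ) + ∑ a : Fin N, ∑ l, D l + ∑ l, D l, ?_, fun x hx hl => ?_⟩
  · have := Real.log_nonneg (by linarith : (1 : ℝ) ≤ 2 * Λ)
    have h1 : 0 ≤ ∑ l, D l := Finset.sum_nonneg fun l _ => hD0 l
    have h2 : 0 ≤ ∑ a : Fin N, ∑ l, D l := Finset.sum_nonneg fun _ _ => h1
    positivity
  have hN := nrm_pos f hx
  obtain ⟨j0, -⟩ := Function.ne_iff.1 hx
  have : Nonempty (Fin N) := ⟨j0⟩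
  have hfl : ∀ l, 0 < f (dot (exv F (wc H l)) x) := fun l => f.pos_iff.2 (hl l)
  have hlow : ∀ l, -D l ≤ Real.log (nrm f x) - Real.log (f (dot (exv F (wc H l)) x)) := by
    intro l
    have h1 := Real.log_le_log (hfl l) (abs_dot f (exv F (wc H l)) x)
    rw [Real.log_mul (by
      have : 0 ≤ ∑ j, f (exv F (wc H l) j) := Finset.sum_nonneg fun _ _ => f.nonneg _
      linarith) hN.ne'] at h1
    linarith
  set J : Finset (Fin q) := Finset.univ.filter fun l =>
    f (dot (exv F (H l)) x) < nrm f x / (2 * Λ) with hJ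
  have hJc : J.card ≤ N := by
    by_contra hcon
    push Not at hcon
    obtain ⟨I, hIJ, hIc⟩ := Finset.exists_subset_card_eq hcon.le
    obtain ⟨β, hβ, hcov⟩ := extend H I (hgp I hIc.le)
    have hsurj : ∀ a, ∃ l ∈ I, β a = Sum.inl l := by
      have h1 : (I.image fun l => (Sum.inl l : Fin q ⊕ Fin N)) ⊆ Finset.univ.image β := by
        intro y hy
        obtain ⟨l, hl, rfl⟩ := Finset.mem_image.1 hy
        obtain ⟨a, ha⟩ := hcov l hl
        exact Finset.mem_image.2 ⟨a, Finset.mem_univ _, ha⟩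
      have h2 : (I.image fun l => (Sum.inl l : Fin q ⊕ Fin N)).card = N := by
        rw [Finset.card_image_of_injective _ Sum.inl_injective, hIc]
      have h3 : (Finset.univ.image β).card ≤ N := by
        refine Finset.card_image_le.trans ?_
        simp
      have h4 := Finset.eq_of_subset_of_card_le h1 (by rw [h2]; exact h3)
      intro a
      have h5 : β a ∈ Finset.univ.image β := Finset.mem_image_of_mem _ (Finset.mem_univ a)
      rw [← h4] at h5
      obtain ⟨l, hl, h6⟩ := Finset.mem_image.1 h5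
      exact ⟨l, hl, h6.symm⟩
    have h1 := hκ2 β hβ x (nrm f x / (2 * Λ)) (by positivity) (fun a => by
      obtain ⟨l, hlI, hla⟩ := hsurj a
      rw [hla]
      exact (Finset.mem_filter.1 (hIJ hlI)).2.le)
    have h2 : κ β * (nrm f x / (2 * Λ)) ≤ Λ * (nrm f x / (2 * Λ)) :=
      mul_le_mul_of_nonneg_right (hΛκ β) (by positivity)
    have h3 : Λ * (nrm f x / (2 * Λ)) = nrm f x / 2 := by field_simp
    linarith
  obtain ⟨β, hβ, hcov⟩ := extend H J (hgp J hJc)
  refine ⟨β, hβ, ?_⟩
  set g : Fin q ⊕ Fin N → ℝ := fun l =>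
    Real.log (nrm f x) - Real.log (f (dot (exv F (wc H l)) x)) with hg
  have hg1 : ∀ l ∉ J, g (Sum.inl l) ≤ Real.log (2 * Λ) := by
    intro l hlJ
    have h1 : nrm f x / (2 * Λ) ≤ f (dot (exv F (H l)) x) := by
      by_contra hcon
      push Not at hcon
      exact hlJ (Finset.mem_filter.2 ⟨Finset.mem_univ _, hcon⟩)
    have h2 := Real.log_le_log (by positivity) h1
    rw [Real.log_div hN.ne' (by positivity)] at h2
    show Real.log (nrm f x) - Real.log (f (dot (exv F (H l)) x)) ≤ _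
    linarith
  choose! a0 ha0 using hcov
  have hinj : Set.InjOn a0 J := by
    intro l hl l' hl' h
    have h1 := ha0 l hl
    rw [h, ha0 l' hl'] at h1
    exact (Sum.inl_injective h1).symm
  have hsum1 : ∑ l ∈ J, g (Sum.inl l) ≤ ∑ a, g (β a) + ∑ a : Fin N, ∑ l, D l := by
    have h1 : ∑ l ∈ J, g (Sum.inl l) = ∑ a ∈ J.image a0, g (β a) := by
      rw [Finset.sum_image hinj]
      exact Finset.sum_congr rfl fun l hl => by rw [ha0 l hl]
    have h2 : ∑ a ∈ J.image a0, g (β a) ≤ ∑ a ∈ J.image a0, (g (β a) + ∑ l, D l) :=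
      Finset.sum_le_sum fun a _ => by
        have : 0 ≤ ∑ l, D l := Finset.sum_nonneg fun l _ => hD0 l
        linarith
    have h3 : ∑ a ∈ J.image a0, (g (β a) + ∑ l, D l) ≤ ∑ a, (g (β a) + ∑ l, D l) :=
      Finset.sum_le_sum_of_subset_of_nonneg (Finset.subset_univ _) fun a _ _ => by
        have h4 := hlow (β a)
        have h5 : D (β a) ≤ ∑ l, D l := Finset.single_le_sum (f := D) (fun l _ => hD0 l)
          (Finset.mem_univ _)
        have h6 : g (β a) = Real.log (nrm f x) - Real.log (f (dot (exv F (wc H (β a))) x)) := rfl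
        linarith
    rw [Finset.sum_add_distrib (s := Finset.univ)] at h3
    rw [h1]
    exact h2.trans h3
  have hsum2 : ∑ l ∈ Finset.univ.filter (· ∉ J), g (Sum.inl l) ≤ q * Real.log (2 * Λ) := by
    have hlog := Real.log_nonneg (by linarith : (1 : ℝ) ≤ 2 * Λ)
    calc _ ≤ ∑ l ∈ Finset.univ.filter (· ∉ J), Real.log (2 * Λ) :=
          Finset.sum_le_sum fun l hl => hg1 l (Finset.mem_filter.1 hl).2
      _ = ((Finset.univ.filter (· ∉ J)).card : ℝ) * Real.log (2 * Λ) := by
          rw [Finset.sum_const, nsmul_eq_mul]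
      _ ≤ q * Real.log (2 * Λ) := by
          refine mul_le_mul_of_nonneg_right ?_ hlog
          have := Finset.card_le_univ (Finset.univ.filter fun l : Fin q => l ∉ J)
          rw [Fintype.card_fin] at this
          exact_mod_cast this
  have hsplit : ∑ l, g (Sum.inl l) = ∑ l ∈ J, g (Sum.inl l) +
      ∑ l ∈ Finset.univ.filter (· ∉ J), g (Sum.inl l) := by
    rw [← Finset.sum_filter_add_sum_filter_not Finset.univ (· ∈ J) (fun l => g (Sum.inl l))]
    congr 1
    congr 1
    ext l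
    simp
  have h7 : ∑ l, (Real.log (nrm f x) - Real.log (f (dot (exv F (H l)) x))) =
      ∑ l, g (Sum.inl l) := rfl
  have h8 : 0 ≤ ∑ l, D l := Finset.sum_nonneg fun l _ => hD0 l
  rw [h7, hsplit]
  show _ ≤ ∑ a, g (β a) + _
  linarith

end Pool.Agent.R405.IQ
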