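import Mathlib
import Pool.Agent.R405.IQ3

/-!
The subspace theorem for rational points and linear forms in general position with coefficients in
a Galois number field, several places.
-/

set_option autoImplicit false
set_option linter.unusedSectionVars false

open Finset

namespace Pool.Agent.R405.AQ

open NumberField IsDedekindDomain Height Module
open Pool.Agent.W180.OP (Pl av wt nrm le_nrm nrm_pos nrm_nonneg exists_nrm wt_nonneg)
open Pool.Agent.R405.IQ (wc select)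

theorem schS (N : ℕ) (hN : 1 ≤ N) (q : ℕ) {M : Type} [Field M] [NumberField M] [IsGalois ℚ M]
    (hi : ∃ z : M, z ^ 2 = -1) (H : Fin q → Fin N → M)
    (hgp : ∀ I : Finset (Fin q), I.card ≤ N → LinearIndependent M (fun i : I => H i)) :
    ∃ Z : Finset (Fin N → ℚ), (∀ m ∈ Z, m ≠ 0) ∧
      (∀ z : Fin N → ℚ, (∀ m ∈ Z, ∑ j, m j * z j ≠ 0) → ∀ l, dot (H l) (exv M z) ≠ 0) ∧
      ∀ (S : Finset (Pl ℚ)) (f : Pl ℚ → AbsoluteValue M ℝ), (∀ v ∈ S, Good v (f v)) →
      ∀ ε : ℝ, 0 < ε → ∃ C : ℝ, 0 ≤ C ∧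
      ∀ z : Fin N → ℚ, z ≠ 0 → (∀ m ∈ Z, ∑ j, m j * z j ≠ 0) →
        ∑ v ∈ S, wt v * ∑ l, (Real.log (nrm (av v) z) - Real.log (f v (dot (H l) (exv M z)))) ≤
          (N + ε) * logHeight z + C := by
  classical
  set LM : Fin q ⊕ Fin N → Fin N → M := fun l => wc H l with hLM
  obtain ⟨Z0, hZ0, hmain⟩ := schV (k := ℚ) hi hN LM
  have hwc0 : ∀ l, LM l ≠ 0 := by
    intro l
    rcases l with l | i
    · have h1 := hgp {l} (by rw [Finset.card_singleton]; exact hN)
      exact h1.ne_zero ⟨l, Finset.mem_singleton_self l⟩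
    · intro h
      have := congrFun h i
      simp [hLM, wc] at this
  have hdes : ∀ l, ∃ g : Fin N → ℚ, g ≠ 0 ∧ ∀ x : Fin N → ℚ,
      ∑ j, g j * x j ≠ 0 → ∑ j, LM l j * algebraMap ℚ M (x j) ≠ 0 := fun l =>
    descend (k := ℚ) (LM l) (hwc0 l)
  choose g hg0 hg using hdes
  have hZL : ∀ z : Fin N → ℚ, (∀ m ∈ Z0 ∪ Finset.univ.image g, ∑ j, m j * z j ≠ 0) → ∀ l,
      dot (LM l) (exv M z) ≠ 0 := fun z hz l =>
    hg l z (hz _ (Finset.mem_union_right _ (Finset.mem_image_of_mem _ (Finset.mem_univ _))))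
  refine ⟨Z0 ∪ Finset.univ.image g, ?_, fun z hz l => hZL z hz (Sum.inl l),
    fun S f hf ε hε => ?_⟩
  · intro m hm
    rcases Finset.mem_union.1 hm with hm | hm
    · exact hZ0 m hm
    · obtain ⟨l, -, rfl⟩ := Finset.mem_image.1 hm
      exact hg0 l
  obtain ⟨C0, hC0, hsch⟩ := hmain S f hf ε hε
  choose Csel hCsel hsel using fun v : Pl ℚ => select (f v) H hgp (F := M)
  refine ⟨C0 + ∑ v ∈ S, wt v * Csel v, add_nonneg hC0 (Finset.sum_nonneg fun v _ =>
    mul_nonneg (wt_nonneg v) (hCsel v)), fun z hz hzZ => ?_⟩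
  have hzL := hZL z hzZ
  have hz0 : exv M z ≠ 0 := exv_ne hz
  have hexv : ∀ u : Fin N → M, exv M u = u := fun u => rfl
  choose β hβ hβs using fun v : Pl ℚ => hsel v (exv M z) hz0 (fun l => by
    rw [hexv]; exact hzL l)
  have h1 := hsch z hz (fun m hm => hzZ m (Finset.mem_union_left _ hm)) hzL β
    (fun v _ => hβ v)
  have h2 : ∑ v ∈ S, wt v * ∑ l, (Real.log (nrm (av v) z) -
      Real.log (f v (dot (H l) (exv M z)))) ≤
      ∑ v ∈ S, wt v * (∑ a, (Real.log (nrm (av v) z) -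
        Real.log (f v (dot (LM (β v a)) (exv M z)))) + Csel v) := by
    refine Finset.sum_le_sum fun v hv => mul_le_mul_of_nonneg_left ?_ (wt_nonneg v)
    have h3 := hβs v
    have h4 : nrm (f v) (exv M z) = nrm (av v) z := (hf v hv).nrm_ext z
    rw [h4] at h3
    exact h3
  simp only [mul_add, Finset.sum_add_distrib] at h2
  linarith

end Pool.Agent.R405.AQ
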