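import Mathlib
import Pool.Agent.R405.AQ4
import Pool.Agent.R405.AQ5

/-!
The sum of the local heights of a quadratic number in terms of the values of its minimal form.
-/

set_option autoImplicit false
set_option linter.unusedSectionVars false

open Finset

namespace Pool.Agent.R405.AQ

open NumberField IsDedekindDomain Module Polynomial Height
open Pool.Agent.W180.OP (Pl av wt wt_nonneg nrm le_nrm nrm_pos nrm_nonneg exists_nrm)
open Pool.Agent.TH876.QR (Pls)
open Pool.Agent.Y742.SF (fv_int fv_nonneg fv_pos fv_mul)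
open Pool.Agent.TeamU (Over act over_act act_mul act_one)
open Pool.Agent.Y734.BR (Cj mk_act)

theorem vieta {K : Type} [Field K] {x y a b c : K} (hxy : x ≠ y) (hx : a * x ^ 2 + b * x + c = 0)
    (hy : a * y ^ 2 + b * y + c = 0) : a * (x + y) = -b ∧ a * (x * y) = c := by
  have h1 : (x - y) * (a * (x + y) + b) = 0 := by linear_combination hx - hy
  have h2 : a * (x + y) + b = 0 := (mul_eq_zero.1 h1).resolve_left (sub_ne_zero.2 hxy)
  refine ⟨by linear_combination h2, ?_⟩
  linear_combination x * h2 - hx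

/-- the value of the form -/
def fm {M : Type} [Field M] (a b c : ℤ) (P : M × M) : M :=
  (a : M) * P.1 ^ 2 + (b : M) * (P.1 * P.2) + (c : M) * P.2 ^ 2

theorem map_fm {M N : Type} [Field M] [Field N] (i : M →+* N) (a b c : ℤ) (P : M × M) :
    i (fm a b c P) = fm a b c (i P.1, i P.2) := by
  unfold fm
  simp

variable {K N M : Type} [Field K] [NumberField K] [Field N] [NumberField N] [Algebra K N]
  [Field M] [NumberField M] {q : ℕ}

/-- the resultant -/
theorem resultant (i : M →+* N) (D : Div M q) {σ : K ≃ₐ[ℚ] K} (hσ : Cj σ) (a b c : ℤ) (x : K)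
    (hx : (a : K) * x ^ 2 + b * x + c = 0) (hne : x ≠ σ x) :
    ∃ r : ℚ, algebraMap ℚ K r = aeval x D.g * aeval (σ x) D.g ∧
      algebraMap ℚ M ((a : ℚ) ^ q * r) = D.γ ^ 2 * ∏ l, fm a b c (D.P l) := by
  have hy : (a : K) * (σ x) ^ 2 + b * (σ x) + c = 0 := by
    have := congrArg σ hx
    simpa using this
  have hgs : σ (aeval x D.g) = aeval (σ x) D.g := (aeval_algHom_apply
    ((σ : K →ₐ[ℚ] K).restrictScalars ℤ) x D.g).symm
  have hgs' : σ (aeval (σ x) D.g) = aeval x D.g := by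
    rw [← hgs, hσ.invol]
  obtain ⟨r, hr⟩ := hσ.rat (y := aeval x D.g * aeval (σ x) D.g) (by
    rw [map_mul, hgs, hgs', mul_comm])
  refine ⟨r, hr, ?_⟩
  apply i.injective
  have h1 : i (algebraMap ℚ M ((a : ℚ) ^ q * r)) =
      algebraMap K N ((a : K) ^ q * (aeval x D.g * aeval (σ x) D.g)) := by
    rw [← hr]
    have e1 : i (algebraMap ℚ M ((a : ℚ) ^ q * r)) = (((a : ℚ) ^ q * r : ℚ) : N) := by
      simp
    have e2 : algebraMap K N ((a : K) ^ q * algebraMap ℚ K r) = (((a : ℚ) ^ q * r : ℚ) : N) := by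
      simp
    rw [e1, e2]
  rw [h1]
  set X : N := algebraMap K N x with hX
  set Y : N := algebraMap K N (σ x) with hY
  have hXY : X ≠ Y := fun h => hne ((algebraMap K N).injective h)
  have hx' : (a : N) * X ^ 2 + b * X + c = 0 := by
    have := congrArg (algebraMap K N) hx
    simpa using this
  have hy' : (a : N) * Y ^ 2 + b * Y + c = 0 := by
    have := congrArg (algebraMap K N) hy
    simpa using this
  obtain ⟨v1, v2⟩ := vieta hXY hx' hy'
  have e1 : algebraMap K N (aeval x D.g) = i D.γ * ∏ j, (i (D.P j).1 - X * i (D.P j).2) := by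
    rw [← Polynomial.aeval_algebraMap_apply, D.eval_eq i]
  have e2 : algebraMap K N (aeval (σ x) D.g) = i D.γ * ∏ j, (i (D.P j).1 - Y * i (D.P j).2) := by
    rw [← Polynomial.aeval_algebraMap_apply, D.eval_eq i]
  have e3 : ∀ l, i (fm a b c (D.P l)) =
      (a : N) * ((i (D.P l).1 - X * i (D.P l).2) * (i (D.P l).1 - Y * i (D.P l).2)) := by
    intro l
    rw [map_fm]
    unfold fm
    linear_combination (i (D.P l).1 * i (D.P l).2) * v1 - (i (D.P l).2) ^ 2 * v2
  rw [map_mul, map_mul, e1, e2, map_mul, map_pow, map_prod, map_pow, map_intCast]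
  simp only [e3]
  rw [Finset.prod_mul_distrib, Finset.prod_const, Finset.card_univ, Fintype.card_fin,
    Finset.prod_mul_distrib]
  ring

/-- rational numbers at the primes above -/
theorem deg_fin {σ : K ≃ₐ[ℚ] K} (hσ : Cj σ) (v0 : HeightOneSpectrum (𝓞 ℚ))
    (A : Finset (HeightOneSpectrum (𝓞 K))) (hA : ∀ Q, Q ∈ A ↔ Over Q v0) (m : ℚ) :
    ∑ Q ∈ A, Real.log (av (Sum.inr Q : Pl K) (algebraMap ℚ K m)) =
      finrank ℚ K * Real.log (av (Sum.inr v0 : Pl ℚ) m) := by
  have := hσ.gal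
  obtain ⟨Q0, hQ0⟩ := exists_over (K := K) v0
  obtain ⟨c0, hc0, hc⟩ := exists_exp hQ0
  have h1 := card_fin A hA hQ0 hc
  have h2 : ∀ Q ∈ A, Real.log (av (Sum.inr Q : Pl K) (algebraMap ℚ K m)) =
      c0 * Real.log (av (Sum.inr v0 : Pl ℚ) m) := by
    intro Q hQ
    obtain ⟨g, hg⟩ := exists_conj hQ0 ((hA Q).1 hQ)
    have h3 : av (Sum.inr Q : Pl K) (algebraMap ℚ K m) =
        Pool.Agent.Y742.SF.fv Q0 (algebraMap ℚ K m) := by
      have := hg (algebraMap ℚ K m)
      rw [g.commutes] at this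
      exact this
    rw [h3, hc]
    rcases eq_or_ne m 0 with rfl | hm
    · have : Pool.Agent.Y742.SF.fv v0 (0 : ℚ) = 0 := Pool.Agent.Y742.SF.fv_zero v0
      rw [this, Real.zero_rpow hc0.ne', map_zero, Real.log_zero, mul_zero]
    · rw [Real.log_rpow (fv_pos v0 m hm)]
      rfl
  rw [Finset.sum_congr rfl h2, Finset.sum_const, nsmul_eq_mul, ← mul_assoc, h1]

/-- the conjugation permutes the primes above -/
theorem conj_fin {σ : K ≃ₐ[ℚ] K} (hσ : Cj σ) (v0 : HeightOneSpectrum (𝓞 ℚ))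
    (A : Finset (HeightOneSpectrum (𝓞 K))) (hA : ∀ Q, Q ∈ A ↔ Over Q v0) (G : (K → ℝ) → ℝ) :
    ∑ Q ∈ A, G (fun y => av (Sum.inr Q : Pl K) (σ y)) =
      ∑ Q ∈ A, G (fun y => av (Sum.inr Q : Pl K) y) := by
  have hinv : ∀ Q, act σ (act σ Q) = Q := by
    intro Q
    rw [← act_mul, hσ.mul_self, act_one]
  refine Finset.sum_bij' (fun Q _ => act σ Q) (fun Q _ => act σ Q)
    (fun Q hQ => (hA _).2 (over_act σ ((hA Q).1 hQ)))
    (fun Q hQ => (hA _).2 (over_act σ ((hA Q).1 hQ))) (fun Q _ => hinv Q) (fun Q _ => hinv Q) ?_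
  intro Q _
  congr 1
  funext y
  have h1 := mk_act σ Q (σ y)
  rw [hσ.invol] at h1
  exact h1.symm

/-- the primes above `v0` -/
theorem link_fin (i : M →+* N) (D : Div M q) {σ : K ≃ₐ[ℚ] K} (hσ : Cj σ)
    (hK : finrank ℚ K = 2) (a b c : ℤ) (ha : a ≠ 0)
    (x : K) (hx : (a : K) * x ^ 2 + b * x + c = 0) (hne : x ≠ σ x) (hgx : aeval x D.g ≠ 0)
    (v0 : HeightOneSpectrum (𝓞 ℚ)) (A : Finset (HeightOneSpectrum (𝓞 K)))
    (hA : ∀ Q, Q ∈ A ↔ Over Q v0) (f0 : AbsoluteValue M ℝ) (hf0 : Good (Sum.inr v0 : Pl ℚ) f0) :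
    ∑ Q ∈ A, lh' D.g q (Sum.inr Q : Pl K) x ≤
      -(∑ l, Real.log (f0 (fm a b c (D.P l)))) - 2 * Real.log (f0 D.γ) := by
  have hy : (a : K) * (σ x) ^ 2 + b * (σ x) + c = 0 := by
    have := congrArg σ hx
    simpa using this
  obtain ⟨v1, v2⟩ := vieta hne hx hy
  have haK : (a : K) ≠ 0 := Int.cast_ne_zero.2 ha
  have haQ : (a : ℚ) ≠ 0 := Int.cast_ne_zero.2 ha
  have hgs : σ (aeval x D.g) = aeval (σ x) D.g := (aeval_algHom_apply
    ((σ : K →ₐ[ℚ] K).restrictScalars ℤ) x D.g).symm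
  have hgy : aeval (σ x) D.g ≠ 0 := by
    rw [← hgs]
    exact (map_ne_zero σ).2 hgx
  obtain ⟨r, hr, hrM⟩ := resultant i D hσ a b c x hx hne
  have hr0 : r ≠ 0 := by
    rintro rfl
    rw [map_zero] at hr
    exact mul_ne_zero hgx hgy hr.symm
  -- integrality
  have hint : ∀ y : K, (a : K) * y ^ 2 + b * y + c = 0 → ∀ Q : HeightOneSpectrum (𝓞 K),
      av (Sum.inr Q : Pl K) ((a : K) * y) ≤ 1 := by
    intro y hy Q
    have h1 : IsIntegral ℤ ((a : K) * y) := by
      refine ⟨X ^ 2 + C b * X + C (a * c), ?_, ?_⟩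
      · have : (X ^ 2 + C b * X + C (a * c) : ℤ[X]) = X ^ 2 + (C b * X + C (a * c)) := by ring
        rw [this]
        refine monic_X_pow_add ?_
        refine lt_of_le_of_lt (degree_linear_le) ?_
        norm_num
      · simp only [eval₂_add, eval₂_mul, eval₂_pow, eval₂_X, eval₂_C, algebraMap_int_eq,
          Int.coe_castRingHom]
        push_cast
        linear_combination (a : K) * hy
    exact fv_int Q (⟨(a : K) * y, h1⟩ : 𝓞 K)
  have hintz : ∀ (m : ℤ) (Q : HeightOneSpectrum (𝓞 K)), av (Sum.inr Q : Pl K) (m : K) ≤ 1 := by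
    intro m Q
    have h8 := fv_int Q (m : 𝓞 K)
    have h9 : ((m : 𝓞 K) : K) = (m : K) := by simp
    rw [h9] at h8
    exact h8
  -- the two sums
  set S1 : ℝ := ∑ Q ∈ A, Real.log (av (Sum.inr Q : Pl K) (aeval x D.g)) with hS1
  set S2 : ℝ := ∑ Q ∈ A, Real.log (max (av (Sum.inr Q : Pl K) x) 1) with hS2
  have h1 : 2 * S1 = 2 * Real.log (av (Sum.inr v0 : Pl ℚ) r) := by
    have h2 := conj_fin hσ v0 A hA (fun f => Real.log (f (aeval x D.g)))
    simp only at h2
    have h3 := deg_fin hσ v0 A hA r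
    rw [hK] at h3
    have h4 : ∑ Q ∈ A, Real.log (av (Sum.inr Q : Pl K) (algebraMap ℚ K r)) =
        S1 + ∑ Q ∈ A, Real.log (av (Sum.inr Q : Pl K) (σ (aeval x D.g))) := by
      rw [hS1, ← Finset.sum_add_distrib]
      refine Finset.sum_congr rfl fun Q _ => ?_
      rw [hr, hgs, map_mul, Real.log_mul]
      · exact ((av _).pos_iff.2 hgx).ne'
      · exact ((av _).pos_iff.2 hgy).ne'
    rw [h4, h2] at h3
    push_cast at h3
    linarith
  have h2 : 2 * S2 ≤ -(2 * Real.log (av (Sum.inr v0 : Pl ℚ) (a : ℚ))) := by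
    have h3 := conj_fin hσ v0 A hA (fun f => Real.log (max (f x) 1))
    simp only at h3
    have h4 := deg_fin hσ v0 A hA (a : ℚ)
    rw [hK] at h4
    have h5 : S2 + ∑ Q ∈ A, Real.log (max (av (Sum.inr Q : Pl K) (σ x)) 1) ≤
        ∑ Q ∈ A, -Real.log (av (Sum.inr Q : Pl K) (algebraMap ℚ K (a : ℚ))) := by
      rw [hS2, ← Finset.sum_add_distrib]
      refine Finset.sum_le_sum fun Q _ => ?_
      have e1 : algebraMap ℚ K (a : ℚ) = (a : K) := by simp
      rw [e1]
      set f := av (Sum.inr Q : Pl K) with hf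
      have p0 : 0 < f (a : K) := f.pos_iff.2 haK
      have p1 : 0 < max (f x) 1 := lt_of_lt_of_le one_pos (le_max_right _ _)
      have p2 : 0 < max (f (σ x)) 1 := lt_of_lt_of_le one_pos (le_max_right _ _)
      have e2 : f (a : K) * (max (f x) 1 * max (f (σ x)) 1) ≤ 1 := by
        have i1 := hint x hx Q
        have i2 := hint (σ x) hy Q
        have i3 := hintz a Q
        have i4 := hintz c Q
        rw [← hf] at i1 i2 i3 i4
        rw [← v2] at i4
        rw [map_mul] at i1 i2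
        rw [map_mul, map_mul] at i4
        rcases max_choice (f x) 1 with m1 | m1 <;> rcases max_choice (f (σ x)) 1 with m2 | m2 <;>
          rw [m1, m2]
        · exact i4
        · rw [mul_one]; exact i1
        · rw [one_mul]; exact i2
        · rw [mul_one, mul_one]; exact i3
      have e3 := Real.log_nonpos (by positivity) e2
      rw [Real.log_mul p0.ne' (by positivity), Real.log_mul p1.ne' p2.ne'] at e3
      linarith
    rw [Finset.sum_neg_distrib, h4, h3] at h5
    push_cast at h5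
    linarith
  have h3 : ∑ Q ∈ A, lh' D.g q (Sum.inr Q : Pl K) x = q * S2 - S1 := by
    rw [hS2, hS1, Finset.mul_sum, ← Finset.sum_sub_distrib]
    refine Finset.sum_congr rfl fun Q _ => ?_
    unfold lh'
    have p1 : 0 < max (av (Sum.inr Q : Pl K) x) 1 := lt_of_lt_of_le one_pos (le_max_right _ _)
    have e1 : wt (Sum.inr Q : Pl K) = 1 := rfl
    rw [e1, one_mul, Real.log_div (by positivity) ((av _).pos_iff.2 hgx).ne', Real.log_pow]
  have h4 : Real.log (av (Sum.inr v0 : Pl ℚ) ((a : ℚ) ^ q * r)) =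
      2 * Real.log (f0 D.γ) + ∑ l, Real.log (f0 (fm a b c (D.P l))) := by
    rw [← hf0.ext, hrM, map_mul, map_pow, map_prod, Real.log_mul, Real.log_pow, Real.log_prod]
    · push_cast; ring
    · intro l _
      refine (f0.pos_iff.2 ?_).ne'
      intro h0
      have h5 : algebraMap ℚ M ((a : ℚ) ^ q * r) = 0 := by
        rw [hrM, Finset.prod_eq_zero (Finset.mem_univ l) h0, mul_zero]
      rw [map_eq_zero] at h5
      exact mul_ne_zero (pow_ne_zero _ haQ) hr0 h5
    · exact (pow_pos (f0.pos_iff.2 D.γ0) _).ne'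
    · rw [← map_prod]
      refine (f0.pos_iff.2 ?_).ne'
      intro h0
      have h5 : algebraMap ℚ M ((a : ℚ) ^ q * r) = 0 := by
        rw [hrM, h0, mul_zero]
      rw [map_eq_zero] at h5
      exact mul_ne_zero (pow_ne_zero _ haQ) hr0 h5
  rw [map_mul, map_pow, Real.log_mul (pow_pos ((av _).pos_iff.2 haQ) _).ne'
    ((av _).pos_iff.2 hr0).ne', Real.log_pow] at h4
  rw [h3]
  have h5 : (q : ℝ) * S2 ≤ q * (-Real.log (av (Sum.inr v0 : Pl ℚ) (a : ℚ))) :=
    mul_le_mul_of_nonneg_left (by linarith) (Nat.cast_nonneg _)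
  linarith

end Pool.Agent.R405.AQ
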