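import Mathlib
import Pool.Agent.R405.AQ6

/-!
The sum of the local heights of a quadratic number in terms of the values of its minimal form, II.
-/

set_option autoImplicit false
set_option linter.unusedSectionVars false

open Finset

namespace Pool.Agent.R405.AQ

open NumberField IsDedekindDomain Module Polynomial Height
open Pool.Agent.W180.OP (Pl av wt wt_nonneg nrm le_nrm nrm_pos nrm_nonneg exists_nrm)
open Pool.Agent.TH876.QR (Pls)
open Pool.Agent.TeamU (Over act over_act act_mul act_one)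
open Pool.Agent.Y734.BR (Cj mk_act)

variable {K N M : Type} [Field K] [NumberField K] [Field N] [NumberField N] [Algebra K N]
  [Field M] [NumberField M] {q : ℕ}

/-- the vector of the coefficients -/
def zv (a b c : ℤ) : Fin 3 → ℚ := ![(c : ℚ), (b : ℚ), (a : ℚ)]

theorem abs_rat (w0 : InfinitePlace ℚ) (r : ℚ) (φ : K →+* ℂ) :
    av (Sum.inl w0 : Pl ℚ) r = ‖φ (algebraMap ℚ K r)‖ := by
  show w0 r = _
  rw [← InfinitePlace.norm_embedding_eq]
  congr 1
  simp

theorem abs_int (w0 : InfinitePlace ℚ) (n : ℤ) : av (Sum.inl w0 : Pl ℚ) (n : ℚ) = ‖(n : ℂ)‖ := by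
  show w0 (n : ℚ) = _
  rw [← InfinitePlace.norm_embedding_eq]
  congr 1
  simp

/-- the infinite places -/
theorem link_inf (i : M →+* N) (D : Div M q) {σ : K ≃ₐ[ℚ] K} (hσ : Cj σ)
    (hK : finrank ℚ K = 2) (a b c : ℤ) (ha : a ≠ 0)
    (x : K) (hx : (a : K) * x ^ 2 + b * x + c = 0) (hne : x ≠ σ x) (hgx : aeval x D.g ≠ 0)
    (w0 : InfinitePlace ℚ) (f0 : AbsoluteValue M ℝ) (hf0 : Good (Sum.inl w0 : Pl ℚ) f0) :
    ∑ w : InfinitePlace K, lh' D.g q (Sum.inl w : Pl K) x ≤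
      q * Real.log (nrm (av (Sum.inl w0 : Pl ℚ)) (zv a b c)) -
        ∑ l, Real.log (f0 (fm a b c (D.P l))) - 2 * Real.log (f0 D.γ) + q * Real.log 2 := by
  have hy : (a : K) * (σ x) ^ 2 + b * (σ x) + c = 0 := by
    have := congrArg σ hx
    simpa using this
  obtain ⟨v1, v2⟩ := vieta hne hx hy
  have haK : (a : K) ≠ 0 := Int.cast_ne_zero.2 ha
  have haQ : (a : ℚ) ≠ 0 := Int.cast_ne_zero.2 ha
  have hgs : σ (aeval x D.g) = aeval (σ x) D.g := (aeval_algHom_apply
    ((σ : K →ₐ[ℚ] K).restrictScalars ℤ) x D.g).symm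
  have hgy : aeval (σ x) D.g ≠ 0 := by
    rw [← hgs]
    exact (map_ne_zero σ).2 hgx
  obtain ⟨r, hr, hrM⟩ := resultant i D hσ a b c x hx hne
  have hr0 : r ≠ 0 := by
    rintro rfl
    rw [map_zero] at hr
    exact mul_ne_zero hgx hgy hr.symm
  obtain ⟨φ⟩ : Nonempty (K →+* ℂ) := inferInstance
  have h1 := hσ.sum_inf φ (fun f => Real.log (max (f x) 1 ^ q / f (aeval x D.g)))
  simp only at h1
  rw [hK] at h1
  have h2 : ∑ w : InfinitePlace K, lh' D.g q (Sum.inl w : Pl K) x =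
      ∑ w : InfinitePlace K, (w.mult : ℝ) * Real.log (max (w x) 1 ^ q / w (aeval x D.g)) := rfl
  rw [h2]
  have h3 : (2 : ℝ) / ((2 : ℕ) : ℝ) = 1 := by norm_num
  rw [h3, one_mul] at h1
  rw [h1, hgs]
  set X : ℂ := φ x with hX
  set Y : ℂ := φ (σ x) with hY
  have w1 : (a : ℂ) * (X + Y) = -b := by
    have := congrArg φ v1
    simpa using this
  have w2 : (a : ℂ) * (X * Y) = c := by
    have := congrArg φ v2
    simpa using this
  have p1 : 0 < max ‖X‖ 1 := lt_of_lt_of_le one_pos (le_max_right _ _)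
  have p2 : 0 < max ‖Y‖ 1 := lt_of_lt_of_le one_pos (le_max_right _ _)
  have p3 : 0 < ‖φ (aeval x D.g)‖ := norm_pos_iff.2 ((map_ne_zero φ).2 hgx)
  have p4 : 0 < ‖φ (aeval (σ x) D.g)‖ := norm_pos_iff.2 ((map_ne_zero φ).2 hgy)
  have p5 : 0 < ‖(a : ℂ)‖ := norm_pos_iff.2 (Int.cast_ne_zero.2 ha)
  rw [Real.log_div (by positivity) p3.ne', Real.log_div (by positivity) p4.ne', Real.log_pow,
    Real.log_pow]
  -- the resultant
  have h4 : Real.log ‖φ (aeval x D.g)‖ + Real.log ‖φ (aeval (σ x) D.g)‖ =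
      Real.log (av (Sum.inl w0 : Pl ℚ) r) := by
    rw [abs_rat w0 r φ, hr, map_mul, norm_mul, Real.log_mul p3.ne' p4.ne']
  have h5 : Real.log (av (Sum.inl w0 : Pl ℚ) ((a : ℚ) ^ q * r)) =
      2 * Real.log (f0 D.γ) + ∑ l, Real.log (f0 (fm a b c (D.P l))) := by
    rw [← hf0.ext, hrM, map_mul, map_pow, map_prod, Real.log_mul, Real.log_pow, Real.log_prod]
    · push_cast; ring
    · intro l _
      refine (f0.pos_iff.2 ?_).ne'
      intro h0
      have h5 : algebraMap ℚ M ((a : ℚ) ^ q * r) = 0 := by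
        rw [hrM, Finset.prod_eq_zero (Finset.mem_univ l) h0, mul_zero]
      rw [map_eq_zero] at h5
      exact mul_ne_zero (pow_ne_zero _ haQ) hr0 h5
    · exact (pow_pos (f0.pos_iff.2 D.γ0) _).ne'
    · rw [← map_prod]
      refine (f0.pos_iff.2 ?_).ne'
      intro h0
      have h5 : algebraMap ℚ M ((a : ℚ) ^ q * r) = 0 := by
        rw [hrM, h0, mul_zero]
      rw [map_eq_zero] at h5
      exact mul_ne_zero (pow_ne_zero _ haQ) hr0 h5
  rw [map_mul, map_pow, Real.log_mul (pow_pos ((av _).pos_iff.2 haQ) _).ne'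
    ((av _).pos_iff.2 hr0).ne', Real.log_pow] at h5
  -- the maxima
  set m : ℝ := nrm (av (Sum.inl w0 : Pl ℚ)) (zv a b c) with hm
  have ma : ‖(a : ℂ)‖ ≤ m := by
    rw [← abs_int w0]
    exact le_nrm (av (Sum.inl w0 : Pl ℚ)) (zv a b c) 2
  have mb : ‖(b : ℂ)‖ ≤ m := by
    rw [← abs_int w0]
    exact le_nrm (av (Sum.inl w0 : Pl ℚ)) (zv a b c) 1
  have mc : ‖(c : ℂ)‖ ≤ m := by
    rw [← abs_int w0]
    exact le_nrm (av (Sum.inl w0 : Pl ℚ)) (zv a b c) 0
  have m0 : 0 < m := lt_of_lt_of_le p5 ma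
  have h6 : ‖(a : ℂ)‖ * (max ‖X‖ 1 * max ‖Y‖ 1) ≤ 2 * m := by
    have key : ∀ U V : ℂ, (a : ℂ) * (U + V) = -b → ‖V‖ ≤ 1 → ‖(a : ℂ)‖ * ‖U‖ ≤ 2 * m := by
      intro U V h7 h8
      have h9 : (a : ℂ) * U = -b - a * V := by linear_combination h7
      rw [← norm_mul, h9]
      refine (norm_sub_le _ _).trans ?_
      rw [norm_neg, norm_mul]
      nlinarith [norm_nonneg V]
    rcases max_choice ‖X‖ 1 with m1 | m1 <;> rcases max_choice ‖Y‖ 1 with m2 | m2 <;>
      rw [m1, m2]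
    · rw [← norm_mul, ← norm_mul, w2]
      linarith
    · rw [mul_one]
      exact key X Y w1 (by rw [← m2]; exact le_max_left _ _)
    · rw [one_mul]
      exact key Y X (by rw [add_comm]; exact w1) (by rw [← m1]; exact le_max_left _ _)
    · rw [mul_one, mul_one]
      linarith
  have h7 := Real.log_le_log (by positivity) h6
  rw [Real.log_mul p5.ne' (by positivity), Real.log_mul p1.ne' p2.ne',
    Real.log_mul (by norm_num) m0.ne'] at h7
  have h8 : Real.log (av (Sum.inl w0 : Pl ℚ) (a : ℚ)) = Real.log ‖(a : ℂ)‖ := by rw [abs_int]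
  rw [h8] at h5
  have h9 : (q : ℝ) * (Real.log (max ‖X‖ 1) + Real.log (max ‖Y‖ 1)) ≤
      q * (Real.log 2 + Real.log m - Real.log ‖(a : ℂ)‖) :=
    mul_le_mul_of_nonneg_left (by linarith) (Nat.cast_nonneg _)
  linarith

/-- the places of `ℚ` in `S` and the infinite place -/
noncomputable def T0 (S : Finset ℕ) (hS : ∀ p ∈ S, p.Prime) : Finset (Pl ℚ) :=
  (Pool.Agent.TH876.QR.places2 ℚ S hS).1.toFinset

theorem mem_T0 (S : Finset ℕ) (hS : ∀ p ∈ S, p.Prime) (v : Pl ℚ) : v ∈ T0 S hS ↔ v ∈ Pls ℚ S :=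
  Set.Finite.mem_toFinset _

theorem mem_Pls_inr {K : Type} [Field K] [NumberField K] (S : Finset ℕ)
    (Q : HeightOneSpectrum (𝓞 K)) :
    (Sum.inr Q : Pl K) ∈ Pls K S ↔ ∃ p ∈ S, (p : 𝓞 K) ∈ Q.asIdeal := by
  constructor
  · intro h
    exact h Q rfl
  · intro h u hu
    rw [← Sum.inr_injective hu]
    exact h

theorem mem_Pls_inl {K : Type} [Field K] [NumberField K] (S : Finset ℕ) (w : InfinitePlace K) :
    (Sum.inl w : Pl K) ∈ Pls K S := by
  intro u hu
  simp at hu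

theorem wt_rat (w0 : InfinitePlace ℚ) : wt (Sum.inl w0 : Pl ℚ) = 1 := by
  have h2 := Pool.Agent.R405.IQ.mult_eq w0 fun w' => Subsingleton.elim _ _
  rw [finrank_self] at h2
  show (w0.mult : ℝ) = 1
  rw [h2, Nat.cast_one]

/-- the total: `z` is the primitive vector of the coefficients -/
theorem link (D : Div M q) (S : Finset ℕ) (hS : ∀ p ∈ S, p.Prime)
    (f : Pl ℚ → AbsoluteValue M ℝ) (hf : ∀ v, Good v (f v)) :
    ∃ C : ℝ, 0 ≤ C ∧ ∀ (K N : Type) [Field K] [NumberField K] [Field N] [NumberField N]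
      [Algebra K N] (_ : M →+* N), finrank ℚ K = 2 → ∀ (a b c : ℤ), a ≠ 0 →
      (∀ v0 : HeightOneSpectrum (𝓞 ℚ), nrm (av (Sum.inr v0 : Pl ℚ)) (zv a b c) = 1) →
      ∀ x : K, (a : K) * x ^ 2 + b * x + c = 0 → (∀ r : ℚ, x ≠ algebraMap ℚ K r) →
      aeval x D.g ≠ 0 →
      Tot D.g q S x ≤ ∑ v ∈ T0 S hS, wt v * ∑ l, (Real.log (nrm (av v) (zv a b c)) -
        Real.log (f v (fm a b c (D.P l)))) + C := by
  classical
  refine ⟨∑ v ∈ T0 S hS, (2 * |Real.log (f v D.γ)| + q * Real.log 2), ?_, ?_⟩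
  · refine Finset.sum_nonneg fun v _ => ?_
    have h1 := abs_nonneg (Real.log (f v D.γ))
    have h2 : 0 ≤ Real.log 2 := Real.log_nonneg (by norm_num)
    positivity
  intro K N _ _ _ _ _ i hK a b c ha hprim x hx hxr hgx
  obtain ⟨σ, hσ⟩ := Pool.Agent.Y734.BR.exists_cj (L := K) (by rw [hK])
  have hne : x ≠ σ x := by
    intro h0
    obtain ⟨r, hr⟩ := hσ.rat h0.symm
    exact hxr r hr.symm
  have hfin := (Pool.Agent.TH876.QR.places2 K S hS).1
  set T := hfin.toFinset with hT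
  have hTmem : ∀ v, v ∈ T ↔ v ∈ Pls K S := fun v => Set.Finite.mem_toFinset _
  have h1 : Tot D.g q S x = ∑ v ∈ T, lh' D.g q v x := by
    unfold Tot
    rw [finsum_mem_eq_finite_toFinset_sum _ hfin]
  set un : Pl K → Pl ℚ := Sum.elim (fun _ => Sum.inl default)
    (fun Q => Sum.inr (Q.under (𝓞 ℚ))) with hun
  have hmem : ∀ (Q : HeightOneSpectrum (𝓞 K)) (u : HeightOneSpectrum (𝓞 ℚ)), Over Q u →
      ((Sum.inr Q : Pl K) ∈ Pls K S ↔ (Sum.inr u : Pl ℚ) ∈ Pls ℚ S) := by
    intro Q u hQ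
    rw [mem_Pls_inr, mem_Pls_inr]
    refine exists_congr fun p => and_congr_right fun _ => ?_
    rw [← hQ, Ideal.mem_comap, map_natCast]
  have hmaps : ∀ v ∈ T, un v ∈ T0 S hS := by
    intro v hv
    rw [hTmem] at hv
    rw [mem_T0]
    rcases v with w | Q
    · exact mem_Pls_inl S _
    · exact (hmem Q _ ((over_iff Q _).1 rfl)).1 hv
  rw [h1, ← Finset.sum_fiberwise_of_maps_to hmaps, ← Finset.sum_add_distrib]
  refine Finset.sum_le_sum fun v0 hv0 => ?_
  rcases v0 with w0 | u0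
  · have h2 : T.filter (fun v => un v = Sum.inl w0) =
        (Finset.univ : Finset (InfinitePlace K)).map ⟨Sum.inl, Sum.inl_injective⟩ := by
      ext v
      rw [Finset.mem_filter, Finset.mem_map, hTmem]
      constructor
      · rintro ⟨-, h3⟩
        rcases v with w | Q
        · exact ⟨w, Finset.mem_univ _, rfl⟩
        · simp [hun] at h3
      · rintro ⟨w, -, rfl⟩
        refine ⟨mem_Pls_inl S w, ?_⟩
        simp only [hun, Function.Embedding.coeFn_mk, Sum.elim_inl]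
        rw [Subsingleton.elim w0 default]
    rw [h2, Finset.sum_map, wt_rat, one_mul]
    simp only [Function.Embedding.coeFn_mk]
    have h3 := link_inf i D hσ hK a b c ha x hx hne hgx w0 (f (Sum.inl w0)) (hf _)
    rw [Finset.sum_sub_distrib, Finset.sum_const, Finset.card_univ, Fintype.card_fin,
      nsmul_eq_mul]
    have h4 := neg_abs_le (Real.log (f (Sum.inl w0) D.γ))
    linarith
  · set A : Finset (HeightOneSpectrum (𝓞 K)) := T.toRight.filter
      (fun Q => Q.under (𝓞 ℚ) = u0) with hA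
    have hAm : ∀ Q, Q ∈ A ↔ Over Q u0 := by
      intro Q
      rw [hA, Finset.mem_filter, Finset.mem_toRight, hTmem, over_iff]
      constructor
      · exact fun h => h.2
      · intro h
        refine ⟨(hmem Q u0 h).2 ?_, h⟩
        rwa [mem_T0] at hv0
    have h2 : T.filter (fun v => un v = Sum.inr u0) = A.map ⟨Sum.inr, Sum.inr_injective⟩ := by
      ext v
      rw [Finset.mem_filter, Finset.mem_map]
      constructor
      · rintro ⟨h3, h4⟩
        rcases v with w | Q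
        · simp [hun] at h4
        · refine ⟨Q, ?_, rfl⟩
          rw [hA, Finset.mem_filter, Finset.mem_toRight]
          refine ⟨h3, ?_⟩
          simp only [hun, Sum.elim_inr] at h4
          exact Sum.inr_injective h4
      · rintro ⟨Q, hQ, rfl⟩
        rw [hA, Finset.mem_filter, Finset.mem_toRight] at hQ
        refine ⟨hQ.1, ?_⟩
        simp only [hun, Function.Embedding.coeFn_mk, Sum.elim_inr]
        rw [hQ.2]
    rw [h2, Finset.sum_map]
    simp only [Function.Embedding.coeFn_mk]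
    have h3 := link_fin i D hσ hK a b c ha x hx hne hgx u0 A hAm (f (Sum.inr u0)) (hf _)
    have h4 := neg_abs_le (Real.log (f (Sum.inr u0) D.γ))
    have h5 : wt (Sum.inr u0 : Pl ℚ) = 1 := rfl
    have h6 : 0 ≤ (q : ℝ) * Real.log 2 := by
      have : 0 ≤ Real.log 2 := Real.log_nonneg (by norm_num)
      positivity
    rw [h5, one_mul, Finset.sum_sub_distrib, Finset.sum_const, Finset.card_univ,
      Fintype.card_fin, nsmul_eq_mul, hprim u0, Real.log_one, mul_zero]
    linarith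

end Pool.Agent.R405.AQ
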