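import Mathlib
import Pool.Agent.R405.AQ3
import Pool.Agent.R405.AQ7

/-!
Preparations for the count in a pencil.
-/

set_option autoImplicit false
set_option linter.unusedSectionVars false

open Finset

namespace Pool.Agent.R405.AQ

open NumberField IsDedekindDomain Module Height
open Pool.Agent.W180.OP (Pl av wt wt_nonneg nrm le_nrm nrm_pos nrm_nonneg exists_nrm)
open Pool.Agent.R405.IQ (wc inv_bound)

/-- the linear forms -/
def Hf {M : Type} [Field M] {q : ℕ} (P : Fin q → M × M) : Fin q → Fin 3 → M :=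
  fun l k => (P l).1 ^ (k : ℕ) * (P l).2 ^ (2 - (k : ℕ))

theorem dot_eq {M : Type} [Field M] [NumberField M] {q : ℕ} (P : Fin q → M × M) (a b c : ℤ)
    (l : Fin q) : dot (Hf P l) (exv M (zv a b c)) = fm a b c (P l) := by
  unfold dot Hf exv zv fm
  rw [Fin.sum_univ_three]
  simp
  ring

theorem third {M : Type} [Field M] {q : ℕ} (hq : 1 ≤ q) (P : Fin q → M × M)
    (hne : ∀ j, P j ≠ 0)
    (hpw : ∀ i j, i ≠ j → (P i).1 * (P j).2 ≠ (P j).1 * (P i).2) (f : AbsoluteValue M ℝ) :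
    ∃ c : ℝ, 0 ≤ c ∧ ∀ z : Fin 3 → M, z ≠ 0 → (∀ l, dot (Hf P l) z ≠ 0) → ∃ J : Fin q,
      ∑ l, (Real.log (nrm f z) - Real.log (f (dot (Hf P l) z))) ≤
        2 * max (Real.log (nrm f z) - Real.log (f (dot (Hf P J) z))) 0 + c := by
  classical
  have hgp := gen_pos P hne hpw 2
  have hκ : ∀ β : Fin 3 → Fin q, ∃ κ : ℝ, 1 ≤ κ ∧ (Function.Injective β → ∀ (x : Fin 3 → M)
      (t : ℝ), 0 ≤ t → (∀ a, f (dot (Hf P (β a)) x) ≤ t) → nrm f x ≤ κ * t) := by
    intro β
    by_cases hβ : Function.Injective β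
    · have hdet : (Matrix.of fun a => wc (Hf P) (Sum.inl (β a))).det ≠ 0 := by
        have h1 : (Matrix.of fun a => wc (Hf P) (Sum.inl (β a))) =
            (Matrix.of fun a => Hf P (β a)) := rfl
        rw [h1]
        have h2 := hgp (Finset.univ.image β) (by
          refine Finset.card_image_le.trans ?_
          simp)
        have h3 : LinearIndependent M (fun a : Fin 3 => Hf P (β a)) := by
          have h4 := h2.comp (fun a : Fin 3 => (⟨β a, Finset.mem_image_of_mem _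
            (Finset.mem_univ _)⟩ : {x // x ∈ Finset.univ.image β})) (by
              intro a b hab
              exact hβ (congrArg Subtype.val hab))
          exact h4
        intro h0
        have h5 := Matrix.linearIndependent_rows_iff_isUnit (A := Matrix.of fun a => Hf P (β a))
        have h6 := (h5.1 h3)
        rw [Matrix.isUnit_iff_isUnit_det, h0] at h6
        exact not_isUnit_zero h6
      obtain ⟨κ, h1, h2⟩ := inv_bound (F := M) f (Hf P) (fun a => Sum.inl (β a)) hdet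
      exact ⟨κ, h1, fun _ => h2⟩
    · exact ⟨1, le_rfl, fun h => absurd h hβ⟩
  choose κ hκ1 hκ2 using hκ
  set Λ : ℝ := 1 + ∑ β : Fin 3 → Fin q, κ β with hΛ
  have hs0 : 0 ≤ ∑ β : Fin 3 → Fin q, κ β :=
    Finset.sum_nonneg fun β _ => zero_le_one.trans (hκ1 β)
  have hΛκ : ∀ β, κ β ≤ Λ := fun β => by
    have := Finset.single_le_sum (f := κ) (fun β _ => zero_le_one.trans (hκ1 β))
      (Finset.mem_univ β)
    linarith
  have hΛ1 : 1 ≤ Λ := by linarith
  have hl0 : 0 ≤ Real.log (2 * Λ) := Real.log_nonneg (by linarith)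
  refine ⟨q * Real.log (2 * Λ), by positivity, fun z hz hl => ?_⟩
  have : Nonempty (Fin q) := ⟨⟨0, hq⟩⟩
  set ϕ : Fin q → ℝ := fun l => Real.log (nrm f z) - Real.log (f (dot (Hf P l) z)) with hϕ
  obtain ⟨J, hJ⟩ := Finite.exists_max ϕ
  refine ⟨J, ?_⟩
  have hn := nrm_pos f hz
  set G : Finset (Fin q) := Finset.univ.filter fun l => Real.log (2 * Λ) < ϕ l with hG
  have hG2 : G.card ≤ 2 := by
    by_contra hcon
    push Not at hcon
    obtain ⟨s, hs, hs3⟩ := Finset.exists_subset_card_eq (s := G) (n := 3) (by omega)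
    have e := s.equivFinOfCardEq hs3
    have hβ : Function.Injective (fun a : Fin 3 => (e.symm a : Fin q)) := fun a b hab =>
      e.symm.injective (Subtype.ext hab)
    have h1 := hκ2 _ hβ z (nrm f z / (2 * Λ)) (by positivity) (by
      intro a
      have h2 := hs (e.symm a).2
      rw [hG, Finset.mem_filter] at h2
      have h3 := h2.2
      have h4 : 0 < f (dot (Hf P (e.symm a : Fin q)) z) := f.pos_iff.2 (hl _)
      rw [le_div_iff₀ (by positivity)]
      have h5 : Real.log (f (dot (Hf P (e.symm a : Fin q)) z) * (2 * Λ)) ≤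
          Real.log (nrm f z) := by
        rw [Real.log_mul h4.ne' (by positivity)]
        simp only [hϕ] at h3
        linarith
      exact (Real.log_le_log_iff (by positivity) hn).1 h5)
    have h2 := hΛκ (fun a : Fin 3 => (e.symm a : Fin q))
    have h3 : κ (fun a : Fin 3 => (e.symm a : Fin q)) * (nrm f z / (2 * Λ)) ≤
        Λ * (nrm f z / (2 * Λ)) := mul_le_mul_of_nonneg_right h2 (by positivity)
    have h4 : Λ * (nrm f z / (2 * Λ)) = nrm f z / 2 := by field_simp
    linarith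
  have h1 : ∑ l, ϕ l ≤ ∑ l, ((if l ∈ G then max (ϕ J) 0 else 0) + Real.log (2 * Λ)) := by
    refine Finset.sum_le_sum fun l _ => ?_
    by_cases hlG : l ∈ G
    · rw [if_pos hlG]
      have := (hJ l).trans (le_max_left (ϕ J) 0)
      linarith
    · rw [if_neg hlG, zero_add]
      rw [hG, Finset.mem_filter] at hlG
      push Not at hlG
      exact hlG (Finset.mem_univ _)
  refine h1.trans ?_
  rw [Finset.sum_add_distrib, Finset.sum_const, Finset.card_univ, Fintype.card_fin, nsmul_eq_mul,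
    Finset.sum_ite_mem, Finset.univ_inter, Finset.sum_const, nsmul_eq_mul]
  refine add_le_add ?_ le_rfl
  exact mul_le_mul_of_nonneg_right (by exact_mod_cast hG2) (le_max_right _ _)

/-- separated points of a bounded set of reals -/
theorem count_line {α : Type} (E : Finset α) (ρ : α → ℝ) {δ Δ : ℝ} (hδ : 0 < δ) (hΔ : 0 ≤ Δ)
    (h1 : ∀ x ∈ E, ∀ y ∈ E, x ≠ y → δ ≤ |ρ x - ρ y|)
    (h2 : ∀ x ∈ E, ∀ y ∈ E, |ρ x - ρ y| ≤ Δ) : (E.card : ℝ) ≤ Δ / δ + 1 := by
  classical
  rcases E.eq_empty_or_nonempty with rfl | hne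
  · simp only [Finset.card_empty, Nat.cast_zero]
    positivity
  obtain ⟨x0, hx0, hmin⟩ := Finset.exists_min_image E ρ hne
  have hmaps : Set.MapsTo (fun x => ⌊(ρ x - ρ x0) / δ⌋₊) E (Finset.range (⌊Δ / δ⌋₊ + 1)) := by
    intro x hx
    rw [Finset.mem_coe, Finset.mem_range, Nat.lt_succ_iff]
    refine Nat.floor_le_floor (div_le_div_of_nonneg_right ?_ hδ.le)
    exact (le_abs_self _).trans (h2 x hx x0 hx0)
  have hinj : Set.InjOn (fun x => ⌊(ρ x - ρ x0) / δ⌋₊) E := by
    intro x hx y hy hxy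
    by_contra hne
    simp only at hxy
    have a1 : 0 ≤ (ρ x - ρ x0) / δ := div_nonneg (sub_nonneg.2 (hmin x hx)) hδ.le
    have a2 : 0 ≤ (ρ y - ρ x0) / δ := div_nonneg (sub_nonneg.2 (hmin y hy)) hδ.le
    have b1 := Nat.floor_le a1
    have b2 := Nat.floor_le a2
    have b3 := Nat.lt_floor_add_one ((ρ x - ρ x0) / δ)
    have b4 := Nat.lt_floor_add_one ((ρ y - ρ x0) / δ)
    rw [hxy] at b1 b3
    have b5 : |(ρ x - ρ x0) / δ - (ρ y - ρ x0) / δ| < 1 := by
      rw [abs_lt]
      constructor <;> linarith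
    have b6 : (ρ x - ρ x0) / δ - (ρ y - ρ x0) / δ = (ρ x - ρ y) / δ := by ring
    rw [b6, abs_div, abs_of_pos hδ, div_lt_one hδ] at b5
    exact absurd (h1 x hx y hy hne) (not_le.2 b5)
  have h3 := Finset.card_le_card_of_injOn _ hmaps hinj
  rw [Finset.card_range] at h3
  have h4 : (⌊Δ / δ⌋₊ : ℝ) ≤ Δ / δ := Nat.floor_le (by positivity)
  have h5 : (E.card : ℝ) ≤ ⌊Δ / δ⌋₊ + 1 := by exact_mod_cast h3
  linarith

/-- the product formula for integers -/
theorem prod_int (T : Finset (HeightOneSpectrum (𝓞 ℚ))) (w0 : InfinitePlace ℚ) (d : ℤ)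
    (hd : d ≠ 0) : 0 ≤ Real.log (av (Sum.inl w0 : Pl ℚ) (d : ℚ)) +
      ∑ v ∈ T, Real.log (av (Sum.inr v : Pl ℚ) (d : ℚ)) := by
  classical
  have hdq : (d : ℚ) ≠ 0 := Int.cast_ne_zero.2 hd
  have h1 := Pool.Agent.H691R3.log_product_formula (K := ℚ) hdq
  have huniv : (Finset.univ : Finset (InfinitePlace ℚ)) = {w0} := by
    ext w'
    simp only [Finset.mem_univ, Finset.mem_singleton, true_iff]
    exact Subsingleton.elim _ _
  have hm : (w0.mult : ℝ) = 1 := wt_rat w0
  rw [huniv, Finset.sum_singleton, hm, one_mul] at h1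
  have h2 : ∀ v : HeightOneSpectrum (𝓞 ℚ), Real.log (Pool.Agent.H691R3.fv v (d : ℚ)) ≤ 0 := by
    intro v
    refine Real.log_nonpos ((Pool.Agent.H691R3.fv v).nonneg _) ?_
    have h8 := Pool.Agent.Y742.SF.fv_int v (d : 𝓞 ℚ)
    have h9 : ((d : 𝓞 ℚ) : ℚ) = (d : ℚ) := by simp
    rw [h9] at h8
    exact h8
  have h3 : ∑ᶠ v : HeightOneSpectrum (𝓞 ℚ), Real.log (Pool.Agent.H691R3.fv v (d : ℚ)) ≤
      ∑ v ∈ T, Real.log (Pool.Agent.H691R3.fv v (d : ℚ)) := by
    set U := (Pool.Agent.H691R3.log_fv_support_finite hdq).toFinset with hU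
    rw [finsum_eq_sum_of_support_subset (s := T ∪ U) _ (by
      intro v hv
      rw [Finset.coe_union]
      right
      rw [hU, Set.Finite.coe_toFinset]
      exact hv)]
    have h4 := Finset.sum_le_sum_of_subset_of_nonneg (f := fun v =>
      -Real.log (Pool.Agent.H691R3.fv v (d : ℚ))) (Finset.subset_union_left (s₁ := T) (s₂ := U))
      (fun v _ _ => neg_nonneg.2 (h2 v))
    rw [Finset.sum_neg_distrib, Finset.sum_neg_distrib] at h4
    linarith
  have h5 : Real.log (av (Sum.inl w0 : Pl ℚ) (d : ℚ)) +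
      ∑ᶠ v : HeightOneSpectrum (𝓞 ℚ), Real.log (Pool.Agent.H691R3.fv v (d : ℚ)) = 0 := h1
  have h6 : ∑ v ∈ T, Real.log (av (Sum.inr v : Pl ℚ) (d : ℚ)) =
      ∑ v ∈ T, Real.log (Pool.Agent.H691R3.fv v (d : ℚ)) := rfl
  linarith

end Pool.Agent.R405.AQ
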