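import Mathlib
import Pool.Agent.R405.AQ8

/-!
The points of a pencil in one class.
-/

set_option autoImplicit false
set_option linter.unusedSectionVars false

open Finset

namespace Pool.Agent.R405.AQ

open NumberField IsDedekindDomain Module Height
open Pool.Agent.W180.OP (Pl av wt wt_nonneg nrm le_nrm nrm_pos nrm_nonneg exists_nrm)

/-- the rational vector -/
def cz (e : Fin 3 → ℤ) : Fin 3 → ℚ := fun j => (e j : ℚ)

/-- primitive vectors -/
def Prim (e : Fin 3 → ℤ) : Prop :=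
  ∀ v0 : HeightOneSpectrum (𝓞 ℚ), nrm (av (Sum.inr v0 : Pl ℚ)) (cz e) = 1

theorem fin_int_le (v : HeightOneSpectrum (𝓞 ℚ)) (d : ℤ) :
    av (Sum.inr v : Pl ℚ) (d : ℚ) ≤ 1 := by
  have h8 := Pool.Agent.Y742.SF.fv_int v (d : 𝓞 ℚ)
  have h9 : ((d : 𝓞 ℚ) : ℚ) = (d : ℚ) := by simp
  rw [h9] at h8
  exact h8

theorem inf_int (w0 : InfinitePlace ℚ) (d : ℤ) : av (Sum.inl w0 : Pl ℚ) (d : ℚ) = |(d : ℝ)| := by
  rw [abs_int, Complex.norm_intCast]

theorem sum_T0 (S : Finset ℕ) (hS : ∀ p ∈ S, p.Prime) (g : Pl ℚ → ℝ) :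
    ∑ v ∈ T0 S hS, g v = g (Sum.inl default) + ∑ v ∈ (T0 S hS).toRight, g (Sum.inr v) := by
  classical
  conv_lhs => rw [← Finset.toLeft_disjSum_toRight (u := T0 S hS)]
  rw [Finset.sum_disjSum]
  have h1 : (T0 S hS).toLeft = {default} := by
    ext w
    rw [Finset.mem_toLeft, mem_T0, Finset.mem_singleton]
    exact ⟨fun _ => Subsingleton.elim _ _, fun _ => mem_Pls_inl S w⟩
  rw [h1, Finset.sum_singleton]

theorem sum3 {R : Type} [CommRing R] (j0 j1 j2 : Fin 3) (h01 : j0 ≠ j1) (h02 : j0 ≠ j2)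
    (h12 : j1 ≠ j2) (g : Fin 3 → R) : ∑ j, g j = g j0 + g j1 + g j2 := by
  have huniv : (Finset.univ : Finset (Fin 3)) = {j0, j1, j2} := by
    revert j0 j1 j2
    decide
  rw [huniv, Finset.sum_insert, Finset.sum_pair h12]
  · ring
  · simp [h01, h02]

theorem three_cases : ∀ j0 j1 j2 j : Fin 3, j0 ≠ j1 → j0 ≠ j2 → j1 ≠ j2 →
    j = j0 ∨ j = j1 ∨ j = j2 := by
  decide

/-- integers with the same absolute values at all primes -/
theorem abs_eq_of_fin {d d' : ℤ} (hd : d ≠ 0) (hd' : d' ≠ 0)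
    (h : ∀ v : HeightOneSpectrum (𝓞 ℚ), av (Sum.inr v : Pl ℚ) (d : ℚ) =
      av (Sum.inr v : Pl ℚ) (d' : ℚ)) : |d| = |d'| := by
  have hdq : (d : ℚ) ≠ 0 := Int.cast_ne_zero.2 hd
  have hdq' : (d' : ℚ) ≠ 0 := Int.cast_ne_zero.2 hd'
  have h1 := Pool.Agent.H691R3.log_product_formula (K := ℚ) hdq
  have h2 := Pool.Agent.H691R3.log_product_formula (K := ℚ) hdq'
  have h3 : (fun v : HeightOneSpectrum (𝓞 ℚ) => Real.log (Pool.Agent.H691R3.fv v (d : ℚ))) =
      fun v => Real.log (Pool.Agent.H691R3.fv v (d' : ℚ)) := funext fun v => by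
    have := h v
    exact congrArg Real.log this
  rw [h3] at h1
  have h4 : ∑ w : InfinitePlace ℚ, (w.mult : ℝ) * Real.log (w (d : ℚ)) =
      ∑ w : InfinitePlace ℚ, (w.mult : ℝ) * Real.log (w (d' : ℚ)) := by linarith
  have huniv : (Finset.univ : Finset (InfinitePlace ℚ)) = {default} := by
    ext w'
    simp only [Finset.mem_univ, Finset.mem_singleton, true_iff]
    exact Subsingleton.elim _ _
  have hm : ((default : InfinitePlace ℚ).mult : ℝ) = 1 := wt_rat default
  rw [huniv, Finset.sum_singleton, Finset.sum_singleton, hm, one_mul, one_mul] at h4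
  have e1 : (default : InfinitePlace ℚ) (d : ℚ) = |(d : ℝ)| := inf_int default d
  have e2 : (default : InfinitePlace ℚ) (d' : ℚ) = |(d' : ℝ)| := inf_int default d'
  rw [e1, e2] at h4
  have h5 := Real.log_injOn_pos (Set.mem_Ioi.2 (abs_pos.2 (Int.cast_ne_zero.2 hd)))
    (Set.mem_Ioi.2 (abs_pos.2 (Int.cast_ne_zero.2 hd'))) h4
  exact_mod_cast h5

theorem class_bound {M : Type} [Field M] [NumberField M] {q : ℕ} (P : Fin q → M × M)
    (S : Finset ℕ) (hS : ∀ p ∈ S, p.Prime) (f : Pl ℚ → AbsoluteValue M ℝ) (hf : ∀ v, Good v (f v))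
    (j0 j1 j2 : Fin 3) (h01 : j0 ≠ j1) (h02 : j0 ≠ j2) (h12 : j1 ≠ j2) (μ ν : ℚ) :
    ∃ d : ℝ, 0 ≤ d ∧ ∀ (L : ℝ) (J : Pl ℚ → Fin q) (u : Pl ℚ → ℝ) (E : Finset (Fin 3 → ℤ)),
      (∀ e ∈ E, Prim e ∧ (e j0 : ℚ) = μ * e j1 + ν * e j2 ∧ |e j1| ≤ |e j2| ∧
        nrm (av (Sum.inl default : Pl ℚ)) (cz e) ≤ Real.exp L ∧ ∀ v ∈ T0 S hS,
          dot (Hf P (J v)) (exv M (cz e)) ≠ 0 ∧
          f v (dot (Hf P (J v)) (exv M (cz e))) ≤ Real.exp (-(u v)) * nrm (av v) (cz e)) →
      (E.card : ℝ) ≤ 2 * (Real.exp (d + 2 * L - ∑ v ∈ T0 S hS, u v) + 1) := by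
  classical
  set C0 : ℝ := 1 + |(μ : ℝ)| + |(ν : ℝ)| with hC0
  have hC01 : 1 ≤ C0 := by
    have := abs_nonneg (μ : ℝ)
    have := abs_nonneg (ν : ℝ)
    linarith
  set α : Fin q → M := fun l => Hf P l j1 + algebraMap ℚ M μ * Hf P l j0 with hα
  set β : Fin q → M := fun l => Hf P l j2 + algebraMap ℚ M ν * Hf P l j0 with hβ
  set mx : Pl ℚ → Fin q → ℝ := fun v l => max (f v (α l)) (f v (β l)) with hmx
  set D : Pl ℚ → ℝ := fun v => ∑ l, |Real.log (4 * C0 / mx v l)| with hD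
  have hD0 : ∀ v, 0 ≤ D v := fun v => Finset.sum_nonneg fun l _ => abs_nonneg _
  refine ⟨∑ v ∈ T0 S hS, D v, Finset.sum_nonneg fun v _ => hD0 v, ?_⟩
  intro L J u E hE
  -- the value
  have hval : ∀ e ∈ E, ∀ l, dot (Hf P l) (exv M (cz e)) = α l * (e j1 : M) + β l * (e j2 : M) := by
    intro e he l
    have h1 := (hE e he).2.1
    unfold dot
    rw [sum3 j0 j1 j2 h01 h02 h12]
    have h2 : exv M (cz e) j0 = algebraMap ℚ M μ * (e j1 : M) + algebraMap ℚ M ν * (e j2 : M) := by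
      show algebraMap ℚ M (e j0 : ℚ) = _
      rw [h1]
      simp
    have h3 : exv M (cz e) j1 = (e j1 : M) := by
      show algebraMap ℚ M (e j1 : ℚ) = _
      simp
    have h4 : exv M (cz e) j2 = (e j2 : M) := by
      show algebraMap ℚ M (e j2 : ℚ) = _
      simp
    rw [h2, h3, h4]
    simp only [hα, hβ]
    ring
  have hfint : ∀ (v : Pl ℚ) (n : ℤ), f v (n : M) = av v (n : ℚ) := by
    intro v n
    rw [← (hf v).ext]
    congr 1
    simp
  -- the second coordinate
  have ht0 : ∀ e ∈ E, e j2 ≠ 0 := by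
    intro e he h0
    obtain ⟨hp, h1, h2, -⟩ := hE e he
    have h3 : e j1 = 0 := by
      rw [h0, abs_zero] at h2
      exact abs_nonpos_iff.1 h2
    have h4 : e j0 = 0 := by
      rw [h0, h3] at h1
      simp only [Int.cast_zero, mul_zero, add_zero, Int.cast_eq_zero] at h1
      exact h1
    have h5 := (hE e he).2.2.2.2
    have h6 : ∀ v ∈ T0 S hS, False := by
      intro v hv
      apply (h5 v hv).1
      rw [hval e he, h0, h3]
      simp
    exact h6 (Sum.inl default) ((mem_T0 S hS _).2 (mem_Pls_inl S _))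
  have hmxp : ∀ e ∈ E, ∀ v ∈ T0 S hS, 0 < mx v (J v) := by
    intro e he v hv
    by_contra hcon
    push Not at hcon
    have h1 : f v (α (J v)) ≤ 0 := (le_max_left _ _).trans hcon
    have h2 : f v (β (J v)) ≤ 0 := (le_max_right _ _).trans hcon
    have h3 : α (J v) = 0 := (AbsoluteValue.eq_zero _).1 (le_antisymm h1 ((f v).nonneg _))
    have h4 : β (J v) = 0 := (AbsoluteValue.eq_zero _).1 (le_antisymm h2 ((f v).nonneg _))
    apply ((hE e he).2.2.2.2 v hv).1
    rw [hval e he, h3, h4]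
    simp
  -- the norm at infinity
  have hnt : ∀ e ∈ E, nrm (av (Sum.inl default : Pl ℚ)) (cz e) ≤ C0 * |(e j2 : ℝ)| := by
    intro e he
    obtain ⟨hp, h1, h2, -⟩ := hE e he
    have h2' : |(e j1 : ℝ)| ≤ |(e j2 : ℝ)| := by exact_mod_cast h2
    have h1' : (e j0 : ℝ) = μ * e j1 + ν * e j2 := by exact_mod_cast congrArg (fun r : ℚ => (r : ℝ)) h1
    have h3 := abs_nonneg (μ : ℝ)
    have h4 := abs_nonneg (ν : ℝ)
    have h5 := abs_nonneg (e j2 : ℝ)
    refine Pool.Agent.W180.OP.nrm_le (by positivity) fun j => ?_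
    have h6 : av (Sum.inl default : Pl ℚ) (cz e j) = |(e j : ℝ)| := inf_int default (e j)
    rw [h6]
    have h7 : j = j0 ∨ j = j1 ∨ j = j2 := three_cases j0 j1 j2 j h01 h02 h12
    rcases h7 with rfl | rfl | rfl
    · rw [h1']
      refine (abs_add_le _ _).trans ?_
      rw [abs_mul, abs_mul]
      nlinarith
    · nlinarith
    · nlinarith
  -- the determinant
  have hdet : ∀ e ∈ E, ∀ e' ∈ E, ∀ v ∈ T0 S hS,
      mx v (J v) * av v ((e j1 * e' j2 - e' j1 * e j2 : ℤ) : ℚ) ≤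
        f v (dot (Hf P (J v)) (exv M (cz e))) * av v (e' j2 : ℚ) +
        f v (dot (Hf P (J v)) (exv M (cz e'))) * av v (e j2 : ℚ) +
        (f v (dot (Hf P (J v)) (exv M (cz e))) * av v (e' j1 : ℚ) +
        f v (dot (Hf P (J v)) (exv M (cz e'))) * av v (e j1 : ℚ)) := by
    intro e he e' he' v hv
    have g1 : 0 ≤ f v (dot (Hf P (J v)) (exv M (cz e))) * av v (e' j2 : ℚ) :=
      mul_nonneg ((f v).nonneg _) ((av v).nonneg _)
    have g2 : 0 ≤ f v (dot (Hf P (J v)) (exv M (cz e'))) * av v (e j2 : ℚ) :=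
      mul_nonneg ((f v).nonneg _) ((av v).nonneg _)
    have g3 : 0 ≤ f v (dot (Hf P (J v)) (exv M (cz e))) * av v (e' j1 : ℚ) :=
      mul_nonneg ((f v).nonneg _) ((av v).nonneg _)
    have g4 : 0 ≤ f v (dot (Hf P (J v)) (exv M (cz e'))) * av v (e j1 : ℚ) :=
      mul_nonneg ((f v).nonneg _) ((av v).nonneg _)
    rcases max_choice (f v (α (J v))) (f v (β (J v))) with h | h
    · have h1 : mx v (J v) * av v ((e j1 * e' j2 - e' j1 * e j2 : ℤ) : ℚ) ≤
          f v (dot (Hf P (J v)) (exv M (cz e))) * av v (e' j2 : ℚ) +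
          f v (dot (Hf P (J v)) (exv M (cz e'))) * av v (e j2 : ℚ) := by
        simp only [hmx]
        rw [h, ← hfint, ← hfint, ← hfint, ← map_mul, ← map_mul, ← map_mul]
        have h2 : α (J v) * ((e j1 * e' j2 - e' j1 * e j2 : ℤ) : M) =
            dot (Hf P (J v)) (exv M (cz e)) * (e' j2 : M) -
            dot (Hf P (J v)) (exv M (cz e')) * (e j2 : M) := by
          rw [hval e he, hval e' he']
          push_cast
          ring
        rw [h2, sub_eq_add_neg]
        refine ((f v).add_le _ _).trans ?_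
        rw [(f v).map_neg]
      linarith
    · have h1 : mx v (J v) * av v ((e j1 * e' j2 - e' j1 * e j2 : ℤ) : ℚ) ≤
          f v (dot (Hf P (J v)) (exv M (cz e))) * av v (e' j1 : ℚ) +
          f v (dot (Hf P (J v)) (exv M (cz e'))) * av v (e j1 : ℚ) := by
        simp only [hmx]
        rw [h, ← hfint, ← hfint, ← hfint, ← map_mul, ← map_mul, ← map_mul]
        have h2 : β (J v) * ((e j1 * e' j2 - e' j1 * e j2 : ℤ) : M) =
            -(dot (Hf P (J v)) (exv M (cz e)) * (e' j1 : M)) +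
            dot (Hf P (J v)) (exv M (cz e')) * (e j1 : M) := by
          rw [hval e he, hval e' he']
          push_cast
          ring
        rw [h2]
        refine ((f v).add_le _ _).trans ?_
        rw [(f v).map_neg]
      linarith
  have hDl : ∀ v l, Real.log (4 * C0 / mx v l) ≤ D v := fun v l =>
    (le_abs_self _).trans (Finset.single_le_sum (f := fun l => |Real.log (4 * C0 / mx v l)|)
      (fun _ _ => abs_nonneg _) (Finset.mem_univ l))
  -- the finite places
  have hfin : ∀ e ∈ E, ∀ e' ∈ E, ∀ w : HeightOneSpectrum (𝓞 ℚ), (Sum.inr w : Pl ℚ) ∈ T0 S hS →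
      e j1 * e' j2 - e' j1 * e j2 ≠ 0 →
      Real.log (av (Sum.inr w : Pl ℚ) ((e j1 * e' j2 - e' j1 * e j2 : ℤ) : ℚ)) ≤
        D (Sum.inr w) - u (Sum.inr w) := by
    intro e he e' he' w hw hne
    have h1 := hdet e he e' he' _ hw
    have h2 := ((hE e he).2.2.2.2 _ hw).2
    have h3 := ((hE e' he').2.2.2.2 _ hw).2
    rw [(hE e he).1 w, mul_one] at h2
    rw [(hE e' he').1 w, mul_one] at h3
    have h4 := hmxp e he _ hw
    have i1 := fin_int_le w (e' j2)
    have i2 := fin_int_le w (e j2)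
    have i3 := fin_int_le w (e' j1)
    have i4 := fin_int_le w (e j1)
    have g1 := (f (Sum.inr w)).nonneg (dot (Hf P (J (Sum.inr w))) (exv M (cz e)))
    have g2 := (f (Sum.inr w)).nonneg (dot (Hf P (J (Sum.inr w))) (exv M (cz e')))
    have k1 := mul_le_mul_of_nonneg_left i1 g1
    have k2 := mul_le_mul_of_nonneg_left i2 g2
    have k3 := mul_le_mul_of_nonneg_left i3 g1
    have k4 := mul_le_mul_of_nonneg_left i4 g2
    have h5 : mx (Sum.inr w) (J (Sum.inr w)) *
        av (Sum.inr w : Pl ℚ) ((e j1 * e' j2 - e' j1 * e j2 : ℤ) : ℚ) ≤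
        4 * Real.exp (-(u (Sum.inr w))) := by linarith
    have hp : 0 < av (Sum.inr w : Pl ℚ) ((e j1 * e' j2 - e' j1 * e j2 : ℤ) : ℚ) :=
      (av _).pos_iff.2 (Int.cast_ne_zero.2 hne)
    have h6 := Real.log_le_log (mul_pos h4 hp) h5
    rw [Real.log_mul h4.ne' hp.ne', Real.log_mul (by norm_num) (Real.exp_pos _).ne',
      Real.log_exp] at h6
    have h7 := hDl (Sum.inr w) (J (Sum.inr w))
    rw [Real.log_div (by positivity) h4.ne', Real.log_mul (by norm_num) (by positivity)] at h7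
    have h8 : 0 ≤ Real.log C0 := Real.log_nonneg hC01
    linarith
  -- the quotient
  set ρ : (Fin 3 → ℤ) → ℝ := fun e => (e j1 : ℝ) / (e j2 : ℝ) with hρ
  have hρd : ∀ e ∈ E, ∀ e' ∈ E, |ρ e - ρ e'| * (|(e j2 : ℝ)| * |(e' j2 : ℝ)|) =
      |((e j1 * e' j2 - e' j1 * e j2 : ℤ) : ℝ)| := by
    intro e he e' he'
    have t1 : (e j2 : ℝ) ≠ 0 := Int.cast_ne_zero.2 (ht0 e he)
    have t2 : (e' j2 : ℝ) ≠ 0 := Int.cast_ne_zero.2 (ht0 e' he')
    rw [← abs_mul, ← abs_mul]
    congr 1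
    simp only [hρ]
    push_cast
    field_simp
  have hinl : (Sum.inl default : Pl ℚ) ∈ T0 S hS := (mem_T0 S hS _).2 (mem_Pls_inl S _)
  set Δ : ℝ := Real.exp (D (Sum.inl default) - u (Sum.inl default)) with hΔ
  set δ : ℝ := Real.exp (-(∑ w ∈ (T0 S hS).toRight, (D (Sum.inr w) - u (Sum.inr w))) - 2 * L)
    with hδ
  have hup : ∀ e ∈ E, ∀ e' ∈ E, |ρ e - ρ e'| ≤ Δ := by
    intro e he e' he'
    have t1 : 0 < |(e j2 : ℝ)| := abs_pos.2 (Int.cast_ne_zero.2 (ht0 e he))
    have t2 : 0 < |(e' j2 : ℝ)| := abs_pos.2 (Int.cast_ne_zero.2 (ht0 e' he'))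
    have h1 := hdet e he e' he' _ hinl
    rw [inf_int, inf_int, inf_int, inf_int, inf_int, ← hρd e he e' he'] at h1
    have h2 := ((hE e he).2.2.2.2 _ hinl).2
    have h3 := ((hE e' he').2.2.2.2 _ hinl).2
    have n1 := hnt e he
    have n2 := hnt e' he'
    have x0 := Real.exp_pos (-(u (Sum.inl default)))
    have s1 : |(e j1 : ℝ)| ≤ |(e j2 : ℝ)| := by exact_mod_cast (hE e he).2.2.1
    have s2 : |(e' j1 : ℝ)| ≤ |(e' j2 : ℝ)| := by exact_mod_cast (hE e' he').2.2.1
    have g1 := (f (Sum.inl default)).nonneg (dot (Hf P (J (Sum.inl default))) (exv M (cz e)))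
    have g2 := (f (Sum.inl default)).nonneg (dot (Hf P (J (Sum.inl default))) (exv M (cz e')))
    have k1 := mul_le_mul_of_nonneg_left n1 x0.le
    have k2 := mul_le_mul_of_nonneg_left n2 x0.le
    have b1 := h2.trans k1
    have b2 := h3.trans k2
    have c1 := mul_le_mul_of_nonneg_right b1 t2.le
    have c2 := mul_le_mul_of_nonneg_right b2 t1.le
    have c3 := mul_le_mul_of_nonneg_left s2 g1
    have c4 := mul_le_mul_of_nonneg_left s1 g2
    have h4 := hmxp e he _ hinl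
    have h5 : mx (Sum.inl default) (J (Sum.inl default)) * |ρ e - ρ e'| *
        (|(e j2 : ℝ)| * |(e' j2 : ℝ)|) ≤
        4 * C0 * Real.exp (-(u (Sum.inl default))) * (|(e j2 : ℝ)| * |(e' j2 : ℝ)|) := by
      nlinarith
    have h6 := le_of_mul_le_mul_right h5 (mul_pos t1 t2)
    have h7 : |ρ e - ρ e'| ≤ 4 * C0 / mx (Sum.inl default) (J (Sum.inl default)) *
        Real.exp (-(u (Sum.inl default))) := by
      rw [div_mul_eq_mul_div, le_div_iff₀ h4]
      linarith
    refine h7.trans ?_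
    have h8 := hDl (Sum.inl default) (J (Sum.inl default))
    have h9 : 4 * C0 / mx (Sum.inl default) (J (Sum.inl default)) ≤
        Real.exp (D (Sum.inl default)) := by
      rw [← Real.log_le_iff_le_exp (by positivity)]
      exact h8
    rw [hΔ, sub_eq_add_neg, Real.exp_add]
    exact mul_le_mul_of_nonneg_right h9 x0.le
  have hlow : ∀ e ∈ E, ∀ e' ∈ E, ρ e ≠ ρ e' → δ ≤ |ρ e - ρ e'| := by
    intro e he e' he' hne
    have t1 : 0 < |(e j2 : ℝ)| := abs_pos.2 (Int.cast_ne_zero.2 (ht0 e he))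
    have t2 : 0 < |(e' j2 : ℝ)| := abs_pos.2 (Int.cast_ne_zero.2 (ht0 e' he'))
    have hd0 : e j1 * e' j2 - e' j1 * e j2 ≠ 0 := by
      intro h0
      have h1 := hρd e he e' he'
      rw [h0, Int.cast_zero, abs_zero] at h1
      rcases mul_eq_zero.1 h1 with h2 | h2
      · exact hne (sub_eq_zero.1 (abs_eq_zero.1 h2))
      · exact (mul_pos t1 t2).ne' h2
    have h1 := prod_int (T0 S hS).toRight default _ hd0
    rw [inf_int] at h1
    have h2 : ∑ w ∈ (T0 S hS).toRight,
        Real.log (av (Sum.inr w : Pl ℚ) ((e j1 * e' j2 - e' j1 * e j2 : ℤ) : ℚ)) ≤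
        ∑ w ∈ (T0 S hS).toRight, (D (Sum.inr w) - u (Sum.inr w)) :=
      Finset.sum_le_sum fun w hw => hfin e he e' he' w (Finset.mem_toRight.1 hw) hd0
    have hdp : 0 < |((e j1 * e' j2 - e' j1 * e j2 : ℤ) : ℝ)| :=
      abs_pos.2 (Int.cast_ne_zero.2 hd0)
    have h3 : Real.exp (-(∑ w ∈ (T0 S hS).toRight, (D (Sum.inr w) - u (Sum.inr w)))) ≤
        |((e j1 * e' j2 - e' j1 * e j2 : ℤ) : ℝ)| := by
      rw [← Real.le_log_iff_exp_le hdp]
      linarith
    have m1 : |(e j2 : ℝ)| ≤ Real.exp L := by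
      refine le_trans ?_ (hE e he).2.2.2.1
      have := le_nrm (av (Sum.inl default : Pl ℚ)) (cz e) j2
      have h4 : av (Sum.inl default : Pl ℚ) (cz e j2) = |(e j2 : ℝ)| := inf_int default (e j2)
      rwa [h4] at this
    have m2 : |(e' j2 : ℝ)| ≤ Real.exp L := by
      refine le_trans ?_ (hE e' he').2.2.2.1
      have := le_nrm (av (Sum.inl default : Pl ℚ)) (cz e') j2
      have h4 : av (Sum.inl default : Pl ℚ) (cz e' j2) = |(e' j2 : ℝ)| := inf_int default (e' j2)
      rwa [h4] at this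
    rw [← hρd e he e' he'] at h3
    have h5 : |(e j2 : ℝ)| * |(e' j2 : ℝ)| ≤ Real.exp (2 * L) := by
      have h6 : Real.exp (2 * L) = Real.exp L * Real.exp L := by rw [← Real.exp_add]; ring_nf
      rw [h6]
      exact mul_le_mul m1 m2 t2.le (Real.exp_pos _).le
    have h6 : Real.exp (-(∑ w ∈ (T0 S hS).toRight, (D (Sum.inr w) - u (Sum.inr w)))) ≤
        |ρ e - ρ e'| * Real.exp (2 * L) :=
      h3.trans (mul_le_mul_of_nonneg_left h5 (abs_nonneg _))
    rw [hδ, Real.exp_sub, div_le_iff₀ (Real.exp_pos _)]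
    exact h6
  -- proportional points
  have hprop : ∀ e ∈ E, ∀ e' ∈ E, ρ e = ρ e' → e' = e ∨ e' = -e := by
    intro e he e' he' heq
    have t1 := ht0 e he
    have t2 := ht0 e' he'
    have hd0 : e j1 * e' j2 - e' j1 * e j2 = 0 := by
      have h1 := hρd e he e' he'
      rw [heq, sub_self, abs_zero, zero_mul] at h1
      exact_mod_cast abs_eq_zero.1 h1.symm
    have hall : ∀ j, e j * e' j2 = e' j * e j2 := by
      intro j
      rcases three_cases j0 j1 j2 j h01 h02 h12 with rfl | rfl | rfl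
      · have h1 := (hE e he).2.1
        have h2 := (hE e' he').2.1
        have h3 : ((e j1 * e' j2 - e' j1 * e j2 : ℤ) : ℚ) = 0 := by rw [hd0, Int.cast_zero]
        push_cast at h3
        have h4 : (e j : ℚ) * e' j2 = e' j * e j2 := by
          rw [h1, h2]
          linear_combination μ * h3
        exact_mod_cast h4
      · linarith
      · ring
    have habs : |e j2| = |e' j2| := by
      refine abs_eq_of_fin t1 t2 fun v => ?_
      have key : ∀ a ∈ E, ∀ b ∈ E, (∀ j, a j * b j2 = b j * a j2) →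
          av (Sum.inr v : Pl ℚ) (b j2 : ℚ) ≤ av (Sum.inr v : Pl ℚ) (a j2 : ℚ) := by
        intro a ha b hb hab
        have h1 := (hE a ha).1 v
        obtain ⟨j, hj⟩ := exists_nrm (av (Sum.inr v : Pl ℚ)) (by norm_num) (cz a)
        rw [h1] at hj
        have h2 : av (Sum.inr v : Pl ℚ) (a j : ℚ) = 1 := by
          exact hj
        have h3 : av (Sum.inr v : Pl ℚ) (a j : ℚ) * av (Sum.inr v : Pl ℚ) (b j2 : ℚ) =
            av (Sum.inr v : Pl ℚ) (b j : ℚ) * av (Sum.inr v : Pl ℚ) (a j2 : ℚ) := by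
          rw [← map_mul, ← map_mul]
          congr 1
          exact_mod_cast hab j
        rw [h2, one_mul] at h3
        rw [h3]
        exact mul_le_of_le_one_left ((av _).nonneg _) (fin_int_le v (b j))
      exact le_antisymm (key e' he' e he fun j => (hall j).symm) (key e he e' he' hall)
    rcases abs_eq_abs.1 habs with h | h
    · left
      funext j
      have h1 := hall j
      rw [← h] at h1
      exact (mul_right_cancel₀ t1 h1).symm
    · right
      funext j
      have h1 := hall j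
      have h2 : e' j2 = -e j2 := by linarith
      rw [h2] at h1
      have h3 : e' j * e j2 = (-e j) * e j2 := by linarith
      exact mul_right_cancel₀ t1 h3
  -- the count
  have hR := count_line (E.image ρ) id (Real.exp_pos _ : 0 < δ) (Real.exp_pos _).le (by
    intro x hx y hy hxy
    obtain ⟨e, he, rfl⟩ := Finset.mem_image.1 hx
    obtain ⟨e', he', rfl⟩ := Finset.mem_image.1 hy
    exact hlow e he e' he' hxy) (Δ := Δ) (by
    intro x hx y hy
    obtain ⟨e, he, rfl⟩ := Finset.mem_image.1 hx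
    obtain ⟨e', he', rfl⟩ := Finset.mem_image.1 hy
    exact hup e he e' he')
  have hcard : E.card ≤ 2 * (E.image ρ).card := by
    refine Finset.card_le_mul_card_image E 2 ?_
    intro x hx
    obtain ⟨e, he, rfl⟩ := Finset.mem_image.1 hx
    have hsub : (E.filter fun e' => ρ e' = ρ e) ⊆ {e, -e} := by
      intro e' he'
      rw [Finset.mem_filter] at he'
      rw [Finset.mem_insert, Finset.mem_singleton]
      exact hprop e he e' he'.1 he'.2.symm
    exact (Finset.card_le_card hsub).trans (Finset.card_le_two)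
  have hcard' : (E.card : ℝ) ≤ 2 * ((E.image ρ).card : ℝ) := by exact_mod_cast hcard
  have hq : Δ / δ = Real.exp (∑ v ∈ T0 S hS, D v + 2 * L - ∑ v ∈ T0 S hS, u v) := by
    rw [hΔ, hδ, ← Real.exp_sub, sum_T0, sum_T0, Finset.sum_sub_distrib]
    congr 1
    ring
  rw [hq] at hR
  linarith

end Pool.Agent.R405.AQ
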