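import Mathlib
import Pool.Agent.R405.AQ9

/-!
The count in a pencil.
-/

set_option autoImplicit false
set_option linter.unusedSectionVars false

open Finset

namespace Pool.Agent.R405.AQ

open NumberField IsDedekindDomain Module Height
open Pool.Agent.W180.OP (Pl av wt wt_nonneg nrm le_nrm nrm_pos nrm_nonneg exists_nrm)

theorem wt_one (v : Pl ℚ) : wt v = 1 := by
  rcases v with v | v
  · exact wt_rat v
  · rfl

/-- the sum of the local heights of a vector -/
noncomputable def TT {M : Type} [Field M] {q : ℕ} [NumberField M] (P : Fin q → M × M)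
    (S : Finset ℕ) (hS : ∀ p ∈ S, p.Prime) (f : Pl ℚ → AbsoluteValue M ℝ) (e : Fin 3 → ℤ) : ℝ :=
  ∑ v ∈ T0 S hS, ∑ l, (Real.log (nrm (av v) (cz e)) -
    Real.log (f v (dot (Hf P l) (exv M (cz e)))))

theorem trunc {τ : Type} (T : Finset τ) (a : τ → ℝ) {t : ℝ} (ht : 0 ≤ t) (ha : ∀ v, 0 ≤ a v) :
    min (∑ v ∈ T, a v) t ≤ ∑ v ∈ T, min (a v) t := by
  classical
  by_cases h : ∀ v ∈ T, a v ≤ t
  · have : ∑ v ∈ T, min (a v) t = ∑ v ∈ T, a v := Finset.sum_congr rfl fun v hv => min_eq_left (h v hv)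
    rw [this]
    exact min_le_left _ _
  · push Not at h
    obtain ⟨v0, hv0, h1⟩ := h
    refine (min_le_right _ _).trans ?_
    have h2 := Finset.single_le_sum (f := fun v => min (a v) t)
      (fun v _ => le_min (ha v) ht) hv0
    simp only [min_eq_right h1.le] at h2
    exact h2

theorem nrm_ge_one {e : Fin 3 → ℤ} (he : e ≠ 0) :
    1 ≤ nrm (av (Sum.inl default : Pl ℚ)) (cz e) := by
  obtain ⟨j, hj⟩ := Function.ne_iff.1 he
  have h1 := le_nrm (av (Sum.inl default : Pl ℚ)) (cz e) j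
  have h2 : av (Sum.inl default : Pl ℚ) (cz e j) = |(e j : ℝ)| := inf_int default (e j)
  rw [h2] at h1
  have h3 : (1 : ℝ) ≤ |(e j : ℝ)| := by exact_mod_cast Int.one_le_abs hj
  linarith

theorem pencil_or {M : Type} [Field M] [NumberField M] {q : ℕ} (hq : 1 ≤ q) (P : Fin q → M × M)
    (hne : ∀ j, P j ≠ 0) (hpw : ∀ i j, i ≠ j → (P i).1 * (P j).2 ≠ (P j).1 * (P i).2)
    (S : Finset ℕ) (hS : ∀ p ∈ S, p.Prime) (f : Pl ℚ → AbsoluteValue M ℝ) (hf : ∀ v, Good v (f v))
    (j0 j1 j2 : Fin 3) (h01 : j0 ≠ j1) (h02 : j0 ≠ j2) (h12 : j1 ≠ j2) (μ ν : ℚ)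
    (κ θ c : ℝ) (hκ : 2 < κ) (hθ1 : θ < 1) (hθκ : θ < κ / 2 - 1) (hc : 0 ≤ c) :
    ∃ C : ℝ, 0 ≤ C ∧ ∀ (F : ℝ) (E : Finset (Fin 3 → ℤ)), 1 ≤ F →
      (∀ e ∈ E, Prim e ∧ e ≠ 0 ∧ (e j0 : ℚ) = μ * e j1 + ν * e j2 ∧ |e j1| ≤ |e j2| ∧
        (∀ l, dot (Hf P l) (exv M (cz e)) ≠ 0) ∧
        nrm (av (Sum.inl default : Pl ℚ)) (cz e) ≤ F ∧
        κ * Real.log (nrm (av (Sum.inl default : Pl ℚ)) (cz e)) ≤ TT P S hS f e + c) →
      (E.card : ℝ) ≤ C * F ^ (1 - θ) := by
  classical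
  have : Nonempty (Fin q) := ⟨⟨0, hq⟩⟩
  obtain ⟨d, hd0, hd⟩ := class_bound P S hS f hf j0 j1 j2 h01 h02 h12 μ ν
  choose cv hcv0 hcv using fun v : Pl ℚ => third hq P hne hpw (f v)
  choose! Jz hJz using hcv
  set T := T0 S hS with hT
  set Cv : Pl ℚ → ℝ := fun v => 1 + ∑ l, ∑ j, f v (Hf P l j) with hCv
  have hCv1 : ∀ v, 1 ≤ Cv v := fun v => by
    have : 0 ≤ ∑ l, ∑ j, f v (Hf P l j) :=
      Finset.sum_nonneg fun _ _ => Finset.sum_nonneg fun _ _ => (f v).nonneg _
    simp only [hCv]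
    linarith
  have hup : ∀ (v : Pl ℚ) (l : Fin q) (e : Fin 3 → ℤ), f v (dot (Hf P l) (exv M (cz e))) ≤
      Cv v * nrm (av v) (cz e) := by
    intro v l e
    have h1 : nrm (f v) (exv M (cz e)) = nrm (av v) (cz e) := (hf v).nrm_ext (cz e)
    rw [← h1]
    have h2 : f v (dot (Hf P l) (exv M (cz e))) ≤
        ∑ j, f v (Hf P l j) * nrm (f v) (exv M (cz e)) := by
      unfold dot
      refine ((f v).sum_le _ _).trans (Finset.sum_le_sum fun j _ => ?_)
      rw [map_mul]
      exact mul_le_mul_of_nonneg_left (le_nrm _ _ j) ((f v).nonneg _)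
    rw [← Finset.sum_mul] at h2
    refine h2.trans (mul_le_mul_of_nonneg_right ?_ (nrm_nonneg _ _))
    have h3 : ∑ j, f v (Hf P l j) ≤ ∑ l, ∑ j, f v (Hf P l j) :=
      Finset.single_le_sum (f := fun l => ∑ j, f v (Hf P l j))
        (fun _ _ => Finset.sum_nonneg fun _ _ => (f v).nonneg _) (Finset.mem_univ l)
    simp only [hCv]
    linarith
  set κ' : ℝ := min (κ / 2) 3 with hκ'
  have hκ'1 : 1 + θ < κ' := lt_min (by linarith) (by linarith)
  set η : ℝ := (κ' - 1 - θ) / ((T.card : ℝ) + 1) with hη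
  have hη0 : 0 < η := div_pos (by linarith) (by positivity)
  have hτη : (T.card : ℝ) * η ≤ κ' - 1 - θ := by
    rw [hη, mul_div_assoc', div_le_iff₀ (by positivity)]
    nlinarith
  obtain ⟨N, hN⟩ := exists_nat_gt (3 / η)
  have hN3 : 3 ≤ (N : ℝ) * η := by
    rw [div_lt_iff₀ hη0] at hN
    exact hN.le
  have hl2 : 0 < Real.log 2 := Real.log_pos (by norm_num)
  set c3 : ℝ := κ / 2 * Real.log 2 + (c + ∑ v ∈ T, cv v) / 2 with hc3
  have hc30 : 0 ≤ c3 := by
    have : 0 ≤ ∑ v ∈ T, cv v := Finset.sum_nonneg fun v _ => hcv0 v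
    have : 0 < κ / 2 * Real.log 2 := by positivity
    positivity
  set d' : ℝ := d + c3 + ∑ v ∈ T, Real.log (Cv v) with hd'
  have hd'0 : 0 ≤ d' := by
    have : 0 ≤ ∑ v ∈ T, Real.log (Cv v) := Finset.sum_nonneg fun v _ => Real.log_nonneg (hCv1 v)
    linarith
  set Q : ℕ := (q * (N + 1)) ^ T.card with hQ
  set r : ℝ := Real.exp ((1 - θ) * Real.log 2) with hr
  have hr1 : 1 < r := by
    rw [hr]
    exact Real.one_lt_exp_iff.2 (mul_pos (by linarith) hl2)
  set A : ℝ := Q * (2 * (Real.exp d' + 1)) with hA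
  have hA0 : 0 ≤ A := by positivity
  refine ⟨A * (r ^ 2 / (r - 1)), mul_nonneg hA0 (div_nonneg (by positivity) (by linarith)),
    fun F E hF hE => ?_⟩
  -- the data of a point
  set J : (Fin 3 → ℤ) → Pl ℚ → Fin q := fun e v => Jz v (exv M (cz e)) with hJ
  set ϕ : (Fin 3 → ℤ) → Pl ℚ → ℝ := fun e v => Real.log (nrm (av v) (cz e)) -
    Real.log (f v (dot (Hf P (J e v)) (exv M (cz e)))) with hϕ
  set ψ : (Fin 3 → ℤ) → Pl ℚ → ℝ := fun e v => max (ϕ e v) 0 with hψ
  have hψ0 : ∀ e v, 0 ≤ ψ e v := fun e v => le_max_right _ _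
  set nr : (Fin 3 → ℤ) → ℝ := fun e => nrm (av (Sum.inl default : Pl ℚ)) (cz e) with hnr
  set kk : (Fin 3 → ℤ) → ℕ := fun e => ⌊Real.log (nr e) / Real.log 2⌋₊ with hkk
  have hcz0 : ∀ e : Fin 3 → ℤ, e ≠ 0 → cz e ≠ 0 := by
    intro e he h0
    apply he
    funext j
    have := congrFun h0 j
    simpa [cz] using this
  have hnr1 : ∀ e ∈ E, 1 ≤ nr e := fun e he => nrm_ge_one (hE e he).2.1
  have hlognr : ∀ e ∈ E, (kk e : ℝ) * Real.log 2 ≤ Real.log (nr e) ∧
      Real.log (nr e) < ((kk e : ℝ) + 1) * Real.log 2 := by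
    intro e he
    have h1 : 0 ≤ Real.log (nr e) / Real.log 2 := div_nonneg (Real.log_nonneg (hnr1 e he)) hl2.le
    have h2 := Nat.floor_le h1
    have h3 := Nat.lt_floor_add_one (Real.log (nr e) / Real.log 2)
    rw [le_div_iff₀ hl2] at h2
    rw [div_lt_iff₀ hl2] at h3
    exact ⟨h2, h3⟩
  -- the sum of the ψ
  have hψsum : ∀ e ∈ E, κ / 2 * Real.log (nr e) - (c + ∑ v ∈ T, cv v) / 2 ≤ ∑ v ∈ T, ψ e v := by
    intro e he
    obtain ⟨g1, g2, g3, g4, g5, g6, g7⟩ := hE e he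
    have h1 : TT P S hS f e ≤ ∑ v ∈ T, (2 * ψ e v + cv v) := by
      unfold TT
      refine Finset.sum_le_sum fun v _ => ?_
      have h2 := hJz v (exv M (cz e)) (exv_ne (hcz0 e g2)) g5
      have h3 : nrm (f v) (exv M (cz e)) = nrm (av v) (cz e) := (hf v).nrm_ext (cz e)
      rw [h3] at h2
      exact h2
    rw [Finset.sum_add_distrib, ← Finset.mul_sum] at h1
    simp only [hnr]
    linarith
  -- one scale
  have hscale : ∀ k : ℕ, ((E.filter fun e => kk e = k).card : ℝ) ≤ A * r ^ (k + 1) := by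
    intro k
    set L : ℝ := ((k : ℝ) + 1) * Real.log 2 with hL
    have hL0 : 0 < L := by positivity
    have hηL : 0 < η * L := mul_pos hη0 hL0
    set Ek := E.filter fun e => kk e = k with hEk
    let g : (Fin 3 → ℤ) → (T → Fin q × ℕ) := fun e v =>
      (J e v, min ⌊ψ e v / (η * L)⌋₊ N)
    set X : ℝ := 2 * (Real.exp d' + 1) * Real.exp ((1 - θ) * L) with hX
    have hX0 : 0 ≤ X := by positivity
    have hfib : ∀ cl ∈ Ek.image g, (Ek.filter fun e => g e = cl).card ≤ ⌊X⌋₊ := by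
      intro cl hcl
      obtain ⟨e0, he0, rfl⟩ := Finset.mem_image.1 hcl
      refine Nat.le_floor ?_
      set n : Pl ℚ → ℕ := fun v => min ⌊ψ e0 v / (η * L)⌋₊ N with hn
      set u : Pl ℚ → ℝ := fun v => n v * (η * L) - Real.log (Cv v) with hu
      have he0E : e0 ∈ E := (Finset.mem_filter.1 he0).1
      have he0k : kk e0 = k := (Finset.mem_filter.1 he0).2
      have h1 := hd L (J e0) u (Ek.filter fun e => g e = g e0) (by
        intro e he
        rw [Finset.mem_filter, hEk, Finset.mem_filter] at he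
        obtain ⟨⟨heE, hek⟩, hge⟩ := he
        obtain ⟨g1, g2, g3, g4, g5, g6, g7⟩ := hE e heE
        refine ⟨g1, g3, g4, ?_, ?_⟩
        · have h2 := (hlognr e heE).2
          rw [hek, ← hL] at h2
          have h3 : 0 < nr e := lt_of_lt_of_le one_pos (hnr1 e heE)
          rw [← Real.log_le_iff_le_exp h3]
          exact h2.le
        · intro v hv
          refine ⟨g5 _, ?_⟩
          have h2 := congrFun hge ⟨v, hv⟩
          have h3 : J e v = J e0 v := congrArg Prod.fst h2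
          have h4 : min ⌊ψ e v / (η * L)⌋₊ N = n v := congrArg Prod.snd h2
          have hnp : 0 < nrm (av v) (cz e) := nrm_pos _ (hcz0 e g2)
          have hfp : 0 < f v (dot (Hf P (J e0 v)) (exv M (cz e))) := (f v).pos_iff.2 (g5 _)
          have h5 : (n v : ℝ) * (η * L) ≤ ψ e v := by
            rw [← h4]
            have h6 : ((min ⌊ψ e v / (η * L)⌋₊ N : ℕ) : ℝ) ≤ ψ e v / (η * L) :=
              (Nat.cast_le.2 (min_le_left _ _)).trans
                (Nat.floor_le (div_nonneg (hψ0 e v) hηL.le))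
            rwa [le_div_iff₀ hηL] at h6
          have h6 : f v (dot (Hf P (J e0 v)) (exv M (cz e))) ≤
              Cv v * Real.exp (-ψ e v) * nrm (av v) (cz e) := by
            rcases le_total 0 (ϕ e v) with h7 | h7
            · have h8 : ψ e v = ϕ e v := max_eq_left h7
              rw [h8]
              have h9 : f v (dot (Hf P (J e0 v)) (exv M (cz e))) =
                  Real.exp (-ϕ e v) * nrm (av v) (cz e) := by
                simp only [hϕ]
                rw [h3, neg_sub, Real.exp_sub, Real.exp_log hfp, Real.exp_log hnp,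
                  div_mul_cancel₀ _ hnp.ne']
              rw [h9]
              have h10 : 0 ≤ Real.exp (-ϕ e v) * nrm (av v) (cz e) := by positivity
              have h11 := mul_le_mul_of_nonneg_right (hCv1 v) h10
              linarith
            · have h8 : ψ e v = 0 := max_eq_right h7
              rw [h8, neg_zero, Real.exp_zero, mul_one]
              exact hup v _ e
          refine h6.trans (mul_le_mul_of_nonneg_right ?_ hnp.le)
          have h7 : Real.exp (-(u v)) = Cv v * Real.exp (-(n v * (η * L))) := by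
            simp only [hu]
            rw [neg_sub, Real.exp_sub, Real.exp_neg, Real.exp_log (by linarith [hCv1 v])]
            rfl
          rw [h7]
          refine mul_le_mul_of_nonneg_left ?_ (by linarith [hCv1 v])
          exact Real.exp_le_exp.2 (by linarith))
      refine h1.trans ?_
      -- the lower bound of the sum of u
      have h2 : ∀ v ∈ T, min (ψ e0 v) (3 * L) - η * L ≤ n v * (η * L) := by
        intro v _
        rcases lt_or_ge ⌊ψ e0 v / (η * L)⌋₊ N with h3 | h3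
        · have h4 : n v = ⌊ψ e0 v / (η * L)⌋₊ := min_eq_left h3.le
          rw [h4]
          have h5 := Nat.lt_floor_add_one (ψ e0 v / (η * L))
          rw [div_lt_iff₀ hηL] at h5
          have h6 := min_le_left (ψ e0 v) (3 * L)
          linarith
        · have h4 : n v = N := min_eq_right h3
          rw [h4]
          have h5 := min_le_right (ψ e0 v) (3 * L)
          nlinarith
      have h3 := Finset.sum_le_sum h2
      rw [Finset.sum_sub_distrib, Finset.sum_const, nsmul_eq_mul] at h3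
      have h4 := trunc T (ψ e0) (by positivity : (0 : ℝ) ≤ 3 * L) (hψ0 e0)
      have h5 := hψsum e0 he0E
      have h6 := (hlognr e0 he0E).1
      rw [he0k] at h6
      have h7 : κ' * L - c3 ≤ min (∑ v ∈ T, ψ e0 v) (3 * L) := by
        refine le_min ?_ ?_
        · have h8 : κ' * L ≤ κ / 2 * L := mul_le_mul_of_nonneg_right (min_le_left _ _) hL0.le
          have h9 : κ / 2 * (L - Real.log 2) ≤ κ / 2 * Real.log (nr e0) :=
            mul_le_mul_of_nonneg_left (by rw [hL]; linarith) (by linarith)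
          rw [hc3]
          linarith
        · have h8 : κ' * L ≤ 3 * L := mul_le_mul_of_nonneg_right (min_le_right _ _) hL0.le
          linarith
      have h8 : (T.card : ℝ) * (η * L) ≤ (κ' - 1 - θ) * L := by
        rw [← mul_assoc]
        exact mul_le_mul_of_nonneg_right hτη hL0.le
      have h9 : ∑ v ∈ T, u v = ∑ v ∈ T, (n v : ℝ) * (η * L) - ∑ v ∈ T, Real.log (Cv v) := by
        simp only [hu]
        rw [Finset.sum_sub_distrib]
      have h10 : d + 2 * L - ∑ v ∈ T, u v ≤ d' + (1 - θ) * L := by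
        rw [h9, hd']
        linarith
      have h11 := Real.exp_le_exp.2 h10
      rw [Real.exp_add] at h11
      have h12 : 1 ≤ Real.exp ((1 - θ) * L) := Real.one_le_exp (mul_nonneg (by linarith) hL0.le)
      rw [hX]
      linarith
    have h1 := Finset.card_le_mul_card_image (s := Ek) (f := g) ⌊X⌋₊ hfib
    have h2 : (Ek.image g).card ≤ Q := by
      have h3 : Ek.image g ⊆ Fintype.piFinset fun _ : T =>
          (univ : Finset (Fin q)) ×ˢ Finset.range (N + 1) := by
        intro cl hcl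
        obtain ⟨e, -, rfl⟩ := Finset.mem_image.1 hcl
        rw [Fintype.mem_piFinset]
        intro v
        rw [Finset.mem_product]
        exact ⟨Finset.mem_univ _, Finset.mem_range.2 (Nat.lt_succ_of_le (min_le_right _ _))⟩
      refine (Finset.card_le_card h3).trans (le_of_eq ?_)
      rw [Fintype.card_piFinset, Finset.prod_const, Finset.card_product]
      simp only [Finset.card_univ, Fintype.card_fin, Finset.card_range, Fintype.card_coe]
      rfl
    have h3 : (Ek.card : ℝ) ≤ ⌊X⌋₊ * Q := by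
      have : Ek.card ≤ ⌊X⌋₊ * Q := h1.trans (Nat.mul_le_mul_left _ h2)
      exact_mod_cast this
    have h4 : (⌊X⌋₊ : ℝ) ≤ X := Nat.floor_le hX0
    have h5 : Real.exp ((1 - θ) * L) = r ^ (k + 1) := by
      rw [hr, ← Real.exp_nat_mul, hL]
      congr 1
      push_cast
      ring
    calc (Ek.card : ℝ) ≤ ⌊X⌋₊ * Q := h3
      _ ≤ X * Q := mul_le_mul_of_nonneg_right h4 (Nat.cast_nonneg _)
      _ = A * r ^ (k + 1) := by rw [hX, hA, h5]; ring
  -- the sum over the scales
  set K : ℕ := ⌊Real.log F / Real.log 2⌋₊ with hK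
  have hmaps : ∀ e ∈ E, kk e ∈ Finset.range (K + 1) := by
    intro e he
    rw [Finset.mem_range, Nat.lt_succ_iff]
    refine Nat.floor_le_floor (div_le_div_of_nonneg_right ?_ hl2.le)
    exact Real.log_le_log (lt_of_lt_of_le one_pos (hnr1 e he)) (hE e he).2.2.2.2.2.1
  have hsum : (E.card : ℝ) = ∑ k ∈ Finset.range (K + 1), ((E.filter fun e => kk e = k).card : ℝ) := by
    exact_mod_cast Finset.card_eq_sum_card_fiberwise hmaps
  rw [hsum]
  refine (Finset.sum_le_sum fun k _ => hscale k).trans ?_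
  rw [← Finset.mul_sum, mul_assoc A (r ^ 2 / (r - 1))]
  refine mul_le_mul_of_nonneg_left ?_ hA0
  have h1 : ∑ k ∈ Finset.range (K + 1), r ^ (k + 1) = r * ((r ^ (K + 1) - 1) / (r - 1)) := by
    rw [← geom_sum_eq hr1.ne', Finset.mul_sum]
    exact Finset.sum_congr rfl fun k _ => by rw [pow_succ]; ring
  rw [h1]
  have hrm : 0 < r - 1 := by linarith
  have h2 : r ^ K ≤ F ^ (1 - θ) := by
    rw [hr, ← Real.exp_nat_mul, Real.rpow_def_of_pos (by linarith)]
    refine Real.exp_le_exp.2 ?_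
    have h3 : (K : ℝ) ≤ Real.log F / Real.log 2 :=
      Nat.floor_le (div_nonneg (Real.log_nonneg hF) hl2.le)
    rw [le_div_iff₀ hl2] at h3
    have h4 := mul_le_mul_of_nonneg_right h3 (by linarith : 0 ≤ 1 - θ)
    linarith
  have h3 : r * ((r ^ (K + 1) - 1) / (r - 1)) ≤ r ^ 2 / (r - 1) * r ^ K := by
    rw [mul_div_assoc', div_mul_eq_mul_div, div_le_div_iff_of_pos_right hrm]
    have h4 : r ^ (K + 1) = r ^ K * r := pow_succ _ _
    rw [h4]
    nlinarith [pow_pos (by linarith : 0 < r) K]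
  exact h3.trans (mul_le_mul_of_nonneg_left h2 (div_nonneg (by positivity) hrm.le))

/-- the count in a pencil -/
theorem pencil {M : Type} [Field M] [NumberField M] {q : ℕ} (hq : 1 ≤ q) (P : Fin q → M × M)
    (hne : ∀ j, P j ≠ 0) (hpw : ∀ i j, i ≠ j → (P i).1 * (P j).2 ≠ (P j).1 * (P i).2)
    (S : Finset ℕ) (hS : ∀ p ∈ S, p.Prime) (f : Pl ℚ → AbsoluteValue M ℝ) (hf : ∀ v, Good v (f v))
    (m : Fin 3 → ℚ) (hm : m ≠ 0)
    (κ θ c : ℝ) (hκ : 2 < κ) (hθ1 : θ < 1) (hθκ : θ < κ / 2 - 1) (hc : 0 ≤ c) :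
    ∃ C : ℝ, 0 ≤ C ∧ ∀ (F : ℝ) (E : Finset (Fin 3 → ℤ)), 1 ≤ F →
      (∀ e ∈ E, Prim e ∧ e ≠ 0 ∧ ∑ j, m j * e j = 0 ∧
        (∀ l, dot (Hf P l) (exv M (cz e)) ≠ 0) ∧
        nrm (av (Sum.inl default : Pl ℚ)) (cz e) ≤ F ∧
        κ * Real.log (nrm (av (Sum.inl default : Pl ℚ)) (cz e)) ≤ TT P S hS f e + c) →
      (E.card : ℝ) ≤ C * F ^ (1 - θ) := by
  classical
  obtain ⟨j0, hj0⟩ := Function.ne_iff.1 hm
  obtain ⟨j1, j2, h01, h02, h12⟩ : ∃ j1 j2 : Fin 3, j0 ≠ j1 ∧ j0 ≠ j2 ∧ j1 ≠ j2 := by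
    have : ∀ j0 : Fin 3, ∃ j1 j2 : Fin 3, j0 ≠ j1 ∧ j0 ≠ j2 ∧ j1 ≠ j2 := by decide
    exact this j0
  obtain ⟨C1, hC1, h1⟩ := pencil_or hq P hne hpw S hS f hf j0 j1 j2 h01 h02 h12
    (-(m j1 / m j0)) (-(m j2 / m j0)) κ θ c hκ hθ1 hθκ hc
  obtain ⟨C2, hC2, h2⟩ := pencil_or hq P hne hpw S hS f hf j0 j2 j1 h02 h01 h12.symm
    (-(m j2 / m j0)) (-(m j1 / m j0)) κ θ c hκ hθ1 hθκ hc
  refine ⟨C1 + C2, by positivity, fun F E hF hE => ?_⟩
  have hrel : ∀ e ∈ E, (e j0 : ℚ) = -(m j1 / m j0) * e j1 + -(m j2 / m j0) * e j2 := by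
    intro e he
    have h3 := (hE e he).2.2.1
    rw [sum3 j0 j1 j2 h01 h02 h12] at h3
    have hj0' : m j0 ≠ 0 := hj0
    field_simp
    linear_combination h3
  have k1 := h1 F (E.filter fun e => |e j1| ≤ |e j2|) hF (by
    intro e he
    rw [Finset.mem_filter] at he
    obtain ⟨g1, g2, g3, g4, g5, g6⟩ := hE e he.1
    exact ⟨g1, g2, hrel e he.1, he.2, g4, g5, g6⟩)
  have k2 := h2 F (E.filter fun e => ¬ |e j1| ≤ |e j2|) hF (by
    intro e he
    rw [Finset.mem_filter] at he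
    obtain ⟨g1, g2, g3, g4, g5, g6⟩ := hE e he.1
    refine ⟨g1, g2, ?_, (not_le.1 he.2).le, g4, g5, g6⟩
    rw [hrel e he.1, add_comm])
  have h4 : (E.card : ℝ) = ((E.filter fun e => |e j1| ≤ |e j2|).card : ℝ) +
      ((E.filter fun e => ¬ |e j1| ≤ |e j2|).card : ℝ) := by
    exact_mod_cast (Finset.card_filter_add_card_filter_not _).symm
  rw [h4, add_mul]
  linarith

end Pool.Agent.R405.AQ
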