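import Mathlib
import Pool.Agent.R405.AQ10
import Pool.Agent.W223.VD.Core
import Pool.Agent.W469.CV.MH
import Pool.Agent.W221.ExcLow1

/-!
Irreducible quadratic polynomials and their coefficient vectors.
-/

set_option autoImplicit false
set_option linter.unusedSectionVars false

open Finset

namespace Pool.Agent.R405.AQ

open NumberField IsDedekindDomain Module Height Polynomial IntermediateField
open Pool.Agent.W180.OP (Pl av wt wt_nonneg nrm le_nrm nrm_pos nrm_nonneg exists_nrm)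
open Pool.Agent.H813R3.Voj (mahler one_le_mahler)
open Pool.Agent.H691R3 (hr aff)

/-- the vector of the coefficients -/
def ev (f : ℤ[X]) : Fin 3 → ℤ := ![f.coeff 0, f.coeff 1, f.coeff 2]

theorem cz_ev (f : ℤ[X]) : cz (ev f) = zv (f.coeff 2) (f.coeff 1) (f.coeff 0) := by
  funext j
  fin_cases j <;> simp [cz, ev, zv]

theorem prim_ev {f : ℤ[X]} (hf : Irreducible f) (hd : f.natDegree = 2) : Prim (ev f) := by
  have hprim : f.IsPrimitive := hf.isPrimitive (by omega)
  -- the ideal of the coefficients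
  have hpid : (Ideal.span {f.coeff 0, f.coeff 1, f.coeff 2} : Ideal ℤ).IsPrincipal :=
    IsPrincipalIdealRing.principal _
  obtain ⟨d, hdI⟩ := hpid
  have hmem : ∀ i : Fin 3, d ∣ ev f i := by
    intro i
    rw [← Ideal.mem_span_singleton, ← Ideal.submodule_span_eq, ← hdI]
    refine Ideal.subset_span ?_
    fin_cases i <;> simp [ev]
  have hdu : IsUnit d := by
    refine hprim d ?_
    rw [C_dvd_iff_dvd_coeff]
    intro i
    rcases lt_or_ge i 3 with h | h
    · interval_cases i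
      · exact hmem 0
      · exact hmem 1
      · exact hmem 2
    · rw [coeff_eq_zero_of_natDegree_lt (by omega)]
      exact dvd_zero d
  have hone : (1 : ℤ) ∈ (Ideal.span {f.coeff 0, f.coeff 1, f.coeff 2} : Ideal ℤ) := by
    rw [hdI, Ideal.submodule_span_eq, Ideal.mem_span_singleton]
    exact hdu.dvd
  rw [Ideal.mem_span_insert] at hone
  obtain ⟨u0, w, hw, h1⟩ := hone
  rw [Ideal.mem_span_insert] at hw
  obtain ⟨u1, w', hw', h2⟩ := hw
  rw [Ideal.mem_span_singleton] at hw'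
  obtain ⟨u2, h3⟩ := hw'
  intro v0
  have hle : nrm (av (Sum.inr v0 : Pl ℚ)) (cz (ev f)) ≤ 1 :=
    Pool.Agent.W180.OP.nrm_le zero_le_one fun j => fin_int_le v0 _
  refine le_antisymm hle ?_
  have hna : ∀ a b : ℚ, av (Sum.inr v0 : Pl ℚ) (a + b) ≤
      max (av (Sum.inr v0 : Pl ℚ) a) (av (Sum.inr v0 : Pl ℚ) b) := fun a b =>
    FinitePlace.add_le (FinitePlace.mk v0) a b
  have hj : ∀ (u : ℤ) (j : Fin 3), av (Sum.inr v0 : Pl ℚ) ((u : ℚ) * (ev f j : ℚ)) ≤
      nrm (av (Sum.inr v0 : Pl ℚ)) (cz (ev f)) := by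
    intro u j
    rw [map_mul]
    have h4 := le_nrm (av (Sum.inr v0 : Pl ℚ)) (cz (ev f)) j
    have h5 := fin_int_le v0 u
    have h6 : av (Sum.inr v0 : Pl ℚ) (cz (ev f) j) = av (Sum.inr v0 : Pl ℚ) (ev f j : ℚ) := rfl
    rw [h6] at h4
    exact (mul_le_of_le_one_left ((av _).nonneg _) h5).trans h4
  have h4 : (1 : ℚ) = (u0 : ℚ) * (ev f 0 : ℚ) + ((u1 : ℚ) * (ev f 1 : ℚ) +
      (u2 : ℚ) * (ev f 2 : ℚ)) := by
    have h5 : (1 : ℤ) = u0 * f.coeff 0 + (u1 * f.coeff 1 + u2 * f.coeff 2) := by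
      rw [h1, h2, h3]
      ring
    exact_mod_cast h5
  have h5 : (1 : ℝ) = av (Sum.inr v0 : Pl ℚ) 1 := (map_one _).symm
  rw [h5, h4]
  exact (hna _ _).trans (max_le (hj _ _) ((hna _ _).trans (max_le (hj _ _) (hj _ _))))

theorem ev_ne {f : ℤ[X]} (hd : f.natDegree = 2) : ev f ≠ 0 := by
  intro h
  have h1 := congrFun h 2
  simp only [ev, Matrix.cons_val, Pi.zero_apply] at h1
  have h2 : f ≠ 0 := by
    rintro rfl
    simp at hd
  rw [← hd] at h1
  exact leadingCoeff_ne_zero.2 h2 h1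

theorem lead_ne {f : ℤ[X]} (hd : f.natDegree = 2) : f.coeff 2 ≠ 0 := by
  have h2 : f ≠ 0 := by
    rintro rfl
    simp at hd
  rw [← hd]
  exact leadingCoeff_ne_zero.2 h2

theorem nrm_le_mahler {f : ℤ[X]} (hd : f.natDegree = 2) :
    nrm (av (Sum.inl default : Pl ℚ)) (cz (ev f)) ≤ 2 * mahler f := by
  have hinj : Function.Injective (Int.castRingHom ℂ) := RingHom.injective_int _
  have hdm : (f.map (Int.castRingHom ℂ)).natDegree = 2 := by
    rw [natDegree_map_eq_of_injective hinj, hd]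
  have hM0 : 0 ≤ mahler f := mahlerMeasure_nonneg _
  have h1 : ∀ i : ℕ, i ≤ 2 → |(f.coeff i : ℝ)| ≤ 2 * mahler f := by
    intro i hi
    have h2 := norm_coeff_le_choose_mul_mahlerMeasure i (f.map (Int.castRingHom ℂ))
    rw [hdm, coeff_map] at h2
    have h3 : ‖(Int.castRingHom ℂ) (f.coeff i)‖ = |(f.coeff i : ℝ)| := by
      rw [eq_intCast, Complex.norm_intCast]
    rw [h3] at h2
    have h4 : ((Nat.choose 2 i : ℕ) : ℝ) ≤ 2 := by
      have : Nat.choose 2 i ≤ 2 := by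
        interval_cases i <;> decide
      exact_mod_cast this
    exact h2.trans (mul_le_mul_of_nonneg_right h4 hM0)
  refine Pool.Agent.W180.OP.nrm_le (by positivity) fun j => ?_
  have h6 : av (Sum.inl default : Pl ℚ) (cz (ev f) j) = |(ev f j : ℝ)| := inf_int default _
  rw [h6]
  fin_cases j
  · exact h1 0 (by norm_num)
  · exact h1 1 (by norm_num)
  · exact h1 2 (by norm_num)

theorem mahler_le_nrm {f : ℤ[X]} (hd : f.natDegree = 2) :
    mahler f ≤ 3 * nrm (av (Sum.inl default : Pl ℚ)) (cz (ev f)) := by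
  have hinj : Function.Injective (Int.castRingHom ℂ) := RingHom.injective_int _
  have hdm : (f.map (Int.castRingHom ℂ)).natDegree = 2 := by
    rw [natDegree_map_eq_of_injective hinj, hd]
  have h1 := mahlerMeasure_le_sum_norm_coeff (f.map (Int.castRingHom ℂ))
  rw [sum_over_range _ (fun n => norm_zero), hdm, Finset.sum_range_succ, Finset.sum_range_succ,
    Finset.sum_range_one] at h1
  have h2 : ∀ j : Fin 3, |(ev f j : ℝ)| ≤ nrm (av (Sum.inl default : Pl ℚ)) (cz (ev f)) := by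
    intro j
    have h6 : av (Sum.inl default : Pl ℚ) (cz (ev f) j) = |(ev f j : ℝ)| := inf_int default _
    rw [← h6]
    exact le_nrm _ _ j
  have h3 : ∀ i : ℕ, ‖(f.map (Int.castRingHom ℂ)).coeff i‖ = |(f.coeff i : ℝ)| := by
    intro i
    rw [coeff_map, eq_intCast, Complex.norm_intCast]
  rw [h3, h3, h3] at h1
  have k0 := h2 0
  have k1 := h2 1
  have k2 := h2 2
  have e0 : ev f 0 = f.coeff 0 := rfl
  have e1 : ev f 1 = f.coeff 1 := rfl
  have e2 : ev f 2 = f.coeff 2 := rfl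
  rw [e0] at k0
  rw [e1] at k1
  rw [e2] at k2
  have h4 : mahler f = (f.map (Int.castRingHom ℂ)).mahlerMeasure := rfl
  rw [h4]
  linarith

theorem root_eq {K : Type} [Field K] {f : ℤ[X]} (hd : f.natDegree = 2) {x : K}
    (hx : aeval x f = 0) : (f.coeff 2 : K) * x ^ 2 + (f.coeff 1 : K) * x + (f.coeff 0 : K) = 0 := by
  rw [aeval_eq_sum_range, hd, Finset.sum_range_succ, Finset.sum_range_succ,
    Finset.sum_range_one] at hx
  simp only [zsmul_eq_mul, pow_zero, mul_one, pow_one] at hx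
  linear_combination hx

/-- the data of a quadratic number -/
theorem quad_data {x : ℂ} {f : ℤ[X]} (hf : Irreducible f) (hd : f.natDegree = 2)
    (hx : aeval x f = 0) (K0 : IntermediateField ℚ ℂ) (hK0 : ℚ⟮x⟯ = K0) (hxK : x ∈ K0) :
    NumberField K0 ∧ finrank ℚ K0 = 2 ∧ aeval (⟨x, hxK⟩ : K0) f = 0 ∧
      (∀ r : ℚ, (⟨x, hxK⟩ : K0) ≠ algebraMap ℚ K0 r) := by
  obtain ⟨h1, h2⟩ := Pool.Agent.W223.VD.field_data (by norm_num) hf hd hx
  subst hK0
  refine ⟨h1, h2, ?_, ?_⟩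
  · have h9 : (aeval (⟨x, hxK⟩ : ℚ⟮x⟯) f : ℚ⟮x⟯).1 = 0 := by
      have := aeval_algebraMap_apply ℂ (⟨x, hxK⟩ : ℚ⟮x⟯) f
      have h10 : algebraMap ℚ⟮x⟯ ℂ (⟨x, hxK⟩ : ℚ⟮x⟯) = x := rfl
      rw [h10, hx] at this
      exact this.symm
    exact Subtype.ext h9
  · intro r hr
    have h3 : x = algebraMap ℚ ℂ r := congrArg Subtype.val hr
    have h4 : ℚ⟮x⟯ = ⊥ := by
      rw [IntermediateField.adjoin_simple_eq_bot_iff, h3]
      exact IntermediateField.algebraMap_mem _ r
    rw [h4, IntermediateField.finrank_bot] at h2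
    omega

theorem hr_le {K : Type} [Field K] [NumberField K] (hK : finrank ℚ K = 2) {x : K} {f : ℤ[X]}
    (hf : Irreducible f) (hd : f.natDegree = 2) (hx : aeval x f = 0) :
    hr (aff x) ≤ Real.log (mahler f) := by
  rw [Pool.Agent.W221.Exc.hr_aff_eq]
  have h3 := Pool.Agent.W469.CV.MH.t K x f hf (by omega) hx
  rw [hd, hK] at h3
  have h6 : (((2 : ℕ) : ℝ)) * (Real.log (mahler f) / ((2 : ℕ) : ℝ)) = Real.log (mahler f) := by
    push_cast
    ring
  rw [h6] at h3
  exact h3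

end Pool.Agent.R405.AQ
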