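import Mathlib
import Pool.Agent.R405.AQ11
import Pool.Agent.W223.VD.FC
import Pool.Agent.W32.VD.FC1
import Pool.Agent.W500.VD.FC2

/-!
The points whose fields have small discriminants.
-/

set_option autoImplicit false
set_option linter.unusedSectionVars false

open Finset

namespace Pool.Agent.R405.AQ

open NumberField IsDedekindDomain Module Height Polynomial IntermediateField
open Pool.Agent.W180.OP (Pl av wt wt_nonneg nrm le_nrm nrm_pos nrm_nonneg exists_nrm)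
open Pool.Agent.H813R3.Voj (mahler one_le_mahler)
open Pool.Agent.H691R3 (hr aff)
open Pool.Agent.W223.VD (FieldExp Flds logDisc mem_flds)

theorem fieldExp_two : FieldExp 2 1 := by
  have h := Pool.Agent.W223.VD.fc Pool.Agent.W32.VD.t Pool.Agent.W500.VD.FC2.t 2 (by norm_num)
  have h2 : Pool.Agent.W223.VD.al 2 = 1 := by
    unfold Pool.Agent.W223.VD.al
    norm_num
  rwa [h2] at h

theorem exists_N (K0 M : IntermediateField ℚ ℂ) [NumberField K0] [NumberField M] :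
    ∃ (N : Type) (_ : Field N) (_ : NumberField N) (_ : Algebra K0 N), Nonempty (M →+* N) := by
  have : FiniteDimensional ℚ (K0 ⊔ M : IntermediateField ℚ ℂ) := inferInstance
  refine ⟨(K0 ⊔ M : IntermediateField ℚ ℂ), inferInstance, ⟨⟩,
    (IntermediateField.inclusion (le_sup_left : K0 ≤ K0 ⊔ M)).toRingHom.toAlgebra,
    ⟨(IntermediateField.inclusion (le_sup_right : M ≤ K0 ⊔ M)).toRingHom⟩⟩

theorem count_log {δ : ℝ} (hδ : 0 < δ) {B : ℝ} (hB : 1 ≤ B) :
    1 + Real.log (1 + 2 * Real.log B) ≤ (1 + 2 / δ) * B ^ δ := by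
  have hL : 0 ≤ Real.log B := Real.log_nonneg hB
  have h1 : Real.log (1 + 2 * Real.log B) ≤ 2 * Real.log B := by
    have := Real.log_le_sub_one_of_pos (show 0 < 1 + 2 * Real.log B by positivity)
    linarith
  have h2 : Real.log B ≤ B ^ δ / δ := Real.log_le_rpow_div (by linarith) hδ
  have h3 : (1 : ℝ) ≤ B ^ δ := Real.one_le_rpow hB hδ.le
  have e : (1 + 2 / δ) * B ^ δ = B ^ δ + 2 * (B ^ δ / δ) := by ring
  rw [e]
  linarith

theorem fields_count {M : IntermediateField ℚ ℂ} [NumberField M] {q : ℕ} (hq : 1 ≤ q)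
    (D : Div M q) (S : Finset ℕ) (hS : ∀ p ∈ S, p.Prime) (κ c : ℝ) (hκ : 2 < κ) (hc : 0 ≤ c) :
    ∃ L₀ : ℝ, 0 ≤ L₀ ∧ ∀ y c' δ : ℝ, 0 ≤ y → 0 ≤ c' → 0 < δ → ∃ C : ℝ, 0 ≤ C ∧
      ∀ (B : ℝ) (E : Finset ℂ), 1 ≤ B →
      (∀ x ∈ E, ∃ f : ℤ[X], Irreducible f ∧ f.natDegree = 2 ∧ aeval x f = 0 ∧ aeval x D.g ≠ 0 ∧
        L₀ ≤ Real.log (mahler f) ∧ Real.log (mahler f) ≤ 2 * Real.log B ∧
        2 * logDisc x ≤ 2 * y * Real.log B + c' ∧
        ∀ (K0 : IntermediateField ℚ ℂ) (_ : NumberField K0), ℚ⟮x⟯ = K0 → ∀ hx : x ∈ K0,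
          κ * Real.log (mahler f) ≤ Tot D.g q S (⟨x, hx⟩ : K0) + c) →
      (E.card : ℝ) ≤ C * B ^ (2 * y + δ) := by
  classical
  obtain ⟨L₀, Cf, hL₀, hCf, hPF⟩ := perField hq D S hS (min κ 3) c (lt_min hκ (by norm_num))
    (min_le_right _ _) hc
  refine ⟨L₀, hL₀, ?_⟩
  intro y c' δ hy hc' hδ
  obtain ⟨C1, hC1, hF1⟩ := fieldExp_two
  refine ⟨C1 * Real.exp c' * (Cf + 1) * (1 + 2 / δ), by positivity, fun B E hB hE => ?_⟩
  have hB0 : 0 < B := by linarith
  have hL : 0 ≤ Real.log B := Real.log_nonneg hB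
  choose! fx hfx using hE
  -- the fields
  set Δ : ℝ := Real.exp (2 * y * Real.log B + c') with hΔ
  have hΔ1 : 1 ≤ Δ := Real.one_le_exp (by positivity)
  obtain ⟨hFfin, hFcard⟩ := hF1 Δ hΔ1
  rw [Real.rpow_one] at hFcard
  have hfields : ((E.image fun x => ℚ⟮x⟯).card : ℝ) ≤ C1 * Δ := by
    refine le_trans ?_ hFcard
    rw [← Set.ncard_coe_finset]
    have hsub : ((E.image fun x => ℚ⟮x⟯ : Finset (IntermediateField ℚ ℂ)) :
        Set (IntermediateField ℚ ℂ)) ⊆ Flds 2 Δ := by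
      intro K hK
      rw [Finset.mem_coe] at hK
      obtain ⟨x, hx, rfl⟩ := Finset.mem_image.mp hK
      obtain ⟨g1, g2, g3, g4, g5, g6, g7, g8⟩ := hfx x hx
      exact mem_flds (by norm_num) g1 g2 g3 (by exact_mod_cast g7)
    exact_mod_cast Set.ncard_le_ncard hsub hFfin
  -- the fibres
  set H : ℝ := 1 + 2 * Real.log B with hH
  have hH1 : 1 ≤ H := by
    rw [hH]
    linarith
  have hlogH : 0 ≤ Real.log H := Real.log_nonneg hH1
  have hfib : ∀ K0 ∈ E.image (fun x => ℚ⟮x⟯),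
      ((E.filter fun x => ℚ⟮x⟯ = K0).card : ℝ) ≤ Cf * (1 + Real.log H) := by
    intro K0 hK0
    obtain ⟨x₀, hx₀, rfl⟩ := Finset.mem_image.mp hK0
    obtain ⟨g1, g2, g3, -, -, -, -, -⟩ := hfx x₀ hx₀
    obtain ⟨hNF, hfr⟩ := Pool.Agent.W223.VD.field_data (by norm_num) g1 g2 g3
    have hmem : ∀ x ∈ E.filter (fun x => ℚ⟮x⟯ = ℚ⟮x₀⟯), x ∈ ℚ⟮x₀⟯ := by
      intro x hx
      rw [Finset.mem_filter] at hx
      rw [← hx.2]
      exact mem_adjoin_simple_self ℚ x
    have hcard : (E.filter fun x => ℚ⟮x⟯ = ℚ⟮x₀⟯).card =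
        ((E.filter fun x => ℚ⟮x⟯ = ℚ⟮x₀⟯).subtype (fun x => x ∈ ℚ⟮x₀⟯)).card := by
      rw [Finset.card_subtype, Finset.filter_true_of_mem hmem]
    rw [hcard]
    obtain ⟨N, _, _, _, ⟨i⟩⟩ := exists_N ℚ⟮x₀⟯ M
    refine hPF ℚ⟮x₀⟯ N i hfr (fun y => Real.log (mahler (fx (y : ℂ)))) H _ hH1 ?_
    rintro ⟨x, hx⟩ hxE
    rw [Finset.mem_subtype] at hxE
    have hxE' := Finset.mem_filter.1 hxE
    obtain ⟨k1, k2, k3, k4, k5, k6, k7, k8⟩ := hfx x hxE'.1
    obtain ⟨-, -, m3, m4⟩ := quad_data k1 k2 k3 ℚ⟮x₀⟯ hxE'.2 hx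
    have hlm : 0 ≤ Real.log (mahler (fx x)) := hL₀.trans k5
    refine ⟨?_, hr_le hfr k1 k2 m3, k5, ?_, ?_⟩
    · intro h0
      apply k4
      have h9 := aeval_algebraMap_apply ℂ (⟨x, hx⟩ : ℚ⟮x₀⟯) D.g
      rw [h0, map_zero] at h9
      exact h9
    · rw [hH]
      show Real.log (mahler (fx x)) ≤ _
      linarith
    · exact (mul_le_mul_of_nonneg_right (min_le_left _ _) hlm).trans (k8 _ hNF hxE'.2 hx)
  have hcardE : (E.card : ℝ) ≤ ((E.image fun x => ℚ⟮x⟯).card : ℝ) * (Cf * (1 + Real.log H)) := by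
    have h1 : (E.card : ℝ) = ∑ K0 ∈ E.image (fun x => ℚ⟮x⟯),
        ((E.filter fun x => ℚ⟮x⟯ = K0).card : ℝ) := by
      exact_mod_cast Finset.card_eq_sum_card_image (fun x => ℚ⟮x⟯) E
    rw [h1]
    refine (Finset.sum_le_sum hfib).trans ?_
    rw [Finset.sum_const, nsmul_eq_mul]
  have e1 : Δ = Real.exp c' * B ^ (2 * y) := by
    rw [hΔ, Real.rpow_def_of_pos hB0, ← Real.exp_add]
    congr 1
    ring
  have e2 := count_log hδ hB
  rw [← hH] at e2
  calc (E.card : ℝ) ≤ ((E.image fun x => ℚ⟮x⟯).card : ℝ) * (Cf * (1 + Real.log H)) := hcardE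
    _ ≤ (C1 * Δ) * ((Cf + 1) * ((1 + 2 / δ) * B ^ δ)) := by
        refine mul_le_mul hfields ?_ (by positivity) (by positivity)
        refine mul_le_mul (by linarith) e2 (by positivity) (by linarith)
    _ = _ := by
        rw [e1, Real.rpow_add hB0]
        ring

/-- a vector belongs to at most two numbers, up to sign -/
theorem fiber_two (E : Finset ℂ) (fx : ℂ → ℤ[X]) (hfx : ∀ x ∈ E, (fx x).natDegree = 2 ∧
    aeval x (fx x) = 0) : E.card ≤ 2 * (E.image fun x => ev (fx x)).card := by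
  classical
  refine Finset.card_le_mul_card_image E 2 ?_
  intro e he
  obtain ⟨x0, hx0, rfl⟩ := Finset.mem_image.1 he
  obtain ⟨h1, h2⟩ := hfx x0 hx0
  have hinj : Function.Injective (Int.castRingHom ℂ) := RingHom.injective_int _
  have h0 : (fx x0).map (Int.castRingHom ℂ) ≠ 0 := by
    rw [Polynomial.map_ne_zero_iff hinj]
    rintro h
    rw [h] at h1
    simp at h1
  have hsub : (E.filter fun x => ev (fx x) = ev (fx x0)) ⊆
      ((fx x0).map (Int.castRingHom ℂ)).roots.toFinset := by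
    intro x hx
    rw [Finset.mem_filter] at hx
    obtain ⟨h3, h4⟩ := hfx x hx.1
    have h5 : fx x = fx x0 := by
      ext i
      rcases lt_or_ge i 3 with h | h
      · interval_cases i
        · exact congrFun hx.2 0
        · exact congrFun hx.2 1
        · exact congrFun hx.2 2
      · rw [coeff_eq_zero_of_natDegree_lt (by omega), coeff_eq_zero_of_natDegree_lt (by omega)]
    rw [Multiset.mem_toFinset, mem_roots h0, IsRoot.def, eval_map, ← h5]
    rw [aeval_def] at h4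
    exact h4
  refine (Finset.card_le_card hsub).trans ((Multiset.toFinset_card_le _).trans ?_)
  refine (card_roots' _).trans ?_
  rw [natDegree_map_eq_of_injective hinj, h1]

end Pool.Agent.R405.AQ
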