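import Mathlib
import Pool.Agent.R405.AQ12

/-!
The divisor of a squarefree polynomial.
-/

set_option autoImplicit false
set_option linter.unusedSectionVars false

open Finset

namespace Pool.Agent.R405.AQ

open NumberField Module Polynomial

theorem exists_div (g : ℤ[X]) (hg : Squarefree (g.map (Int.castRingHom ℚ))) (q : ℕ)
    (hq : q = g.natDegree ∨ q = g.natDegree + 1) :
    ∃ (M : IntermediateField ℚ ℂ) (_ : NumberField M) (_ : IsGalois ℚ M)
      (_ : ∃ z : M, z ^ 2 = -1) (D : Div M q), D.g = g := by
  classical
  have hinj : Function.Injective (Int.castRingHom ℂ) := RingHom.injective_int _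
  have hg0 : g ≠ 0 := by
    rintro rfl
    rw [Polynomial.map_zero] at hg
    exact hg.ne_zero rfl
  have hsep : (g.map (Int.castRingHom ℚ)).Separable := PerfectField.separable_iff_squarefree.2 hg
  have hsepC : (g.map (Int.castRingHom ℂ)).Separable := by
    have h1 := hsep.map (f := algebraMap ℚ ℂ)
    rw [Polynomial.map_map] at h1
    have h2 : (algebraMap ℚ ℂ).comp (Int.castRingHom ℚ) = Int.castRingHom ℂ :=
      RingHom.ext_int _ _
    rwa [h2] at h1
  set s := (g.map (Int.castRingHom ℂ)).roots with hs
  have hnd : s.Nodup := nodup_roots hsepC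
  have hcard : Multiset.card s = g.natDegree := by
    rw [hs, splits_iff_card_roots.1 (IsAlgClosed.splits _), natDegree_map_eq_of_injective hinj]
  set n := g.natDegree with hn
  have hcard2 : s.toFinset.card = n := by
    rw [Multiset.toFinset_card_of_nodup hnd, hcard]
  let e := s.toFinset.equivFinOfCardEq hcard2
  set θ : Fin n → ℂ := fun j => ((e.symm j : s.toFinset) : ℂ) with hθ
  have hθinj : Function.Injective θ := fun a b hab => e.symm.injective (Subtype.ext hab)
  have hθmem : ∀ j, θ j ∈ s.toFinset := fun j => (e.symm j).2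
  have hfacC : g.map (Int.castRingHom ℂ) = C ((g.leadingCoeff : ℤ) : ℂ) *
      ∏ j, (X - C (θ j)) := by
    have h1 := (IsAlgClosed.splits (g.map (Int.castRingHom ℂ))).eq_prod_roots
    have h2 : ((g.map (Int.castRingHom ℂ)).roots.map fun y => X - C y).prod =
        ∏ j, (X - C (θ j)) := by
      have h3 : ∏ y ∈ s.toFinset, (X - C y) = (s.map fun y => X - C y).prod := by
        rw [Finset.prod_eq_multiset_prod, Multiset.toFinset_val, hnd.dedup]
      rw [← hs, ← h3, ← Finset.prod_coe_sort s.toFinset (fun y => X - C y),
        ← Equiv.prod_comp e.symm]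
    rw [h2, leadingCoeff_map_of_injective hinj] at h1
    exact h1
  obtain ⟨M, hfd, hnorm, hM⟩ := Pool.Agent.TH286.GT.GrowD.exists_field
    (insert Complex.I s.toFinset) (by
      intro x hx
      rcases Finset.mem_insert.1 hx with rfl | hx
      · refine ⟨Polynomial.X ^ 2 + 1, ?_, by simp⟩
        intro h
        have := congrArg (Polynomial.eval 1) h
        norm_num at this
      · rw [Multiset.mem_toFinset, hs, mem_roots (by
          rwa [Polynomial.map_ne_zero_iff hinj]), IsRoot.def, eval_map] at hx
        refine ⟨g.map (Int.castRingHom ℚ), hg.ne_zero, ?_⟩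
        rw [aeval_def, eval₂_map]
        have h2 : (algebraMap ℚ ℂ).comp (Int.castRingHom ℚ) = Int.castRingHom ℂ :=
          RingHom.ext_int _ _
        rw [h2]
        exact hx)
  have : NumberField M := ⟨⟩
  have hGal : IsGalois ℚ M := ⟨⟩
  have hi : ∃ z : M, z ^ 2 = -1 := by
    refine ⟨⟨Complex.I, hM _ (Finset.mem_insert_self _ _)⟩, ?_⟩
    apply Subtype.ext
    show Complex.I ^ 2 = -1
    exact Complex.I_sq
  set θM : Fin n → M := fun j => ⟨θ j, hM _ (Finset.mem_insert_of_mem (hθmem j))⟩ with hθM
  have hθMinj : Function.Injective θM := fun a b hab => by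
    have h1 : ((θM a : M) : ℂ) = ((θM b : M) : ℂ) := by rw [hab]
    exact hθinj h1
  set γ : M := ((g.leadingCoeff : ℤ) : M) * (-1) ^ n with hγ
  have hγ0 : γ ≠ 0 := mul_ne_zero (Int.cast_ne_zero.2 (leadingCoeff_ne_zero.2 hg0))
    (pow_ne_zero _ (by norm_num))
  have hfacM : g.map (Int.castRingHom M) = C γ * ∏ j, (C (θM j) - X * C (1 : M)) := by
    apply Polynomial.map_injective (algebraMap M ℂ) (algebraMap M ℂ).injective
    rw [Polynomial.map_map]
    have h2 : (algebraMap M ℂ).comp (Int.castRingHom M) = Int.castRingHom ℂ :=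
      RingHom.ext_int _ _
    rw [h2, hfacC, Polynomial.map_mul, Polynomial.map_prod, map_C]
    have h3 : ∀ j, (C (θM j) - X * C (1 : M)).map (algebraMap M ℂ) = (-1) * (X - C (θ j)) := by
      intro j
      rw [Polynomial.map_sub, Polynomial.map_mul, map_C, map_C, Polynomial.map_X, map_one]
      have h4 : algebraMap M ℂ (θM j) = θ j := rfl
      rw [h4, map_one]
      ring
    rw [Finset.prod_congr rfl fun j _ => h3 j, Finset.prod_mul_distrib, Finset.prod_const,
      Finset.card_univ, Fintype.card_fin, ← mul_assoc]
    congr 1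
    rw [hγ, map_mul, map_pow, map_neg, map_one, map_intCast, C_mul, C_pow, C_neg, C_1, mul_assoc,
      ← mul_pow]
    norm_num
  refine ⟨M, inferInstance, hGal, hi, ?_⟩
  rcases hq with rfl | rfl
  · refine ⟨⟨fun j => (θM j, 1), γ, g, ?_, ?_, hγ0, hfacM⟩, rfl⟩
    · intro j h
      have := congrArg Prod.snd h
      simp at this
    · intro i j hij h
      apply hij
      apply hθMinj
      simpa using h
  · refine ⟨⟨Fin.cons (1, 0) fun j => (θM j, 1), γ, g, ?_, ?_, hγ0, ?_⟩, rfl⟩
    · intro j
      refine Fin.cases ?_ (fun j => ?_) j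
      · intro h
        have := congrArg Prod.fst h
        simp at this
      · intro h
        have := congrArg Prod.snd h
        simp at this
    · intro i j
      refine Fin.cases ?_ (fun i => ?_) i <;> refine Fin.cases ?_ (fun j => ?_) j
      · intro h
        exact absurd rfl h
      · intro _
        simp
      · intro _
        simp
      · intro hij h
        apply hij
        congr 1
        apply hθMinj
        simpa using h
    · rw [hfacM, Fin.prod_univ_succ]
      simp

end Pool.Agent.R405.AQ
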