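import Mathlib
import Pool.Agent.R405.AQ12

/-!
The count of the exceptional quadratic numbers.
-/

set_option autoImplicit false
set_option linter.unusedSectionVars false

open Finset

namespace Pool.Agent.R405.AQ

open NumberField IsDedekindDomain Module Height Polynomial IntermediateField
open Pool.Agent.W180.OP (Pl av wt wt_nonneg nrm le_nrm nrm_pos nrm_nonneg exists_nrm)
open Pool.Agent.H813R3.Voj (mahler one_le_mahler)
open Pool.Agent.H691R3 (hr aff)
open Pool.Agent.W223.VD (FieldExp Flds logDisc mem_flds logDisc_nonneg)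

/-- the values of the form are different from zero -/
theorem fm_ne {M : Type} [Field M] [NumberField M] {K N : Type} [Field K] [NumberField K]
    [Field N] [NumberField N] [Algebra K N] {q : ℕ} (i : M →+* N) (D : Div M q)
    (hK : finrank ℚ K = 2) (a b c : ℤ) (ha : a ≠ 0) (x : K)
    (hx : (a : K) * x ^ 2 + b * x + c = 0) (hxr : ∀ r : ℚ, x ≠ algebraMap ℚ K r)
    (hgx : aeval x D.g ≠ 0) (l : Fin q) : fm a b c (D.P l) ≠ 0 := by
  obtain ⟨σ, hσ⟩ := Pool.Agent.Y734.BR.exists_cj (L := K) (by rw [hK])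
  have hne : x ≠ σ x := by
    intro h0
    obtain ⟨r, hr⟩ := hσ.rat h0.symm
    exact hxr r hr.symm
  have haQ : (a : ℚ) ≠ 0 := Int.cast_ne_zero.2 ha
  have hgs : σ (aeval x D.g) = aeval (σ x) D.g := (aeval_algHom_apply
    ((σ : K →ₐ[ℚ] K).restrictScalars ℤ) x D.g).symm
  have hgy : aeval (σ x) D.g ≠ 0 := by
    rw [← hgs]
    exact (map_ne_zero σ).2 hgx
  obtain ⟨r, hr, hrM⟩ := resultant i D hσ a b c x hx hne
  have hr0 : r ≠ 0 := by
    rintro rfl
    rw [map_zero] at hr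
    exact mul_ne_zero hgx hgy hr.symm
  intro h0
  have h5 : algebraMap ℚ M ((a : ℚ) ^ q * r) = 0 := by
    rw [hrM, Finset.prod_eq_zero (Finset.mem_univ l) h0, mul_zero]
  rw [map_eq_zero] at h5
  exact mul_ne_zero (pow_ne_zero _ haQ) hr0 h5

/-- the facts about one quadratic number -/
theorem facts {M : IntermediateField ℚ ℂ} [NumberField M] {q : ℕ} (D : Div M q)
    (S : Finset ℕ) (hS : ∀ p ∈ S, p.Prime) (f : Pl ℚ → AbsoluteValue M ℝ)
    (hf : ∀ v, Good v (f v)) : ∃ C : ℝ, 0 ≤ C ∧ ∀ (x : ℂ) (F : ℤ[X]), Irreducible F →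
      F.natDegree = 2 → aeval x F = 0 → aeval x D.g ≠ 0 →
      (∀ l, dot (Hf D.P l) (exv M (cz (ev F))) ≠ 0) ∧
      ∀ (K0 : IntermediateField ℚ ℂ) (_ : NumberField K0), ℚ⟮x⟯ = K0 → ∀ hx : x ∈ K0,
        Tot D.g q S (⟨x, hx⟩ : K0) ≤ TT D.P S hS f (ev F) + C := by
  obtain ⟨C, hC, hlink⟩ := link D S hS f hf
  refine ⟨C, hC, fun x F h1 h2 h3 h4 => ?_⟩
  have key : ∀ (K0 : IntermediateField ℚ ℂ) (_ : NumberField K0), ℚ⟮x⟯ = K0 → ∀ hx : x ∈ K0,
      (∀ l, dot (Hf D.P l) (exv M (cz (ev F))) ≠ 0) ∧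
        Tot D.g q S (⟨x, hx⟩ : K0) ≤ TT D.P S hS f (ev F) + C := by
    intro K0 hNF hK0 hx
    obtain ⟨-, m2, m3, m4⟩ := quad_data h1 h2 h3 K0 hK0 hx
    obtain ⟨N, _, _, _, ⟨i⟩⟩ := exists_N K0 M
    have hg : aeval (⟨x, hx⟩ : K0) D.g ≠ 0 := by
      intro h0
      apply h4
      have h9 := aeval_algebraMap_apply ℂ (⟨x, hx⟩ : K0) D.g
      rw [h0, map_zero] at h9
      exact h9
    have hroot := root_eq h2 m3
    have hprim : ∀ v0 : HeightOneSpectrum (𝓞 ℚ), nrm (av (Sum.inr v0 : Pl ℚ))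
        (zv (F.coeff 2) (F.coeff 1) (F.coeff 0)) = 1 := by
      intro v0
      rw [← cz_ev]
      exact prim_ev h1 h2 v0
    refine ⟨fun l => ?_, ?_⟩
    · rw [cz_ev, dot_eq]
      exact fm_ne i D m2 _ _ _ (lead_ne h2) _ hroot m4 hg l
    · refine (hlink K0 N i m2 _ _ _ (lead_ne h2) hprim _ hroot m4 hg).trans (le_of_eq ?_)
      congr 1
      unfold TT
      refine Finset.sum_congr rfl fun v _ => ?_
      rw [wt_one, one_mul]
      refine Finset.sum_congr rfl fun l _ => ?_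
      rw [cz_ev, dot_eq]
  obtain ⟨hNF, -⟩ := Pool.Agent.W223.VD.field_data (by norm_num) h1 h2 h3
  exact ⟨(key ℚ⟮x⟯ hNF rfl (mem_adjoin_simple_self ℚ x)).1,
    fun K0 hNF hK0 hx => (key K0 hNF hK0 hx).2⟩

/-- the inequality outside finitely many pencils -/
theorem off {M : IntermediateField ℚ ℂ} [NumberField M] [IsGalois ℚ M]
    (hi : ∃ z : M, z ^ 2 = -1) {q : ℕ} (D : Div M q) :
    ∃ Z : Finset (Fin 3 → ℚ), (∀ m ∈ Z, m ≠ 0) ∧ ∀ (S : Finset ℕ), (∀ p ∈ S, p.Prime) →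
      ∀ ε : ℝ, 0 < ε → ∃ C : ℝ, 0 ≤ C ∧ ∀ (x : ℂ) (F : ℤ[X]), Irreducible F →
      F.natDegree = 2 → aeval x F = 0 → aeval x D.g ≠ 0 →
      (∀ m ∈ Z, ∑ j, m j * (ev F j : ℚ) ≠ 0) →
      ∀ (K0 : IntermediateField ℚ ℂ) (_ : NumberField K0), ℚ⟮x⟯ = K0 → ∀ hx : x ∈ K0,
        Tot D.g q S (⟨x, hx⟩ : K0) ≤ (3 + ε) * Real.log (mahler F) + C := by
  obtain ⟨Z, hZ, -, hmain⟩ := schS 3 (by norm_num) q hi (Hf D.P) (gen_pos D.P D.ne D.pw 2)
  refine ⟨Z, hZ, fun S hS ε hε => ?_⟩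
  choose f hf using fun v : Pl ℚ => exists_good (K := M) v
  obtain ⟨C1, hC1, h1⟩ := hmain (T0 S hS) f (fun v _ => hf v) ε hε
  obtain ⟨C2, hC2, h2⟩ := facts D S hS f hf
  have hl2 : 0 ≤ Real.log 2 := Real.log_nonneg (by norm_num)
  refine ⟨(3 + ε) * Real.log 2 + C1 + C2, by positivity, ?_⟩
  intro x F g1 g2 g3 g4 g5 K0 hNF hK0 hx
  have h3 := (h2 x F g1 g2 g3 g4).2 K0 hNF hK0 hx
  have hcz0 : cz (ev F) ≠ 0 := by
    intro h0
    apply ev_ne g2
    funext j
    have := congrFun h0 j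
    simpa [cz] using this
  have h4 := h1 (cz (ev F)) hcz0 g5
  have h5 : ∑ v ∈ T0 S hS, wt v * ∑ l, (Real.log (nrm (av v) (cz (ev F))) -
      Real.log (f v (dot (Hf D.P l) (exv M (cz (ev F)))))) = TT D.P S hS f (ev F) := by
    unfold TT
    refine Finset.sum_congr rfl fun v _ => ?_
    rw [wt_one, one_mul]
  rw [h5] at h4
  have h6 := Pool.Agent.R405.IQ.height_int (ev F) hcz0 default
  have h7 := nrm_le_mahler g2
  have hn := nrm_ge_one (ev_ne g2)
  have hM : 0 < mahler F := lt_of_lt_of_le one_pos (one_le_mahler g1.ne_zero)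
  have h8 : Real.log (nrm (av (Sum.inl default : Pl ℚ)) (cz (ev F))) ≤
      Real.log 2 + Real.log (mahler F) := by
    rw [← Real.log_mul (by norm_num) hM.ne']
    exact Real.log_le_log (by linarith) h7
  have h9 : logHeight (cz (ev F)) ≤ Real.log 2 + Real.log (mahler F) := h6.trans h8
  have h10 : ((3 : ℕ) + ε) * logHeight (cz (ev F)) ≤ ((3 : ℕ) + ε) *
      (Real.log 2 + Real.log (mahler F)) := mul_le_mul_of_nonneg_left h9 (by positivity)
  push_cast at h10 h4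
  linarith

/-- the count -/
theorem main_count {M : IntermediateField ℚ ℂ} [NumberField M] [IsGalois ℚ M]
    (hi : ∃ z : M, z ^ 2 = -1) {q : ℕ} (hq : 1 ≤ q) (D : Div M q) (S : Finset ℕ)
    (hS : ∀ p ∈ S, p.Prime) (κ c δ : ℝ) (hκ2 : 2 < κ) (hκ4 : κ < 4) (hc : 0 ≤ c) (hδ : 0 < δ) :
    ∃ C : ℝ, 0 ≤ C ∧ ∀ (B : ℝ) (E : Finset ℂ), 1 ≤ B →
      (∀ x ∈ E, ∃ F : ℤ[X], Irreducible F ∧ F.natDegree = 2 ∧ aeval x F = 0 ∧ aeval x D.g ≠ 0 ∧
        Real.log (mahler F) ≤ 2 * Real.log B ∧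
        ∀ (K0 : IntermediateField ℚ ℂ) (_ : NumberField K0), ℚ⟮x⟯ = K0 → ∀ hx : x ∈ K0,
          κ * Real.log (mahler F) + 2 * logDisc x ≤ Tot D.g q S (⟨x, hx⟩ : K0) + c) →
      (E.card : ℝ) ≤ C * B ^ (max (2 * (3 - κ)) (2 * (4 - κ) / 3) + δ) := by
  classical
  obtain ⟨Z, hZ, hoff⟩ := off hi D
  obtain ⟨C1, hC1, hoff⟩ := hoff S hS (δ / 8) (by positivity)
  choose f hf using fun v : Pl ℚ => exists_good (K := M) v
  obtain ⟨C2, hC2, hfacts⟩ := facts D S hS f hf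
  obtain ⟨L₀, hL₀, hfields⟩ := fields_count hq D S hS κ c hκ2 hc
  set y1 : ℝ := max (3 - κ + δ / 8) 0 with hy1
  set y2 : ℝ := (4 - κ) / 3 with hy2
  set y : ℝ := max y1 y2 with hy
  have hy20 : 0 < y2 := by rw [hy2]; linarith
  have hy0 : 0 ≤ y := (le_max_right _ _).trans' hy20.le
  set c' : ℝ := C1 + c with hc'
  obtain ⟨C3, hC3, hfields⟩ := hfields y c' (δ / 2) hy0 (by positivity) (by positivity)
  have hl2 : 0 ≤ Real.log 2 := Real.log_nonneg (by norm_num)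
  set c'' : ℝ := (κ + y2) * Real.log 2 + C2 + c with hc''
  have hc''0 : 0 ≤ c'' := by
    have : 0 ≤ κ + y2 := by linarith
    positivity
  have hpen : ∀ m : Fin 3 → ℚ, ∃ C : ℝ, 0 ≤ C ∧ (m ≠ 0 → ∀ (F : ℝ) (E : Finset (Fin 3 → ℤ)),
      1 ≤ F → (∀ e ∈ E, Prim e ∧ e ≠ 0 ∧ ∑ j, m j * e j = 0 ∧
        (∀ l, dot (Hf D.P l) (exv M (cz e)) ≠ 0) ∧
        nrm (av (Sum.inl default : Pl ℚ)) (cz e) ≤ F ∧
        (κ + y2) * Real.log (nrm (av (Sum.inl default : Pl ℚ)) (cz e)) ≤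
          TT D.P S hS f e + c'') →
      (E.card : ℝ) ≤ C * F ^ (y2 + δ / 8)) := by
    intro m
    by_cases hm : m ≠ 0
    · obtain ⟨C, hC, h⟩ := pencil hq D.P D.ne D.pw S hS f hf m hm (κ + y2) (1 - (y2 + δ / 8)) c''
        (by linarith) (by linarith) (by rw [hy2]; linarith) hc''0
      refine ⟨C, hC, fun _ F E hF hE => ?_⟩
      have := h F E hF hE
      rwa [sub_sub_cancel] at this
    · exact ⟨0, le_rfl, fun h => absurd h hm⟩
  choose Cm hCm0 hCm using hpen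
  -- the small ones
  set R : ℤ := ⌈2 * Real.exp L₀⌉ with hR
  set Box : Finset (Fin 3 → ℤ) := Fintype.piFinset fun _ => Finset.Icc (-R) R with hBox
  set C4 : ℝ := 2 * (Box.card : ℝ) + C3 + 2 * (∑ m ∈ Z, Cm m) * 2 ^ (y2 + δ / 8) with hC4
  have hCs : 0 ≤ ∑ m ∈ Z, Cm m := Finset.sum_nonneg fun m _ => hCm0 m
  refine ⟨C4, by positivity, fun B E hB hE => ?_⟩
  have hB0 : 0 < B := by linarith
  have hLB : 0 ≤ Real.log B := Real.log_nonneg hB
  choose! fx hfx using hE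
  set ex : ℝ := max (2 * (3 - κ)) (2 * (4 - κ) / 3) + δ with hex
  -- the three parts
  set E1 := E.filter fun x => Real.log (mahler (fx x)) < L₀ with hE1
  set E2 := E.filter fun x => L₀ ≤ Real.log (mahler (fx x)) ∧
    2 * logDisc x ≤ 2 * y * Real.log B + c' with hE2
  set E3 := E.filter fun x => 2 * y * Real.log B + c' < 2 * logDisc x with hE3
  have hcov : E ⊆ E1 ∪ (E2 ∪ E3) := by
    intro x hx
    rw [Finset.mem_union, Finset.mem_union, hE1, hE2, hE3, Finset.mem_filter, Finset.mem_filter,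
      Finset.mem_filter]
    rcases lt_or_ge (Real.log (mahler (fx x))) L₀ with h | h
    · exact Or.inl ⟨hx, h⟩
    · rcases lt_or_ge (2 * y * Real.log B + c') (2 * logDisc x) with h' | h'
      · exact Or.inr (Or.inr ⟨hx, h'⟩)
      · exact Or.inr (Or.inl ⟨hx, h, h'⟩)
  have hcard : (E.card : ℝ) ≤ E1.card + (E2.card + E3.card) := by
    have h1 := (Finset.card_le_card hcov).trans ((Finset.card_union_le _ _).trans
      (Nat.add_le_add_left (Finset.card_union_le E2 E3) _))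
    exact_mod_cast h1
  -- part one
  have p1 : (E1.card : ℝ) ≤ 2 * (Box.card : ℝ) := by
    have h1 := fiber_two E1 fx (fun x hx => by
      obtain ⟨k1, k2, k3, -⟩ := hfx x (Finset.mem_filter.1 hx).1
      exact ⟨k2, k3⟩)
    have h2 : (E1.image fun x => ev (fx x)) ⊆ Box := by
      intro e he
      obtain ⟨x, hx, rfl⟩ := Finset.mem_image.1 he
      rw [hE1, Finset.mem_filter] at hx
      obtain ⟨k1, k2, k3, -⟩ := hfx x hx.1
      rw [hBox, Fintype.mem_piFinset]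
      intro j
      have h3 := le_nrm (av (Sum.inl default : Pl ℚ)) (cz (ev (fx x))) j
      have h4 : av (Sum.inl default : Pl ℚ) (cz (ev (fx x)) j) = |(ev (fx x) j : ℝ)| :=
        inf_int default _
      rw [h4] at h3
      have h5 := nrm_le_mahler k2
      have hM : 0 < mahler (fx x) := lt_of_lt_of_le one_pos (one_le_mahler k1.ne_zero)
      have h6 : mahler (fx x) ≤ Real.exp L₀ := by
        rw [← Real.log_le_iff_le_exp hM]
        exact hx.2.le
      have h7 : |(ev (fx x) j : ℝ)| ≤ (R : ℝ) := by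
        have h8 : 2 * Real.exp L₀ ≤ (R : ℝ) := Int.le_ceil _
        linarith
      have h8 : |ev (fx x) j| ≤ R := by exact_mod_cast h7
      rw [Finset.mem_Icc]
      exact abs_le.1 h8
    have h3 := h1.trans (Nat.mul_le_mul_left 2 (Finset.card_le_card h2))
    exact_mod_cast h3
  -- part two
  have p2 : (E2.card : ℝ) ≤ C3 * B ^ (2 * y + δ / 2) := by
    refine hfields B E2 hB ?_
    intro x hx
    rw [hE2, Finset.mem_filter] at hx
    obtain ⟨k1, k2, k3, k4, k5, k6⟩ := hfx x hx.1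
    refine ⟨fx x, k1, k2, k3, k4, hx.2.1, k5, hx.2.2, ?_⟩
    intro K0 hNF hK0 hxK
    have h1 := k6 K0 hNF hK0 hxK
    have h2 := logDisc_nonneg x
    linarith
  -- part three
  have p3 : (E3.card : ℝ) ≤ 2 * ∑ m ∈ Z, (Cm m * (2 * B ^ 2) ^ (y2 + δ / 8)) := by
    have h1 := fiber_two E3 fx (fun x hx => by
      obtain ⟨k1, k2, k3, -⟩ := hfx x (Finset.mem_filter.1 hx).1
      exact ⟨k2, k3⟩)
    set W := E3.image fun x => ev (fx x) with hW
    have h2 : W ⊆ Z.biUnion fun m => W.filter fun e => ∑ j, m j * (e j : ℚ) = 0 := by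
      intro e he
      have he' := he
      rw [hW] at he
      obtain ⟨x, hx, rfl⟩ := Finset.mem_image.1 he
      rw [hE3, Finset.mem_filter] at hx
      obtain ⟨k1, k2, k3, k4, k5, k6⟩ := hfx x hx.1
      by_contra hcon
      have hnone : ∀ m ∈ Z, ∑ j, m j * (ev (fx x) j : ℚ) ≠ 0 := by
        intro m hm h0
        apply hcon
        rw [Finset.mem_biUnion]
        exact ⟨m, hm, Finset.mem_filter.2 ⟨he', h0⟩⟩
      obtain ⟨hNF, -⟩ := Pool.Agent.W223.VD.field_data (by norm_num) k1 k2 k3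
      have h3 := hoff x (fx x) k1 k2 k3 k4 hnone ℚ⟮x⟯ hNF rfl (mem_adjoin_simple_self ℚ x)
      have h4 := k6 ℚ⟮x⟯ hNF rfl (mem_adjoin_simple_self ℚ x)
      have hlm : 0 ≤ Real.log (mahler (fx x)) := Real.log_nonneg (one_le_mahler k1.ne_zero)
      have h5 : (3 - κ + δ / 8) * Real.log (mahler (fx x)) ≤ y * (2 * Real.log B) := by
        have h6 : (3 - κ + δ / 8) ≤ y := (le_max_left _ _).trans (le_max_left _ _)
        exact (mul_le_mul_of_nonneg_right h6 hlm).trans (mul_le_mul_of_nonneg_left k5 hy0)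
      have h6 := hx.2
      rw [hc'] at h6
      linarith
    have h3 : (W.card : ℝ) ≤ ∑ m ∈ Z, (Cm m * (2 * B ^ 2) ^ (y2 + δ / 8)) := by
      have h4 : (W.card : ℝ) ≤ ∑ m ∈ Z,
          ((W.filter fun e => ∑ j, m j * (e j : ℚ) = 0).card : ℝ) := by
        exact_mod_cast (Finset.card_le_card h2).trans Finset.card_biUnion_le
      refine h4.trans (Finset.sum_le_sum fun m hm => ?_)
      have hF1 : 1 ≤ 2 * B ^ 2 := by nlinarith
      refine hCm m (hZ m hm) (2 * B ^ 2) _ hF1 ?_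
      intro e he
      rw [Finset.mem_filter] at he
      obtain ⟨heW, he0⟩ := he
      rw [hW] at heW
      obtain ⟨x, hx, rfl⟩ := Finset.mem_image.1 heW
      rw [hE3, Finset.mem_filter] at hx
      obtain ⟨k1, k2, k3, k4, k5, k6⟩ := hfx x hx.1
      obtain ⟨hNF, -⟩ := Pool.Agent.W223.VD.field_data (by norm_num) k1 k2 k3
      obtain ⟨l1, l2⟩ := hfacts x (fx x) k1 k2 k3 k4
      have l3 := l2 ℚ⟮x⟯ hNF rfl (mem_adjoin_simple_self ℚ x)
      have l4 := k6 ℚ⟮x⟯ hNF rfl (mem_adjoin_simple_self ℚ x)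
      have hM : 0 < mahler (fx x) := lt_of_lt_of_le one_pos (one_le_mahler k1.ne_zero)
      have hn := nrm_ge_one (ev_ne k2)
      have h7 := nrm_le_mahler k2
      have hlm : 0 ≤ Real.log (mahler (fx x)) := Real.log_nonneg (one_le_mahler k1.ne_zero)
      refine ⟨prim_ev k1 k2, ev_ne k2, he0, l1, ?_, ?_⟩
      · have h8 : mahler (fx x) ≤ B ^ 2 := by
          have h9 : Real.log (mahler (fx x)) ≤ Real.log (B ^ 2) := by
            rw [Real.log_pow]
            push_cast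
            exact k5
          exact (Real.log_le_log_iff hM (by positivity)).1 h9
        linarith
      · have h8 : Real.log (nrm (av (Sum.inl default : Pl ℚ)) (cz (ev (fx x)))) ≤
            Real.log 2 + Real.log (mahler (fx x)) := by
          rw [← Real.log_mul (by norm_num) hM.ne']
          exact Real.log_le_log (by linarith) h7
        have h9 := mul_le_mul_of_nonneg_left h8 (by linarith : 0 ≤ κ + y2)
        have h10 : y2 * Real.log (mahler (fx x)) ≤ y * (2 * Real.log B) :=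
          (mul_le_mul_of_nonneg_right (le_max_right _ _) hlm).trans
            (mul_le_mul_of_nonneg_left k5 hy0)
        have h11 := hx.2
        have h12 : 0 ≤ c' := by positivity
        rw [hc'']
        linarith
    have h4 : (E3.card : ℝ) ≤ 2 * (W.card : ℝ) := by exact_mod_cast h1
    linarith
  -- the exponents
  have hex0 : 0 ≤ ex := by
    rw [hex]
    have : 2 * (4 - κ) / 3 ≤ max (2 * (3 - κ)) (2 * (4 - κ) / 3) := le_max_right _ _
    linarith
  have q1 : (1 : ℝ) ≤ B ^ ex := Real.one_le_rpow hB hex0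
  have q2 : B ^ (2 * y + δ / 2) ≤ B ^ ex := by
    refine Real.rpow_le_rpow_of_exponent_le hB ?_
    have m1 : 2 * (3 - κ) ≤ max (2 * (3 - κ)) (2 * (4 - κ) / 3) := le_max_left _ _
    have m2 : 2 * (4 - κ) / 3 ≤ max (2 * (3 - κ)) (2 * (4 - κ) / 3) := le_max_right _ _
    have m3 : y ≤ max (2 * (3 - κ)) (2 * (4 - κ) / 3) / 2 + δ / 8 := by
      refine max_le (max_le ?_ ?_) ?_
      · linarith
      · linarith
      · rw [hy2]
        linarith
    rw [hex]
    linarith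
  have q3 : (2 * B ^ 2) ^ (y2 + δ / 8) ≤ 2 ^ (y2 + δ / 8) * B ^ ex := by
    rw [Real.mul_rpow (by norm_num) (by positivity)]
    refine mul_le_mul_of_nonneg_left ?_ (by positivity)
    rw [← Real.rpow_natCast, ← Real.rpow_mul hB0.le]
    refine Real.rpow_le_rpow_of_exponent_le hB ?_
    have m2 : 2 * (4 - κ) / 3 ≤ max (2 * (3 - κ)) (2 * (4 - κ) / 3) := le_max_right _ _
    rw [hex, hy2]
    push_cast
    linarith
  have p3' : (E3.card : ℝ) ≤ 2 * (∑ m ∈ Z, Cm m) * 2 ^ (y2 + δ / 8) * B ^ ex := by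
    refine p3.trans ?_
    rw [← Finset.sum_mul]
    have := mul_le_mul_of_nonneg_left q3 hCs
    linarith
  have p2' : (E2.card : ℝ) ≤ C3 * B ^ ex := p2.trans (mul_le_mul_of_nonneg_left q2 hC3)
  have p1' : (E1.card : ℝ) ≤ 2 * (Box.card : ℝ) * B ^ ex :=
    p1.trans (le_mul_of_one_le_right (by positivity) q1)
  have hfin : C4 * B ^ ex = 2 * (Box.card : ℝ) * B ^ ex + (C3 * B ^ ex +
      2 * (∑ m ∈ Z, Cm m) * 2 ^ (y2 + δ / 8) * B ^ ex) := by
    rw [hC4]
    ring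
  rw [hfin]
  linarith

end Pool.Agent.R405.AQ
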