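import Mathlib
import Pool.Agent.R405.IQ3

/-!
The subspace theorem for integral points and linear forms in general position with complex
algebraic coefficients, at the archimedean place.
-/

set_option autoImplicit false
set_option linter.unusedSectionVars false

open Finset

namespace Pool.Agent.R405.AQ

open NumberField IsDedekindDomain Height Module
open Pool.Agent.W180.OP (Pl av wt nrm le_nrm nrm_pos nrm_nonneg exists_nrm)
open Pool.Agent.R405.IQ (cabs cabs_apply height_int rat_inf_unique wc select mult_eq)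

theorem schC (N : ℕ) (hN : 1 ≤ N) (q : ℕ) (H : Fin q → Fin N → ℂ)
    (halg : ∀ l j, IsAlgebraic ℚ (H l j))
    (hgp : ∀ I : Finset (Fin q), I.card ≤ N → LinearIndependent ℂ (fun i : I => H i)) :
    ∃ Z : Finset (Fin N → ℚ), (∀ m ∈ Z, m ≠ 0) ∧ ∀ ε : ℝ, 0 < ε → ∃ C : ℝ,
      ∀ z : Fin N → ℤ, z ≠ 0 → (∀ m ∈ Z, ∑ j, m j * (z j : ℚ) ≠ 0) →
        ∑ l, (Real.log (nrm cabs fun j => (z j : ℂ)) - Real.log ‖∑ j, H l j * (z j : ℂ)‖) ≤
          (N + ε) * Real.log (nrm cabs fun j => (z j : ℂ)) + C := by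
  classical
  obtain ⟨M, hfd, hnorm, hM⟩ := Pool.Agent.TH286.GT.GrowD.exists_field
    (insert Complex.I ((Finset.univ : Finset (Fin q × Fin N)).image fun p => H p.1 p.2)) (by
      intro x hx
      rcases Finset.mem_insert.1 hx with rfl | hx
      · refine ⟨Polynomial.X ^ 2 + 1, ?_, by simp⟩
        intro h
        have := congrArg (Polynomial.eval 1) h
        norm_num at this
      · obtain ⟨p, -, rfl⟩ := Finset.mem_image.1 hx
        exact halg _ _)
  have : NumberField M := ⟨⟩
  have : IsGalois ℚ M := ⟨⟩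
  have hi : ∃ z : M, z ^ 2 = -1 := by
    refine ⟨⟨Complex.I, hM _ (Finset.mem_insert_self _ _)⟩, ?_⟩
    apply Subtype.ext
    show Complex.I ^ 2 = -1
    exact Complex.I_sq
  set H' : Fin q → Fin N → M := fun l j => ⟨H l j, hM _ (Finset.mem_insert_of_mem
    (Finset.mem_image.2 ⟨(l, j), Finset.mem_univ _, rfl⟩))⟩ with hH'
  have hgp' : ∀ I : Finset (Fin q), I.card ≤ N → LinearIndependent M (fun i : I => H' i) := by
    intro I hI
    rw [Fintype.linearIndependent_iff]
    intro g hg i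
    have h1 := Fintype.linearIndependent_iff.1 (hgp I hI) (fun i => (g i : ℂ)) (by
      funext j
      have h2 := congrArg (fun y : Fin N → M => ((y j : M) : ℂ)) hg
      simpa [Finset.sum_apply, hH'] using h2) i
    exact Subtype.ext h1
  set LM : Fin q ⊕ Fin N → Fin N → M := fun l => wc H' l with hLM
  obtain ⟨Z0, hZ0, hmain⟩ := schV (k := ℚ) hi hN LM
  have hwc0 : ∀ l, LM l ≠ 0 := by
    intro l
    rcases l with l | i
    · have h1 := hgp' {l} (by rw [Finset.card_singleton]; exact hN)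
      exact h1.ne_zero ⟨l, Finset.mem_singleton_self l⟩
    · intro h
      have := congrFun h i
      simp [hLM, wc] at this
  have hdes : ∀ l, ∃ g : Fin N → ℚ, g ≠ 0 ∧ ∀ x : Fin N → ℚ,
      ∑ j, g j * x j ≠ 0 → ∑ j, LM l j * algebraMap ℚ M (x j) ≠ 0 := fun l =>
    descend (k := ℚ) (LM l) (hwc0 l)
  choose g hg0 hg using hdes
  set w0 : InfinitePlace ℚ := default with hw0
  set f0 : AbsoluteValue M ℝ := (InfinitePlace.mk (M.val : M →+* ℂ)).1 with hf0
  have hf0a : ∀ y : M, f0 y = ‖(y : ℂ)‖ := fun y => rfl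
  choose f1 hf1 using fun v : Pl ℚ => exists_good (K := M) v
  set f : Pl ℚ → AbsoluteValue M ℝ := Function.update f1 (Sum.inl w0) f0 with hf
  have hfv : ∀ v ∈ ({Sum.inl w0} : Finset (Pl ℚ)), Good v (f v) := by
    intro v hv
    rw [Finset.mem_singleton] at hv
    subst hv
    rw [hf, Function.update_self]
    exact ⟨InfinitePlace.mk (M.val : M →+* ℂ), rat_inf_unique _ _, fun y => rfl⟩
  obtain ⟨Csel, hCsel, hsel⟩ := select cabs H' hgp' (F := ℂ)
  refine ⟨Z0 ∪ Finset.univ.image g, ?_, fun ε hε => ?_⟩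
  · intro m hm
    rcases Finset.mem_union.1 hm with hm | hm
    · exact hZ0 m hm
    · obtain ⟨l, -, rfl⟩ := Finset.mem_image.1 hm
      exact hg0 l
  obtain ⟨C0, hC0, hsch⟩ := hmain {Sum.inl w0} f hfv ε hε
  refine ⟨C0 + Csel, fun z hz hzZ => ?_⟩
  set zq : Fin N → ℚ := fun j => (z j : ℚ) with hzq
  set X : Fin N → ℂ := fun j => (z j : ℂ) with hX
  have hz0 : zq ≠ 0 := by
    intro h
    apply hz
    funext j
    have := congrFun h j
    simpa [hzq] using this
  have hX0 : X ≠ 0 := by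
    intro h
    apply hz
    funext j
    have := congrFun h j
    simpa [hX] using this
  have hzL : ∀ l, dot (LM l) (exv M zq) ≠ 0 := fun l =>
    hg l zq (hzZ _ (Finset.mem_union_right _ (Finset.mem_image_of_mem _ (Finset.mem_univ _))))
  have hval : ∀ l, f0 (dot (LM l) (exv M zq)) = cabs (dot (exv ℂ (wc H' l)) X) := by
    intro l
    rw [hf0a, cabs_apply]
    congr 1
    unfold dot
    push_cast
    refine Finset.sum_congr rfl fun j _ => ?_
    congr 1
  have hXl : ∀ l, dot (exv ℂ (wc H' l)) X ≠ 0 := by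
    intro l h0
    apply hzL l
    rw [← AbsoluteValue.eq_zero f0, hval l, h0, map_zero]
  obtain ⟨β, hβ, hβs⟩ := hsel X hX0 hXl
  have h1 := hsch zq hz0 (fun m hm => hzZ m (Finset.mem_union_left _ hm)) hzL (fun _ => β)
    (fun _ _ => hβ)
  have hwt : wt (Sum.inl w0 : Pl ℚ) = 1 := by
    have h2 := mult_eq w0 fun w' => rat_inf_unique w' w0
    rw [finrank_self] at h2
    show (w0.mult : ℝ) = 1
    rw [h2, Nat.cast_one]
  have hfu : f (Sum.inl w0) = f0 := by rw [hf, Function.update_self]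
  have hzN : logHeight zq ≤ Real.log (nrm (av (Sum.inl w0)) zq) := height_int z hz0 w0
  have hnn : nrm (av (Sum.inl w0)) zq = nrm cabs X := by
    refine iSup_congr fun j => ?_
    show w0 (zq j) = ‖X j‖
    simp [hzq, hX, Int.norm_eq_abs]
  rw [Finset.sum_singleton, hwt, one_mul, hfu, hnn] at h1
  rw [hnn] at hzN
  have h2 : ∑ a, (Real.log (nrm cabs X) - Real.log (f0 (dot (LM (β a)) (exv M zq)))) =
      ∑ a, (Real.log (nrm cabs X) - Real.log (cabs (dot (exv ℂ (wc H' (β a))) X))) :=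
    Finset.sum_congr rfl fun a _ => by rw [hval]
  rw [h2] at h1
  have h3 : ∀ l : Fin q, cabs (dot (exv ℂ (H' l)) X) = ‖∑ j, H l j * (z j : ℂ)‖ := fun l => rfl
  have h4 : ((N : ℝ) + ε) * logHeight zq ≤ (N + ε) * Real.log (nrm cabs X) :=
    mul_le_mul_of_nonneg_left hzN (by positivity)
  simp only [h3] at hβs
  linarith

end Pool.Agent.R405.AQ
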