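import Mathlib
import Pool.Agent.R405.IQ2
import Pool.Agent.R405.SchV

/-!
Blow-ups of projective space along a linear subspace: linear algebra and local inequalities.
-/

set_option autoImplicit false
set_option linter.unusedSectionVars false

open Finset

namespace Pool.Agent.R405.BU

open NumberField IsDedekindDomain Height Module
open Pool.Agent.W180.OP (Pl av wt nrm le_nrm nrm_pos nrm_nonneg exists_nrm wt_nonneg nrm_le)
open Pool.Agent.R405

section lin

variable {F : Type} [Field F]

/-- a form that vanishes on the common zeros is bounded -/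
theorem boundG (f : AbsoluteValue F ℝ) {ν σ : Type} [Fintype ν] [DecidableEq ν] [Fintype σ]
    (g : σ → ν → F) (u : ν → F) (h : ∀ x : ν → F, (∀ s, ∑ j, g s j * x j = 0) → ∑ j, u j * x j = 0) :
    ∃ C : ℝ, 1 ≤ C ∧ ∀ (x : ν → F) (t : ℝ), 0 ≤ t → (∀ s, f (∑ j, g s j * x j) ≤ t) →
      f (∑ j, u j * x j) ≤ C * t := by
  classical
  let lf : (ν → F) → (ν → F) →ₗ[F] F := fun u =>
    { toFun := fun y => ∑ j, u j * y j
      map_add' := fun y z => by simp only [Pi.add_apply, mul_add, Finset.sum_add_distrib]
      map_smul' := fun c y => by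
        simp only [Pi.smul_apply, smul_eq_mul, RingHom.id_apply, Finset.mul_sum]
        exact Finset.sum_congr rfl fun _ _ => by ring }
  have h1 : lf u ∈ Submodule.span F (Set.range fun s => lf (g s)) := by
    apply mem_span_of_iInf_ker_le_ker
    intro y hy
    rw [LinearMap.mem_ker]
    refine h y fun s => ?_
    have := (Submodule.mem_iInf _).1 hy s
    exact LinearMap.mem_ker.1 this
  obtain ⟨c, hc⟩ := (Submodule.mem_span_range_iff_exists_fun F).1 h1
  have h0 : 0 ≤ ∑ s, f (c s) := Finset.sum_nonneg fun _ _ => f.nonneg _
  refine ⟨1 + ∑ s, f (c s), by linarith, fun x t ht hx => ?_⟩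
  have h2 : ∑ j, u j * x j = ∑ s, c s * ∑ j, g s j * x j := by
    have h3 : lf u x = ∑ s, c s * lf (g s) x := by
      rw [← hc, LinearMap.sum_apply]
      rfl
    exact h3
  rw [h2]
  refine (f.sum_le _ _).trans ?_
  have h4 : ∑ s, f (c s * ∑ j, g s j * x j) ≤ (∑ s, f (c s)) * t := by
    rw [Finset.sum_mul]
    refine Finset.sum_le_sum fun s _ => ?_
    rw [map_mul]
    exact mul_le_mul_of_nonneg_left (hx s) (f.nonneg _)
  linarith [mul_le_mul_of_nonneg_right (show (∑ s, f (c s)) ≤ 1 + ∑ s, f (c s) by linarith) ht]

/-- a basis among finitely many vectors which is maximal for the weights -/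
theorem greedyB {k : Type} [Field k] {b q : ℕ} (β : Fin q → Fin b → k) (J : Finset (Fin q))
    (w : Fin q → ℝ) : ∃ J' : Finset (Fin q), J' ⊆ J ∧ LinearIndependent k (fun i : J' => β i) ∧
      (∀ j ∈ J, ∃ c : Fin q → k, (∀ i, i ∉ J' → c i = 0) ∧ β j = ∑ i, c i • β i) ∧
      ∀ j ∈ J, ∀ c : Fin q → k, (∀ i, i ∉ J' → c i = 0) → β j = ∑ i, c i • β i →
        ∀ i ∈ J', c i ≠ 0 → w j ≤ w i := by
  classical
  obtain ⟨m, hm⟩ : ∃ m, m = ((J.powerset.filter fun J' : Finset (Fin q) =>
      LinearIndependent k (fun i : J' => β i)).sup Finset.card) := ⟨_, rfl⟩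
  have hne : (J.powerset.filter fun J' : Finset (Fin q) => LinearIndependent k (fun i : J' => β i)).Nonempty := by
    refine ⟨∅, Finset.mem_filter.2 ⟨Finset.empty_mem_powerset _, ?_⟩⟩
    have : IsEmpty (∅ : Finset (Fin q)) := ⟨fun x => absurd x.2 (Finset.notMem_empty _)⟩
    exact linearIndependent_empty_type
  obtain ⟨J0, hJ0, hJ0c⟩ := Finset.exists_mem_eq_sup _ hne Finset.card
  obtain ⟨J', hJ', hmax⟩ := Finset.exists_max_image
    ((J.powerset.filter fun J' : Finset (Fin q) => LinearIndependent k (fun i : J' => β i)).filter
      fun J' => J'.card = m) (fun J' => ∑ i ∈ J', w i)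
    ⟨J0, Finset.mem_filter.2 ⟨hJ0, by rw [hm, hJ0c]⟩⟩
  obtain ⟨hJ'1, hcard⟩ := Finset.mem_filter.1 hJ'
  obtain ⟨hsub, hli⟩ := Finset.mem_filter.1 hJ'1
  rw [Finset.mem_powerset] at hsub
  refine ⟨J', hsub, hli, fun j hj => ?_, fun j hj c hc hβ i hi hci => ?_⟩
  · by_cases hjJ : j ∈ J'
    · refine ⟨fun i => if i = j then 1 else 0, fun i hi => ?_, ?_⟩
      · have : i ≠ j := by
          rintro rfl
          exact hi hjJ
        simp only [this, if_false]
      · rw [Finset.sum_eq_single j]
        · simp only [if_true, one_smul]
        · intro l _ hl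
          simp only [hl, if_false, zero_smul]
        · intro h
          exact absurd (Finset.mem_univ _) h
    · by_contra hcon
      push Not at hcon
      have hins : LinearIndependent k (fun l : (insert j J' : Finset (Fin q)) => β l) := by
        rw [Fintype.linearIndependent_iff]
        intro g hg
        set G : Fin q → k := fun l => if h : l ∈ insert j J' then g ⟨l, h⟩ else 0 with hG
        have hGs : ∑ l ∈ insert j J', G l • β l = 0 := by
          rw [← Finset.sum_coe_sort (insert j J') (fun l => G l • β l), ← hg]
          refine Finset.sum_congr rfl fun l _ => ?_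
          simp only [hG, l.2, dif_pos]
        rw [Finset.sum_insert hjJ] at hGs
        have hGj : G j = 0 := by
          by_contra hGj
          refine hcon (fun l => if l ∈ J' then -(G j)⁻¹ * G l else 0) (fun l hl => if_neg hl) ?_
          have h1 : ∑ l, (if l ∈ J' then -(G j)⁻¹ * G l else 0) • β l =
              -(G j)⁻¹ • ∑ l ∈ J', G l • β l := by
            rw [Finset.smul_sum, ← Finset.sum_subset (Finset.subset_univ J')]
            · refine Finset.sum_congr rfl fun l hl => ?_
              rw [if_pos hl, smul_smul]
            · intro l _ hl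
              rw [if_neg hl, zero_smul]
          rw [h1, eq_neg_of_add_eq_zero_right hGs, smul_neg, neg_smul, neg_neg, smul_smul,
            inv_mul_cancel₀ hGj, one_smul]
        rw [hGj, zero_smul, zero_add] at hGs
        have h6 := Fintype.linearIndependent_iff.1 hli (fun l : J' => G l) (by
          rw [← hGs]
          exact Finset.sum_coe_sort J' (fun l => G l • β l))
        intro l
        have hGl : G l = g l := by
          simp only [hG, l.2, dif_pos]
        rw [← hGl]
        rcases Finset.mem_insert.1 l.2 with h | h
        · rw [h, hGj]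
        · exact h6 ⟨l, h⟩
      have hmem : insert j J' ∈ J.powerset.filter fun J' : Finset (Fin q) =>
          LinearIndependent k (fun i : J' => β i) := by
        refine Finset.mem_filter.2 ⟨Finset.mem_powerset.2 ?_, hins⟩
        intro l hl
        rcases Finset.mem_insert.1 hl with rfl | h
        · exact hj
        · exact hsub h
      have h1 : (insert j J').card ≤ m := by
        rw [hm]
        exact Finset.le_sup (f := Finset.card) hmem
      rw [Finset.card_insert_of_notMem hjJ, hcard] at h1
      omega
  by_cases hjJ : j ∈ J'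
  · -- then `c` is the indicator of `j`
    have hli' := Fintype.linearIndependent_iff.1 hli
    have h1 : ∑ l : J', ((if (l : Fin q) = j then (1 : k) else 0) - c l) • β l = 0 := by
      simp only [sub_smul, Finset.sum_sub_distrib]
      rw [sub_eq_zero]
      have h2 : ∑ l : J', c l • β l = ∑ l, c l • β l := by
        rw [Finset.sum_coe_sort J' (fun l => c l • β l)]
        refine Finset.sum_subset (Finset.subset_univ _) fun l _ hl => ?_
        rw [hc l hl, zero_smul]
      rw [h2, ← hβ, Finset.sum_coe_sort J' (fun l => (if l = j then (1 : k) else 0) • β l),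
        Finset.sum_eq_single j]
      · rw [if_pos rfl, one_smul]
      · intro l _ hl
        rw [if_neg hl, zero_smul]
      · intro h
        exact absurd hjJ h
    have h3 := hli' _ h1 ⟨i, hi⟩
    have h4 : i = j := by
      by_contra hne
      simp only [if_neg hne, zero_sub, neg_eq_zero] at h3
      exact hci h3
    rw [h4]
  · -- exchange
    set J2 := insert j (J'.erase i) with hJ2
    have hj2 : j ∉ J'.erase i := fun h => hjJ (Finset.mem_of_mem_erase h)
    have hJ2li : LinearIndependent k (fun l : J2 => β l) := by
      rw [Fintype.linearIndependent_iff]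
      intro g hg
      -- extend by zero
      set G : Fin q → k := fun l => if h : l ∈ J2 then g ⟨l, h⟩ else 0 with hG
      have hGs : ∑ l ∈ J2, G l • β l = 0 := by
        rw [← Finset.sum_coe_sort J2 (fun l => G l • β l), ← hg]
        refine Finset.sum_congr rfl fun l _ => ?_
        simp only [hG, l.2, dif_pos]
      rw [hJ2, Finset.sum_insert hj2] at hGs
      have hc2 : β j = ∑ l ∈ J', c l • β l := by
        rw [hβ]
        symm
        refine Finset.sum_subset (Finset.subset_univ _) fun l _ hl => ?_
        rw [hc l hl, zero_smul]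
      have h5 : ∑ l ∈ J', (G j * c l + if l = i then 0 else G l) • β l = 0 := by
        rw [← hGs, hc2, Finset.smul_sum]
        simp only [add_smul, Finset.sum_add_distrib, smul_smul]
        congr 1
        rw [← Finset.add_sum_erase _ _ hi, if_pos rfl, zero_smul, zero_add]
        refine Finset.sum_congr rfl fun l hl => ?_
        rw [if_neg (Finset.ne_of_mem_erase hl)]
      have h6 := Fintype.linearIndependent_iff.1 hli
        (fun l : J' => G j * c l + if (l : Fin q) = i then 0 else G l) (by
          rw [← h5]
          exact Finset.sum_coe_sort J' (fun l => (G j * c l + if l = i then 0 else G l) • β l))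
      have h7 := h6 ⟨i, hi⟩
      simp only [if_true, add_zero] at h7
      have hGj : G j = 0 := (mul_eq_zero.1 h7).resolve_right hci
      intro l
      have hl2 : (l : Fin q) = j ∨ (l : Fin q) ∈ J'.erase i := Finset.mem_insert.1 l.2
      have hGl : G l = g l := by
        simp only [hG, l.2, dif_pos]
      rw [← hGl]
      rcases hl2 with h | h
      · rw [h, hGj]
      · have h8 := h6 ⟨l, Finset.mem_of_mem_erase h⟩
        simp only [hGj, zero_mul, zero_add, if_neg (Finset.ne_of_mem_erase h)] at h8
        exact h8
    have hJ2mem : J2 ∈ (J.powerset.filter fun J' : Finset (Fin q) =>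
        LinearIndependent k (fun i : J' => β i)).filter fun J' => J'.card = m := by
      refine Finset.mem_filter.2 ⟨Finset.mem_filter.2 ⟨Finset.mem_powerset.2 ?_, hJ2li⟩, ?_⟩
      · intro l hl
        rcases Finset.mem_insert.1 hl with rfl | h
        · exact hj
        · exact hsub (Finset.mem_of_mem_erase h)
      · rw [Finset.card_insert_of_notMem hj2, Finset.card_erase_of_mem hi, hcard]
        have : 0 < J'.card := Finset.card_pos.2 ⟨i, hi⟩
        omega
    have h9 := hmax J2 hJ2mem
    rw [hJ2, Finset.sum_insert hj2, ← Finset.add_sum_erase J' w hi] at h9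
    linarith

end lin

end Pool.Agent.R405.BU
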