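import Mathlib
import Pool.Agent.R405.BU1
import Pool.Agent.R405.Fin1

/-!
Schmidt's inequality for independent subfamilies; the common points of the components.
-/

set_option autoImplicit false
set_option linter.unusedSectionVars false

open Finset

namespace Pool.Agent.R405.BU

open NumberField IsDedekindDomain Height Module
open Pool.Agent.W180.OP (Pl av wt nrm le_nrm nrm_pos nrm_nonneg exists_nrm wt_nonneg nrm_le)
open Pool.Agent.R405

section sub

variable {k K : Type} [Field k] [NumberField k] [Field K] [NumberField K] [Algebra k K]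

/-- Schmidt's inequality for all independent subfamilies of a finite family -/
theorem schSub [IsGalois ℚ K] (hi : ∃ z : K, z ^ 2 = -1) {N : ℕ} (hN : 1 ≤ N) {ι : Type}
    [Fintype ι] [DecidableEq ι] (H : ι → Fin N → K) (hH : ∀ l, H l ≠ 0) :
    ∃ Z : Finset (Fin N → k), (∀ z ∈ Z, z ≠ 0) ∧ ∀ (v : Pl k) (f : AbsoluteValue K ℝ), Good v f →
      ∀ ε : ℝ, 0 < ε → ∃ C : ℝ, 0 ≤ C ∧ ∀ x : Fin N → k, x ≠ 0 → (∀ z ∈ Z, ∑ j, z j * x j ≠ 0) →
        (∀ l, dot (H l) (exv K x) ≠ 0) ∧ ∀ J : Finset ι, LinearIndependent K (fun i : J => H i) →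
          wt v * ∑ l ∈ J, (Real.log (nrm (av v) x) - Real.log (f (dot (H l) (exv K x)))) ≤
            (N + ε) * logHeight x + C := by
  classical
  set q := Fintype.card ι with hq
  let e : ι ≃ Fin q := Fintype.equivFin ι
  set H' : Fin q → Fin N → K := fun i => H (e.symm i) with hH'
  obtain ⟨Z0, hZ0, hmain⟩ := schV (k := k) hi hN (IQ.wc H')
  have hfd : FiniteDimensional k K := Module.Finite.of_restrictScalars_finite ℚ k K
  have hwc0 : ∀ l, IQ.wc H' l ≠ 0 := by
    intro l
    rcases l with l | i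
    · exact hH _
    · intro h
      have := congrFun h i
      simp [IQ.wc] at this
  have hdes : ∀ l, ∃ g : Fin N → k, g ≠ 0 ∧ ∀ x : Fin N → k,
      ∑ j, g j * x j ≠ 0 → ∑ j, IQ.wc H' l j * algebraMap k K (x j) ≠ 0 := fun l =>
    descend (k := k) (IQ.wc H' l) (hwc0 l)
  choose g hg0 hg using hdes
  refine ⟨Z0 ∪ Finset.univ.image g, ?_, ?_⟩
  · intro z hz
    rcases Finset.mem_union.1 hz with hz | hz
    · exact hZ0 z hz
    · obtain ⟨l, -, rfl⟩ := Finset.mem_image.1 hz
      exact hg0 l
  intro v f hf ε hε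
  have hw := wt_nonneg v
  obtain ⟨C0, hC0, hsch⟩ := hmain {v} (fun _ => f) (by
    intro w hw'
    rw [Finset.mem_singleton] at hw'
    subst hw'
    exact hf) ε hε
  -- lower bounds
  set B : Fin q ⊕ Fin N → ℝ := fun l => 1 + ∑ j, f (IQ.wc H' l j) with hB
  have hB1 : ∀ l, 1 ≤ B l := fun l => by
    have : 0 ≤ ∑ j, f (IQ.wc H' l j) := Finset.sum_nonneg fun _ _ => f.nonneg _
    simp only [hB]
    linarith
  set D : ℝ := ∑ l, Real.log (B l) with hD
  have hD0 : 0 ≤ D := Finset.sum_nonneg fun l _ => Real.log_nonneg (hB1 l)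
  refine ⟨C0 + wt v * D, by positivity, fun x hx hZx => ?_⟩
  have hxK : exv K x ≠ 0 := exv_ne hx
  have hLx : ∀ l, dot (IQ.wc H' l) (exv K x) ≠ 0 := fun l =>
    hg l x (hZx _ (Finset.mem_union_right _ (Finset.mem_image_of_mem _ (Finset.mem_univ _))))
  have hHx : ∀ l, dot (H l) (exv K x) ≠ 0 := by
    intro l
    have := hLx (Sum.inl (e l))
    simpa [IQ.wc, hH'] using this
  refine ⟨hHx, fun J hJ => ?_⟩
  have hnrm : nrm f (exv K x) = nrm (av v) x := hf.nrm_ext x
  have hN0 : 0 < nrm (av v) x := nrm_pos _ hx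
  set T : Fin q ⊕ Fin N → ℝ := fun l => Real.log (nrm (av v) x) -
    Real.log (f (dot (IQ.wc H' l) (exv K x))) with hT
  have hTl : ∀ l, -Real.log (B l) ≤ T l := by
    intro l
    have h1 := abs_dot f (IQ.wc H' l) (exv K x)
    rw [hnrm] at h1
    have h2 := Real.log_le_log (f.pos_iff.2 (hLx l)) h1
    rw [Real.log_mul (by linarith [hB1 l] : (0:ℝ) < B l).ne' hN0.ne'] at h2
    simp only [hT]
    linarith
  -- the basis
  set J' : Finset (Fin q) := J.image e with hJ'
  have hJ'li : LinearIndependent K (fun i : J' => H' i) := by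
    let φ : J' → J := fun i => ⟨e.symm i, by
      obtain ⟨l, hl, hle⟩ := Finset.mem_image.1 i.2
      rw [← hle, Equiv.symm_apply_apply]
      exact hl⟩
    have hφ : Function.Injective φ := by
      intro i j hij
      have h1 : e.symm i = e.symm j := congrArg Subtype.val hij
      exact Subtype.ext (e.symm.injective h1)
    exact hJ.comp φ hφ
  obtain ⟨β, hβ, hβJ⟩ := IQ.extend H' J' hJ'li
  have hinj : Function.Injective β := by
    intro a a' haa
    by_contra hne
    exact hβ (Matrix.det_zero_of_row_eq hne (by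
      funext j
      show IQ.wc H' (β a) j = IQ.wc H' (β a') j
      rw [haa]))
  have h1 := hsch x hx (fun z hz => hZx z (Finset.mem_union_left _ hz)) hLx (fun _ => β)
    (fun _ _ => hβ)
  rw [Finset.sum_singleton] at h1
  have h2 : ∑ a, (Real.log (nrm (av v) x) - Real.log (f (dot (IQ.wc H' (β a)) (exv K x)))) =
      ∑ l ∈ Finset.univ.image β, T l := by
    rw [Finset.sum_image fun a _ b _ h => hinj h]
  have h3 : J'.image Sum.inl ⊆ Finset.univ.image β := by
    intro l hl
    obtain ⟨i, hi', rfl⟩ := Finset.mem_image.1 hl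
    obtain ⟨a, ha⟩ := hβJ i hi'
    exact Finset.mem_image.2 ⟨a, Finset.mem_univ _, ha⟩
  have h4 : ∑ l ∈ J, (Real.log (nrm (av v) x) - Real.log (f (dot (H l) (exv K x)))) =
      ∑ l ∈ J'.image Sum.inl, T l := by
    rw [Finset.sum_image fun a _ b _ h => Sum.inl_injective h, hJ',
      Finset.sum_image fun a _ b _ h => e.injective h]
    refine Finset.sum_congr rfl fun l _ => ?_
    simp [hT, IQ.wc, hH']
  have h5 : ∑ l ∈ J'.image Sum.inl, T l ≤ ∑ l ∈ Finset.univ.image β, T l + D := by
    rw [← Finset.sum_sdiff h3]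
    have h6 : -D ≤ ∑ l ∈ Finset.univ.image β \ J'.image Sum.inl, T l := by
      have h7 : ∑ l ∈ Finset.univ.image β \ J'.image Sum.inl, -Real.log (B l) ≤
          ∑ l ∈ Finset.univ.image β \ J'.image Sum.inl, T l := Finset.sum_le_sum fun l _ => hTl l
      refine le_trans ?_ h7
      rw [Finset.sum_neg_distrib, neg_le_neg_iff]
      exact Finset.sum_le_sum_of_subset_of_nonneg (Finset.subset_univ _)
        fun l _ _ => Real.log_nonneg (hB1 l)
    linarith
  rw [h4]
  rw [h2] at h1
  have h8 := mul_le_mul_of_nonneg_left h5 hw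
  rw [mul_add] at h8
  linarith

end sub

section comp

variable {k K : Type} [Field k] [Field K] [Algebra k K] {a b q : ℕ}

/-- components: the exceptional divisor, hyperplanes through the centre, other hyperplanes -/
inductive Cmp (k K : Type) (a b : ℕ) : Type where
  | ex
  | ve (l : Fin a → K)
  | ho (α : Fin a → k) (β : Fin b → k)

/-- the equation in the coordinates `(y, e, z)` -/
def Cmp.eqn (c : Cmp k K a b) (y : Fin a → K) (e : K) (z : Fin b → K) : K :=
  match c with
  | .ex => e
  | .ve l => dot l y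
  | .ho α β => dot (exv K α) y * e + dot (exv K β) z

/-- the gradient -/
def Cmp.gy (c : Cmp k K a b) (e : K) : Fin a → K :=
  match c with
  | .ex => 0
  | .ve l => l
  | .ho α _ => e • exv K α

def Cmp.ge (c : Cmp k K a b) (y : Fin a → K) : K :=
  match c with
  | .ex => 1
  | .ve _ => 0
  | .ho α _ => dot (exv K α) y

def Cmp.gz (c : Cmp k K a b) : Fin b → K :=
  match c with
  | .ex => 0
  | .ve _ => 0
  | .ho _ β => exv K β

/-- normal crossings -/
def NCb (c : Fin q → Cmp k K a b) : Prop :=
  ∀ (y : Fin a → K) (e : K) (z : Fin b → K), y ≠ 0 → (e ≠ 0 ∨ z ≠ 0) → ∀ s : Fin q → K,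
    (∀ l, s l ≠ 0 → (c l).eqn y e z = 0) → ∑ l, s l • (c l).gy e = 0 →
    ∑ l, s l * (c l).ge y = 0 → ∑ l, s l • (c l).gz = 0 → ∀ l, s l = 0

/-- the data of the components -/
def Cmp.α (c : Cmp k K a b) : Fin a → k := match c with | .ho α _ => α | _ => 0
def Cmp.β (c : Cmp k K a b) : Fin b → k := match c with | .ho _ β => β | _ => 0
def Cmp.l (c : Cmp k K a b) : Fin a → K := match c with | .ve l => l | _ => 0
def Cmp.isE (c : Cmp k K a b) : Prop := c = .ex
def Cmp.isV (c : Cmp k K a b) : Prop := ∃ l, c = .ve l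
def Cmp.isH (c : Cmp k K a b) : Prop := ∃ α β, c = .ho α β

/-- the reduced form of a dependent hyperplane -/
def red (c : Fin q → Cmp k K a b) (j : Fin q) (t : Fin q → k) : Fin a → k :=
  (c j).α - ∑ i, t i • (c i).α

theorem dot_sumx {K : Type} [Field K] {n : ℕ} {σ : Type} (s : Finset σ) (g : σ → Fin n → K)
    (x : Fin n → K) : dot (∑ i ∈ s, g i) x = ∑ i ∈ s, dot (g i) x := dot_sum s g x

theorem exv_red (c : Fin q → Cmp k K a b) (j : Fin q) (t : Fin q → k) :
    exv K (red c j t) = exv K (c j).α - ∑ i, algebraMap k K (t i) • exv K (c i).α := by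
  funext b
  simp only [exv, red, Pi.sub_apply, Finset.sum_apply, Pi.smul_apply, smul_eq_mul, map_sub, map_sum,
    map_mul]

theorem exv_comb {n : ℕ} (g : Fin q → Fin n → k) (t : Fin q → k) :
    exv K (∑ i, t i • g i) = ∑ i, algebraMap k K (t i) • exv K (g i) := by
  funext b
  simp only [exv, Finset.sum_apply, Pi.smul_apply, smul_eq_mul, map_sum, map_mul]

/-- independence of the vertical forms and of the reduced forms -/
theorem indep (c : Fin q → Cmp k K a b) (hnc : NCb c) (I J J' : Finset (Fin q))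
    (hI : ∀ i ∈ I, (c i).isV) (hJ : ∀ j ∈ J, (c j).isH) (hJ' : J' ⊆ J)
    (y : Fin a → K) (e : K) (z : Fin b → K) (hy : y ≠ 0) (hez : e ≠ 0 ∨ z ≠ 0)
    (hTI : ∀ i ∈ I, (c i).eqn y e z = 0) (hTJ : ∀ j ∈ J, (c j).eqn y e z = 0)
    (cf : Fin q → Fin q → k) (hcf : ∀ j i, i ∉ J' → cf j i = 0)
    (hβ : ∀ j ∈ J, (c j).β = ∑ i, cf j i • (c i).β)
    (s t : Fin q → K) (hs : ∀ i, i ∉ I → s i = 0) (ht : ∀ j, j ∉ J \ J' → t j = 0)
    (hst : ∑ i, s i • (c i).l + ∑ j, t j • exv K (red c j (cf j)) = 0) :
    (∀ j, t j = 0) ∧ (∀ i, s i = 0) := by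
  classical
  have hIv : ∀ i ∈ I, c i = .ve (c i).l := by
    intro i hi
    obtain ⟨l, hl⟩ := hI i hi
    rw [hl]
    rfl
  have hJh : ∀ j ∈ J, c j = .ho (c j).α (c j).β := by
    intro j hj
    obtain ⟨α, β, h⟩ := hJ j hj
    rw [h]
    rfl
  -- the coefficients
  set u : Fin q → K := fun i => ∑ j, t j * algebraMap k K (cf j i) with hu
  have hu0 : ∀ i, i ∉ J' → u i = 0 := by
    intro i hi
    rw [hu]
    refine Finset.sum_eq_zero fun j _ => ?_
    rw [hcf j i hi, map_zero, mul_zero]
  have hIJ : ∀ i ∈ I, i ∉ J := by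
    intro i hi hj
    have h1 := hIv i hi
    rw [hJh i hj] at h1
    cases h1
  have hred : ∀ j, exv K (red c j (cf j)) = exv K (c j).α - ∑ i, algebraMap k K (cf j i) •
      exv K (c i).α := fun j => exv_red c j (cf j)
  -- sums over hyperplanes
  have hsumα : ∑ j, t j • exv K (red c j (cf j)) = ∑ j, (t j - u j) • exv K (c j).α := by
    simp only [hred, smul_sub, sub_smul, Finset.sum_sub_distrib, Finset.smul_sum, smul_smul]
    congr 1
    rw [Finset.sum_comm]
    refine Finset.sum_congr rfl fun i _ => ?_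
    rw [hu, Finset.sum_smul]
  have hsumβ : ∑ j, (t j - u j) • exv K (c j).β = 0 := by
    have h1 : ∀ j, t j • exv K (c j).β = t j • ∑ i, algebraMap k K (cf j i) • exv K (c i).β := by
      intro j
      by_cases hj : j ∈ J
      · rw [← exv_comb, ← hβ j hj]
      · rw [ht j (fun h => hj (Finset.mem_sdiff.1 h).1), zero_smul, zero_smul]
    simp only [sub_smul, Finset.sum_sub_distrib]
    rw [Finset.sum_congr rfl fun j _ => h1 j, sub_eq_zero]
    simp only [Finset.smul_sum, smul_smul]
    rw [Finset.sum_comm]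
    refine Finset.sum_congr rfl fun i _ => ?_
    rw [hu, Finset.sum_smul]
  -- supports
  have htu0 : ∀ j, j ∉ J → t j - u j = 0 := by
    intro j hj
    rw [ht j (fun h => hj (Finset.mem_sdiff.1 h).1), hu0 j (fun h => hj (hJ' h)), sub_zero]
  have hly : ∑ i, s i * dot (c i).l y = 0 := by
    refine Finset.sum_eq_zero fun i _ => ?_
    by_cases hi : i ∈ I
    · have h1 := hTI i hi
      rw [hIv i hi] at h1
      have h2 : dot (c i).l y = 0 := h1
      rw [h2, mul_zero]
    · rw [hs i hi, zero_mul]
  have hαy : ∑ j, (t j - u j) * dot (exv K (c j).α) y = 0 := by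
    have h1 := congrArg (fun g => dot g y) hst
    simp only [dot_add, dot_sum, dot_smul] at h1
    rw [hly, zero_add] at h1
    have h2 := congrArg (fun g => dot g y) hsumα
    simp only [dot_sum, dot_smul] at h2
    rw [← h2, h1]
    simp [dot]
  -- the relation between the gradients
  have key := hnc y e z hy hez (fun l => if l ∈ I then e * s l else t l - u l) ?_ ?_ ?_ ?_
  · have ht0 : ∀ j, t j = 0 := by
      intro j
      by_cases hj : j ∈ J \ J'
      · obtain ⟨hj1, hj2⟩ := Finset.mem_sdiff.1 hj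
        have h1 := key j
        rw [if_neg (fun h => hIJ j h hj1), hu0 j hj2, sub_zero] at h1
        exact h1
      · exact ht j hj
    refine ⟨ht0, ?_⟩
    have hst' : ∑ i, s i • (c i).l = 0 := by
      rw [← hst]
      simp [ht0]
    have key2 := hnc y e z hy hez (fun l => if l ∈ I then s l else 0) ?_ ?_ ?_ ?_
    · intro i
      by_cases hi : i ∈ I
      · have := key2 i
        rwa [if_pos hi] at this
      · exact hs i hi
    · intro l hl
      by_cases hi : l ∈ I
      · exact hTI l hi
      · rw [if_neg hi] at hl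
        exact absurd rfl hl
    · rw [← hst']
      refine Finset.sum_congr rfl fun l _ => ?_
      by_cases hi : l ∈ I
      · rw [if_pos hi, hIv l hi]
        rfl
      · rw [if_neg hi, hs l hi, zero_smul, zero_smul]
    · refine Finset.sum_eq_zero fun l _ => ?_
      by_cases hi : l ∈ I
      · rw [hIv l hi]
        exact mul_zero _
      · rw [if_neg hi, zero_mul]
    · refine Finset.sum_eq_zero fun l _ => ?_
      by_cases hi : l ∈ I
      · rw [hIv l hi]
        exact smul_zero _
      · rw [if_neg hi, zero_smul]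
  · intro l hl
    by_cases hi : l ∈ I
    · exact hTI l hi
    · rw [if_neg hi] at hl
      by_cases hj : l ∈ J
      · exact hTJ l hj
      · exact absurd (htu0 l hj) hl
  · have h1 : ∑ l, (if l ∈ I then e * s l else t l - u l) • (c l).gy e =
        e • (∑ i, s i • (c i).l + ∑ j, (t j - u j) • exv K (c j).α) := by
      rw [smul_add, Finset.smul_sum, Finset.smul_sum, ← Finset.sum_add_distrib]
      refine Finset.sum_congr rfl fun l _ => ?_
      by_cases hi : l ∈ I
      · rw [if_pos hi, htu0 l (hIJ l hi), zero_smul, smul_zero, add_zero, smul_smul]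
        rw [show (c l).gy e = (c l).l by rw [hIv l hi]; rfl]
      · rw [if_neg hi, hs l hi, zero_smul, smul_zero, zero_add]
        by_cases hj : l ∈ J
        · rw [show (c l).gy e = e • exv K (c l).α by rw [hJh l hj]; rfl, smul_smul, smul_smul,
            mul_comm]
        · rw [htu0 l hj, zero_smul, zero_smul, smul_zero]
    rw [h1, ← hsumα, hst, smul_zero]
  · rw [← hαy]
    refine Finset.sum_congr rfl fun l _ => ?_
    by_cases hi : l ∈ I
    · rw [if_pos hi, htu0 l (hIJ l hi), zero_mul, show (c l).ge y = 0 by rw [hIv l hi]; rfl,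
        mul_zero]
    · rw [if_neg hi]
      by_cases hj : l ∈ J
      · rw [show (c l).ge y = dot (exv K (c l).α) y by rw [hJh l hj]; rfl]
      · rw [htu0 l hj, zero_mul, zero_mul]
  · rw [← hsumβ]
    refine Finset.sum_congr rfl fun l _ => ?_
    by_cases hi : l ∈ I
    · rw [if_pos hi, htu0 l (hIJ l hi), zero_smul, show (c l).gz = 0 by rw [hIv l hi]; rfl,
        smul_zero]
    · rw [if_neg hi]
      by_cases hj : l ∈ J
      · rw [show (c l).gz = exv K (c l).β by rw [hJh l hj]; rfl]
      · rw [htu0 l hj, zero_smul, zero_smul]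

/-- few dependent hyperplanes at a point of the exceptional divisor -/
theorem few (c : Fin q → Cmp k K a b) (hnc : NCb c) (J J' : Finset (Fin q))
    (hJ : ∀ j ∈ J, (c j).isH) (hJ' : J' ⊆ J)
    (y : Fin a → K) (z : Fin b → K) (hy : y ≠ 0) (hz : z ≠ 0)
    (hTJ : ∀ j ∈ J, (c j).eqn y 0 z = 0)
    (cf : Fin q → Fin q → k) (hcf : ∀ j i, i ∉ J' → cf j i = 0)
    (hβ : ∀ j ∈ J, (c j).β = ∑ i, cf j i • (c i).β) (X0 : Finset (Fin q))
    (hX : ∀ l ∈ X0, c l = .ex) : (J \ J').card + X0.card ≤ 1 := by
  classical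
  have hJh : ∀ j ∈ J, c j = .ho (c j).α (c j).β := by
    intro j hj
    obtain ⟨α, β, h⟩ := hJ j hj
    rw [h]
    rfl
  have hXJ : ∀ l ∈ X0, l ∉ J := by
    intro l hl hj
    have h1 := hJh l hj
    rw [hX l hl] at h1
    cases h1
  rw [← Finset.card_union_of_disjoint (Finset.disjoint_left.2 fun l hl hX' =>
    hXJ l hX' (Finset.mem_sdiff.1 hl).1)]
  by_contra hcon
  push Not at hcon
  obtain ⟨l1, hl1, l2, hl2, hne⟩ := Finset.one_lt_card.1 hcon
  -- the vectors and the values
  set w : Fin q → Fin q → K := fun l i => (if i = l then 1 else 0) -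
    (if l ∈ J then algebraMap k K (cf l i) else 0) with hw
  set g : Fin q → K := fun l => ∑ i, w l i * (c i).ge y with hg
  have hnotJ' : ∀ l ∈ J \ J' ∪ X0, l ∉ J' := by
    intro l hl h
    rcases Finset.mem_union.1 hl with h1 | h1
    · exact (Finset.mem_sdiff.1 h1).2 h
    · exact hXJ l h1 (hJ' h)
  have hwl : ∀ l ∈ J \ J' ∪ X0, ∀ l' ∈ J \ J' ∪ X0, w l l' = if l' = l then 1 else 0 := by
    intro l _ l' hl'
    simp only [hw, hcf l l' (hnotJ' l' hl'), map_zero, ite_self, sub_zero]
  have heq : ∀ l ∈ J \ J' ∪ X0, ∀ i, w l i ≠ 0 → (c i).eqn y 0 z = 0 := by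
    intro l hl i hi
    by_cases hiJ : i ∈ J
    · exact hTJ i hiJ
    · have h1 : i ∉ J' := fun h => hiJ (hJ' h)
      simp only [hw, hcf l i h1, map_zero, ite_self, sub_zero] at hi
      have h2 : i = l := by
        by_contra h
        rw [if_neg h] at hi
        exact hi rfl
      subst h2
      rcases Finset.mem_union.1 hl with h | h
      · exact absurd (Finset.mem_sdiff.1 h).1 hiJ
      · rw [hX i h]
        rfl
  have hgy : ∀ l ∈ J \ J' ∪ X0, ∀ i, w l i • (c i).gy 0 = 0 := by
    intro l hl i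
    by_cases hiJ : i ∈ J
    · rw [show (c i).gy 0 = 0 by rw [hJh i hiJ]; exact zero_smul _ _, smul_zero]
    · by_cases hi : w l i = 0
      · rw [hi, zero_smul]
      · have h1 : i ∉ J' := fun h => hiJ (hJ' h)
        simp only [hw, hcf l i h1, map_zero, ite_self, sub_zero] at hi
        have h2 : i = l := by
          by_contra h
          rw [if_neg h] at hi
          exact hi rfl
        subst h2
        rcases Finset.mem_union.1 hl with h | h
        · exact absurd (Finset.mem_sdiff.1 h).1 hiJ
        · rw [hX i h]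
          exact smul_zero _
  have hgz : ∀ l ∈ J \ J' ∪ X0, ∑ i, w l i • (c i).gz = 0 := by
    intro l hl
    by_cases hlJ : l ∈ J
    · have h1 : ∀ i, w l i • (c i).gz = (if i = l then (1 : K) else 0) • (c i).gz -
          algebraMap k K (cf l i) • exv K (c i).β := by
        intro i
        simp only [hw, if_pos hlJ, sub_smul]
        congr 1
        by_cases hiJ : i ∈ J
        · rw [show (c i).gz = exv K (c i).β by rw [hJh i hiJ]; rfl]
        · rw [hcf l i (fun h => hiJ (hJ' h)), map_zero, zero_smul, zero_smul]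
      simp only [h1, Finset.sum_sub_distrib]
      rw [← exv_comb, ← hβ l hlJ, Finset.sum_eq_single l]
      · rw [if_pos rfl, one_smul, show (c l).gz = exv K (c l).β by rw [hJh l hlJ]; rfl, sub_self]
      · intro i _ hi
        rw [if_neg hi, zero_smul]
      · intro h
        exact absurd (Finset.mem_univ _) h
    · have h2 : c l = .ex := by
        rcases Finset.mem_union.1 hl with h | h
        · exact absurd (Finset.mem_sdiff.1 h).1 hlJ
        · exact hX l h
      refine Finset.sum_eq_zero fun i _ => ?_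
      simp only [hw, if_neg hlJ, sub_zero]
      by_cases hi : i = l
      · subst hi
        rw [h2]
        exact smul_zero _
      · rw [if_neg hi, zero_smul]
  -- a vanishing value is impossible
  have hz0 : ∀ l ∈ J \ J' ∪ X0, g l ≠ 0 := by
    intro l hl h0
    have := hnc y 0 z hy (Or.inr hz) (w l) (heq l hl)
      (Finset.sum_eq_zero fun i _ => hgy l hl i) h0 (hgz l hl) l
    rw [hwl l hl l hl, if_pos rfl] at this
    exact one_ne_zero this
  have := hnc y 0 z hy (Or.inr hz) (fun i => g l2 * w l1 i - g l1 * w l2 i) ?_ ?_ ?_ ?_ l1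
  · simp only [hwl l1 hl1 l1 hl1, hwl l2 hl2 l1 hl1, if_true, if_neg hne, mul_one, mul_zero,
      sub_zero] at this
    exact hz0 l2 hl2 this
  · intro i hi
    by_cases h1 : w l1 i = 0
    · by_cases h2 : w l2 i = 0
      · rw [h1, h2, mul_zero, mul_zero, sub_zero] at hi
        exact absurd rfl hi
      · exact heq l2 hl2 i h2
    · exact heq l1 hl1 i h1
  · refine Finset.sum_eq_zero fun i _ => ?_
    rw [sub_smul, mul_smul, mul_smul, hgy l1 hl1, hgy l2 hl2, smul_zero, smul_zero, sub_zero]
  · simp only [sub_mul, mul_assoc, Finset.sum_sub_distrib, ← Finset.mul_sum]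
    show g l2 * g l1 - g l1 * g l2 = 0
    ring
  · simp only [sub_smul, mul_smul, Finset.sum_sub_distrib, ← Finset.smul_sum]
    rw [hgz l1 hl1, hgz l2 hl2, smul_zero, smul_zero, sub_zero]

/-- the number of independent hyperplanes -/
theorem card_le_b {β : Fin q → Fin b → k} {J' : Finset (Fin q)}
    (h : LinearIndependent k (fun i : J' => β i)) : J'.card ≤ b := by
  have h1 := h.fintype_card_le_finrank
  simpa using h1

theorem card_lt_b {β : Fin q → Fin b → k} {J' : Finset (Fin q)}
    (h : LinearIndependent k (fun i : J' => β i)) (z : Fin b → K) (hz : z ≠ 0)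
    (h0 : ∀ j ∈ J', dot (exv K (β j)) z = 0) : J'.card < b := by
  classical
  refine lt_of_le_of_ne (card_le_b h) fun hcard => hz ?_
  have h1 : Fintype.card J' = finrank k (Fin b → k) := by simpa using hcard
  have h2 := h.span_eq_top_of_card_eq_finrank' h1
  have h3 : ∀ u ∈ Submodule.span k (Set.range fun i : J' => β i), dot (exv K u) z = 0 := by
    intro u hu
    induction hu using Submodule.span_induction with
    | mem x hx =>
      obtain ⟨i, rfl⟩ := hx
      exact h0 i i.2
    | zero => simp [dot, exv]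
    | add x y _ _ hx hy =>
      have : exv K (x + y) = exv K x + exv K y := by
        funext i
        simp [exv]
      rw [this, dot_add, hx, hy, add_zero]
    | smul t x _ hx =>
      have : exv K (t • x) = algebraMap k K t • exv K x := by
        funext i
        simp only [exv, Pi.smul_apply, smul_eq_mul, map_mul]
      rw [this, dot_smul, hx, mul_zero]
  funext i
  have h4 := h3 (Pi.single i 1) (by rw [h2]; exact Submodule.mem_top)
  rw [Pi.zero_apply, ← h4]
  unfold dot exv
  rw [Finset.sum_eq_single i]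
  · simp
  · intro j _ hj
    rw [Pi.single_eq_of_ne hj, map_zero, zero_mul]
  · intro h
    exact absurd (Finset.mem_univ _) h

end comp

end Pool.Agent.R405.BU
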