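import Mathlib
import Pool.Agent.R405.BU2
import Pool.Agent.R405.ProjH

/-!
Vojta's inequality on blow-ups of projective space along a linear subspace.
-/

set_option autoImplicit false
set_option linter.unusedSectionVars false

open Finset

namespace Pool.Agent.R405.BU

open NumberField IsDedekindDomain Height Module MvPolynomial
open Pool.Agent.W180.OP (Pl av wt nrm le_nrm nrm_pos nrm_nonneg exists_nrm lam_eq liou wt_nonneg
  nrm_le)
open Pool.Agent.R405

section loc

variable {F : Type} [Field F]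

/-- common zeros or a bound -/
theorem zob (f : AbsoluteValue F ℝ) {n : ℕ} {σ : Type} [Fintype σ] (g : σ → Fin n → F) :
    (∃ y : Fin n → F, y ≠ 0 ∧ ∀ s, dot (g s) y = 0) ∨
    ∃ C : ℝ, 1 ≤ C ∧ ∀ (y : Fin n → F) (t : ℝ), 0 ≤ t → (∀ s, f (dot (g s) y) ≤ t) →
      nrm f y ≤ C * t := by
  classical
  by_cases h : ∃ y : Fin n → F, y ≠ 0 ∧ ∀ s, dot (g s) y = 0
  · exact Or.inl h
  · right
    push Not at h
    have h1 : ∀ i : Fin n, ∃ C : ℝ, 1 ≤ C ∧ ∀ (x : Fin n → F) (t : ℝ), 0 ≤ t →
        (∀ s, f (∑ j, g s j * x j) ≤ t) → f (∑ j, (Pi.single i 1 : Fin n → F) j * x j) ≤ C * t := by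
      intro i
      refine boundG f g (Pi.single i 1) fun x hx => ?_
      have hx0 : x = 0 := by
        by_contra hx0
        obtain ⟨s, hs⟩ := h x hx0
        exact hs (hx s)
      rw [hx0]
      simp
    choose C hC1 hC using h1
    have hs0 : 0 ≤ ∑ i, C i := Finset.sum_nonneg fun i _ => by linarith [hC1 i]
    refine ⟨1 + ∑ i, C i, by linarith, fun y t ht hy => ?_⟩
    refine nrm_le (by positivity) fun i => ?_
    have h2 := hC i y t ht hy
    have h3 : ∑ j, (Pi.single i 1 : Fin n → F) j * y j = y i := by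
      rw [Finset.sum_eq_single i]
      · simp
      · intro j _ hj
        rw [Pi.single_eq_of_ne hj, zero_mul]
      · intro h
        exact absurd (Finset.mem_univ _) h
    rw [h3] at h2
    refine h2.trans (mul_le_mul_of_nonneg_right ?_ ht)
    have := Finset.single_le_sum (f := C) (fun i _ => by linarith [hC1 i]) (Finset.mem_univ i)
    linarith

/-- common zeros off the exceptional divisor or a bound -/
theorem zobA (f : AbsoluteValue F ℝ) {a b : ℕ} {σ : Type} [Fintype σ] (g : σ → Fin a → F)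
    (h : σ → Fin b → F) :
    (∃ (y : Fin a → F) (z : Fin b → F), y ≠ 0 ∧ ∀ s, dot (g s) y + dot (h s) z = 0) ∨
    ∃ C : ℝ, 1 ≤ C ∧ ∀ (y : Fin a → F) (z : Fin b → F) (t : ℝ), 0 ≤ t →
      (∀ s, f (dot (g s) y + dot (h s) z) ≤ t) → nrm f y ≤ C * t := by
  classical
  by_cases hex : ∃ (y : Fin a → F) (z : Fin b → F), y ≠ 0 ∧ ∀ s, dot (g s) y + dot (h s) z = 0
  · exact Or.inl hex
  · right
    push Not at hex
    have h1 : ∀ i : Fin a, ∃ C : ℝ, 1 ≤ C ∧ ∀ (x : Fin a ⊕ Fin b → F) (t : ℝ), 0 ≤ t →
        (∀ s, f (∑ j, (Sum.elim (g s) (h s) : Fin a ⊕ Fin b → F) j * x j) ≤ t) →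
        f (∑ j, (Pi.single (Sum.inl i) 1 : Fin a ⊕ Fin b → F) j * x j) ≤ C * t := by
      intro i
      refine boundG f (fun s => Sum.elim (g s) (h s)) (Pi.single (Sum.inl i) 1) fun x hx => ?_
      have hx0 : (fun l => x (Sum.inl l)) = 0 := by
        by_contra hx0
        obtain ⟨s, hs⟩ := hex (fun l => x (Sum.inl l)) (fun l => x (Sum.inr l)) hx0
        apply hs
        have := hx s
        rw [Fintype.sum_sum_type] at this
        exact this
      rw [Finset.sum_eq_single (Sum.inl i)]
      · have := congrFun hx0 i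
        simp only [Pi.zero_apply] at this
        rw [this, mul_zero]
      · intro j _ hj
        rw [Pi.single_eq_of_ne hj, zero_mul]
      · intro h
        exact absurd (Finset.mem_univ _) h
    choose C hC1 hC using h1
    have hs0 : 0 ≤ ∑ i, C i := Finset.sum_nonneg fun i _ => by linarith [hC1 i]
    refine ⟨1 + ∑ i, C i, by linarith, fun y z t ht hy => ?_⟩
    refine nrm_le (by positivity) fun i => ?_
    have h2 := hC i (Sum.elim y z) t ht (by
      intro s
      rw [Fintype.sum_sum_type]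
      exact hy s)
    have h3 : ∑ j, (Pi.single (Sum.inl i) 1 : Fin a ⊕ Fin b → F) j *
        (Sum.elim y z : Fin a ⊕ Fin b → F) j = y i := by
      rw [Finset.sum_eq_single (Sum.inl i)]
      · simp
      · intro j _ hj
        rw [Pi.single_eq_of_ne hj, zero_mul]
      · intro h
        exact absurd (Finset.mem_univ _) h
    rw [h3] at h2
    refine h2.trans (mul_le_mul_of_nonneg_right ?_ ht)
    have := Finset.single_le_sum (f := C) (fun i _ => by linarith [hC1 i]) (Finset.mem_univ i)
    linarith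

end loc

section main

variable {k K : Type} [Field k] [NumberField k] [Field K] [NumberField K] [Algebra k K] {a b q : ℕ}

/-- the size of a point -/
noncomputable def siz {F : Type} [Field F] (f : AbsoluteValue F ℝ) (y : Fin a → F) (z : Fin b → F) :
    ℝ := max (nrm f y) (nrm f z)

/-- the local height of a component -/
noncomputable def lmb (f : AbsoluteValue K ℝ) (c : Cmp k K a b) (y : Fin a → K) (z : Fin b → K) : ℝ :=
  match c with
  | .ex => Real.log (siz f y z) - Real.log (nrm f y)
  | .ve l => Real.log (nrm f y) - Real.log (f (dot l y))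
  | .ho α β => Real.log (siz f y z) - Real.log (f (dot (exv K α) y + dot (exv K β) z))

theorem nrm_append {F : Type} [Field F] (f : AbsoluteValue F ℝ) (ha : 1 ≤ a) (hb : 1 ≤ b)
    (y : Fin a → F) (z : Fin b → F) : nrm f (Fin.append y z) = siz f y z := by
  have : Nonempty (Fin a) := ⟨⟨0, ha⟩⟩
  have : Nonempty (Fin b) := ⟨⟨0, hb⟩⟩
  have : Nonempty (Fin (a + b)) := ⟨⟨0, by omega⟩⟩
  unfold siz
  apply le_antisymm
  · unfold nrm
    refine ciSup_le fun j => ?_
    refine Fin.addCases (fun i => ?_) (fun i => ?_) j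
    · rw [Fin.append_left]
      exact (le_nrm f y i).trans (le_max_left _ _)
    · rw [Fin.append_right]
      exact (le_nrm f z i).trans (le_max_right _ _)
  · refine max_le ?_ ?_
    · unfold nrm
      refine ciSup_le fun i => ?_
      have := le_nrm f (Fin.append y z) (Fin.castAdd b i)
      rwa [Fin.append_left] at this
    · unfold nrm
      refine ciSup_le fun i => ?_
      have := le_nrm f (Fin.append y z) (Fin.natAdd a i)
      rwa [Fin.append_right] at this

/-- Liouville for the exceptional divisor -/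
theorem liouE (ha : 1 ≤ a) (hb : 1 ≤ b) (v : Pl k) : ∃ C : ℝ, 0 ≤ C ∧
    ∀ (y : Fin a → k) (z : Fin b → k), y ≠ 0 →
      logHeight y + wt v * (Real.log (siz (av v) y z) - Real.log (nrm (av v) y)) ≤
        logHeight (Fin.append y z) + C := by
  classical
  obtain ⟨C, hC, h⟩ := projH (k := k) (fun (i : Fin a) (j : Fin (a + b)) =>
    if j = Fin.castAdd b i then (1 : k) else 0) {v}
  refine ⟨C, hC, fun y z hy => ?_⟩
  have h1 : (fun i : Fin a => ∑ j, (if j = Fin.castAdd b i then (1 : k) else 0) *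
      Fin.append y z j) = y := by
    funext i
    rw [Finset.sum_eq_single (Fin.castAdd b i)]
    · rw [if_pos rfl, one_mul, Fin.append_left]
    · intro j _ hj
      rw [if_neg hj, zero_mul]
    · intro h
      exact absurd (Finset.mem_univ _) h
  have h2 := h (Fin.append y z) (by rw [h1]; exact hy)
  rw [h1, Finset.sum_singleton, nrm_append _ ha hb] at h2
  exact h2

theorem sum_append {F : Type} [Field F] (α y : Fin a → F) (β z : Fin b → F) :
    ∑ j, Fin.append α β j * Fin.append y z j = dot α y + dot β z := by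
  rw [Fin.sum_univ_add]
  simp [dot]

theorem append_ne {F : Type} [Field F] {y : Fin a → F} (z : Fin b → F) (hy : y ≠ 0) :
    Fin.append y z ≠ 0 := by
  intro h
  apply hy
  funext i
  have := congrFun h (Fin.castAdd b i)
  rwa [Fin.append_left] at this

/-- Liouville for a hyperplane -/
theorem liouH (ha : 1 ≤ a) (hb : 1 ≤ b) (α : Fin a → k) (β : Fin b → k) : ∃ C : ℝ, 0 ≤ C ∧
    ∀ (v : Pl k) (y : Fin a → k) (z : Fin b → k), y ≠ 0 → dot α y + dot β z ≠ 0 →
      wt v * (Real.log (siz (av v) y z) - Real.log (av v (dot α y + dot β z))) ≤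
        logHeight (Fin.append y z) + C := by
  classical
  obtain ⟨C, hC0, hC⟩ := liou (lff (Fin.append α β)) 1 (lff_hom _)
  refine ⟨C, hC0, fun v y z hy hne => ?_⟩
  have he : eval (Fin.append y z) (lff (Fin.append α β)) = dot α y + dot β z := by
    rw [eval_lff, sum_append]
  have h1 := hC {v} (Fin.append y z) (append_ne z hy) (by rw [he]; exact hne)
  rw [Finset.sum_singleton, lam_eq _ _ _ (append_ne z hy) (by rw [he]; exact hne), he,
    nrm_append _ ha hb] at h1
  have h2 := mul_le_mul_of_nonneg_left (le_max_right 0 (((1 : ℕ) : ℝ) *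
    Real.log (siz (av v) y z) - Real.log (av v (dot α y + dot β z)))) (wt_nonneg v)
  push_cast at h1 h2
  rw [one_mul] at h1 h2
  rw [one_mul] at h1
  linarith

/-- coefficients of a dependent hyperplane -/
theorem exists_cf (c : Fin q → Cmp k K a b) : ∃ cf : Finset (Fin q) → Fin q → Fin q → k,
    (∀ J' j i, i ∉ J' → cf J' j i = 0) ∧ ∀ J' j,
      (∃ t : Fin q → k, (∀ i, i ∉ J' → t i = 0) ∧ (c j).β = ∑ i, t i • (c i).β) →
      (c j).β = ∑ i, cf J' j i • (c i).β := by
  classical
  have h : ∀ (J' : Finset (Fin q)) (j : Fin q), ∃ t : Fin q → k, (∀ i, i ∉ J' → t i = 0) ∧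
      ((∃ t : Fin q → k, (∀ i, i ∉ J' → t i = 0) ∧ (c j).β = ∑ i, t i • (c i).β) →
      (c j).β = ∑ i, t i • (c i).β) := by
    intro J' j
    by_cases hex : ∃ t : Fin q → k, (∀ i, i ∉ J' → t i = 0) ∧ (c j).β = ∑ i, t i • (c i).β
    · obtain ⟨t, ht1, ht2⟩ := hex
      exact ⟨t, ht1, fun _ => ht2⟩
    · exact ⟨0, fun _ _ => rfl, fun h => absurd h hex⟩
  choose cf h1 h2 using h
  exact ⟨cf, h1, h2⟩

/-- the reduced form is small -/
theorem red_le (f : AbsoluteValue K ℝ) (c : Fin q → Cmp k K a b) (j : Fin q) (J' : Finset (Fin q))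
    (t : Fin q → k) (ht : ∀ i, i ∉ J' → t i = 0) (hβ : (c j).β = ∑ i, t i • (c i).β) :
    ∃ C : ℝ, 1 ≤ C ∧ ∀ (y : Fin a → K) (z : Fin b → K),
      (∀ i ∈ J', t i ≠ 0 → f (dot (exv K (c i).α) y + dot (exv K (c i).β) z) ≤
        f (dot (exv K (c j).α) y + dot (exv K (c j).β) z)) →
      f (dot (exv K (red c j t)) y) ≤
        C * f (dot (exv K (c j).α) y + dot (exv K (c j).β) z) := by
  classical
  have h0 : 0 ≤ ∑ i, f (algebraMap k K (t i)) := Finset.sum_nonneg fun _ _ => f.nonneg _
  refine ⟨1 + ∑ i, f (algebraMap k K (t i)), by linarith, fun y z h => ?_⟩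
  have h1 : dot (exv K (red c j t)) y = (dot (exv K (c j).α) y + dot (exv K (c j).β) z) +
      ∑ i, (-(algebraMap k K (t i)) * (dot (exv K (c i).α) y + dot (exv K (c i).β) z)) := by
    have h2 : exv K (c j).β = ∑ i, algebraMap k K (t i) • exv K (c i).β := by
      rw [← exv_comb, ← hβ]
    have h3 : dot (exv K (red c j t)) y = dot (exv K (c j).α) y -
        ∑ i, algebraMap k K (t i) * dot (exv K (c i).α) y := by
      rw [exv_red, sub_eq_add_neg, dot_add, ← neg_one_smul K, dot_smul, dot_sum]
      simp only [dot_smul]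
      ring
    rw [h3, h2, dot_sum]
    simp only [dot_smul, neg_mul, mul_add, Finset.sum_neg_distrib, Finset.sum_add_distrib]
    ring
  rw [h1]
  refine (f.add_le _ _).trans ?_
  rw [add_mul, one_mul]
  refine add_le_add le_rfl ((f.sum_le _ _).trans ?_)
  rw [Finset.sum_mul]
  refine Finset.sum_le_sum fun i _ => ?_
  rw [map_mul, AbsoluteValue.map_neg]
  by_cases hi : i ∈ J'
  · by_cases hti : t i = 0
    · rw [hti, map_zero, map_zero, zero_mul, zero_mul]
    · exact mul_le_mul_of_nonneg_left (h i hi hti) (f.nonneg _)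
  · rw [ht i hi, map_zero, map_zero, zero_mul, zero_mul]

end main

end Pool.Agent.R405.BU
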