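import Mathlib
import Pool.Agent.R405.BU3

/-!
Vojta's inequality on blow-ups of projective space along a linear subspace: main theorem over a
large field.
-/

set_option autoImplicit false
set_option linter.unusedSectionVars false

open Finset

namespace Pool.Agent.R405.BU

open NumberField IsDedekindDomain Height Module MvPolynomial
open Pool.Agent.W180.OP (Pl av wt nrm le_nrm nrm_pos nrm_nonneg exists_nrm lam_eq liou wt_nonneg
  nrm_le)
open Pool.Agent.R405

variable {k K : Type} [Field k] [NumberField k] [Field K] [NumberField K] [Algebra k K] {a b q : ℕ}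

theorem log_lt_of {X u c : ℝ} (hX : 0 < X) (hu : 0 < u) (h : c < Real.log X - Real.log u) :
    u ≤ X * Real.exp (-c) := by
  have h1 : Real.log u < Real.log X - c := by linarith
  have h2 : Real.log X - c = Real.log (X * Real.exp (-c)) := by
    rw [Real.log_mul hX.ne' (Real.exp_pos _).ne', Real.log_exp]
    ring
  rw [h2] at h1
  exact (Real.log_lt_log_iff hu (by positivity)).1 h1 |>.le

/-- components with large local heights have a common point -/
theorem points (f : AbsoluteValue K ℝ) (c : Fin q → Cmp k K a b) :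
    ∃ cE c1 : ℝ, 0 < cE ∧ 0 < c1 ∧ ∀ (yK : Fin a → K) (zK : Fin b → K), yK ≠ 0 →
      (∀ l, (c l).isV → 0 < f (dot (c l).l yK)) →
      (∀ l, (c l).isH → 0 < f (dot (exv K (c l).α) yK + dot (exv K (c l).β) zK)) →
      ∀ I J : Finset (Fin q), (∀ i ∈ I, (c i).isV ∧ c1 < lmb f (c i) yK zK) →
      (∀ j ∈ J, (c j).isH ∧ c1 < lmb f (c j) yK zK) →
      ∃ (yP : Fin a → K) (e : K) (zP : Fin b → K), yP ≠ 0 ∧ (e ≠ 0 ∨ zP ≠ 0) ∧
      (∀ i ∈ I, (c i).eqn yP e zP = 0) ∧ (∀ j ∈ J, (c j).eqn yP e zP = 0) ∧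
      (Real.log (siz f yK zK) - Real.log (nrm f yK) ≤ cE ∨ (e = 0 ∧ zP ≠ 0)) := by
  classical
  have hA : ∀ T : Finset (Fin q), ∃ C : ℝ, 1 ≤ C ∧
      ((∃ (y : Fin a → K) (z : Fin b → K), y ≠ 0 ∧
        ∀ s ∈ T, dot ((c s).gy 1) y + dot (c s).gz z = 0) ∨
      ∀ (y : Fin a → K) (z : Fin b → K) (t : ℝ), 0 ≤ t →
        (∀ s ∈ T, f (dot ((c s).gy 1) y + dot (c s).gz z) ≤ t) → nrm f y ≤ C * t) := by
    intro T
    rcases zobA f (fun s : T => (c s).gy 1) (fun s : T => (c s).gz) with ⟨y, z, hy, h⟩ | ⟨C, hC, h⟩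
    · exact ⟨1, le_rfl, Or.inl ⟨y, z, hy, fun s hs => h ⟨s, hs⟩⟩⟩
    · exact ⟨C, hC, Or.inr fun y z t ht h' => h y z t ht fun s => h' s s.2⟩
  choose CA hCA1 hCA using hA
  have hB1 : ∀ T : Finset (Fin q), ∃ C : ℝ, 1 ≤ C ∧
      ((∃ y : Fin a → K, y ≠ 0 ∧ ∀ s ∈ T, dot (c s).l y = 0) ∨
      ∀ (y : Fin a → K) (t : ℝ), 0 ≤ t → (∀ s ∈ T, f (dot (c s).l y) ≤ t) → nrm f y ≤ C * t) := by
    intro T
    rcases zob f (fun s : T => (c s).l) with ⟨y, hy, h⟩ | ⟨C, hC, h⟩
    · exact ⟨1, le_rfl, Or.inl ⟨y, hy, fun s hs => h ⟨s, hs⟩⟩⟩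
    · exact ⟨C, hC, Or.inr fun y t ht h' => h y t ht fun s => h' s s.2⟩
  choose CB1 hCB11 hCB1 using hB1
  have hB2 : ∀ T : Finset (Fin q), ∃ C : ℝ, 1 ≤ C ∧
      ((∃ z : Fin b → K, z ≠ 0 ∧ ∀ s ∈ T, dot (exv K (c s).β) z = 0) ∨
      ∀ (z : Fin b → K) (t : ℝ), 0 ≤ t → (∀ s ∈ T, f (dot (exv K (c s).β) z) ≤ t) →
        nrm f z ≤ C * t) := by
    intro T
    rcases zob f (fun s : T => exv K (c s).β) with ⟨y, hy, h⟩ | ⟨C, hC, h⟩
    · exact ⟨1, le_rfl, Or.inl ⟨y, hy, fun s hs => h ⟨s, hs⟩⟩⟩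
    · exact ⟨C, hC, Or.inr fun y t ht h' => h y t ht fun s => h' s s.2⟩
  choose CB2 hCB21 hCB2 using hB2
  set A1 : ℝ := 1 + ∑ T, CA T with hA1
  set A2 : ℝ := 1 + ∑ T, CB1 T with hA2
  set A3 : ℝ := 1 + ∑ T, CB2 T with hA3
  set Bα : ℝ := 1 + ∑ l, ∑ j, f (exv K (c l).α j) with hBα
  have hA1T : ∀ T, CA T ≤ A1 := fun T => by
    have := Finset.single_le_sum (f := CA) (fun T _ => by linarith [hCA1 T]) (Finset.mem_univ T)
    linarith
  have hA2T : ∀ T, CB1 T ≤ A2 := fun T => by
    have := Finset.single_le_sum (f := CB1) (fun T _ => by linarith [hCB11 T]) (Finset.mem_univ T)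
    linarith
  have hA3T : ∀ T, CB2 T ≤ A3 := fun T => by
    have := Finset.single_le_sum (f := CB2) (fun T _ => by linarith [hCB21 T]) (Finset.mem_univ T)
    linarith
  have hA11 : 1 ≤ A1 := (hCA1 ∅).trans (hA1T ∅)
  have hA21 : 1 ≤ A2 := (hCB11 ∅).trans (hA2T ∅)
  have hA31 : 1 ≤ A3 := (hCB21 ∅).trans (hA3T ∅)
  have hBα1 : 1 ≤ Bα := by
    have : 0 ≤ ∑ l, ∑ j, f (exv K (c l).α j) :=
      Finset.sum_nonneg fun _ _ => Finset.sum_nonneg fun _ _ => f.nonneg _
    linarith
  have hBαl : ∀ l (y : Fin a → K), f (dot (exv K (c l).α) y) ≤ Bα * nrm f y := by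
    intro l y
    refine (abs_dot f _ _).trans (mul_le_mul_of_nonneg_right ?_ (nrm_nonneg f y))
    have := Finset.single_le_sum (f := fun l => ∑ j, f (exv K (c l).α j))
      (fun l _ => Finset.sum_nonneg fun _ _ => f.nonneg _) (Finset.mem_univ l)
    linarith
  -- thresholds
  set cE : ℝ := Real.log (4 * A3 * Bα) with hcE
  set c1 : ℝ := cE + Real.log (4 * A1 * A2 * A3) with hc1
  have hcE0 : 0 < cE := Real.log_pos (by nlinarith)
  have hl4 : 0 < Real.log (4 * A1 * A2 * A3) := by
    apply Real.log_pos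
    have h1 : 1 ≤ A1 * A2 := one_le_mul_of_one_le_of_one_le hA11 hA21
    have h2 : 1 ≤ A1 * A2 * A3 := one_le_mul_of_one_le_of_one_le h1 hA31
    nlinarith
  have hc10 : 0 < c1 := by linarith
  have hexpE : Real.exp (-cE) = (4 * A3 * Bα)⁻¹ := by
    rw [hcE, Real.exp_neg, Real.exp_log (by positivity)]
  have hexp1 : Real.exp (-c1) ≤ (4 * A1 * A2 * A3)⁻¹ := by
    have h1 : Real.exp (-c1) = Real.exp (-cE) * (4 * A1 * A2 * A3)⁻¹ := by
      rw [hc1, neg_add, Real.exp_add, Real.exp_neg (Real.log (4 * A1 * A2 * A3)),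
        Real.exp_log (by positivity)]
    rw [h1]
    have h2 : Real.exp (-cE) ≤ 1 := Real.exp_le_one_iff.2 (by linarith)
    have h3 : 0 < (4 * A1 * A2 * A3)⁻¹ := by positivity
    nlinarith
  refine ⟨cE, c1, hcE0, hc10, fun yK zK hyK0 hneV hneH I J hIm hJm => ?_⟩
  have hnY : 0 < nrm f yK := nrm_pos f hyK0
  set X := siz f yK zK with hX
  have hYX : nrm f yK ≤ X := le_max_left _ _
  have hX0 : 0 < X := hnY.trans_le hYX
  set lE : ℝ := Real.log X - Real.log (nrm f yK) with hlE
  have hVl : ∀ l, (c l).isV → c l = .ve (c l).l := by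
    rintro l ⟨u, hu⟩
    rw [hu]
    rfl
  have hHl' : ∀ l, (c l).isH → c l = .ho (c l).α (c l).β := by
    rintro l ⟨α, β, hu⟩
    rw [hu]
    rfl
  have hlamV : ∀ l, (c l).isV → lmb f (c l) yK zK = Real.log (nrm f yK) -
      Real.log (f (dot (c l).l yK)) := by
    intro l hl
    rw [hVl l hl]
    rfl
  have hlamH : ∀ l, (c l).isH → lmb f (c l) yK zK = Real.log X -
      Real.log (f (dot (exv K (c l).α) yK + dot (exv K (c l).β) zK)) := by
    intro l hl
    rw [hHl' l hl]
    rfl
  have hIs : ∀ l ∈ I, f (dot (c l).l yK) ≤ nrm f yK * Real.exp (-c1) := by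
    intro l hl
    obtain ⟨h1, h2⟩ := hIm l hl
    rw [hlamV l h1] at h2
    exact log_lt_of hnY (hneV l h1) h2
  have hJs : ∀ l ∈ J, f (dot (exv K (c l).α) yK + dot (exv K (c l).β) zK) ≤
      X * Real.exp (-c1) := by
    intro l hl
    obtain ⟨h1, h2⟩ := hJm l hl
    rw [hlamH l h1] at h2
    exact log_lt_of hX0 (hneH l h1) h2
  by_cases hfar : lE ≤ cE
  · rcases hCA (I ∪ J) with ⟨yP, zP, hyP, h⟩ | h
    · refine ⟨yP, 1, zP, hyP, Or.inl one_ne_zero, fun i hi' => ?_, fun j hj => ?_, Or.inl hfar⟩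
      · have h1 := h i (Finset.mem_union_left _ hi')
        rw [hVl i (hIm i hi').1] at h1 ⊢
        have h2 : dot (c i).l yP + dot (0 : Fin b → K) zP = 0 := h1
        show dot (c i).l yP = 0
        rw [← h2]
        simp [dot]
      · have h1 := h j (Finset.mem_union_right _ hj)
        rw [hHl' j (hJm j hj).1] at h1 ⊢
        have h2 : dot ((1 : K) • exv K (c j).α) yP + dot (exv K (c j).β) zP = 0 := h1
        show dot (exv K (c j).α) yP * 1 + dot (exv K (c j).β) zP = 0
        rw [mul_one]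
        rwa [one_smul] at h2
    · exfalso
      have h1 := h yK zK (X * Real.exp (-c1)) (by positivity) (by
        intro s hs
        rcases Finset.mem_union.1 hs with hs | hs
        · rw [hVl s (hIm s hs).1]
          have h2 : dot ((Cmp.ve (c s).l : Cmp k K a b).gy 1) yK +
              dot (Cmp.ve (c s).l : Cmp k K a b).gz zK = dot (c s).l yK := by
            simp [Cmp.gy, Cmp.gz, dot]
          rw [h2]
          exact (hIs s hs).trans (mul_le_mul_of_nonneg_right hYX (Real.exp_pos _).le)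
        · rw [hHl' s (hJm s hs).1]
          have h2 : dot ((Cmp.ho (c s).α (c s).β : Cmp k K a b).gy 1) yK +
              dot (Cmp.ho (c s).α (c s).β : Cmp k K a b).gz zK =
              dot (exv K (c s).α) yK + dot (exv K (c s).β) zK := by
            simp only [Cmp.gy, Cmp.gz, one_smul]
          rw [h2]
          exact hJs s hs)
      have h2 : nrm f yK ≤ A1 * (X * Real.exp (-c1)) :=
        h1.trans (mul_le_mul_of_nonneg_right (hA1T _) (by positivity))
      have h3 := Real.log_le_log hnY h2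
      rw [Real.log_mul (by positivity) (by positivity), Real.log_mul hX0.ne'
        (Real.exp_pos _).ne', Real.log_exp] at h3
      have h4 : Real.log A1 < Real.log (4 * A1 * A2 * A3) := by
        apply Real.log_lt_log (by positivity)
        have h5 : 1 ≤ A2 * A3 := one_le_mul_of_one_le_of_one_le hA21 hA31
        nlinarith
      linarith
  · push Not at hfar
    have hYs : nrm f yK ≤ X * Real.exp (-cE) := log_lt_of hX0 hnY hfar
    obtain ⟨yP, hyP, hyP'⟩ : ∃ y : Fin a → K, y ≠ 0 ∧ ∀ s ∈ I, dot (c s).l y = 0 := by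
      rcases hCB1 I with h | h
      · exact h
      · exfalso
        have h1 := h yK (nrm f yK * Real.exp (-c1)) (by positivity) hIs
        have h2 : nrm f yK ≤ A2 * (nrm f yK * Real.exp (-c1)) :=
          h1.trans (mul_le_mul_of_nonneg_right (hA2T _) (by positivity))
        have h3 : A2 * (nrm f yK * Real.exp (-c1)) ≤ A2 * (nrm f yK * (4 * A1 * A2 * A3)⁻¹) := by
          gcongr
        have h4 : A2 * (nrm f yK * (4 * A1 * A2 * A3)⁻¹) = nrm f yK * (4 * A1 * A3)⁻¹ := by
          field_simp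
        have h5 : (4 * A1 * A3)⁻¹ ≤ 4⁻¹ := by
          apply inv_anti₀ (by norm_num)
          have : 1 ≤ A1 * A3 := one_le_mul_of_one_le_of_one_le hA11 hA31
          nlinarith
        have h6 : nrm f yK * (4 * A1 * A3)⁻¹ ≤ nrm f yK * 4⁻¹ :=
          mul_le_mul_of_nonneg_left h5 hnY.le
        linarith
    obtain ⟨zP, hzP, hzP'⟩ : ∃ z : Fin b → K, z ≠ 0 ∧ ∀ s ∈ J, dot (exv K (c s).β) z = 0 := by
      rcases hCB2 J with h | h
      · exact h
      · exfalso
        have h1 := h zK (X * Real.exp (-c1) + Bα * nrm f yK) (by positivity) (by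
          intro s hs
          have h2 : dot (exv K (c s).β) zK = (dot (exv K (c s).α) yK +
              dot (exv K (c s).β) zK) + -(dot (exv K (c s).α) yK) := by ring
          rw [h2]
          refine (f.add_le _ _).trans (add_le_add (hJs s hs) ?_)
          rw [AbsoluteValue.map_neg]
          exact hBαl s yK)
        have h2 : nrm f zK ≤ A3 * (X * Real.exp (-c1) + Bα * nrm f yK) :=
          h1.trans (mul_le_mul_of_nonneg_right (hA3T _) (by positivity))
        have h3 : A3 * (X * Real.exp (-c1)) ≤ X * 4⁻¹ := by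
          have e1 : A3 * (X * Real.exp (-c1)) ≤ A3 * (X * (4 * A1 * A2 * A3)⁻¹) := by gcongr
          have e2 : A3 * (X * (4 * A1 * A2 * A3)⁻¹) = X * (4 * A1 * A2)⁻¹ := by field_simp
          have e3 : (4 * A1 * A2)⁻¹ ≤ 4⁻¹ := by
            apply inv_anti₀ (by norm_num)
            have : 1 ≤ A1 * A2 := one_le_mul_of_one_le_of_one_le hA11 hA21
            nlinarith
          have e4 : X * (4 * A1 * A2)⁻¹ ≤ X * 4⁻¹ := mul_le_mul_of_nonneg_left e3 hX0.le
          linarith
        have h4 : A3 * (Bα * nrm f yK) ≤ X * 4⁻¹ := by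
          have e1 : A3 * (Bα * nrm f yK) ≤ A3 * (Bα * (X * Real.exp (-cE))) := by gcongr
          rw [hexpE] at e1
          have e2 : A3 * (Bα * (X * (4 * A3 * Bα)⁻¹)) = X * 4⁻¹ := by field_simp
          linarith
        have h5 : nrm f zK < X := by
          rw [mul_add] at h2
          linarith
        have h6 : nrm f yK < X := by
          refine hYs.trans_lt ?_
          have : Real.exp (-cE) < 1 := by
            rw [← Real.exp_zero]
            exact Real.exp_lt_exp.2 (by linarith)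
          nlinarith
        exact absurd (max_lt h6 h5) (lt_irrefl _)
    refine ⟨yP, 0, zP, hyP, Or.inr hzP, fun i hi' => ?_, fun j hj => ?_, Or.inr ⟨rfl, hzP⟩⟩
    · have h1 := hyP' i hi'
      rw [hVl i (hIm i hi').1]
      exact h1
    · have h1 := hzP' j hj
      rw [hHl' j (hJm j hj).1]
      show dot (exv K (c j).α) yP * 0 + dot (exv K (c j).β) zP = 0
      rw [mul_zero, zero_add, h1]

theorem buK [IsGalois ℚ K] (hi : ∃ z : K, z ^ 2 = -1) (ha : 1 ≤ a) (hb : 1 ≤ b)
    (c : Fin q → Cmp k K a b) (hnc : NCb c) :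
    ∃ Z : Finset (Fin a → k), (∀ z ∈ Z, z ≠ 0) ∧ ∀ (v : Pl k) (f : AbsoluteValue K ℝ), Good v f →
      ∀ ε : ℝ, 0 < ε → ∃ C : ℝ, ∀ (y : Fin a → k) (z : Fin b → k), y ≠ 0 →
        (∀ m ∈ Z, ∑ j, m j * y j ≠ 0) → (∀ l, (c l).eqn (exv K y) 1 (exv K z) ≠ 0) →
        wt v * ∑ l, lmb f (c l) (exv K y) (exv K z) ≤
          (b + 1 + ε) * logHeight (Fin.append y z) + (a - 1) * logHeight y + C := by
  classical
  set e0 : Fin a → K := Pi.single ⟨0, ha⟩ 1 with he0
  have he0n : e0 ≠ 0 := by
    intro h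
    have := congrFun h ⟨0, ha⟩
    simp [he0] at this
  obtain ⟨cf, hcf, hcfβ⟩ := exists_cf c
  set H : Fin q ⊕ (Finset (Fin q) × Fin q) → Fin a → K :=
    Sum.elim (fun i => if (c i).l = 0 then e0 else (c i).l)
      (fun p => if exv K (red c p.2 (cf p.1 p.2)) = 0 then e0 else
        exv K (red c p.2 (cf p.1 p.2))) with hH
  have hH0 : ∀ l, H l ≠ 0 := by
    intro l
    rcases l with i | p
    · show (if (c i).l = 0 then e0 else (c i).l) ≠ 0
      split_ifs with h
      · exact he0n
      · exact h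
    · show (if exv K (red c p.2 (cf p.1 p.2)) = 0 then e0 else
        exv K (red c p.2 (cf p.1 p.2))) ≠ 0
      split_ifs with h
      · exact he0n
      · exact h
  obtain ⟨Z, hZ, hmain⟩ := schSub (k := k) hi ha H hH0
  refine ⟨Z, hZ, fun v f hf ε hε => ?_⟩
  have hw := wt_nonneg v
  obtain ⟨C0, hC0, hsch⟩ := hmain v f hf ε hε
  obtain ⟨CE, hCE, hE⟩ := liouE (k := k) ha hb v
  choose CH hCH hHl using fun l => liouH (k := k) ha hb (c l).α (c l).β
  have hR : ∀ (J' : Finset (Fin q)) (j : Fin q), ∃ C : ℝ, 1 ≤ C ∧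
      ((c j).β = ∑ i, cf J' j i • (c i).β → ∀ (y : Fin a → K) (z : Fin b → K),
      (∀ i ∈ J', cf J' j i ≠ 0 → f (dot (exv K (c i).α) y + dot (exv K (c i).β) z) ≤
        f (dot (exv K (c j).α) y + dot (exv K (c j).β) z)) →
      f (dot (exv K (red c j (cf J' j))) y) ≤
        C * f (dot (exv K (c j).α) y + dot (exv K (c j).β) z)) := by
    intro J' j
    by_cases h : (c j).β = ∑ i, cf J' j i • (c i).β
    · obtain ⟨C, hC, h1⟩ := red_le f c j J' (cf J' j) (hcf J' j) h
      exact ⟨C, hC, fun _ => h1⟩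
    · exact ⟨1, le_rfl, fun h' => absurd h' h⟩
  choose CR hCR1 hCR using hR
  obtain ⟨cE, c1, hcE0, hc10, hpts⟩ := points f c
  set DR : ℝ := ∑ J', ∑ j, Real.log (CR J' j) with hDR
  set DH : ℝ := ∑ l, CH l with hDH
  have hDRj : ∀ J' j, Real.log (CR J' j) ≤ DR := by
    intro J' j
    exact (Finset.single_le_sum (f := fun j => Real.log (CR J' j))
      (fun j _ => Real.log_nonneg (hCR1 J' j)) (Finset.mem_univ j)).trans
      (Finset.single_le_sum (f := fun J' => ∑ j, Real.log (CR J' j))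
        (fun J' _ => Finset.sum_nonneg fun j _ => Real.log_nonneg (hCR1 J' j))
        (Finset.mem_univ J'))
  have hDR0 : 0 ≤ DR := Finset.sum_nonneg fun J' _ => Finset.sum_nonneg fun j _ =>
    Real.log_nonneg (hCR1 J' j)
  have hDHl : ∀ l, CH l ≤ DH := fun l =>
    Finset.single_le_sum (f := CH) (fun l _ => hCH l) (Finset.mem_univ l)
  have hDH0 : 0 ≤ DH := Finset.sum_nonneg fun l _ => hCH l
  -- the constant
  set QQ : ℝ := q * (wt v * c1) + q * (wt v * DR) + 2 * q * (wt v * cE) + q * DH + b * DH + CE +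
    (1 + ε) * CE + C0 with hQQ
  refine ⟨QQ, fun y z hy hZy hoff => ?_⟩
  set yK := exv K y with hyK
  set zK := exv K z with hzK
  have hyK0 : yK ≠ 0 := exv_ne hy
  have hnY : 0 < nrm f yK := nrm_pos f hyK0
  set X := siz f yK zK with hX
  have hYX : nrm f yK ≤ X := le_max_left _ _
  have hX0 : 0 < X := hnY.trans_le hYX
  set lE : ℝ := Real.log X - Real.log (nrm f yK) with hlE
  have hlE0 : 0 ≤ lE := sub_nonneg.2 (Real.log_le_log hnY hYX)
  set lam : Fin q → ℝ := fun l => lmb f (c l) yK zK with hlam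
  have hhF := logHeight_nonneg y
  have hhH := logHeight_nonneg (Fin.append y z)
  -- relation with the absolute value of `k`
  have hnrmy : nrm f yK = nrm (av v) y := hf.nrm_ext y
  have hnrmz : nrm f zK = nrm (av v) z := hf.nrm_ext z
  have hsiz : X = siz (av v) y z := by rw [hX, siz, hnrmy, hnrmz, siz]
  have hho : ∀ α β, f (dot (exv K α) yK + dot (exv K β) zK) = av v (dot α y + dot β z) := by
    intro α β
    rw [hyK, hzK, dot_exv, dot_exv, ← map_add, hf.ext]
    rfl
  have hwE : logHeight y + wt v * lE ≤ logHeight (Fin.append y z) + CE := by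
    have := hE y z hy
    rw [← hsiz, ← hnrmy] at this
    exact this
  have hwlE : 0 ≤ wt v * lE := mul_nonneg hw hlE0
  -- kinds
  have hVl : ∀ l, (c l).isV → c l = .ve (c l).l := by
    rintro l ⟨u, hu⟩
    rw [hu]
    rfl
  have hHl' : ∀ l, (c l).isH → c l = .ho (c l).α (c l).β := by
    rintro l ⟨α, β, hu⟩
    rw [hu]
    rfl
  have hkind : ∀ l, c l = .ex ∨ (c l).isV ∨ (c l).isH := by
    intro l
    rcases h : c l with _ | u | ⟨α, β⟩
    · exact Or.inl rfl
    · exact Or.inr (Or.inl ⟨u, rfl⟩)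
    · exact Or.inr (Or.inr ⟨α, β, rfl⟩)
  have hlamV : ∀ l, (c l).isV → lam l = Real.log (nrm f yK) - Real.log (f (dot (c l).l yK)) := by
    intro l hl
    show lmb f (c l) yK zK = _
    rw [hVl l hl]
    rfl
  have hlamH : ∀ l, (c l).isH → lam l = Real.log X -
      Real.log (f (dot (exv K (c l).α) yK + dot (exv K (c l).β) zK)) := by
    intro l hl
    show lmb f (c l) yK zK = _
    rw [hHl' l hl]
    rfl
  have hlamE : ∀ l, c l = .ex → lam l = lE := by
    intro l hl
    show lmb f (c l) yK zK = _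
    rw [hl]
    rfl
  have hneV : ∀ l, (c l).isV → 0 < f (dot (c l).l yK) := by
    intro l hl
    have := hoff l
    rw [hVl l hl] at this
    exact f.pos_iff.2 this
  have hneH : ∀ l, (c l).isH → 0 < f (dot (exv K (c l).α) yK + dot (exv K (c l).β) zK) := by
    intro l hl
    have := hoff l
    rw [hHl' l hl] at this
    have h2 : dot (exv K (c l).α) yK * 1 + dot (exv K (c l).β) zK ≠ 0 := this
    rw [mul_one] at h2
    exact f.pos_iff.2 h2
  -- the large components
  set I : Finset (Fin q) := Finset.univ.filter fun l => (c l).isV ∧ c1 < lam l with hI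
  set J : Finset (Fin q) := Finset.univ.filter fun l => (c l).isH ∧ c1 < lam l with hJ
  have hIm : ∀ l, l ∈ I ↔ (c l).isV ∧ c1 < lam l := fun l => by simp [hI]
  have hJm : ∀ l, l ∈ J ↔ (c l).isH ∧ c1 < lam l := fun l => by simp [hJ]
  -- the common point
  obtain ⟨yP, e, zP, hyP, hez, hPI, hPJ, hcase⟩ := hpts yK zK hyK0 hneV hneH I J
    (fun i hi' => (hIm i).1 hi') (fun j hj => (hJm j).1 hj)
  -- the independent hyperplanes
  obtain ⟨J', hJ'J, hJ'li, hspan, hexch⟩ := greedyB (fun l => (c l).β) J lam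
  have hIV : ∀ i ∈ I, (c i).isV := fun i hi' => ((hIm i).1 hi').1
  have hJH : ∀ j ∈ J, (c j).isH := fun j hj => ((hJm j).1 hj).1
  have hβJ : ∀ j ∈ J, (c j).β = ∑ i, cf J' j i • (c i).β := fun j hj => hcfβ J' j (hspan j hj)
  have hind := indep c hnc I J J' hIV hJH hJ'J yP e zP hyP hez hPI hPJ (cf J') (hcf J') hβJ
  set W1 : Finset (Fin q ⊕ (Finset (Fin q) × Fin q)) := I.image Sum.inl with hW1
  set W2 : Finset (Fin q ⊕ (Finset (Fin q) × Fin q)) :=
    (J \ J').image (fun j => Sum.inr (J', j)) with hW2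
  have hdisj : Disjoint W1 W2 := by
    rw [Finset.disjoint_left]
    intro w h1 h2
    obtain ⟨i, -, rfl⟩ := Finset.mem_image.1 h1
    obtain ⟨j, -, h⟩ := Finset.mem_image.1 h2
    cases h
  have hln0 : ∀ i ∈ I, (c i).l ≠ 0 := by
    intro i hi' h0
    have := (hind (Pi.single i 1) 0 (fun l hl => Pi.single_eq_of_ne (by
      rintro rfl
      exact hl hi') _) (fun _ _ => rfl) (by
      rw [Finset.sum_eq_single i]
      · simp [h0]
      · intro l _ hl
        rw [Pi.single_eq_of_ne hl, zero_smul]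
      · intro h
        exact absurd (Finset.mem_univ _) h)).2 i
    rw [Pi.single_eq_same] at this
    exact one_ne_zero this
  have hRn0 : ∀ j ∈ J \ J', exv K (red c j (cf J' j)) ≠ 0 := by
    intro j hj h0
    have := (hind 0 (Pi.single j 1) (fun _ _ => rfl) (fun l hl => Pi.single_eq_of_ne (by
      rintro rfl
      exact hl hj) _) (by
      rw [Finset.sum_eq_single (s := Finset.univ) (f := fun l => (Pi.single j 1 : Fin q → K) l •
        exv K (red c l (cf J' l))) j]
      · simp [h0]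
      · intro l _ hl
        rw [Pi.single_eq_of_ne hl, zero_smul]
      · intro h
        exact absurd (Finset.mem_univ _) h)).1 j
    rw [Pi.single_eq_same] at this
    exact one_ne_zero this
  have hHI : ∀ i ∈ I, H (Sum.inl i) = (c i).l := fun i hi' => if_neg (hln0 i hi')
  have hHJ : ∀ j ∈ J \ J', H (Sum.inr (J', j)) = exv K (red c j (cf J' j)) :=
    fun j hj => if_neg (hRn0 j hj)
  have hWli : LinearIndependent K (fun w : (W1 ∪ W2 : Finset _) => H w) := by
    rw [Fintype.linearIndependent_iff]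
    intro g hg
    set G : Fin q ⊕ (Finset (Fin q) × Fin q) → K := fun l =>
      if h : l ∈ W1 ∪ W2 then g ⟨l, h⟩ else 0 with hG
    have hG0 : ∀ l, l ∉ W1 ∪ W2 → G l = 0 := fun l hl => dif_neg hl
    have hGs : ∑ l ∈ W1 ∪ W2, G l • H l = 0 := by
      rw [← Finset.sum_coe_sort (W1 ∪ W2) (fun l => G l • H l), ← hg]
      refine Finset.sum_congr rfl fun l _ => ?_
      simp only [hG, l.2, dif_pos]
    rw [Finset.sum_union hdisj, hW1, hW2, Finset.sum_image fun a _ b _ h => Sum.inl_injective h,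
      Finset.sum_image fun a _ b _ h => (Prod.ext_iff.1 (Sum.inr_injective h)).2] at hGs
    have h1 := hind (fun i => if i ∈ I then G (Sum.inl i) else 0)
      (fun j => if j ∈ J \ J' then G (Sum.inr (J', j)) else 0) (fun i hi' => if_neg hi')
      (fun j hj => if_neg hj) (by
      rw [← hGs]
      congr 1
      · rw [← Finset.sum_subset (Finset.subset_univ I)]
        · refine Finset.sum_congr rfl fun i hi' => ?_
          rw [if_pos hi', hHI i hi']
        · intro i _ hi'
          rw [if_neg hi', zero_smul]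
      · rw [← Finset.sum_subset (Finset.subset_univ (J \ J'))]
        · refine Finset.sum_congr rfl fun j hj => ?_
          rw [if_pos hj, hHJ j hj]
        · intro j _ hj
          rw [if_neg hj, zero_smul])
    intro l
    have hGl : G l = g l := by
      simp only [hG, l.2, dif_pos]
    rw [← hGl]
    rcases Finset.mem_union.1 l.2 with h | h
    · obtain ⟨i, hi', h2⟩ := Finset.mem_image.1 h
      rw [← h2]
      have := h1.2 i
      rwa [if_pos hi'] at this
    · obtain ⟨j, hj, h2⟩ := Finset.mem_image.1 h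
      rw [← h2]
      have := h1.1 j
      rwa [if_pos hj] at this
  obtain ⟨hHx, hsch2⟩ := hsch y hy hZy
  have hS := hsch2 (W1 ∪ W2) hWli
  rw [Finset.sum_union hdisj, hW1, hW2, Finset.sum_image fun a _ b _ h => Sum.inl_injective h,
    Finset.sum_image fun a _ b _ h => (Prod.ext_iff.1 (Sum.inr_injective h)).2] at hS
  rw [← hnrmy] at hS
  have hSI : ∑ i ∈ I, (Real.log (nrm f yK) - Real.log (f (dot (H (Sum.inl i)) (exv K y)))) =
      ∑ i ∈ I, lam i := by
    refine Finset.sum_congr rfl fun i hi' => ?_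
    rw [hHI i hi', hlamV i (hIV i hi')]
  rw [hSI] at hS
  -- the dependent hyperplanes
  have hdep : ∀ j ∈ J \ J', lam j ≤ lE + DR +
      (Real.log (nrm f yK) - Real.log (f (dot (H (Sum.inr (J', j))) (exv K y)))) := by
    intro j hj
    obtain ⟨hj1, hj2⟩ := Finset.mem_sdiff.1 hj
    have hHj := hHx (Sum.inr (J', j))
    rw [hHJ j hj] at hHj ⊢
    have h1 := hCR J' j (hβJ j hj1) yK zK (by
      intro i hi' hci
      have h2 := hexch j hj1 (cf J' j) (hcf J' j) (hβJ j hj1) i hi' hci
      rw [hlamH j (hJH j hj1), hlamH i (hJH i (hJ'J hi'))] at h2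
      exact (Real.log_le_log_iff (hneH i (hJH i (hJ'J hi'))) (hneH j (hJH j hj1))).1 (by linarith))
    have h2 := Real.log_le_log (f.pos_iff.2 hHj) h1
    rw [Real.log_mul (by linarith [hCR1 J' j]) (hneH j (hJH j hj1)).ne'] at h2
    rw [hlamH j (hJH j hj1)]
    have h3 := hDRj J' j
    simp only [hlE]
    linarith
  -- the independent ones
  have hin : ∀ j ∈ J', wt v * lam j ≤ logHeight (Fin.append y z) + DH := by
    intro j hj
    have hjH := hJH j (hJ'J hj)
    have h0 : dot (c j).α y + dot (c j).β z ≠ 0 := by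
      intro h
      have h1 := hneH j hjH
      rw [hho, h, map_zero] at h1
      exact lt_irrefl _ h1
    have h1 := hHl j v y z hy h0
    rw [hlamH j hjH, hho, hsiz]
    linarith [hDHl j]
  -- sums
  set X0 : Finset (Fin q) := Finset.univ.filter fun l => c l = .ex with hX0def
  have hX0m : ∀ l, l ∈ X0 ↔ c l = .ex := fun l => by simp [hX0def]
  have hsplit : ∑ l, lam l ≤ ∑ l ∈ X0, lE + (∑ i ∈ I, lam i + ∑ j ∈ J, lam j) + q * c1 := by
    have h1 : ∀ l, lam l ≤ (if l ∈ X0 then lE else 0) + ((if l ∈ I then lam l else 0) +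
        (if l ∈ J then lam l else 0)) + c1 := by
      intro l
      rcases hkind l with h | h | h
      · have e1 : l ∉ I := fun h' => by
          obtain ⟨u, hu⟩ := hIV l h'
          rw [h] at hu
          cases hu
        have e2 : l ∉ J := fun h' => by
          obtain ⟨u, w, hu⟩ := hJH l h'
          rw [h] at hu
          cases hu
        rw [if_pos ((hX0m l).2 h), if_neg e1, if_neg e2, hlamE l h]
        linarith
      · have e1 : l ∉ X0 := fun h' => by
          obtain ⟨u, hu⟩ := h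
          rw [(hX0m l).1 h'] at hu
          cases hu
        have e2 : l ∉ J := fun h' => by
          obtain ⟨u, w, hu⟩ := hJH l h'
          obtain ⟨u', hu'⟩ := h
          rw [hu'] at hu
          cases hu
        rw [if_neg e1, if_neg e2]
        by_cases h' : l ∈ I
        · rw [if_pos h']
          linarith
        · rw [if_neg h']
          have : ¬ c1 < lam l := fun h'' => h' ((hIm l).2 ⟨h, h''⟩)
          linarith
      · have e1 : l ∉ X0 := fun h' => by
          obtain ⟨u, w, hu⟩ := h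
          rw [(hX0m l).1 h'] at hu
          cases hu
        have e2 : l ∉ I := fun h' => by
          obtain ⟨u', hu'⟩ := hIV l h'
          obtain ⟨u, w, hu⟩ := h
          rw [hu'] at hu
          cases hu
        rw [if_neg e1, if_neg e2]
        by_cases h' : l ∈ J
        · rw [if_pos h']
          linarith
        · rw [if_neg h']
          have : ¬ c1 < lam l := fun h'' => h' ((hJm l).2 ⟨h, h''⟩)
          linarith
    refine (Finset.sum_le_sum fun l _ => h1 l).trans (le_of_eq ?_)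
    rw [Finset.sum_add_distrib, Finset.sum_add_distrib, Finset.sum_add_distrib]
    simp [Finset.sum_ite_mem]
  have hJsplit : ∑ j ∈ J, lam j = ∑ j ∈ J \ J', lam j + ∑ j ∈ J', lam j :=
    (Finset.sum_sdiff hJ'J).symm
  have hdepS := Finset.sum_le_sum hdep
  rw [Finset.sum_add_distrib, Finset.sum_const, nsmul_eq_mul] at hdepS
  have hinS := Finset.sum_le_sum hin
  rw [Finset.sum_const, nsmul_eq_mul, ← Finset.mul_sum] at hinS
  rw [Finset.sum_const, nsmul_eq_mul] at hsplit
  set D2 : ℝ := ∑ j ∈ J \ J', (Real.log (nrm f yK) -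
    Real.log (f (dot (H (Sum.inr (J', j))) (exv K y)))) with hD2
  have hn1 : ((J \ J').card : ℝ) ≤ q := by
    have := Finset.card_le_univ (J \ J')
    rw [Fintype.card_fin] at this
    exact_mod_cast this
  have hn2 : (X0.card : ℝ) ≤ q := by
    have := Finset.card_le_univ X0
    rw [Fintype.card_fin] at this
    exact_mod_cast this
  have hn10 : (0 : ℝ) ≤ (J \ J').card := Nat.cast_nonneg _
  have hn20 : (0 : ℝ) ≤ X0.card := Nat.cast_nonneg _
  have htot : wt v * ∑ l, lam l ≤ (X0.card + (J \ J').card) * (wt v * lE) +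
      q * (wt v * DR) + q * (wt v * c1) + (wt v * (∑ i ∈ I, lam i + D2)) +
      J'.card * (logHeight (Fin.append y z) + DH) := by
    have e1 : ∑ l, lam l ≤ X0.card * lE + (∑ i ∈ I, lam i + ((J \ J').card * (lE + DR) + D2 +
        ∑ j ∈ J', lam j)) + q * c1 := by
      rw [hJsplit] at hsplit
      linarith
    have e2 := mul_le_mul_of_nonneg_left e1 hw
    have e3 : wt v * ((J \ J').card * DR) ≤ q * (wt v * DR) := by
      have : (J \ J').card * (wt v * DR) ≤ q * (wt v * DR) :=
        mul_le_mul_of_nonneg_right hn1 (mul_nonneg hw hDR0)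
      linarith
    have e4 : wt v * (X0.card * lE + (∑ i ∈ I, lam i + ((J \ J').card * (lE + DR) + D2 +
        ∑ j ∈ J', lam j)) + q * c1) = (X0.card + (J \ J').card) * (wt v * lE) +
        wt v * ((J \ J').card * DR) + q * (wt v * c1) + wt v * (∑ i ∈ I, lam i + D2) +
        wt v * ∑ j ∈ J', lam j := by ring
    rw [e4] at e2
    linarith
  have hcardb := card_le_b (β := fun l => (c l).β) hJ'li
  have hbR : (J'.card : ℝ) ≤ b := by exact_mod_cast hcardb
  have heF : ε * logHeight y ≤ ε * (logHeight (Fin.append y z) + CE) :=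
    mul_le_mul_of_nonneg_left (by linarith) hε.le
  have hwc1 : 0 ≤ wt v * c1 := mul_nonneg hw hc10.le
  have hwDR : 0 ≤ wt v * DR := mul_nonneg hw hDR0
  have hwcE : 0 ≤ wt v * cE := mul_nonneg hw hcE0.le
  have hq0 : (0 : ℝ) ≤ q := Nat.cast_nonneg _
  have hqDH : 0 ≤ q * DH := mul_nonneg hq0 hDH0
  have hq1 : 0 ≤ q * (wt v * cE) := mul_nonneg hq0 hwcE
  have hεCE : 0 ≤ ε * CE := mul_nonneg hε.le hCE
  rcases hcase with hfar | ⟨he0', hzP⟩
  · have h1 : (X0.card + (J \ J').card : ℝ) * (wt v * lE) ≤ 2 * q * (wt v * cE) := by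
      have e1 : wt v * lE ≤ wt v * cE := mul_le_mul_of_nonneg_left hfar hw
      have e2 : (X0.card + (J \ J').card : ℝ) ≤ 2 * q := by linarith
      exact mul_le_mul e2 e1 hwlE (by positivity)
    have h2 : J'.card * (logHeight (Fin.append y z) + DH) ≤
        b * (logHeight (Fin.append y z) + DH) :=
      mul_le_mul_of_nonneg_right hbR (by linarith)
    rw [hQQ]
    nlinarith [hwE]
  · subst he0'
    have hfew := few c hnc J J' hJH hJ'J yP zP hyP hzP hPJ (cf J') (hcf J') hβJ X0
      (fun l hl => (hX0m l).1 hl)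
    have hfewR : (X0.card + (J \ J').card : ℝ) ≤ 1 := by
      have : X0.card + (J \ J').card ≤ 1 := by omega
      exact_mod_cast this
    have h1 : (X0.card + (J \ J').card : ℝ) * (wt v * lE) ≤ wt v * lE := by
      have := mul_le_mul_of_nonneg_right hfewR hwlE
      linarith
    have hlt := card_lt_b (β := fun l => (c l).β) hJ'li zP hzP (by
      intro j hj
      have h2 := hPJ j (hJ'J hj)
      rw [hHl' j (hJH j (hJ'J hj))] at h2
      have h3 : dot (exv K (c j).α) yP * 0 + dot (exv K (c j).β) zP = 0 := h2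
      rwa [mul_zero, zero_add] at h3)
    have hltR : (J'.card : ℝ) ≤ b - 1 := by
      have : (J'.card : ℝ) + 1 ≤ b := by exact_mod_cast hlt
      linarith
    have h2 : J'.card * (logHeight (Fin.append y z) + DH) ≤
        (b - 1) * (logHeight (Fin.append y z) + DH) :=
      mul_le_mul_of_nonneg_right hltR (by linarith)
    rw [hQQ]
    nlinarith [hwE]

end Pool.Agent.R405.BU
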