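import Mathlib
import Pool.Agent.R405.SchV
import Pool.Agent.R405.Core

/-!
The two rulings of a smooth quadric surface: local inequalities.
-/

set_option autoImplicit false
set_option linter.unusedSectionVars false

open Finset

namespace Pool.Agent.R405.QS

open Pool.Agent.W180.OP (nrm le_nrm nrm_pos nrm_nonneg exists_nrm)
open Pool.Agent.R405 (dot dot_add dot_smul abs_dot)

variable {F : Type} [Field F]

/-- the forms of a line of the first ruling -/
def row (E : Fin 4 → Fin 4 → F) (a : Fin 2 → F) : Fin 2 → Fin 4 → F :=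
  ![a 0 • E 0 + a 1 • E 2, a 0 • E 1 + a 1 • E 3]

/-- the other order of the coordinates -/
def swp (E : Fin 4 → Fin 4 → F) : Fin 4 → Fin 4 → F := ![E 0, E 2, E 1, E 3]

/-- the bilinear forms -/
def bf (E : Fin 4 → Fin 4 → F) (a b : Fin 2 → F) : Fin 4 → F :=
  (a 0 * b 0) • E 0 + (a 0 * b 1) • E 1 + (a 1 * b 0) • E 2 + (a 1 * b 1) • E 3

theorem swp_swp (E : Fin 4 → Fin 4 → F) : swp (swp E) = E := by
  funext i
  fin_cases i <;> rfl

theorem bf_swp (E : Fin 4 → Fin 4 → F) (a b : Fin 2 → F) : bf (swp E) a b = bf E b a := by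
  simp only [bf, swp, Matrix.cons_val]
  rw [mul_comm (a 0) (b 0), mul_comm (a 0) (b 1), mul_comm (a 1) (b 0), mul_comm (a 1) (b 1)]
  abel

theorem dot_row0 (E : Fin 4 → Fin 4 → F) (a : Fin 2 → F) (x : Fin 4 → F) :
    dot (row E a 0) x = a 0 * dot (E 0) x + a 1 * dot (E 2) x := by
  simp only [row, Matrix.cons_val, dot_add, dot_smul]

theorem dot_row1 (E : Fin 4 → Fin 4 → F) (a : Fin 2 → F) (x : Fin 4 → F) :
    dot (row E a 1) x = a 0 * dot (E 1) x + a 1 * dot (E 3) x := by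
  simp only [row, Matrix.cons_val, dot_add, dot_smul]

theorem dot_col0 (E : Fin 4 → Fin 4 → F) (b : Fin 2 → F) (x : Fin 4 → F) :
    dot (row (swp E) b 0) x = b 0 * dot (E 0) x + b 1 * dot (E 1) x := by
  rw [dot_row0]
  simp [swp]

theorem dot_col1 (E : Fin 4 → Fin 4 → F) (b : Fin 2 → F) (x : Fin 4 → F) :
    dot (row (swp E) b 1) x = b 0 * dot (E 2) x + b 1 * dot (E 3) x := by
  rw [dot_row1]
  simp [swp]

theorem dot_bf (E : Fin 4 → Fin 4 → F) (a b : Fin 2 → F) (x : Fin 4 → F) :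
    dot (bf E a b) x = a 0 * b 0 * dot (E 0) x + a 0 * b 1 * dot (E 1) x +
      a 1 * b 0 * dot (E 2) x + a 1 * b 1 * dot (E 3) x := by
  simp only [bf, dot_add, dot_smul]

/-- the point is on the quadric -/
def On (E : Fin 4 → Fin 4 → F) (x : Fin 4 → F) : Prop :=
  dot (E 0) x * dot (E 3) x = dot (E 1) x * dot (E 2) x

theorem On.swp {E : Fin 4 → Fin 4 → F} {x : Fin 4 → F} (h : On E x) : On (QS.swp E) x := by
  unfold On at h ⊢
  simp only [QS.swp, Matrix.cons_val]
  rw [h, mul_comm]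

theorem On.prod {E : Fin 4 → Fin 4 → F} {x : Fin 4 → F} (h : On E x) (a b : Fin 2 → F) (l : Fin 4) :
    ∃ i j : Fin 2, dot (row E a j) x * dot (row (QS.swp E) b i) x = dot (bf E a b) x * dot (E l) x := by
  unfold On at h
  rcases (by decide : ∀ l : Fin 4, l = 0 ∨ l = 1 ∨ l = 2 ∨ l = 3) l with rfl | rfl | rfl | rfl
  · refine ⟨0, 0, ?_⟩
    rw [dot_row0, dot_col0, dot_bf]
    linear_combination (-(a 1) * b 1) * h
  · refine ⟨0, 1, ?_⟩
    rw [dot_row1, dot_col0, dot_bf]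
    linear_combination (a 1 * b 0) * h
  · refine ⟨1, 0, ?_⟩
    rw [dot_row0, dot_col1, dot_bf]
    linear_combination (a 0 * b 1) * h
  · refine ⟨1, 1, ?_⟩
    rw [dot_row1, dot_col1, dot_bf]
    linear_combination (-(a 0) * b 0) * h

/-- the maximum of two forms -/
noncomputable def nn (f : AbsoluteValue F ℝ) (g : Fin 2 → Fin 4 → F) (x : Fin 4 → F) : ℝ :=
  max (f (dot (g 0) x)) (f (dot (g 1) x))

theorem le_nn (f : AbsoluteValue F ℝ) (g : Fin 2 → Fin 4 → F) (x : Fin 4 → F) (i : Fin 2) :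
    f (dot (g i) x) ≤ nn f g x := by
  fin_cases i
  · exact le_max_left _ _
  · exact le_max_right _ _

theorem nn_nonneg (f : AbsoluteValue F ℝ) (g : Fin 2 → Fin 4 → F) (x : Fin 4 → F) :
    0 ≤ nn f g x := (f.nonneg _).trans (le_nn f g x 0)

theorem nn_le {f : AbsoluteValue F ℝ} {g : Fin 2 → Fin 4 → F} {x : Fin 4 → F} {c : ℝ}
    (h : ∀ i, f (dot (g i) x) ≤ c) : nn f g x ≤ c := max_le (h 0) (h 1)

theorem nn_pos {f : AbsoluteValue F ℝ} {g : Fin 2 → Fin 4 → F} {x : Fin 4 → F} {i : Fin 2}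
    (h : dot (g i) x ≠ 0) : 0 < nn f g x := (f.pos_iff.2 h).trans_le (le_nn f g x i)

/-- the local height -/
noncomputable def lm (f : AbsoluteValue F ℝ) (g : Fin 2 → Fin 4 → F) (x : Fin 4 → F) : ℝ :=
  Real.log (nrm f x) - Real.log (nn f g x)

theorem lm_ge (f : AbsoluteValue F ℝ) (g : Fin 2 → Fin 4 → F) : ∃ C : ℝ, 0 ≤ C ∧
    ∀ x : Fin 4 → F, x ≠ 0 → 0 < nn f g x → -C ≤ lm f g x := by
  set B : ℝ := (1 + ∑ j, f (g 0 j)) + (1 + ∑ j, f (g 1 j)) with hB
  have h0 : 0 ≤ ∑ j, f (g 0 j) := Finset.sum_nonneg fun j _ => f.nonneg _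
  have h1 : 0 ≤ ∑ j, f (g 1 j) := Finset.sum_nonneg fun j _ => f.nonneg _
  have hB1 : 1 ≤ B := by linarith
  refine ⟨Real.log B, Real.log_nonneg hB1, fun x hx hn => ?_⟩
  have hN : 0 < nrm f x := nrm_pos f hx
  have h2 : nn f g x ≤ B * nrm f x := by
    refine nn_le fun i => (abs_dot f _ _).trans (mul_le_mul_of_nonneg_right ?_ hN.le)
    fin_cases i
    · show 1 + ∑ j, f (g 0 j) ≤ B
      linarith
    · show 1 + ∑ j, f (g 1 j) ≤ B
      linarith
  have h3 := Real.log_le_log hn h2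
  rw [Real.log_mul (by linarith) hN.ne'] at h3
  unfold lm
  linarith

/-- coordinates -/
theorem nrm_le_E (f : AbsoluteValue F ℝ) (E : Fin 4 → Fin 4 → F) (hE : (Matrix.of E).det ≠ 0) :
    ∃ C : ℝ, 1 ≤ C ∧ ∀ (x : Fin 4 → F) (B : ℝ), (∀ l, f (dot (E l) x) ≤ B) → nrm f x ≤ C * B := by
  classical
  set A : Matrix (Fin 4) (Fin 4) F := Matrix.of E with hA
  have hinv : A⁻¹ * A = 1 := Matrix.nonsing_inv_mul _ (IsUnit.mk0 _ hE)
  refine ⟨1 + ∑ j, ∑ l, f (A⁻¹ j l), ?_, fun x B hB => ?_⟩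
  · have : 0 ≤ ∑ j, ∑ l, f (A⁻¹ j l) :=
      Finset.sum_nonneg fun _ _ => Finset.sum_nonneg fun _ _ => f.nonneg _
    linarith
  have hB0 : 0 ≤ B := (f.nonneg _).trans (hB 0)
  unfold nrm
  refine ciSup_le fun j => ?_
  have h1 : x j = ∑ l, A⁻¹ j l * dot (E l) x := by
    have h2 : (A⁻¹ * A).mulVec x = x := by rw [hinv, Matrix.one_mulVec]
    rw [← Matrix.mulVec_mulVec] at h2
    conv_lhs => rw [← h2]
    rfl
  rw [h1]
  refine (f.sum_le _ _).trans ?_
  have h2 : ∑ l, f (A⁻¹ j l * dot (E l) x) ≤ (∑ l, f (A⁻¹ j l)) * B := by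
    rw [Finset.sum_mul]
    refine Finset.sum_le_sum fun l _ => ?_
    rw [map_mul]
    exact mul_le_mul_of_nonneg_left (hB l) (f.nonneg _)
  refine h2.trans (mul_le_mul_of_nonneg_right ?_ hB0)
  have h3 : ∑ l, f (A⁻¹ j l) ≤ ∑ j, ∑ l, f (A⁻¹ j l) :=
    Finset.single_le_sum (f := fun j => ∑ l, f (A⁻¹ j l))
      (fun _ _ => Finset.sum_nonneg fun _ _ => f.nonneg _) (Finset.mem_univ j)
  linarith

/-- the bilinear form is small when both lines are near -/
theorem bf_ge (f : AbsoluteValue F ℝ) (E : Fin 4 → Fin 4 → F) (hE : (Matrix.of E).det ≠ 0)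
    (a b : Fin 2 → F) : ∃ C : ℝ, 0 ≤ C ∧ ∀ x : Fin 4 → F, x ≠ 0 → On E x →
      0 < nn f (row E a) x → 0 < nn f (row (swp E) b) x → dot (bf E a b) x ≠ 0 →
      lm f (row E a) x + lm f (row (swp E) b) x ≤
        Real.log (nrm f x) - Real.log (f (dot (bf E a b) x)) + C := by
  obtain ⟨C, hC, h⟩ := nrm_le_E f E hE
  refine ⟨Real.log C, Real.log_nonneg hC, fun x hx hon h1 h2 h3 => ?_⟩
  have hN : 0 < nrm f x := nrm_pos f hx
  have hb : 0 < f (dot (bf E a b) x) := f.pos_iff.2 h3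
  have hkey : nrm f x ≤ C * (nn f (row E a) x * nn f (row (swp E) b) x / f (dot (bf E a b) x)) := by
    refine h x _ fun l => ?_
    obtain ⟨i, j, hij⟩ := hon.prod a b l
    rw [le_div_iff₀ hb]
    have h4 : f (dot (E l) x) * f (dot (bf E a b) x) =
        f (dot (row E a j) x) * f (dot (row (swp E) b i) x) := by
      rw [← map_mul, ← map_mul, hij, mul_comm]
    rw [h4]
    exact mul_le_mul (le_nn f _ x j) (le_nn f _ x i) (f.nonneg _) (nn_nonneg f _ x)
  have h5 := Real.log_le_log hN hkey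
  rw [Real.log_mul (by linarith) (by positivity), Real.log_div (by positivity) hb.ne',
    Real.log_mul h1.ne' h2.ne'] at h5
  unfold lm
  linarith

/-- the coefficients of a form -/
noncomputable def cof (E : Fin 4 → Fin 4 → F) (m : Fin 4 → F) : Fin 4 → F :=
  Matrix.vecMul m (Matrix.of E)⁻¹

theorem dot_cof (E : Fin 4 → Fin 4 → F) (hE : (Matrix.of E).det ≠ 0) (m x : Fin 4 → F) :
    dot m x = ∑ l, cof E m l * dot (E l) x := by
  have hinv : (Matrix.of E)⁻¹ * (Matrix.of E) = 1 := Matrix.nonsing_inv_mul _ (IsUnit.mk0 _ hE)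
  have h1 : Matrix.vecMul (cof E m) (Matrix.of E) = m := by
    rw [cof, Matrix.vecMul_vecMul, hinv, Matrix.vecMul_one]
  have h2 : dot m x = dot (Matrix.vecMul (cof E m) (Matrix.of E)) x := by rw [h1]
  rw [h2]
  show Matrix.vecMul (cof E m) (Matrix.of E) ⬝ᵥ x = _
  rw [← Matrix.dotProduct_mulVec]
  rfl

/-- the other line through the point of the line `a` on the plane `m` -/
noncomputable def oth (E : Fin 4 → Fin 4 → F) (m : Fin 4 → F) (a : Fin 2 → F) : Fin 2 → F :=
  ![a 0 * cof E m 2 - a 1 * cof E m 0, a 0 * cof E m 3 - a 1 * cof E m 1]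

theorem oth0 (E : Fin 4 → Fin 4 → F) (hE : (Matrix.of E).det ≠ 0) (m : Fin 4 → F) (a : Fin 2 → F)
    (x : Fin 4 → F) : dot (row (swp E) (oth E m a) 0) x =
      -(a 1) * dot m x + cof E m 2 * dot (row E a 0) x + cof E m 3 * dot (row E a 1) x := by
  rw [dot_col0, dot_cof E hE m x, dot_row0, dot_row1, Fin.sum_univ_four]
  simp only [oth, Matrix.cons_val]
  ring

theorem oth1 (E : Fin 4 → Fin 4 → F) (hE : (Matrix.of E).det ≠ 0) (m : Fin 4 → F) (a : Fin 2 → F)
    (x : Fin 4 → F) : dot (row (swp E) (oth E m a) 1) x =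
      a 0 * dot m x - cof E m 0 * dot (row E a 0) x - cof E m 1 * dot (row E a 1) x := by
  rw [dot_col1, dot_cof E hE m x, dot_row0, dot_row1, Fin.sum_univ_four]
  simp only [oth, Matrix.cons_val]
  ring

/-- a point near a line and a plane is near the other line -/
theorem oth_ge (f : AbsoluteValue F ℝ) (E : Fin 4 → Fin 4 → F) (hE : (Matrix.of E).det ≠ 0)
    (m : Fin 4 → F) (a : Fin 2 → F) : ∃ C : ℝ, 0 ≤ C ∧ ∀ x : Fin 4 → F, x ≠ 0 →
      0 < nn f (row E a) x → dot m x ≠ 0 → 0 < nn f (row (swp E) (oth E m a)) x →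
      min (lm f (row E a) x) (Real.log (nrm f x) - Real.log (f (dot m x))) ≤
        lm f (row (swp E) (oth E m a)) x + C := by
  set B : ℝ := 1 + ∑ i, f (a i) + ∑ l, f (cof E m l) with hB
  have ha : 0 ≤ ∑ i, f (a i) := Finset.sum_nonneg fun _ _ => f.nonneg _
  have hc : 0 ≤ ∑ l, f (cof E m l) := Finset.sum_nonneg fun _ _ => f.nonneg _
  have hB1 : 1 ≤ B := by linarith
  refine ⟨Real.log (3 * B), Real.log_nonneg (by linarith), fun x hx h1 h2 h3 => ?_⟩
  have hN : 0 < nrm f x := nrm_pos f hx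
  have hm : 0 < f (dot m x) := f.pos_iff.2 h2
  set T : ℝ := max (nn f (row E a) x) (f (dot m x)) with hT
  have hT0 : 0 < T := h1.trans_le (le_max_left _ _)
  have hai : ∀ i, f (a i) ≤ B := fun i => by
    have := Finset.single_le_sum (f := fun i => f (a i)) (fun _ _ => f.nonneg _) (Finset.mem_univ i)
    linarith
  have hci : ∀ l, f (cof E m l) ≤ B := fun l => by
    have := Finset.single_le_sum (f := fun l => f (cof E m l)) (fun _ _ => f.nonneg _)
      (Finset.mem_univ l)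
    linarith
  have t1 : ∀ i, f (a i) * f (dot m x) ≤ B * T := fun i =>
    mul_le_mul (hai i) (le_max_right _ _) (f.nonneg _) (by linarith)
  have t2 : ∀ l j, f (cof E m l) * f (dot (row E a j) x) ≤ B * T := fun l j =>
    mul_le_mul (hci l) ((le_nn f _ x j).trans (le_max_left _ _)) (f.nonneg _) (by linarith)
  have h4 : nn f (row (swp E) (oth E m a)) x ≤ 3 * B * T := by
    refine nn_le fun i => ?_
    fin_cases i
    · show f (dot (row (swp E) (oth E m a) 0) x) ≤ _
      rw [oth0 E hE]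
      refine (f.add_le _ _).trans ?_
      have := f.add_le (-(a 1) * dot m x) (cof E m 2 * dot (row E a 0) x)
      rw [map_mul, map_mul, AbsoluteValue.map_neg] at this
      rw [map_mul]
      linarith [t1 1, t2 2 0, t2 3 1]
    · show f (dot (row (swp E) (oth E m a) 1) x) ≤ _
      rw [oth1 E hE, sub_eq_add_neg, sub_eq_add_neg]
      refine (f.add_le _ _).trans ?_
      have := f.add_le (a 0 * dot m x) (-(cof E m 0 * dot (row E a 0) x))
      rw [AbsoluteValue.map_neg, map_mul, map_mul] at this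
      rw [AbsoluteValue.map_neg, map_mul]
      linarith [t1 0, t2 0 0, t2 1 1]
  have h5 := Real.log_le_log h3 h4
  rw [Real.log_mul (by positivity) hT0.ne'] at h5
  have h6 : min (lm f (row E a) x) (Real.log (nrm f x) - Real.log (f (dot m x))) ≤
      Real.log (nrm f x) - Real.log T := by
    rcases max_choice (nn f (row E a) x) (f (dot m x)) with h | h
    · rw [hT, h]
      exact min_le_left _ _
    · rw [hT, h]
      exact min_le_right _ _
  unfold lm at h6 ⊢
  linarith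

/-- a complementary vector -/
noncomputable def cpl (a : Fin 2 → F) : Fin 2 → F := by
  classical
  exact if a 0 = 0 then ![1, 0] else ![0, 1]

theorem cpl_det {a : Fin 2 → F} (ha : a ≠ 0) : a 0 * cpl a 1 - a 1 * cpl a 0 ≠ 0 := by
  unfold cpl
  split_ifs with h
  · have h1 : a 1 ≠ 0 := by
      intro h1
      apply ha
      funext i
      fin_cases i
      · exact h
      · exact h1
    simpa [h] using h1
  · simpa using h

/-- the four forms -/
noncomputable def four (E : Fin 4 → Fin 4 → F) (a b : Fin 2 → F) : Fin 4 → Fin 4 → F :=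
  ![bf E a b, bf E a (cpl b), bf E (cpl a) b, bf E (cpl a) (cpl b)]

theorem four_det (E : Fin 4 → Fin 4 → F) (hE : (Matrix.of E).det ≠ 0) {a b : Fin 2 → F}
    (ha : a ≠ 0) (hb : b ≠ 0) : (Matrix.of (four E a b)).det ≠ 0 := by
  intro h
  obtain ⟨w, hw, h0⟩ := Matrix.exists_mulVec_eq_zero_iff.2 h
  have h1 : ∀ i, dot (four E a b i) w = 0 := fun i => congrFun h0 i
  have e0 := h1 0
  have e1 := h1 1
  have e2 := h1 2
  have e3 := h1 3
  simp only [four, Matrix.cons_val] at e0 e1 e2 e3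
  rw [dot_bf] at e0 e1 e2 e3
  have hda := cpl_det ha
  have hdb := cpl_det hb
  set a' := cpl a
  set b' := cpl b
  set D := a 0 * a' 1 - a 1 * a' 0
  set G := b 0 * b' 1 - b 1 * b' 0
  have z0 : D * G * dot (E 0) w = 0 := by
    linear_combination (a' 1 * b' 1) * e0 - (a' 1 * b 1) * e1 - (a 1 * b' 1) * e2 + (a 1 * b 1) * e3
  have z1 : D * G * dot (E 1) w = 0 := by
    linear_combination -(a' 1 * b' 0) * e0 + (a' 1 * b 0) * e1 + (a 1 * b' 0) * e2 -
      (a 1 * b 0) * e3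
  have z2 : D * G * dot (E 2) w = 0 := by
    linear_combination -(a' 0 * b' 1) * e0 + (a' 0 * b 1) * e1 + (a 0 * b' 1) * e2 -
      (a 0 * b 1) * e3
  have z3 : D * G * dot (E 3) w = 0 := by
    linear_combination (a' 0 * b' 0) * e0 - (a' 0 * b 0) * e1 - (a 0 * b' 0) * e2 + (a 0 * b 0) * e3
  have hDG : D * G ≠ 0 := mul_ne_zero hda hdb
  apply hE
  apply Matrix.exists_mulVec_eq_zero_iff.1
  refine ⟨w, hw, ?_⟩
  funext i
  show dot (E i) w = 0
  fin_cases i
  · exact (mul_eq_zero.1 z0).resolve_left hDG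
  · exact (mul_eq_zero.1 z1).resolve_left hDG
  · exact (mul_eq_zero.1 z2).resolve_left hDG
  · exact (mul_eq_zero.1 z3).resolve_left hDG

/-- the sum of the local heights of the four forms -/
theorem four_ge (f : AbsoluteValue F ℝ) (E : Fin 4 → Fin 4 → F) (hE : (Matrix.of E).det ≠ 0)
    (a b : Fin 2 → F) : ∃ C : ℝ, 0 ≤ C ∧ ∀ x : Fin 4 → F, x ≠ 0 → On E x →
      (∀ i, dot (four E a b i) x ≠ 0) →
      2 * (lm f (row E a) x + lm f (row (swp E) b) x) ≤
        ∑ i, (Real.log (nrm f x) - Real.log (f (dot (four E a b i) x))) + C := by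
  obtain ⟨C1, hC1, h1⟩ := bf_ge f E hE a b
  obtain ⟨C2, hC2, h2⟩ := bf_ge f E hE a (cpl b)
  obtain ⟨C3, hC3, h3⟩ := bf_ge f E hE (cpl a) b
  obtain ⟨C4, hC4, h4⟩ := bf_ge f E hE (cpl a) (cpl b)
  obtain ⟨C5, hC5, h5⟩ := lm_ge f (row E (cpl a))
  obtain ⟨C6, hC6, h6⟩ := lm_ge f (row (swp E) (cpl b))
  refine ⟨C1 + C2 + C3 + C4 + 2 * C5 + 2 * C6, by positivity, fun x hx hon hne => ?_⟩
  have n0 := hne 0
  have n1 := hne 1
  have n2 := hne 2
  have n3 := hne 3
  simp only [four, Matrix.cons_val] at n0 n1 n2 n3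
  -- the row forms do not vanish
  have hr : ∀ a b : Fin 2 → F, dot (bf E a b) x ≠ 0 → 0 < nn f (row E a) x ∧
      0 < nn f (row (swp E) b) x := by
    intro a b hab
    constructor
    · by_contra hcon
      have hz : nn f (row E a) x = 0 := le_antisymm (not_lt.1 hcon) (nn_nonneg f _ x)
      have hz' : ∀ j, dot (row E a j) x = 0 := fun j => by
        have := le_nn f (row E a) x j
        rw [hz] at this
        exact (AbsoluteValue.eq_zero f).1 (le_antisymm this (f.nonneg _))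
      apply hab
      have e0 := hz' 0
      have e1 := hz' 1
      rw [dot_row0] at e0
      rw [dot_row1] at e1
      rw [dot_bf]
      linear_combination b 0 * e0 + b 1 * e1
    · by_contra hcon
      have hz : nn f (row (swp E) b) x = 0 := le_antisymm (not_lt.1 hcon) (nn_nonneg f _ x)
      have hz' : ∀ j, dot (row (swp E) b j) x = 0 := fun j => by
        have := le_nn f (row (swp E) b) x j
        rw [hz] at this
        exact (AbsoluteValue.eq_zero f).1 (le_antisymm this (f.nonneg _))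
      apply hab
      have e0 := hz' 0
      have e1 := hz' 1
      rw [dot_col0] at e0
      rw [dot_col1] at e1
      rw [dot_bf]
      linear_combination a 0 * e0 + a 1 * e1
  obtain ⟨p1, p2⟩ := hr _ _ n0
  obtain ⟨p3, p4⟩ := hr _ _ n3
  have q0 := h1 x hx hon p1 p2 n0
  have q1 := h2 x hx hon p1 p4 n1
  have q2 := h3 x hx hon p3 p2 n2
  have q3 := h4 x hx hon p3 p4 n3
  have q5 := h5 x hx p3
  have q6 := h6 x hx p4
  rw [Fin.sum_univ_four]
  simp only [four, Matrix.cons_val]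
  linarith

end Pool.Agent.R405.QS
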