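import Mathlib
import Pool.Agent.R405.QS1
import Pool.Agent.R405.Fin1
import Pool.Agent.W180.OP.Main

/-!
Vojta's inequality on a smooth quadric surface at one place.
-/

set_option autoImplicit false
set_option linter.unusedSectionVars false

open Finset

namespace Pool.Agent.R405.QS

open NumberField IsDedekindDomain Height Module MvPolynomial
open Pool.Agent.W180.OP (Pl av wt nrm le_nrm nrm_pos nrm_nonneg exists_nrm lam lam_eq liou wt_nonneg
  sum_le_of_few)
open Pool.Agent.R405

variable {k K : Type} [Field k] [NumberField k] [Field K] [NumberField K] [Algebra k K]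

theorem nn_pos_of_bf (f : AbsoluteValue K ℝ) (E : Fin 4 → Fin 4 → K) {a b : Fin 2 → K}
    {x : Fin 4 → K} (hab : dot (bf E a b) x ≠ 0) :
    0 < nn f (row E a) x ∧ 0 < nn f (row (swp E) b) x := by
  constructor
  · by_contra hcon
    have hz : nn f (row E a) x = 0 := le_antisymm (not_lt.1 hcon) (nn_nonneg f _ x)
    have hz' : ∀ j, dot (row E a j) x = 0 := fun j => by
      have := le_nn f (row E a) x j
      rw [hz] at this
      exact (AbsoluteValue.eq_zero f).1 (le_antisymm this (f.nonneg _))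
    apply hab
    have e0 := hz' 0
    have e1 := hz' 1
    rw [dot_row0] at e0
    rw [dot_row1] at e1
    rw [dot_bf]
    linear_combination b 0 * e0 + b 1 * e1
  · by_contra hcon
    have hz : nn f (row (swp E) b) x = 0 := le_antisymm (not_lt.1 hcon) (nn_nonneg f _ x)
    have hz' : ∀ j, dot (row (swp E) b j) x = 0 := fun j => by
      have := le_nn f (row (swp E) b) x j
      rw [hz] at this
      exact (AbsoluteValue.eq_zero f).1 (le_antisymm this (f.nonneg _))
    apply hab
    have e0 := hz' 0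
    have e1 := hz' 1
    rw [dot_col0] at e0
    rw [dot_col1] at e1
    rw [dot_bf]
    linear_combination a 0 * e0 + a 1 * e1

/-- the types of the components: lines of the two rulings and plane sections -/
inductive Ty (k K : Type) : Type where
  | ra (a : Fin 2 → K)
  | cb (b : Fin 2 → K)
  | pl (m : Fin 4 → k)

/-- the two forms of a component -/
def fm (E : Fin 4 → Fin 4 → K) : Ty k K → Fin 2 → Fin 4 → K
  | .ra a => row E a
  | .cb b => row (swp E) b
  | .pl m => fun _ => exv K m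

/-- two components: a line of each ruling -/
noncomputable def pr (E : Fin 4 → Fin 4 → K) : Ty k K → Ty k K → (Fin 2 → K) × (Fin 2 → K)
  | .ra a, .cb b => (a, b)
  | .cb b, .ra a => (a, b)
  | .ra a, .pl m => (a, oth E (exv K m) a)
  | .pl m, .ra a => (a, oth E (exv K m) a)
  | .cb b, .pl m => (oth (swp E) (exv K m) b, b)
  | .pl m, .cb b => (oth (swp E) (exv K m) b, b)
  | .ra a, .ra _ => (a, ![1, 0])
  | .cb b, .cb _ => (![1, 0], b)
  | .pl _, .pl _ => (![1, 0], ![1, 0])

theorem e0_ne : (![1, 0] : Fin 2 → K) ≠ 0 := fun h => one_ne_zero (congrFun h 0)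

theorem swp_det {E : Fin 4 → Fin 4 → K} (hE : (Matrix.of E).det ≠ 0) :
    (Matrix.of (swp E)).det ≠ 0 := by
  intro h
  obtain ⟨w, hw, h0⟩ := Matrix.exists_mulVec_eq_zero_iff.2 h
  apply hE
  apply Matrix.exists_mulVec_eq_zero_iff.1
  refine ⟨w, hw, ?_⟩
  funext i
  have h1 : ∀ i, dot (swp E i) w = 0 := fun i => congrFun h0 i
  show dot (E i) w = 0
  rcases (by decide : ∀ l : Fin 4, l = 0 ∨ l = 1 ∨ l = 2 ∨ l = 3) i with rfl | rfl | rfl | rfl
  · exact h1 0
  · exact h1 2
  · exact h1 1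
  · exact h1 3

/-- validity -/
def Ok (E : Fin 4 → Fin 4 → K) {ι : Type} (ty : ι → Ty k K) : Prop :=
  (∀ i a, ty i = .ra a → a ≠ 0) ∧ (∀ i b, ty i = .cb b → b ≠ 0) ∧
  (∀ i a j m, ty i = .ra a → ty j = .pl m → oth E (exv K m) a ≠ 0) ∧
  (∀ i b j m, ty i = .cb b → ty j = .pl m → oth (swp E) (exv K m) b ≠ 0)

theorem pr_ne {E : Fin 4 → Fin 4 → K} {ι : Type} {ty : ι → Ty k K} (h : Ok E ty) (i j : ι) :
    (pr E (ty i) (ty j)).1 ≠ 0 ∧ (pr E (ty i) (ty j)).2 ≠ 0 := by
  obtain ⟨h1, h2, h3, h4⟩ := h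
  rcases hi : ty i with a | b | m <;> rcases hj : ty j with a' | b' | m'
  · exact ⟨h1 i a hi, e0_ne⟩
  · exact ⟨h1 i a hi, h2 j b' hj⟩
  · exact ⟨h1 i a hi, h3 i a j m' hi hj⟩
  · exact ⟨h1 j a' hj, h2 i b hi⟩
  · exact ⟨e0_ne, h2 i b hi⟩
  · exact ⟨h4 i b j m' hi hj, h2 i b hi⟩
  · exact ⟨h1 j a' hj, h3 j a' i m hj hi⟩
  · exact ⟨h4 j b' i m hj hi, h2 j b' hj⟩
  · exact ⟨e0_ne, e0_ne⟩

theorem pr_comm (E : Fin 4 → Fin 4 → K) (s t : Ty k K) (h : ∀ m m', s = .pl m → t ≠ .pl m')
    (h1 : ∀ a a', s = .ra a → t ≠ .ra a') (h2 : ∀ a a', s = .cb a → t ≠ .cb a') :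
    pr E s t = pr E t s := by
  rcases s with a | b | m <;> rcases t with a' | b' | m'
  · exact absurd rfl (h1 a a' rfl)
  · rfl
  · rfl
  · rfl
  · exact absurd rfl (h2 b b' rfl)
  · rfl
  · rfl
  · rfl
  · exact absurd rfl (h m m' rfl)

theorem lm_pl {v : Pl k} {f : AbsoluteValue K ℝ} (hf : Good v f) (m x : Fin 4 → k) :
    lm f (fun _ => exv K m) (exv K x) =
      Real.log (nrm (av v) x) - Real.log (av v (∑ j, m j * x j)) := by
  have h1 : nrm f (exv K x) = nrm (av v) x := hf.nrm_ext x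
  have h2 : nn f (fun _ => exv K m) (exv K x) = av v (∑ j, m j * x j) := by
    unfold nn
    rw [max_self, dot_exv, hf.ext]
  rw [lm, h1, h2]

/-- the Liouville bound for a rational plane -/
theorem liou_pl (m : Fin 4 → k) : ∃ C : ℝ, 0 ≤ C ∧ ∀ (v : Pl k) (x : Fin 4 → k), x ≠ 0 →
    ∑ j, m j * x j ≠ 0 →
    wt v * (Real.log (nrm (av v) x) - Real.log (av v (∑ j, m j * x j))) ≤ logHeight x + C := by
  classical
  obtain ⟨C, hC0, hC⟩ := liou (lff m) 1 (lff_hom m)
  refine ⟨C, hC0, fun v x hx hm => ?_⟩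
  have he : eval x (lff m) = ∑ j, m j * x j := eval_lff _ _
  have h1 := hC {v} x hx (by rw [he]; exact hm)
  rw [Finset.sum_singleton, lam_eq _ _ _ hx (by rw [he]; exact hm), he] at h1
  have h2 := mul_le_mul_of_nonneg_left (le_max_right 0 (((1 : ℕ) : ℝ) * Real.log (nrm (av v) x) -
    Real.log (av v (∑ j, m j * x j)))) (wt_nonneg v)
  push_cast at h1 h2
  rw [one_mul] at h1 h2
  rw [one_mul] at h1
  linarith

theorem quadK [IsGalois ℚ K] (hi : ∃ z : K, z ^ 2 = -1) (E : Fin 4 → Fin 4 → K)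
    (hE : (Matrix.of E).det ≠ 0) {r : ℕ} (ty : Fin r → Ty k K) (hok : Ok E ty)
    (hrr : ∀ i j a a', i ≠ j → ty i = .ra a → ty j = .ra a' → ∀ f : AbsoluteValue K ℝ,
      ∃ C : ℝ, 0 ≤ C ∧ ∀ x : Fin 4 → K, x ≠ 0 → 0 < nn f (row E a) x → 0 < nn f (row E a') x →
        min (lm f (row E a) x) (lm f (row E a') x) ≤ C)
    (hcc : ∀ i j b b', i ≠ j → ty i = .cb b → ty j = .cb b' → ∀ f : AbsoluteValue K ℝ,
      ∃ C : ℝ, 0 ≤ C ∧ ∀ x : Fin 4 → K, x ≠ 0 → 0 < nn f (row (swp E) b) x →
        0 < nn f (row (swp E) b') x → min (lm f (row (swp E) b) x) (lm f (row (swp E) b') x) ≤ C)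
    (htr : ∀ i j l, i ≠ j → i ≠ l → j ≠ l → ∀ f : AbsoluteValue K ℝ, ∃ C : ℝ, 0 ≤ C ∧
      ∀ x : Fin 4 → K, x ≠ 0 → On E x → (∀ i, 0 < nn f (fm E (ty i)) x) →
        min (lm f (fm E (ty i)) x) (min (lm f (fm E (ty j)) x) (lm f (fm E (ty l)) x)) ≤ C) :
    ∃ Z : Finset (Fin 4 → k), (∀ z ∈ Z, z ≠ 0) ∧ ∀ (v : Pl k) (f : AbsoluteValue K ℝ),
      Good v f → ∀ ε : ℝ, 0 < ε → ∃ C : ℝ, ∀ x : Fin 4 → k, x ≠ 0 → On E (exv K x) →
        (∀ z ∈ Z, ∑ j, z j * x j ≠ 0) → (∀ i m, ty i = .pl m → ∑ j, m j * x j ≠ 0) →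
        (∀ i, 0 < nn f (fm E (ty i)) (exv K x)) ∧
        wt v * ∑ i, lm f (fm E (ty i)) (exv K x) ≤ (2 + ε) * logHeight x + C := by
  classical
  set L : Fin r × Fin r × Fin 4 → Fin 4 → K := fun p =>
    four E (pr E (ty p.1) (ty p.2.1)).1 (pr E (ty p.1) (ty p.2.1)).2 p.2.2 with hL
  have hdet : ∀ i j, (Matrix.of fun a => L (i, j, a)).det ≠ 0 := by
    intro i j
    have e1 : (fun a => L (i, j, a)) = four E (pr E (ty i) (ty j)).1 (pr E (ty i) (ty j)).2 := by
      funext a
      rw [hL]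
    rw [e1]
    exact four_det E hE (pr_ne hok i j).1 (pr_ne hok i j).2
  have hL0 : ∀ p, L p ≠ 0 := by
    rintro ⟨i, j, a⟩ h0
    exact hdet i j (Matrix.det_eq_zero_of_row_eq_zero a fun l => congrFun h0 l)
  obtain ⟨Z0, hZ0, hmain⟩ := schV (k := k) hi (by norm_num : 1 ≤ 4) L
  have hfd : FiniteDimensional k K := Module.Finite.of_restrictScalars_finite ℚ k K
  have hdes : ∀ l, ∃ g : Fin 4 → k, g ≠ 0 ∧ ∀ x : Fin 4 → k,
      ∑ j, g j * x j ≠ 0 → ∑ j, L l j * algebraMap k K (x j) ≠ 0 := fun l =>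
    descend (k := k) (L l) (hL0 l)
  choose g hg0 hg using hdes
  refine ⟨Z0 ∪ Finset.univ.image g, ?_, ?_⟩
  · intro z hz
    rcases Finset.mem_union.1 hz with hz | hz
    · exact hZ0 z hz
    · obtain ⟨l, -, rfl⟩ := Finset.mem_image.1 hz
      exact hg0 l
  intro v f hf ε hε
  have hw := wt_nonneg v
  obtain ⟨C0, hC0, hsch⟩ := hmain {v} (fun _ => f) (by
    intro w hw'
    rw [Finset.mem_singleton] at hw'
    subst hw'
    exact hf) (2 * ε) (by positivity)
  -- constants for the pairs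
  choose C4 hC4 h4 using fun i j : Fin r => four_ge f E hE (pr E (ty i) (ty j)).1
    (pr E (ty i) (ty j)).2
  choose Ca hCa ha using fun i j : Fin r => lm_ge f (row E (pr E (ty i) (ty j)).1)
  choose Cb hCb hb using fun i j : Fin r => lm_ge f (row (swp E) (pr E (ty i) (ty j)).2)
  set D4 : ℝ := ∑ i, ∑ j, (C4 i j + Ca i j + Cb i j) with hD4
  have hD4i : ∀ i j, C4 i j + Ca i j + Cb i j ≤ D4 := by
    intro i j
    have t1 : C4 i j + Ca i j + Cb i j ≤ ∑ j, (C4 i j + Ca i j + Cb i j) :=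
      Finset.single_le_sum (f := fun j => C4 i j + Ca i j + Cb i j)
        (fun j _ => by linarith [hC4 i j, hCa i j, hCb i j]) (Finset.mem_univ j)
    exact t1.trans (Finset.single_le_sum (f := fun i => ∑ j, (C4 i j + Ca i j + Cb i j))
      (fun i _ => Finset.sum_nonneg fun j _ => by linarith [hC4 i j, hCa i j, hCb i j])
      (Finset.mem_univ i))
  have hD40 : 0 ≤ D4 := Finset.sum_nonneg fun i _ => Finset.sum_nonneg fun j _ => by
    linarith [hC4 i j, hCa i j, hCb i j]
  -- constants for the planes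
  have hpl : ∀ i, ∃ C : ℝ, 0 ≤ C ∧ ∀ m, ty i = .pl m → ∀ x : Fin 4 → k, x ≠ 0 →
      ∑ j, m j * x j ≠ 0 →
      wt v * (Real.log (nrm (av v) x) - Real.log (av v (∑ j, m j * x j))) ≤ logHeight x + C := by
    intro i
    rcases hti : ty i with a | b | m
    · exact ⟨0, le_rfl, fun m h => by cases h⟩
    · exact ⟨0, le_rfl, fun m h => by cases h⟩
    · obtain ⟨C, h1, h2⟩ := liou_pl m
      refine ⟨C, h1, fun m' h => ?_⟩
      cases h
      exact h2 v
  choose Cp hCp hp using hpl
  set Dp : ℝ := ∑ i, Cp i with hDp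
  have hDpi : ∀ i, Cp i ≤ Dp := fun i =>
    Finset.single_le_sum (f := Cp) (fun i _ => hCp i) (Finset.mem_univ i)
  have hDp0 : 0 ≤ Dp := Finset.sum_nonneg fun i _ => hCp i
  -- constants for line and plane
  have hoth : ∀ i j, ∃ C : ℝ, 0 ≤ C ∧
      (∀ a m, ty i = .ra a → ty j = .pl m → ∀ x : Fin 4 → K, x ≠ 0 → 0 < nn f (row E a) x →
        dot (exv K m) x ≠ 0 → 0 < nn f (row (swp E) (oth E (exv K m) a)) x →
        min (lm f (row E a) x) (Real.log (nrm f x) - Real.log (f (dot (exv K m) x))) ≤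
          lm f (row (swp E) (oth E (exv K m) a)) x + C) ∧
      (∀ b m, ty i = .cb b → ty j = .pl m → ∀ x : Fin 4 → K, x ≠ 0 → 0 < nn f (row (swp E) b) x →
        dot (exv K m) x ≠ 0 → 0 < nn f (row E (oth (swp E) (exv K m) b)) x →
        min (lm f (row (swp E) b) x) (Real.log (nrm f x) - Real.log (f (dot (exv K m) x))) ≤
          lm f (row E (oth (swp E) (exv K m) b)) x + C) := by
    intro i j
    rcases hti : ty i with a | b | m
    · rcases htj : ty j with a' | b' | m
      · exact ⟨0, le_rfl, fun _ m _ h => (by cases h), fun _ m _ h => (by cases h)⟩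
      · exact ⟨0, le_rfl, fun _ m _ h => (by cases h), fun _ m _ h => (by cases h)⟩
      · obtain ⟨C, h1, h2⟩ := oth_ge f E hE (exv K m) a
        refine ⟨C, h1, fun a' m' h h' => ?_, fun _ _ h => (by cases h)⟩
        cases h
        cases h'
        exact h2
    · rcases htj : ty j with a' | b' | m
      · exact ⟨0, le_rfl, fun _ m _ h => (by cases h), fun _ m _ h => (by cases h)⟩
      · exact ⟨0, le_rfl, fun _ m _ h => (by cases h), fun _ m _ h => (by cases h)⟩
      · obtain ⟨C, h1, h2⟩ := oth_ge f (swp E) (swp_det hE) (exv K m) b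
        refine ⟨C, h1, fun _ _ h => (by cases h), fun a' m' h h' => ?_⟩
        cases h
        cases h'
        rw [swp_swp] at h2
        exact h2
    · exact ⟨0, le_rfl, fun _ m h => (by cases h), fun _ m h => (by cases h)⟩
  choose Co hCo ho using hoth
  set Do : ℝ := ∑ i, ∑ j, Co i j with hDo
  have hDoi : ∀ i j, Co i j ≤ Do := by
    intro i j
    exact (Finset.single_le_sum (f := fun j => Co i j) (fun j _ => hCo i j)
      (Finset.mem_univ j)).trans (Finset.single_le_sum (f := fun i => ∑ j, Co i j)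
      (fun i _ => Finset.sum_nonneg fun j _ => hCo i j) (Finset.mem_univ i))
  have hDo0 : 0 ≤ Do := Finset.sum_nonneg fun i _ => Finset.sum_nonneg fun j _ => hCo i j
  -- constants for two lines of one ruling
  have hdis : ∀ i j, ∃ C : ℝ, 0 ≤ C ∧ (i ≠ j →
      ((∃ a a', ty i = .ra a ∧ ty j = .ra a') ∨ (∃ b b', ty i = .cb b ∧ ty j = .cb b')) →
      ∀ x : Fin 4 → K, x ≠ 0 → 0 < nn f (fm E (ty i)) x → 0 < nn f (fm E (ty j)) x →
        min (lm f (fm E (ty i)) x) (lm f (fm E (ty j)) x) ≤ C) := by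
    intro i j
    by_cases hij : i = j
    · exact ⟨0, le_rfl, fun h => absurd hij h⟩
    by_cases h : ∃ a a', ty i = .ra a ∧ ty j = .ra a'
    · obtain ⟨a, a', h1, h2⟩ := h
      obtain ⟨C, hC, h3⟩ := hrr i j a a' hij h1 h2 f
      refine ⟨C, hC, fun _ _ x hx => ?_⟩
      rw [h1, h2]
      exact h3 x hx
    · by_cases h' : ∃ b b', ty i = .cb b ∧ ty j = .cb b'
      · obtain ⟨b, b', h1, h2⟩ := h'
        obtain ⟨C, hC, h3⟩ := hcc i j b b' hij h1 h2 f
        refine ⟨C, hC, fun _ _ x hx => ?_⟩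
        rw [h1, h2]
        exact h3 x hx
      · exact ⟨0, le_rfl, fun _ h'' => absurd h'' (not_or.2 ⟨h, h'⟩)⟩
  choose Cd hCd hd using hdis
  set Dd : ℝ := ∑ i, ∑ j, Cd i j with hDd
  have hDdi : ∀ i j, Cd i j ≤ Dd := by
    intro i j
    exact (Finset.single_le_sum (f := fun j => Cd i j) (fun j _ => hCd i j)
      (Finset.mem_univ j)).trans (Finset.single_le_sum (f := fun i => ∑ j, Cd i j)
      (fun i _ => Finset.sum_nonneg fun j _ => hCd i j) (Finset.mem_univ i))
  have hDd0 : 0 ≤ Dd := Finset.sum_nonneg fun i _ => Finset.sum_nonneg fun j _ => hCd i j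
  -- triples
  have htrip : ∀ i j l, ∃ C : ℝ, 0 ≤ C ∧ (i ≠ j → i ≠ l → j ≠ l →
      ∀ x : Fin 4 → K, x ≠ 0 → On E x → (∀ i, 0 < nn f (fm E (ty i)) x) →
        min (lm f (fm E (ty i)) x) (min (lm f (fm E (ty j)) x) (lm f (fm E (ty l)) x)) ≤ C) := by
    intro i j l
    by_cases h : i ≠ j ∧ i ≠ l ∧ j ≠ l
    · obtain ⟨C, hC, h1⟩ := htr i j l h.1 h.2.1 h.2.2 f
      exact ⟨C, hC, fun _ _ _ => h1⟩
    · exact ⟨0, le_rfl, fun h1 h2 h3 => absurd ⟨h1, h2, h3⟩ h⟩
  choose Ct hCt ht using htrip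
  set Dt : ℝ := ∑ i, ∑ j, ∑ l, Ct i j l with hDt
  have hDti : ∀ i j l, Ct i j l ≤ Dt := by
    intro i j l
    refine (Finset.single_le_sum (f := fun l => Ct i j l) (fun l _ => hCt i j l)
      (Finset.mem_univ l)).trans ?_
    refine (Finset.single_le_sum (f := fun j => ∑ l, Ct i j l)
      (fun j _ => Finset.sum_nonneg fun l _ => hCt i j l) (Finset.mem_univ j)).trans ?_
    exact Finset.single_le_sum (f := fun i => ∑ j, ∑ l, Ct i j l)
      (fun i _ => Finset.sum_nonneg fun j _ => Finset.sum_nonneg fun l _ => hCt i j l)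
      (Finset.mem_univ i)
  have hDt0 : 0 ≤ Dt := Finset.sum_nonneg fun i _ => Finset.sum_nonneg fun j _ =>
    Finset.sum_nonneg fun l _ => hCt i j l
  -- the bound
  set B1 : ℝ := (C0 + wt v * D4) / 2 + wt v * D4 with hB1
  have hB10 : 0 ≤ B1 := by positivity
  refine ⟨2 * B1 + 2 * Dp + wt v * Do + wt v * Dd + r * (wt v * Dt), fun x hx hon hZx hplx => ?_⟩
  have hxK : exv K x ≠ 0 := exv_ne hx
  have hh := logHeight_nonneg x
  have hLx : ∀ l, dot (L l) (exv K x) ≠ 0 := fun l =>
    hg l x (hZx _ (Finset.mem_union_right _ (Finset.mem_image_of_mem _ (Finset.mem_univ _))))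
  have hsch1 : ∀ i j, wt v * ∑ a, (Real.log (nrm (av v) x) -
      Real.log (f (dot (L (i, j, a)) (exv K x)))) ≤ (4 + 2 * ε) * logHeight x + C0 := by
    intro i j
    have h1 := hsch x hx (fun z hz => hZx z (Finset.mem_union_left _ hz)) hLx
      (fun _ a => (i, j, a)) (fun _ _ => hdet i j)
    rw [Finset.sum_singleton] at h1
    push_cast at h1
    exact h1
  have hnrm : nrm f (exv K x) = nrm (av v) x := hf.nrm_ext x
  -- pairs of lines
  have hS : ∀ i j, 0 < nn f (row E (pr E (ty i) (ty j)).1) (exv K x) ∧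
      0 < nn f (row (swp E) (pr E (ty i) (ty j)).2) (exv K x) ∧
      wt v * (lm f (row E (pr E (ty i) (ty j)).1) (exv K x) +
        lm f (row (swp E) (pr E (ty i) (ty j)).2) (exv K x)) ≤
        (2 + ε) * logHeight x + (C0 + wt v * D4) / 2 ∧
      wt v * lm f (row E (pr E (ty i) (ty j)).1) (exv K x) ≤ (2 + ε) * logHeight x + B1 ∧
      wt v * lm f (row (swp E) (pr E (ty i) (ty j)).2) (exv K x) ≤
        (2 + ε) * logHeight x + B1 := by
    intro i j
    obtain ⟨p1, p2⟩ := nn_pos_of_bf f E (a := (pr E (ty i) (ty j)).1)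
      (b := (pr E (ty i) (ty j)).2) (x := exv K x) (hLx (i, j, 0))
    have q1 := h4 i j (exv K x) hxK hon (fun l => hLx (i, j, l))
    have q2 := hsch1 i j
    rw [hnrm] at q1
    have q3 := mul_le_mul_of_nonneg_left q1 hw
    rw [mul_add] at q3
    have q4 : wt v * ∑ l, (Real.log (nrm (av v) x) - Real.log (f (dot (four E
        (pr E (ty i) (ty j)).1 (pr E (ty i) (ty j)).2 l) (exv K x)))) ≤
        (4 + 2 * ε) * logHeight x + C0 := q2
    have q5 := hD4i i j
    have q6 := ha i j (exv K x) hxK p1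
    have q7 := hb i j (exv K x) hxK p2
    have c1 := hC4 i j
    have c2 := hCa i j
    have c3 := hCb i j
    have q8 : wt v * C4 i j ≤ wt v * D4 := mul_le_mul_of_nonneg_left (by linarith) hw
    have q9 : wt v * -D4 ≤ wt v * lm f (row E (pr E (ty i) (ty j)).1) (exv K x) :=
      mul_le_mul_of_nonneg_left (by linarith) hw
    have q10 : wt v * -D4 ≤ wt v * lm f (row (swp E) (pr E (ty i) (ty j)).2) (exv K x) :=
      mul_le_mul_of_nonneg_left (by linarith) hw
    have q11 : wt v * (lm f (row E (pr E (ty i) (ty j)).1) (exv K x) +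
        lm f (row (swp E) (pr E (ty i) (ty j)).2) (exv K x)) ≤
        (2 + ε) * logHeight x + (C0 + wt v * D4) / 2 := by
      linarith [q3, q4, q8]
    refine ⟨p1, p2, q11, ?_, ?_⟩
    · rw [mul_add] at q11
      rw [hB1]
      linarith
    · rw [mul_add] at q11
      rw [hB1]
      linarith
  -- positivity and the single bounds
  have hpos : ∀ i, 0 < nn f (fm E (ty i)) (exv K x) := by
    intro i
    rcases hti : ty i with a | b | m
    · have := (hS i i).1
      rw [hti] at this
      exact this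
    · have := (hS i i).2.1
      rw [hti] at this
      exact this
    · refine nn_pos (i := 0) ?_
      show dot (exv K m) (exv K x) ≠ 0
      rw [dot_exv, Ne, map_eq_zero]
      exact hplx i m hti
  have hple : ∀ i m, ty i = .pl m → wt v * lm f (fm E (ty i)) (exv K x) ≤ logHeight x + Dp := by
    intro i m hti
    rw [hti]
    show wt v * lm f (fun _ => exv K m) (exv K x) ≤ _
    rw [lm_pl hf]
    have := hp i m hti x hx (hplx i m hti)
    linarith [hDpi i]
  have heh : 0 ≤ ε * logHeight x := mul_nonneg hε.le hh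
  have hsing : ∀ i, wt v * lm f (fm E (ty i)) (exv K x) ≤ (2 + ε) * logHeight x + (B1 + Dp) := by
    intro i
    rcases hti : ty i with a | b | m
    · have := (hS i i).2.2.2.1
      rw [hti] at this
      have h1 : wt v * lm f (row E a) (exv K x) ≤ (2 + ε) * logHeight x + B1 := this
      show wt v * lm f (row E a) (exv K x) ≤ _
      linarith
    · have := (hS i i).2.2.2.2
      rw [hti] at this
      have h1 : wt v * lm f (row (swp E) b) (exv K x) ≤ (2 + ε) * logHeight x + B1 := this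
      show wt v * lm f (row (swp E) b) (exv K x) ≤ _
      linarith
    · have := hple i m hti
      rw [hti] at this
      linarith
  refine ⟨hpos, ?_⟩
  have harith : ∀ (u t w2 : ℝ), min u t ≤ w2 + Do →
      wt v * (u + w2) ≤ (2 + ε) * logHeight x + (C0 + wt v * D4) / 2 →
      wt v * t ≤ logHeight x + Dp →
      wt v * (u + t) ≤ (2 + ε) * logHeight x + (2 * B1 + 2 * Dp + wt v * Do + wt v * Dd) := by
    intro u t w2 h1 h2 h3
    have e1 : wt v * min u t ≤ wt v * (w2 + Do) := mul_le_mul_of_nonneg_left h1 hw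
    have e2 : 0 ≤ wt v * Do := mul_nonneg hw hDo0
    have e3 : 0 ≤ wt v * Dd := mul_nonneg hw hDd0
    have e4 : 0 ≤ wt v * D4 := mul_nonneg hw hD40
    have e5 : (C0 + wt v * D4) / 2 ≤ B1 := by
      rw [hB1]
      linarith
    rw [mul_add] at h2 ⊢
    rcases le_total u t with h | h
    · rw [min_eq_left h, mul_add] at e1
      have e6 : wt v * u ≤ (1 + ε / 2) * logHeight x + (B1 + wt v * Do) / 2 := by linarith
      linarith
    · rw [min_eq_right h, mul_add] at e1
      linarith
  -- a line and a plane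
  have hlp : ∀ i j m, ty j = .pl m → (∀ m', ty i ≠ .pl m') →
      wt v * (lm f (fm E (ty i)) (exv K x) + lm f (fm E (ty j)) (exv K x)) ≤
      (2 + ε) * logHeight x + (2 * B1 + 2 * Dp + wt v * Do + wt v * Dd) := by
    intro i j m htj hni
    have t1 := hple j m htj
    rcases hti : ty i with a | b | m'
    · have h1 := hS i j
      rw [hti, htj] at h1
      obtain ⟨p1, p2, p3, -, -⟩ := h1
      have h2 := (ho i j).1 a m hti htj (exv K x) hxK p1 (by
        rw [dot_exv, Ne, map_eq_zero]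
        exact hplx j m htj) p2
      rw [hnrm, dot_exv, hf.ext] at h2
      rw [htj] at t1 ⊢
      have t2 : lm f (fm E (Ty.pl m)) (exv K x) =
        Real.log (nrm (av v) x) - Real.log (av v (∑ j, m j * x j)) := lm_pl hf m x
      rw [← t2] at h2
      refine harith _ _ _ (h2.trans ?_) p3 t1
      have := hDoi i j
      show _ + Co i j ≤ _ + Do
      exact add_le_add le_rfl this
    · have h1 := hS i j
      rw [hti, htj] at h1
      obtain ⟨p1, p2, p3, -, -⟩ := h1
      have h2 := (ho i j).2 b m hti htj (exv K x) hxK p2 (by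
        rw [dot_exv, Ne, map_eq_zero]
        exact hplx j m htj) p1
      rw [hnrm, dot_exv, hf.ext] at h2
      rw [htj] at t1 ⊢
      have t2 : lm f (fm E (Ty.pl m)) (exv K x) =
        Real.log (nrm (av v) x) - Real.log (av v (∑ j, m j * x j)) := lm_pl hf m x
      rw [← t2] at h2
      refine harith _ _ _ (h2.trans ?_) (by rw [add_comm]; exact p3) t1
      have := hDoi i j
      show _ + Co i j ≤ _ + Do
      exact add_le_add le_rfl this
    · exact absurd hti (hni m')
  have hpair : ∀ i j, i ≠ j →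
      wt v * (lm f (fm E (ty i)) (exv K x) + lm f (fm E (ty j)) (exv K x)) ≤
      (2 + ε) * logHeight x + (2 * B1 + 2 * Dp + wt v * Do + wt v * Dd) := by
    intro i j hij
    have e2 : 0 ≤ wt v * Do := mul_nonneg hw hDo0
    have e3 : 0 ≤ wt v * Dd := mul_nonneg hw hDd0
    have hdisj : ((∃ a a', ty i = .ra a ∧ ty j = .ra a') ∨
        (∃ b b', ty i = .cb b ∧ ty j = .cb b')) →
        wt v * (lm f (fm E (ty i)) (exv K x) + lm f (fm E (ty j)) (exv K x)) ≤
      (2 + ε) * logHeight x + (2 * B1 + 2 * Dp + wt v * Do + wt v * Dd) := by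
      intro h
      have h1 := hd i j hij h (exv K x) hxK (hpos i) (hpos j)
      have h2 := h1.trans (hDdi i j)
      rw [mul_add]
      rcases min_le_iff.1 h2 with h3 | h3
      · have := mul_le_mul_of_nonneg_left h3 hw
        linarith [hsing j]
      · have := mul_le_mul_of_nonneg_left h3 hw
        linarith [hsing i]
    have e4 : 0 ≤ wt v * D4 := mul_nonneg hw hD40
    have e5 : (C0 + wt v * D4) / 2 ≤ B1 := by
      rw [hB1]
      linarith
    rcases hti : ty i with a | b | m
    · rcases htj : ty j with a' | b' | m'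
      · have := hdisj (Or.inl ⟨a, a', hti, htj⟩)
        rwa [hti, htj] at this
      · have h1 := (hS i j).2.2.1
        rw [hti, htj] at h1
        have h2 : wt v * (lm f (row E a) (exv K x) + lm f (row (swp E) b') (exv K x)) ≤
          (2 + ε) * logHeight x + (C0 + wt v * D4) / 2 := h1
        show wt v * (lm f (row E a) (exv K x) + lm f (row (swp E) b') (exv K x)) ≤ _
        linarith
      · have := hlp i j m' htj (by rw [hti]; intro _ h; cases h)
        rwa [hti, htj] at this
    · rcases htj : ty j with a' | b' | m'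
      · have h1 := (hS i j).2.2.1
        rw [hti, htj] at h1
        have h2 : wt v * (lm f (row E a') (exv K x) + lm f (row (swp E) b) (exv K x)) ≤
          (2 + ε) * logHeight x + (C0 + wt v * D4) / 2 := h1
        show wt v * (lm f (row (swp E) b) (exv K x) + lm f (row E a') (exv K x)) ≤ _
        rw [add_comm (lm f (row (swp E) b) (exv K x))]
        linarith
      · have := hdisj (Or.inr ⟨b, b', hti, htj⟩)
        rwa [hti, htj] at this
      · have := hlp i j m' htj (by rw [hti]; intro _ h; cases h)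
        rwa [hti, htj] at this
    · rcases htj : ty j with a' | b' | m'
      · have := hlp j i m hti (by rw [htj]; intro _ h; cases h)
        rw [hti, htj] at this
        rw [add_comm (lm f (fm E (Ty.pl m)) (exv K x))]
        exact this
      · have := hlp j i m hti (by rw [htj]; intro _ h; cases h)
        rw [hti, htj] at this
        rw [add_comm (lm f (fm E (Ty.pl m)) (exv K x))]
        exact this
      · have h1 := hple i m hti
        have h2 := hple j m' htj
        rw [hti] at h1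
        rw [htj] at h2
        rw [mul_add]
        linarith
  -- the sum
  rw [Finset.mul_sum]
  have e2 : 0 ≤ wt v * Do := mul_nonneg hw hDo0
  have e3 : 0 ≤ wt v * Dd := mul_nonneg hw hDd0
  refine (sum_le_of_few (fun i => wt v * lm f (fm E (ty i)) (exv K x)) (wt v * Dt)
    ((2 + ε) * logHeight x + (2 * B1 + 2 * Dp + wt v * Do + wt v * Dd)) (by positivity)
    (by positivity) ?_ ?_ ?_).trans (le_of_eq (by ring))
  · intro i j l hij hil hjl
    have h5 := (ht i j l hij hil hjl (exv K x) hxK hon hpos).trans (hDti i j l)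
    rw [← mul_min_of_nonneg _ _ hw, ← mul_min_of_nonneg _ _ hw]
    exact mul_le_mul_of_nonneg_left h5 hw
  · intro i
    have := hsing i
    show wt v * lm f (fm E (ty i)) (exv K x) ≤ _
    linarith
  · intro i j hij
    have := hpair i j hij
    rw [mul_add] at this
    exact this

end Pool.Agent.R405.QS
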