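import Mathlib
import Pool.Agent.R405.QS2

/-!
Quadric surfaces: fields, places, rulings.
-/

set_option autoImplicit false
set_option linter.unusedSectionVars false

open Finset

namespace Pool.Agent.R405.QS

open NumberField IsDedekindDomain Height Module MvPolynomial
open Pool.Agent.W180.OP (Pl av wt nrm le_nrm nrm_pos nrm_nonneg exists_nrm lam lam_eq liou wt_nonneg
  sum_le_of_few)
open Pool.Agent.R405
open Pool.Agent.Y742.SF (fv)
open Pool.Agent.TeamU (Over)

/-- large fields with square roots -/
theorem exists_big2 (K : Type) [Field K] [NumberField K] (T : Finset K) :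
    ∃ M : IntermediateField ℚ ℂ, FiniteDimensional ℚ M ∧ IsGalois ℚ M ∧ (∃ z : M, z ^ 2 = -1) ∧
      ∃ φ : K →+* M, ∀ t ∈ T, ∃ s : M, s ^ 2 = φ t := by
  classical
  obtain ⟨ψ⟩ : Nonempty (K →+* ℂ) := inferInstance
  let φ : K →ₐ[ℚ] ℂ := ψ.toRatAlgHom
  let b := Module.finBasis ℚ K
  have halg : ∀ x : K, IsAlgebraic ℚ (φ x) := fun x =>
    (Algebra.IsAlgebraic.isAlgebraic (R := ℚ) x).algHom φ
  have hsq : ∀ t : K, ∃ s : ℂ, s ^ 2 = φ t := fun t => by
    obtain ⟨s, hs⟩ := IsAlgClosed.exists_pow_nat_eq (φ t) (n := 2) (by norm_num)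
    exact ⟨s, hs⟩
  choose sq hsq using hsq
  have hsqalg : ∀ t, IsAlgebraic ℚ (sq t) := fun t => by
    refine IsAlgebraic.of_pow (n := 2) (by norm_num) ?_
    rw [hsq]
    exact halg t
  obtain ⟨M, hfd, hnorm, hM⟩ := Pool.Agent.TH286.GT.GrowD.exists_field
    (insert Complex.I ((Finset.univ.image fun i => φ (b i)) ∪ T.image sq)) (by
      intro x hx
      rcases Finset.mem_insert.1 hx with rfl | hx
      · refine ⟨Polynomial.X ^ 2 + 1, ?_, by simp⟩
        intro h
        have := congrArg (Polynomial.eval 1) h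
        norm_num at this
      · rcases Finset.mem_union.1 hx with hx | hx
        · obtain ⟨i, -, rfl⟩ := Finset.mem_image.1 hx
          exact halg _
        · obtain ⟨t, -, rfl⟩ := Finset.mem_image.1 hx
          exact hsqalg t)
  have hmem : ∀ x : K, φ x ∈ M := by
    intro x
    rw [← b.sum_repr x, map_sum]
    refine sum_mem fun i _ => ?_
    rw [Algebra.smul_def, map_mul, φ.commutes, ← Algebra.smul_def]
    exact M.smul_mem (hM _ (Finset.mem_insert_of_mem (Finset.mem_union_left _
      (Finset.mem_image_of_mem _ (Finset.mem_univ i)))))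
  refine ⟨M, hfd, ⟨⟩, ⟨⟨Complex.I, hM _ (Finset.mem_insert_self _ _)⟩, ?_⟩,
    (φ : K →+* ℂ).codRestrict M.toSubfield hmem, fun t ht => ?_⟩
  · apply Subtype.ext
    show Complex.I ^ 2 = -1
    exact Complex.I_sq
  · refine ⟨⟨sq t, hM _ (Finset.mem_insert_of_mem (Finset.mem_union_right _
      (Finset.mem_image_of_mem _ ht)))⟩, ?_⟩
    apply Subtype.ext
    exact hsq t

section place

variable {k K M : Type} [Field k] [NumberField k] [Field K] [NumberField K] [Field M]
  [NumberField M] [Algebra k K] [Algebra K M] [Algebra k M] [IsScalarTower k K M]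

theorem fv_two_le (Q : HeightOneSpectrum (𝓞 K)) : fv Q (2 : K) ≤ 1 := by
  rw [Pool.Agent.Y742.SF.fv_le_one_iff]
  have h : Q.valuation K (algebraMap (𝓞 K) K 2) ≤ 1 := Q.valuation_le_one (K := K) (2 : 𝓞 K)
  rwa [map_ofNat] at h

theorem inf_two {K : Type} [Field K] [NumberField K] (w : InfinitePlace K) : w (2 : K) = 2 := by
  rw [← InfinitePlace.norm_embedding_eq, map_ofNat]
  norm_num

/-- extension of a normalised place -/
theorem ext_place (v : Pl k) (w : Pl K) (t : ℝ) (ht : 0 < t)
    (h : ∀ a : k, av w (algebraMap k K a) ^ t = av v a) :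
    ∃ g : AbsoluteValue M ℝ, Good v g ∧ ∀ y : K, g (algebraMap K M y) = av w y ^ t := by
  rcases v with v | v
  · rcases w with w | Q
    · have ht1 : t = 1 := by
        have h2 := h 2
        have e1 : av (Sum.inl w : Pl K) (algebraMap k K 2) = 2 := by
          rw [map_ofNat]
          exact inf_two w
        have e2 : av (Sum.inl v : Pl k) 2 = 2 := by
          exact inf_two v
        rw [e1, e2] at h2
        have h3 : (2 : ℝ) ^ t = 2 ^ (1 : ℝ) := by rw [h2, Real.rpow_one]
        have := (Real.rpow_right_inj (by norm_num : (0 : ℝ) < 2) (by norm_num)).1 h3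
        exact this
      subst ht1
      simp only [Real.rpow_one] at h ⊢
      obtain ⟨w', hw0⟩ := InfinitePlace.comap_surjective (k := K) (K := M) w
      have hw' : w'.comap (algebraMap K M) = w := hw0
      refine ⟨w'.1, ⟨w', ?_, fun _ => rfl⟩, fun y => ?_⟩
      · ext a
        rw [InfinitePlace.comap_apply, IsScalarTower.algebraMap_apply k K M,
          ← InfinitePlace.comap_apply, hw']
        exact h a
      · show w' (algebraMap K M y) = w y
        rw [← InfinitePlace.comap_apply, hw']
    · exfalso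
      have h2 := h 2
      have e2 : av (Sum.inl v : Pl k) 2 = 2 := by
        exact inf_two v
      rw [e2, map_ofNat] at h2
      have h3 : av (Sum.inr Q : Pl K) (2 : K) ^ t ≤ 1 :=
        Real.rpow_le_one (AbsoluteValue.nonneg _ _) (fv_two_le Q) ht.le
      rw [h2] at h3
      norm_num at h3
  · rcases w with w | Q
    · exfalso
      have h2 := h 2
      have e1 : av (Sum.inl w : Pl K) (algebraMap k K 2) = 2 := by
        rw [map_ofNat]
        exact inf_two w
      rw [e1] at h2
      have h3 : av (Sum.inr v : Pl k) (2 : k) ≤ 1 := fv_two_le v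
      rw [← h2] at h3
      have h4 : (1 : ℝ) < 2 ^ t := Real.one_lt_rpow (by norm_num) ht
      linarith
    · have hfv : ∀ a : k, fv Q (algebraMap k K a) ^ t = fv v a := h
      have hover : Over Q v := by
        have h1 : Q.under (𝓞 k) = v := by
          apply HeightOneSpectrum.ext
          ext a
          show a ∈ (Q.asIdeal).under (𝓞 k) ↔ a ∈ v.asIdeal
          rw [Ideal.mem_comap]
          have e1 : fv v (a : k) < 1 ↔ a ∈ v.asIdeal := by
            rw [fv_lt_one_iff]
            exact v.valuation_lt_one_iff_mem a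
          have e2 : fv Q (algebraMap k K (a : k)) < 1 ↔ algebraMap (𝓞 k) (𝓞 K) a ∈ Q.asIdeal := by
            rw [fv_lt_one_iff]
            have := Q.valuation_lt_one_iff_mem (K := K) (algebraMap (𝓞 k) (𝓞 K) a)
            exact this
          rw [← e1, ← e2, ← hfv]
          constructor
          · intro h2
            exact Real.rpow_lt_one (AbsoluteValue.nonneg (av (Sum.inr Q : Pl K)) _) h2 ht
          · intro h2
            by_contra h3
            exact absurd (Real.one_le_rpow (not_lt.1 h3) ht.le) (not_le.2 h2)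
        exact (over_iff Q v).1 h1
      obtain ⟨Q', hQ'⟩ := exists_over (K := M) Q
      obtain ⟨c', hc', h'⟩ := exists_exp hQ'
      have hov : Over Q' v := by
        rw [← over_iff]
        have e1 := (over_iff Q' Q).2 hQ'
        have e2 := (over_iff Q v).2 hover
        rw [← e2, ← e1]
        apply HeightOneSpectrum.ext
        show (Q'.asIdeal).under (𝓞 k) = ((Q'.asIdeal).under (𝓞 K)).under (𝓞 k)
        rw [Ideal.under_under]
      have hc : 0 < t⁻¹ * c' := mul_pos (inv_pos.2 ht) hc'
      refine ⟨rootAbs Q' (t⁻¹ * c') hc, ⟨Q', t⁻¹ * c', hov, hc, fun a => ?_, fun _ => rfl⟩,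
        fun y => ?_⟩
      · rw [IsScalarTower.algebraMap_apply k K M, h', ← hfv, ← Real.rpow_mul
          (Pool.Agent.Y742.SF.fv_nonneg _ _), ← mul_assoc,
          mul_inv_cancel₀ ht.ne', one_mul]
      · show fv Q' (algebraMap K M y) ^ (t⁻¹ * c')⁻¹ = fv Q y ^ t
        rw [h', ← Real.rpow_mul (Pool.Agent.Y742.SF.fv_nonneg _ _)]
        congr 1
        field_simp

end place

section rulings

/-- a diagonal form -/
theorem diag {k : Type} [Field k] [CharZero k] (A : Matrix (Fin 4) (Fin 4) k) (hA : A.IsSymm)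
    (hdet : A.det ≠ 0) : ∃ (P : Fin 4 → Fin 4 → k) (w : Fin 4 → k),
      (∀ i j, A i j = ∑ l, w l * P l i * P l j) ∧ (∀ l, w l ≠ 0) ∧ (Matrix.of P).det ≠ 0 := by
  classical
  have h2 : Invertible (2 : k) := invertibleOfNonzero two_ne_zero
  have hfr : finrank k (Fin 4 → k) = 4 := by simp
  have hsymm : LinearMap.IsSymm (Matrix.toBilin' A : (Fin 4 → k) →ₗ[k] (Fin 4 → k) →ₗ[k] k) := by
    refine ⟨fun x y => ?_⟩
    simp only [RingHom.id_apply, Matrix.toBilin'_apply]
    rw [Finset.sum_comm]
    refine Finset.sum_congr rfl fun i _ => Finset.sum_congr rfl fun j _ => ?_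
    rw [hA.apply]
    ring
  obtain ⟨b, hb⟩ := LinearMap.BilinForm.exists_orthogonal_basis hsymm
  let e : Fin (finrank k (Fin 4 → k)) ≃ Fin 4 := finCongr hfr
  let c := b.reindex e
  set P : Fin 4 → Fin 4 → k := fun l i => c.repr (Pi.single i 1) l with hP
  set w : Fin 4 → k := fun l => Matrix.toBilin' A (c l) (c l) with hw
  have horth : ∀ l l', l ≠ l' → Matrix.toBilin' A (c l) (c l') = 0 := by
    intro l l' hll
    have := hb (i := e.symm l) (j := e.symm l') (fun h => hll (e.symm.injective h))
    simpa [c] using this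
  have hAij : ∀ i j, A i j = ∑ l, w l * P l i * P l j := by
    intro i j
    have h3 : Matrix.toBilin' A (Pi.single i 1) (Pi.single j 1) = A i j :=
      Matrix.toBilin'_single A i j
    have h4 : ∀ i, (Pi.single i 1 : Fin 4 → k) = ∑ l, P l i • c l := fun i =>
      (c.sum_repr (Pi.single i 1)).symm
    rw [← h3, h4 i, h4 j]
    simp only [map_sum, LinearMap.sum_apply, map_smul, LinearMap.smul_apply, smul_eq_mul]
    refine Finset.sum_congr rfl fun l _ => ?_
    rw [Finset.sum_eq_single l]
    · rw [hw]
      ring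
    · intro l' _ hl'
      rw [horth l' l hl', mul_zero]
    · intro h
      exact absurd (Finset.mem_univ _) h
  have hmat : A = (Matrix.of P).transpose * Matrix.diagonal w * Matrix.of P := by
    ext i j
    rw [hAij, Matrix.mul_apply]
    refine Finset.sum_congr rfl fun l _ => ?_
    rw [Matrix.mul_diagonal, Matrix.transpose_apply, Matrix.of_apply, Matrix.of_apply]
    ring
  rw [hmat, Matrix.det_mul, Matrix.det_mul, Matrix.det_diagonal] at hdet
  refine ⟨P, w, hAij, ?_, right_ne_zero_of_mul hdet⟩
  intro l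
  exact Finset.prod_ne_zero_iff.1 (right_ne_zero_of_mul (left_ne_zero_of_mul hdet)) l
    (Finset.mem_univ _)

/-- the two rulings -/
theorem exists_E {k M : Type} [Field k] [Field M] [CharZero M] [Algebra k M]
    (A : Matrix (Fin 4) (Fin 4) k) (P : Fin 4 → Fin 4 → k) (w : Fin 4 → k)
    (hAij : ∀ i j, A i j = ∑ l, w l * P l i * P l j) (hw : ∀ l, w l ≠ 0)
    (hP : (Matrix.of P).det ≠ 0) (s r : M) (hs : s ^ 2 = algebraMap k M (-(w 1 / w 0)))
    (hr : r ^ 2 = algebraMap k M (-(w 3 / w 2))) :
    ∃ E : Fin 4 → Fin 4 → M, (Matrix.of E).det ≠ 0 ∧ ∀ i j, 2 * algebraMap k M (A i j) =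
      E 0 i * E 3 j + E 3 i * E 0 j - E 1 i * E 2 j - E 2 i * E 1 j := by
  set a : k →+* M := algebraMap k M with ha
  have hw' : ∀ l, a (w l) ≠ 0 := fun l => (map_ne_zero a).2 (hw l)
  have hs0 : s ≠ 0 := by
    rintro rfl
    rw [zero_pow two_ne_zero, map_neg, map_div₀] at hs
    exact (neg_ne_zero.2 (div_ne_zero (hw' 1) (hw' 0))) hs.symm
  have hr0 : r ≠ 0 := by
    rintro rfl
    rw [zero_pow two_ne_zero, map_neg, map_div₀] at hr
    exact (neg_ne_zero.2 (div_ne_zero (hw' 3) (hw' 2))) hr.symm
  have hs' : a (w 0) * s ^ 2 = -a (w 1) := by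
    rw [hs, map_neg, map_div₀]
    field_simp [hw' 0]
  have hr' : a (w 2) * r ^ 2 = -a (w 3) := by
    rw [hr, map_neg, map_div₀]
    field_simp [hw' 2]
  set E : Fin 4 → Fin 4 → M := ![fun i => a (w 0) * (a (P 0 i) - s * a (P 1 i)),
    fun i => -(a (w 2)) * (a (P 2 i) - r * a (P 3 i)), fun i => a (P 2 i) + r * a (P 3 i),
    fun i => a (P 0 i) + s * a (P 1 i)] with hE
  refine ⟨E, ?_, fun i j => ?_⟩
  · intro h
    obtain ⟨x, hx, h0⟩ := Matrix.exists_mulVec_eq_zero_iff.2 h
    have h1 : ∀ l, dot (E l) x = 0 := fun l => congrFun h0 l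
    have hd : ∀ l, dot (fun i => a (P l i)) x = 0 := by
      have e0 := h1 0
      have e1 := h1 1
      have e2 := h1 2
      have e3 := h1 3
      simp only [hE, Matrix.cons_val, dot, Fin.sum_univ_four] at e0 e1 e2 e3
      have f0 : dot (fun i => a (P 0 i)) x - s * dot (fun i => a (P 1 i)) x = 0 := by
        refine (mul_eq_zero.1 (?_ : a (w 0) * _ = 0)).resolve_left (hw' 0)
        simp only [dot, Fin.sum_univ_four]
        linear_combination e0
      have f3 : dot (fun i => a (P 0 i)) x + s * dot (fun i => a (P 1 i)) x = 0 := by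
        simp only [dot, Fin.sum_univ_four]
        linear_combination e3
      have f1 : dot (fun i => a (P 2 i)) x - r * dot (fun i => a (P 3 i)) x = 0 := by
        refine (mul_eq_zero.1 (?_ : a (w 2) * _ = 0)).resolve_left (hw' 2)
        simp only [dot, Fin.sum_univ_four]
        linear_combination -e1
      have f2 : dot (fun i => a (P 2 i)) x + r * dot (fun i => a (P 3 i)) x = 0 := by
        simp only [dot, Fin.sum_univ_four]
        linear_combination e2
      have g0 : dot (fun i => a (P 0 i)) x = 0 := by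
        refine (mul_eq_zero.1 (?_ : (2 : M) * _ = 0)).resolve_left two_ne_zero
        linear_combination f0 + f3
      have g2 : dot (fun i => a (P 2 i)) x = 0 := by
        refine (mul_eq_zero.1 (?_ : (2 : M) * _ = 0)).resolve_left two_ne_zero
        linear_combination f1 + f2
      have g1 : dot (fun i => a (P 1 i)) x = 0 := by
        refine (mul_eq_zero.1 (?_ : s * _ = 0)).resolve_left hs0
        linear_combination f3 - g0
      have g3 : dot (fun i => a (P 3 i)) x = 0 := by
        refine (mul_eq_zero.1 (?_ : r * _ = 0)).resolve_left hr0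
        linear_combination f2 - g2
      intro l
      rcases (by decide : ∀ l : Fin 4, l = 0 ∨ l = 1 ∨ l = 2 ∨ l = 3) l with rfl | rfl | rfl | rfl
      · exact g0
      · exact g1
      · exact g2
      · exact g3
    have h3 : ((Matrix.of P).map a).det = 0 := by
      apply Matrix.exists_mulVec_eq_zero_iff.1
      refine ⟨x, hx, ?_⟩
      funext l
      exact hd l
    have h4 : ((Matrix.of P).map a).det = a (Matrix.of P).det := by
      rw [RingHom.map_det]
      rfl
    rw [h4, map_eq_zero] at h3
    exact hP h3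
  · rw [hAij]
    simp only [hE, Matrix.cons_val, Fin.sum_univ_four, map_add, map_mul]
    linear_combination (2 * a (P 1 i) * a (P 1 j)) * hs' + (2 * a (P 3 i) * a (P 3 j)) * hr'

variable {F : Type} [Field F]

/-- linear forms vanishing on the common zeros -/
theorem cmp (g : Fin 2 → Fin 4 → F) (g' : Fin 4 → F)
    (h : ∀ y : Fin 4 → F, (∀ j, dot (g j) y = 0) → dot g' y = 0) :
    ∃ c : Fin 2 → F, g' = c 0 • g 0 + c 1 • g 1 := by
  classical
  let lf : (Fin 4 → F) → (Fin 4 → F) →ₗ[F] F := fun u =>
    { toFun := fun y => dot u y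
      map_add' := fun y z => by
        simp only [dot, Pi.add_apply, mul_add, Finset.sum_add_distrib]
      map_smul' := fun c y => by
        simp only [dot, Pi.smul_apply, smul_eq_mul, RingHom.id_apply, Finset.mul_sum]
        exact Finset.sum_congr rfl fun _ _ => by ring }
  have h1 : lf g' ∈ Submodule.span F (Set.range fun j => lf (g j)) := by
    apply mem_span_of_iInf_ker_le_ker
    intro y hy
    rw [LinearMap.mem_ker]
    refine h y fun j => ?_
    have := (Submodule.mem_iInf _).1 hy j
    exact LinearMap.mem_ker.1 this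
  obtain ⟨c, hc⟩ := (Submodule.mem_span_range_iff_exists_fun F).1 h1
  refine ⟨c, ?_⟩
  funext i
  rw [Fin.sum_univ_two] at hc
  have h2 : (c 0 • lf (g 0) + c 1 • lf (g 1)) (Pi.single i 1) = lf g' (Pi.single i 1) := by rw [hc]
  have h3 : ∀ u : Fin 4 → F, lf u (Pi.single i 1) = u i := fun u => by
    show dot u (Pi.single i 1) = u i
    unfold dot
    rw [Finset.sum_eq_single i]
    · simp
    · intro j _ hj
      rw [Pi.single_eq_of_ne hj, mul_zero]
    · intro h
      exact absurd (Finset.mem_univ _) h
  rw [LinearMap.add_apply, LinearMap.smul_apply, LinearMap.smul_apply, h3, h3, h3] at h2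
  rw [← h2]
  rfl

end rulings

end Pool.Agent.R405.QS
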