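import Mathlib
import Pool.Agent.R405.BU4
import Pool.Agent.R405.QS3

/-!
Vojta's inequality on blow-ups of projective space along a linear subspace.
-/

set_option autoImplicit false
set_option linter.unusedSectionVars false

open Finset

namespace Pool.Agent.R405.BU

open NumberField IsDedekindDomain Height Module
open Pool.Agent.W180.OP (Pl av wt nrm le_nrm nrm_pos nrm_nonneg exists_nrm lam_eq liou wt_nonneg
  nrm_le)
open Pool.Agent.R405

/-- extension of the field of definition -/
def Cmp.bc {k K : Type} [Field k] [Field K] {a b : ℕ} (M : Type) [Field M] [Algebra K M]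
    (c : Cmp k K a b) : Cmp k M a b :=
  match c with
  | .ex => .ex
  | .ve l => .ve (exv M l)
  | .ho α β => .ho α β

variable {k K : Type} [Field k] [NumberField k] [Field K] [NumberField K] [Algebra k K] {a b q : ℕ}

/-- the local height with a place `w` above `v` -/
noncomputable def lhb (v : Pl k) (w : Pl K) (t : ℝ) (c : Cmp k K a b) (y : Fin a → k)
    (z : Fin b → k) : ℝ :=
  match c with
  | .ex => Real.log (siz (av v) y z) - Real.log (nrm (av v) y)
  | .ve l => t * (Real.log (nrm (av w) (exv K y)) - Real.log (av w (dot l (exv K y))))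
  | .ho α β => Real.log (siz (av v) y z) - Real.log (av v (dot α y + dot β z))

theorem buT (ha : 1 ≤ a) (hb : 1 ≤ b) (c : Fin q → Cmp k K a b)
    (hnc : ∀ (M : Type) [Field M] [Algebra K M] [Algebra k M] [IsScalarTower k K M],
      NCb (fun l => (c l).bc M)) :
    ∃ Z : Finset (Fin a → k), (∀ z ∈ Z, z ≠ 0) ∧ ∀ (v : Pl k) (w : Pl K) (t : ℝ), 0 < t →
      (∀ x : k, av w (algebraMap k K x) ^ t = av v x) → ∀ ε : ℝ, 0 < ε → ∃ C : ℝ,
      ∀ (y : Fin a → k) (z : Fin b → k), y ≠ 0 → (∀ m ∈ Z, ∑ j, m j * y j ≠ 0) →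
        (∀ l, (c l).eqn (exv K y) 1 (exv K z) ≠ 0) →
        ∑ l, wt v * lhb v w t (c l) y z ≤
          (b + 1 + ε) * logHeight (Fin.append y z) + (a - 1) * logHeight y + C := by
  classical
  obtain ⟨M, hM1, hM2, hi, ⟨φ⟩⟩ := exists_big K
  have : NumberField M := ⟨⟩
  let _ : Algebra K M := φ.toAlgebra
  let _ : Algebra k M := (φ.comp (algebraMap k K)).toAlgebra
  have : IsScalarTower k K M := IsScalarTower.of_algebraMap_eq fun _ => rfl
  obtain ⟨Z, hZ, hmain⟩ := buK (k := k) hi ha hb (fun l => (c l).bc M) (hnc M)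
  refine ⟨Z, hZ, fun v w t ht hvw ε hε => ?_⟩
  obtain ⟨f, hf, hfw⟩ := QS.ext_place (M := M) v w t ht hvw
  obtain ⟨C, hC⟩ := hmain v f hf ε hε
  refine ⟨C, fun y z hy hZy hoff => ?_⟩
  have hdotM : ∀ {n : ℕ} (u : Fin n → K) (x : Fin n → k),
      dot (exv M u) (exv M x) = algebraMap K M (dot u (exv K x)) := by
    intro n u x
    simp only [dot, exv, map_sum, map_mul]
    rfl
  have hdotk : ∀ {n : ℕ} (u : Fin n → k) (x : Fin n → k),
      dot (exv M u) (exv M x) = algebraMap k M (dot u x) := by
    intro n u x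
    simp only [dot, exv, map_sum, map_mul]
  have hdotK : ∀ {n : ℕ} (u : Fin n → k) (x : Fin n → k),
      dot (exv K u) (exv K x) = algebraMap k K (dot u x) := by
    intro n u x
    simp only [dot, exv, map_sum, map_mul]
  have h1 := hC y z hy hZy (by
    intro l
    have h2 := hoff l
    rcases hc : c l with _ | u | ⟨α, β⟩
    · rw [hc] at h2
      show (1 : M) ≠ 0
      exact one_ne_zero
    · rw [hc] at h2
      show dot (exv M u) (exv M y) ≠ 0
      rw [hdotM]
      exact (map_ne_zero _).2 h2
    · rw [hc] at h2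
      show dot (exv M α) (exv M y) * 1 + dot (exv M β) (exv M z) ≠ 0
      have h3 : dot (exv K α) (exv K y) * 1 + dot (exv K β) (exv K z) ≠ 0 := h2
      rw [mul_one, hdotK, hdotK, ← map_add, Ne, map_eq_zero] at h3
      rw [mul_one, hdotk, hdotk, ← map_add, Ne, map_eq_zero]
      exact h3)
  rw [Finset.mul_sum] at h1
  refine le_trans (le_of_eq (Finset.sum_congr rfl fun l _ => ?_)) h1
  have hny : nrm f (exv M y) = nrm (av v) y := hf.nrm_ext y
  have hnz : nrm f (exv M z) = nrm (av v) z := hf.nrm_ext z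
  have hs : siz f (exv M y) (exv M z) = siz (av v) y z := by
    unfold siz
    rw [hny, hnz]
  congr 1
  rcases hc : c l with _ | u | ⟨α, β⟩
  · show Real.log (siz (av v) y z) - Real.log (nrm (av v) y) =
      Real.log (siz f (exv M y) (exv M z)) - Real.log (nrm f (exv M y))
    rw [hs, hny]
  · show t * (Real.log (nrm (av w) (exv K y)) - Real.log (av w (dot u (exv K y)))) =
      Real.log (nrm f (exv M y)) - Real.log (f (dot (exv M u) (exv M y)))
    have hne : dot u (exv K y) ≠ 0 := by
      have h2 := hoff l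
      rw [hc] at h2
      exact h2
    have e1 : nrm f (exv M y) = nrm (av w) (exv K y) ^ t := by
      have h3 : nrm f (exv M y) = nrm (f.comp (algebraMap K M).injective) (exv K y) := rfl
      rw [h3]
      exact nrm_rpow (av w) ht (g := f.comp (algebraMap K M).injective) hfw ha _
    rw [e1, hdotM, hfw, Real.log_rpow (nrm_pos _ (exv_ne hy)),
      Real.log_rpow ((av w).pos_iff.2 hne)]
    ring
  · show Real.log (siz (av v) y z) - Real.log (av v (dot α y + dot β z)) =
      Real.log (siz f (exv M y) (exv M z)) -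
        Real.log (f (dot (exv M α) (exv M y) + dot (exv M β) (exv M z)))
    rw [hs, hdotk, hdotk, ← map_add, hf.ext]

end Pool.Agent.R405.BU
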