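import Mathlib

/-!
# Rows of integer matrices: vectors of a congruence lattice in a box
-/

set_option autoImplicit false

namespace Pool.Agent.R405.CF

open Finset

theorem det_dvd {P Q n : ℤ} (h : IsCoprime P Q) {r t : ℤ × ℤ}
    (hr : n ∣ r.1 * P + r.2 * Q) (ht : n ∣ t.1 * P + t.2 * Q) :
    n ∣ r.1 * t.2 - r.2 * t.1 := by
  obtain ⟨u, w, huw⟩ := h
  have h1 : n ∣ (r.1 * t.2 - r.2 * t.1) * P := by
    have : (r.1 * t.2 - r.2 * t.1) * P =
        (r.1 * P + r.2 * Q) * t.2 - (t.1 * P + t.2 * Q) * r.2 := by ring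
    rw [this]
    exact dvd_sub (Dvd.dvd.mul_right hr _) (Dvd.dvd.mul_right ht _)
  have h2 : n ∣ (r.1 * t.2 - r.2 * t.1) * Q := by
    have : (r.1 * t.2 - r.2 * t.1) * Q =
        (t.1 * P + t.2 * Q) * r.1 - (r.1 * P + r.2 * Q) * t.1 := by ring
    rw [this]
    exact dvd_sub (Dvd.dvd.mul_right ht _) (Dvd.dvd.mul_right hr _)
  have : r.1 * t.2 - r.2 * t.1 =
      u * ((r.1 * t.2 - r.2 * t.1) * P) + w * ((r.1 * t.2 - r.2 * t.1) * Q) := by
    linear_combination (-(r.1 * t.2 - r.2 * t.1)) * huw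
  rw [this]
  exact dvd_add (Dvd.dvd.mul_left h1 _) (Dvd.dvd.mul_left h2 _)

theorem rows_aux {P Q : ℤ} (h : IsCoprime P Q) (n H : ℕ) (hn : 1 ≤ n) (hH : 1 ≤ H)
    (x y : ℤ) (hx : x ≠ 0) (hyx : |y| ≤ |x|) (hxH : |x| ≤ H) (hr0 : (n : ℤ) ∣ x * P + y * Q)
    (hmin : ∀ t : ℤ × ℤ, (n : ℤ) ∣ t.1 * P + t.2 * Q → t ≠ 0 → |x| ≤ max |t.1| |t.2|)
    (hnx : (n : ℤ) ≤ 2 * H * |x|) (T : Finset (ℤ × ℤ))
    (hT : ∀ t ∈ T, (n : ℤ) ∣ t.1 * P + t.2 * Q ∧ |t.1| ≤ H ∧ |t.2| ≤ H) :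
    (T.card : ℝ) ≤ 24 * (H : ℝ) ^ 2 / n := by
  classical
  have hn0 : (0 : ℤ) < n := by exact_mod_cast hn
  have hx0 : 0 < |x| := abs_pos.2 hx
  set φ : ℤ × ℤ → ℤ × ℤ := fun t => ((x * t.2 - y * t.1) / n, t.1 / |x|) with hφ
  set k0 : ℤ := 2 * H * |x| / n with hk0
  set s0 : ℤ := H / |x| with hs0
  have hdvd : ∀ t ∈ T, (n : ℤ) ∣ x * t.2 - y * t.1 := fun t ht =>
    det_dvd h (r := (x, y)) (t := t) hr0 (hT t ht).1
  have hinj : Set.InjOn φ (T : Set (ℤ × ℤ)) := by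
    intro t ht t' ht' hφt
    have e1 : (x * t.2 - y * t.1) / n = (x * t'.2 - y * t'.1) / n := congrArg Prod.fst hφt
    have e2 : t.1 / |x| = t'.1 / |x| := congrArg Prod.snd hφt
    have e3 : x * t.2 - y * t.1 = x * t'.2 - y * t'.1 := by
      obtain ⟨k, hk⟩ := hdvd t ht
      obtain ⟨k', hk'⟩ := hdvd t' ht'
      rw [hk, hk'] at e1 ⊢
      rw [Int.mul_ediv_cancel_left _ hn0.ne', Int.mul_ediv_cancel_left _ hn0.ne'] at e1
      rw [e1]
    have e4 : |t.1 - t'.1| < |x| := by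
      have a1 := Int.emod_add_mul_ediv t.1 |x|
      have a2 := Int.emod_add_mul_ediv t'.1 |x|
      have a3 := Int.emod_nonneg t.1 hx0.ne'
      have a4 := Int.emod_lt_of_pos t.1 hx0
      have a5 := Int.emod_nonneg t'.1 hx0.ne'
      have a6 := Int.emod_lt_of_pos t'.1 hx0
      rw [e2] at a1
      rw [abs_lt]
      constructor <;> linarith
    have e5 : |x| * |t.2 - t'.2| = |y| * |t.1 - t'.1| := by
      rw [← abs_mul, ← abs_mul]
      congr 1
      linarith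
    have e6 : |t.2 - t'.2| ≤ |t.1 - t'.1| := by
      have : |x| * |t.2 - t'.2| ≤ |x| * |t.1 - t'.1| := by
        rw [e5]
        exact mul_le_mul_of_nonneg_right hyx (abs_nonneg _)
      exact le_of_mul_le_mul_left this hx0
    by_contra hne
    have hu : (t - t' : ℤ × ℤ) ≠ 0 := sub_ne_zero.2 hne
    have h7 := hmin (t - t') (by
      have h8 := dvd_sub (hT t ht).1 (hT t' ht').1
      have h9 : (t - t').1 * P + (t - t').2 * Q =
          t.1 * P + t.2 * Q - (t'.1 * P + t'.2 * Q) := by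
        rw [Prod.fst_sub, Prod.snd_sub]
        ring
      rw [h9]
      exact h8) hu
    simp only [Prod.fst_sub, Prod.snd_sub] at h7
    rw [le_max_iff] at h7
    rcases h7 with h7 | h7 <;> linarith
  have himg : T.image φ ⊆ Icc (-k0) k0 ×ˢ Icc (-s0 - 1) s0 := by
    intro z hz
    obtain ⟨t, ht, rfl⟩ := mem_image.1 hz
    obtain ⟨-, h1, h2⟩ := hT t ht
    rw [mem_product, mem_Icc, mem_Icc]
    obtain ⟨k, hk⟩ := hdvd t ht
    have hkk : (x * t.2 - y * t.1) / n = k := by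
      rw [hk, Int.mul_ediv_cancel_left _ hn0.ne']
    have hb : |x * t.2 - y * t.1| ≤ 2 * H * |x| := by
      calc |x * t.2 - y * t.1| ≤ |x * t.2| + |y * t.1| := abs_sub _ _
        _ = |x| * |t.2| + |y| * |t.1| := by rw [abs_mul, abs_mul]
        _ ≤ |x| * H + |x| * H := by
          refine add_le_add (mul_le_mul_of_nonneg_left h2 hx0.le) ?_
          exact mul_le_mul hyx h1 (abs_nonneg _) hx0.le
        _ = 2 * H * |x| := by ring
    have hk3 : |k| ≤ k0 := by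
      rw [hk0, Int.le_ediv_iff_mul_le hn0]
      rw [hk, abs_mul, abs_of_pos hn0] at hb
      linarith
    refine ⟨by rw [← abs_le]; show |(x * t.2 - y * t.1) / n| ≤ k0; rw [hkk]; exact hk3, ?_, ?_⟩
    · show -s0 - 1 ≤ t.1 / |x|
      rw [Int.le_ediv_iff_mul_le hx0]
      have h3 : (H : ℤ) < (s0 + 1) * |x| := by
        have := Int.lt_ediv_add_one_mul_self (H : ℤ) hx0
        simpa [hs0] using this
      have h4 := (abs_le.1 h1).1
      nlinarith
    · show t.1 / |x| ≤ s0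
      exact Int.ediv_le_ediv hx0 (abs_le.1 h1).2
  have hs00 : 0 ≤ s0 := Int.ediv_nonneg (by positivity) hx0.le
  have hk00 : 0 ≤ k0 := Int.ediv_nonneg (by positivity) hn0.le
  have hcard : T.card ≤ (2 * k0 + 1).toNat * (2 * s0 + 2).toNat := by
    rw [← card_image_of_injOn hinj]
    refine (card_le_card himg).trans ?_
    rw [card_product, Int.card_Icc, Int.card_Icc]
    apply le_of_eq
    congr 2 <;> ring
  have hcard' : (T.card : ℝ) ≤ (2 * k0 + 1) * (2 * s0 + 2) := by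
    have h1 : (T.card : ℝ) ≤ (((2 * k0 + 1).toNat * (2 * s0 + 2).toNat : ℕ) : ℝ) := by
      exact_mod_cast hcard
    rw [Nat.cast_mul] at h1
    have h2 : (((2 * k0 + 1).toNat : ℕ) : ℝ) = 2 * k0 + 1 := by
      have : (((2 * k0 + 1).toNat : ℕ) : ℤ) = 2 * k0 + 1 := Int.toNat_of_nonneg (by linarith)
      exact_mod_cast this
    have h3 : (((2 * s0 + 2).toNat : ℕ) : ℝ) = 2 * s0 + 2 := by
      have : (((2 * s0 + 2).toNat : ℕ) : ℤ) = 2 * s0 + 2 := Int.toNat_of_nonneg (by linarith)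
      exact_mod_cast this
    rw [h2, h3] at h1
    exact h1
  have hnR : (0 : ℝ) < n := by exact_mod_cast hn
  have hxR : (0 : ℝ) < |(x : ℝ)| := by
    rw [← Int.cast_abs]
    exact_mod_cast hx0
  have hk1 : (k0 : ℝ) ≤ 2 * H * |(x : ℝ)| / n := by
    rw [le_div_iff₀ hnR]
    have := Int.ediv_mul_le (2 * (H : ℤ) * |x|) hn0.ne'
    rw [← hk0] at this
    rw [← Int.cast_abs]
    exact_mod_cast this
  have hs1 : (s0 : ℝ) ≤ H / |(x : ℝ)| := by
    rw [le_div_iff₀ hxR]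
    have := Int.ediv_mul_le (H : ℤ) hx0.ne'
    rw [← hs0] at this
    rw [← Int.cast_abs]
    exact_mod_cast this
  have h1 : (1 : ℝ) ≤ 2 * H * |(x : ℝ)| / n := by
    rw [le_div_iff₀ hnR, one_mul, ← Int.cast_abs]
    exact_mod_cast hnx
  have h2 : (1 : ℝ) ≤ H / |(x : ℝ)| := by
    rw [le_div_iff₀ hxR, one_mul, ← Int.cast_abs]
    exact_mod_cast hxH
  have hk0R : (0 : ℝ) ≤ k0 := by exact_mod_cast hk00
  have hs0R : (0 : ℝ) ≤ s0 := by exact_mod_cast hs00
  calc (T.card : ℝ) ≤ (2 * k0 + 1) * (2 * s0 + 2) := hcard'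
    _ ≤ (3 * (2 * H * |(x : ℝ)| / n)) * (4 * (H / |(x : ℝ)|)) := by
      refine mul_le_mul (by linarith) (by linarith) (by linarith) (by positivity)
    _ = 24 * (H : ℝ) ^ 2 / n := by
      field_simp
      ring

/-- The vectors of the box which lie in the lattice. -/
noncomputable def vecs (P Q : ℤ) (n H : ℕ) : Finset (ℤ × ℤ) :=
  (Icc (-(H : ℤ)) H ×ˢ Icc (-(H : ℤ)) H).filter (fun t => (n : ℤ) ∣ t.1 * P + t.2 * Q)

theorem mem_vecs {P Q : ℤ} {n H : ℕ} {t : ℤ × ℤ} :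
    t ∈ vecs P Q n H ↔ (|t.1| ≤ H ∧ |t.2| ≤ H) ∧ (n : ℤ) ∣ t.1 * P + t.2 * Q := by
  unfold vecs
  rw [mem_filter, mem_product, mem_Icc, mem_Icc, abs_le, abs_le]

theorem vecs_card {P Q : ℤ} (h : IsCoprime P Q) (n H : ℕ) (hn : 1 ≤ n) (hH : 1 ≤ H)
    (r s : ℤ × ℤ) (hr : r ∈ vecs P Q n H) (hs : s ∈ vecs P Q n H)
    (hrs : r.1 * s.2 - r.2 * s.1 ≠ 0) :
    ((vecs P Q n H).card : ℝ) ≤ 24 * (H : ℝ) ^ 2 / n := by
  classical
  set N : Finset (ℤ × ℤ) := (vecs P Q n H).filter (fun t => t ≠ 0) with hN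
  have hrN : r ∈ N := by
    rw [hN, mem_filter]
    refine ⟨hr, ?_⟩
    rintro rfl
    simp at hrs
  obtain ⟨r0, hr0, hmin0⟩ := N.exists_min_image (fun t => max |t.1| |t.2|) ⟨r, hrN⟩
  rw [hN, mem_filter, mem_vecs] at hr0
  obtain ⟨⟨⟨hx1, hx2⟩, hx3⟩, hx4⟩ := hr0
  have hmin : ∀ t : ℤ × ℤ, (n : ℤ) ∣ t.1 * P + t.2 * Q → t ≠ 0 →
      max |r0.1| |r0.2| ≤ max |t.1| |t.2| := by
    intro t h1 h2
    by_cases h3 : |t.1| ≤ H ∧ |t.2| ≤ H
    · exact hmin0 t (by rw [hN, mem_filter, mem_vecs]; exact ⟨⟨h3, h1⟩, h2⟩)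
    · have h4 : max |r0.1| |r0.2| ≤ H := max_le hx1 hx2
      refine h4.trans ?_
      rw [le_max_iff]
      by_contra h5
      push Not at h5
      exact h3 ⟨h5.1.le, h5.2.le⟩
  have hdet : ∃ t ∈ vecs P Q n H, r0.1 * t.2 - r0.2 * t.1 ≠ 0 := by
    by_contra hcon
    push Not at hcon
    have h1 := hcon r hr
    have h2 := hcon s hs
    apply hrs
    have h3 : r0.1 * (r.1 * s.2 - r.2 * s.1) = 0 := by
      linear_combination r.1 * h2 - s.1 * h1
    have h4 : r0.2 * (r.1 * s.2 - r.2 * s.1) = 0 := by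
      linear_combination r.2 * h2 - s.2 * h1
    rcases mul_eq_zero.1 h3 with h5 | h5
    · rcases mul_eq_zero.1 h4 with h6 | h6
      · exact absurd (Prod.ext h5 h6) hx4
      · exact h6
    · exact h5
  obtain ⟨t, ht, htd⟩ := hdet
  rw [mem_vecs] at ht
  have hnle : (n : ℤ) ≤ 2 * H * max |r0.1| |r0.2| := by
    have h1 : (n : ℤ) ∣ r0.1 * t.2 - r0.2 * t.1 := det_dvd h hx3 ht.2
    have h2 : (n : ℤ) ≤ |r0.1 * t.2 - r0.2 * t.1| :=
      Int.le_of_dvd (abs_pos.2 htd) ((dvd_abs _ _).2 h1)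
    have h3 : |r0.1 * t.2 - r0.2 * t.1| ≤ |r0.1| * |t.2| + |r0.2| * |t.1| := by
      rw [← abs_mul, ← abs_mul]
      exact abs_sub _ _
    have h4 : |r0.1| * |t.2| ≤ max |r0.1| |r0.2| * H :=
      mul_le_mul (le_max_left _ _) ht.1.2 (abs_nonneg _) (le_trans (abs_nonneg _) (le_max_left _ _))
    have h5 : |r0.2| * |t.1| ≤ max |r0.1| |r0.2| * H :=
      mul_le_mul (le_max_right _ _) ht.1.1 (abs_nonneg _)
        (le_trans (abs_nonneg _) (le_max_left _ _))
    linarith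
  rcases le_total |r0.2| |r0.1| with hle | hle
  · rw [max_eq_left hle] at hnle hmin
    have hx0 : r0.1 ≠ 0 := by
      intro h0
      rw [h0, abs_zero] at hle
      exact hx4 (Prod.ext h0 (abs_eq_zero.1 (le_antisymm hle (abs_nonneg _))))
    exact rows_aux h n H hn hH r0.1 r0.2 hx0 hle hx1 hx3 hmin hnle _ (fun t ht => by
      rw [mem_vecs] at ht
      exact ⟨ht.2, ht.1.1, ht.1.2⟩)
  · rw [max_eq_right hle] at hnle hmin
    have hx0 : r0.2 ≠ 0 := by
      intro h0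
      rw [h0, abs_zero] at hle
      exact hx4 (Prod.ext (abs_eq_zero.1 (le_antisymm hle (abs_nonneg _))) h0)
    have hcard : ((vecs P Q n H).image Prod.swap).card = (vecs P Q n H).card :=
      card_image_of_injective _ Prod.swap_injective
    rw [← hcard]
    refine rows_aux h.symm n H hn hH r0.2 r0.1 hx0 hle hx2 (by rw [add_comm]; exact hx3) ?_
      hnle _ ?_
    · intro t h1 h2
      have := hmin t.swap (by rw [Prod.fst_swap, Prod.snd_swap, add_comm]; exact h1)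
        (by
          intro h3
          apply h2
          have := congrArg Prod.swap h3
          simpa using this)
      rw [Prod.fst_swap, Prod.snd_swap, max_comm] at this
      exact this
    · intro t ht
      obtain ⟨u, hu, rfl⟩ := mem_image.1 ht
      rw [mem_vecs] at hu
      refine ⟨?_, hu.1.2, hu.1.1⟩
      rw [Prod.fst_swap, Prod.snd_swap, add_comm]
      exact hu.2

/-- The matrices with rows in the lattice and nonzero determinant. -/
noncomputable def mats (P Q : ℤ) (n H : ℕ) : Finset ((ℤ × ℤ) × (ℤ × ℤ)) :=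
  (vecs P Q n H ×ˢ vecs P Q n H).filter (fun g => g.1.1 * g.2.2 - g.1.2 * g.2.1 ≠ 0)

theorem mats_card {P Q : ℤ} (h : IsCoprime P Q) (n H : ℕ) (hn : 1 ≤ n) (hH : 1 ≤ H) :
    ((mats P Q n H).card : ℝ) ≤ 576 * (H : ℝ) ^ 4 / (n : ℝ) ^ 2 := by
  rcases (mats P Q n H).eq_empty_or_nonempty with h0 | ⟨g, hg⟩
  · rw [h0, card_empty, Nat.cast_zero]
    positivity
  · have h1 : (mats P Q n H).card ≤ (vecs P Q n H).card * (vecs P Q n H).card := by
      rw [← card_product]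
      exact card_le_card (filter_subset _ _)
    unfold mats at hg
    rw [mem_filter, mem_product] at hg
    have h2 := vecs_card h n H hn hH g.1 g.2 hg.1.1 hg.1.2 hg.2
    calc ((mats P Q n H).card : ℝ) ≤ (((vecs P Q n H).card * (vecs P Q n H).card : ℕ) : ℝ) := by
          exact_mod_cast h1
      _ = ((vecs P Q n H).card : ℝ) * ((vecs P Q n H).card : ℝ) := by rw [Nat.cast_mul]
      _ ≤ (24 * (H : ℝ) ^ 2 / n) * (24 * (H : ℝ) ^ 2 / n) :=
          mul_le_mul h2 h2 (Nat.cast_nonneg _) (by positivity)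
      _ = 576 * (H : ℝ) ^ 4 / (n : ℝ) ^ 2 := by
          rw [div_mul_div_comm]
          ring

end Pool.Agent.R405.CF
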