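import Mathlib

/-!
# Integer points with a small value of a linear form
-/

set_option autoImplicit false

namespace Pool.Agent.R405.CF

open Finset

/-- The points `(P, Q)`, `1 ≤ Q ≤ R`, with `|Q ξ - P| ≤ δ`. -/
noncomputable def pts (ξ R δ : ℝ) : Finset (ℤ × ℕ) :=
  (Icc 1 ⌊R⌋₊).biUnion (fun Q => (Icc ⌈(Q : ℝ) * ξ - δ⌉ ⌊(Q : ℝ) * ξ + δ⌋).image (fun P => (P, Q)))

theorem mem_pts {ξ R δ : ℝ} (hR : 0 ≤ R) {v : ℤ × ℕ} :
    v ∈ pts ξ R δ ↔ 1 ≤ v.2 ∧ (v.2 : ℝ) ≤ R ∧ |(v.2 : ℝ) * ξ - v.1| ≤ δ := by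
  unfold pts
  rw [mem_biUnion]
  constructor
  · rintro ⟨Q, hQ, hv⟩
    obtain ⟨P, hP, rfl⟩ := mem_image.1 hv
    rw [mem_Icc] at hQ hP
    refine ⟨hQ.1, (Nat.le_floor_iff hR).1 hQ.2, ?_⟩
    have h1 := Int.ceil_le.1 hP.1
    have h2 := Int.le_floor.1 hP.2
    rw [abs_le]
    constructor <;> dsimp only <;> linarith
  · rintro ⟨h1, h2, h3⟩
    refine ⟨v.2, mem_Icc.2 ⟨h1, Nat.le_floor h2⟩, mem_image.2 ⟨v.1, mem_Icc.2 ⟨?_, ?_⟩, rfl⟩⟩
    · rw [Int.ceil_le]
      rw [abs_le] at h3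
      linarith
    · rw [Int.le_floor]
      rw [abs_le] at h3
      linarith

/-- Points on parallel lines: two different counts. -/
theorem pts_lines (ξ R δ : ℝ) (hR : 0 ≤ R) (x : ℕ) (P0 : ℤ) (hx : 1 ≤ x)
    (hu : |(x : ℝ) * ξ - P0| ≤ δ) (hy : 0 < |(x : ℝ) * ξ - P0|)
    (hmin : ∀ (Q : ℕ) (P : ℤ), 1 ≤ Q → |(Q : ℝ) * ξ - P| ≤ δ → x ≤ Q) (hxR : (x : ℝ) ≤ R) :
    ((pts ξ R δ).card : ℝ) ≤ (2 * (x * δ + R * |(x : ℝ) * ξ - P0|) + 1) *
      (1 + min (R / x) (3 * δ / |(x : ℝ) * ξ - P0|)) := by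
  classical
  set y : ℝ := |(x : ℝ) * ξ - P0| with hydef
  set K : ℤ := ⌊(x : ℝ) * δ + R * y⌋ with hK
  have hx0 : (0 : ℝ) < x := by exact_mod_cast hx
  have hδ : 0 < δ := lt_of_lt_of_le hy hu
  have hKnn : (0 : ℝ) ≤ (x : ℝ) * δ + R * y := by positivity
  -- the key: points with the same determinant and with a difference shorter than `u` are equal
  have hkey : ∀ v ∈ pts ξ R δ, ∀ v' ∈ pts ξ R δ,
      P0 * v.2 - x * v.1 = P0 * v'.2 - x * v'.1 → |((v.2 : ℤ) : ℝ) - (v'.2 : ℤ)| < x → v = v' := by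
    have hwlog : ∀ v ∈ pts ξ R δ, ∀ v' ∈ pts ξ R δ, v'.2 ≤ v.2 →
        P0 * v.2 - x * v.1 = P0 * v'.2 - x * v'.1 → ((v.2 : ℤ) : ℝ) - (v'.2 : ℤ) < x → v = v' := by
      intro v hv v' hv' hle hdet hlt
      obtain ⟨m, hm⟩ : ∃ m : ℕ, v.2 = v'.2 + m := ⟨v.2 - v'.2, by omega⟩
      have hmx : m < x := by
        have : (m : ℝ) < x := by
          rw [hm] at hlt
          push_cast at hlt
          linarith
        exact_mod_cast this
      have hpar : P0 * (m : ℤ) = x * (v.1 - v'.1) := by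
        rw [hm] at hdet
        push_cast at hdet
        linarith
      rcases Nat.eq_zero_or_pos m with h0 | hpos
      · rw [h0] at hpar hm
        simp only [Nat.cast_zero, mul_zero] at hpar
        have h1 : (x : ℤ) ≠ 0 := by exact_mod_cast (by omega : x ≠ 0)
        have h2 : v.1 - v'.1 = 0 := by
          rcases mul_eq_zero.1 hpar.symm with h | h
          · exact absurd h h1
          · exact h
        exact Prod.ext (by linarith) (by omega)
      · exfalso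
        have h1 := hmin m (v.1 - v'.1) hpos (by
          have h2 : (x : ℝ) * ((m : ℝ) * ξ - ((v.1 - v'.1 : ℤ) : ℝ)) =
              m * ((x : ℝ) * ξ - P0) := by
            have : ((P0 * (m : ℤ) : ℤ) : ℝ) = ((x * (v.1 - v'.1) : ℤ) : ℝ) := by rw [hpar]
            push_cast at this ⊢
            linarith
          have h3 : (x : ℝ) * |(m : ℝ) * ξ - ((v.1 - v'.1 : ℤ) : ℝ)| = m * y := by
            have := congrArg abs h2
            rw [abs_mul, abs_mul, abs_of_pos hx0, Nat.abs_cast] at this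
            exact this
          have h4 : (m : ℝ) * y ≤ x * δ := by
            have h5 : (m : ℝ) ≤ x := by exact_mod_cast hmx.le
            exact mul_le_mul h5 hu hy.le hx0.le
          rw [← h3] at h4
          exact le_of_mul_le_mul_left h4 hx0)
        omega
    intro v hv v' hv' hdet hlt
    rw [abs_lt] at hlt
    rcases le_total v'.2 v.2 with h | h
    · exact hwlog v hv v' hv' h hdet hlt.2
    · exact (hwlog v' hv' v hv h hdet.symm (by linarith [hlt.1])).symm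
  have hdetb : ∀ v ∈ pts ξ R δ, |P0 * (v.2 : ℤ) - x * v.1| ≤ K := by
    intro v hv
    rw [mem_pts hR] at hv
    rw [hK, Int.le_floor]
    push_cast
    have e : (P0 : ℝ) * v.2 - x * v.1 = x * ((v.2 : ℝ) * ξ - v.1) - v.2 * ((x : ℝ) * ξ - P0) := by
      ring
    rw [e]
    refine (abs_sub _ _).trans ?_
    rw [abs_mul, abs_mul, abs_of_pos hx0, Nat.abs_cast]
    exact add_le_add (mul_le_mul_of_nonneg_left hv.2.2 hx0.le)
      (mul_le_mul_of_nonneg_right hv.2.1 hy.le)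
  have hK0 : 0 ≤ K := by
    rw [hK]
    exact Int.floor_nonneg.2 hKnn
  have hKR : (K : ℝ) ≤ x * δ + R * y := Int.floor_le _
  have hgen : ∀ (f : ℤ × ℕ → ℤ) (lo hi : ℤ), (∀ v ∈ pts ξ R δ, lo ≤ f v ∧ f v ≤ hi) →
      (∀ v ∈ pts ξ R δ, ∀ v' ∈ pts ξ R δ, P0 * v.2 - x * v.1 = P0 * v'.2 - x * v'.1 →
        f v = f v' → |((v.2 : ℤ) : ℝ) - (v'.2 : ℤ)| < x) → lo ≤ hi + 1 →
      ((pts ξ R δ).card : ℝ) ≤ (2 * K + 1) * ((hi : ℝ) + 1 - lo) := by
    intro f lo hi hf1 hf2 hlohi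
    have hinj : Set.InjOn (fun v : ℤ × ℕ => (P0 * (v.2 : ℤ) - x * v.1, f v))
        (pts ξ R δ : Set (ℤ × ℕ)) := by
      intro v hv v' hv' h
      have e1 := congrArg Prod.fst h
      have e2 := congrArg Prod.snd h
      exact hkey v hv v' hv' e1 (hf2 v hv v' hv' e1 e2)
    have himg : (pts ξ R δ).image (fun v : ℤ × ℕ => (P0 * (v.2 : ℤ) - x * v.1, f v)) ⊆
        Icc (-K) K ×ˢ Icc lo hi := by
      intro z hz
      obtain ⟨v, hv, rfl⟩ := mem_image.1 hz
      rw [mem_product, mem_Icc, mem_Icc]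
      exact ⟨abs_le.1 (hdetb v hv), hf1 v hv⟩
    have hcard : (pts ξ R δ).card ≤ (K + 1 - -K).toNat * (hi + 1 - lo).toNat := by
      rw [← card_image_of_injOn hinj]
      refine (card_le_card himg).trans ?_
      rw [card_product, Int.card_Icc, Int.card_Icc]
    have h1 : ((pts ξ R δ).card : ℝ) ≤
        (((K + 1 - -K).toNat * (hi + 1 - lo).toNat : ℕ) : ℝ) := by exact_mod_cast hcard
    rw [Nat.cast_mul] at h1
    have h2 : (((K + 1 - -K).toNat : ℕ) : ℝ) = 2 * K + 1 := by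
      have : (((K + 1 - -K).toNat : ℕ) : ℤ) = K + 1 - -K := Int.toNat_of_nonneg (by linarith)
      have h3 : (((K + 1 - -K).toNat : ℕ) : ℝ) = ((K + 1 - -K : ℤ) : ℝ) := by exact_mod_cast this
      rw [h3]
      push_cast
      ring
    have h3 : (((hi + 1 - lo).toNat : ℕ) : ℝ) = (hi : ℝ) + 1 - lo := by
      have : (((hi + 1 - lo).toNat : ℕ) : ℤ) = hi + 1 - lo := Int.toNat_of_nonneg (by linarith)
      have h4 : (((hi + 1 - lo).toNat : ℕ) : ℝ) = ((hi + 1 - lo : ℤ) : ℝ) := by exact_mod_cast this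
      rw [h4]
      push_cast
      ring
    rw [h2, h3] at h1
    exact h1
  have hfirst : (0 : ℝ) ≤ 2 * (x * δ + R * y) + 1 := by positivity
  have hK1 : (2 * (K : ℝ) + 1) ≤ 2 * (x * δ + R * y) + 1 := by linarith
  -- the count by the denominators
  have hA : ((pts ξ R δ).card : ℝ) ≤ (2 * (x * δ + R * y) + 1) * (1 + R / x) := by
    have h := hgen (fun v => (v.2 : ℤ) / x) 0 ⌊R / x⌋ (by
      intro v hv
      rw [mem_pts hR] at hv
      refine ⟨Int.ediv_nonneg (by positivity) (by positivity), ?_⟩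
      rw [Int.le_floor, le_div_iff₀ hx0]
      have h1 := Int.ediv_mul_le (v.2 : ℤ) (by exact_mod_cast (by omega : x ≠ 0) : (x : ℤ) ≠ 0)
      have h2 : (((v.2 : ℤ) / x : ℤ) : ℝ) * x ≤ v.2 := by exact_mod_cast h1
      exact h2.trans hv.2.1) (by
      intro v hv v' hv' _ hf
      have hf' : (v.2 : ℤ) / x = (v'.2 : ℤ) / x := hf
      have hx1 : (0 : ℤ) < x := by exact_mod_cast hx
      have a1 := Int.emod_add_mul_ediv (v.2 : ℤ) x
      have a2 := Int.emod_add_mul_ediv (v'.2 : ℤ) x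
      have a3 := Int.emod_nonneg (v.2 : ℤ) hx1.ne'
      have a4 := Int.emod_lt_of_pos (v.2 : ℤ) hx1
      have a5 := Int.emod_nonneg (v'.2 : ℤ) hx1.ne'
      have a6 := Int.emod_lt_of_pos (v'.2 : ℤ) hx1
      rw [hf'] at a1
      have h7 : |(v.2 : ℤ) - (v'.2 : ℤ)| < x := by
        rw [abs_lt]
        constructor <;> linarith
      exact_mod_cast h7) (by
      have : (0 : ℤ) ≤ ⌊R / x⌋ := Int.floor_nonneg.2 (by positivity)
      linarith)
    refine h.trans ?_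
    refine mul_le_mul hK1 ?_ ?_ hfirst
    · have := Int.floor_le (R / (x : ℝ))
      push_cast
      linarith
    · have : (0 : ℝ) ≤ (⌊R / (x : ℝ)⌋ : ℝ) := by
        exact_mod_cast Int.floor_nonneg.2 (by positivity : (0 : ℝ) ≤ R / x)
      push_cast
      linarith
  -- the count by the values
  have hB : ((pts ξ R δ).card : ℝ) ≤ (2 * (x * δ + R * y) + 1) * (1 + 3 * δ / y) := by
    have h1y : 1 ≤ δ / y := by
      rw [le_div_iff₀ hy, one_mul]
      exact hu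
    have h := hgen (fun v => ⌊((v.2 : ℝ) * ξ - v.1) / y⌋) ⌊-(δ / y)⌋ ⌊δ / y⌋ (by
      intro v hv
      rw [mem_pts hR, abs_le] at hv
      constructor
      · refine Int.floor_le_floor ?_
        rw [neg_le, ← neg_div, div_le_div_iff_of_pos_right hy]
        linarith [hv.2.2.1]
      · refine Int.floor_le_floor ?_
        rw [div_le_div_iff_of_pos_right hy]
        exact hv.2.2.2) (by
      intro v hv v' hv' hdet hf
      have hf' : ⌊((v.2 : ℝ) * ξ - v.1) / y⌋ = ⌊((v'.2 : ℝ) * ξ - v'.1) / y⌋ := hf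
      have h2 := Int.abs_sub_lt_one_of_floor_eq_floor hf'
      rw [div_sub_div_same, abs_div, abs_of_pos hy, div_lt_one hy] at h2
      have h3 : (x : ℝ) * (((v.2 : ℝ) * ξ - v.1) - ((v'.2 : ℝ) * ξ - v'.1)) =
          ((v.2 : ℝ) - v'.2) * ((x : ℝ) * ξ - P0) := by
        have : ((P0 * (v.2 : ℤ) - x * v.1 : ℤ) : ℝ) = ((P0 * (v'.2 : ℤ) - x * v'.1 : ℤ) : ℝ) := by
          rw [hdet]
        push_cast at this
        linarith
      have h4 := congrArg abs h3
      rw [abs_mul, abs_mul, abs_of_pos hx0] at h4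
      have h5 : |(v.2 : ℝ) - v'.2| * y < x * y := by
        rw [hydef, ← h4]
        exact mul_lt_mul_of_pos_left h2 hx0
      have h6 := lt_of_mul_lt_mul_right h5 hy.le
      push_cast
      exact h6) (by
      have h2 : ⌊-(δ / y)⌋ ≤ ⌊δ / y⌋ := Int.floor_le_floor (by linarith)
      linarith)
    refine h.trans ?_
    have h5 := Int.floor_le (δ / y)
    have h6 := Int.lt_floor_add_one (-(δ / y))
    have h7 : (⌊-(δ / y)⌋ : ℝ) ≤ (⌊δ / y⌋ : ℝ) := by
      exact_mod_cast Int.floor_le_floor (by linarith : -(δ / y) ≤ δ / y)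
    refine mul_le_mul hK1 ?_ (by linarith) hfirst
    have : 3 * δ / y = 3 * (δ / y) := by ring
    rw [this]
    linarith
  rcases min_choice (R / (x : ℝ)) (3 * δ / y) with h | h
  · rw [h]
    exact hA
  · rw [h]
    exact hB

/-- The number of the points if `ξ` is badly approximable up to a power. -/
theorem pts_card (ξ c τ R δ : ℝ) (hc : 0 < c) (hτ : 0 < τ) (hR : 0 ≤ R) (hδ : 0 ≤ δ)
    (hroth : ∀ q : ℕ, 1 ≤ q → ∀ p : ℤ, c ≤ (q : ℝ) ^ (1 + τ) * |(q : ℝ) * ξ - p|) :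
    ((pts ξ R δ).card : ℝ) ≤ 12 * (R * δ) + 3 * √(R * δ * R ^ τ / c) := by
  classical
  rcases (pts ξ R δ).eq_empty_or_nonempty with h0 | ⟨v, hv⟩
  · rw [h0, card_empty, Nat.cast_zero]
    positivity
  rw [mem_pts hR] at hv
  have hex : ∃ Q : ℕ, 1 ≤ Q ∧ ∃ P : ℤ, |(Q : ℝ) * ξ - P| ≤ δ := ⟨v.2, hv.1, v.1, hv.2.2⟩
  set x : ℕ := Nat.find hex with hxdef
  obtain ⟨hx1, P0, hP0⟩ := Nat.find_spec hex
  rw [← hxdef] at hx1 hP0
  have hmin : ∀ (Q : ℕ) (P : ℤ), 1 ≤ Q → |(Q : ℝ) * ξ - P| ≤ δ → x ≤ Q := by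
    intro Q P h1 h2
    exact Nat.find_min' hex ⟨h1, P, h2⟩
  have hxR : (x : ℝ) ≤ R := by
    have h1 := hmin v.2 v.1 hv.1 hv.2.2
    have h2 : (x : ℝ) ≤ v.2 := by exact_mod_cast h1
    exact h2.trans hv.2.1
  have hx0 : (0 : ℝ) < x := by exact_mod_cast hx1
  have hR0 : 0 < R := lt_of_lt_of_le hx0 hxR
  have hro := hroth x hx1 P0
  have hxp : (0 : ℝ) < (x : ℝ) ^ (1 + τ) := Real.rpow_pos_of_pos hx0 _
  have hy : 0 < |(x : ℝ) * ξ - P0| := by
    by_contra hcon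
    have : |(x : ℝ) * ξ - P0| = 0 := le_antisymm (not_lt.1 hcon) (abs_nonneg _)
    rw [this, mul_zero] at hro
    linarith
  set y : ℝ := |(x : ℝ) * ξ - P0| with hydef
  have hδ0 : 0 < δ := lt_of_lt_of_le hy hP0
  have hmain := pts_lines ξ R δ hR x P0 hx1 hP0 hy hmin hxR
  rw [← hydef] at hmain
  set m0 : ℝ := min (R / x) (3 * δ / y) with hm0
  have hm0nn : 0 ≤ m0 := le_min (by positivity) (by positivity)
  have hm1 : m0 ≤ R / x := min_le_left _ _
  have hm2 : m0 ≤ 3 * δ / y := min_le_right _ _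
  have e1 : x * δ * m0 ≤ R * δ := by
    calc x * δ * m0 ≤ x * δ * (R / x) := mul_le_mul_of_nonneg_left hm1 (by positivity)
      _ = R * δ := by field_simp
  have e2 : R * y * m0 ≤ 3 * (R * δ) := by
    calc R * y * m0 ≤ R * y * (3 * δ / y) := mul_le_mul_of_nonneg_left hm2 (by positivity)
      _ = 3 * (R * δ) := by field_simp
  have e3 : x * δ ≤ R * δ := mul_le_mul_of_nonneg_right hxR hδ0.le
  have e4 : R * y ≤ R * δ := mul_le_mul_of_nonneg_left hP0 hR0.le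
  have hτx : (x : ℝ) ^ τ ≤ R ^ τ := Real.rpow_le_rpow hx0.le hxR hτ.le
  have hxτ0 : 0 < (x : ℝ) ^ τ := Real.rpow_pos_of_pos hx0 _
  have hsplit : (x : ℝ) ^ (1 + τ) = x * (x : ℝ) ^ τ := by
    rw [Real.rpow_add hx0, Real.rpow_one]
  rw [hsplit] at hro
  have hxy : c ≤ x * y * R ^ τ := by
    calc c ≤ x * (x : ℝ) ^ τ * y := hro
      _ = x * y * (x : ℝ) ^ τ := by ring
      _ ≤ x * y * R ^ τ := mul_le_mul_of_nonneg_left hτx (by positivity)
  have hone : 1 ≤ R * δ * R ^ τ / c := by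
    rw [le_div_iff₀ hc, one_mul]
    refine hxy.trans ?_
    refine mul_le_mul_of_nonneg_right ?_ (by positivity)
    exact mul_le_mul hxR hP0 hy.le hR0.le
  have hsq1 : 1 ≤ √(R * δ * R ^ τ / c) := by
    rw [Real.one_le_sqrt]
    exact hone
  have hm3 : m0 ≤ 2 * √(R * δ * R ^ τ / c) := by
    have h1 : m0 ^ 2 ≤ 4 * (R * δ * R ^ τ / c) := by
      have h2 : m0 ^ 2 ≤ (R / x) * (3 * δ / y) := by
        rw [sq]
        exact mul_le_mul hm1 hm2 hm0nn (by positivity)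
      have h3 : (R / x) * (3 * δ / y) ≤ 3 * (R * δ * R ^ τ / c) := by
        have : (R / x) * (3 * δ / y) = 3 * (R * δ) / (x * y) := by
          field_simp
        rw [this, div_le_iff₀ (by positivity)]
        have h4 : 3 * (R * δ * R ^ τ / c) * (x * y) = 3 * (R * δ) * ((x * y * R ^ τ) / c) := by
          field_simp
        rw [h4]
        have h5 : 1 ≤ (x * y * R ^ τ) / c := by
          rw [le_div_iff₀ hc, one_mul]
          exact hxy
        nlinarith [mul_pos hR0 hδ0]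
      have h6 : 0 ≤ R * δ * R ^ τ / c := by positivity
      linarith
    calc m0 = √(m0 ^ 2) := (Real.sqrt_sq hm0nn).symm
      _ ≤ √(4 * (R * δ * R ^ τ / c)) := Real.sqrt_le_sqrt h1
      _ = 2 * √(R * δ * R ^ τ / c) := by
        rw [show (4 : ℝ) = 2 ^ 2 by norm_num, Real.sqrt_mul (by norm_num), Real.sqrt_sq (by norm_num)]
  calc ((pts ξ R δ).card : ℝ) ≤ (2 * (x * δ + R * y) + 1) * (1 + m0) := hmain
    _ = 2 * (x * δ) + 2 * (R * y) + 2 * (x * δ * m0) + 2 * (R * y * m0) + 1 + m0 := by ring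
    _ ≤ 2 * (R * δ) + 2 * (R * δ) + 2 * (R * δ) + 2 * (3 * (R * δ)) + √(R * δ * R ^ τ / c) +
        2 * √(R * δ * R ^ τ / c) := by linarith
    _ = 12 * (R * δ) + 3 * √(R * δ * R ^ τ / c) := by ring

end Pool.Agent.R405.CF
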