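import Pool.Agent.R405.CF1
import Pool.Agent.R405.CF2

/-!
# A rational number close to a Moebius image
-/

set_option autoImplicit false

namespace Pool.Agent.R405.CF

open Finset

theorem struct0 (ξ : ℝ) (H : ℕ) (hH : 1 ≤ H) (h c0 L : ℝ) (hh : 0 < h)
    (hc0 : 0 < c0) (hL : 0 < L) (a b c d : ℤ) (ha : |a| ≤ H) (hb : |b| ≤ H) (hc : |c| ≤ H)
    (hd : |d| ≤ H) (hD : h * (H : ℝ) ^ 2 ≤ |((a * d - b * c : ℤ) : ℝ)|)
    (hm : h * H ≤ |(c : ℝ) * ξ + d|)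
    (p : ℤ) (q : ℕ) (hq : 1 ≤ q) (hpq : IsCoprime p (q : ℤ))
    (hclose : |((a : ℝ) * ξ + b) / ((c : ℝ) * ξ + d) - (p : ℝ) / q| ≤ c0 / ((q : ℝ) ^ 2 * L))
    (hsmall : c0 / L ≤ h / (2 * (|ξ| + 1))) :
    ∃ n : ℕ, 1 ≤ n ∧ n ≤ 2 * H ^ 2 ∧ ∃ P Q : ℤ, IsCoprime P Q ∧ Q ≠ 0 ∧
      |(Q : ℝ)| ≤ 3 / 2 * (q * n / (h * H)) ∧
      |(Q : ℝ) * ξ - P| ≤ (|ξ| + 1) * c0 * n / (h * H * q * L) ∧
      (n : ℤ) ∣ a * P + b * Q ∧ (n : ℤ) ∣ c * P + d * Q := by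
  have hHR : (1 : ℝ) ≤ H := by exact_mod_cast hH
  have hH0 : (0 : ℝ) < H := by linarith
  have hqR : (1 : ℝ) ≤ q := by exact_mod_cast hq
  have hq0 : (0 : ℝ) < q := by linarith
  set K : ℝ := |ξ| + 1 with hK
  have hK1 : 1 ≤ K := by rw [hK]; linarith [abs_nonneg ξ]
  have hK0 : 0 < K := by linarith
  set m : ℝ := (c : ℝ) * ξ + d with hmdef
  have hm0 : 0 < |m| := lt_of_lt_of_le (by positivity) hm
  have hmne : m ≠ 0 := abs_pos.1 hm0
  have hcR : |(c : ℝ)| ≤ H := by rw [← Int.cast_abs]; exact_mod_cast hc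
  have hdR : |(d : ℝ)| ≤ H := by rw [← Int.cast_abs]; exact_mod_cast hd
  have hmK : |m| ≤ K * H := by
    calc |m| ≤ |(c : ℝ) * ξ| + |(d : ℝ)| := abs_add_le _ _
      _ = |(c : ℝ)| * |ξ| + |(d : ℝ)| := by rw [abs_mul]
      _ ≤ H * |ξ| + H := add_le_add (mul_le_mul_of_nonneg_right hcR (abs_nonneg _)) hdR
      _ = K * H := by rw [hK]; ring
  set D : ℤ := a * d - b * c with hDdef
  have hD0R : 0 < |(D : ℝ)| := lt_of_lt_of_le (by positivity) hD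
  have hD0 : D ≠ 0 := by
    intro h0
    rw [h0] at hD0R
    simp at hD0R
  set e : ℝ := ((a : ℝ) * ξ + b) / m - (p : ℝ) / q with he
  set P0 : ℤ := d * p - b * q with hP0
  set Q0 : ℤ := a * q - c * p with hQ0
  have eq1 : (Q0 : ℝ) * ξ - P0 = q * m * e := by
    rw [he, hQ0, hP0]
    push_cast
    field_simp
    rw [hmdef]
    ring
  have eq2 : (Q0 : ℝ) = q * ((D : ℝ) / m + c * e) := by
    rw [he, hQ0, hDdef]
    push_cast
    field_simp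
    rw [hmdef]
    ring
  have hce : |(c : ℝ) * e| ≤ 1 / 2 * |(D : ℝ) / m| := by
    rw [abs_mul, abs_div]
    have h1 : |e| ≤ c0 / L := by
      refine hclose.trans ?_
      apply div_le_div_of_nonneg_left hc0.le hL
      have : (1 : ℝ) ≤ (q : ℝ) ^ 2 := one_le_pow₀ hqR
      nlinarith
    have h2 : |(c : ℝ)| * |e| ≤ H * (h / (2 * K)) :=
      mul_le_mul hcR (h1.trans hsmall) (abs_nonneg _) hH0.le
    have h3 : h * H / K ≤ |(D : ℝ)| / |m| := by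
      rw [div_le_div_iff₀ hK0 hm0]
      calc h * H * |m| ≤ h * H * (K * H) := mul_le_mul_of_nonneg_left hmK (by positivity)
        _ = h * (H : ℝ) ^ 2 * K := by ring
        _ ≤ |(D : ℝ)| * K := mul_le_mul_of_nonneg_right hD hK0.le
    calc |(c : ℝ)| * |e| ≤ H * (h / (2 * K)) := h2
      _ = 1 / 2 * (h * H / K) := by field_simp
      _ ≤ 1 / 2 * (|(D : ℝ)| / |m|) := by linarith
  have hDm0 : 0 < |(D : ℝ) / m| := by
    rw [abs_div]
    positivity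
  have hQup : |(Q0 : ℝ)| ≤ 3 / 2 * (q * |(D : ℝ)| / |m|) := by
    rw [eq2, abs_mul, Nat.abs_cast]
    have h1 : |(D : ℝ) / m + c * e| ≤ 3 / 2 * |(D : ℝ) / m| := by
      refine (abs_add_le _ _).trans ?_
      linarith
    calc (q : ℝ) * |(D : ℝ) / m + c * e| ≤ q * (3 / 2 * |(D : ℝ) / m|) :=
          mul_le_mul_of_nonneg_left h1 hq0.le
      _ = 3 / 2 * (q * |(D : ℝ)| / |m|) := by rw [abs_div]; ring
  have hQne : Q0 ≠ 0 := by
    intro h0
    rw [h0, Int.cast_zero] at eq2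
    have h1 : (D : ℝ) / m + c * e = 0 := by
      rcases mul_eq_zero.1 eq2.symm with h2 | h2
      · exact absurd h2 hq0.ne'
      · exact h2
    have h2 : |(D : ℝ) / m| = |(c : ℝ) * e| := by
      rw [eq_neg_of_add_eq_zero_left h1, abs_neg]
    linarith
  -- divide by the greatest common divisor
  obtain ⟨g, hg⟩ : ∃ g : ℕ, g = Int.gcd P0 Q0 := ⟨_, rfl⟩
  have hgpos' : 0 < Int.gcd P0 Q0 := Int.gcd_pos_of_ne_zero_right _ hQne
  have hgpos : 0 < g := by rw [hg]; exact hgpos'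
  obtain ⟨P, Q, hcop, hPg, hQg⟩ := Int.exists_gcd_one (m := P0) (n := Q0) hgpos'
  have hgP0 : (g : ℤ) ∣ P0 := by rw [hg]; exact Int.gcd_dvd_left _ _
  have hgQ0 : (g : ℤ) ∣ Q0 := by rw [hg]; exact Int.gcd_dvd_right _ _
  rw [← hg] at hPg hQg
  have hgR : (0 : ℝ) < g := by exact_mod_cast hgpos
  have hDp : D * p = a * P0 + b * Q0 := by rw [hDdef, hP0, hQ0]; ring
  have hDq : D * q = c * P0 + d * Q0 := by rw [hDdef, hP0, hQ0]; ring
  have hgD : (g : ℤ) ∣ D := by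
    obtain ⟨u, w, huw⟩ := hpq
    have : D = u * (D * p) + w * (D * q) := by linear_combination (-D) * huw
    rw [this, hDp, hDq]
    exact dvd_add (Dvd.dvd.mul_left (dvd_add (hgP0.mul_left _) (hgQ0.mul_left _)) _)
      (Dvd.dvd.mul_left (dvd_add (hgP0.mul_left _) (hgQ0.mul_left _)) _)
  obtain ⟨k, hk⟩ := hgD
  have hk0 : k ≠ 0 := by
    rintro rfl
    rw [mul_zero] at hk
    exact hD0 hk
  have hnabs : |(D : ℝ)| = g * (k.natAbs : ℝ) := by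
    rw [hk]
    push_cast
    rw [abs_mul, Nat.abs_cast, Nat.cast_natAbs, Int.cast_abs]
  have hDup : |(D : ℝ)| ≤ 2 * (H : ℝ) ^ 2 := by
    have : |D| ≤ 2 * (H : ℤ) ^ 2 := by
      calc |D| ≤ |a * d| + |b * c| := abs_sub _ _
        _ = |a| * |d| + |b| * |c| := by rw [abs_mul, abs_mul]
        _ ≤ H * H + H * H := add_le_add (mul_le_mul ha hd (abs_nonneg _) (by positivity))
            (mul_le_mul hb hc (abs_nonneg _) (by positivity))
        _ = 2 * (H : ℤ) ^ 2 := by ring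
    rw [← Int.cast_abs]
    exact_mod_cast this
  refine ⟨k.natAbs, Int.natAbs_pos.2 hk0, ?_, P, Q, Int.isCoprime_iff_gcd_eq_one.2 hcop, ?_, ?_, ?_,
    ?_, ?_⟩
  · have h1 : (k.natAbs : ℝ) ≤ g * (k.natAbs : ℝ) := by
      have : (1 : ℝ) ≤ g := by exact_mod_cast hgpos
      nlinarith [Nat.cast_nonneg (α := ℝ) k.natAbs]
    have h2 : (k.natAbs : ℝ) ≤ 2 * (H : ℝ) ^ 2 := by
      rw [← hnabs] at h1
      exact h1.trans hDup
    exact_mod_cast h2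
  · rintro rfl
    rw [zero_mul] at hQg
    exact hQne hQg
  · have h1 : |(Q0 : ℝ)| = |(Q : ℝ)| * g := by
      rw [hQg]
      push_cast
      rw [abs_mul, Nat.abs_cast]
    rw [h1, hnabs] at hQup
    have h2 : |(Q : ℝ)| * g ≤ 3 / 2 * (q * (k.natAbs : ℝ) / |m|) * g := by
      refine hQup.trans (le_of_eq ?_)
      ring
    have h3 := le_of_mul_le_mul_right h2 hgR
    refine h3.trans ?_
    refine mul_le_mul_of_nonneg_left ?_ (by norm_num)
    exact div_le_div_of_nonneg_left (by positivity) (by positivity) hm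
  · have h1 : ((Q : ℝ) * ξ - P) * g = q * m * e := by
      rw [← eq1, hQg, hPg]
      push_cast
      ring
    have h2 : |(Q : ℝ) * ξ - P| * g = q * |m| * |e| := by
      have := congrArg abs h1
      rw [abs_mul, abs_mul, abs_mul, Nat.abs_cast, Nat.abs_cast] at this
      exact this
    have h3 : |(Q : ℝ) * ξ - P| * g ≤ |m| * c0 / (q * L) := by
      rw [h2]
      calc (q : ℝ) * |m| * |e| ≤ q * |m| * (c0 / ((q : ℝ) ^ 2 * L)) :=
            mul_le_mul_of_nonneg_left hclose (by positivity)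
        _ = |m| * c0 / (q * L) := by field_simp
    have hkR : (0 : ℝ) < (k.natAbs : ℝ) := by
      exact_mod_cast Int.natAbs_pos.2 hk0
    have h4 : h * (H : ℝ) ^ 2 ≤ g * (k.natAbs : ℝ) := by
      rw [← hnabs]
      exact hD
    -- `|Q ξ - P| h H^2 ≤ |Q ξ - P| g n ≤ |m| c0 n / (q L) ≤ K H c0 n / (q L)`
    have h5 : |(Q : ℝ) * ξ - P| * (h * (H : ℝ) ^ 2) ≤ K * H * c0 * (k.natAbs : ℝ) / (q * L) := by
      calc |(Q : ℝ) * ξ - P| * (h * (H : ℝ) ^ 2) ≤ |(Q : ℝ) * ξ - P| * (g * (k.natAbs : ℝ)) :=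
            mul_le_mul_of_nonneg_left h4 (abs_nonneg _)
        _ = (|(Q : ℝ) * ξ - P| * g) * (k.natAbs : ℝ) := by ring
        _ ≤ (|m| * c0 / (q * L)) * (k.natAbs : ℝ) := mul_le_mul_of_nonneg_right h3 hkR.le
        _ ≤ ((K * H) * c0 / (q * L)) * (k.natAbs : ℝ) := by
          refine mul_le_mul_of_nonneg_right ?_ hkR.le
          exact div_le_div_of_nonneg_right (mul_le_mul_of_nonneg_right hmK hc0.le) (by positivity)
        _ = K * H * c0 * (k.natAbs : ℝ) / (q * L) := by ring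
    have h6 : |(Q : ℝ) * ξ - P| ≤ (K * H * c0 * (k.natAbs : ℝ) / (q * L)) / (h * (H : ℝ) ^ 2) := by
      rw [le_div_iff₀ (by positivity)]
      exact h5
    refine h6.trans (le_of_eq ?_)
    field_simp
  · have h1 : (g : ℤ) * (a * P + b * Q) = g * (k * p) := by
      have : a * P0 + b * Q0 = g * k * p := by rw [← hDp, hk]
      rw [hPg, hQg] at this
      linarith
    have h2 : a * P + b * Q = k * p :=
      mul_left_cancel₀ (by exact_mod_cast hgpos.ne' : (g : ℤ) ≠ 0) h1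
    rw [h2]
    exact Dvd.dvd.mul_right (Int.natAbs_dvd.2 dvd_rfl) _
  · have h1 : (g : ℤ) * (c * P + d * Q) = g * (k * q) := by
      have : c * P0 + d * Q0 = g * k * q := by rw [← hDq, hk]
      rw [hPg, hQg] at this
      linarith
    have h2 : c * P + d * Q = k * q :=
      mul_left_cancel₀ (by exact_mod_cast hgpos.ne' : (g : ℤ) ≠ 0) h1
    rw [h2]
    exact Dvd.dvd.mul_right (Int.natAbs_dvd.2 dvd_rfl) _

/-- The same with a positive denominator. -/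
theorem struct (ξ : ℝ) (H : ℕ) (hH : 1 ≤ H) (h c0 L : ℝ) (hh : 0 < h)
    (hc0 : 0 < c0) (hL : 0 < L) (a b c d : ℤ) (ha : |a| ≤ H) (hb : |b| ≤ H) (hc : |c| ≤ H)
    (hd : |d| ≤ H) (hD : h * (H : ℝ) ^ 2 ≤ |((a * d - b * c : ℤ) : ℝ)|)
    (hm : h * H ≤ |(c : ℝ) * ξ + d|)
    (p : ℤ) (q : ℕ) (hq : 1 ≤ q) (hpq : IsCoprime p (q : ℤ))
    (hclose : |((a : ℝ) * ξ + b) / ((c : ℝ) * ξ + d) - (p : ℝ) / q| ≤ c0 / ((q : ℝ) ^ 2 * L))
    (hsmall : c0 / L ≤ h / (2 * (|ξ| + 1))) :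
    ∃ n : ℕ, 1 ≤ n ∧ n ≤ 2 * H ^ 2 ∧ ∃ v : ℤ × ℕ, IsCoprime v.1 (v.2 : ℤ) ∧ 1 ≤ v.2 ∧
      (v.2 : ℝ) ≤ 3 / 2 * (q * n / (h * H)) ∧
      |(v.2 : ℝ) * ξ - v.1| ≤ (|ξ| + 1) * c0 * n / (h * H * q * L) ∧
      (n : ℤ) ∣ a * v.1 + b * v.2 ∧ (n : ℤ) ∣ c * v.1 + d * v.2 := by
  obtain ⟨n, hn1, hn2, P, Q, hcop, hQ, h1, h2, h3, h4⟩ :=
    struct0 ξ H hH h c0 L hh hc0 hL a b c d ha hb hc hd hD hm p q hq hpq hclose hsmall
  refine ⟨n, hn1, hn2, ?_⟩
  rcases lt_or_gt_of_ne hQ with hneg | hpos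
  · have e : ((Q.natAbs : ℕ) : ℤ) = -Q := by omega
    have eR : ((Q.natAbs : ℕ) : ℝ) = -(Q : ℝ) := by
      have : (((Q.natAbs : ℕ) : ℤ) : ℝ) = ((-Q : ℤ) : ℝ) := by rw [e]
      push_cast at this
      rw [← this]
      simp
    refine ⟨(-P, Q.natAbs), ?_, Int.natAbs_pos.2 hQ, ?_, ?_, ?_, ?_⟩
    · show IsCoprime (-P) ((Q.natAbs : ℕ) : ℤ)
      rw [e]
      exact hcop.neg_neg
    · show ((Q.natAbs : ℕ) : ℝ) ≤ _
      rw [Nat.cast_natAbs, Int.cast_abs]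
      exact h1
    · show |((Q.natAbs : ℕ) : ℝ) * ξ - ((-P : ℤ) : ℝ)| ≤ _
      rw [eR]
      have : -(Q : ℝ) * ξ - ((-P : ℤ) : ℝ) = -((Q : ℝ) * ξ - P) := by
        push_cast
        ring
      rw [this, abs_neg]
      exact h2
    · show (n : ℤ) ∣ a * (-P) + b * ((Q.natAbs : ℕ) : ℤ)
      rw [e]
      have : a * (-P) + b * (-Q) = -(a * P + b * Q) := by ring
      rw [this]
      exact (dvd_neg).2 h3
    · show (n : ℤ) ∣ c * (-P) + d * ((Q.natAbs : ℕ) : ℤ)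
      rw [e]
      have : c * (-P) + d * (-Q) = -(c * P + d * Q) := by ring
      rw [this]
      exact (dvd_neg).2 h4
  · have e : ((Q.natAbs : ℕ) : ℤ) = Q := by omega
    have eR : ((Q.natAbs : ℕ) : ℝ) = (Q : ℝ) := by
      have : (((Q.natAbs : ℕ) : ℤ) : ℝ) = ((Q : ℤ) : ℝ) := by rw [e]
      rw [← this]
      simp
    refine ⟨(P, Q.natAbs), ?_, Int.natAbs_pos.2 hQ, ?_, ?_, ?_, ?_⟩
    · show IsCoprime P ((Q.natAbs : ℕ) : ℤ)
      rw [e]
      exact hcop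
    · show ((Q.natAbs : ℕ) : ℝ) ≤ _
      rw [Nat.cast_natAbs, Int.cast_abs]
      exact h1
    · show |((Q.natAbs : ℕ) : ℝ) * ξ - (P : ℝ)| ≤ _
      rw [eR]
      exact h2
    · show (n : ℤ) ∣ a * P + b * ((Q.natAbs : ℕ) : ℤ)
      rw [e]
      exact h3
    · show (n : ℤ) ∣ c * P + d * ((Q.natAbs : ℕ) : ℤ)
      rw [e]
      exact h4

end Pool.Agent.R405.CF
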