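import Pool.Agent.R405.CF3

/-!
# The count of the matrices with a close rational number
-/

set_option autoImplicit false

namespace Pool.Agent.R405.CF

open Finset

/-- A lower bound of `(log q) ^ (1 + ε)` on the `j`-th dyadic range. -/
noncomputable def ell (ε : ℝ) (j : ℕ) : ℝ := (Real.log 2 * ((max j 1 : ℕ) : ℝ)) ^ (1 + ε)

theorem log2_pos : 0 < Real.log 2 := Real.log_pos (by norm_num)

theorem ell_pos (ε : ℝ) (j : ℕ) : 0 < ell ε j := by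
  unfold ell
  have h1 : (0 : ℝ) < ((max j 1 : ℕ) : ℝ) := by
    have : 0 < max j 1 := by omega
    exact_mod_cast this
  have := log2_pos
  positivity

theorem ell_zero_le (ε : ℝ) (hε : 0 < ε) (j : ℕ) : ell ε 0 ≤ ell ε j := by
  unfold ell
  have := log2_pos
  refine Real.rpow_le_rpow (by positivity) ?_ (by linarith)
  refine mul_le_mul_of_nonneg_left ?_ this.le
  have : max 0 1 ≤ max j 1 := by omega
  exact_mod_cast this

theorem ell_summable (ε : ℝ) (hε : 0 < ε) : Summable (fun j : ℕ => 1 / ell ε j) := by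
  rw [← summable_nat_add_iff 1]
  have h1 : Summable (fun n : ℕ => 1 / (n : ℝ) ^ (1 + ε)) :=
    Real.summable_one_div_nat_rpow.2 (by linarith)
  have h2 : Summable (fun n : ℕ => 1 / ((n + 1 : ℕ) : ℝ) ^ (1 + ε)) :=
    (summable_nat_add_iff 1).2 h1
  refine (h2.mul_left (1 / Real.log 2 ^ (1 + ε))).congr fun j => ?_
  unfold ell
  have h3 : max (j + 1) 1 = j + 1 := by omega
  rw [h3, Real.mul_rpow log2_pos.le (by positivity), one_div_mul_one_div]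

/-- The matrix `((a, b), (c, d))` is bad: it has nonzero determinant and there is a rational number
`p / q`, `2 ≤ q ≤ H ^ κ`, very close to `(a ξ + b) / (c ξ + d)`. -/
def Bad (ξ ε κ c0 : ℝ) (H : ℕ) (g : (ℤ × ℤ) × (ℤ × ℤ)) : Prop :=
  g.1.1 * g.2.2 - g.1.2 * g.2.1 ≠ 0 ∧ ∃ (p : ℤ) (q : ℕ), 2 ≤ q ∧ (q : ℝ) ≤ (H : ℝ) ^ κ ∧
    |((g.1.1 : ℝ) * ξ + g.1.2) / ((g.2.1 : ℝ) * ξ + g.2.2) - (p : ℝ) / q| ≤
      c0 / ((q : ℝ) ^ 2 * Real.log q ^ (1 + ε))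

theorem red (x ε c0 B : ℝ) (hε : 0 < ε) (hc0 : 0 < c0) (p0 : ℤ) (q0 : ℕ) (hq0 : 2 ≤ q0)
    (hB : (q0 : ℝ) ≤ B) (h : |x - (p0 : ℝ) / q0| ≤ c0 / ((q0 : ℝ) ^ 2 * Real.log q0 ^ (1 + ε))) :
    ∃ (j : ℕ) (p : ℤ) (q : ℕ), 2 ^ j ≤ q ∧ q < 2 ^ (j + 1) ∧ (q : ℝ) ≤ B ∧ IsCoprime p (q : ℤ) ∧
      |x - (p : ℝ) / q| ≤ c0 / ((q : ℝ) ^ 2 * ell ε j) := by
  obtain ⟨g, hg⟩ : ∃ g : ℕ, g = Int.gcd p0 q0 := ⟨_, rfl⟩
  have hgpos' : 0 < Int.gcd p0 q0 := Int.gcd_pos_of_ne_zero_right _ (by omega)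
  obtain ⟨p, r, hcop, hp, hr⟩ := Int.exists_gcd_one (m := p0) (n := (q0 : ℤ)) hgpos'
  rw [← hg] at hp hr hgpos'
  have hg0 : (0 : ℤ) < g := by exact_mod_cast hgpos'
  have hr0 : 0 < r := by
    by_contra hcon
    have h1 : r * (g : ℤ) ≤ 0 := mul_nonpos_of_nonpos_of_nonneg (not_lt.1 hcon) hg0.le
    omega
  obtain ⟨q, rfl⟩ := Int.eq_ofNat_of_zero_le hr0.le
  have hq1 : 1 ≤ q := by exact_mod_cast hr0
  have hqq : q0 = q * g := by exact_mod_cast hr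
  have hqle : q ≤ q0 := by
    rw [hqq]
    exact Nat.le_mul_of_pos_right _ hgpos'
  have hgR : (0 : ℝ) < g := by exact_mod_cast hgpos'
  have hqR : (0 : ℝ) < q := by exact_mod_cast hq1
  have hqleR : (q : ℝ) ≤ q0 := by exact_mod_cast hqle
  have hq0R : (2 : ℝ) ≤ q0 := by exact_mod_cast hq0
  refine ⟨Nat.log 2 q, p, q, Nat.pow_log_le_self 2 (by omega), Nat.lt_pow_succ_log_self (by norm_num) q,
    hqleR.trans hB, Int.isCoprime_iff_gcd_eq_one.2 hcop, ?_⟩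
  have hfrac : (p0 : ℝ) / q0 = (p : ℝ) / q := by
    rw [hp, hqq]
    push_cast
    field_simp
  rw [← hfrac]
  refine h.trans ?_
  apply div_le_div_of_nonneg_left hc0.le
  · have := ell_pos ε (Nat.log 2 q)
    positivity
  · have hlog : Real.log 2 * ((max (Nat.log 2 q) 1 : ℕ) : ℝ) ≤ Real.log q0 := by
      rcases Nat.eq_zero_or_pos (Nat.log 2 q) with h0 | h0
      · rw [h0]
        simp only [zero_le, sup_of_le_right, Nat.cast_one, mul_one]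
        exact Real.log_le_log (by norm_num) hq0R
      · rw [max_eq_left (by omega)]
        have h1 : ((2 : ℝ)) ^ (Nat.log 2 q) ≤ q0 := by
          have := Nat.pow_log_le_self 2 (by omega : q ≠ 0)
          exact_mod_cast this.trans hqle
        have h2 := Real.log_le_log (by positivity) h1
        rw [Real.log_pow] at h2
        linarith
    have h3 : ell ε (Nat.log 2 q) ≤ Real.log q0 ^ (1 + ε) := by
      unfold ell
      exact Real.rpow_le_rpow (by have := log2_pos; positivity) hlog (by linarith)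
    exact mul_le_mul (pow_le_pow_left₀ hqR.le hqleR 2) h3 (ell_pos ε _).le (by positivity)

/-- The parameters. -/
noncomputable def Rj (h : ℝ) (H j n : ℕ) : ℝ := 3 * 2 ^ j * n / (h * H)

noncomputable def dj (ξ ε c0 h : ℝ) (H j n : ℕ) : ℝ :=
  (|ξ| + 1) * c0 * n / (h * H * 2 ^ j * ell ε j)

open Classical in
/-- The cover. -/
noncomputable def cover (ξ ε κ c0 h : ℝ) (H : ℕ) : Finset ((ℤ × ℤ) × (ℤ × ℤ)) :=
  (range (Nat.log 2 ⌊(H : ℝ) ^ κ⌋₊ + 1)).biUnion fun j => (Icc 1 (2 * H ^ 2)).biUnion fun n =>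
    ((pts ξ (Rj h H j n) (dj ξ ε c0 h H j n)).filter
      (fun v => IsCoprime v.1 (v.2 : ℤ))).biUnion fun v => mats v.1 v.2 n H

theorem mem_cover (ξ ε κ c0 h : ℝ) (H : ℕ) (hH : 1 ≤ H) (hε : 0 < ε) (hh : 0 < h) (hc0 : 0 < c0)
    (hsmall : c0 / ell ε 0 ≤ h / (2 * (|ξ| + 1))) (g : (ℤ × ℤ) × (ℤ × ℤ))
    (h1 : |g.1.1| ≤ H) (h2 : |g.1.2| ≤ H) (h3 : |g.2.1| ≤ H) (h4 : |g.2.2| ≤ H)
    (hD : h * (H : ℝ) ^ 2 ≤ |((g.1.1 * g.2.2 - g.1.2 * g.2.1 : ℤ) : ℝ)|)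
    (hm : h * H ≤ |(g.2.1 : ℝ) * ξ + g.2.2|) (hbad : Bad ξ ε κ c0 H g) :
    g ∈ cover ξ ε κ c0 h H := by
  classical
  obtain ⟨hdet, p0, q0, hq0, hqκ, hcl⟩ := hbad
  obtain ⟨j, p, q, hj1, hj2, hqB, hcop, hcl2⟩ := red _ ε c0 _ hε hc0 p0 q0 hq0 hqκ hcl
  have hq1 : 1 ≤ q := le_trans Nat.one_le_two_pow hj1
  have hell := ell_pos ε j
  have hell0 := ell_pos ε 0
  have hsm : c0 / ell ε j ≤ h / (2 * (|ξ| + 1)) :=
    (div_le_div_of_nonneg_left hc0.le hell0 (ell_zero_le ε hε j)).trans hsmall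
  obtain ⟨n, hn1, hn2, v, hv1, hv2, hv3, hv4, hv5, hv6⟩ :=
    struct ξ H hH h c0 (ell ε j) hh hc0 hell g.1.1 g.1.2 g.2.1 g.2.2 h1 h2 h3 h4 hD hm p q hq1
      hcop hcl2 hsm
  have hHR : (0 : ℝ) < H := by exact_mod_cast hH
  have hnR : (0 : ℝ) < n := by exact_mod_cast hn1
  have hqR : (0 : ℝ) < q := by exact_mod_cast hq1
  unfold cover
  rw [mem_biUnion]
  refine ⟨j, ?_, ?_⟩
  · rw [mem_range, Nat.lt_succ_iff]
    apply Nat.le_log_of_pow_le (by norm_num)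
    exact hj1.trans (Nat.le_floor hqB)
  rw [mem_biUnion]
  refine ⟨n, mem_Icc.2 ⟨hn1, hn2⟩, ?_⟩
  rw [mem_biUnion]
  refine ⟨v, ?_, ?_⟩
  · rw [mem_filter, mem_pts (by unfold Rj; positivity)]
    refine ⟨⟨hv2, ?_, ?_⟩, hv1⟩
    · refine hv3.trans ?_
      unfold Rj
      have h5 : (q : ℝ) ≤ 2 * 2 ^ j := by
        have : (q : ℝ) ≤ ((2 ^ (j + 1) : ℕ) : ℝ) := by exact_mod_cast hj2.le
        rw [pow_succ] at this
        push_cast at this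
        linarith
      calc 3 / 2 * ((q : ℝ) * n / (h * H)) ≤ 3 / 2 * ((2 * 2 ^ j) * n / (h * H)) := by
            refine mul_le_mul_of_nonneg_left ?_ (by norm_num)
            exact div_le_div_of_nonneg_right (mul_le_mul_of_nonneg_right h5 hnR.le) (by positivity)
        _ = 3 * 2 ^ j * n / (h * H) := by ring
    · refine hv4.trans ?_
      unfold dj
      have h5 : ((2 : ℝ)) ^ j ≤ q := by exact_mod_cast hj1
      apply div_le_div_of_nonneg_left (by positivity) (by positivity)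
      exact mul_le_mul_of_nonneg_right (mul_le_mul_of_nonneg_left h5 (by positivity)) hell.le
  · unfold mats
    rw [mem_filter, mem_product, mem_vecs, mem_vecs]
    exact ⟨⟨⟨⟨h1, h2⟩, hv5⟩, ⟨⟨h3, h4⟩, hv6⟩⟩, hdet⟩

theorem one_term (ξ ε κ c0 h c τ : ℝ) (H : ℕ) (hH : 1 ≤ H) (hε : 0 < ε) (hκ : 0 ≤ κ) (hh : 0 < h)
    (hc0 : 0 < c0) (hc : 0 < c) (hτ : 0 < τ)
    (hroth : ∀ q : ℕ, 1 ≤ q → ∀ p : ℤ, c ≤ (q : ℝ) ^ (1 + τ) * |(q : ℝ) * ξ - p|)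
    (j n : ℕ) (hj : j ≤ Nat.log 2 ⌊(H : ℝ) ^ κ⌋₊) (hn1 : 1 ≤ n) (hn2 : n ≤ 2 * H ^ 2) :
    ((pts ξ (Rj h H j n) (dj ξ ε c0 h H j n)).card : ℝ) * (576 * (H : ℝ) ^ 4 / (n : ℝ) ^ 2) ≤
      20736 * ((|ξ| + 1) * c0 / h ^ 2) * (1 / ell ε j) * (H : ℝ) ^ 2 +
      1728 * √(3 * ((|ξ| + 1) * c0) * (6 * (H : ℝ) ^ (κ + 1) / h) ^ τ / (h ^ 2 * ell ε 0 * c)) *
        (H : ℝ) ^ 3 * (n : ℝ)⁻¹ := by
  have hHR : (1 : ℝ) ≤ H := by exact_mod_cast hH
  have hH0 : (0 : ℝ) < H := by linarith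
  have hnR : (0 : ℝ) < n := by exact_mod_cast hn1
  have hn2R : (n : ℝ) ≤ 2 * (H : ℝ) ^ 2 := by exact_mod_cast hn2
  have hell := ell_pos ε j
  have hell0 := ell_pos ε 0
  set K : ℝ := |ξ| + 1 with hK
  have hK0 : 0 < K := by rw [hK]; positivity
  have hHκ : (1 : ℝ) ≤ (H : ℝ) ^ κ := Real.one_le_rpow hHR hκ
  have h2j : ((2 : ℝ)) ^ j ≤ (H : ℝ) ^ κ := by
    have h1 : 2 ^ j ≤ ⌊(H : ℝ) ^ κ⌋₊ := by
      refine (Nat.pow_le_pow_right (by norm_num) hj).trans (Nat.pow_log_le_self 2 ?_)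
      exact (Nat.floor_pos.2 hHκ).ne'
    have h2 : ((2 ^ j : ℕ) : ℝ) ≤ (⌊(H : ℝ) ^ κ⌋₊ : ℝ) := by exact_mod_cast h1
    refine le_trans ?_ (h2.trans (Nat.floor_le (by positivity)))
    push_cast
    exact le_rfl
  have hR0 : 0 < Rj h H j n := by unfold Rj; positivity
  have hd0 : 0 < dj ξ ε c0 h H j n := by
    unfold dj
    rw [← hK]
    positivity
  have hRmax : Rj h H j n ≤ 6 * (H : ℝ) ^ (κ + 1) / h := by
    unfold Rj
    rw [Real.rpow_add hH0, Real.rpow_one]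
    calc 3 * 2 ^ j * (n : ℝ) / (h * H) ≤ 3 * (H : ℝ) ^ κ * (2 * (H : ℝ) ^ 2) / (h * H) := by
          refine div_le_div_of_nonneg_right ?_ (by positivity)
          exact mul_le_mul (by linarith) hn2R hnR.le (by positivity)
      _ = 6 * ((H : ℝ) ^ κ * H) / h := by field_simp; ring
  have hprod : Rj h H j n * dj ξ ε c0 h H j n = 3 * (K * c0) * (n : ℝ) ^ 2 /
      (h ^ 2 * (H : ℝ) ^ 2 * ell ε j) := by
    unfold Rj dj
    rw [← hK]
    field_simp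
  have hpc := pts_card ξ c τ (Rj h H j n) (dj ξ ε c0 h H j n) hc hτ hR0.le hd0.le hroth
  set E : ℝ := √(3 * (K * c0) * (6 * (H : ℝ) ^ (κ + 1) / h) ^ τ / (h ^ 2 * ell ε 0 * c)) with hE
  have hsq : √(Rj h H j n * dj ξ ε c0 h H j n * Rj h H j n ^ τ / c) ≤ n / H * E := by
    have h1 : Rj h H j n * dj ξ ε c0 h H j n * Rj h H j n ^ τ / c ≤
        (n / H) ^ 2 * (3 * (K * c0) * (6 * (H : ℝ) ^ (κ + 1) / h) ^ τ / (h ^ 2 * ell ε 0 * c)) := by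
      rw [hprod]
      have h2 : Rj h H j n ^ τ ≤ (6 * (H : ℝ) ^ (κ + 1) / h) ^ τ :=
        Real.rpow_le_rpow hR0.le hRmax hτ.le
      have h3 : (0 : ℝ) < Rj h H j n ^ τ := Real.rpow_pos_of_pos hR0 _
      calc 3 * (K * c0) * (n : ℝ) ^ 2 / (h ^ 2 * (H : ℝ) ^ 2 * ell ε j) * Rj h H j n ^ τ / c =
            (n / H) ^ 2 * (3 * (K * c0) * Rj h H j n ^ τ / (h ^ 2 * ell ε j * c)) := by
            field_simp
        _ ≤ (n / H) ^ 2 * (3 * (K * c0) * (6 * (H : ℝ) ^ (κ + 1) / h) ^ τ /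
            (h ^ 2 * ell ε 0 * c)) := by
            refine mul_le_mul_of_nonneg_left ?_ (by positivity)
            refine div_le_div₀ (by positivity) ?_ (by positivity) ?_
            · exact mul_le_mul_of_nonneg_left h2 (by positivity)
            · refine mul_le_mul_of_nonneg_right ?_ hc.le
              exact mul_le_mul_of_nonneg_left (ell_zero_le ε hε j) (by positivity)
    calc √(Rj h H j n * dj ξ ε c0 h H j n * Rj h H j n ^ τ / c) ≤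
          √((n / H) ^ 2 * (3 * (K * c0) * (6 * (H : ℝ) ^ (κ + 1) / h) ^ τ /
            (h ^ 2 * ell ε 0 * c))) := Real.sqrt_le_sqrt h1
      _ = n / H * E := by
          rw [Real.sqrt_mul (by positivity), Real.sqrt_sq (by positivity)]
  have hE0 : 0 ≤ E := Real.sqrt_nonneg _
  calc ((pts ξ (Rj h H j n) (dj ξ ε c0 h H j n)).card : ℝ) * (576 * (H : ℝ) ^ 4 / (n : ℝ) ^ 2) ≤
        (12 * (3 * (K * c0) * (n : ℝ) ^ 2 / (h ^ 2 * (H : ℝ) ^ 2 * ell ε j)) + 3 * (n / H * E)) *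
          (576 * (H : ℝ) ^ 4 / (n : ℝ) ^ 2) := by
        refine mul_le_mul_of_nonneg_right ?_ (by positivity)
        rw [hprod] at hpc
        rw [hprod] at hsq
        linarith
    _ = 20736 * (K * c0 / h ^ 2) * (1 / ell ε j) * (H : ℝ) ^ 2 +
        1728 * E * (H : ℝ) ^ 3 * (n : ℝ)⁻¹ := by
        field_simp
        ring

theorem cover_card (ξ ε κ c0 h c τ : ℝ) (H : ℕ) (hH : 1 ≤ H) (hε : 0 < ε) (hκ : 0 ≤ κ)
    (hh : 0 < h) (hc0 : 0 < c0) (hc : 0 < c) (hτ : 0 < τ)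
    (hroth : ∀ q : ℕ, 1 ≤ q → ∀ p : ℤ, c ≤ (q : ℝ) ^ (1 + τ) * |(q : ℝ) * ξ - p|) :
    ((cover ξ ε κ c0 h H).card : ℝ) ≤
      41472 * ((|ξ| + 1) * c0 / h ^ 2) * (∑' j : ℕ, 1 / ell ε j) * (H : ℝ) ^ 4 +
      (Nat.log 2 ⌊(H : ℝ) ^ κ⌋₊ + 1) *
        (1728 * √(3 * ((|ξ| + 1) * c0) * (6 * (H : ℝ) ^ (κ + 1) / h) ^ τ / (h ^ 2 * ell ε 0 * c)) *
        (H : ℝ) ^ 3 * (1 + Real.log (2 * (H : ℝ) ^ 2))) := by
  classical
  have hHR : (1 : ℝ) ≤ H := by exact_mod_cast hH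
  have hH0 : (0 : ℝ) < H := by linarith
  set J : ℕ := Nat.log 2 ⌊(H : ℝ) ^ κ⌋₊ with hJ
  set A : ℝ := 20736 * ((|ξ| + 1) * c0 / h ^ 2) with hA
  set E : ℝ := √(3 * ((|ξ| + 1) * c0) * (6 * (H : ℝ) ^ (κ + 1) / h) ^ τ / (h ^ 2 * ell ε 0 * c))
    with hE
  have hA0 : 0 ≤ A := by positivity
  have hE0 : 0 ≤ E := Real.sqrt_nonneg _
  have hjn : ∀ j ∈ range (J + 1), ∀ n ∈ Icc 1 (2 * H ^ 2),
      ((((pts ξ (Rj h H j n) (dj ξ ε c0 h H j n)).filter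
        (fun v => IsCoprime v.1 (v.2 : ℤ))).biUnion fun v => mats v.1 v.2 n H).card : ℝ) ≤
      A * (1 / ell ε j) * (H : ℝ) ^ 2 + 1728 * E * (H : ℝ) ^ 3 * (n : ℝ)⁻¹ := by
    intro j hj n hn
    rw [mem_range, Nat.lt_succ_iff] at hj
    rw [mem_Icc] at hn
    refine le_trans ?_ (one_term ξ ε κ c0 h c τ H hH hε hκ hh hc0 hc hτ hroth j n hj hn.1 hn.2)
    have h1 : ((((pts ξ (Rj h H j n) (dj ξ ε c0 h H j n)).filter
        (fun v => IsCoprime v.1 (v.2 : ℤ))).biUnion fun v => mats v.1 v.2 n H).card : ℝ) ≤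
        ∑ v ∈ (pts ξ (Rj h H j n) (dj ξ ε c0 h H j n)).filter
          (fun v => IsCoprime v.1 (v.2 : ℤ)), ((mats v.1 v.2 n H).card : ℝ) := by
      exact_mod_cast card_biUnion_le
    refine h1.trans ?_
    calc ∑ v ∈ (pts ξ (Rj h H j n) (dj ξ ε c0 h H j n)).filter
          (fun v => IsCoprime v.1 (v.2 : ℤ)), ((mats v.1 v.2 n H).card : ℝ) ≤
        ∑ v ∈ (pts ξ (Rj h H j n) (dj ξ ε c0 h H j n)).filter
          (fun v => IsCoprime v.1 (v.2 : ℤ)), (576 * (H : ℝ) ^ 4 / (n : ℝ) ^ 2) := by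
          refine Finset.sum_le_sum fun v hv => ?_
          rw [mem_filter] at hv
          exact mats_card hv.2 n H hn.1 hH
      _ = (((pts ξ (Rj h H j n) (dj ξ ε c0 h H j n)).filter
          (fun v => IsCoprime v.1 (v.2 : ℤ))).card : ℝ) * (576 * (H : ℝ) ^ 4 / (n : ℝ) ^ 2) := by
          rw [Finset.sum_const, nsmul_eq_mul]
      _ ≤ ((pts ξ (Rj h H j n) (dj ξ ε c0 h H j n)).card : ℝ) *
          (576 * (H : ℝ) ^ 4 / (n : ℝ) ^ 2) := by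
          refine mul_le_mul_of_nonneg_right ?_ (by positivity)
          exact_mod_cast card_le_card (filter_subset _ _)
  have hharm : ∑ n ∈ Icc (1 : ℕ) (2 * H ^ 2), ((n : ℝ))⁻¹ ≤ 1 + Real.log (2 * (H : ℝ) ^ 2) := by
    have h1 := harmonic_le_one_add_log (2 * H ^ 2)
    rw [harmonic_eq_sum_Icc] at h1
    push_cast at h1
    exact h1
  have hj : ∀ j ∈ range (J + 1),
      (((Icc 1 (2 * H ^ 2)).biUnion fun n => ((pts ξ (Rj h H j n) (dj ξ ε c0 h H j n)).filter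
        (fun v => IsCoprime v.1 (v.2 : ℤ))).biUnion fun v => mats v.1 v.2 n H).card : ℝ) ≤
      2 * A * (H : ℝ) ^ 4 * (1 / ell ε j) +
        1728 * E * (H : ℝ) ^ 3 * (1 + Real.log (2 * (H : ℝ) ^ 2)) := by
    intro j hj
    have h1 : (((Icc 1 (2 * H ^ 2)).biUnion fun n =>
        ((pts ξ (Rj h H j n) (dj ξ ε c0 h H j n)).filter
        (fun v => IsCoprime v.1 (v.2 : ℤ))).biUnion fun v => mats v.1 v.2 n H).card : ℝ) ≤
        ∑ n ∈ Icc 1 (2 * H ^ 2), ((((pts ξ (Rj h H j n) (dj ξ ε c0 h H j n)).filter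
        (fun v => IsCoprime v.1 (v.2 : ℤ))).biUnion fun v => mats v.1 v.2 n H).card : ℝ) := by
      exact_mod_cast card_biUnion_le
    refine h1.trans ((Finset.sum_le_sum (hjn j hj)).trans ?_)
    rw [Finset.sum_add_distrib, Finset.sum_const, nsmul_eq_mul, Nat.card_Icc, ← Finset.mul_sum]
    refine add_le_add (le_of_eq ?_) ?_
    · have : 2 * H ^ 2 + 1 - 1 = 2 * H ^ 2 := by omega
      rw [this]
      push_cast
      ring
    · exact mul_le_mul_of_nonneg_left hharm (by positivity)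
  have hfin : ((cover ξ ε κ c0 h H).card : ℝ) ≤
      ∑ j ∈ range (J + 1), (((Icc 1 (2 * H ^ 2)).biUnion fun n =>
        ((pts ξ (Rj h H j n) (dj ξ ε c0 h H j n)).filter
        (fun v => IsCoprime v.1 (v.2 : ℤ))).biUnion fun v => mats v.1 v.2 n H).card : ℝ) := by
    unfold cover
    exact_mod_cast card_biUnion_le
  refine hfin.trans ((Finset.sum_le_sum hj).trans ?_)
  rw [Finset.sum_add_distrib, ← Finset.mul_sum, Finset.sum_const, nsmul_eq_mul, card_range]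
  have hS : ∑ j ∈ range (J + 1), 1 / ell ε j ≤ ∑' j : ℕ, 1 / ell ε j :=
    (ell_summable ε hε).sum_le_tsum _ (fun j _ => (one_div_pos.2 (ell_pos ε j)).le)
  refine add_le_add ?_ (le_of_eq ?_)
  · calc 2 * A * (H : ℝ) ^ 4 * ∑ j ∈ range (J + 1), 1 / ell ε j ≤
          2 * A * (H : ℝ) ^ 4 * ∑' j : ℕ, 1 / ell ε j :=
          mul_le_mul_of_nonneg_left hS (by positivity)
      _ = 41472 * ((|ξ| + 1) * c0 / h ^ 2) * (∑' j : ℕ, 1 / ell ε j) * (H : ℝ) ^ 4 := by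
          rw [hA]
          ring
  · push_cast
    ring

end Pool.Agent.R405.CF
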