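import Pool.Agent.R405.CF4

/-!
# Matrices with a small determinant or a small denominator
-/

set_option autoImplicit false

namespace Pool.Agent.R405.CF

open Finset

/-- The box of the integers. -/
noncomputable def II (H : ℕ) : Finset ℤ := Icc (-(H : ℤ)) H

/-- The box of the matrices. -/
noncomputable def Box (H : ℕ) : Finset ((ℤ × ℤ) × (ℤ × ℤ)) := (II H ×ˢ II H) ×ˢ (II H ×ˢ II H)

theorem II_card (H : ℕ) : (II H).card = 2 * H + 1 := by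
  unfold II
  rw [Int.card_Icc]
  omega

theorem mem_II {H : ℕ} {a : ℤ} : a ∈ II H ↔ |a| ≤ H := by
  unfold II
  rw [mem_Icc, abs_le]

theorem mem_Box {H : ℕ} {g : (ℤ × ℤ) × (ℤ × ℤ)} :
    g ∈ Box H ↔ (|g.1.1| ≤ H ∧ |g.1.2| ≤ H) ∧ (|g.2.1| ≤ H ∧ |g.2.2| ≤ H) := by
  unfold Box
  rw [mem_product, mem_product, mem_product, mem_II, mem_II, mem_II, mem_II]

/-- Integers in a short interval. -/
theorem card_short (S : Finset ℤ) (x r : ℝ) (hr : 0 ≤ r) (h : ∀ a ∈ S, |(a : ℝ) - x| ≤ r) :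
    (S.card : ℝ) ≤ 2 * r + 1 := by
  have hsub : S ⊆ Icc ⌈x - r⌉ ⌊x + r⌋ := by
    intro a ha
    have h1 := abs_le.1 (h a ha)
    rw [mem_Icc, Int.ceil_le, Int.le_floor]
    constructor <;> linarith
  have h1 := card_le_card hsub
  rw [Int.card_Icc] at h1
  have h2 := Int.floor_le (x + r)
  have h3 := Int.le_ceil (x - r)
  rcases le_or_gt (⌊x + r⌋ + 1 - ⌈x - r⌉) 0 with h4 | h4
  · rw [Int.toNat_of_nonpos h4] at h1
    have : (S.card : ℝ) = 0 := by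
      have : S.card = 0 := by omega
      rw [this]
      simp
    rw [this]
    linarith
  · have h5 : ((⌊x + r⌋ + 1 - ⌈x - r⌉).toNat : ℤ) = ⌊x + r⌋ + 1 - ⌈x - r⌉ :=
      Int.toNat_of_nonneg h4.le
    have h6 : (S.card : ℤ) ≤ ⌊x + r⌋ + 1 - ⌈x - r⌉ := by
      rw [← h5]
      exact_mod_cast h1
    have h7 : (S.card : ℝ) ≤ ((⌊x + r⌋ + 1 - ⌈x - r⌉ : ℤ) : ℝ) := by exact_mod_cast h6
    push_cast at h7
    linarith

/-- The count by the fibres over a product of three boxes. -/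
theorem card_fib (H : ℕ) (S : Finset ((ℤ × ℤ) × (ℤ × ℤ))) (π : (ℤ × ℤ) × (ℤ × ℤ) → ℤ × (ℤ × ℤ))
    (M : ℝ) (hπ : ∀ g ∈ S, π g ∈ II H ×ˢ (II H ×ˢ II H))
    (hM : ∀ z ∈ II H ×ˢ (II H ×ˢ II H), ((S.filter (fun g => π g = z)).card : ℝ) ≤ M) :
    (S.card : ℝ) ≤ (2 * (H : ℝ) + 1) ^ 3 * M := by
  classical
  have h1 := card_eq_sum_card_fiberwise (f := π) (s := S) (t := II H ×ˢ (II H ×ˢ II H))
    (fun g hg => hπ g hg)
  rw [h1]
  push_cast
  refine (Finset.sum_le_sum hM).trans ?_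
  rw [Finset.sum_const, nsmul_eq_mul, card_product, card_product, II_card]
  apply le_of_eq
  push_cast
  ring

theorem disc1 (ξ s : ℝ) (H : ℕ) (hs : 0 ≤ s) (S : Finset ((ℤ × ℤ) × (ℤ × ℤ)))
    (hS : ∀ g ∈ S, g ∈ Box H ∧ |(g.2.1 : ℝ) * ξ + g.2.2| ≤ s * H) :
    (S.card : ℝ) ≤ (2 * (H : ℝ) + 1) ^ 3 * (2 * (s * H) + 1) := by
  classical
  refine card_fib H S (fun g => (g.2.1, g.1)) _ ?_ ?_
  · intro g hg
    have := mem_Box.1 (hS g hg).1
    rw [mem_product, mem_product, mem_II, mem_II, mem_II]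
    exact ⟨this.2.1, this.1⟩
  · intro z _
    have hcard : (S.filter (fun g => (g.2.1, g.1) = z)).card =
        ((S.filter (fun g => (g.2.1, g.1) = z)).image (fun g => g.2.2)).card := by
      rw [card_image_of_injOn]
      intro g hg g' hg' h
      rw [mem_coe, mem_filter] at hg hg'
      have e1 := hg.2.trans hg'.2.symm
      have e2 := congrArg Prod.fst e1
      have e3 := congrArg Prod.snd e1
      exact Prod.ext e3 (Prod.ext e2 h)
    rw [hcard]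
    refine card_short _ (-(z.1 * ξ)) _ (by positivity) ?_
    intro a ha
    obtain ⟨g, hg, rfl⟩ := mem_image.1 ha
    rw [mem_filter] at hg
    obtain ⟨hg1, rfl⟩ := hg
    have := (hS g hg1).2
    have e : (g.2.2 : ℝ) - -((g.2.1 : ℝ) * ξ) = (g.2.1 : ℝ) * ξ + g.2.2 := by ring
    show |(g.2.2 : ℝ) - -((g.2.1 : ℝ) * ξ)| ≤ s * H
    rw [e]
    exact this

theorem disc2a (s : ℝ) (H : ℕ) (hs : 0 ≤ s) (S : Finset ((ℤ × ℤ) × (ℤ × ℤ)))
    (hS : ∀ g ∈ S, g ∈ Box H ∧ |(g.1.1 : ℝ)| ≤ s * H) :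
    (S.card : ℝ) ≤ (2 * (H : ℝ) + 1) ^ 3 * (2 * (s * H) + 1) := by
  classical
  refine card_fib H S (fun g => (g.1.2, g.2)) _ ?_ ?_
  · intro g hg
    have := mem_Box.1 (hS g hg).1
    rw [mem_product, mem_product, mem_II, mem_II, mem_II]
    exact ⟨this.1.2, this.2⟩
  · intro z _
    have hcard : (S.filter (fun g => (g.1.2, g.2) = z)).card =
        ((S.filter (fun g => (g.1.2, g.2) = z)).image (fun g => g.1.1)).card := by
      rw [card_image_of_injOn]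
      intro g hg g' hg' h
      rw [mem_coe, mem_filter] at hg hg'
      have e1 := hg.2.trans hg'.2.symm
      have e2 := congrArg Prod.fst e1
      have e3 := congrArg Prod.snd e1
      exact Prod.ext (Prod.ext h e2) e3
    rw [hcard]
    refine card_short _ 0 _ (by positivity) ?_
    intro a ha
    obtain ⟨g, hg, rfl⟩ := mem_image.1 ha
    rw [mem_filter] at hg
    rw [sub_zero]
    exact (hS g hg.1).2

theorem disc2b (s : ℝ) (H : ℕ) (hs : 0 < s) (hH : 1 ≤ H) (S : Finset ((ℤ × ℤ) × (ℤ × ℤ)))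
    (hS : ∀ g ∈ S, g ∈ Box H ∧ s * H < |(g.1.1 : ℝ)| ∧
      |((g.1.1 * g.2.2 - g.1.2 * g.2.1 : ℤ) : ℝ)| ≤ s ^ 2 * (H : ℝ) ^ 2) :
    (S.card : ℝ) ≤ (2 * (H : ℝ) + 1) ^ 3 * (2 * (s * H) + 1) := by
  classical
  have hH0 : (0 : ℝ) < H := by exact_mod_cast hH
  refine card_fib H S (fun g => (g.2.1, g.1)) _ ?_ ?_
  · intro g hg
    have := mem_Box.1 (hS g hg).1
    rw [mem_product, mem_product, mem_II, mem_II, mem_II]
    exact ⟨this.2.1, this.1⟩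
  · intro z _
    have hcard : (S.filter (fun g => (g.2.1, g.1) = z)).card =
        ((S.filter (fun g => (g.2.1, g.1) = z)).image (fun g => g.2.2)).card := by
      rw [card_image_of_injOn]
      intro g hg g' hg' h
      rw [mem_coe, mem_filter] at hg hg'
      have e1 := hg.2.trans hg'.2.symm
      have e2 := congrArg Prod.fst e1
      have e3 := congrArg Prod.snd e1
      exact Prod.ext e3 (Prod.ext e2 h)
    rw [hcard]
    refine card_short _ ((z.2.2 : ℝ) * z.1 / z.2.1) _ (by positivity) ?_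
    intro a ha
    obtain ⟨g, hg, rfl⟩ := mem_image.1 ha
    rw [mem_filter] at hg
    obtain ⟨hg1, rfl⟩ := hg
    obtain ⟨-, h2, h3⟩ := hS g hg1
    have ha0 : 0 < |(g.1.1 : ℝ)| := lt_trans (by positivity) h2
    have ha1 : (g.1.1 : ℝ) ≠ 0 := abs_pos.1 ha0
    show |(g.2.2 : ℝ) - (g.1.2 : ℝ) * g.2.1 / g.1.1| ≤ s * H
    have e : (g.2.2 : ℝ) - (g.1.2 : ℝ) * g.2.1 / g.1.1 =
        ((g.1.1 * g.2.2 - g.1.2 * g.2.1 : ℤ) : ℝ) / g.1.1 := by
      push_cast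
      field_simp
    rw [e, abs_div, div_le_iff₀ ha0]
    refine h3.trans ?_
    calc s ^ 2 * (H : ℝ) ^ 2 = s * H * (s * H) := by ring
      _ ≤ s * H * |(g.1.1 : ℝ)| := mul_le_mul_of_nonneg_left h2.le (by positivity)

open Classical in
/-- The count of all bad matrices. -/
theorem bad_card (ξ ε κ c0 s c τ : ℝ) (H : ℕ) (hH : 1 ≤ H) (hε : 0 < ε) (hκ : 0 ≤ κ)
    (hs : 0 < s) (hs1 : s ≤ 1) (hc0 : 0 < c0) (hc : 0 < c) (hτ : 0 < τ)
    (hsmall : c0 / ell ε 0 ≤ s ^ 2 / (2 * (|ξ| + 1)))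
    (hroth : ∀ q : ℕ, 1 ≤ q → ∀ p : ℤ, c ≤ (q : ℝ) ^ (1 + τ) * |(q : ℝ) * ξ - p|) :
    (((Box H).filter (Bad ξ ε κ c0 H)).card : ℝ) ≤
      162 * s * (H : ℝ) ^ 4 + 81 * (H : ℝ) ^ 3 +
      41472 * ((|ξ| + 1) * c0 / (s ^ 2) ^ 2) * (∑' j : ℕ, 1 / ell ε j) * (H : ℝ) ^ 4 +
      (Nat.log 2 ⌊(H : ℝ) ^ κ⌋₊ + 1) *
        (1728 * √(3 * ((|ξ| + 1) * c0) * (6 * (H : ℝ) ^ (κ + 1) / s ^ 2) ^ τ /
          ((s ^ 2) ^ 2 * ell ε 0 * c)) *
        (H : ℝ) ^ 3 * (1 + Real.log (2 * (H : ℝ) ^ 2))) := by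
  have hHR : (1 : ℝ) ≤ H := by exact_mod_cast hH
  have hH0 : (0 : ℝ) < H := by linarith
  set S1 := (Box H).filter (fun g => |(g.2.1 : ℝ) * ξ + g.2.2| ≤ s * H) with hS1
  set S2 := (Box H).filter (fun g => |(g.1.1 : ℝ)| ≤ s * H) with hS2
  set S3 := (Box H).filter (fun g => s * H < |(g.1.1 : ℝ)| ∧
      |((g.1.1 * g.2.2 - g.1.2 * g.2.1 : ℤ) : ℝ)| ≤ s ^ 2 * (H : ℝ) ^ 2) with hS3
  have hsub : (Box H).filter (Bad ξ ε κ c0 H) ⊆
      S1 ∪ (S2 ∪ (S3 ∪ cover ξ ε κ c0 (s ^ 2) H)) := by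
    intro g hg
    rw [mem_filter] at hg
    obtain ⟨hgB, hbad⟩ := hg
    have hb := mem_Box.1 hgB
    rw [mem_union, mem_union, mem_union]
    by_cases h1 : |(g.2.1 : ℝ) * ξ + g.2.2| ≤ s * H
    · exact Or.inl (by rw [hS1, mem_filter]; exact ⟨hgB, h1⟩)
    by_cases h2 : |(g.1.1 : ℝ)| ≤ s * H
    · exact Or.inr (Or.inl (by rw [hS2, mem_filter]; exact ⟨hgB, h2⟩))
    by_cases h3 : |((g.1.1 * g.2.2 - g.1.2 * g.2.1 : ℤ) : ℝ)| ≤ s ^ 2 * (H : ℝ) ^ 2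
    · exact Or.inr (Or.inr (Or.inl (by
        rw [hS3, mem_filter]
        exact ⟨hgB, not_le.1 h2, h3⟩)))
    refine Or.inr (Or.inr (Or.inr ?_))
    refine mem_cover ξ ε κ c0 (s ^ 2) H hH hε (by positivity) hc0 hsmall g hb.1.1 hb.1.2 hb.2.1
      hb.2.2 (not_le.1 h3).le ?_ hbad
    have h4 := (not_le.1 h1).le
    refine le_trans ?_ h4
    have : s ^ 2 ≤ s := by nlinarith
    exact mul_le_mul_of_nonneg_right this hH0.le
  have hc1 := disc1 ξ s H hs.le S1 (fun g hg => by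
    rw [hS1, mem_filter] at hg
    exact hg)
  have hc2 := disc2a s H hs.le S2 (fun g hg => by
    rw [hS2, mem_filter] at hg
    exact hg)
  have hc3 := disc2b s H hs hH S3 (fun g hg => by
    rw [hS3, mem_filter] at hg
    exact ⟨hg.1, hg.2⟩)
  have hc4 := cover_card ξ ε κ c0 (s ^ 2) c τ H hH hε hκ (by positivity) hc0 hc hτ hroth
  have hcard : (((Box H).filter (Bad ξ ε κ c0 H)).card : ℝ) ≤
      (S1.card : ℝ) + (S2.card + (S3.card + (cover ξ ε κ c0 (s ^ 2) H).card)) := by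
    have h1 := card_le_card hsub
    have h2 := card_union_le S1 (S2 ∪ (S3 ∪ cover ξ ε κ c0 (s ^ 2) H))
    have h3 := card_union_le S2 (S3 ∪ cover ξ ε κ c0 (s ^ 2) H)
    have h4 := card_union_le S3 (cover ξ ε κ c0 (s ^ 2) H)
    have h5 : ((Box H).filter (Bad ξ ε κ c0 H)).card ≤
      S1.card + (S2.card + (S3.card + (cover ξ ε κ c0 (s ^ 2) H).card)) := by omega
    exact_mod_cast h5
  have hd : (2 * (H : ℝ) + 1) ^ 3 * (2 * (s * H) + 1) ≤ 54 * s * (H : ℝ) ^ 4 + 27 * (H : ℝ) ^ 3 := by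
    have h1 : (2 * (H : ℝ) + 1) ^ 3 ≤ (3 * (H : ℝ)) ^ 3 :=
      pow_le_pow_left₀ (by positivity) (by linarith) 3
    calc (2 * (H : ℝ) + 1) ^ 3 * (2 * (s * H) + 1) ≤ (3 * (H : ℝ)) ^ 3 * (2 * (s * H) + 1) :=
          mul_le_mul_of_nonneg_right h1 (by positivity)
      _ = 54 * s * (H : ℝ) ^ 4 + 27 * (H : ℝ) ^ 3 := by ring
  linarith

end Pool.Agent.R405.CF
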