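import Pool.Agent.R405.CF5

/-!
# Asymptotics, small heights, and cubic fields
-/

set_option autoImplicit false

namespace Pool.Agent.R405.CF

open Finset

theorem bad_mono (ξ ε κ κ' c0 c1 : ℝ) (H : ℕ) (hH : 1 ≤ H) (hκ : κ ≤ κ') (hc : c0 ≤ c1)
    (g : (ℤ × ℤ) × (ℤ × ℤ)) (h : Bad ξ ε κ c0 H g) : Bad ξ ε κ' c1 H g := by
  obtain ⟨h1, p, q, h2, h3, h4⟩ := h
  have hHR : (1 : ℝ) ≤ H := by exact_mod_cast hH
  refine ⟨h1, p, q, h2, h3.trans (Real.rpow_le_rpow_of_exponent_le hHR hκ), h4.trans ?_⟩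
  have h5 : (2 : ℝ) ≤ q := by exact_mod_cast h2
  have h6 : 0 < Real.log q := Real.log_pos (by linarith)
  exact div_le_div_of_nonneg_right hc (by positivity)

theorem det_ne {ξ : ℝ} (hirr : Irrational ξ) {c d : ℤ} (h : ¬ (c = 0 ∧ d = 0)) :
    (c : ℝ) * ξ + d ≠ 0 := by
  intro h0
  by_cases hc : c = 0
  · subst hc
    simp only [Int.cast_zero, zero_mul, zero_add, Int.cast_eq_zero] at h0
    exact h ⟨rfl, h0⟩
  · have h1 : (c : ℝ) ≠ 0 := by exact_mod_cast hc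
    apply hirr
    refine ⟨-(d : ℚ) / c, ?_⟩
    push_cast
    field_simp
    linarith

theorem moeb_irr {ξ : ℝ} (hirr : Irrational ξ) {a b c d : ℤ} (h : a * d - b * c ≠ 0) :
    Irrational (((a : ℝ) * ξ + b) / ((c : ℝ) * ξ + d)) := by
  have hm : (c : ℝ) * ξ + d ≠ 0 := det_ne hirr (by
    rintro ⟨rfl, rfl⟩
    simp at h)
  rintro ⟨r, hr⟩
  rw [eq_div_iff hm] at hr
  have h1 : ((a : ℝ) - r * c) * ξ = r * d - b := by linarith
  by_cases h2 : (a : ℝ) - r * c = 0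
  · rw [h2, zero_mul] at h1
    apply h
    have h3 : ((a * d - b * c : ℤ) : ℝ) = 0 := by
      push_cast
      have e1 : (a : ℝ) = r * c := by linarith
      have e2 : (b : ℝ) = r * d := by linarith
      rw [e1, e2]
      ring
    exact_mod_cast h3
  · apply hirr
    refine ⟨(r * d - b) / (a - r * c), ?_⟩
    push_cast
    rw [div_eq_iff h2]
    linarith

/-- For one height a small constant leaves no bad matrix. -/
theorem one_H (ξ : ℝ) (hirr : Irrational ξ) (κ ε : ℝ) (hε : 0 < ε) (H : ℕ) :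
    ∃ c : ℝ, 0 < c ∧ ∀ g ∈ Box H, ¬ Bad ξ ε κ c H g := by
  classical
  set N : ℕ := ⌊(H : ℝ) ^ κ⌋₊ with hN
  set x : (ℤ × ℤ) × (ℤ × ℤ) → ℝ := fun g =>
    ((g.1.1 : ℝ) * ξ + g.1.2) / ((g.2.1 : ℝ) * ξ + g.2.2) with hx
  set φ : ((ℤ × ℤ) × (ℤ × ℤ)) × ℕ → ℝ := fun z =>
    |(z.2 : ℝ) * x z.1 - round ((z.2 : ℝ) * x z.1)| / z.2 with hφ
  set F : Finset ℝ := insert 1 (((Box H ×ˢ Icc 2 N).image φ).filter (fun y => 0 < y)) with hF
  have hFne : F.Nonempty := insert_nonempty _ _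
  set m : ℝ := F.min' hFne with hm
  have hm0 : 0 < m := by
    have h1 := F.min'_mem hFne
    rw [← hm, hF, mem_insert, mem_filter] at h1
    rcases h1 with h1 | h1
    · rw [h1]
      exact one_pos
    · exact h1.2
  have hl2 := log2_pos
  refine ⟨m / 2 * Real.log 2 ^ (1 + ε), by positivity, ?_⟩
  rintro g hg ⟨hdet, p, q, hq2, hqκ, hcl⟩
  have hq0 : (0 : ℝ) < q := by
    have : 0 < q := by omega
    exact_mod_cast this
  have hq2R : (2 : ℝ) ≤ q := by exact_mod_cast hq2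
  have hxi : Irrational (x g) := moeb_irr hirr hdet
  have hpos : 0 < φ (g, q) := by
    simp only [hφ]
    apply div_pos _ hq0
    rw [abs_pos, sub_ne_zero]
    intro h0
    apply hxi
    refine ⟨(round ((q : ℝ) * x g) : ℚ) / q, ?_⟩
    push_cast
    rw [div_eq_iff hq0.ne']
    rw [← h0]
    ring
  have hmem : φ (g, q) ∈ F := by
    rw [hF, mem_insert, mem_filter]
    refine Or.inr ⟨mem_image_of_mem _ (mem_product.2 ⟨hg, mem_Icc.2 ⟨hq2, Nat.le_floor hqκ⟩⟩), hpos⟩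
  have h1 : m ≤ φ (g, q) := F.min'_le _ hmem
  have h2 : φ (g, q) ≤ |x g - (p : ℝ) / q| := by
    simp only [hφ]
    rw [div_le_iff₀ hq0]
    have h3 := round_le ((q : ℝ) * x g) p
    refine h3.trans (le_of_eq ?_)
    have e : (q : ℝ) * x g - p = (x g - (p : ℝ) / q) * q := by field_simp
    rw [e, abs_mul, Nat.abs_cast]
  have h3 : m / 2 * Real.log 2 ^ (1 + ε) / ((q : ℝ) ^ 2 * Real.log q ^ (1 + ε)) ≤ m / 2 := by
    have hlq : Real.log 2 ≤ Real.log q := Real.log_le_log (by norm_num) hq2R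
    have h4 : Real.log 2 ^ (1 + ε) ≤ Real.log q ^ (1 + ε) :=
      Real.rpow_le_rpow hl2.le hlq (by linarith)
    have h5 : (1 : ℝ) ≤ (q : ℝ) ^ 2 := one_le_pow₀ (by linarith)
    have h6 : 0 < Real.log q := lt_of_lt_of_le hl2 hlq
    have h7 : 0 < Real.log q ^ (1 + ε) := Real.rpow_pos_of_pos h6 _
    rw [div_le_iff₀ (by positivity)]
    refine mul_le_mul_of_nonneg_left ?_ (by positivity)
    nlinarith
  have h4 := hcl.trans h3
  have h5 : m ≤ m / 2 := (h1.trans h2).trans h4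
  linarith

theorem small_H (ξ : ℝ) (hirr : Irrational ξ) (κ ε : ℝ) (hε : 0 < ε) (H0 : ℕ) :
    ∃ c : ℝ, 0 < c ∧ ∀ H : ℕ, 1 ≤ H → H < H0 → ∀ g ∈ Box H, ¬ Bad ξ ε κ c H g := by
  induction H0 with
  | zero => exact ⟨1, one_pos, fun H _ h => by omega⟩
  | succ n ih =>
    obtain ⟨c, hc, h⟩ := ih
    obtain ⟨c', hc', h'⟩ := one_H ξ hirr κ ε hε n
    refine ⟨min c c', lt_min hc hc', ?_⟩
    intro H hH1 hHn g hg hbad
    rcases Nat.lt_succ_iff_lt_or_eq.1 hHn with h1 | h1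
    · exact h H hH1 h1 g hg (bad_mono ξ ε κ κ _ _ H hH1 le_rfl (min_le_left _ _) g hbad)
    · subst h1
      exact h' g hg (bad_mono ξ ε κ κ _ _ H hH1 le_rfl (min_le_right _ _) g hbad)

theorem large_H (ξ : ℝ)
    (hroth : ∀ τ : ℝ, 0 < τ → ∃ c : ℝ, 0 < c ∧ ∀ q : ℕ, 1 ≤ q → ∀ p : ℤ,
      c ≤ (q : ℝ) ^ (1 + τ) * |(q : ℝ) * ξ - p|) (κ ε η : ℝ) (hκ : 0 ≤ κ) (hε : 0 < ε)
    (hη : 0 < η) :
    ∃ c0 : ℝ, 0 < c0 ∧ ∃ H0 : ℕ, ∀ H : ℕ, 1 ≤ H → H0 ≤ H →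
      ∀ B : Finset ((ℤ × ℤ) × (ℤ × ℤ)), (∀ g ∈ B, g ∈ Box H ∧ Bad ξ ε κ c0 H g) →
      (B.card : ℝ) ≤ η * (H : ℝ) ^ 4 := by
  classical
  obtain ⟨c, hc, hr⟩ := hroth (1 / (κ + 1)) (by positivity)
  set τ : ℝ := 1 / (κ + 1) with hτ
  have hτ0 : 0 < τ := by rw [hτ]; positivity
  set K : ℝ := |ξ| + 1 with hK
  have hK0 : 0 < K := by rw [hK]; positivity
  set S : ℝ := ∑' j : ℕ, 1 / ell ε j with hS
  have hS0 : 0 ≤ S := tsum_nonneg fun j => (one_div_pos.2 (ell_pos ε j)).le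
  have hell0 := ell_pos ε 0
  set s : ℝ := min 1 (η / 648) with hs
  have hs0 : 0 < s := lt_min one_pos (by positivity)
  have hs1 : s ≤ 1 := min_le_left _ _
  have hs2 : 162 * s ≤ η / 4 := by
    have := min_le_right 1 (η / 648)
    rw [← hs] at this
    linarith
  set c0 : ℝ := min (s ^ 2 * ell ε 0 / (2 * K)) (η * (s ^ 2) ^ 2 / (165888 * K * (S + 1))) with hc0
  have hc00 : 0 < c0 := lt_min (by positivity) (by positivity)
  have hsmall : c0 / ell ε 0 ≤ s ^ 2 / (2 * K) := by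
    rw [div_le_iff₀ hell0]
    refine (min_le_left _ _).trans (le_of_eq ?_)
    ring
  have hthird : 41472 * (K * c0 / (s ^ 2) ^ 2) * S ≤ η / 4 := by
    have h1 : c0 ≤ η * (s ^ 2) ^ 2 / (165888 * K * (S + 1)) := min_le_right _ _
    calc 41472 * (K * c0 / (s ^ 2) ^ 2) * S ≤
          41472 * (K * (η * (s ^ 2) ^ 2 / (165888 * K * (S + 1))) / (s ^ 2) ^ 2) * S := by
          refine mul_le_mul_of_nonneg_right ?_ hS0
          refine mul_le_mul_of_nonneg_left ?_ (by norm_num)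
          exact div_le_div_of_nonneg_right (mul_le_mul_of_nonneg_left h1 hK0.le) (by positivity)
      _ = η / 4 * (S / (S + 1)) := by
          field_simp
          ring
      _ ≤ η / 4 * 1 := by
          refine mul_le_mul_of_nonneg_left ?_ (by positivity)
          rw [div_le_one (by positivity)]
          linarith
      _ = η / 4 := mul_one _
  set X : ℝ := 3 * (K * c0) * (6 / s ^ 2) ^ τ / ((s ^ 2) ^ 2 * ell ε 0 * c) with hX
  have hX0 : 0 < X := by rw [hX]; positivity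
  set Y : ℝ := 1728 * √X * (18 * (1 + 16 * κ)) with hY
  have hY0 : 0 < Y := by
    rw [hY]
    have := Real.sqrt_pos.2 hX0
    positivity
  refine ⟨c0, hc00, max ⌈324 / η⌉₊ ⌈(4 * Y / η + 1) ^ 8⌉₊, fun H hH hH0 B hB => ?_⟩
  have hHR : (1 : ℝ) ≤ H := by exact_mod_cast hH
  have hHpos : (0 : ℝ) < H := by linarith
  have hH1 : 324 / η ≤ H := (Nat.le_ceil _).trans (by exact_mod_cast (le_max_left _ _).trans hH0)
  have hH2 : (4 * Y / η + 1) ^ 8 ≤ H :=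
    (Nat.le_ceil _).trans (by exact_mod_cast (le_max_right _ _).trans hH0)
  have hcard := bad_card ξ ε κ c0 s c τ H hH hε hκ hs0 hs1 hc00 hc hτ0 hsmall hr
  rw [← hK, ← hS] at hcard
  have hBsub : (B.card : ℝ) ≤ (((Box H).filter (Bad ξ ε κ c0 H)).card : ℝ) := by
    have : B ⊆ (Box H).filter (Bad ξ ε κ c0 H) := by
      intro g hg
      rw [mem_filter]
      exact hB g hg
    exact_mod_cast card_le_card this
  -- the fourth term
  set t : ℝ := (H : ℝ) ^ ((1 : ℝ) / 8) with ht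
  have ht1 : 1 ≤ t := Real.one_le_rpow hHR (by norm_num)
  have ht0 : 0 < t := by linarith
  have ht8 : t ^ 8 = H := by
    rw [ht, ← Real.rpow_natCast, ← Real.rpow_mul hHpos.le]
    norm_num
  have hlog : Real.log H ≤ 8 * t := by
    have h1 := Real.log_le_rpow_div hHpos.le (by norm_num : (0 : ℝ) < 1 / 8)
    rw [← ht] at h1
    linarith
  have hlog0 : 0 ≤ Real.log H := Real.log_nonneg hHR
  have hJ : (Nat.log 2 ⌊(H : ℝ) ^ κ⌋₊ : ℝ) ≤ 2 * κ * Real.log H := by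
    have hHκ : (1 : ℝ) ≤ (H : ℝ) ^ κ := Real.one_le_rpow hHR hκ
    have h1 : 2 ^ (Nat.log 2 ⌊(H : ℝ) ^ κ⌋₊) ≤ ⌊(H : ℝ) ^ κ⌋₊ :=
      Nat.pow_log_le_self 2 (Nat.floor_pos.2 hHκ).ne'
    have h2 : ((2 : ℝ)) ^ (Nat.log 2 ⌊(H : ℝ) ^ κ⌋₊) ≤ (H : ℝ) ^ κ := by
      have h3 : ((2 ^ (Nat.log 2 ⌊(H : ℝ) ^ κ⌋₊) : ℕ) : ℝ) ≤ (⌊(H : ℝ) ^ κ⌋₊ : ℝ) := by
        exact_mod_cast h1
      have h4 := h3.trans (Nat.floor_le (by positivity))
      push_cast at h4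
      exact h4
    have h3 := Real.log_le_log (by positivity) h2
    rw [Real.log_pow, Real.log_rpow hHpos] at h3
    have h4 : (1 / 2 : ℝ) ≤ Real.log 2 := by
      have := Real.log_two_gt_d9
      linarith
    have h5 : (Nat.log 2 ⌊(H : ℝ) ^ κ⌋₊ : ℝ) * (1 / 2) ≤
        (Nat.log 2 ⌊(H : ℝ) ^ κ⌋₊ : ℝ) * Real.log 2 :=
      mul_le_mul_of_nonneg_left h4 (Nat.cast_nonneg _)
    linarith
  have hE : √(3 * (K * c0) * (6 * (H : ℝ) ^ (κ + 1) / s ^ 2) ^ τ / ((s ^ 2) ^ 2 * ell ε 0 * c)) =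
      √X * t ^ 4 := by
    have h1 : (6 * (H : ℝ) ^ (κ + 1) / s ^ 2) ^ τ = (6 / s ^ 2) ^ τ * H := by
      have e : 6 * (H : ℝ) ^ (κ + 1) / s ^ 2 = (6 / s ^ 2) * (H : ℝ) ^ (κ + 1) := by ring
      rw [e, Real.mul_rpow (by positivity) (by positivity), ← Real.rpow_mul hHpos.le]
      have e2 : (κ + 1) * τ = 1 := by
        rw [hτ]
        field_simp
      rw [e2, Real.rpow_one]
    rw [h1]
    have h2 : 3 * (K * c0) * ((6 / s ^ 2) ^ τ * (H : ℝ)) / ((s ^ 2) ^ 2 * ell ε 0 * c) =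
        X * (t ^ 4) ^ 2 := by
      rw [hX, ← ht8]
      ring
    rw [h2, Real.sqrt_mul hX0.le, Real.sqrt_sq (by positivity)]
  have hL2 : 1 + Real.log (2 * (H : ℝ) ^ 2) ≤ 18 * t := by
    rw [Real.log_mul (by norm_num) (by positivity), Real.log_pow]
    have h1 : Real.log 2 ≤ 1 := by
      have := Real.log_two_lt_d9
      linarith
    push_cast
    linarith
  have hfourth : (Nat.log 2 ⌊(H : ℝ) ^ κ⌋₊ + 1) *
        (1728 * √(3 * (K * c0) * (6 * (H : ℝ) ^ (κ + 1) / s ^ 2) ^ τ /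
          ((s ^ 2) ^ 2 * ell ε 0 * c)) *
        (H : ℝ) ^ 3 * (1 + Real.log (2 * (H : ℝ) ^ 2))) ≤ η / 4 * (H : ℝ) ^ 4 := by
    rw [hE]
    have hJ2 : ((Nat.log 2 ⌊(H : ℝ) ^ κ⌋₊ : ℝ) + 1) ≤ (1 + 16 * κ) * t := by
      have h1 : 2 * κ * Real.log H ≤ 2 * κ * (8 * t) :=
        mul_le_mul_of_nonneg_left hlog (by positivity)
      nlinarith
    have hsX := Real.sqrt_nonneg X
    have hLnn : 0 ≤ 1 + Real.log (2 * (H : ℝ) ^ 2) := by
      have : 0 ≤ Real.log (2 * (H : ℝ) ^ 2) := Real.log_nonneg (by nlinarith)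
      linarith
    have ht4 : 4 * Y / η + 1 ≤ t := by
      have h1 : (4 * Y / η + 1) ^ 8 ≤ t ^ 8 := by
        rw [ht8]
        exact hH2
      exact le_of_pow_le_pow_left₀ (by norm_num) ht0.le h1
    calc ((Nat.log 2 ⌊(H : ℝ) ^ κ⌋₊ : ℝ) + 1) * (1728 * (√X * t ^ 4) * (H : ℝ) ^ 3 *
          (1 + Real.log (2 * (H : ℝ) ^ 2))) ≤
          ((1 + 16 * κ) * t) * (1728 * (√X * t ^ 4) * (H : ℝ) ^ 3 * (18 * t)) := by
          refine mul_le_mul hJ2 ?_ (by positivity) (by positivity)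
          exact mul_le_mul_of_nonneg_left hL2 (by positivity)
      _ = Y * t ^ 30 := by
          rw [hY, ← ht8]
          ring
      _ ≤ η / 4 * t ^ 32 := by
          have h1 : Y ≤ η / 4 * t := by
            have : 4 * Y / η ≤ t := by linarith
            rw [div_le_iff₀ hη] at this
            linarith
          have h2 : t ≤ t ^ 2 := by nlinarith
          calc Y * t ^ 30 ≤ (η / 4 * t) * t ^ 30 := mul_le_mul_of_nonneg_right h1 (by positivity)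
            _ ≤ (η / 4 * t ^ 2) * t ^ 30 := by
              refine mul_le_mul_of_nonneg_right ?_ (by positivity)
              exact mul_le_mul_of_nonneg_left h2 (by positivity)
            _ = η / 4 * t ^ 32 := by ring
      _ = η / 4 * (H : ℝ) ^ 4 := by
          rw [← ht8]
          ring
  have hsecond : 81 * (H : ℝ) ^ 3 ≤ η / 4 * (H : ℝ) ^ 4 := by
    rw [div_le_iff₀ hη] at hH1
    have h3 : (0 : ℝ) < (H : ℝ) ^ 3 := by positivity
    calc 81 * (H : ℝ) ^ 3 = (324 / 4) * (H : ℝ) ^ 3 := by norm_num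
      _ ≤ (H * η / 4) * (H : ℝ) ^ 3 := by
          refine mul_le_mul_of_nonneg_right ?_ h3.le
          linarith
      _ = η / 4 * (H : ℝ) ^ 4 := by ring
  have hfirst : 162 * s * (H : ℝ) ^ 4 ≤ η / 4 * (H : ℝ) ^ 4 :=
    mul_le_mul_of_nonneg_right hs2 (by positivity)
  have hthird' : 41472 * (K * c0 / (s ^ 2) ^ 2) * S * (H : ℝ) ^ 4 ≤ η / 4 * (H : ℝ) ^ 4 :=
    mul_le_mul_of_nonneg_right hthird (by positivity)
  linarith

/-- The main count, for all heights. -/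
theorem main (ξ : ℝ) (hirr : Irrational ξ)
    (hroth : ∀ τ : ℝ, 0 < τ → ∃ c : ℝ, 0 < c ∧ ∀ q : ℕ, 1 ≤ q → ∀ p : ℤ,
      c ≤ (q : ℝ) ^ (1 + τ) * |(q : ℝ) * ξ - p|) (κ ε η : ℝ) (hε : 0 < ε) (hη : 0 < η) :
    ∃ c : ℝ, 0 < c ∧ ∀ H : ℕ, 1 ≤ H →
      ∀ B : Finset ((ℤ × ℤ) × (ℤ × ℤ)), (∀ g ∈ B, g ∈ Box H ∧ Bad ξ ε κ c H g) →
      (B.card : ℝ) ≤ η * (H : ℝ) ^ 4 := by
  obtain ⟨c0, hc0, H0, h0⟩ := large_H ξ hroth (max κ 0) ε η (le_max_right _ _) hε hη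
  obtain ⟨c1, hc1, h1⟩ := small_H ξ hirr κ ε hε H0
  refine ⟨min c0 c1, lt_min hc0 hc1, fun H hH B hB => ?_⟩
  rcases lt_or_ge H H0 with hlt | hge
  · have : B = ∅ := by
      rw [eq_empty_iff_forall_notMem]
      intro g hg
      obtain ⟨h2, h3⟩ := hB g hg
      exact h1 H hH hlt g h2 (bad_mono ξ ε κ κ _ _ H hH le_rfl (min_le_right _ _) g h3)
    rw [this, card_empty, Nat.cast_zero]
    positivity
  · exact h0 H hH hge B (fun g hg => ⟨(hB g hg).1,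
      bad_mono ξ ε κ _ _ _ H hH (le_max_left _ _) (min_le_left _ _) g (hB g hg).2⟩)

open IntermediateField in
/-- Every irrational element of a cubic field `ℚ(ξ)` is a Moebius image of `ξ`. -/
theorem cubic (ξ : ℝ) (hdeg : (minpoly ℚ ξ).natDegree = 3) (α : ℝ) (hα : α ∈ ℚ⟮ξ⟯)
    (hirr : Irrational α) :
    ∃ a b c d : ℤ, a * d - b * c ≠ 0 ∧ α = ((a : ℝ) * ξ + b) / ((c : ℝ) * ξ + d) := by
  have hint : IsIntegral ℚ ξ := by
    by_contra hcon
    rw [minpoly.eq_zero hcon] at hdeg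
    simp at hdeg
  have hξirr : Irrational ξ := by
    rintro ⟨r, hr⟩
    have h1 : minpoly ℚ ξ = Polynomial.X - Polynomial.C r := by
      rw [← hr]
      exact minpoly.eq_X_sub_C ℝ r
    rw [h1, Polynomial.natDegree_X_sub_C] at hdeg
    omega
  have hfin : Module.finrank ℚ ℚ⟮ξ⟯ = 3 := by
    rw [IntermediateField.adjoin.finrank hint, hdeg]
  have : FiniteDimensional ℚ ℚ⟮ξ⟯ := IntermediateField.adjoin.finiteDimensional hint
  set x : ℚ⟮ξ⟯ := AdjoinSimple.gen ℚ ξ with hx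
  set y : ℚ⟮ξ⟯ := ⟨α, hα⟩ with hy
  set v : Fin 4 → ℚ⟮ξ⟯ := ![1, x, y, y * x] with hv
  have hnot : ¬ LinearIndependent ℤ v := by
    intro hli
    have h1 : LinearIndependent ℚ v := (LinearIndependent.iff_fractionRing ℤ ℚ).1 hli
    have h2 := h1.fintype_card_le_finrank
    rw [hfin, Fintype.card_fin] at h2
    omega
  rw [Fintype.not_linearIndependent_iff] at hnot
  obtain ⟨g, hg, i, hi⟩ := hnot
  rw [Fin.sum_univ_four] at hg
  have hg2 : ((g 0 : ℤ) : ℝ) + (g 1 : ℝ) * ξ + (g 2 : ℝ) * α + (g 3 : ℝ) * (α * ξ) = 0 := by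
    have h1 := congrArg (fun z : ℚ⟮ξ⟯ => (z : ℝ)) hg
    simp only [hv, zsmul_eq_mul] at h1
    push_cast at h1
    simpa [hx, hy] using h1
  have hmne : ((g 3 : ℤ) : ℝ) * ξ + (g 2 : ℤ) ≠ 0 := by
    intro h0
    have h1 : g 3 = 0 ∧ g 2 = 0 := by
      by_contra hcon
      exact det_ne hξirr hcon h0
    have h2 : ((g 1 : ℤ) : ℝ) * ξ + (g 0 : ℤ) = 0 := by
      rw [h1.1, h1.2] at hg2
      push_cast at hg2
      linarith
    have h3 : g 1 = 0 ∧ g 0 = 0 := by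
      by_contra hcon
      exact det_ne hξirr hcon h2
    apply hi
    fin_cases i
    · exact h3.2
    · exact h3.1
    · exact h1.2
    · exact h1.1
  have hαeq : α = (((-g 1 : ℤ) : ℝ) * ξ + ((-g 0 : ℤ) : ℝ)) / (((g 3 : ℤ) : ℝ) * ξ + (g 2 : ℤ)) := by
    rw [eq_div_iff hmne]
    push_cast
    linarith
  refine ⟨-g 1, -g 0, g 3, g 2, ?_, hαeq⟩
  intro hdet
  have hdetR : (-(g 1 : ℝ)) * (g 2 : ℝ) - (-(g 0 : ℝ)) * (g 3 : ℝ) = 0 := by
    exact_mod_cast hdet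
  by_cases h3 : g 3 = 0
  · have h2 : (g 2 : ℝ) ≠ 0 := by
      intro h0
      apply hmne
      rw [h3, h0]
      simp
    have h1 : (g 1 : ℝ) = 0 := by
      rw [h3] at hdetR
      push_cast at hdetR
      rw [mul_zero, sub_zero] at hdetR
      rcases mul_eq_zero.1 hdetR with h | h
      · linarith
      · exact absurd h h2
    apply hirr
    refine ⟨-(g 0 : ℚ) / g 2, ?_⟩
    rw [hαeq, h3]
    push_cast
    rw [h1]
    simp
  · have h3R : (g 3 : ℝ) ≠ 0 := by exact_mod_cast h3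
    apply hirr
    refine ⟨-(g 1 : ℚ) / g 3, ?_⟩
    rw [hαeq]
    push_cast
    rw [div_eq_div_iff h3R hmne]
    linear_combination hdetR

end Pool.Agent.R405.CF
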