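import Mathlib
import Pool.Agent.R405.IQ3

/-!
The refined subspace theorem for points over fields of degree at most two with one archimedean place,
and multiplier ideals of real arrangements.
-/

set_option autoImplicit false
set_option linter.unusedSectionVars false

open Finset

namespace Pool.Agent.R405.IQ

open NumberField IsDedekindDomain Height Module MvPolynomial
open Pool.Agent.W180.OP (Pl av wt nrm le_nrm nrm_pos nrm_nonneg exists_nrm)

theorem iqS (N : ℕ) (hN : 1 ≤ N) {ι : Type} [Fintype ι] [DecidableEq ι] (K : Type) [Field K]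
    [NumberField K] (φ : K →+* ℝ) (H : ι → Fin N → K) (hH0 : ∀ l, H l ≠ 0) :
    ∃ Z : Finset (Fin N → ℚ), (∀ m ∈ Z, m ≠ 0) ∧ ∀ ε : ℝ, 0 < ε → ∃ C : ℝ,
      ∀ (L : Type) [Field L] [NumberField L], finrank ℚ L ≤ 2 → ∀ w : InfinitePlace L,
        (∀ w', w' = w) → ∀ x : Fin N → L, x ≠ 0 →
        (∀ m ∈ Z, ∑ j, algebraMap ℚ L (m j) * x j ≠ 0) →
        (∀ l, ∑ j, ((φ (H l j) : ℝ) : ℂ) * w.embedding (x j) ≠ 0) ∧
        ∀ β : Fin N → ι, (Matrix.of fun a => H (β a)).det ≠ 0 →
          ∑ a, (Real.log (nrm cabs fun j => w.embedding (x j)) -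
            Real.log (cabs (∑ j, ((φ (H (β a) j) : ℝ) : ℂ) * w.embedding (x j)))) ≤
          (N + ε) * (logHeight x / finrank ℚ L) + C := by
  classical
  set ψ : K →+* ℂ := Complex.ofRealHom.comp φ with hψ
  obtain ⟨M, hM1, hM2, hi, φ', hφ'⟩ := exists_big' K ψ
  have : NumberField M := ⟨⟩
  let _ : Algebra K M := φ'.toAlgebra
  let _ : Algebra K ℂ := ψ.toAlgebra
  set LM : ι → Fin N → M := fun l => exv M (H l) with hLM
  obtain ⟨Z0, hZ0, hmain⟩ := schV (k := ℚ) hi hN LM
  -- descend the forms to `ℚ`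
  have hwc0 : ∀ l, LM l ≠ 0 := fun l => exv_ne (hH0 l)
  have hdes : ∀ l, ∃ g : Fin N → ℚ, g ≠ 0 ∧ ∀ x : Fin N → ℚ,
      ∑ j, g j * x j ≠ 0 → ∑ j, LM l j * algebraMap ℚ M (x j) ≠ 0 := fun l =>
    descend (k := ℚ) (LM l) (hwc0 l)
  choose g hg0 hg using hdes
  -- the absolute value of `M`
  set w0 : InfinitePlace ℚ := default with hw0
  set f0 : AbsoluteValue M ℝ := (InfinitePlace.mk (M.val : M →+* ℂ)).1 with hf0
  have hf0a : ∀ y : M, f0 y = ‖(y : ℂ)‖ := fun y => rfl
  choose f1 hf1 using fun v : Pl ℚ => exists_good (K := M) v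
  set f : Pl ℚ → AbsoluteValue M ℝ := Function.update f1 (Sum.inl w0) f0 with hf
  have hfv : ∀ v ∈ ({Sum.inl w0} : Finset (Pl ℚ)), Good v (f v) := by
    intro v hv
    rw [Finset.mem_singleton] at hv
    subst hv
    rw [hf, Function.update_self]
    exact ⟨InfinitePlace.mk (M.val : M →+* ℂ), rat_inf_unique _ _, fun y => rfl⟩
  set Zall : Finset (Fin N → ℚ) := Z0 ∪ Finset.univ.image g with hZall
  refine ⟨Zall, ?_, fun ε hε => ?_⟩
  · intro m hm
    rcases Finset.mem_union.1 hm with hm | hm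
    · exact hZ0 m hm
    · obtain ⟨l, -, rfl⟩ := Finset.mem_image.1 hm
      exact hg0 l
  obtain ⟨C0, hC0, hsch⟩ := hmain {Sum.inl w0} f hfv ε hε
  set c0 : ℝ := 2 * (1 + (Zall.card + 1)) with hc0
  have hc0p : 0 < c0 := by positivity
  have hc01 : 1 ≤ c0 := by
    have : (0 : ℝ) ≤ Zall.card := Nat.cast_nonneg _
    linarith
  refine ⟨N * Real.log c0 + C0 + ε * Real.log c0, ?_⟩
  intro L _ _ hL w hw x hx hZx
  obtain ⟨ω, p, qv, c, τ, hω, hcω, hτ1, hτ2, hxe⟩ := shadow hL w hw x hx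
  have hht := height_ge w hw x hx ω hω c hcω
  set hh : ℝ := logHeight x / finrank ℚ L with hhh
  set X : Fin N → ℂ := fun j => w.embedding (x j) with hX
  have hσω : w.embedding ω ≠ 0 := (map_ne_zero _).2 hω
  have hnω : 0 < ‖w.embedding ω‖ := norm_pos_iff.2 hσω
  have hwx : ∀ y : L, w y = ‖w.embedding y‖ := fun y => (InfinitePlace.norm_embedding_eq w y).symm
  have hX0 : X ≠ 0 := by
    intro h
    apply hx
    funext j
    exact (map_eq_zero _).1 (congrFun h j)
  -- real forms at `X`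
  have hform : ∀ b : Fin N → ℝ, ∑ j, (b j : ℂ) * X j =
      w.embedding ω * (((∑ j, b j * p j : ℝ) : ℂ) * τ + ((∑ j, b j * qv j : ℝ) : ℂ)) := by
    intro b
    rw [hX]
    simp only [hxe]
    push_cast
    rw [Finset.sum_mul, ← Finset.sum_add_distrib, Finset.mul_sum]
    exact Finset.sum_congr rfl fun j _ => by ring
  have hboth : ∀ b : Fin N → ℝ, |∑ j, b j * p j| ≤ 2 * (‖∑ j, (b j : ℂ) * X j‖ / ‖w.embedding ω‖) ∧
      |∑ j, b j * qv j| ≤ 2 * (‖∑ j, (b j : ℂ) * X j‖ / ‖w.embedding ω‖) := by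
    intro b
    have h1 := both_le τ hτ1 hτ2 (∑ j, b j * p j) (∑ j, b j * qv j)
    have h2 : ‖∑ j, (b j : ℂ) * X j‖ / ‖w.embedding ω‖ =
        ‖((∑ j, b j * p j : ℝ) : ℂ) * τ + ((∑ j, b j * qv j : ℝ) : ℂ)‖ := by
      rw [hform b, norm_mul, mul_comm, mul_div_assoc, div_self hnω.ne', mul_one]
    rw [h2]
    exact h1
  -- the rational point
  obtain ⟨j0, hj0⟩ := Function.ne_iff.1 hX0
  set T : Finset (Fin N → ℚ) := insert (Pi.single j0 1) Zall with hT
  obtain ⟨s, hs, hsZ⟩ := avoid T (fun m => ∑ j, (m j : ℝ) * p j) (fun m => ∑ j, (m j : ℝ) * qv j)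
    (by
      intro m hm
      by_contra hcon
      push Not at hcon
      have h1 := hform (fun j => (m j : ℝ))
      rw [hcon.1, hcon.2] at h1
      simp only [Complex.ofReal_zero, zero_mul, add_zero, mul_zero] at h1
      rcases Finset.mem_insert.1 hm with rfl | hm
      · apply hj0
        rw [Finset.sum_eq_single j0] at h1
        · simpa using h1
        · intro i _ hij
          simp [Pi.single_eq_of_ne hij]
        · simp
      · apply hZx m hm
        apply (map_eq_zero w.embedding).1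
        rw [map_sum, ← h1]
        refine Finset.sum_congr rfl fun j _ => ?_
        rw [map_mul]
        congr 1
        simp)
  set z : Fin N → ℤ := fun j => qv j + s * p j with hz
  set zq : Fin N → ℚ := fun j => (z j : ℚ) with hzq
  have hzform : ∀ b : Fin N → ℝ, ∑ j, b j * (z j : ℝ) =
      ∑ j, b j * qv j + s * ∑ j, b j * p j := by
    intro b
    rw [Finset.mul_sum, ← Finset.sum_add_distrib]
    refine Finset.sum_congr rfl fun j _ => ?_
    rw [hz]
    push_cast
    ring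
  have hzb : ∀ b : Fin N → ℝ, |∑ j, b j * (z j : ℝ)| ≤
      c0 * (‖∑ j, (b j : ℂ) * X j‖ / ‖w.embedding ω‖) := by
    intro b
    rw [hzform b]
    obtain ⟨h1, h2⟩ := hboth b
    have h3 : |(s : ℝ) * ∑ j, b j * p j| = s * |∑ j, b j * p j| := by
      rw [abs_mul, abs_of_nonneg (Nat.cast_nonneg s)]
    have h4 : (s : ℝ) ≤ Zall.card + 1 := by exact_mod_cast hs.trans (Finset.card_insert_le _ _)
    have h5 : 0 ≤ ‖∑ j, (b j : ℂ) * X j‖ / ‖w.embedding ω‖ := by positivity
    calc _ ≤ |∑ j, b j * qv j| + |(s : ℝ) * ∑ j, b j * p j| := abs_add_le _ _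
      _ ≤ 2 * (‖∑ j, (b j : ℂ) * X j‖ / ‖w.embedding ω‖) +
          (Zall.card + 1) * (2 * (‖∑ j, (b j : ℂ) * X j‖ / ‖w.embedding ω‖)) := by
          rw [h3]
          exact add_le_add h2 (mul_le_mul h4 h1 (abs_nonneg _) (by positivity))
      _ = _ := by rw [hc0]; ring
  have hzT : ∀ m ∈ T, ∑ j, m j * zq j ≠ 0 := by
    intro m hm h0
    apply hsZ m hm
    rw [← hzform fun j => (m j : ℝ)]
    have h1 := congrArg (fun r : ℚ => (r : ℝ)) h0
    simp only [Rat.cast_sum, Rat.cast_mul, Rat.cast_zero] at h1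
    rw [← h1]
    exact Finset.sum_congr rfl fun j _ => by rw [hzq]; simp
  have hzZ : ∀ m ∈ Zall, ∑ j, m j * zq j ≠ 0 := fun m hm => hzT m (Finset.mem_insert_of_mem hm)
  have hzL : ∀ l, dot (LM l) (exv M zq) ≠ 0 := fun l =>
    hg l zq (hzZ _ (Finset.mem_union_right _ (Finset.mem_image_of_mem _ (Finset.mem_univ _))))
  have hz0 : zq ≠ 0 := by
    intro h
    apply hzT _ (Finset.mem_insert_self _ _)
    rw [h]
    simp
  -- values of the forms
  have hval : ∀ l, f0 (dot (LM l) (exv M zq)) = |∑ j, φ (H l j) * (z j : ℝ)| := by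
    intro l
    rw [hf0a, ← Real.norm_eq_abs, ← Complex.norm_real]
    congr 1
    unfold dot
    push_cast
    refine Finset.sum_congr rfl fun j _ => ?_
    congr 1
    exact hφ' _
  have hvalX : ∀ l, dot (exv ℂ (H l)) X = ∑ j, ((φ (H l j) : ℝ) : ℂ) * X j := fun l => rfl
  have hXl : ∀ l, dot (exv ℂ (H l)) X ≠ 0 := by
    intro l h0
    have h1 := hzb fun j => φ (H l j)
    rw [← hvalX l, h0, norm_zero, zero_div, mul_zero, ← hval l] at h1
    exact hzL l ((AbsoluteValue.eq_zero _).1 (le_antisymm h1 (f0.nonneg _)))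
  refine ⟨hXl, fun β hβ => ?_⟩
  have hβM : (Matrix.of fun a => LM (β a)).det ≠ 0 := by
    have h1 : (Matrix.of fun a => LM (β a)) =
        (algebraMap K M).mapMatrix (Matrix.of fun a => H (β a)) := by
      ext a j
      rfl
    rw [h1, ← RingHom.map_det]
    exact (map_ne_zero _).2 hβ
  have h1 := hsch zq hz0 (fun m hm => hzZ m (Finset.mem_union_left _ hm)) hzL (fun _ => β)
    (fun _ _ => hβM)
  have hwt : wt (Sum.inl w0 : Pl ℚ) = 1 := by
    have h2 := mult_eq w0 fun w' => rat_inf_unique w' w0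
    rw [finrank_self] at h2
    show (w0.mult : ℝ) = 1
    rw [h2, Nat.cast_one]
  have hfu : f (Sum.inl w0) = f0 := by rw [hf, Function.update_self]
  rw [Finset.sum_singleton, hwt, one_mul, hfu, Finset.sum_sub_distrib, Finset.sum_const,
    Finset.card_univ, Fintype.card_fin, nsmul_eq_mul] at h1
  have hzN : logHeight zq ≤ Real.log (nrm (av (Sum.inl w0)) zq) := height_int z hz0 w0
  have hznrm : nrm (av (Sum.inl w0)) zq ≤ c0 * (nrm cabs X / ‖w.embedding ω‖) := by
    refine Pool.Agent.W180.OP.nrm_le (by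
      have := nrm_nonneg cabs X
      positivity) fun j => ?_
    have h2 := hzb (Pi.single j 1)
    have h3 : ∑ i, (Pi.single j (1 : ℝ) : Fin N → ℝ) i * (z i : ℝ) = z j := by
      simp [Pi.single_apply]
    have h4 : ∑ i, (((Pi.single j (1 : ℝ) : Fin N → ℝ) i : ℝ) : ℂ) * X i = X j := by
      rw [Finset.sum_eq_single j]
      · simp
      · intro i _ hij
        simp [Pi.single_apply, hij]
      · simp
    rw [h3, h4] at h2
    have h5 : av (Sum.inl w0) (zq j) = |(z j : ℝ)| := by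
      show w0 (zq j) = _
      rw [hzq]
      simp [Int.norm_eq_abs]
    rw [h5]
    refine h2.trans (mul_le_mul_of_nonneg_left ?_ hc0p.le)
    exact div_le_div_of_nonneg_right (le_nrm cabs X j) hnω.le
  have hXN := nrm_pos cabs hX0
  have hzN2 : Real.log (nrm (av (Sum.inl w0)) zq) ≤
      Real.log c0 + (Real.log (nrm cabs X) - Real.log ‖w.embedding ω‖) := by
    have h2 := Real.log_le_log (nrm_pos _ hz0) hznrm
    rw [Real.log_mul hc0p.ne' (by positivity), Real.log_div hXN.ne' hnω.ne'] at h2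
    exact h2
  have hlogs : ∀ l, Real.log (f0 (dot (LM l) (exv M zq))) ≤
      Real.log c0 + Real.log (cabs (dot (exv ℂ (H l)) X)) - Real.log ‖w.embedding ω‖ := by
    intro l
    have h2 := hzb fun j => φ (H l j)
    rw [← hvalX l, ← hval l] at h2
    have h3 : 0 < ‖dot (exv ℂ (H l)) X‖ := norm_pos_iff.2 (hXl l)
    have h4 := Real.log_le_log (f0.pos_iff.2 (hzL l)) h2
    rw [Real.log_mul hc0p.ne' (by positivity), Real.log_div h3.ne' hnω.ne'] at h4
    rw [cabs_apply]
    linarith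
  have hsumlogs : ∑ a, Real.log (f0 (dot (LM (β a)) (exv M zq))) ≤
      ∑ a : Fin N, Real.log (cabs (dot (exv ℂ (H (β a))) X)) +
        N * (Real.log c0 - Real.log ‖w.embedding ω‖) := by
    have h2 := Finset.sum_le_sum fun a (_ : a ∈ (Finset.univ : Finset (Fin N))) => hlogs (β a)
    refine h2.trans (le_of_eq ?_)
    have h3 : ∀ a : Fin N, Real.log c0 + Real.log (cabs (dot (exv ℂ (H (β a))) X)) -
        Real.log ‖w.embedding ω‖ = Real.log (cabs (dot (exv ℂ (H (β a))) X)) +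
          (Real.log c0 - Real.log ‖w.embedding ω‖) := fun a => by ring
    rw [Finset.sum_congr rfl fun a _ => h3 a, Finset.sum_add_distrib, Finset.sum_const,
      Finset.card_univ, Fintype.card_fin, nsmul_eq_mul]
  have hsup : (⨆ j, w (x j)) = nrm cabs X := iSup_congr fun j => hwx (x j)
  have hhw : Real.log (w ω) = Real.log ‖w.embedding ω‖ := by rw [hwx]
  rw [hsup, hhw] at hht
  have hNn : (0 : ℝ) ≤ N := Nat.cast_nonneg _
  have hzh0 := logHeight_nonneg zq
  -- combine
  have e1 : (N : ℝ) * (Real.log (nrm cabs X) - Real.log ‖w.embedding ω‖) ≤ N * hh :=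
    mul_le_mul_of_nonneg_left hht hNn
  have e2 : (N : ℝ) * logHeight zq ≤ N * Real.log (nrm (av (Sum.inl w0)) zq) :=
    mul_le_mul_of_nonneg_left hzN hNn
  have e3 : ε * logHeight zq ≤ ε * (Real.log c0 + hh) :=
    mul_le_mul_of_nonneg_left (by linarith) hε.le
  have e4 : (N : ℝ) * (Real.log c0 - Real.log ‖w.embedding ω‖) =
      N * Real.log c0 - N * Real.log ‖w.embedding ω‖ := by ring
  rw [Finset.sum_sub_distrib, Finset.sum_const, Finset.card_univ, Fintype.card_fin, nsmul_eq_mul]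
  have e5 : ∑ a, Real.log (cabs (∑ j, ((φ (H (β a) j) : ℝ) : ℂ) * w.embedding (x j))) =
      ∑ a, Real.log (cabs (dot (exv ℂ (H (β a))) X)) := rfl
  have e6 : (nrm cabs fun j => w.embedding (x j)) = nrm cabs X := rfl
  rw [e5, e6]
  nlinarith

end Pool.Agent.R405.IQ
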