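import Mathlib
import Pool.Agent.R405.IQ4

/-!
Multiplier ideals of real arrangements at imaginary quadratic points.
-/

set_option autoImplicit false
set_option linter.unusedSectionVars false

open Finset

namespace Pool.Agent.R405.IQ

open NumberField IsDedekindDomain Height Module MvPolynomial
open Pool.Agent.W180.OP (Pl av wt nrm le_nrm nrm_pos nrm_nonneg exists_nrm)

theorem iqI (N : ℕ) (hN : 1 ≤ N) {ι : Type} [Fintype ι] [DecidableEq ι] (K : Type) [Field K]
    [NumberField K] (φ : K →+* ℝ) (L : ι → Fin N → K) (hL0 : ∀ l, L l ≠ 0) :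
    ∃ Z : Finset (Fin N → ℚ), (∀ z ∈ Z, z ≠ 0) ∧ ∀ (a : ℕ) (Fs : Fin a → MvPolynomial (Fin N) ℚ)
      (c : Fin a → K) (d : Fin a → ℕ) (σ : ∀ j, Fin (d j) → ι),
      (∀ j, map (algebraMap ℚ K) (Fs j) = C (c j) * ∏ s, lff (L (σ j s))) → (∃ j, Fs j ≠ 0) →
      ∀ (b : ℕ) (us : Fin b → MvPolynomial (Fin N) ℚ) (e : Fin b → ℕ),
      (∀ i, (us i).IsHomogeneous (e i)) → (∀ i, InMultV Fs (us i)) →
      ∀ ε : ℝ, 0 < ε → ∃ C : ℝ, ∀ (E : Type) [Field E] [NumberField E], finrank ℚ E ≤ 2 →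
        ∀ w : InfinitePlace E, (∀ w', w' = w) → ∀ x : Fin N → E, x ≠ 0 →
        (∀ z ∈ Z, ∑ j, algebraMap ℚ E (z j) * x j ≠ 0) → (∃ i, aeval x (us i) ≠ 0) →
        -Real.log (⨆ j, w (aeval x (Fs j)) / (⨆ i, w (x i)) ^ d j) -
          -Real.log (⨆ j, w (aeval x (us j)) / (⨆ i, w (x i)) ^ e j) ≤
          (N + ε) * (logHeight x / finrank ℚ E) + C := by
  classical
  set H : ι ⊕ Fin N → Fin N → K := Sum.elim L (fun i => Pi.single i 1) with hH
  have hH0 : ∀ l, H l ≠ 0 := by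
    intro l
    rcases l with l | i
    · exact hL0 l
    · intro h
      have := congrFun h i
      simp [hH] at this
  obtain ⟨Z, hZ, hmain⟩ := iqS N hN K φ H hH0
  refine ⟨Z, hZ, fun a Fs c d σ hfac hne b us e hus hm ε hε => ?_⟩
  obtain ⟨C0, hC0⟩ := hmain ε hε
  set ψ : K →+* ℂ := Complex.ofRealHom.comp φ with hψ
  let _ : Algebra K ℂ := ψ.toAlgebra
  set LC : ι ⊕ Fin N → Fin N → ℂ := fun l => exv ℂ (H l) with hLC
  have hspan : ∃ β : Fin N → ι ⊕ Fin N, (Matrix.of fun a => LC (β a)).det ≠ 0 := by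
    refine ⟨fun i => Sum.inr i, ?_⟩
    have h1 : (Matrix.of fun a => LC (Sum.inr a)) = (1 : Matrix (Fin N) (Fin N) ℂ) := by
      ext i j
      simp only [hLC, hH, exv, Matrix.of_apply, Sum.elim_inr]
      by_cases h : i = j
      · subst h; simp
      · rw [Pi.single_eq_of_ne (Ne.symm h), Matrix.one_apply_ne h, map_zero]
    rw [h1, Matrix.det_one]
    exact one_ne_zero
  have hdetK : ∀ β : Fin N → ι ⊕ Fin N, (Matrix.of fun a => LC (β a)).det ≠ 0 →
      (Matrix.of fun a => H (β a)).det ≠ 0 := by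
    intro β hβ h0
    apply hβ
    have h1 : (Matrix.of fun a => LC (β a)) =
        (algebraMap K ℂ).mapMatrix (Matrix.of fun a => H (β a)) := by
      ext a j
      rfl
    rw [h1, ← RingHom.map_det, h0, map_zero]
  have hfacC : ∀ j, map (algebraMap ℚ ℂ) (Fs j) =
      C (algebraMap K ℂ (c j)) * ∏ s, lff (LC (Sum.inl (σ j s))) := by
    intro j
    have h5 : (algebraMap ℚ ℂ) = (algebraMap K ℂ).comp (algebraMap ℚ K) := Subsingleton.elim _ _
    rw [h5, ← MvPolynomial.map_map, hfac, map_mul, map_prod, map_C]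
    congr 1
    exact Finset.prod_congr rfl fun s _ => map_lff _
  -- the local constants
  have hloc : ∀ (β : Fin N → ι ⊕ Fin N) (i : Fin b), ∃ C : ℝ, 0 ≤ C ∧
      ((Matrix.of fun a => LC (β a)).det ≠ 0 → ∀ x : Fin N → ℂ, x ≠ 0 →
      (∀ l, dot (LC l) x ≠ 0) →
      (∀ B' : Matrix (Fin N) (Fin N) ℂ, B' * (Matrix.of fun a => LC (β a)) = 1 →
        ∀ l i, Matrix.vecMul (LC l) B' i ≠ 0 → cabs (dot (LC (β i)) x) ≤ cabs (dot (LC l) x)) →
      aeval x (us i) ≠ 0 → 0 < ⨆ j, cabs (aeval x (Fs j)) / nrm cabs x ^ d j →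
      -Real.log (⨆ j, cabs (aeval x (Fs j)) / nrm cabs x ^ d j) ≤
        -Real.log (cabs (aeval x (us i)) / nrm cabs x ^ e i) +
        ∑ i, (Real.log (nrm cabs x) - Real.log (cabs (dot (LC (β i)) x))) + C) := by
    intro β i
    by_cases hβ : (Matrix.of fun a => LC (β a)).det ≠ 0
    · set A : Matrix (Fin N) (Fin N) ℂ := Matrix.of fun a => LC (β a) with hA
      have hu : IsUnit A.det := IsUnit.mk0 _ hβ
      have hB : A * A⁻¹ = 1 := Matrix.mul_nonsing_inv _ hu
      have hB2 : A⁻¹ * A = 1 := Matrix.nonsing_inv_mul _ hu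
      obtain ⟨C, hC, h⟩ := toricIneq (k := ℚ) cabs A A⁻¹ hB hB2 LC Fs
        (fun j => algebraMap K ℂ (c j)) d (fun j s => Sum.inl (σ j s)) hfacC (us i) (e i) (hus i)
        (hm i)
      exact ⟨C, hC, fun _ x hx hL hgr hux hs => h x hx (fun i => hL _)
        (fun l i hli => hgr A⁻¹ hB2 l i hli) hux hs⟩
    · exact ⟨0, le_rfl, fun h => absurd h hβ⟩
  choose C1 hC1' hC1 using hloc
  refine ⟨C0 + ∑ β, ∑ i, C1 β i, ?_⟩
  intro E _ _ hE w hw x hx hZx hux
  obtain ⟨hX, hS⟩ := hC0 E hE w hw x hx hZx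
  set X : Fin N → ℂ := fun j => w.embedding (x j) with hXdef
  have hwx : ∀ y : E, w y = ‖w.embedding y‖ := fun y => (InfinitePlace.norm_embedding_eq w y).symm
  have hX0 : X ≠ 0 := by
    intro h
    apply hx
    funext j
    exact (map_eq_zero _).1 (congrFun h j)
  have hXl : ∀ l, dot (LC l) X ≠ 0 := hX
  obtain ⟨β, hβ, hgr⟩ := greedy cabs LC hspan X hXl
  have h1 := hS β (hdetK β hβ)
  have hval : ∀ P : MvPolynomial (Fin N) ℚ, w (aeval x P) = cabs (aeval X P) := by
    intro P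
    rw [hwx, cabs_apply]
    have h2 : w.embedding (aeval x P) = aeval X P := by
      rw [aeval_def, aeval_def, eval₂_comp_left w.embedding]
      congr 1
      exact Subsingleton.elim _ _
    rw [h2]
  have hsup : (⨆ j, w (x j)) = nrm cabs X := iSup_congr fun j => hwx (x j)
  simp only [hval, hsup]
  have hXN := nrm_pos cabs hX0
  -- the generators do not vanish
  have hFx : ∃ j, aeval X (Fs j) ≠ 0 := by
    obtain ⟨j, hj⟩ := hne
    refine ⟨j, ?_⟩
    have h2 : aeval X (Fs j) = algebraMap K ℂ (c j) * ∏ s, dot (LC (Sum.inl (σ j s))) X := by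
      have h3 : aeval X (Fs j) = eval X (map (algebraMap ℚ ℂ) (Fs j)) := by
        rw [eval_map, aeval_def]
      rw [h3, hfacC, map_mul, eval_C, map_prod]
      congr 1
      exact Finset.prod_congr rfl fun s _ => eval_lff _ _
    have h4 : c j ≠ 0 := by
      intro h5
      apply hj
      apply map_injective _ (algebraMap ℚ K).injective
      rw [hfac, h5, C_0, zero_mul, map_zero]
    rw [h2]
    exact mul_ne_zero ((map_ne_zero _).2 h4) (Finset.prod_ne_zero_iff.2 fun s _ => hXl _)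
  have hb : 0 < b := by
    obtain ⟨i, _⟩ := hux
    exact Fin.pos i
  have : Nonempty (Fin b) := ⟨⟨0, hb⟩⟩
  obtain ⟨i, hi'⟩ := exists_eq_ciSup_of_finite
    (f := fun i : Fin b => cabs (aeval X (us i)) / nrm cabs X ^ e i)
  have hbdd : BddAbove (Set.range fun i : Fin b => cabs (aeval X (us i)) / nrm cabs X ^ e i) :=
    (Set.finite_range _).bddAbove
  have hpos : 0 < cabs (aeval X (us i)) / nrm cabs X ^ e i := by
    obtain ⟨i1, hi1⟩ := hux
    have h2 : 0 < cabs (aeval X (us i1)) / nrm cabs X ^ e i1 := by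
      refine div_pos ?_ (pow_pos hXN _)
      rw [← hval]
      exact w.pos_iff.2 hi1
    have h3 := le_ciSup hbdd i1
    rw [← hi'] at h3
    exact h2.trans_le h3
  have hui : aeval X (us i) ≠ 0 := by
    intro h0
    rw [h0, map_zero, zero_div] at hpos
    exact lt_irrefl _ hpos
  have hbddF : BddAbove (Set.range fun j : Fin a => cabs (aeval X (Fs j)) / nrm cabs X ^ d j) :=
    (Set.finite_range _).bddAbove
  have hFpos : 0 < ⨆ j, cabs (aeval X (Fs j)) / nrm cabs X ^ d j := by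
    obtain ⟨j, hj⟩ := hFx
    exact (div_pos (cabs.pos_iff.2 hj) (pow_pos hXN _)).trans_le (le_ciSup hbddF j)
  have h2 := hC1 β i hβ X hX0 hXl hgr hui hFpos
  rw [← hi']
  have h3 : C1 β i ≤ ∑ β, ∑ i, C1 β i := by
    have h4 : C1 β i ≤ ∑ i, C1 β i :=
      Finset.single_le_sum (f := fun i => C1 β i) (fun i _ => hC1' β i) (Finset.mem_univ i)
    exact h4.trans (Finset.single_le_sum (f := fun β => ∑ i, C1 β i)
      (fun β _ => Finset.sum_nonneg fun i _ => hC1' β i) (Finset.mem_univ β))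
  have h5 : ∑ i, (Real.log (nrm cabs X) - Real.log (cabs (dot (LC (β i)) X))) ≤
      (N + ε) * (logHeight x / finrank ℚ E) + C0 := h1
  linarith

end Pool.Agent.R405.IQ
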