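import Mathlib

/-! # Avoiding countably many relations on a Baire set -/

open Filter Topology

namespace Pool.Agent.R405.OC

/-- Let `Φ : X → E` be continuous and open onto its range, `X` a Baire space. Let `f k` be countably
many functions, continuous on the open sets `W k`, none of which vanishes on the range near a point
of `W k`. Then every open set which meets the range contains a point of the range at which no `f k`
vanishes. -/
theorem avoid {X E : Type*} [TopologicalSpace X] [BaireSpace X] [TopologicalSpace E]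
    {Φ : X → E} (hΦ : Continuous Φ)
    (hopen : ∀ x : X, ∀ U ∈ 𝓝 x, ∀ᶠ M in 𝓝 (Φ x), M ∈ Set.range Φ → ∃ y ∈ U, Φ y = M)
    {ι : Type*} [Countable ι] (W : ι → Set E) (f : ι → E → ℝ) (hW : ∀ k, IsOpen (W k))
    (hf : ∀ k, ContinuousOn (f k) (W k))
    (hz : ∀ k, ∀ M ∈ W k, M ∈ Set.range Φ → f k M = 0 →
      ¬ ∀ᶠ M' in 𝓝 M, M' ∈ Set.range Φ → f k M' = 0)
    {V : Set E} (hV : IsOpen V) (hVne : (V ∩ Set.range Φ).Nonempty) :
    ∃ M ∈ V, M ∈ Set.range Φ ∧ ∀ k, M ∈ W k → f k M ≠ 0 := by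
  set Z : ι → Set X := fun k => {x | Φ x ∈ W k ∧ f k (Φ x) = 0} with hZ
  have hO : ∀ k, IsOpen (closure (Z k))ᶜ := fun k => isClosed_closure.isOpen_compl
  have hD : ∀ k, Dense (closure (Z k))ᶜ := by
    intro k
    rw [← interior_eq_empty_iff_dense_compl]
    by_contra hne
    obtain ⟨x₁, hx₁⟩ := Set.nonempty_iff_ne_empty.2 hne
    obtain ⟨x, hxU, hxZ⟩ := mem_closure_iff.1 (interior_subset hx₁) _ isOpen_interior hx₁
    have hU' : IsOpen (interior (closure (Z k)) ∩ Φ ⁻¹' (W k)) :=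
      isOpen_interior.inter ((hW k).preimage hΦ)
    have hx' : x ∈ interior (closure (Z k)) ∩ Φ ⁻¹' (W k) := ⟨hxU, hxZ.1⟩
    have hzero : ∀ y ∈ interior (closure (Z k)) ∩ Φ ⁻¹' (W k), f k (Φ y) = 0 := by
      rintro y ⟨hy1, hy2⟩
      by_contra hne'
      have hc : ContinuousAt (fun y => f k (Φ y)) y :=
        ((hf k).continuousAt ((hW k).mem_nhds hy2)).comp hΦ.continuousAt
      have h1 : ∀ᶠ y' in 𝓝 y, f k (Φ y') ≠ 0 := hc.eventually_ne hne'
      obtain ⟨N, hN1, hN2, hN3⟩ := mem_nhds_iff.1 h1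
      obtain ⟨y', hy', hy''⟩ := mem_closure_iff.1 (interior_subset hy1) N hN2 hN3
      exact hN1 hy' hy''.2
    refine hz k (Φ x) hxZ.1 ⟨x, rfl⟩ hxZ.2 ?_
    filter_upwards [hopen x _ (hU'.mem_nhds hx')] with M hM hMr
    obtain ⟨y, hy, rfl⟩ := hM hMr
    exact hzero y hy
  have hdense := dense_iInter_of_isOpen hO hD
  obtain ⟨_, hMV, x₀, rfl⟩ := hVne
  obtain ⟨x, hx1, hx2⟩ := hdense.inter_open_nonempty (Φ ⁻¹' V) (hV.preimage hΦ) ⟨x₀, hMV⟩
  refine ⟨Φ x, hx1, ⟨x, rfl⟩, fun k hk h0 => ?_⟩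
  exact Set.mem_iInter.1 hx2 k (subset_closure ⟨hk, h0⟩)

end Pool.Agent.R405.OC
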