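import Mathlib
import Pool.Agent.R405.OC1

/-! # Polynomials over a countable field: analytic facts -/

open Filter Topology

namespace Pool.Agent.R405.OC

variable {n : ℕ}

/-- the value of a polynomial in the entries of a matrix -/
noncomputable def pv {K : Type*} [CommRing K] [Algebra K ℝ] (p : MvPolynomial (Fin n × Fin n) K)
    (M : Fin n → Fin n → ℝ) : ℝ :=
  MvPolynomial.aeval (fun q : Fin n × Fin n => M q.1 q.2) p

lemma pv_analytic {K : Type*} [CommRing K] [Algebra K ℝ] (p : MvPolynomial (Fin n × Fin n) K) :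
    AnalyticOnNhd ℝ (pv p) Set.univ := by
  have h := AnalyticOnNhd.aeval_mvPolynomial (𝕜 := ℝ) (E := Fin n → Fin n → ℝ)
    (f := fun (M : Fin n → Fin n → ℝ) (q : Fin n × Fin n) => M q.1 q.2) (s := Set.univ)
    (fun q => by
      have := ((ContinuousLinearMap.proj (R := ℝ) (φ := fun _ : Fin n => ℝ) q.2).comp
        (ContinuousLinearMap.proj (R := ℝ) (φ := fun _ : Fin n => (Fin n → ℝ)) q.1)).analyticOnNhd
          (Set.univ)
      exact this) p
  exact h

lemma pv_eq_zero {K : Type*} [Field K] [Algebra K ℝ] {p : MvPolynomial (Fin n × Fin n) K}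
    {M₀ : Fin n → Fin n → ℝ} (h : ∀ᶠ M in 𝓝 M₀, pv p M = 0) : p = 0 := by
  have h1 : Set.EqOn (pv p) 0 Set.univ :=
    (pv_analytic p).eqOn_zero_of_preconnected_of_eventuallyEq_zero isPreconnected_univ
      (Set.mem_univ M₀) h
  have h2 : MvPolynomial.map (algebraMap K ℝ) p = 0 := by
    refine MvPolynomial.funext fun x => ?_
    have h3 := h1 (Set.mem_univ (fun i j => x (i, j)))
    rw [map_zero, MvPolynomial.eval_map, ← MvPolynomial.aeval_def]
    exact h3
  exact MvPolynomial.map_injective _ (algebraMap K ℝ).injective (by rw [h2, map_zero])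

lemma countable_mv {K : Type*} [CommRing K] [Countable K] {σ : Type*} [Finite σ] :
    Countable (MvPolynomial σ K) := by
  have h1 : Cardinal.mk (MvPolynomial σ K) ≤ Cardinal.aleph0 := by
    refine (MvPolynomial.cardinalMk_le_max_lift (σ := σ) (R := K)).trans ?_
    refine max_le (max_le ?_ ?_) le_rfl
    · exact Cardinal.lift_le_aleph0.2 (Cardinal.mk_le_aleph0_iff.2 inferInstance)
    · exact Cardinal.lift_le_aleph0.2 (Cardinal.mk_le_aleph0_iff.2 inferInstance)
  exact Cardinal.mk_le_aleph0_iff.1 h1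

end Pool.Agent.R405.OC
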