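import Mathlib
import Pool.Agent.R405.OC2

/-! # Avoiding closed sets, and minimal relations -/

open Filter Topology

namespace Pool.Agent.R405.OC

/-- countably many closed nowhere dense sets -/
theorem avoid_closed {X E : Type*} [TopologicalSpace X] [BaireSpace X] [TopologicalSpace E]
    {Φ : X → E} (hΦ : Continuous Φ)
    (hopen : ∀ x : X, ∀ U ∈ 𝓝 x, ∀ᶠ M in 𝓝 (Φ x), M ∈ Set.range Φ → ∃ y ∈ U, Φ y = M)
    {ι : Type*} [Countable ι] (B : ι → Set E) (hB : ∀ k, IsClosed (B k))
    (hz : ∀ k, ∀ M ∈ B k, M ∈ Set.range Φ → ¬ ∀ᶠ M' in 𝓝 M, M' ∈ Set.range Φ → M' ∈ B k)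
    {V : Set E} (hV : IsOpen V) (hVne : (V ∩ Set.range Φ).Nonempty) :
    ∃ M ∈ V, M ∈ Set.range Φ ∧ ∀ k, M ∉ B k := by
  have hO : ∀ k, IsOpen (Φ ⁻¹' (B k))ᶜ := fun k => ((hB k).preimage hΦ).isOpen_compl
  have hD : ∀ k, Dense (Φ ⁻¹' (B k))ᶜ := by
    intro k
    rw [← interior_eq_empty_iff_dense_compl]
    by_contra hne
    obtain ⟨x, hx⟩ := Set.nonempty_iff_ne_empty.2 hne
    have hx' : x ∈ Φ ⁻¹' (B k) := interior_subset hx
    refine hz k (Φ x) hx' ⟨x, rfl⟩ ?_
    filter_upwards [hopen x _ (isOpen_interior.mem_nhds hx)] with M hM hMr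
    obtain ⟨y, hy, rfl⟩ := hM hMr
    have hy' : y ∈ Φ ⁻¹' (B k) := interior_subset hy
    exact hy'
  have hdense := dense_iInter_of_isOpen hO hD
  obtain ⟨_, hMV, x₀, rfl⟩ := hVne
  obtain ⟨x, hx1, hx2⟩ := hdense.inter_open_nonempty (Φ ⁻¹' V) (hV.preimage hΦ) ⟨x₀, hMV⟩
  exact ⟨Φ x, hx1, ⟨x, rfl⟩, fun k => Set.mem_iInter.1 hx2 k⟩

variable {σ : Type*} {K : Type*} [Field K] [CharZero K]

lemma totalDegree_pderiv_lt {P : MvPolynomial σ K} {q : σ} (h : MvPolynomial.pderiv q P ≠ 0) :
    (MvPolynomial.pderiv q P).totalDegree < P.totalDegree := by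
  classical
  have hne : (MvPolynomial.pderiv q P).support.Nonempty := MvPolynomial.support_nonempty.2 h
  obtain ⟨m, hm, hmd⟩ := Finset.exists_mem_eq_sup _ hne (fun s => s.sum fun _ e => e)
  have h1 : (MvPolynomial.pderiv q P).totalDegree = m.sum fun _ e => e := hmd
  have h2 : MvPolynomial.coeff m (MvPolynomial.pderiv q P) ≠ 0 := MvPolynomial.mem_support_iff.1 hm
  rw [MvPolynomial.coeff_pderiv] at h2
  have h3 : m + Finsupp.single q 1 ∈ P.support :=
    MvPolynomial.mem_support_iff.2 fun h0 => h2 (by rw [h0]; simp)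
  have h4 := MvPolynomial.le_totalDegree h3
  rw [Finsupp.sum_add_index' (fun _ => rfl) (fun _ _ _ => rfl), Finsupp.sum_single_index rfl] at h4
  omega

lemma coeff_eq_zero_of_pderiv {P : MvPolynomial σ K} {q : σ} (h : MvPolynomial.pderiv q P = 0)
    {m : σ →₀ ℕ} (hm : m q ≠ 0) : MvPolynomial.coeff m P = 0 := by
  classical
  have h1 := congrArg (MvPolynomial.coeff (m - Finsupp.single q 1)) h
  rw [MvPolynomial.coeff_pderiv, MvPolynomial.coeff_zero] at h1
  have h2 : m - Finsupp.single q 1 + Finsupp.single q 1 = m := by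
    refine tsub_add_cancel_of_le ?_
    rw [Finsupp.single_le_iff]
    omega
  rw [h2] at h1
  rcases mul_eq_zero.1 h1 with h3 | h3
  · exact h3
  · exfalso
    exact Nat.cast_add_one_ne_zero _ h3

/-- a relation between `x q₀` and the `x q`, `q ∈ B`, whose derivative at `q₀` is not zero -/
lemma exists_rel {σ : Type*} [DecidableEq σ] {x : σ → ℝ} {K : Type*} [Field K] [CharZero K]
    [Algebra K ℝ] {B : Finset σ}
    (hB : AlgebraicIndependent K (fun q : B => x q)) {q₀ : σ}
    (hmax : ¬ AlgebraicIndependent K (fun q : (insert q₀ B : Finset σ) => x q)) :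
    ∃ P : MvPolynomial σ K, MvPolynomial.aeval x P = 0 ∧
      (∀ q, q ≠ q₀ → q ∉ B → MvPolynomial.pderiv q P = 0) ∧
      MvPolynomial.aeval x (MvPolynomial.pderiv q₀ P) ≠ 0 := by
  classical
  set B' : Finset σ := insert q₀ B with hB'
  set y : B' → ℝ := fun q => x q with hy
  have hex : ∃ d : ℕ, ∃ P : MvPolynomial B' K, P ≠ 0 ∧ MvPolynomial.aeval y P = 0 ∧
      P.totalDegree = d := by
    rw [algebraicIndependent_iff] at hmax
    push Not at hmax
    obtain ⟨P, h1, h2⟩ := hmax
    exact ⟨_, P, h2, h1, rfl⟩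
  obtain ⟨P, hP0, hPy, hPd⟩ := Nat.find_spec hex
  have hmin : ∀ Q : MvPolynomial B' K, Q.totalDegree < P.totalDegree →
      MvPolynomial.aeval y Q = 0 → Q = 0 := by
    intro Q hQ hQy
    by_contra hQ0
    rw [hPd] at hQ
    exact Nat.find_min hex hQ ⟨Q, hQ0, hQy, rfl⟩
  have hq₀ : q₀ ∈ B' := Finset.mem_insert_self _ _
  have hxy : ∀ Q : MvPolynomial B' K, MvPolynomial.aeval x (MvPolynomial.rename Subtype.val Q) =
      MvPolynomial.aeval y Q := by
    intro Q
    rw [MvPolynomial.aeval_rename]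
    rfl
  refine ⟨MvPolynomial.rename Subtype.val P, by rw [hxy, hPy], ?_, ?_⟩
  · intro q hq hqB
    refine MvPolynomial.pderiv_eq_zero_of_notMem_vars fun hv => ?_
    have h1 := MvPolynomial.vars_rename _ _ hv
    rw [Finset.mem_image] at h1
    obtain ⟨q', -, rfl⟩ := h1
    rcases Finset.mem_insert.1 q'.2 with h | h
    · exact hq h
    · exact hqB h
  · have h1 : MvPolynomial.pderiv q₀ (MvPolynomial.rename Subtype.val P) =
        MvPolynomial.rename Subtype.val (MvPolynomial.pderiv (⟨q₀, hq₀⟩ : B') P) :=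
      MvPolynomial.pderiv_rename Subtype.val_injective (⟨q₀, hq₀⟩ : B') P
    rw [h1, hxy]
    intro h2
    have h3 : MvPolynomial.pderiv (⟨q₀, hq₀⟩ : B') P = 0 := by
      by_contra hne
      exact hne (hmin _ (totalDegree_pderiv_lt hne) h2)
    have hvars : (P.vars : Set B') ⊆
        Set.range (fun q : B => (⟨q, Finset.mem_insert_of_mem q.2⟩ : B')) := by
      intro v hv
      rcases Finset.mem_insert.1 v.2 with h | h
      · exfalso
        have hv' : v ∈ P.vars := hv
        rw [MvPolynomial.mem_vars] at hv'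
        obtain ⟨m, hm, hvm⟩ := hv'
        have hve : v = ⟨q₀, hq₀⟩ := Subtype.ext h
        rw [hve] at hvm
        exact (MvPolynomial.mem_support_iff.1 hm)
          (coeff_eq_zero_of_pderiv h3 (Finsupp.mem_support_iff.1 hvm))
      · exact ⟨⟨v, h⟩, rfl⟩
    obtain ⟨Q, hQ⟩ := MvPolynomial.exists_rename_eq_of_vars_subset_range P
      (fun q : B => (⟨q, Finset.mem_insert_of_mem q.2⟩ : B'))
      (fun a b hab => Subtype.ext (by
        have h := congrArg (fun v : B' => (v : σ)) hab
        exact h)) hvars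
    have h4 : MvPolynomial.aeval (fun q : B => x q) Q = 0 := by
      rw [← hQ, MvPolynomial.aeval_rename] at hPy
      exact hPy
    have h5 := algebraicIndependent_iff.1 hB Q h4
    rw [h5, map_zero] at hQ
    exact hP0 hQ.symm

/-- the derivative of a polynomial in the entries -/
lemma pv_hasFDerivAt {n : ℕ} {K : Type*} [Field K] [Algebra K ℝ]
    (P : MvPolynomial (Fin n × Fin n) K) (M : Fin n → Fin n → ℝ) :
    HasFDerivAt (pv P) (∑ q : Fin n × Fin n, pv (MvPolynomial.pderiv q P) M •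
      ((ContinuousLinearMap.proj (R := ℝ) (φ := fun _ : Fin n => ℝ) q.2).comp
        (ContinuousLinearMap.proj (R := ℝ) (φ := fun _ : Fin n => (Fin n → ℝ)) q.1))) M := by
  classical
  induction P using MvPolynomial.induction_on with
  | C a =>
    have h1 : (pv (MvPolynomial.C a : MvPolynomial (Fin n × Fin n) K)) = fun _ => algebraMap K ℝ a := by
      funext M'
      simp [pv]
    rw [h1]
    have h2 : ∀ q : Fin n × Fin n,
        pv (MvPolynomial.pderiv q (MvPolynomial.C a : MvPolynomial (Fin n × Fin n) K)) M = 0 := by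
      intro q
      simp [pv]
    simp only [h2, zero_smul, Finset.sum_const_zero]
    exact hasFDerivAt_const _ _
  | add P Q hP hQ =>
    have h1 : pv (P + Q) = fun M' => pv P M' + pv Q M' := by
      funext M'
      simp [pv]
    rw [h1]
    have h2 := hP.add hQ
    rw [← Finset.sum_add_distrib] at h2
    refine h2.congr_fderiv (Finset.sum_congr rfl fun q _ => ?_)
    rw [← add_smul]
    simp [pv]
  | mul_X P q₀ hP =>
    have h1 : pv (P * MvPolynomial.X q₀) = fun M' => pv P M' * M' q₀.1 q₀.2 := by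
      funext M'
      simp [pv]
    rw [h1]
    have h3 : HasFDerivAt (fun M' : Fin n → Fin n → ℝ => M' q₀.1 q₀.2)
        ((ContinuousLinearMap.proj (R := ℝ) (φ := fun _ : Fin n => ℝ) q₀.2).comp
        (ContinuousLinearMap.proj (R := ℝ) (φ := fun _ : Fin n => (Fin n → ℝ)) q₀.1)) M :=
      ((ContinuousLinearMap.proj (R := ℝ) (φ := fun _ : Fin n => ℝ) q₀.2).comp
        (ContinuousLinearMap.proj (R := ℝ) (φ := fun _ : Fin n => (Fin n → ℝ)) q₀.1)).hasFDerivAt
    have h2 := hP.mul h3
    refine h2.congr_fderiv ?_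
    ext v
    simp only [ContinuousLinearMap.add_apply, ContinuousLinearMap.smul_apply, smul_eq_mul,
      ContinuousLinearMap.sum_apply, ContinuousLinearMap.comp_apply, ContinuousLinearMap.proj_apply]
    have h4 : ∀ q : Fin n × Fin n, pv (MvPolynomial.pderiv q (P * MvPolynomial.X q₀)) M =
        pv (MvPolynomial.pderiv q P) M * M q₀.1 q₀.2 + (if q = q₀ then pv P M else 0) := by
      intro q
      rw [MvPolynomial.pderiv_mul, MvPolynomial.pderiv_X]
      by_cases h : q = q₀
      · subst h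
        simp [pv]
      · rw [if_neg h, Pi.single_eq_of_ne (fun h' => h h'.symm)]
        simp [pv]
    simp only [h4, add_mul, Finset.sum_add_distrib, ite_mul, zero_mul, Finset.sum_ite_eq',
      Finset.mem_univ, if_true]
    rw [Finset.mul_sum, add_comm]
    congr 1
    exact Finset.sum_congr rfl fun q _ => by ring

/-- **Independent entries.** If the relations between the entries of a regular matrix are stable
under the derivations `row j → row i`, `j ∈ cls i`, then there are independent entries, at least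
`p` in each row. -/
theorem exists_indep {n : ℕ} {M : Fin n → Fin n → ℝ} (hM : LinearIndependent ℝ M)
    {K : Type*} [Field K] [CharZero K] [Algebra K ℝ] (cls : Fin n → Finset (Fin n)) (p : ℕ)
    (hcls : ∀ i, p ≤ (cls i).card)
    (hder : ∀ P : MvPolynomial (Fin n × Fin n) K, pv P M = 0 → ∀ i, ∀ j ∈ cls i,
      ∑ b, M j b * pv (MvPolynomial.pderiv (i, b) P) M = 0) :
    ∃ B : Finset (Fin n × Fin n), AlgebraicIndependent K (fun q : B => M q.1.1 q.1.2) ∧
      ∀ i, p ≤ (Finset.univ.filter (fun b => (i, b) ∈ B)).card := by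
  classical
  set x : Fin n × Fin n → ℝ := fun q => M q.1 q.2 with hx
  set 𝓑 : Finset (Finset (Fin n × Fin n)) :=
    Finset.univ.filter (fun B => AlgebraicIndependent K (fun q : B => x q)) with h𝓑
  have hne : 𝓑.Nonempty := by
    refine ⟨∅, ?_⟩
    rw [h𝓑, Finset.mem_filter]
    refine ⟨Finset.mem_univ _, ?_⟩
    have : IsEmpty ((∅ : Finset (Fin n × Fin n)) : Type) :=
      ⟨fun q => absurd q.2 (Finset.notMem_empty _)⟩
    exact algebraicIndependent_empty_type_iff.2 (algebraMap K ℝ).injective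
  obtain ⟨B, hB𝓑, hBmax⟩ := Finset.exists_max_image 𝓑 Finset.card hne
  have hB : AlgebraicIndependent K (fun q : B => x q) := (Finset.mem_filter.1 hB𝓑).2
  refine ⟨B, hB, fun i => ?_⟩
  by_contra hlt
  push Not at hlt
  set Bi : Finset (Fin n) := Finset.univ.filter (fun b => (i, b) ∈ B) with hBi
  set T : ((cls i) → ℝ) →ₗ[ℝ] (Bi → ℝ) :=
    { toFun := fun l b => ∑ j : cls i, l j * M j b
      map_add' := fun l m => by
        funext b
        simp only [Pi.add_apply, add_mul, Finset.sum_add_distrib]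
      map_smul' := fun c l => by
        funext b
        simp only [Pi.smul_apply, smul_eq_mul, RingHom.id_apply, Finset.mul_sum, mul_assoc] } with hT
  have hker : LinearMap.ker T ≠ ⊥ := by
    refine LinearMap.ker_ne_bot_of_finrank_lt ?_
    simp only [Module.finrank_fintype_fun_eq_card, Fintype.card_coe]
    exact lt_of_lt_of_le hlt (hcls i)
  obtain ⟨l, hl, hl0⟩ := (Submodule.ne_bot_iff _).1 hker
  have hl1 : ∀ b ∈ Bi, ∑ j : cls i, l j * M j b = 0 := fun b hb =>
    congrFun (LinearMap.mem_ker.1 hl) ⟨b, hb⟩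
  -- the combination is not zero
  obtain ⟨b₀, hb₀⟩ : ∃ b₀, ∑ j : cls i, l j * M j b₀ ≠ 0 := by
    by_contra hcon
    push Not at hcon
    have h1 : LinearIndependent ℝ (fun j : cls i => M j) :=
      hM.comp _ Subtype.val_injective
    have h2 := Fintype.linearIndependent_iff.1 h1 l (by
      funext b
      rw [Finset.sum_apply]
      simp only [Pi.smul_apply, smul_eq_mul, Pi.zero_apply]
      exact hcon b)
    exact hl0 (funext h2)
  have hb₀B : (i, b₀) ∉ B := fun h =>
    hb₀ (hl1 b₀ (Finset.mem_filter.2 ⟨Finset.mem_univ _, h⟩))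
  have hmax : ¬ AlgebraicIndependent K (fun q : (insert (i, b₀) B : Finset (Fin n × Fin n)) => x q) := by
    intro h
    have h1 := hBmax _ (Finset.mem_filter.2 ⟨Finset.mem_univ _, h⟩)
    rw [Finset.card_insert_of_notMem hb₀B] at h1
    omega
  obtain ⟨P, hP1, hP2, hP3⟩ := exists_rel hB hmax
  have h1 : ∀ j : cls i, ∑ b, M j b * pv (MvPolynomial.pderiv (i, b) P) M = 0 := fun j =>
    hder P hP1 i j j.2
  have h2 : ∑ j : cls i, l j * ∑ b, M j b * pv (MvPolynomial.pderiv (i, b) P) M = 0 :=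
    Finset.sum_eq_zero fun j _ => by rw [h1 j, mul_zero]
  have h3 : ∑ b, (∑ j : cls i, l j * M j b) * pv (MvPolynomial.pderiv (i, b) P) M = 0 := by
    rw [← h2]
    simp only [Finset.sum_mul, Finset.mul_sum]
    rw [Finset.sum_comm]
    refine Finset.sum_congr rfl fun j _ => Finset.sum_congr rfl fun b _ => by ring
  rw [Finset.sum_eq_single b₀] at h3
  · rcases mul_eq_zero.1 h3 with h4 | h4
    · exact hb₀ h4
    · exact hP3 h4
  · intro b _ hb
    by_cases hbB : (i, b) ∈ B
    · rw [hl1 b (Finset.mem_filter.2 ⟨Finset.mem_univ _, hbB⟩), zero_mul]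
    · rw [hP2 (i, b) (fun h => hb (congrArg Prod.snd h)) hbB]
      simp [pv]
  · intro h
    exact absurd (Finset.mem_univ b₀) h

end Pool.Agent.R405.OC
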