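import Mathlib

/-!
Products of projective lines: fibres and divisors of bidegree (1,1), algebraic part.
-/

set_option autoImplicit false
set_option linter.unusedSectionVars false

open Finset

namespace Pool.Agent.R405.PP

/-- fibres and divisors of bidegree (1,1) in two (maybe equal) coordinates -/
inductive Cp (V K : Type) : Type where
  | mk (i : V) (a : Fin 2 → K) : Cp V K
  | bl (i j : V) (A : Matrix (Fin 2) (Fin 2) K) : Cp V K

variable {V K : Type} [Fintype V] [DecidableEq V] [Field K]

/-- the value at a point over an extension -/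
def Cp.val {L : Type} [Field L] [Algebra K L] (c : Cp V K) (y : V → Fin 2 → L) : L :=
  match c with
  | .mk i a => ∑ b, algebraMap K L (a b) * y i b
  | .bl i j A => ∑ b, ∑ c, algebraMap K L (A b c) * y i b * y j c

/-- the derivatives in the directions `z` -/
def Cp.der {L : Type} [Field L] [Algebra K L] (c : Cp V K) (y z : V → Fin 2 → L) : V → L :=
  match c with
  | .mk i a => Pi.single i (∑ b, algebraMap K L (a b) * z i b)
  | .bl i j A => Pi.single i (∑ b, ∑ c, algebraMap K L (A b c) * z i b * y j c) +
      Pi.single j (∑ b, ∑ c, algebraMap K L (A b c) * y i b * z j c)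

/-- substitution -/
def Cp.sub (τ : V → V) (M : V → Matrix (Fin 2) (Fin 2) K) (c : Cp V K) : Cp V K :=
  match c with
  | .mk i a => .mk (τ i) (fun c => ∑ b, a b * M i b c)
  | .bl i j A => .bl (τ i) (τ j) ((M i).transpose * A * M j)

/-- the substitution on points -/
def mv {L : Type} [Field L] [Algebra K L] (τ : V → V) (M : V → Matrix (Fin 2) (Fin 2) K)
    (y : V → Fin 2 → L) : V → Fin 2 → L := fun m b => ∑ c, algebraMap K L (M m b c) * y (τ m) c

/-- the dual map -/
def push {L : Type} [Field L] (τ : V → V) (w : V → L) : V → L :=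
  fun m => ∑ i, if τ i = m then w i else 0

theorem push_add {L : Type} [Field L] (τ : V → V) (w w' : V → L) :
    push τ (w + w') = push τ w + push τ w' := by
  funext m
  simp only [push, Pi.add_apply]
  rw [← Finset.sum_add_distrib]
  refine Finset.sum_congr rfl fun i _ => ?_
  split_ifs <;> simp

theorem push_smul {L : Type} [Field L] (τ : V → V) (c : L) (w : V → L) :
    push τ (c • w) = c • push τ w := by
  funext m
  simp only [push, Pi.smul_apply, smul_eq_mul, Finset.mul_sum]
  refine Finset.sum_congr rfl fun i _ => ?_
  split_ifs <;> simp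

theorem push_sum {L : Type} [Field L] {α : Type} (s : Finset α) (τ : V → V) (w : α → V → L) :
    push τ (∑ a ∈ s, w a) = ∑ a ∈ s, push τ (w a) := by
  classical
  induction s using Finset.induction_on with
  | empty =>
    rw [Finset.sum_empty, Finset.sum_empty]
    funext m
    simp [push]
  | insert a s ha ih => rw [Finset.sum_insert ha, Finset.sum_insert ha, push_add, ih]

theorem push_single {L : Type} [Field L] (τ : V → V) (i : V) (s : L) :
    push τ (Pi.single i s) = Pi.single (τ i) s := by
  funext m
  simp only [push]
  rw [Finset.sum_eq_single i]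
  · rw [Pi.single_eq_same]
    by_cases h : τ i = m
    · subst h
      rw [if_pos rfl, Pi.single_eq_same]
    · rw [if_neg h, Pi.single_eq_of_ne (Ne.symm h)]
  · intro j _ hj
    rw [Pi.single_eq_of_ne hj]
    simp
  · intro h
    exact absurd (Finset.mem_univ _) h

theorem bil_sub {L : Type} [Field L] [Algebra K L] (A M N : Matrix (Fin 2) (Fin 2) K)
    (u w : Fin 2 → L) :
    ∑ b, ∑ c, algebraMap K L ((M.transpose * A * N) b c) * u b * w c =
      ∑ b, ∑ c, algebraMap K L (A b c) * (∑ b', algebraMap K L (M b b') * u b') *
        (∑ c', algebraMap K L (N c c') * w c') := by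
  simp only [Fin.sum_univ_two, Matrix.mul_apply, Matrix.transpose_apply, map_add, map_mul]
  ring

theorem val_sub {L : Type} [Field L] [Algebra K L] (τ : V → V)
    (M : V → Matrix (Fin 2) (Fin 2) K) (c : Cp V K) (y : V → Fin 2 → L) :
    (c.sub τ M).val y = c.val (mv τ M y) := by
  cases c with
  | mk i a =>
    simp only [Cp.sub, Cp.val, mv, Fin.sum_univ_two, map_add, map_mul]
    ring
  | bl i j A =>
    simp only [Cp.sub, Cp.val]
    exact bil_sub A (M i) (M j) (y (τ i)) (y (τ j))

theorem der_sub {L : Type} [Field L] [Algebra K L] (τ : V → V)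
    (M : V → Matrix (Fin 2) (Fin 2) K) (c : Cp V K) (y z : V → Fin 2 → L) :
    (c.sub τ M).der y z = push τ (c.der (mv τ M y) (mv τ M z)) := by
  cases c with
  | mk i a =>
    simp only [Cp.sub, Cp.der]
    rw [push_single]
    congr 1
    simp only [mv, Fin.sum_univ_two, map_add, map_mul]
    ring
  | bl i j A =>
    simp only [Cp.sub, Cp.der]
    rw [push_add, push_single, push_single]
    congr 2
    · exact bil_sub A (M i) (M j) (z (τ i)) (y (τ j))
    · exact bil_sub A (M i) (M j) (y (τ i)) (z (τ j))

/-- general position of the components in `s` -/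
def NC {ι : Type} (F : ι → Cp V K) (s : Finset ι) : Prop :=
  ∀ (L : Type) [Field L] [Algebra K L] (y z : V → Fin 2 → L),
    (∀ i, y i 0 * z i 1 - y i 1 * z i 0 ≠ 0) → ∀ g : ι → L,
      (∀ l ∈ s, (F l).val y ≠ 0 → g l = 0) → ∑ l ∈ s, g l • (F l).der y z = 0 →
        ∀ l ∈ s, g l = 0

theorem NC.mono {ι : Type} {F : ι → Cp V K} {s s' : Finset ι} (h : NC F s) (hs : s' ⊆ s) :
    NC F s' := by
  classical
  intro L _ _ y z hyz g hg hsum l hl
  have h1 := h L y z hyz (fun l => if l ∈ s' then g l else 0) (fun l _ hv => by
    by_cases hl' : l ∈ s'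
    · rw [if_pos hl']; exact hg l hl' hv
    · rw [if_neg hl']) (by
      rw [← Finset.sum_subset hs]
      · rw [← hsum]
        exact Finset.sum_congr rfl fun l hl => by rw [if_pos hl]
      · intro l _ hl'
        rw [if_neg hl', zero_smul]) l (hs hl)
  simp only [if_pos hl] at h1
  exact h1

/-- elimination of the coordinate `j` -/
def τe (i j : V) : V → V := fun m => if m = j then i else m

/-- the matrix of the elimination -/
def Me (A : Matrix (Fin 2) (Fin 2) K) : Matrix (Fin 2) (Fin 2) K :=
  !![A 0 1, A 1 1; -A 0 0, -A 1 0]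

/-- the matrices of the elimination -/
def Ms (j : V) (A : Matrix (Fin 2) (Fin 2) K) : V → Matrix (Fin 2) (Fin 2) K :=
  fun m => if m = j then Me A else 1

theorem det_Me (A : Matrix (Fin 2) (Fin 2) K) : (Me A).det = A.det := by
  rw [Me, Matrix.det_fin_two_of, Matrix.det_fin_two]
  ring

theorem det_mv {L : Type} [Field L] [Algebra K L] (M : Matrix (Fin 2) (Fin 2) K)
    (u w : Fin 2 → L) :
    (∑ c, algebraMap K L (M 0 c) * u c) * (∑ c, algebraMap K L (M 1 c) * w c) -
      (∑ c, algebraMap K L (M 1 c) * u c) * (∑ c, algebraMap K L (M 0 c) * w c) =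
      algebraMap K L M.det * (u 0 * w 1 - u 1 * w 0) := by
  simp only [Fin.sum_univ_two, Matrix.det_fin_two, map_sub, map_mul]
  ring

theorem NC.elim {ι : Type} [DecidableEq ι] {F : ι → Cp V K} {s : Finset ι} (h : NC F s)
    {e : ι} (he : e ∈ s) {i j : V} (hij : i ≠ j) {A : Matrix (Fin 2) (Fin 2) K}
    (hA : A.det ≠ 0) (hF : F e = .bl i j A ∨ F e = .bl j i A.transpose) :
    NC (fun l => (F l).sub (τe i j) (Ms j A)) (s.erase e) := by
  classical
  intro L _ _ y z hyz g hg hsum l hl
  set y' := mv (τe i j) (Ms j A) y with hy'
  set z' := mv (τe i j) (Ms j A) z with hz'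
  have hone : ∀ (m : V), m ≠ j → ∀ w : V → Fin 2 → L, mv (τe i j) (Ms j A) w m = w m := by
    intro m hm w
    funext b
    simp only [mv, τe, Ms, if_neg hm, Fin.sum_univ_two]
    fin_cases b <;> simp [Matrix.one_apply]
  have hj : ∀ w : V → Fin 2 → L, mv (τe i j) (Ms j A) w j =
      fun b => ∑ c, algebraMap K L (Me A b c) * w i c := by
    intro w
    funext b
    simp only [mv, τe, Ms, if_true]
  have hyz' : ∀ m, y' m 0 * z' m 1 - y' m 1 * z' m 0 ≠ 0 := by
    intro m
    by_cases hm : m = j
    · subst hm
      rw [hy', hz', hj, hj]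
      have h1 := det_mv (L := L) (Me A) (y i) (z i)
      rw [det_Me] at h1
      rw [h1]
      exact mul_ne_zero (by rwa [Ne, map_eq_zero]) (hyz i)
    · rw [hy', hz', hone m hm, hone m hm]
      exact hyz m
  -- the value and the derivative of the eliminated component
  have hval : (F e).val y' = 0 := by
    rcases hF with hF | hF <;>
    · rw [hF]
      simp only [Cp.val, hy', hone i hij, hj, Fin.sum_univ_two, Me, Matrix.of_apply,
        Matrix.cons_val', Matrix.cons_val_zero, Matrix.cons_val_one, Matrix.cons_val_fin_one,
        map_neg, Matrix.transpose_apply]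
      ring
  set t : L := -algebraMap K L A.det * (y i 0 * z i 1 - y i 1 * z i 0) with ht
  have ht0 : t ≠ 0 := mul_ne_zero (neg_ne_zero.2 (by rwa [Ne, map_eq_zero])) (hyz i)
  have hder : (F e).der y' z' = Pi.single i t - Pi.single j t := by
    have hneg : -(Pi.single j t : V → L) = Pi.single j (-t) := by
      funext m
      by_cases hm : m = j
      · subst hm
        rw [Pi.neg_apply, Pi.single_eq_same, Pi.single_eq_same]
      · rw [Pi.neg_apply, Pi.single_eq_of_ne hm, Pi.single_eq_of_ne hm, neg_zero]
    rw [sub_eq_add_neg, hneg]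
    rcases hF with hF | hF
    · rw [hF]
      simp only [Cp.der]
      congr 2 <;>
      · simp only [ht, hy', hz', hone i hij, hj, Fin.sum_univ_two, Me, Matrix.of_apply,
          Matrix.cons_val', Matrix.cons_val_zero, Matrix.cons_val_one, Matrix.cons_val_fin_one,
          map_neg, Matrix.det_fin_two, map_sub, map_mul]
        ring
    · rw [hF, add_comm]
      simp only [Cp.der]
      congr 2 <;>
      · simp only [ht, hy', hz', hone i hij, hj, Fin.sum_univ_two, Me, Matrix.of_apply,
          Matrix.cons_val', Matrix.cons_val_zero, Matrix.cons_val_one, Matrix.cons_val_fin_one,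
          map_neg, Matrix.det_fin_two, map_sub, map_mul, Matrix.transpose_apply]
        ring
  -- the kernel of the dual map
  set w : V → L := ∑ l ∈ s.erase e, g l • (F l).der y' z' with hw
  have hpw : push (τe i j) w = 0 := by
    rw [hw, push_sum, ← hsum]
    refine Finset.sum_congr rfl fun l _ => ?_
    rw [push_smul, der_sub]
  have hker : w = Pi.single i (w i) - Pi.single j (w i) := by
    funext m
    rw [Pi.sub_apply]
    by_cases hmi : m = i
    · subst hmi
      rw [Pi.single_eq_same, Pi.single_eq_of_ne hij, sub_zero]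
    · by_cases hmj : m = j
      · subst hmj
        rw [Pi.single_eq_of_ne hmi, Pi.single_eq_same, zero_sub]
        have h1 := congrFun hpw i
        simp only [push, Pi.zero_apply] at h1
        have h2 : ∀ x : V, (if τe i m x = i then w x else 0) =
            (if x = i then w x else 0) + (if x = m then w x else 0) := by
          intro x
          by_cases hx : x = m
          · subst hx
            simp [τe, hmi]
          · by_cases hx' : x = i
            · subst hx'
              simp [τe, hx]
            · simp [τe, hx, hx']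
        simp only [h2, Finset.sum_add_distrib, Finset.sum_ite_eq', Finset.mem_univ, if_true] at h1
        exact eq_neg_of_add_eq_zero_right h1
      · rw [Pi.single_eq_of_ne hmi, Pi.single_eq_of_ne hmj, sub_zero]
        have h1 := congrFun hpw m
        simp only [push, Pi.zero_apply] at h1
        have h2 : ∀ x : V, (if τe i j x = m then w x else 0) = (if x = m then w x else 0) := by
          intro x
          by_cases hx : x = j
          · subst hx
            simp [τe, Ne.symm hmi, Ne.symm hmj]
          · simp [τe, hx]
        simp only [h2, Finset.sum_ite_eq', Finset.mem_univ, if_true] at h1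
        exact h1
  obtain ⟨c, hwe⟩ : ∃ c : L, w = c • (F e).der y' z' := ⟨w i / t, by
    rw [hder, smul_sub, ← Pi.single_smul, ← Pi.single_smul, smul_eq_mul, div_mul_cancel₀ _ ht0]
    exact hker⟩
  -- conclusion
  have hfin := h L y' z' hyz' (fun l => if l = e then -c else g l) (fun l hl hv => by
    by_cases hle : l = e
    · subst hle
      exact absurd hval hv
    · rw [if_neg hle]
      exact hg l (Finset.mem_erase.2 ⟨hle, hl⟩) (by rw [val_sub]; exact hv)) (by
      rw [← Finset.add_sum_erase s _ he, if_pos rfl]
      have h1 : ∑ l ∈ s.erase e, (if l = e then -c else g l) • (F l).der y' z' = w := by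
        rw [hw]
        exact Finset.sum_congr rfl fun l hl => by rw [if_neg (Finset.ne_of_mem_erase hl)]
      rw [h1, neg_smul, ← hwe, neg_add_cancel]) l (Finset.mem_of_mem_erase hl)
  simp only [if_neg (Finset.ne_of_mem_erase hl)] at hfin
  exact hfin

end Pool.Agent.R405.PP
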