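import Mathlib
import Pool.Agent.R405.PP1
import Pool.Agent.R405.SchV

/-!
Products of projective lines: local estimates, Roth and Liouville.
-/

set_option autoImplicit false
set_option linter.unusedSectionVars false

open Finset

namespace Pool.Agent.R405.PP

open NumberField IsDedekindDomain Height Module MvPolynomial
open Pool.Agent.W180.OP (Pl av wt nrm le_nrm nrm_pos nrm_nonneg exists_nrm lam lam_eq liou wt_nonneg
  nrm_le min_lam)

section local_estimates

variable {V K : Type} [Fintype V] [DecidableEq V] [Field K]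

/-- the norm of a component at a point -/
noncomputable def Cp.N (f : AbsoluteValue K ℝ) (c : Cp V K) (y : V → Fin 2 → K) : ℝ :=
  match c with
  | .mk i _ => nrm f (y i)
  | .bl i j _ => nrm f (y i) * nrm f (y j)

theorem Cp.N_pos (f : AbsoluteValue K ℝ) (c : Cp V K) {y : V → Fin 2 → K} (hy : ∀ i, y i ≠ 0) :
    0 < c.N f y := by
  cases c with
  | mk i a => exact nrm_pos f (hy i)
  | bl i j A => exact mul_pos (nrm_pos f (hy i)) (nrm_pos f (hy j))

theorem dot2_bound (f : AbsoluteValue K ℝ) (a u : Fin 2 → K) :
    f (∑ b, a b * u b) ≤ 2 * nrm f a * nrm f u := by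
  rw [Fin.sum_univ_two]
  refine (f.add_le _ _).trans ?_
  rw [map_mul, map_mul]
  have h1 := mul_le_mul (le_nrm f a 0) (le_nrm f u 0) (f.nonneg _) (nrm_nonneg f a)
  have h2 := mul_le_mul (le_nrm f a 1) (le_nrm f u 1) (f.nonneg _) (nrm_nonneg f a)
  linarith

/-- the key inequality in the plane -/
theorem cross2 (f : AbsoluteValue K ℝ) (a p q : Fin 2 → K) :
    f (∑ b, a b * p b) * nrm f q ≤ f (∑ b, a b * q b) * nrm f p +
      nrm f a * f (p 0 * q 1 - p 1 * q 0) := by
  obtain ⟨β, hβ⟩ := exists_nrm f (by norm_num : 0 < 2) q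
  rw [← hβ, ← map_mul]
  have hid : (∑ b, a b * p b) * q β = (∑ b, a b * q b) * p β +
      (if β = 0 then -a 1 else a 0) * (p 0 * q 1 - p 1 * q 0) := by
    rw [Fin.sum_univ_two, Fin.sum_univ_two]
    fin_cases β <;> simp <;> ring
  rw [hid]
  refine (f.add_le _ _).trans ?_
  rw [map_mul, map_mul]
  refine add_le_add (mul_le_mul_of_nonneg_left (le_nrm f p β) (f.nonneg _))
    (mul_le_mul_of_nonneg_right ?_ (f.nonneg _))
  by_cases h : β = 0
  · rw [if_pos h, f.map_neg]
    exact le_nrm f a 1
  · rw [if_neg h]
    exact le_nrm f a 0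

/-- norms of matrices -/
noncomputable def mn (f : AbsoluteValue K ℝ) (A : Matrix (Fin 2) (Fin 2) K) : ℝ :=
  ∑ b, ∑ c, f (A b c)

theorem mn_nonneg (f : AbsoluteValue K ℝ) (A : Matrix (Fin 2) (Fin 2) K) : 0 ≤ mn f A :=
  Finset.sum_nonneg fun _ _ => Finset.sum_nonneg fun _ _ => f.nonneg _

theorem mn_row (f : AbsoluteValue K ℝ) (A : Matrix (Fin 2) (Fin 2) K) (u : Fin 2 → K) :
    nrm f (fun b => ∑ c, A b c * u c) ≤ mn f A * nrm f u := by
  refine nrm_le (mul_nonneg (mn_nonneg f A) (nrm_nonneg f u)) fun b => ?_
  have h1 : f (∑ c, A b c * u c) ≤ (∑ c, f (A b c)) * nrm f u := by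
    rw [Finset.sum_mul]
    refine (f.sum_le _ _).trans (Finset.sum_le_sum fun c _ => ?_)
    rw [map_mul]
    exact mul_le_mul_of_nonneg_left (le_nrm f u c) (f.nonneg _)
  refine h1.trans (mul_le_mul_of_nonneg_right ?_ (nrm_nonneg f u))
  exact Finset.single_le_sum (f := fun b => ∑ c, f (A b c))
    (fun _ _ => Finset.sum_nonneg fun _ _ => f.nonneg _) (Finset.mem_univ b)

theorem mn_col (f : AbsoluteValue K ℝ) (A : Matrix (Fin 2) (Fin 2) K) (u : Fin 2 → K) :
    nrm f (fun c => ∑ b, A b c * u b) ≤ mn f A * nrm f u := by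
  have h1 := mn_row f A.transpose u
  have h2 : mn f A.transpose = mn f A := by
    unfold mn
    rw [Finset.sum_comm]
    rfl
  rw [h2] at h1
  exact h1

/-- the eliminated coordinate -/
theorem elim_mk (f : AbsoluteValue K ℝ) (A : Matrix (Fin 2) (Fin 2) K) (a u q : Fin 2 → K)
    (hq : q ≠ 0) (δ α : ℝ) (hδ : 0 ≤ δ) (hα : 0 ≤ α)
    (he : f (∑ b, ∑ c, A b c * u b * q c) ≤ δ * (nrm f u * nrm f q))
    (ha : f (∑ b, a b * q b) ≤ δ * (α * nrm f q)) (haα : nrm f a ≤ α) :
    f (∑ b, a b * ∑ c, Me A b c * u c) ≤ δ * ((mn f A + 1) * α * nrm f u) := by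
  have hN := nrm_pos f hq
  set p : Fin 2 → K := fun b => ∑ c, Me A b c * u c with hp
  have hpn : nrm f p ≤ mn f A * nrm f u := by
    refine nrm_le (mul_nonneg (mn_nonneg f A) (nrm_nonneg f u)) fun b => ?_
    have h1 := mn_col f A u
    have h2 : f (p b) ≤ nrm f (fun c => ∑ b, A b c * u b) := by
      fin_cases b
      · have h3 : p 0 = ∑ b, A b 1 * u b := by
          simp only [hp, Me, Fin.sum_univ_two, Matrix.of_apply, Matrix.cons_val',
            Matrix.cons_val_zero, Matrix.cons_val_one, Matrix.cons_val_fin_one]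
        show f (p 0) ≤ _
        rw [h3]
        exact le_nrm f (fun c => ∑ b, A b c * u b) 1
      · have h3 : p 1 = -∑ b, A b 0 * u b := by
          simp only [hp, Me, Fin.sum_univ_two, Matrix.of_apply, Matrix.cons_val',
            Matrix.cons_val_zero, Matrix.cons_val_one, Matrix.cons_val_fin_one]
          ring
        show f (p 1) ≤ _
        rw [h3, f.map_neg]
        exact le_nrm f (fun c => ∑ b, A b c * u b) 0
    exact h2.trans h1
  have hcr := cross2 f a p q
  have hdet : p 0 * q 1 - p 1 * q 0 = ∑ b, ∑ c, A b c * u b * q c := by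
    simp only [hp, Me, Fin.sum_univ_two, Matrix.of_apply, Matrix.cons_val',
      Matrix.cons_val_zero, Matrix.cons_val_one, Matrix.cons_val_fin_one]
    ring
  rw [hdet] at hcr
  have hu := nrm_nonneg f u
  have hm := mn_nonneg f A
  have h1 : f (∑ b, a b * q b) * nrm f p ≤ δ * (α * nrm f q) * (mn f A * nrm f u) :=
    mul_le_mul ha hpn (nrm_nonneg f p) (by positivity)
  have h2 : nrm f a * f (∑ b, ∑ c, A b c * u b * q c) ≤ α * (δ * (nrm f u * nrm f q)) :=
    mul_le_mul haα he (f.nonneg _) hα
  have h3 : f (∑ b, a b * p b) * nrm f q ≤ δ * ((mn f A + 1) * α * nrm f u) * nrm f q := by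
    refine hcr.trans ((add_le_add h1 h2).trans (le_of_eq ?_))
    ring
  exact le_of_mul_le_mul_right h3 hN

theorem val_mk (i : V) (a : Fin 2 → K) (x : V → Fin 2 → K) :
    (Cp.mk i a : Cp V K).val x = ∑ b, a b * x i b := rfl

theorem val_bl (i j : V) (A : Matrix (Fin 2) (Fin 2) K) (x : V → Fin 2 → K) :
    (Cp.bl i j A : Cp V K).val x = ∑ b, ∑ c, A b c * x i b * x j c := rfl

theorem bil_left (A : Matrix (Fin 2) (Fin 2) K) (u w : Fin 2 → K) :
    ∑ b, ∑ c, A b c * u b * w c = ∑ b, (∑ c, A b c * w c) * u b := by
  simp only [Fin.sum_univ_two]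
  ring

theorem bil_right (A : Matrix (Fin 2) (Fin 2) K) (u w : Fin 2 → K) :
    ∑ b, ∑ c, A b c * u b * w c = ∑ c, (∑ b, A b c * u b) * w c := by
  simp only [Fin.sum_univ_two]
  ring

/-- elimination keeps components small -/
theorem elim_small (f : AbsoluteValue K ℝ) {i j : V} (hij : i ≠ j)
    (A : Matrix (Fin 2) (Fin 2) K) (c : Cp V K) :
    ∃ κ : ℝ, 1 ≤ κ ∧ ∀ (x : V → Fin 2 → K), (∀ m, x m ≠ 0) → ∀ δ : ℝ, 0 ≤ δ →
      f (∑ b, ∑ c, A b c * x i b * x j c) ≤ δ * (nrm f (x i) * nrm f (x j)) →
      f (c.val x) ≤ δ * c.N f x →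
      f ((c.sub (τe i j) (Ms j A)).val x) ≤ κ * δ * (c.sub (τe i j) (Ms j A)).N f x := by
  classical
  have hone : ∀ (m : V), m ≠ j → ∀ w : V → Fin 2 → K, mv (τe i j) (Ms j A) w m = w m := by
    intro m hm w
    funext b
    simp only [mv, τe, Ms, if_neg hm, Fin.sum_univ_two]
    fin_cases b <;> simp [Matrix.one_apply]
  have hj : ∀ w : V → Fin 2 → K, mv (τe i j) (Ms j A) w j =
      fun b => ∑ c, Me A b c * w i c := by
    intro w
    funext b
    simp only [mv, τe, Ms, if_true]
    rfl
  have hmA := mn_nonneg f A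
  cases c with
  | mk m a =>
    by_cases hm : m = j
    · subst hm
      refine ⟨1 + (mn f A + 1) * (1 + nrm f a), by
        have := nrm_nonneg f a
        have : 0 ≤ (mn f A + 1) * (1 + nrm f a) := by positivity
        linarith, fun x hx δ hδ he hc => ?_⟩
      have hN : (Cp.sub (τe i m) (Ms m A) (Cp.mk m a)).N f x = nrm f (x i) := by
        simp [Cp.sub, Cp.N, τe]
      rw [val_sub, hN, val_mk, hj]
      rw [val_mk] at hc
      have ha0 := nrm_nonneg f a
      have h1 := elim_mk f A a (x i) (x m) (hx m) δ (1 + nrm f a) hδ (by linarith) he (by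
        refine hc.trans (mul_le_mul_of_nonneg_left ?_ hδ)
        show nrm f (x m) ≤ (1 + nrm f a) * nrm f (x m)
        nlinarith [nrm_nonneg f (x m), mul_nonneg ha0 (nrm_nonneg f (x m))]) (by linarith)
      refine h1.trans ?_
      have h2 := mul_nonneg hδ (nrm_nonneg f (x i))
      have : (1 + (mn f A + 1) * (1 + nrm f a)) * δ * nrm f (x i) =
          δ * nrm f (x i) + δ * ((mn f A + 1) * (1 + nrm f a) * nrm f (x i)) := by ring
      rw [this]
      linarith
    · refine ⟨1, le_rfl, fun x hx δ hδ he hc => ?_⟩
      have hN : (Cp.sub (τe i j) (Ms j A) (Cp.mk m a)).N f x = (Cp.mk m a : Cp V K).N f x := by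
        simp [Cp.sub, Cp.N, τe, hm]
      rw [val_sub, hN, val_mk, hone m hm, one_mul]
      exact hc
  | bl m l B =>
    have hmB := mn_nonneg f B
    by_cases hm : m = j
    · by_cases hl : l = j
      · -- both
        subst hm
        subst hl
        refine ⟨1 + (mn f A + 1) * (mn f A + 1) * (1 + mn f B), by
          have : 0 ≤ (mn f A + 1) * (mn f A + 1) * (1 + mn f B) := by positivity
          linarith, fun x hx δ hδ he hc => ?_⟩
        have hN : (Cp.sub (τe i l) (Ms l A) (Cp.bl l l B)).N f x =
            nrm f (x i) * nrm f (x i) := by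
          simp [Cp.sub, Cp.N, τe]
        rw [val_sub, hN, val_bl, hj]
        rw [val_bl] at hc
        have hxl := nrm_pos f (hx l)
        have hxi := nrm_pos f (hx i)
        set p : Fin 2 → K := fun b => ∑ c, Me A b c * x i c with hp
        -- first
        have h1 := elim_mk f A (fun b => ∑ c, B b c * x l c) (x i) (x l) (hx l) δ
          ((1 + mn f B) * nrm f (x l)) hδ (by positivity) he (by
            rw [← bil_left]
            refine hc.trans (mul_le_mul_of_nonneg_left ?_ hδ)
            show nrm f (x l) * nrm f (x l) ≤ _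
            nlinarith [mul_nonneg hmB (mul_nonneg hxl.le hxl.le)]) (by
            refine (mn_row f B (x l)).trans ?_
            nlinarith)
        rw [← bil_left] at h1
        -- second
        have hpn : nrm f p ≤ mn f A * nrm f (x i) := by
          refine nrm_le (mul_nonneg hmA hxi.le) fun b => ?_
          have h1 := mn_col f A (x i)
          have h2 : f (p b) ≤ nrm f (fun c => ∑ b, A b c * x i b) := by
            fin_cases b
            · have h3 : p 0 = ∑ b, A b 1 * x i b := by
                simp only [hp, Me, Fin.sum_univ_two, Matrix.of_apply, Matrix.cons_val',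
                  Matrix.cons_val_zero, Matrix.cons_val_one, Matrix.cons_val_fin_one]
              show f (p 0) ≤ _
              rw [h3]
              exact le_nrm f (fun c => ∑ b, A b c * x i b) 1
            · have h3 : p 1 = -∑ b, A b 0 * x i b := by
                simp only [hp, Me, Fin.sum_univ_two, Matrix.of_apply, Matrix.cons_val',
                  Matrix.cons_val_zero, Matrix.cons_val_one, Matrix.cons_val_fin_one]
                ring
              show f (p 1) ≤ _
              rw [h3, f.map_neg]
              exact le_nrm f (fun c => ∑ b, A b c * x i b) 0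
          exact h2.trans h1
        have h2 := elim_mk f A (fun c => ∑ b, B b c * p b) (x i) (x l) (hx l) δ
          ((mn f A + 1) * (1 + mn f B) * nrm f (x i)) hδ (by positivity) he (by
            rw [← bil_right]
            refine h1.trans (le_of_eq ?_)
            ring) (by
            refine (mn_col f B p).trans ((mul_le_mul_of_nonneg_left hpn hmB).trans ?_)
            have : 0 ≤ mn f A * nrm f (x i) + (1 + mn f B) * nrm f (x i) := by positivity
            nlinarith)
        rw [← bil_right] at h2
        refine h2.trans ?_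
        have h3 := mul_nonneg hδ (mul_nonneg hxi.le hxi.le)
        have : (1 + (mn f A + 1) * (mn f A + 1) * (1 + mn f B)) * δ *
            (nrm f (x i) * nrm f (x i)) = δ * (nrm f (x i) * nrm f (x i)) +
            δ * ((mn f A + 1) * ((mn f A + 1) * (1 + mn f B) * nrm f (x i)) * nrm f (x i)) := by
          ring
        rw [this]
        linarith
      · subst hm
        refine ⟨1 + (mn f A + 1) * (1 + mn f B), by
          have : 0 ≤ (mn f A + 1) * (1 + mn f B) := by positivity
          linarith, fun x hx δ hδ he hc => ?_⟩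
        have hN : (Cp.sub (τe i m) (Ms m A) (Cp.bl m l B)).N f x =
            nrm f (x i) * nrm f (x l) := by
          simp [Cp.sub, Cp.N, τe, hl]
        rw [val_sub, hN, val_bl, hj, hone l hl]
        rw [val_bl] at hc
        have hxl := nrm_pos f (hx l)
        have hxi := nrm_pos f (hx i)
        have hxm := nrm_pos f (hx m)
        have h1 := elim_mk f A (fun b => ∑ c, B b c * x l c) (x i) (x m) (hx m) δ
          ((1 + mn f B) * nrm f (x l)) hδ (by positivity) he (by
            rw [← bil_left]
            refine hc.trans (mul_le_mul_of_nonneg_left ?_ hδ)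
            show nrm f (x m) * nrm f (x l) ≤ _
            nlinarith [mul_nonneg hmB (mul_nonneg hxl.le hxm.le)]) (by
            refine (mn_row f B (x l)).trans ?_
            nlinarith)
        rw [← bil_left] at h1
        refine h1.trans ?_
        have h3 := mul_nonneg hδ (mul_nonneg hxi.le hxl.le)
        have : (1 + (mn f A + 1) * (1 + mn f B)) * δ *
            (nrm f (x i) * nrm f (x l)) = δ * (nrm f (x i) * nrm f (x l)) +
            δ * ((mn f A + 1) * ((1 + mn f B) * nrm f (x l)) * nrm f (x i)) := by
          ring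
        rw [this]
        linarith
    · by_cases hl : l = j
      · subst hl
        refine ⟨1 + (mn f A + 1) * (1 + mn f B), by
          have : 0 ≤ (mn f A + 1) * (1 + mn f B) := by positivity
          linarith, fun x hx δ hδ he hc => ?_⟩
        have hN : (Cp.sub (τe i l) (Ms l A) (Cp.bl m l B)).N f x =
            nrm f (x m) * nrm f (x i) := by
          simp [Cp.sub, Cp.N, τe, hm]
        rw [val_sub, hN, val_bl, hj, hone m hm]
        rw [val_bl] at hc
        have hxl := nrm_pos f (hx l)
        have hxi := nrm_pos f (hx i)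
        have hxm := nrm_pos f (hx m)
        have h1 := elim_mk f A (fun c => ∑ b, B b c * x m b) (x i) (x l) (hx l) δ
          ((1 + mn f B) * nrm f (x m)) hδ (by positivity) he (by
            rw [← bil_right]
            refine hc.trans (mul_le_mul_of_nonneg_left ?_ hδ)
            show nrm f (x m) * nrm f (x l) ≤ _
            nlinarith [mul_nonneg hmB (mul_nonneg hxl.le hxm.le)]) (by
            refine (mn_col f B (x m)).trans ?_
            nlinarith)
        rw [← bil_right] at h1
        refine h1.trans ?_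
        have h3 := mul_nonneg hδ (mul_nonneg hxi.le hxm.le)
        have : (1 + (mn f A + 1) * (1 + mn f B)) * δ *
            (nrm f (x m) * nrm f (x i)) = δ * (nrm f (x i) * nrm f (x m)) +
            δ * ((mn f A + 1) * ((1 + mn f B) * nrm f (x m)) * nrm f (x i)) := by
          ring
        rw [this]
        linarith
      · refine ⟨1, le_rfl, fun x hx δ hδ he hc => ?_⟩
        have hN : (Cp.sub (τe i j) (Ms j A) (Cp.bl m l B)).N f x =
            (Cp.bl m l B : Cp V K).N f x := by
          simp [Cp.sub, Cp.N, τe, hm, hl]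
        rw [val_sub, hN, val_bl, hone m hm, hone l hl, one_mul]
        exact hc

end local_estimates

end Pool.Agent.R405.PP
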