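import Mathlib
import Pool.Agent.R405.PP2

/-!
Products of projective lines: Roth, Liouville, and the threshold argument.
-/

set_option autoImplicit false
set_option linter.unusedSectionVars false

open Finset

namespace Pool.Agent.R405.PP

open NumberField IsDedekindDomain Height Module MvPolynomial
open Pool.Agent.W180.OP (Pl av wt nrm le_nrm nrm_pos nrm_nonneg exists_nrm lam lam_eq liou wt_nonneg
  nrm_le min_lam)

section global_estimates

variable {k K : Type} [Field k] [NumberField k] [Field K] [NumberField K] [Algebra k K]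

theorem wt_pos (v : Pl k) : 0 < wt v := by
  rcases v with w | p
  · show (0 : ℝ) < (w.mult : ℝ)
    exact_mod_cast Nat.pos_of_ne_zero w.mult_ne_zero
  · exact one_pos

theorem scal2 (u x : Fin 2 → k) (hu : u ≠ 0) (hx : x ≠ 0) (h : u 0 * x 1 - u 1 * x 0 = 0) :
    ∃ c : k, c ≠ 0 ∧ x = c • u := by
  obtain ⟨b, hb⟩ := Function.ne_iff.1 hu
  have hb' : u b ≠ 0 := hb
  have hxc : x = (x b / u b) • u := by
    funext c
    rw [Pi.smul_apply, smul_eq_mul, div_mul_eq_mul_div, eq_div_iff hb']
    fin_cases b <;> fin_cases c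
    · rfl
    · show x 1 * u 0 = x 0 * u 1
      linear_combination h
    · show x 0 * u 1 = x 1 * u 0
      linear_combination -h
    · rfl
  refine ⟨x b / u b, fun h0 => ?_, hxc⟩
  rw [h0, zero_smul] at hxc
  exact hx hxc

/-- Roth's theorem -/
theorem roth2 [IsGalois ℚ K] (hi : ∃ z : K, z ^ 2 = -1) (v : Pl k) (f : AbsoluteValue K ℝ)
    (hf : Good v f) (a : Fin 2 → K) (ha : a ≠ 0) (ε : ℝ) (hε : 0 < ε) :
    ∃ C : ℝ, 0 ≤ C ∧ ∀ x : Fin 2 → k, x ≠ 0 → ∑ b, a b * algebraMap k K (x b) ≠ 0 →
      wt v * (Real.log (nrm (av v) x) - Real.log (f (∑ b, a b * algebraMap k K (x b)))) ≤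
        (2 + ε) * logHeight x + C := by
  classical
  -- a second form
  obtain ⟨a', ha'⟩ : ∃ a' : Fin 2 → K, (Matrix.of ![a, a']).det ≠ 0 := by
    by_cases h0 : a 0 = 0
    · refine ⟨![1, 0], ?_⟩
      rw [Matrix.det_fin_two]
      simp only [Matrix.of_apply, Matrix.cons_val_zero, Matrix.cons_val_one, Matrix.cons_val_fin_one]
      intro h1
      apply ha
      funext b
      fin_cases b
      · exact h0
      · show a 1 = 0
        simpa [h0] using h1
    · refine ⟨![0, 1], ?_⟩
      rw [Matrix.det_fin_two]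
      simp only [Matrix.of_apply, Matrix.cons_val_zero, Matrix.cons_val_one, Matrix.cons_val_fin_one]
      simpa using h0
  have ha'0 : a' ≠ 0 := by
    rintro rfl
    apply ha'
    rw [Matrix.det_fin_two]
    simp
  obtain ⟨Z, C1, hZ, hmain⟩ := sch hi (by norm_num : 1 ≤ 2) {v} (fun _ => f) (by
    intro v' hv'
    rw [Finset.mem_singleton.1 hv']
    exact hf) (fun _ => ![a, a']) (fun _ _ => ha') ε hε
  set φ : (Fin 2 → k) → ℝ := fun x => wt v * (Real.log (nrm (av v) x) -
    Real.log (f (∑ b, a b * algebraMap k K (x b)))) with hφ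
  have hφs : ∀ (c : k) (x : Fin 2 → k), c ≠ 0 → x ≠ 0 → ∑ b, a b * algebraMap k K (x b) ≠ 0 →
      φ (c • x) = φ x := by
    intro c x hc hx hax
    have hcv := (av v).pos_iff.2 hc
    have h1 : nrm (av v) (c • x) = av v c * nrm (av v) x := by
      unfold nrm
      rw [Real.mul_iSup_of_nonneg hcv.le]
      exact iSup_congr fun j => map_mul _ _ _
    have h2 : ∑ b, a b * algebraMap k K ((c • x) b) =
        algebraMap k K c * ∑ b, a b * algebraMap k K (x b) := by
      rw [Finset.mul_sum]
      exact Finset.sum_congr rfl fun b _ => by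
        rw [Pi.smul_apply, smul_eq_mul, map_mul]; ring
    simp only [hφ]
    rw [h1, h2, map_mul, hf.ext, Real.log_mul hcv.ne' (nrm_pos _ hx).ne',
      Real.log_mul hcv.ne' (f.pos_iff.2 hax).ne']
    ring
  -- the constants at the exceptional points
  have hex : ∀ d : Fin 2 → K, ∃ C : ℝ, 0 ≤ C ∧ (d ≠ 0 → ∀ x : Fin 2 → k, x ≠ 0 →
      ∑ b, a b * algebraMap k K (x b) ≠ 0 → ∑ j, d j * algebraMap k K (x j) = 0 → φ x ≤ C) := by
    intro d
    by_cases h : ∃ u : Fin 2 → k, u ≠ 0 ∧ ∑ j, d j * algebraMap k K (u j) = 0 ∧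
        ∑ b, a b * algebraMap k K (u b) ≠ 0
    · obtain ⟨u, hu, hdu, hau⟩ := h
      refine ⟨|φ u|, abs_nonneg _, fun hd x hx hax hdx => ?_⟩
      obtain ⟨c, hc, rfl⟩ := scal2 u x hu hx (by
        apply (algebraMap k K).injective
        rw [map_zero, map_sub, map_mul, map_mul]
        rw [Fin.sum_univ_two] at hdu hdx
        by_contra hcon
        apply hd
        have h0 : d 0 * (algebraMap k K (u 0) * algebraMap k K (x 1) -
            algebraMap k K (u 1) * algebraMap k K (x 0)) = 0 := by
          linear_combination algebraMap k K (x 1) * hdu - algebraMap k K (u 1) * hdx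
        have h1 : d 1 * (algebraMap k K (u 0) * algebraMap k K (x 1) -
            algebraMap k K (u 1) * algebraMap k K (x 0)) = 0 := by
          linear_combination -algebraMap k K (x 0) * hdu + algebraMap k K (u 0) * hdx
        funext b
        fin_cases b
        · exact (mul_eq_zero.1 h0).resolve_right hcon
        · exact (mul_eq_zero.1 h1).resolve_right hcon)
      rw [hφs c u hc hu hau]
      exact le_abs_self _
    · exact ⟨0, le_rfl, fun _ x hx hax hdx => absurd ⟨x, hx, hdx, hax⟩ h⟩
  choose Cd hCd0 hCd using hex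
  set D : ℝ := |C1| + ∑ d ∈ Z, Cd d + Cd a' + wt v * Real.log (1 + ∑ j, f (a' j)) with hD
  have hs0 : 0 ≤ ∑ j, f (a' j) := Finset.sum_nonneg fun _ _ => f.nonneg _
  have hlog0 : 0 ≤ Real.log (1 + ∑ j, f (a' j)) := Real.log_nonneg (by linarith)
  have hwlog := mul_nonneg (wt_nonneg v) hlog0
  have hZ0 : 0 ≤ ∑ d ∈ Z, Cd d := Finset.sum_nonneg fun d _ => hCd0 d
  refine ⟨D, by have := hCd0 a'; positivity, fun x hx hax => ?_⟩
  have hh := logHeight_nonneg x
  have hhe : 0 ≤ (2 + ε) * logHeight x := by positivity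
  show φ x ≤ _
  by_cases hZx : ∀ d ∈ Z, ∑ j, d j * algebraMap k K (x j) ≠ 0
  · by_cases hax' : ∑ b, a' b * algebraMap k K (x b) = 0
    · have h1 := hCd a' ha'0 x hx hax hax'
      have := abs_nonneg C1
      have := hCd0 a'
      linarith
    · have h1 := hmain x hZx
      rw [Finset.sum_singleton, Fin.sum_univ_two] at h1
      simp only [Matrix.cons_val_zero, Matrix.cons_val_one, Matrix.cons_val_fin_one] at h1
      have h2 := abs_dot f a' (exv K x)
      have hnrm : nrm f (exv K x) = nrm (av v) x := hf.nrm_ext x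
      rw [hnrm] at h2
      have hN := nrm_pos (av v) hx
      have h3 : Real.log (f (∑ b, a' b * algebraMap k K (x b))) ≤
          Real.log (1 + ∑ j, f (a' j)) + Real.log (nrm (av v) x) := by
        rw [← Real.log_mul (by linarith) hN.ne']
        exact Real.log_le_log (f.pos_iff.2 hax') h2
      have h4 : wt v * (-Real.log (1 + ∑ j, f (a' j))) ≤ wt v * (Real.log (nrm (av v) x) -
          Real.log (f (∑ b, a' b * algebraMap k K (x b)))) :=
        mul_le_mul_of_nonneg_left (by linarith) (wt_nonneg v)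
      rw [mul_add] at h1
      have h5 := le_abs_self C1
      have := hCd0 a'
      have h6 : ((2 : ℕ) : ℝ) = 2 := by norm_num
      rw [h6] at h1
      show wt v * (Real.log (nrm (av v) x) -
        Real.log (f (∑ b, a b * algebraMap k K (x b)))) ≤ _
      linarith
  · push Not at hZx
    obtain ⟨d, hd, hdx⟩ := hZx
    have h1 := hCd d (hZ d hd) x hx hax hdx
    have h2 := Finset.single_le_sum (f := Cd) (fun d _ => hCd0 d) hd
    have := abs_nonneg C1
    have := hCd0 a'
    linarith

/-- an enumeration of the products -/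
def e4 : Fin 2 × Fin 2 ≃ Fin 4 := finProdFinEquiv

/-- the Liouville inequality for bilinear forms -/
theorem liouB (v : Pl k) (B : Matrix (Fin 2) (Fin 2) k) :
    ∃ C : ℝ, 0 ≤ C ∧ ∀ x y : Fin 2 → k, x ≠ 0 → y ≠ 0 → ∑ b, ∑ c, B b c * x b * y c ≠ 0 →
      wt v * (Real.log (nrm (av v) x) + Real.log (nrm (av v) y) -
        Real.log (av v (∑ b, ∑ c, B b c * x b * y c))) ≤ logHeight x + logHeight y + C := by
  classical
  set G : MvPolynomial (Fin 4) k := ∑ b : Fin 2, ∑ c : Fin 2, C (B b c) * X (e4 (b, c))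
    with hG
  have hGh : G.IsHomogeneous 1 := by
    refine IsHomogeneous.sum _ _ _ fun b _ => IsHomogeneous.sum _ _ _ fun c _ => ?_
    simpa using (isHomogeneous_C (Fin 4) (B b c)).mul (isHomogeneous_X k (e4 (b, c)))
  obtain ⟨C, hC0, hC⟩ := liou G 1 hGh
  refine ⟨C, hC0, fun x y hx hy hB => ?_⟩
  set w : Fin 4 → k := fun i => x (e4.symm i).1 * y (e4.symm i).2 with hw
  have hev : eval w G = ∑ b, ∑ c, B b c * x b * y c := by
    rw [hG, map_sum]
    refine Finset.sum_congr rfl fun b _ => ?_
    rw [map_sum]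
    refine Finset.sum_congr rfl fun c _ => ?_
    rw [map_mul, eval_C, eval_X]
    simp only [hw, Equiv.symm_apply_apply]
    ring
  have hw0 : w ≠ 0 := by
    intro h0
    apply hB
    rw [← hev, h0]
    rw [hG, map_sum]
    refine Finset.sum_eq_zero fun b _ => ?_
    rw [map_sum]
    refine Finset.sum_eq_zero fun c _ => ?_
    simp
  have hh : logHeight w = logHeight x + logHeight y := by
    have h1 := logHeight_fun_mul_eq hx hy
    rw [← h1]
    have h2 : w = (fun a : Fin 2 × Fin 2 => x a.1 * y a.2) ∘ e4.symm := rfl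
    rw [h2]
    exact logHeight_comp_equiv _ _
  have hn : nrm (av v) w = nrm (av v) x * nrm (av v) y := by
    obtain ⟨b, hb⟩ := exists_nrm (av v) (by norm_num : 0 < 2) x
    obtain ⟨c, hc⟩ := exists_nrm (av v) (by norm_num : 0 < 2) y
    apply le_antisymm
    · refine nrm_le (mul_nonneg (nrm_nonneg _ _) (nrm_nonneg _ _)) fun i => ?_
      rw [hw, map_mul]
      exact mul_le_mul (le_nrm _ _ _) (le_nrm _ _ _) ((av v).nonneg _) (nrm_nonneg _ _)
    · rw [← hb, ← hc, ← map_mul]
      have h1 : x b * y c = w (e4 (b, c)) := by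
        simp only [hw, Equiv.symm_apply_apply]
      rw [h1]
      exact le_nrm _ _ _
  have h1 := hC {v} w hw0 (by rw [hev]; exact hB)
  rw [Finset.sum_singleton, lam_eq _ _ _ hw0 (by rw [hev]; exact hB), hev, hn, hh,
    Real.log_mul (nrm_pos _ hx).ne' (nrm_pos _ hy).ne'] at h1
  have h2 := mul_le_mul_of_nonneg_left (le_max_right 0 (((1 : ℕ) : ℝ) *
    (Real.log (nrm (av v) x) + Real.log (nrm (av v) y)) -
      Real.log (av v (∑ b, ∑ c, B b c * x b * y c)))) (wt_nonneg v)
  push_cast at h1 h2
  linarith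

end global_estimates

end Pool.Agent.R405.PP
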