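import Mathlib
import Pool.Agent.R405.PP3

/-!
Products of projective lines: the threshold argument.
-/

set_option autoImplicit false
set_option linter.unusedSectionVars false

open Finset

namespace Pool.Agent.R405.PP

open NumberField IsDedekindDomain Height Module MvPolynomial
open Pool.Agent.W180.OP (Pl av wt nrm le_nrm nrm_pos nrm_nonneg exists_nrm lam lam_eq liou wt_nonneg
  nrm_le min_lam)

section alg

variable {V K : Type} [Fintype V] [DecidableEq V] [Field K]

/-- the component only involves the coordinate `i` -/
def Cp.At (c : Cp V K) (i : V) : Prop :=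
  match c with
  | .mk m _ => m = i
  | .bl m l _ => m = i ∧ l = i

/-- the component only involves the coordinates in `U` -/
def Cp.In (c : Cp V K) (U : Finset V) : Prop :=
  match c with
  | .mk m _ => m ∈ U
  | .bl m l _ => m ∈ U ∧ l ∈ U

/-- the equation of a component with one coordinate -/
noncomputable def Cp.pol (c : Cp V K) : MvPolynomial (Fin 2) K :=
  match c with
  | .mk _ a => ∑ b, C (a b) * X b
  | .bl _ _ A => ∑ b, ∑ c, C (A b c) * X b * X c

/-- the degree -/
def Cp.dg (c : Cp V K) : ℕ :=
  match c with
  | .mk _ _ => 1
  | .bl _ _ _ => 2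

theorem Cp.pol_hom (c : Cp V K) : c.pol.IsHomogeneous c.dg := by
  cases c with
  | mk i a =>
    refine IsHomogeneous.sum _ _ _ fun b _ => ?_
    simpa [Cp.dg] using (isHomogeneous_C (Fin 2) (a b)).mul (isHomogeneous_X K b)
  | bl i j A =>
    refine IsHomogeneous.sum _ _ _ fun b _ => IsHomogeneous.sum _ _ _ fun c _ => ?_
    simpa [Cp.dg] using ((isHomogeneous_C (Fin 2) (A b c)).mul (isHomogeneous_X K b)).mul
      (isHomogeneous_X K c)

theorem Cp.aeval_pol {L : Type} [Field L] [Algebra K L] (c : Cp V K) {i : V} (hc : c.At i)
    (y : V → Fin 2 → L) : aeval (y i) c.pol = c.val y := by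
  cases c with
  | mk m a =>
    obtain rfl : m = i := hc
    simp only [Cp.pol, Cp.val, map_sum, map_mul, aeval_C, aeval_X]
  | bl m l A =>
    obtain ⟨rfl, rfl⟩ := hc
    simp only [Cp.pol, Cp.val, map_sum, map_mul, aeval_C, aeval_X]

theorem Cp.der_at {L : Type} [Field L] [Algebra K L] (c : Cp V K) {i : V} (hc : c.At i)
    (y z : V → Fin 2 → L) : ∃ t : L, c.der y z = Pi.single i t := by
  cases c with
  | mk m a =>
    obtain rfl : m = i := hc
    exact ⟨_, rfl⟩
  | bl m l A =>
    obtain ⟨rfl, rfl⟩ := hc
    refine ⟨_, (Pi.single_add _ _ _).symm⟩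

/-- the local height of a component -/
noncomputable def Cp.lam (f : AbsoluteValue K ℝ) (c : Cp V K) (x : V → Fin 2 → K) : ℝ :=
  Real.log (c.N f x) - Real.log (f (c.val x))

theorem Cp.lam_at (f : AbsoluteValue K ℝ) (c : Cp V K) {i : V} (hc : c.At i)
    (x : V → Fin 2 → K) (hx : ∀ m, x m ≠ 0) (hv : c.val x ≠ 0) :
    Pool.Agent.W180.OP.lam f c.dg c.pol (x i) = c.lam f x := by
  have h1 : eval (x i) c.pol = c.val x := by
    have := c.aeval_pol hc x
    rwa [aeval_eq_eval] at this
  rw [lam_eq _ _ _ (hx i) (by rw [h1]; exact hv), h1, Cp.lam]
  congr 1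
  cases c with
  | mk m a =>
    obtain rfl : m = i := hc
    simp [Cp.dg, Cp.N]
  | bl m l A =>
    obtain ⟨rfl, rfl⟩ := hc
    simp only [Cp.dg, Cp.N]
    rw [Real.log_mul (nrm_pos f (hx _)).ne' (nrm_pos f (hx _)).ne']
    push_cast
    ring

/-- two components with the same coordinate are not both small -/
theorem pair {ι : Type} [DecidableEq ι] {F : ι → Cp V K} {s : Finset ι} (h : NC F s) {l l' : ι}
    (hl : l ∈ s) (hl' : l' ∈ s) (hll : l ≠ l') {i : V} (hi : (F l).At i) (hi' : (F l').At i)
    (f : AbsoluteValue K ℝ) :
    ∃ C : ℝ, ∀ x : V → Fin 2 → K, (∀ m, x m ≠ 0) → (F l).val x ≠ 0 → (F l').val x ≠ 0 →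
      (F l).lam f x ≤ C ∨ (F l').lam f x ≤ C := by
  classical
  obtain ⟨C, hC⟩ := min_lam (by norm_num : 0 < 2) (fun b : Bool => if b then (F l).pol else (F l').pol)
    (fun b => if b then (F l).dg else (F l').dg) (by
      intro b
      cases b
      · exact (F l').pol_hom
      · exact (F l).pol_hom) (by
      intro L _ _ u hu
      by_contra hu0
      have h1 : aeval u (F l).pol = 0 := hu true
      have h2 : aeval u (F l').pol = 0 := hu false
      -- a complementary vector
      obtain ⟨w, hw⟩ : ∃ w : Fin 2 → L, u 0 * w 1 - u 1 * w 0 ≠ 0 := by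
        by_cases h0 : u 0 = 0
        · refine ⟨![1, 0], ?_⟩
          simp only [Matrix.cons_val_zero, Matrix.cons_val_one, Matrix.cons_val_fin_one, h0]
          intro h3
          apply hu0
          funext b
          fin_cases b
          · exact h0
          · show u 1 = 0
            simpa using h3
        · refine ⟨![0, 1], ?_⟩
          simp only [Matrix.cons_val_zero, Matrix.cons_val_one, Matrix.cons_val_fin_one]
          simpa using h0
      have hv1 : (F l).val (fun _ : V => u) = 0 := by
        rw [← (F l).aeval_pol hi (fun _ => u)]; exact h1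
      have hv2 : (F l').val (fun _ : V => u) = 0 := by
        rw [← (F l').aeval_pol hi' (fun _ => u)]; exact h2
      obtain ⟨t, ht⟩ := (F l).der_at hi (fun _ : V => u) (fun _ => w)
      obtain ⟨t', ht'⟩ := (F l').der_at hi' (fun _ : V => u) (fun _ => w)
      have hNC := h L (fun _ => u) (fun _ => w) (fun _ => hw)
      -- the first combination
      have h3 := hNC (fun m => if m = l then t' else if m = l' then -t else 0) (by
        intro m _ hm
        by_cases e1 : m = l
        · subst e1; exact absurd hv1 hm
        · by_cases e2 : m = l'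
          · subst e2; exact absurd hv2 hm
          · rw [if_neg e1, if_neg e2]) (by
        have h4 : ∀ m ∈ s, (if m = l then t' else if m = l' then -t else 0) •
            (F m).der (fun _ : V => u) (fun _ => w) =
            (if m = l then t' • (Pi.single i t : V → L) else 0) +
              (if m = l' then (-t) • (Pi.single i t' : V → L) else 0) := by
          intro m _
          by_cases e1 : m = l
          · subst e1
            rw [if_pos rfl, if_pos rfl, if_neg hll, add_zero, ht]
          · by_cases e2 : m = l'
            · subst e2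
              rw [if_neg e1, if_pos rfl, if_neg e1, if_pos rfl, zero_add, ht']
            · rw [if_neg e1, if_neg e2, if_neg e1, if_neg e2, zero_smul, add_zero]
        rw [Finset.sum_congr rfl h4, Finset.sum_add_distrib, Finset.sum_ite_eq' s l,
          Finset.sum_ite_eq' s l', if_pos hl, if_pos hl', ← Pi.single_smul, ← Pi.single_smul,
          ← Pi.single_add]
        have h5 : t' • t + (-t) • t' = 0 := by simp only [smul_eq_mul]; ring
        rw [h5, Pi.single_zero])
      have ht'0 : t' = 0 := by
        have := h3 l hl
        simpa using this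
      -- the second combination
      have h6 := hNC (fun m => if m = l' then 1 else 0) (by
        intro m _ hm
        by_cases e2 : m = l'
        · subst e2; exact absurd hv2 hm
        · rw [if_neg e2]) (by
        have h4 : ∀ m ∈ s, (if m = l' then (1 : L) else 0) •
            (F m).der (fun _ : V => u) (fun _ => w) =
              (if m = l' then (Pi.single i t' : V → L) else 0) := by
          intro m _
          by_cases e2 : m = l'
          · subst e2
            rw [if_pos rfl, if_pos rfl, one_smul, ht']
          · rw [if_neg e2, if_neg e2, zero_smul]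
        rw [Finset.sum_congr rfl h4, Finset.sum_ite_eq' s l', if_pos hl', ht'0, Pi.single_zero])
        l' hl'
      simp at h6) f
  refine ⟨C, fun x hx hv hv' => ?_⟩
  have he : ∀ b : Bool, eval (x i) (if b then (F l).pol else (F l').pol) ≠ 0 := by
    intro b
    cases b
    · show eval (x i) (F l').pol ≠ 0
      have := (F l').aeval_pol hi' x
      rw [aeval_eq_eval] at this
      rw [this]
      exact hv'
    · show eval (x i) (F l).pol ≠ 0
      have := (F l).aeval_pol hi x
      rw [aeval_eq_eval] at this
      rw [this]
      exact hv
  obtain ⟨b, hb⟩ := hC (x i) (hx i) he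
  cases b
  · right
    rw [← (F l').lam_at f hi' x hx hv']
    exact hb
  · left
    rw [← (F l).lam_at f hi x hx hv]
    exact hb

/-- counting -/
theorem major {ι : Type} [DecidableEq ι] (q : ℕ) : ∀ (s : Finset ι) (U : Finset V) (a : ι → ℝ)
    (H : V → ℝ) (C : ℝ), s.card = q → 0 ≤ C → (∀ i, 0 ≤ H i) →
    (∀ t, C ≤ t → (s.filter fun l => t < a l).card ≤ (U.filter fun i => t < H i).card) →
    ∑ l ∈ s, a l ≤ ∑ i ∈ U, H i + s.card * C := by
  induction q with
  | zero =>
    intro s U a H C hs hC hH _
    rw [Finset.card_eq_zero] at hs
    subst hs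
    simp only [Finset.sum_empty, Finset.card_empty, Nat.cast_zero, zero_mul, add_zero]
    exact Finset.sum_nonneg fun i _ => hH i
  | succ q ih =>
    intro s U a H C hs hC hH h
    obtain ⟨l, hl, hmax⟩ := s.exists_max_image a (Finset.card_pos.1 (by omega))
    rcases le_or_gt (a l) C with hle | hgt
    · have h1 : ∑ l ∈ s, a l ≤ s.card • C :=
        Finset.sum_le_card_nsmul s a C fun m hm => (hmax m hm).trans hle
      rw [nsmul_eq_mul] at h1
      have h2 : 0 ≤ ∑ i ∈ U, H i := Finset.sum_nonneg fun i _ => hH i
      linarith
    · -- the largest height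
      have hne : ∀ t, C ≤ t → t < a l → (U.filter fun i => t < H i).Nonempty := by
        intro t ht hta
        have h1 : 0 < (s.filter fun l => t < a l).card :=
          Finset.card_pos.2 ⟨l, Finset.mem_filter.2 ⟨hl, hta⟩⟩
        exact Finset.card_pos.1 (h1.trans_le (h t ht))
      have hU : U.Nonempty := by
        obtain ⟨i, hi⟩ := hne C le_rfl hgt
        exact ⟨i, (Finset.mem_filter.1 hi).1⟩
      obtain ⟨i, hi, himax⟩ := U.exists_max_image H hU
      have hHi : a l ≤ H i := by
        by_contra hcon
        push Not at hcon
        obtain ⟨j, hj⟩ := hne (max C (H i)) (le_max_left _ _) (max_lt hgt hcon)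
        have h1 := Finset.mem_filter.1 hj
        have h2 := himax j h1.1
        have h3 := (le_max_right C (H i)).trans_lt h1.2
        linarith
      have hs' : (s.erase l).card = q := by
        rw [Finset.card_erase_of_mem hl]; omega
      have h1 := ih (s.erase l) (U.erase i) a H C hs' hC hH (by
        intro t ht
        rcases lt_or_ge t (a l) with hta | hta
        · have e1 : ((s.erase l).filter fun l => t < a l) = (s.filter fun l => t < a l).erase l := by
            ext m
            simp only [Finset.mem_filter, Finset.mem_erase]
            tauto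
          have e2 : ((U.erase i).filter fun i => t < H i) = (U.filter fun i => t < H i).erase i := by
            ext m
            simp only [Finset.mem_filter, Finset.mem_erase]
            tauto
          rw [e1, e2, Finset.card_erase_of_mem (Finset.mem_filter.2 ⟨hl, hta⟩),
            Finset.card_erase_of_mem (Finset.mem_filter.2 ⟨hi, hta.trans_le hHi⟩)]
          exact Nat.sub_le_sub_right (h t ht) 1
        · have e1 : ((s.erase l).filter fun l => t < a l) = ∅ := by
            rw [Finset.filter_eq_empty_iff]
            intro m hm hlt
            have := hmax m (Finset.mem_of_mem_erase hm)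
            linarith
          rw [e1, Finset.card_empty]
          exact Nat.zero_le _)
      rw [← Finset.add_sum_erase s a hl, ← Finset.add_sum_erase U H hi]
      rw [hs'] at h1
      rw [hs]
      push_cast
      linarith

end alg

end Pool.Agent.R405.PP
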