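import Mathlib
import Pool.Agent.R405.PP4

/-!
Products of projective lines: the threshold lemma.
-/

set_option autoImplicit false
set_option linter.unusedSectionVars false

open Finset

namespace Pool.Agent.R405.PP

open NumberField IsDedekindDomain Height Module
open Pool.Agent.W180.OP (Pl av wt nrm le_nrm nrm_pos nrm_nonneg exists_nrm lam lam_eq liou wt_nonneg
  nrm_le min_lam)

variable {V : Type} [Fintype V] [DecidableEq V] {k K : Type} [Field k] [NumberField k] [Field K]
  [NumberField K] [Algebra k K]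

/-- the allowed components -/
def Ok (k : Type) {V K : Type} [Field k] [Field K] [Algebra k K] (c : Cp V K) : Prop :=
  match c with
  | .mk _ a => a ≠ 0
  | .bl i j A => (∃ A0 : Matrix (Fin 2) (Fin 2) k, A = A0.map (algebraMap k K)) ∧
      (i ≠ j → A.det ≠ 0)

/-- the components which are not zero -/
def OkZ (k : Type) {V K : Type} [Field k] [Field K] [Algebra k K] (c : Cp V K) : Prop :=
  match c with
  | .mk _ a => a ≠ 0
  | .bl i j A => (∃ A0 : Matrix (Fin 2) (Fin 2) k, A = A0.map (algebraMap k K)) ∧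
      (i ≠ j → A.det ≠ 0) ∧ (i = j → A 0 0 ≠ 0 ∨ A 1 1 ≠ 0 ∨ A 0 1 + A 1 0 ≠ 0)

/-- the point over the extension -/
def ex (K : Type) [Field K] [Algebra k K] (x : V → Fin 2 → k) : V → Fin 2 → K :=
  fun m => exv K (x m)

theorem ok_okZ {ι : Type} [DecidableEq ι] {F : ι → Cp V K} {s : Finset ι} (h : NC F s)
    (hOk : ∀ l ∈ s, Ok k (F l)) : ∀ l ∈ s, OkZ k (F l) := by
  classical
  intro l hl
  have h1 := hOk l hl
  cases hF : F l with
  | mk i a =>
    rw [hF] at h1
    exact h1
  | bl i j A =>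
    rw [hF] at h1
    refine ⟨h1.1, h1.2, fun hij => ?_⟩
    by_contra hcon
    push Not at hcon
    obtain ⟨h2, h3, h4⟩ := hcon
    subst hij
    have hval : ∀ y : V → Fin 2 → K, (F l).val y = 0 := by
      intro y
      rw [hF]
      simp only [Cp.val, Fin.sum_univ_two, h2, h3, map_zero]
      have h5 : algebraMap K K (A 0 1) = - algebraMap K K (A 1 0) := by
        rw [← map_neg]
        congr 1
        linear_combination h4
      rw [h5]
      ring
    have hder : ∀ y z : V → Fin 2 → K, (F l).der y z = 0 := by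
      intro y z
      rw [hF]
      simp only [Cp.der, Fin.sum_univ_two, h2, h3, map_zero]
      have h5 : algebraMap K K (A 0 1) = - algebraMap K K (A 1 0) := by
        rw [← map_neg]
        congr 1
        linear_combination h4
      rw [h5, ← Pi.single_add]
      convert Pi.single_zero i using 2
      ring
    have h6 := h K (fun _ => ![1, 0]) (fun _ => ![0, 1]) (fun _ => by simp)
      (fun m => if m = l then 1 else 0) (fun m _ hm => by
        by_cases e : m = l
        · subst e; exact absurd (hval _) hm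
        · rw [if_neg e]) (by
        refine Finset.sum_eq_zero fun m _ => ?_
        by_cases e : m = l
        · subst e; rw [hder, smul_zero]
        · rw [if_neg e, zero_smul]) l hl
    simp at h6

theorem ok_sub {c : Cp V K} (hc : Ok k c) {i j : V}
    {A : Matrix (Fin 2) (Fin 2) K} (hA : A.det ≠ 0)
    (hAk : ∃ A0 : Matrix (Fin 2) (Fin 2) k, A = A0.map (algebraMap k K)) :
    Ok k (c.sub (τe i j) (Ms j A)) := by
  classical
  obtain ⟨A0, hA0⟩ := hAk
  have hdet : ∀ m, (Ms j A m).det ≠ 0 := by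
    intro m
    unfold Ms
    split_ifs
    · rw [det_Me]; exact hA
    · rw [Matrix.det_one]; exact one_ne_zero
  have hrat : ∀ m, ∃ M0 : Matrix (Fin 2) (Fin 2) k, Ms j A m = M0.map (algebraMap k K) := by
    intro m
    unfold Ms
    split_ifs
    · refine ⟨Me A0, ?_⟩
      rw [hA0]
      ext b c
      fin_cases b <;> fin_cases c <;> simp [Me]
    · refine ⟨1, ?_⟩
      rw [Matrix.map_one _ (map_zero _) (map_one _)]
  cases c with
  | mk m a =>
    show (fun c => ∑ b, a b * Ms j A m b c) ≠ 0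
    intro h0
    apply (hc : a ≠ 0)
    have h1 : Matrix.vecMul a (Ms j A m) = 0 := h0
    exact Matrix.eq_zero_of_vecMul_eq_zero (hdet m) h1
  | bl m l B =>
    obtain ⟨⟨B0, hB0⟩, hBd⟩ := hc
    obtain ⟨M1, hM1⟩ := hrat m
    obtain ⟨M2, hM2⟩ := hrat l
    refine ⟨⟨M1.transpose * B0 * M2, ?_⟩, fun hne => ?_⟩
    · rw [hM1, hM2, hB0, Matrix.map_mul, Matrix.map_mul, Matrix.transpose_map]
    · rw [Matrix.det_mul, Matrix.det_mul, Matrix.det_transpose]
      refine mul_ne_zero (mul_ne_zero (hdet m) (hBd fun h => hne ?_)) (hdet l)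
      rw [h]

theorem in_sub {c : Cp V K} {U : Finset V} (hc : c.In U) {i j : V} (hij : i ≠ j) (hi : i ∈ U)
    (A : Matrix (Fin 2) (Fin 2) K) : (c.sub (τe i j) (Ms j A)).In (U.erase j) := by
  have h1 : ∀ m ∈ U, τe i j m ∈ U.erase j := by
    intro m hm
    unfold τe
    split_ifs with h
    · exact Finset.mem_erase.2 ⟨hij, hi⟩
    · exact Finset.mem_erase.2 ⟨h, hm⟩
  cases c with
  | mk m a => exact h1 m hc
  | bl m l B => exact ⟨h1 m hc.1, h1 l hc.2⟩

/-- the conclusion of the threshold lemma -/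
def Thr (k : Type) {V K : Type} [Fintype V] [DecidableEq V] [Field k] [NumberField k] [Field K]
    [NumberField K] [Algebra k K] {ι : Type} (F : ι → Cp V K) (s : Finset ι) (U : Finset V)
    (Z : Set (Cp V K)) (v : Pl k) (f : AbsoluteValue K ℝ) (ε C : ℝ) : Prop :=
  ∀ t : ℝ, C ≤ t → ∀ x : V → Fin 2 → k, (∀ m, x m ≠ 0) → (∀ c ∈ Z, c.val (ex K x) ≠ 0) →
    (∀ l ∈ s, t < wt v * (F l).lam f (ex K x)) →
    s.card ≤ (U.filter fun m => t < (2 + ε) * logHeight (x m) + C).card

/-- the bound for a single component -/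
noncomputable def Cp.bd {V K : Type} (c : Cp V K) (h : V → ℝ) (ε C : ℝ) : ℝ :=
  match c with
  | .mk i _ => (2 + ε) * h i + C
  | .bl i j _ => h i + h j + C

/-- the estimates for single components -/
theorem single_bound [IsGalois ℚ K] (hi : ∃ z : K, z ^ 2 = -1) (v : Pl k) (f : AbsoluteValue K ℝ)
    (hf : Good v f) (ε : ℝ) (hε : 0 < ε) (c : Cp V K) (hc : OkZ k c) :
    ∃ C : ℝ, 0 ≤ C ∧ ∀ x : V → Fin 2 → k, (∀ m, x m ≠ 0) → c.val (ex K x) ≠ 0 →
      wt v * c.lam f (ex K x) ≤ c.bd (fun i => logHeight (x i)) ε C := by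
  cases c with
  | mk i a =>
    obtain ⟨C, hC0, hC⟩ := roth2 hi v f hf a hc ε hε
    refine ⟨C, hC0, fun x hx hv => ?_⟩
    have h1 := hC (x i) (hx i) hv
    have h2 : nrm f (ex K x i) = nrm (av v) (x i) := hf.nrm_ext (x i)
    show wt v * (Real.log (nrm f (ex K x i)) - _) ≤ _
    rw [h2]
    exact h1
  | bl i j A =>
    obtain ⟨⟨A0, rfl⟩, -⟩ := hc
    obtain ⟨C, hC0, hC⟩ := liouB v A0
    refine ⟨C, hC0, fun x hx hv => ?_⟩
    have h3 : (Cp.bl i j (A0.map (algebraMap k K)) : Cp V K).val (ex K x) =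
        algebraMap k K (∑ b, ∑ c, A0 b c * x i b * x j c) := by
      rw [val_bl, map_sum]
      refine Finset.sum_congr rfl fun b _ => ?_
      rw [map_sum]
      refine Finset.sum_congr rfl fun c _ => ?_
      rw [map_mul, map_mul]
      rfl
    have h1 := hC (x i) (x j) (hx i) (hx j) (by
      intro h0
      rw [h3, h0, map_zero] at hv
      exact hv rfl)
    have h2 : ∀ m, nrm f (ex K x m) = nrm (av v) (x m) := fun m => hf.nrm_ext (x m)
    show wt v * (Real.log (nrm f (ex K x i) * nrm f (ex K x j)) - _) ≤ _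
    rw [h2, h2, Real.log_mul (nrm_pos _ (hx i)).ne' (nrm_pos _ (hx j)).ne', h3, hf.ext]
    exact h1

/-- elimination of a coordinate, for local heights -/
theorem elim_lam (v : Pl k) (f : AbsoluteValue K ℝ) {ι : Type} (F : ι → Cp V K) (e : ι)
    {i j : V} (hij : i ≠ j) (A : Matrix (Fin 2) (Fin 2) K)
    (hF : F e = .bl i j A ∨ F e = .bl j i A.transpose) (l : ι) :
    ∃ C : ℝ, 0 ≤ C ∧ ∀ x : V → Fin 2 → K, (∀ m, x m ≠ 0) → ∀ t : ℝ,
      (F e).val x ≠ 0 → (F l).val x ≠ 0 → ((F l).sub (τe i j) (Ms j A)).val x ≠ 0 →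
      t < wt v * (F e).lam f x → t < wt v * (F l).lam f x →
      t - C < wt v * ((F l).sub (τe i j) (Ms j A)).lam f x := by
  obtain ⟨κ, hκ, h⟩ := elim_small f hij A (F l)
  have hw := wt_pos v
  refine ⟨wt v * Real.log κ + 1, by
    have := mul_nonneg hw.le (Real.log_nonneg hκ)
    linarith, fun x hx t hve hvl hvs h1 h2 => ?_⟩
  set δ : ℝ := Real.exp (-(t / wt v)) with hδ
  have hδ0 : 0 < δ := Real.exp_pos _
  have hsm : ∀ c : Cp V K, c.val x ≠ 0 → t < wt v * c.lam f x → f (c.val x) ≤ δ * c.N f x := by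
    intro c hc hct
    have h3 : t / wt v < c.lam f x := by
      rw [div_lt_iff₀ hw, mul_comm]
      exact hct
    have hN := c.N_pos f hx
    have hfc := f.pos_iff.2 hc
    rw [Cp.lam] at h3
    rw [← Real.log_le_log_iff hfc (mul_pos hδ0 hN), Real.log_mul hδ0.ne' hN.ne', hδ, Real.log_exp]
    linarith
  have h3 : f (∑ b, ∑ c, A b c * x i b * x j c) ≤ δ * (nrm f (x i) * nrm f (x j)) := by
    have h4 := hsm (F e) hve h1
    rcases hF with hF | hF
    · rw [hF] at h4
      exact h4
    · rw [hF] at h4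
      have h5 : (Cp.bl j i A.transpose : Cp V K).val x = ∑ b, ∑ c, A b c * x i b * x j c := by
        rw [val_bl]
        simp only [Fin.sum_univ_two, Matrix.transpose_apply]
        ring
      rw [h5] at h4
      have h6 : (Cp.bl j i A.transpose : Cp V K).N f x = nrm f (x i) * nrm f (x j) :=
        mul_comm _ _
      rw [h6] at h4
      exact h4
  have h4 := h x hx δ hδ0.le h3 (hsm (F l) hvl h2)
  set c' := (F l).sub (τe i j) (Ms j A) with hc'
  have hN := c'.N_pos f hx
  have hfc := f.pos_iff.2 hvs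
  have h5 := Real.log_le_log hfc h4
  rw [Real.log_mul (by positivity) hN.ne', Real.log_mul (by positivity) hδ0.ne', hδ,
    Real.log_exp] at h5
  have h6 : t / wt v - Real.log κ ≤ c'.lam f x := by
    rw [Cp.lam]
    linarith
  have h7 := mul_le_mul_of_nonneg_left h6 hw.le
  rw [mul_sub, mul_div_cancel₀ _ hw.ne'] at h7
  linarith

end Pool.Agent.R405.PP
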