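import Mathlib
import Pool.Agent.R405.PP5

/-!
Products of projective lines: the threshold lemma and the main inequality.
-/

set_option autoImplicit false
set_option linter.unusedSectionVars false

open Finset

namespace Pool.Agent.R405.PP

open NumberField IsDedekindDomain Height Module
open Pool.Agent.W180.OP (Pl av wt nrm le_nrm nrm_pos nrm_nonneg exists_nrm lam lam_eq liou wt_nonneg
  nrm_le min_lam)

variable {V : Type} [Fintype V] [DecidableEq V] {k K : Type} [Field k] [NumberField k] [Field K]
  [NumberField K] [Algebra k K]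

theorem thresh [IsGalois ℚ K] (hi : ∃ z : K, z ^ 2 = -1) {ι : Type} [Fintype ι] [DecidableEq ι]
    (q : ℕ) : ∀ (s : Finset ι), s.card = q → ∀ (F : ι → Cp V K) (U : Finset V),
      (∀ l ∈ s, Ok k (F l)) → (∀ l ∈ s, (F l).In U) → NC F s →
      ∃ Z : Set (Cp V K), Z.Finite ∧ (∀ c ∈ Z, OkZ k c) ∧ ∀ (v : Pl k) (f : AbsoluteValue K ℝ),
        Good v f → ∀ ε : ℝ, 0 < ε → ∃ C : ℝ, 0 ≤ C ∧ Thr k F s U Z v f ε C := by
  classical
  induction q with
  | zero =>
    intro s hs F U _ _ _
    refine ⟨∅, Set.finite_empty, fun c hc => hc.elim, fun v f _ ε _ => ⟨0, le_rfl, ?_⟩⟩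
    intro t _ x _ _ _
    rw [hs]
    exact Nat.zero_le _
  | succ q ih =>
    intro s hs F U hOk hIn hNC
    -- the eliminations
    have hstep : ∀ (e : ι) (i j : V) (A : Matrix (Fin 2) (Fin 2) K), ∃ Z : Set (Cp V K),
        Z.Finite ∧ (∀ c ∈ Z, OkZ k c) ∧ ∀ (v : Pl k) (f : AbsoluteValue K ℝ), Good v f →
        ∀ ε : ℝ, 0 < ε → ∃ C : ℝ, 0 ≤ C ∧ (e ∈ s → (F e = .bl i j A ∨ F e = .bl j i A.transpose) →
          i ≠ j → Thr k (fun l => (F l).sub (τe i j) (Ms j A)) (s.erase e) (U.erase j)
            (Z ∪ (fun l => (F l).sub (τe i j) (Ms j A)) '' (s.erase e)) v f ε C ∧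
            ∀ l ∈ s.erase e, OkZ k ((F l).sub (τe i j) (Ms j A))) := by
      intro e i j A
      by_cases h : e ∈ s ∧ (F e = .bl i j A ∨ F e = .bl j i A.transpose) ∧ i ≠ j
      · obtain ⟨he, hF, hij⟩ := h
        have hdet : A.det ≠ 0 := by
          have h1 := hOk e he
          rcases hF with hF | hF
          · rw [hF] at h1
            exact h1.2 hij
          · rw [hF] at h1
            have h2 := h1.2 (Ne.symm hij)
            rwa [Matrix.det_transpose] at h2
        have hrat : ∃ A0 : Matrix (Fin 2) (Fin 2) k, A = A0.map (algebraMap k K) := by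
          have h1 := hOk e he
          rcases hF with hF | hF
          · rw [hF] at h1
            exact h1.1
          · rw [hF] at h1
            obtain ⟨A0, hA0⟩ := h1.1
            refine ⟨A0.transpose, ?_⟩
            rw [Matrix.transpose_map, ← hA0, Matrix.transpose_transpose]
        have hiU : i ∈ U := by
          have h1 := hIn e he
          rcases hF with hF | hF
          · rw [hF] at h1
            exact h1.1
          · rw [hF] at h1
            exact h1.2
        have hNC' : NC (fun l => (F l).sub (τe i j) (Ms j A)) (s.erase e) :=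
          hNC.elim he hij hdet hF
        have hOk' : ∀ l ∈ s.erase e, Ok k ((F l).sub (τe i j) (Ms j A)) := fun l hl =>
          ok_sub (hOk l (Finset.mem_of_mem_erase hl)) hdet hrat
        obtain ⟨Z, hZf, hZ, hmain⟩ := ih (s.erase e)
          (by rw [Finset.card_erase_of_mem he]; omega)
          (fun l => (F l).sub (τe i j) (Ms j A)) (U.erase j) hOk'
          (fun l hl => in_sub (hIn l (Finset.mem_of_mem_erase hl)) hij hiU A) hNC'
        refine ⟨Z, hZf, hZ, fun v f hf ε hε => ?_⟩
        obtain ⟨C, hC0, hC⟩ := hmain v f hf ε hε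
        refine ⟨C, hC0, fun _ _ _ => ⟨?_, ok_okZ hNC' hOk'⟩⟩
        intro t ht x hx hZx hl
        exact hC t ht x hx (fun c hc => hZx c (Or.inl hc)) hl
      · refine ⟨∅, Set.finite_empty, fun c hc => hc.elim, fun v f _ ε _ => ⟨0, le_rfl,
          fun h1 h2 h3 => absurd ⟨h1, h2, h3⟩ h⟩⟩
    choose Ze hZef hZe hstep' using hstep
    -- the triples of a component
    set tri : ι → Set (V × V × Matrix (Fin 2) (Fin 2) K) := fun e =>
      {p | (F e = .bl p.1 p.2.1 p.2.2 ∨ F e = .bl p.2.1 p.1 p.2.2.transpose) ∧ p.1 ≠ p.2.1}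
      with htri
    have htrif : ∀ e, (tri e).Finite := by
      intro e
      cases hF : F e with
      | mk i a =>
        refine Set.finite_empty.subset ?_
        rintro ⟨i', j', A'⟩ ⟨h1, -⟩
        rw [hF] at h1
        rcases h1 with h1 | h1 <;> cases h1
      | bl i j A =>
        refine (Set.toFinite ({(i, j, A), (j, i, A.transpose)} :
          Set (V × V × Matrix (Fin 2) (Fin 2) K))).subset ?_
        rintro ⟨i', j', A'⟩ ⟨h1, -⟩
        rw [hF] at h1
        rcases h1 with h1 | h1
        · left
          injection h1 with g1 g2 g3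
          subst g1 g2 g3
          rfl
        · right
          injection h1 with g1 g2 g3
          simp only at g1 g2 g3
          show (i', j', A') = (j, i, A.transpose)
          rw [g1, g2, g3, Matrix.transpose_transpose]
    set Zt : Set (Cp V K) := (F '' (s : Set ι)) ∪ ⋃ e ∈ s, ⋃ p ∈ tri e,
      (Ze e p.1 p.2.1 p.2.2 ∪ (fun l => (F l).sub (τe p.1 p.2.1) (Ms p.2.1 p.2.2)) ''
        ((s.erase e : Finset ι) : Set ι)) with hZt
    obtain ⟨v0⟩ : Nonempty (InfinitePlace k) := inferInstance
    obtain ⟨f0, hf0⟩ := exists_good (K := K) (Sum.inl v0 : Pl k)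
    refine ⟨Zt, ?_, ?_, ?_⟩
    · refine Set.Finite.union ((Finset.finite_toSet s).image F) ?_
      refine Set.Finite.biUnion (Finset.finite_toSet s) fun e _ => ?_
      exact Set.Finite.biUnion (htrif e) fun p _ =>
        (hZef _ _ _ _).union ((Finset.finite_toSet _).image _)
    · rintro c (hc | hc)
      · obtain ⟨l, hl, rfl⟩ := hc
        exact ok_okZ hNC hOk l hl
      · simp only [Set.mem_iUnion] at hc
        obtain ⟨e, he, p, hp, hc⟩ := hc
        rcases hc with hc | hc
        · exact hZe _ _ _ _ c hc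
        · obtain ⟨l, hl, rfl⟩ := hc
          obtain ⟨C, -, h1⟩ := hstep' e p.1 p.2.1 p.2.2 (Sum.inl v0) f0 hf0 1 one_pos
          exact (h1 he hp.1 hp.2).2 l (Finset.mem_coe.1 hl)
    · intro v f hf ε hε
      have hw := wt_pos v
      -- the constants
      choose C1 hC1 hthr using fun (e : ι) (p : V × V × Matrix (Fin 2) (Fin 2) K) =>
        hstep' e p.1 p.2.1 p.2.2 v f hf ε hε
      have hC2 : ∀ (e : ι) (p : V × V × Matrix (Fin 2) (Fin 2) K) (l : ι), ∃ C : ℝ, 0 ≤ C ∧
          (p ∈ tri e → ∀ x : V → Fin 2 → K, (∀ m, x m ≠ 0) → ∀ t : ℝ,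
          (F e).val x ≠ 0 → (F l).val x ≠ 0 → ((F l).sub (τe p.1 p.2.1) (Ms p.2.1 p.2.2)).val x ≠ 0 →
          t < wt v * (F e).lam f x → t < wt v * (F l).lam f x →
          t - C < wt v * ((F l).sub (τe p.1 p.2.1) (Ms p.2.1 p.2.2)).lam f x) := by
        intro e p l
        by_cases hp : p ∈ tri e
        · obtain ⟨C, h1, h2⟩ := elim_lam v f F e hp.2 p.2.2 hp.1 l
          exact ⟨C, h1, fun _ => h2⟩
        · exact ⟨0, le_rfl, fun h => absurd h hp⟩
      choose C2 hC20 hC2' using hC2
      have hC3 : ∀ l : ι, ∃ C : ℝ, 0 ≤ C ∧ (l ∈ s → ∀ x : V → Fin 2 → k, (∀ m, x m ≠ 0) →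
          (F l).val (ex K x) ≠ 0 → wt v * (F l).lam f (ex K x) ≤
            (F l).bd (fun i => logHeight (x i)) ε C) := by
        intro l
        by_cases hl : l ∈ s
        · obtain ⟨C, h1, h2⟩ := single_bound hi v f hf ε hε (F l) (ok_okZ hNC hOk l hl)
          exact ⟨C, h1, fun _ => h2⟩
        · exact ⟨0, le_rfl, fun h => absurd h hl⟩
      choose C3 hC30 hC3' using hC3
      have hC4 : ∀ l l' : ι, ∃ C : ℝ, l ∈ s → l' ∈ s → l ≠ l' → ∀ i : V, (F l).At i →
          (F l').At i → ∀ x : V → Fin 2 → K, (∀ m, x m ≠ 0) → (F l).val x ≠ 0 →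
          (F l').val x ≠ 0 → (F l).lam f x ≤ C ∨ (F l').lam f x ≤ C := by
        intro l l'
        by_cases h : l ∈ s ∧ l' ∈ s ∧ l ≠ l' ∧ ∃ i, (F l).At i ∧ (F l').At i
        · obtain ⟨h1, h2, h3, i, h4, h5⟩ := h
          obtain ⟨C, hC⟩ := pair hNC h1 h2 h3 h4 h5 f
          exact ⟨C, fun _ _ _ _ _ _ => hC⟩
        · exact ⟨0, fun h1 h2 h3 i h4 h5 => absurd ⟨h1, h2, h3, i, h4, h5⟩ h⟩
      choose C4 hC4' using hC4
      set Ta : ι → ℝ := fun e => ∑ p ∈ (htrif e).toFinset, (C1 e p + ∑ l, C2 e p l) with hTa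
      have hTa0 : ∀ e, 0 ≤ Ta e := fun e => Finset.sum_nonneg fun p _ =>
        add_nonneg (hC1 e p) (Finset.sum_nonneg fun l _ => hC20 e p l)
      set C0 : ℝ := ∑ e, Ta e + ∑ l, C3 l + ∑ l, ∑ l', wt v * |C4 l l'| + 1 with hC0
      have hA0 : 0 ≤ ∑ e, Ta e := Finset.sum_nonneg fun e _ => hTa0 e
      have hB0 : 0 ≤ ∑ l, C3 l := Finset.sum_nonneg fun l _ => hC30 l
      have hD0 : 0 ≤ ∑ l, ∑ l', wt v * |C4 l l'| := Finset.sum_nonneg fun l _ =>
        Finset.sum_nonneg fun l' _ => mul_nonneg hw.le (abs_nonneg _)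
      refine ⟨C0, by positivity, ?_⟩
      intro t ht x hx hZx hsm
      have hval : ∀ l ∈ s, (F l).val (ex K x) ≠ 0 := fun l hl => hZx _ (Or.inl ⟨l, hl, rfl⟩)
      have hxK : ∀ m, ex K x m ≠ 0 := fun m => exv_ne (hx m)
      by_cases hcase : ∃ e ∈ s, ∃ p ∈ tri e, t < (2 + ε) * logHeight (x p.2.1) + C0
      · -- elimination
        obtain ⟨e, he, p, hp, hhigh⟩ := hcase
        obtain ⟨hthr1, -⟩ := hthr e p he hp.1 hp.2
        have hsub : ∀ l ∈ s.erase e,
            ((F l).sub (τe p.1 p.2.1) (Ms p.2.1 p.2.2)).val (ex K x) ≠ 0 := by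
          intro l hl
          refine hZx _ (Or.inr ?_)
          simp only [Set.mem_iUnion]
          exact ⟨e, he, p, hp, Or.inr ⟨l, hl, rfl⟩⟩
        have hpT : C1 e p + ∑ l, C2 e p l ≤ ∑ e, Ta e := by
          have h1 : C1 e p + ∑ l, C2 e p l ≤ Ta e :=
            Finset.single_le_sum (f := fun p => C1 e p + ∑ l, C2 e p l) (fun p _ =>
              add_nonneg (hC1 e p) (Finset.sum_nonneg fun l _ => hC20 e p l))
              ((Set.Finite.mem_toFinset _).2 hp)
          exact h1.trans (Finset.single_le_sum (f := Ta) (fun e _ => hTa0 e) (Finset.mem_univ e))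
        set C' : ℝ := ∑ l, C2 e p l with hC'
        have hC'le : ∀ l, C2 e p l ≤ C' := fun l =>
          Finset.single_le_sum (f := fun l => C2 e p l) (fun l _ => hC20 e p l) (Finset.mem_univ l)
        have h1 := hthr1 (t - C') (by linarith) x hx (fun c hc => by
          rcases hc with hc | hc
          · refine hZx _ (Or.inr ?_)
            simp only [Set.mem_iUnion]
            exact ⟨e, he, p, hp, Or.inl hc⟩
          · obtain ⟨l, hl, rfl⟩ := hc
            exact hsub l (Finset.mem_coe.1 hl)) (fun l hl => by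
          have h2 := hC2' e p l hp (ex K x) hxK t (hval e he)
            (hval l (Finset.mem_of_mem_erase hl)) (hsub l hl) (hsm e he)
            (hsm l (Finset.mem_of_mem_erase hl))
          have h3 := hC'le l
          show t - C' < _
          linarith)
        have hjU : p.2.1 ∈ U := by
          have h2 := hIn e he
          rcases hp.1 with hF | hF
          · rw [hF] at h2
            exact h2.2
          · rw [hF] at h2
            exact h2.1
        have hjmem : p.2.1 ∈ U.filter fun m => t < (2 + ε) * logHeight (x m) + C0 :=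
          Finset.mem_filter.2 ⟨hjU, hhigh⟩
        have hsubset : ((U.erase p.2.1).filter fun m => t - C' < (2 + ε) * logHeight (x m) + C1 e p) ⊆
            (U.filter fun m => t < (2 + ε) * logHeight (x m) + C0).erase p.2.1 := by
          intro m hm
          rw [Finset.mem_filter, Finset.mem_erase] at hm
          rw [Finset.mem_erase, Finset.mem_filter]
          refine ⟨hm.1.1, hm.1.2, ?_⟩
          have := hm.2
          linarith
        have h2 := Finset.card_le_card hsubset
        rw [Finset.card_erase_of_mem hjmem] at h2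
        rw [Finset.card_erase_of_mem he] at h1
        have h3 : 0 < (U.filter fun m => t < (2 + ε) * logHeight (x m) + C0).card :=
          Finset.card_pos.2 ⟨_, hjmem⟩
        have h4 : 0 < s.card := Finset.card_pos.2 ⟨e, he⟩
        omega
      · -- only components with one coordinate
        push Not at hcase
        have hC3le : ∀ l, C3 l ≤ ∑ l, C3 l := fun l =>
          Finset.single_le_sum (f := C3) (fun l _ => hC30 l) (Finset.mem_univ l)
        have hat : ∀ l ∈ s, ∃ i, (F l).At i ∧ i ∈ U.filter fun m =>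
            t < (2 + ε) * logHeight (x m) + C0 := by
          intro l hl
          have h1 := hC3' l hl x hx (hval l hl)
          have h2 := hsm l hl
          have h3 := hIn l hl
          have h4 := hC3le l
          cases hF : F l with
          | mk i a =>
            rw [hF] at h1 h2 h3
            simp only [Cp.bd] at h1
            refine ⟨i, rfl, Finset.mem_filter.2 ⟨h3, ?_⟩⟩
            linarith
          | bl i j A =>
            rw [hF] at h1 h2 h3
            simp only [Cp.bd] at h1
            by_cases hij : i = j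
            · subst hij
              refine ⟨i, ⟨rfl, rfl⟩, Finset.mem_filter.2 ⟨h3.1, ?_⟩⟩
              have h5 : 0 ≤ ε * logHeight (x i) := mul_nonneg hε.le (logHeight_nonneg _)
              linarith
            · exfalso
              have h5 := hcase l hl (i, j, A) ⟨Or.inl hF, hij⟩
              have h6 := hcase l hl (j, i, A.transpose) ⟨Or.inr (by
                rw [hF, Matrix.transpose_transpose]), Ne.symm hij⟩
              simp only at h5 h6
              have h7 : 0 ≤ ε * logHeight (x i) := mul_nonneg hε.le (logHeight_nonneg _)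
              have h8 : 0 ≤ ε * logHeight (x j) := mul_nonneg hε.le (logHeight_nonneg _)
              linarith
        obtain ⟨l0, hl0⟩ := Finset.card_pos.1 (by omega : 0 < s.card)
        obtain ⟨i0, -, -⟩ := hat l0 hl0
        have : Nonempty V := ⟨i0⟩
        choose! vx hvx1 hvx2 using hat
        refine Finset.card_le_card_of_injOn vx (fun l hl => hvx2 l hl) ?_
        intro l hl l' hl' hll
        by_contra hne
        have h1 := hC4' l l' hl hl' hne (vx l) (hvx1 l hl) (by rw [hll]; exact hvx1 l' hl')
          (ex K x) hxK (hval l hl) (hval l' hl')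
        have h2 : wt v * |C4 l l'| ≤ ∑ l, ∑ l', wt v * |C4 l l'| := by
          have h3 : wt v * |C4 l l'| ≤ ∑ l', wt v * |C4 l l'| :=
            Finset.single_le_sum (f := fun l' => wt v * |C4 l l'|)
              (fun l' _ => mul_nonneg hw.le (abs_nonneg _)) (Finset.mem_univ l')
          exact h3.trans (Finset.single_le_sum (f := fun l => ∑ l', wt v * |C4 l l'|)
            (fun l _ => Finset.sum_nonneg fun l' _ => mul_nonneg hw.le (abs_nonneg _))
            (Finset.mem_univ l))
        have h3 : ∀ a : ℝ, a ≤ C4 l l' → wt v * a ≤ wt v * |C4 l l'| := fun a ha =>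
          mul_le_mul_of_nonneg_left (ha.trans (le_abs_self _)) hw.le
        rcases h1 with h1 | h1
        · have := h3 _ h1
          have := hsm l hl
          linarith
        · have := h3 _ h1
          have := hsm l' hl'
          linarith

end Pool.Agent.R405.PP
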