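import Mathlib
import Pool.Agent.R405.PP6

/-!
Products of projective lines: the main inequality.
-/

set_option autoImplicit false
set_option linter.unusedSectionVars false

open Finset

namespace Pool.Agent.R405.PP

open NumberField IsDedekindDomain Height Module
open Pool.Agent.W180.OP (Pl av wt nrm le_nrm nrm_pos nrm_nonneg exists_nrm lam lam_eq liou wt_nonneg
  nrm_le min_lam)

section big

variable {V : Type} [Fintype V] [DecidableEq V] {k K : Type} [Field k] [NumberField k] [Field K]
  [NumberField K] [Algebra k K]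

/-- the main inequality over a large field -/
theorem ppK [IsGalois ℚ K] (hi : ∃ z : K, z ^ 2 = -1) {ι : Type} [Fintype ι] [DecidableEq ι]
    (F : ι → Cp V K) (hOk : ∀ l, Ok k (F l)) (hNC : NC F univ) :
    ∃ Z : Set (Cp V K), Z.Finite ∧ (∀ c ∈ Z, OkZ k c) ∧ ∀ (v : Pl k) (f : AbsoluteValue K ℝ),
      Good v f → ∀ ε : ℝ, 0 < ε → ∃ C : ℝ, ∀ x : V → Fin 2 → k, (∀ m, x m ≠ 0) →
        (∀ c ∈ Z, c.val (ex K x) ≠ 0) →
        wt v * ∑ l, (F l).lam f (ex K x) ≤ (2 + ε) * ∑ m, logHeight (x m) + C := by
  classical
  have hin : ∀ l, (F l).In (univ : Finset V) := by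
    intro l
    cases F l with
    | mk i a => exact Finset.mem_univ _
    | bl i j A => exact ⟨Finset.mem_univ _, Finset.mem_univ _⟩
  choose Z hZf hZ hmain using fun s : Finset ι => thresh (k := k) hi s.card s rfl F univ
    (fun l _ => hOk l) (fun l _ => hin l) (hNC.mono (Finset.subset_univ s))
  refine ⟨⋃ s, Z s, Set.finite_iUnion hZf, fun c hc => ?_, fun v f hf ε hε => ?_⟩
  · obtain ⟨s, hs⟩ := Set.mem_iUnion.1 hc
    exact hZ s c hs
  · choose C hC0 hC using fun s => hmain s v f hf ε hε
    set C0 : ℝ := ∑ s, C s with hC0'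
    have hCle : ∀ s, C s ≤ C0 := fun s =>
      Finset.single_le_sum (f := C) (fun s _ => hC0 s) (Finset.mem_univ s)
    have hC00 : 0 ≤ C0 := Finset.sum_nonneg fun s _ => hC0 s
    refine ⟨Fintype.card V * C0 + Fintype.card ι * C0, fun x hx hZx => ?_⟩
    have h1 := major (Fintype.card ι) (univ : Finset ι) (univ : Finset V)
      (fun l => wt v * (F l).lam f (ex K x)) (fun m => (2 + ε) * logHeight (x m) + C0) C0
      rfl hC00 (fun m => by
        have := mul_nonneg (by linarith : (0 : ℝ) ≤ 2 + ε) (logHeight_nonneg (x m))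
        linarith) (fun t ht => by
        set s : Finset ι := univ.filter fun l => t < wt v * (F l).lam f (ex K x) with hs
        refine (hC s t ((hCle s).trans ht) x hx (fun c hc => hZx c (Set.mem_iUnion.2 ⟨s, hc⟩))
          (fun l hl => (Finset.mem_filter.1 hl).2)).trans (Finset.card_le_card ?_)
        intro m hm
        rw [Finset.mem_filter] at hm ⊢
        exact ⟨hm.1, hm.2.trans_le (by linarith [hCle s])⟩)
    rw [← Finset.mul_sum, Finset.sum_add_distrib, ← Finset.mul_sum, Finset.sum_const,
      nsmul_eq_mul] at h1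
    simp only [Finset.card_univ] at h1
    linarith

end big

section bc

variable {V : Type} [Fintype V] [DecidableEq V] {K M : Type} [Field K] [Field M] [Algebra K M]

/-- base change -/
def Cp.bc (M : Type) [Field M] [Algebra K M] (c : Cp V K) : Cp V M :=
  match c with
  | .mk i a => .mk i (fun b => algebraMap K M (a b))
  | .bl i j A => .bl i j (A.map (algebraMap K M))

theorem val_bc {L : Type} [Field L] [Algebra K L] [Algebra M L] [IsScalarTower K M L] (c : Cp V K)
    (y : V → Fin 2 → L) : (c.bc M).val y = c.val y := by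
  cases c with
  | mk i a =>
    simp only [Cp.bc, Cp.val]
    exact Finset.sum_congr rfl fun b _ => by rw [← IsScalarTower.algebraMap_apply]
  | bl i j A =>
    simp only [Cp.bc, Cp.val, Matrix.map_apply]
    exact Finset.sum_congr rfl fun b _ => Finset.sum_congr rfl fun c _ => by
      rw [← IsScalarTower.algebraMap_apply]

theorem der_bc {L : Type} [Field L] [Algebra K L] [Algebra M L] [IsScalarTower K M L] (c : Cp V K)
    (y z : V → Fin 2 → L) : (c.bc M).der y z = c.der y z := by
  cases c with
  | mk i a =>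
    simp only [Cp.bc, Cp.der]
    congr 1
    exact Finset.sum_congr rfl fun b _ => by rw [← IsScalarTower.algebraMap_apply]
  | bl i j A =>
    simp only [Cp.bc, Cp.der, Matrix.map_apply]
    congr 2 <;>
    exact Finset.sum_congr rfl fun b _ => Finset.sum_congr rfl fun c _ => by
      rw [← IsScalarTower.algebraMap_apply]

theorem NC.bc {ι : Type} {F : ι → Cp V K} {s : Finset ι} (h : NC F s) :
    NC (fun l => (F l).bc M) s := by
  intro L _ _ y z hyz g hg hsum l hl
  let _ : Algebra K L := ((algebraMap M L).comp (algebraMap K M)).toAlgebra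
  have : IsScalarTower K M L := IsScalarTower.of_algebraMap_eq fun _ => rfl
  refine h L y z hyz g (fun l hl hv => hg l hl ?_) ?_ l hl
  · rw [val_bc]
    exact hv
  · rw [← hsum]
    exact Finset.sum_congr rfl fun l _ => by rw [der_bc]

theorem bc_val_up (c : Cp V K) (x : V → Fin 2 → K) :
    (c.bc M).val (fun m b => algebraMap K M (x m b)) = algebraMap K M (c.val x) := by
  rw [val_bc (L := M)]
  cases c with
  | mk i a =>
    simp only [Cp.val, map_sum, map_mul]
    rfl
  | bl i j A =>
    simp only [Cp.val, map_sum, map_mul]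
    rfl

end bc

section final

variable {V : Type} [Fintype V] [DecidableEq V] {k K : Type} [Field k] [NumberField k] [Field K]
  [NumberField K] [Algebra k K]

/-- the degree of a component in a coordinate -/
def Cp.deg {V K : Type} [DecidableEq V] (c : Cp V K) (i : V) : ℕ :=
  match c with
  | .mk m _ => if m = i then 1 else 0
  | .bl m l _ => (if m = i then 1 else 0) + (if l = i then 1 else 0)

theorem N_eq (f : AbsoluteValue K ℝ) (c : Cp V K) (x : V → Fin 2 → K) :
    c.N f x = ∏ i, nrm f (x i) ^ c.deg i := by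
  classical
  have h1 : ∀ m : V, ∏ i, nrm f (x i) ^ (if m = i then 1 else 0) = nrm f (x m) := by
    intro m
    rw [Finset.prod_eq_single m]
    · rw [if_pos rfl, pow_one]
    · intro i _ hi
      rw [if_neg (Ne.symm hi), pow_zero]
    · intro h
      exact absurd (Finset.mem_univ _) h
  cases c with
  | mk m a =>
    simp only [Cp.N, Cp.deg]
    exact (h1 m).symm
  | bl m l A =>
    simp only [Cp.N, Cp.deg, pow_add, Finset.prod_mul_distrib]
    rw [h1, h1]

/-- the main inequality -/
theorem ppT {ι : Type} [Fintype ι] (F : ι → Cp V K) (hOk : ∀ l, Ok k (F l)) (hNC : NC F univ) :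
    ∃ Z : Finset (V × V × Matrix (Fin 2) (Fin 2) k),
      (∀ z ∈ Z, (z.1 ≠ z.2.1 → z.2.2.det ≠ 0) ∧ (z.1 = z.2.1 →
        z.2.2 0 0 ≠ 0 ∨ z.2.2 1 1 ≠ 0 ∨ z.2.2 0 1 + z.2.2 1 0 ≠ 0)) ∧
      ∀ (v : Pl k) (ε : ℝ), 0 < ε → ∃ C : ℝ, ∀ (x : V → Fin 2 → k) (g : k), (∀ m, x m ≠ 0) →
        g ≠ 0 → algebraMap k K g = ∏ l, (F l).val (ex K x) →
        (∀ z ∈ Z, ∑ b, ∑ c, z.2.2 b c * x z.1 b * x z.2.1 c ≠ 0) →
        wt v * (Real.log (∏ i, nrm (av v) (x i) ^ (∑ l, (F l).deg i)) - Real.log (av v g)) ≤
          (2 + ε) * ∑ m, logHeight (x m) + C := by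
  classical
  obtain ⟨M, hM1, hM2, hi, ⟨φ⟩⟩ := exists_big K
  have : NumberField M := ⟨⟩
  let _ : Algebra K M := φ.toAlgebra
  let _ : Algebra k M := (φ.comp (algebraMap k K)).toAlgebra
  have : IsScalarTower k K M := IsScalarTower.of_algebraMap_eq fun _ => rfl
  obtain ⟨ZM, hZMf, hZM, hmain⟩ := ppK (k := k) hi (fun l => (F l).bc M) (by
    intro l
    have h1 := hOk l
    cases hF : F l with
    | mk i a =>
      rw [hF] at h1
      show (fun b => algebraMap K M (a b)) ≠ 0
      intro h0
      apply (h1 : a ≠ 0)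
      funext b
      have := congrFun h0 b
      simpa using this
    | bl i j A =>
      rw [hF] at h1
      obtain ⟨⟨A0, hA0⟩, hd⟩ := h1
      refine ⟨⟨A0, ?_⟩, fun hij => ?_⟩
      · rw [hA0]
        ext b c
        rfl
      · have h2 : (A.map (algebraMap K M)).det = algebraMap K M A.det :=
          ((algebraMap K M).map_det A).symm
        rw [h2, Ne, map_eq_zero]
        exact hd hij) hNC.bc
  -- the exceptional forms over the base
  have hconv : ∀ c : Cp V M, c ∈ ZM → ∃ z : V × V × Matrix (Fin 2) (Fin 2) k,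
      ((z.1 ≠ z.2.1 → z.2.2.det ≠ 0) ∧ (z.1 = z.2.1 →
        z.2.2 0 0 ≠ 0 ∨ z.2.2 1 1 ≠ 0 ∨ z.2.2 0 1 + z.2.2 1 0 ≠ 0)) ∧
      ∀ x : V → Fin 2 → k, ∑ b, ∑ c, z.2.2 b c * x z.1 b * x z.2.1 c ≠ 0 →
        c.val (ex M x) ≠ 0 := by
    intro c hc
    · have h1 := hZM c hc
      cases c with
      | mk i a =>
        obtain ⟨g, hg0, hg⟩ := descend (k := k) a h1
        refine ⟨(i, i, Matrix.of fun b c => g b * g c), ⟨fun h => absurd rfl h,
          fun _ => ?_⟩, fun x hx => ?_⟩
        · obtain ⟨b, hb⟩ := Function.ne_iff.1 hg0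
          have hb' : g b ≠ 0 := hb
          fin_cases b
          · left
            exact mul_ne_zero hb' hb'
          · right; left
            exact mul_ne_zero hb' hb'
        · refine hg (x i) fun h0 => hx ?_
          have h2 : ∑ b, ∑ c, (Matrix.of fun b c => g b * g c) b c * x i b * x i c =
              (∑ j, g j * x i j) * ∑ j, g j * x i j := by
            simp only [Fin.sum_univ_two, Matrix.of_apply]
            ring
          show ∑ b, ∑ c, (Matrix.of fun b c => g b * g c) b c * x i b * x i c = 0
          rw [h2, h0, mul_zero]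
      | bl i j A =>
        obtain ⟨⟨A0, rfl⟩, h2, h3⟩ := h1
        refine ⟨(i, j, A0), ⟨fun hij h0 => ?_, fun hij => ?_⟩, fun x hx h0 => hx ?_⟩
        · apply h2 hij
          have h4 : (A0.map (algebraMap k M)).det = algebraMap k M A0.det :=
            ((algebraMap k M).map_det A0).symm
          rw [h4]
          show algebraMap k M A0.det = 0
          rw [show A0.det = 0 from h0, map_zero]
        · rcases h3 hij with h4 | h4 | h4
          · left
            intro h5
            apply h4
            rw [Matrix.map_apply]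
            show algebraMap k M (A0 0 0) = 0
            rw [show A0 0 0 = 0 from h5, map_zero]
          · right; left
            intro h5
            apply h4
            rw [Matrix.map_apply]
            rw [show A0 1 1 = 0 from h5, map_zero]
          · right; right
            intro h5
            apply h4
            rw [Matrix.map_apply, Matrix.map_apply, ← map_add]
            rw [show A0 0 1 + A0 1 0 = 0 from h5, map_zero]
        · have h4 : (Cp.bl i j (A0.map (algebraMap k M)) : Cp V M).val (ex M x) =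
              algebraMap k M (∑ b, ∑ c, A0 b c * x i b * x j c) := by
            rw [val_bl, map_sum]
            refine Finset.sum_congr rfl fun b _ => ?_
            rw [map_sum]
            refine Finset.sum_congr rfl fun c _ => ?_
            rw [map_mul, map_mul]
            rfl
          rw [h4] at h0
          exact (map_eq_zero _).1 h0
  choose z hz1 hz2 using fun c : ZM => hconv c.1 c.2
  have hfinZ : Finite ZM := hZMf.to_subtype
  have hrange : (Set.range z).Finite := Set.finite_range z
  refine ⟨hrange.toFinset, fun w hw => ?_, fun v ε hε => ?_⟩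
  · obtain ⟨c, rfl⟩ := (Set.Finite.mem_toFinset _).1 hw
    exact hz1 c
  · obtain ⟨f, hf⟩ := exists_good (K := M) v
    obtain ⟨C, hC⟩ := hmain v f hf ε hε
    refine ⟨C, fun x g hx hg hgF hZx => ?_⟩
    have h1 := hC x hx (fun c hc => hz2 ⟨c, hc⟩ x (hZx _ ((Set.Finite.mem_toFinset _).2
      ⟨⟨c, hc⟩, rfl⟩)))
    refine le_trans (le_of_eq ?_) h1
    congr 1
    have hexM : ex M x = fun m b => algebraMap K M (ex K x m b) := rfl
    have hval : ∀ l, ((F l).bc M).val (ex M x) = algebraMap K M ((F l).val (ex K x)) := by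
      intro l
      rw [hexM]
      exact bc_val_up (F l) (ex K x)
    have hprod : ∏ l, ((F l).bc M).val (ex M x) = algebraMap k M g := by
      simp only [hval]
      rw [← map_prod, ← hgF]
      rfl
    have hgM : algebraMap k M g ≠ 0 := by rwa [Ne, map_eq_zero]
    have hv0 : ∀ l, ((F l).bc M).val (ex M x) ≠ 0 := by
      intro l h0
      apply hgM
      rw [← hprod]
      exact Finset.prod_eq_zero (Finset.mem_univ l) h0
    have hxM : ∀ m, ex M x m ≠ 0 := fun m => exv_ne (hx m)
    have hN : ∀ l, 0 < ((F l).bc M).N f (ex M x) := fun l => Cp.N_pos f _ hxM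
    simp only [Cp.lam]
    rw [Finset.sum_sub_distrib, ← Real.log_prod (fun l _ => (hN l).ne'),
      ← Real.log_prod (fun l _ => (f.pos_iff.2 (hv0 l)).ne'), ← map_prod f, hprod, hf.ext]
    congr 2
    have h2 : ∀ l, ((F l).bc M).N f (ex M x) = ∏ i, nrm (av v) (x i) ^ (F l).deg i := by
      intro l
      rw [N_eq]
      refine Finset.prod_congr rfl fun i _ => ?_
      have h3 : nrm f (ex M x i) = nrm (av v) (x i) := hf.nrm_ext (x i)
      rw [h3]
      congr 1
      cases F l <;> rfl
    simp only [h2]
    rw [Finset.prod_comm]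
    exact Finset.prod_congr rfl fun i _ => (Finset.prod_pow_eq_pow_sum _ _ _).symm

end final

end Pool.Agent.R405.PP
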