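import Mathlib
import Pool.Agent.R405.QS3

/-!
Quadric surfaces: the lines of the surface.
-/

set_option autoImplicit false
set_option linter.unusedSectionVars false

open Finset

namespace Pool.Agent.R405.QS

open NumberField IsDedekindDomain Height Module MvPolynomial
open Pool.Agent.W180.OP (Pl av wt nrm le_nrm nrm_pos nrm_nonneg exists_nrm lam lam_eq liou wt_nonneg
  sum_le_of_few)
open Pool.Agent.R405

variable {F : Type} [Field F]

/-- a rank one matrix -/
theorem rk1 (p q r s : F) (h : p * s = q * r) : ∃ u v : Fin 2 → F,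
    p = u 0 * v 0 ∧ q = u 0 * v 1 ∧ r = u 1 * v 0 ∧ s = u 1 * v 1 := by
  by_cases hp : p = 0
  · subst hp
    by_cases hq : q = 0
    · subst hq
      exact ⟨![0, 1], ![r, s], by simp, by simp, by simp, by simp⟩
    · have hr : r = 0 := by
        rw [zero_mul] at h
        exact (mul_eq_zero.1 h.symm).resolve_left hq
      subst hr
      refine ⟨![1, s / q], ![0, q], by simp, by simp, by simp, ?_⟩
      simp [hq]
  · refine ⟨![1, r / p], ![p, q], by simp, by simp, ?_, ?_⟩
    · simp [hp]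
    · simp only [Matrix.cons_val]
      field_simp
      linear_combination h

/-- points with given coordinates -/
theorem exists_pt (E : Fin 4 → Fin 4 → F) (hE : (Matrix.of E).det ≠ 0) (c : Fin 4 → F) :
    ∃ y : Fin 4 → F, ∀ l, dot (E l) y = c l := by
  have hinv : (Matrix.of E) * (Matrix.of E)⁻¹ = 1 := Matrix.mul_nonsing_inv _ (IsUnit.mk0 _ hE)
  refine ⟨(Matrix.of E)⁻¹.mulVec c, fun l => ?_⟩
  have h1 : (Matrix.of E).mulVec ((Matrix.of E)⁻¹.mulVec c) = c := by
    rw [Matrix.mulVec_mulVec, hinv, Matrix.one_mulVec]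
  exact congrFun h1 l

theorem eq_zero_of_E (E : Fin 4 → Fin 4 → F) (hE : (Matrix.of E).det ≠ 0) {y : Fin 4 → F}
    (h : ∀ l, dot (E l) y = 0) : y = 0 := by
  by_contra hy
  exact hE (Matrix.exists_mulVec_eq_zero_iff.1 ⟨y, hy, funext h⟩)

theorem dot_addx (g x y : Fin 4 → F) : dot g (x + y) = dot g x + dot g y := by
  simp only [dot, Pi.add_apply, mul_add, Finset.sum_add_distrib]

theorem dot_smulx (g : Fin 4 → F) (c : F) (x : Fin 4 → F) : dot g (c • x) = c * dot g x := by
  simp only [dot, Pi.smul_apply, smul_eq_mul, Finset.mul_sum]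
  exact Finset.sum_congr rfl fun _ _ => by ring

theorem row_li (E : Fin 4 → Fin 4 → F) (hE : (Matrix.of E).det ≠ 0) {a : Fin 2 → F} (ha : a ≠ 0) :
    ∀ s t : F, s • row E a 0 + t • row E a 1 = 0 → s = 0 ∧ t = 0 := by
  intro s t hst
  have hy : ∀ y, s * dot (row E a 0) y + t * dot (row E a 1) y = 0 := by
    intro y
    rw [← dot_smul, ← dot_smul, ← dot_add, hst]
    simp [dot]
  simp only [dot_row0, dot_row1] at hy
  by_cases h0 : a 0 = 0
  · have h1 : a 1 ≠ 0 := by
      intro h1
      apply ha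
      funext i
      fin_cases i
      · exact h0
      · exact h1
    obtain ⟨y, hy1⟩ := exists_pt E hE ![0, 0, 1, 0]
    obtain ⟨z, hz1⟩ := exists_pt E hE ![0, 0, 0, 1]
    have e1 := hy y
    have e2 := hy z
    rw [hy1, hy1, hy1, hy1] at e1
    rw [hz1, hz1, hz1, hz1] at e2
    simp only [Matrix.cons_val, mul_zero, zero_add, mul_one, add_zero] at e1 e2
    exact ⟨(mul_eq_zero.1 e1).resolve_right h1, (mul_eq_zero.1 e2).resolve_right h1⟩
  · obtain ⟨y, hy1⟩ := exists_pt E hE ![1, 0, 0, 0]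
    obtain ⟨z, hz1⟩ := exists_pt E hE ![0, 1, 0, 0]
    have e1 := hy y
    have e2 := hy z
    rw [hy1, hy1, hy1, hy1] at e1
    rw [hz1, hz1, hz1, hz1] at e2
    simp only [Matrix.cons_val, mul_zero, zero_add, mul_one, add_zero] at e1 e2
    exact ⟨(mul_eq_zero.1 e1).resolve_right h0, (mul_eq_zero.1 e2).resolve_right h0⟩

theorem conv (g g' : Fin 2 → Fin 4 → F)
    (hli : ∀ s t : F, s • g' 0 + t • g' 1 = 0 → s = 0 ∧ t = 0)
    (h : ∀ y, (∀ j, dot (g j) y = 0) → ∀ j, dot (g' j) y = 0) (y : Fin 4 → F)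
    (hy : ∀ j, dot (g' j) y = 0) : ∀ j, dot (g j) y = 0 := by
  obtain ⟨c, hc⟩ := cmp g (g' 0) fun y hy => h y hy 0
  obtain ⟨d, hd⟩ := cmp g (g' 1) fun y hy => h y hy 1
  have h1 : d 1 • g' 0 + (-(c 1)) • g' 1 = (c 0 * d 1 - c 1 * d 0) • g 0 := by
    rw [hc, hd]
    module
  have h2 : (-(d 0)) • g' 0 + c 0 • g' 1 = (c 0 * d 1 - c 1 * d 0) • g 1 := by
    rw [hc, hd]
    module
  have hD : c 0 * d 1 - c 1 * d 0 ≠ 0 := by
    intro h0
    rw [h0, zero_smul] at h1 h2
    have e1 := hli _ _ h1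
    have e2 := hli _ _ h2
    have e3 : g' 0 = 0 := by
      rw [hc, e2.2, neg_eq_zero.1 e1.2, zero_smul, zero_smul, add_zero]
    have e4 := hli 1 0 (by rw [e3]; simp)
    exact one_ne_zero e4.1
  intro j
  have e1 := congrArg (fun u => dot u y) h1
  have e2 := congrArg (fun u => dot u y) h2
  simp only [dot_add, dot_smul, hy, mul_zero, add_zero] at e1 e2
  fin_cases j
  · exact (mul_eq_zero.1 e1.symm).resolve_left hD
  · exact (mul_eq_zero.1 e2.symm).resolve_left hD

theorem classify (E : Fin 4 → Fin 4 → F) (hE : (Matrix.of E).det ≠ 0) (g : Fin 2 → Fin 4 → F)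
    (hon : ∀ y, (∀ j, dot (g j) y = 0) → On E y) :
    (∃ a : Fin 2 → F, a ≠ 0 ∧ ∀ y, (∀ j, dot (g j) y = 0) ↔ ∀ j, dot (row E a j) y = 0) ∨
    (∃ b : Fin 2 → F, b ≠ 0 ∧ ∀ y, (∀ j, dot (g j) y = 0) ↔ ∀ j, dot (row (swp E) b j) y = 0) := by
  classical
  -- a nonzero point
  obtain ⟨w, hw, h0⟩ := Matrix.exists_mulVec_eq_zero_iff.2
    (Matrix.det_eq_zero_of_row_eq_zero (A := Matrix.of ![g 0, g 1, 0, 0]) 2 fun j => rfl)
  have hwg : ∀ j, dot (g j) w = 0 := by
    intro j
    fin_cases j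
    · exact congrFun h0 0
    · exact congrFun h0 1
  obtain ⟨u, v, e0, e1, e2, e3⟩ := rk1 _ _ _ _ (hon w hwg)
  have hu : u ≠ 0 := by
    rintro rfl
    apply hw
    refine eq_zero_of_E E hE fun l => ?_
    rcases (by decide : ∀ l : Fin 4, l = 0 ∨ l = 1 ∨ l = 2 ∨ l = 3) l with rfl | rfl | rfl | rfl
    · rw [e0]; simp
    · rw [e1]; simp
    · rw [e2]; simp
    · rw [e3]; simp
  have hv : v ≠ 0 := by
    rintro rfl
    apply hw
    refine eq_zero_of_E E hE fun l => ?_
    rcases (by decide : ∀ l : Fin 4, l = 0 ∨ l = 1 ∨ l = 2 ∨ l = 3) l with rfl | rfl | rfl | rfl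
    · rw [e0]; simp
    · rw [e1]; simp
    · rw [e2]; simp
    · rw [e3]; simp
  have hne : ∀ u : Fin 2 → F, u ≠ 0 → (![-(u 1), u 0] : Fin 2 → F) ≠ 0 := by
    intro u hu h
    apply hu
    have h1 := congrFun h 0
    have h2 := congrFun h 1
    simp only [Matrix.cons_val, Pi.zero_apply, neg_eq_zero] at h1 h2
    funext i
    fin_cases i
    · exact h2
    · exact h1
  set a : Fin 2 → F := ![-(u 1), u 0] with ha
  set b : Fin 2 → F := ![-(v 1), v 0] with hb
  have hor : ∀ y, (∀ j, dot (g j) y = 0) → (∀ j, dot (row E a j) y = 0) ∨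
      (∀ j, dot (row (swp E) b j) y = 0) := by
    intro y hy
    obtain ⟨u', v', f0, f1, f2, f3⟩ := rk1 _ _ _ _ (hon y hy)
    have hs := hon (w + y) (fun j => by rw [dot_addx, hwg, hy, add_zero])
    unfold On at hs
    rw [dot_addx, dot_addx, dot_addx, dot_addx, e0, e1, e2, e3, f0, f1, f2, f3] at hs
    have hp : (u 0 * u' 1 - u 1 * u' 0) * (v 0 * v' 1 - v 1 * v' 0) = 0 := by
      linear_combination hs
    rcases mul_eq_zero.1 hp with h | h
    · left
      intro j
      fin_cases j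
      · show dot (row E a 0) y = 0
        rw [dot_row0, f0, f2]
        simp only [ha, Matrix.cons_val]
        linear_combination v' 0 * h
      · show dot (row E a 1) y = 0
        rw [dot_row1, f1, f3]
        simp only [ha, Matrix.cons_val]
        linear_combination v' 1 * h
    · right
      intro j
      fin_cases j
      · show dot (row (swp E) b 0) y = 0
        rw [dot_col0, f0, f1]
        simp only [hb, Matrix.cons_val]
        linear_combination u' 0 * h
      · show dot (row (swp E) b 1) y = 0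
        rw [dot_col1, f2, f3]
        simp only [hb, Matrix.cons_val]
        linear_combination u' 1 * h
  by_cases hP : ∀ y, (∀ j, dot (g j) y = 0) → ∀ j, dot (row E a j) y = 0
  · left
    exact ⟨a, hne u hu, fun y => ⟨hP y, conv g (row E a) (row_li E hE (hne u hu)) hP y⟩⟩
  · right
    push Not at hP
    obtain ⟨y2, hy2, j2, hj2⟩ := hP
    have hR2 : ∀ j, dot (row (swp E) b j) y2 = 0 :=
      (hor y2 hy2).resolve_left fun h => hj2 (h j2)
    have hR : ∀ y, (∀ j, dot (g j) y = 0) → ∀ j, dot (row (swp E) b j) y = 0 := by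
      intro y3 hy3
      rcases hor y3 hy3 with h3 | h3
      · rcases hor (y2 + y3) (fun j => by rw [dot_addx, hy2, hy3, add_zero]) with h | h
        · exfalso
          apply hj2
          have := h j2
          rwa [dot_addx, h3, add_zero] at this
        · intro j
          have := h j
          rwa [dot_addx, hR2, zero_add] at this
      · exact h3
    exact ⟨b, hne v hv, fun y => ⟨hR y, conv g (row (swp E) b)
      (row_li (swp E) (by
        intro h
        obtain ⟨w, hw, h0⟩ := Matrix.exists_mulVec_eq_zero_iff.2 h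
        apply hE
        apply Matrix.exists_mulVec_eq_zero_iff.1
        refine ⟨w, hw, ?_⟩
        funext i
        have h1 : ∀ i, dot (swp E i) w = 0 := fun i => congrFun h0 i
        show dot (E i) w = 0
        rcases (by decide : ∀ l : Fin 4, l = 0 ∨ l = 1 ∨ l = 2 ∨ l = 3) i with
          rfl | rfl | rfl | rfl
        · exact h1 0
        · exact h1 2
        · exact h1 1
        · exact h1 3) (hne v hv)) hR y⟩⟩

/-- two lines of one ruling are disjoint -/
theorem dis (f : AbsoluteValue F ℝ) (E : Fin 4 → Fin 4 → F) (hE : (Matrix.of E).det ≠ 0)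
    (a a' : Fin 2 → F) (hD : a 0 * a' 1 - a 1 * a' 0 ≠ 0) : ∃ C : ℝ, 0 ≤ C ∧
      ∀ x : Fin 4 → F, x ≠ 0 → 0 < nn f (row E a) x → 0 < nn f (row E a') x →
        min (lm f (row E a) x) (lm f (row E a') x) ≤ C := by
  obtain ⟨CE, hCE, h⟩ := nrm_le_E f E hE
  set D : F := a 0 * a' 1 - a 1 * a' 0 with hDdef
  have hD0 : 0 < f D := f.pos_iff.2 hD
  set B : ℝ := 1 + ∑ i, f (a i) + ∑ i, f (a' i) with hB
  have ha : 0 ≤ ∑ i, f (a i) := Finset.sum_nonneg fun _ _ => f.nonneg _
  have hc : 0 ≤ ∑ i, f (a' i) := Finset.sum_nonneg fun _ _ => f.nonneg _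
  have hB1 : 1 ≤ B := by linarith
  refine ⟨|Real.log (CE * (2 * B / f D))|, abs_nonneg _, fun x hx h1 h2 => ?_⟩
  have hN : 0 < nrm f x := nrm_pos f hx
  set T : ℝ := max (nn f (row E a) x) (nn f (row E a') x) with hT
  have hT0 : 0 < T := h1.trans_le (le_max_left _ _)
  have hai : ∀ i, f (a i) ≤ B := fun i => by
    have := Finset.single_le_sum (f := fun i => f (a i)) (fun _ _ => f.nonneg _) (Finset.mem_univ i)
    linarith
  have hci : ∀ i, f (a' i) ≤ B := fun i => by
    have := Finset.single_le_sum (f := fun i => f (a' i)) (fun _ _ => f.nonneg _)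
      (Finset.mem_univ i)
    linarith
  have t1 : ∀ i j, f (a i) * f (dot (row E a' j) x) ≤ B * T := fun i j =>
    mul_le_mul (hai i) ((le_nn f _ x j).trans (le_max_right _ _)) (f.nonneg _) (by linarith)
  have t2 : ∀ i j, f (a' i) * f (dot (row E a j) x) ≤ B * T := fun i j =>
    mul_le_mul (hci i) ((le_nn f _ x j).trans (le_max_left _ _)) (f.nonneg _) (by linarith)
  have key : ∀ (e : F) (i j : Fin 2) (s : F), D * e = a' i * dot (row E a j) x +
      s * (a i * dot (row E a' j) x) → f s = 1 → f e ≤ 2 * B / f D * T := by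
    intro e i j s he hs
    rw [div_mul_eq_mul_div, le_div_iff₀ hD0, mul_comm, ← map_mul, he]
    refine (f.add_le _ _).trans ?_
    rw [map_mul, map_mul, map_mul, hs, one_mul]
    linarith [t1 i j, t2 i j]
  have hneg : f (-1 : F) = 1 := by rw [AbsoluteValue.map_neg, map_one]
  have h3 : nrm f x ≤ CE * (2 * B / f D * T) := by
    refine h x _ fun l => ?_
    rcases (by decide : ∀ l : Fin 4, l = 0 ∨ l = 1 ∨ l = 2 ∨ l = 3) l with rfl | rfl | rfl | rfl
    · refine key _ 1 0 (-1) ?_ hneg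
      rw [dot_row0, dot_row0]
      ring
    · refine key _ 1 1 (-1) ?_ hneg
      rw [dot_row1, dot_row1]
      ring
    · have := key (-(dot (E 2) x)) 0 0 (-1) (by
        rw [dot_row0, dot_row0]
        ring) hneg
      rwa [AbsoluteValue.map_neg] at this
    · have := key (-(dot (E 3) x)) 0 1 (-1) (by
        rw [dot_row1, dot_row1]
        ring) hneg
      rwa [AbsoluteValue.map_neg] at this
  rw [← mul_assoc] at h3
  have h5 := Real.log_le_log hN h3
  have hpos : 0 < CE * (2 * B / f D) := by positivity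
  rw [Real.log_mul hpos.ne' hT0.ne'] at h5
  have h6 : min (lm f (row E a) x) (lm f (row E a') x) ≤ Real.log (nrm f x) - Real.log T := by
    rcases max_choice (nn f (row E a) x) (nn f (row E a') x) with h | h
    · rw [hT, h]
      exact min_le_left _ _
    · rw [hT, h]
      exact min_le_right _ _
  have := le_abs_self (Real.log (CE * (2 * B / f D)))
  linarith

/-- comparison of the local heights -/
theorem lm_cmp (f : AbsoluteValue F ℝ) (g g' : Fin 2 → Fin 4 → F)
    (h : ∀ y : Fin 4 → F, (∀ j, dot (g j) y = 0) → ∀ j, dot (g' j) y = 0) :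
    ∃ C : ℝ, 0 ≤ C ∧ ∀ x : Fin 4 → F, x ≠ 0 → 0 < nn f g x → 0 < nn f g' x →
      lm f g x ≤ lm f g' x + C := by
  obtain ⟨c, hc⟩ := cmp g (g' 0) fun y hy => h y hy 0
  obtain ⟨d, hd⟩ := cmp g (g' 1) fun y hy => h y hy 1
  set B : ℝ := 1 + ∑ i, f (c i) + ∑ i, f (d i) with hB
  have h0 : 0 ≤ ∑ i, f (c i) := Finset.sum_nonneg fun _ _ => f.nonneg _
  have h1 : 0 ≤ ∑ i, f (d i) := Finset.sum_nonneg fun _ _ => f.nonneg _
  refine ⟨Real.log B, Real.log_nonneg (by linarith), fun x hx hp hp' => ?_⟩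
  have hn := nn_nonneg f g x
  have key : ∀ (u : Fin 4 → F) (c : Fin 2 → F), u = c 0 • g 0 + c 1 • g 1 →
      f (dot u x) ≤ (∑ i, f (c i)) * nn f g x := by
    intro u c hu
    rw [hu, dot_add, dot_smul, dot_smul, Fin.sum_univ_two]
    refine (f.add_le _ _).trans ?_
    rw [map_mul, map_mul, add_mul]
    exact add_le_add (mul_le_mul_of_nonneg_left (le_nn f g x 0) (f.nonneg _))
      (mul_le_mul_of_nonneg_left (le_nn f g x 1) (f.nonneg _))
  have h2 : nn f g' x ≤ B * nn f g x := by
    refine nn_le fun i => ?_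
    fin_cases i
    · exact (key _ c hc).trans (mul_le_mul_of_nonneg_right (by linarith) hn)
    · exact (key _ d hd).trans (mul_le_mul_of_nonneg_right (by linarith) hn)
  have h3 := Real.log_le_log hp' h2
  rw [Real.log_mul (by linarith) hp.ne'] at h3
  unfold lm
  linarith

end Pool.Agent.R405.QS
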