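import Mathlib
import Pool.Agent.R405.QS4

/-!
Vojta's inequality on smooth quadric surfaces at one place.
-/

set_option autoImplicit false
set_option linter.unusedSectionVars false

open Finset

namespace Pool.Agent.R405.QS

open NumberField IsDedekindDomain Height Module MvPolynomial
open Pool.Agent.W180.OP (Pl av wt nrm le_nrm nrm_pos nrm_nonneg exists_nrm lam lam_eq liou wt_nonneg
  sum_le_of_few not_small)
open Pool.Agent.R405

variable {k K : Type} [Field k] [NumberField k] [Field K] [NumberField K] [Algebra k K]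

/-- twice the bilinear form -/
theorem polar {k M L : Type} [Field k] [Field M] [Algebra k M] [Field L] [Algebra M L]
    (A : Matrix (Fin 4) (Fin 4) k) (E : Fin 4 → Fin 4 → M)
    (hAE : ∀ i j, 2 * algebraMap k M (A i j) =
      E 0 i * E 3 j + E 3 i * E 0 j - E 1 i * E 2 j - E 2 i * E 1 j) (y z : Fin 4 → L) :
    2 * ∑ i, ∑ j, algebraMap M L (algebraMap k M (A i j)) * y i * z j =
      dot (exv L (E 0)) y * dot (exv L (E 3)) z + dot (exv L (E 3)) y * dot (exv L (E 0)) z -
      dot (exv L (E 1)) y * dot (exv L (E 2)) z - dot (exv L (E 2)) y * dot (exv L (E 1)) z := by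
  have h : ∀ i j, 2 * algebraMap M L (algebraMap k M (A i j)) =
      algebraMap M L (E 0 i) * algebraMap M L (E 3 j) +
      algebraMap M L (E 3 i) * algebraMap M L (E 0 j) -
      algebraMap M L (E 1 i) * algebraMap M L (E 2 j) -
      algebraMap M L (E 2 i) * algebraMap M L (E 1 j) := by
    intro i j
    rw [← map_mul, ← map_mul, ← map_mul, ← map_mul, ← map_add, ← map_sub, ← map_sub, ← hAE,
      map_mul, map_ofNat]
  have hd : ∀ a b : Fin 4 → L, dot a y * dot b z = ∑ i, ∑ j, (a i * y i) * (b j * z j) :=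
    fun a b => Finset.sum_mul_sum _ _ _ _
  simp only [hd, exv, Finset.mul_sum]
  rw [← Finset.sum_add_distrib, ← Finset.sum_sub_distrib, ← Finset.sum_sub_distrib]
  refine Finset.sum_congr rfl fun i _ => ?_
  rw [← Finset.sum_add_distrib, ← Finset.sum_sub_distrib, ← Finset.sum_sub_distrib]
  refine Finset.sum_congr rfl fun j _ => ?_
  linear_combination (y i * z j) * h i j

/-- the two linear forms of a component: a line or a plane -/
def fs : ((Fin 2 → Fin 4 → K) ⊕ (Fin 4 → k)) → Fin 2 → Fin 4 → K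
  | Sum.inl g => g
  | Sum.inr m => fun _ => exv K m

/-- the point is on the component -/
def Thr {L : Type} [Field L] [Algebra K L] (c : (Fin 2 → Fin 4 → K) ⊕ (Fin 4 → k))
    (y : Fin 4 → L) : Prop := ∀ j, ∑ l, algebraMap K L (fs c j l) * y l = 0

/-- the bilinear form -/
def bl (K : Type) [Field K] [Algebra k K] {L : Type} [Field L] [Algebra K L]
    (A : Matrix (Fin 4) (Fin 4) k) (y z : Fin 4 → L) : L :=
  ∑ i, ∑ j, algebraMap K L (algebraMap k K (A i j)) * y i * z j

/-- normal crossings -/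
def NCq (A : Matrix (Fin 4) (Fin 4) k) {r : ℕ}
    (c : Fin r → (Fin 2 → Fin 4 → K) ⊕ (Fin 4 → k)) : Prop :=
  ∀ (L : Type) [Field L] [Algebra K L] (y : Fin 4 → L), y ≠ 0 → bl K A y y = 0 →
    (∀ i j, i ≠ j → Thr (c i) y → Thr (c j) y → ∀ z : Fin 4 → L, Thr (c i) z → Thr (c j) z →
      bl K A y z = 0 → ∃ s : L, z = s • y) ∧
    (∀ i j l, i ≠ j → i ≠ l → j ≠ l → Thr (c i) y → Thr (c j) y → ¬ Thr (c l) y)

theorem quadT (A : Matrix (Fin 4) (Fin 4) k) (hA : A.IsSymm) (hdet : A.det ≠ 0) {r : ℕ}
    (c : Fin r → (Fin 2 → Fin 4 → K) ⊕ (Fin 4 → k))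
    (hline : ∀ i g, c i = Sum.inl g → (∀ s t : K, s • g 0 + t • g 1 = 0 → s = 0 ∧ t = 0) ∧
      ∀ (L : Type) [Field L] [Algebra K L] (y : Fin 4 → L), Thr (c i) y → bl K A y y = 0)
    (hnc : NCq A c) :
    ∃ Z : Finset (Fin 4 → k), (∀ z ∈ Z, z ≠ 0) ∧ ∀ (v : Pl k) (w : Pl K) (t : ℝ), 0 < t →
      (∀ a : k, av w (algebraMap k K a) ^ t = av v a) → ∀ ε : ℝ, 0 < ε → ∃ C : ℝ,
      ∀ x : Fin 4 → k, x ≠ 0 → ∑ i, ∑ j, A i j * x i * x j = 0 →
        (∀ i, ∃ j, dot (fs (c i) j) (exv K x) ≠ 0) → (∀ z ∈ Z, ∑ j, z j * x j ≠ 0) →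
        ∑ i, wt v * (t * lm (av w) (fs (c i)) (exv K x)) ≤ (2 + ε) * logHeight x + C := by
  classical
  obtain ⟨P, wd, hAij, hwd, hP⟩ := diag A hA hdet
  obtain ⟨M, hM1, hM2, hi, φ, hφ⟩ := exists_big2 K
    {algebraMap k K (-(wd 1 / wd 0)), algebraMap k K (-(wd 3 / wd 2))}
  have : NumberField M := ⟨⟩
  let _ : Algebra K M := φ.toAlgebra
  let _ : Algebra k M := (φ.comp (algebraMap k K)).toAlgebra
  have : IsScalarTower k K M := IsScalarTower.of_algebraMap_eq fun _ => rfl
  obtain ⟨s, hs⟩ := hφ (algebraMap k K (-(wd 1 / wd 0))) (by simp)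
  obtain ⟨r', hr⟩ := hφ (algebraMap k K (-(wd 3 / wd 2))) (by simp)
  obtain ⟨E, hE, hAE⟩ := exists_E A P wd hAij hwd hP s r' hs hr
  -- the forms over `M`
  set g : Fin r → Fin 2 → Fin 4 → M := fun i j => exv M (fs (c i) j) with hg
  have hThrM : ∀ i (y : Fin 4 → M), Thr (c i) y ↔ ∀ j, dot (g i j) y = 0 := fun i y => Iff.rfl
  have h2M : (2 : M) ≠ 0 := two_ne_zero
  have hblM : ∀ y z : Fin 4 → M, 2 * bl K A y z = dot (E 0) y * dot (E 3) z +
      dot (E 3) y * dot (E 0) z - dot (E 1) y * dot (E 2) z - dot (E 2) y * dot (E 1) z := by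
    intro y z
    exact polar (L := M) A E hAE y z
  have hblOn : ∀ y : Fin 4 → M, bl K A y y = 0 ↔ On E y := by
    intro y
    have h1 := hblM y y
    unfold On
    constructor
    · intro h
      rw [h, mul_zero] at h1
      apply mul_left_cancel₀ h2M
      linear_combination -h1
    · intro h
      apply mul_left_cancel₀ h2M
      rw [h1]
      linear_combination 2 * h
  -- the types
  have hty : ∀ i, ∃ ty : Ty k M, (∀ y, (∀ j, dot (g i j) y = 0) ↔ ∀ j, dot (fm E ty j) y = 0) ∧
      (∀ a, ty = .ra a → a ≠ 0 ∧ ∃ g', c i = Sum.inl g') ∧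
      (∀ b, ty = .cb b → b ≠ 0 ∧ ∃ g', c i = Sum.inl g') ∧ (∀ m, ty = .pl m → c i = Sum.inr m) := by
    intro i
    rcases hci : c i with g' | m
    · obtain ⟨-, hon⟩ := hline i g' hci
      rcases classify E hE (g i) (fun y hy => (hblOn y).1 (hon M y ((hThrM i y).2 hy))) with
        ⟨a, ha, h⟩ | ⟨b, hb, h⟩
      · refine ⟨.ra a, h, fun a' h' => ?_, fun _ h' => ?_, fun _ h' => ?_⟩
        · cases h'
          exact ⟨ha, g', rfl⟩
        · cases h'
        · cases h'
      · refine ⟨.cb b, h, fun a' h' => ?_, fun _ h' => ?_, fun _ h' => ?_⟩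
        · cases h'
        · cases h'
          exact ⟨hb, g', rfl⟩
        · cases h'
    · refine ⟨.pl m, fun y => ?_, fun a' h' => ?_, fun _ h' => ?_, fun _ h' => ?_⟩
      · have e1 : ∀ j, g i j = exv M m := by
          intro j
          rw [hg]
          simp only [hci, fs]
          rfl
        simp only [e1]
        rfl
      · cases h'
      · cases h'
      · cases h'
        rfl
  choose ty hty1 hty2 hty3 hty4 using hty
  -- points of a line of the first ruling
  have hpts : ∀ (E' : Fin 4 → Fin 4 → M) (hE' : (Matrix.of E').det ≠ 0) (a : Fin 2 → M), a ≠ 0 →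
      ∃ y z : Fin 4 → M, y ≠ 0 ∧ (∀ j, dot (row E' a j) y = 0) ∧ (∀ j, dot (row E' a j) z = 0) ∧
        (¬ ∃ s : M, z = s • y) ∧ dot (E' 0) y * dot (E' 3) y = dot (E' 1) y * dot (E' 2) y ∧
        dot (E' 0) y * dot (E' 3) z + dot (E' 3) y * dot (E' 0) z -
          dot (E' 1) y * dot (E' 2) z - dot (E' 2) y * dot (E' 1) z = 0 := by
    intro E' hE' a ha
    obtain ⟨y, hy⟩ := exists_pt E' hE' ![-(a 1), 0, a 0, 0]
    obtain ⟨z, hz⟩ := exists_pt E' hE' ![0, -(a 1), 0, a 0]
    have hy0 : y ≠ 0 := by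
      rintro rfl
      apply ha
      have e0 := hy 0
      have e2 := hy 2
      simp only [dot, Pi.zero_apply, mul_zero, Finset.sum_const_zero, Matrix.cons_val] at e0 e2
      funext i
      fin_cases i
      · exact e2.symm
      · exact neg_eq_zero.1 e0.symm
    refine ⟨y, z, hy0, ?_, ?_, ?_, ?_, ?_⟩
    · intro j
      fin_cases j
      · show dot (row E' a 0) y = 0
        rw [dot_row0, hy, hy]
        simp only [Matrix.cons_val]
        ring
      · show dot (row E' a 1) y = 0
        rw [dot_row1, hy, hy]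
        simp
    · intro j
      fin_cases j
      · show dot (row E' a 0) z = 0
        rw [dot_row0, hz, hz]
        simp
      · show dot (row E' a 1) z = 0
        rw [dot_row1, hz, hz]
        simp only [Matrix.cons_val]
        ring
    · rintro ⟨s, rfl⟩
      have e1 := hz 1
      have e3 := hz 3
      rw [dot_smulx, hy] at e1 e3
      simp only [Matrix.cons_val, mul_zero] at e1 e3
      apply ha
      funext i
      fin_cases i
      · exact e3.symm
      · exact neg_eq_zero.1 e1.symm
    · rw [hy, hy, hy, hy]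
      simp
    · rw [hy, hy, hy, hy, hz, hz, hz, hz]
      simp only [Matrix.cons_val]
      ring
  have hswp := swp_det hE
  -- two components with a common line
  have hcon : ∀ i j, i ≠ j → ∀ y z : Fin 4 → M, y ≠ 0 → On E y →
      dot (E 0) y * dot (E 3) z + dot (E 3) y * dot (E 0) z -
          dot (E 1) y * dot (E 2) z - dot (E 2) y * dot (E 1) z = 0 →
      (¬ ∃ s : M, z = s • y) → (∀ l, dot (g i l) y = 0) → (∀ l, dot (g i l) z = 0) →
      (∀ l, dot (g j l) y = 0) → (∀ l, dot (g j l) z = 0) → False := by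
    intro i j hij y z hy hon hpol hns h1 h2 h3 h4
    apply hns
    refine (hnc M y hy ((hblOn y).2 hon)).1 i j hij ((hThrM i y).2 h1) ((hThrM j y).2 h3) z
      ((hThrM i z).2 h2) ((hThrM j z).2 h4) ?_
    apply mul_left_cancel₀ h2M
    rw [hblM, hpol, mul_zero]
  have hOnSwp : ∀ y : Fin 4 → M, dot (swp E 0) y * dot (swp E 3) y =
      dot (swp E 1) y * dot (swp E 2) y → On E y := by
    intro y h
    unfold On
    simp only [swp, Matrix.cons_val] at h
    rw [h, mul_comm]
  have hPolSwp : ∀ y z : Fin 4 → M, dot (swp E 0) y * dot (swp E 3) z +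
      dot (swp E 3) y * dot (swp E 0) z -
          dot (swp E 1) y * dot (swp E 2) z - dot (swp E 2) y * dot (swp E 1) z = 0 →
      dot (E 0) y * dot (E 3) z + dot (E 3) y * dot (E 0) z -
          dot (E 1) y * dot (E 2) z - dot (E 2) y * dot (E 1) z = 0 := by
    intro y z h
    simp only [swp, Matrix.cons_val] at h
    linear_combination h
  -- proportional vectors
  have hprop : ∀ (E' : Fin 4 → Fin 4 → M) (a a' : Fin 2 → M), a ≠ 0 →
      a 0 * a' 1 - a 1 * a' 0 = 0 → ∀ y, (∀ j, dot (row E' a j) y = 0) →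
      ∀ j, dot (row E' a' j) y = 0 := by
    intro E' a a' ha hD y hy
    have e0 := hy 0
    have e1 := hy 1
    rw [dot_row0] at e0
    rw [dot_row1] at e1
    have hkey : ∀ i, a i * dot (row E' a' 0) y = 0 ∧ a i * dot (row E' a' 1) y = 0 := by
      intro i
      rw [dot_row0, dot_row1]
      rcases (by decide : ∀ l : Fin 2, l = 0 ∨ l = 1) i with rfl | rfl
      · constructor
        · linear_combination a' 0 * e0 + dot (E' 2) y * hD
        · linear_combination a' 0 * e1 + dot (E' 3) y * hD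
      · constructor
        · linear_combination a' 1 * e0 - dot (E' 0) y * hD
        · linear_combination a' 1 * e1 - dot (E' 1) y * hD
    obtain ⟨i, hi'⟩ := Function.ne_iff.1 ha
    intro j
    rcases (by decide : ∀ l : Fin 2, l = 0 ∨ l = 1) j with rfl | rfl
    · exact (mul_eq_zero.1 (hkey i).1).resolve_left hi'
    · exact (mul_eq_zero.1 (hkey i).2).resolve_left hi'
  have hrr : ∀ i j a a', i ≠ j → ty i = .ra a → ty j = .ra a' → a 0 * a' 1 - a 1 * a' 0 ≠ 0 := by
    intro i j a a' hij hi' hj' hD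
    have ha := (hty2 i a hi').1
    obtain ⟨y, z, hy, h1, h2, h3, h4, h5⟩ := hpts E hE a ha
    have t1 := hty1 i
    have t2 := hty1 j
    rw [hi'] at t1
    rw [hj'] at t2
    exact hcon i j hij y z hy h4 h5 h3 ((t1 y).2 h1) ((t1 z).2 h2)
      ((t2 y).2 (hprop E a a' ha hD y h1)) ((t2 z).2 (hprop E a a' ha hD z h2))
  have hcc : ∀ i j a a', i ≠ j → ty i = .cb a → ty j = .cb a' → a 0 * a' 1 - a 1 * a' 0 ≠ 0 := by
    intro i j a a' hij hi' hj' hD
    have ha := (hty3 i a hi').1
    obtain ⟨y, z, hy, h1, h2, h3, h4, h5⟩ := hpts (swp E) hswp a ha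
    have t1 := hty1 i
    have t2 := hty1 j
    rw [hi'] at t1
    rw [hj'] at t2
    exact hcon i j hij y z hy (hOnSwp y h4) (hPolSwp y z h5) h3 ((t1 y).2 h1) ((t1 z).2 h2)
      ((t2 y).2 (hprop (swp E) a a' ha hD y h1)) ((t2 z).2 (hprop (swp E) a a' ha hD z h2))
  have hne_of : ∀ i j, (∃ g', c i = Sum.inl g') → (∃ m, c j = Sum.inr m) → i ≠ j := by
    rintro i j ⟨g', h1⟩ ⟨m, h2⟩ rfl
    rw [h1] at h2
    cases h2
  have hplane : ∀ (E' : Fin 4 → Fin 4 → M) (hE' : (Matrix.of E').det ≠ 0) (a : Fin 2 → M)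
      (m : Fin 4 → M), a ≠ 0 → oth E' m a = 0 → ∀ y, (∀ j, dot (row E' a j) y = 0) →
      dot m y = 0 := by
    intro E' hE' a m ha ho y hy
    have e0 := oth0 E' hE' m a y
    have e1 := oth1 E' hE' m a y
    rw [ho, dot_col0, hy, hy] at e0
    rw [ho, dot_col1, hy, hy] at e1
    simp only [Pi.zero_apply, zero_mul, add_zero, mul_zero, sub_zero] at e0 e1
    obtain ⟨i, hi'⟩ := Function.ne_iff.1 ha
    rcases (by decide : ∀ l : Fin 2, l = 0 ∨ l = 1) i with rfl | rfl
    · exact (mul_eq_zero.1 e1.symm).resolve_left hi'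
    · exact (mul_eq_zero.1 e0.symm).resolve_left (neg_ne_zero.2 hi')
  have hok : Ok E ty := by
    refine ⟨fun i a h => (hty2 i a h).1, fun i b h => (hty3 i b h).1, ?_, ?_⟩
    · intro i a j m hi' hj' ho
      have ha := (hty2 i a hi').1
      have hij := hne_of i j (hty2 i a hi').2 ⟨m, hty4 j m hj'⟩
      obtain ⟨y, z, hy, h1, h2, h3, h4, h5⟩ := hpts E hE a ha
      have t1 := hty1 i
      have t2 := hty1 j
      rw [hi'] at t1
      rw [hj'] at t2
      exact hcon i j hij y z hy h4 h5 h3 ((t1 y).2 h1) ((t1 z).2 h2)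
        ((t2 y).2 fun _ => hplane E hE a _ ha ho y h1)
        ((t2 z).2 fun _ => hplane E hE a _ ha ho z h2)
    · intro i a j m hi' hj' ho
      have ha := (hty3 i a hi').1
      have hij := hne_of i j (hty3 i a hi').2 ⟨m, hty4 j m hj'⟩
      obtain ⟨y, z, hy, h1, h2, h3, h4, h5⟩ := hpts (swp E) hswp a ha
      have t1 := hty1 i
      have t2 := hty1 j
      rw [hi'] at t1
      rw [hj'] at t2
      exact hcon i j hij y z hy (hOnSwp y h4) (hPolSwp y z h5) h3 ((t1 y).2 h1) ((t1 z).2 h2)
        ((t2 y).2 fun _ => hplane (swp E) hswp a _ ha ho y h1)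
        ((t2 z).2 fun _ => hplane (swp E) hswp a _ ha ho z h2)
  -- triples
  have htr : ∀ i j l, i ≠ j → i ≠ l → j ≠ l → ∀ f : AbsoluteValue M ℝ, ∃ C : ℝ, 0 ≤ C ∧
      ∀ x : Fin 4 → M, x ≠ 0 → On E x → (∀ i, 0 < nn f (fm E (ty i)) x) →
        min (lm f (fm E (ty i)) x) (min (lm f (fm E (ty j)) x) (lm f (fm E (ty l)) x)) ≤ C := by
    intro i j l hij hil hjl f
    set ix : Fin 3 → Fin r := ![i, j, l] with hix
    set G : Option (Fin 3 × Fin 2) → MvPolynomial (Fin 4) M := fun o => match o with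
      | none => lff (E 0) * lff (E 3) - lff (E 1) * lff (E 2)
      | some p => lff (fm E (ty (ix p.1)) p.2) with hG
    set d : Option (Fin 3 × Fin 2) → ℕ := fun o => match o with
      | none => 2
      | some _ => 1 with hd
    obtain ⟨c0, hc0, hns⟩ := not_small (by norm_num : 0 < 4) G d (by
      intro o
      rcases o with _ | p
      · exact ((lff_hom _).mul (lff_hom _)).sub ((lff_hom _).mul (lff_hom _))
      · exact lff_hom _) (by
      intro L _ _ x hx
      by_contra hx0
      let _ : Algebra K L := ((algebraMap M L).comp (algebraMap K M)).toAlgebra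
      have hlff : ∀ u : Fin 4 → M, aeval x (lff u) = dot (exv L u) x := by
        intro u
        unfold lff dot exv
        rw [map_sum]
        refine Finset.sum_congr rfl fun b _ => ?_
        rw [map_mul, aeval_C, aeval_X]
      have hq := hx none
      have hq' : dot (exv L (E 0)) x * dot (exv L (E 3)) x -
          dot (exv L (E 1)) x * dot (exv L (E 2)) x = 0 := by
        rw [← hlff, ← hlff, ← hlff, ← hlff, ← map_mul, ← map_mul, ← map_sub]
        exact hq
      have h2L : (2 : L) ≠ 0 := by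
        rw [← map_ofNat (algebraMap M L) 2]
        exact (map_ne_zero _).2 h2M
      have hbl : bl K A x x = 0 := by
        apply mul_left_cancel₀ h2L
        have h1 := polar (L := L) A E hAE x x
        have h2 : bl K A x x = ∑ i, ∑ j, algebraMap M L (algebraMap k M (A i j)) * x i * x j := rfl
        rw [h2, h1]
        linear_combination 2 * hq'
      have hthr : ∀ p : Fin 3, Thr (c (ix p)) x := by
        intro p j'
        obtain ⟨e, he⟩ := cmp (fm E (ty (ix p))) (g (ix p) j')
          (fun y hy => (hty1 (ix p) y).2 hy j')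
        have h1 := hx (some (p, 0))
        have h2 := hx (some (p, 1))
        have h1' : dot (exv L (fm E (ty (ix p)) 0)) x = 0 := by rw [← hlff]; exact h1
        have h2' : dot (exv L (fm E (ty (ix p)) 1)) x = 0 := by rw [← hlff]; exact h2
        have h3 : exv L (g (ix p) j') = algebraMap M L (e 0) • exv L (fm E (ty (ix p)) 0) +
            algebraMap M L (e 1) • exv L (fm E (ty (ix p)) 1) := by
          rw [he]
          funext b
          show algebraMap M L (e 0 * fm E (ty (ix p)) 0 b + e 1 * fm E (ty (ix p)) 1 b) =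
            algebraMap M L (e 0) * algebraMap M L (fm E (ty (ix p)) 0 b) +
            algebraMap M L (e 1) * algebraMap M L (fm E (ty (ix p)) 1 b)
          rw [map_add, map_mul, map_mul]
        show dot (exv L (g (ix p) j')) x = 0
        rw [h3, dot_add, dot_smul, dot_smul, h1', h2', mul_zero, mul_zero, add_zero]
      exact (hnc L x hx0 hbl).2 i j l hij hil hjl (hthr 0) (hthr 1) (hthr 2)) f
    refine ⟨|Real.log c0|, abs_nonneg _, fun x hx hon hpos => ?_⟩
    obtain ⟨o, ho⟩ := hns x hx
    have hN : 0 < nrm f x := nrm_pos f hx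
    rcases o with _ | p
    · exfalso
      have h1 : eval x (G none) = 0 := by
        show eval x (lff (E 0) * lff (E 3) - lff (E 1) * lff (E 2)) = 0
        rw [map_sub, map_mul, map_mul, eval_lff, eval_lff, eval_lff, eval_lff]
        exact sub_eq_zero.2 hon
      rw [h1, map_zero] at ho
      exact absurd ho (not_le.2 (by positivity))
    · have h1 : eval x (G (some p)) = dot (fm E (ty (ix p.1)) p.2) x := by
        show eval x (lff (fm E (ty (ix p.1)) p.2)) = _
        rw [eval_lff]
        rfl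
      have h2 : c0 * nrm f x ≤ nn f (fm E (ty (ix p.1))) x := by
        have h3 : c0 * nrm f x ^ 1 ≤ f (eval x (G (some p))) := ho
        rw [pow_one, h1] at h3
        exact h3.trans (le_nn f _ x p.2)
      have h3 := Real.log_le_log (by positivity) h2
      rw [Real.log_mul hc0.ne' hN.ne'] at h3
      have h4 : lm f (fm E (ty (ix p.1))) x ≤ |Real.log c0| := by
        unfold lm
        have := neg_abs_le (Real.log c0)
        linarith
      rcases (by decide : ∀ l : Fin 3, l = 0 ∨ l = 1 ∨ l = 2) p.1 with h | h | h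
      · rw [h] at h4
        exact (min_le_left _ _).trans h4
      · rw [h] at h4
        exact ((min_le_right _ _).trans (min_le_left _ _)).trans h4
      · rw [h] at h4
        exact ((min_le_right _ _).trans (min_le_right _ _)).trans h4
  obtain ⟨Z, hZ, hmain⟩ := quadK (k := k) hi E hE ty hok
    (fun i j a a' hij h1 h2 f => dis f E hE a a' (hrr i j a a' hij h1 h2))
    (fun i j a a' hij h1 h2 f => dis f (swp E) hswp a a' (hcc i j a a' hij h1 h2)) htr
  refine ⟨Z, hZ, fun v w t ht hvw ε hε => ?_⟩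
  obtain ⟨f, hf, hfw⟩ := ext_place (M := M) v w t ht hvw
  obtain ⟨C, hC⟩ := hmain v f hf ε hε
  choose C1 hC1 h1 using fun i => lm_cmp f (g i) (fm E (ty i)) (fun y hy => (hty1 i y).1 hy)
  have hwv := wt_nonneg v
  refine ⟨wt v * ∑ i, C1 i + C, fun x hx hq hoff hZx => ?_⟩
  have hxM : exv M x = exv M (exv K x) := rfl
  have honE : On E (exv M x) := by
    rw [← hblOn]
    have : bl K A (exv M x) (exv M x) = algebraMap k M (∑ i, ∑ j, A i j * x i * x j) := by
      simp only [bl, map_sum, map_mul]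
      rfl
    rw [this, hq, map_zero]
  have hdotM : ∀ u : Fin 4 → K, dot (exv M u) (exv M x) = algebraMap K M (dot u (exv K x)) := by
    intro u
    simp only [dot, exv, map_sum, map_mul]
    rfl
  have hgpos : ∀ i, 0 < nn f (g i) (exv M x) := by
    intro i
    obtain ⟨j, hj⟩ := hoff i
    refine nn_pos (i := j) ?_
    show dot (exv M (fs (c i) j)) (exv M x) ≠ 0
    rw [hdotM]
    exact (map_ne_zero _).2 hj
  have hplx : ∀ i m, ty i = .pl m → ∑ j, m j * x j ≠ 0 := by
    intro i m hi' h0
    obtain ⟨j, hj⟩ := hoff i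
    apply hj
    rw [hty4 i m hi']
    show dot (exv K m) (exv K x) = 0
    rw [dot_exv, h0, map_zero]
  obtain ⟨hp, hsum⟩ := hC x hx honE hZx hplx
  have hrel : ∀ i, lm f (g i) (exv M x) = t * lm (av w) (fs (c i)) (exv K x) := by
    intro i
    have hfe : ∀ y : K, f (algebraMap K M y) = av w y ^ t := hfw
    have e1 : nrm f (exv M x) = nrm (av w) (exv K x) ^ t := by
      have h3 : nrm f (exv M x) = nrm (f.comp (algebraMap K M).injective) (exv K x) := rfl
      rw [h3]
      exact nrm_rpow (av w) ht (g := f.comp (algebraMap K M).injective) hfe (by norm_num) _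
    have e2 : nn f (g i) (exv M x) = nn (av w) (fs (c i)) (exv K x) ^ t := by
      unfold nn
      have e3 : ∀ j, f (dot (g i j) (exv M x)) = av w (dot (fs (c i) j) (exv K x)) ^ t := by
        intro j
        show f (dot (exv M (fs (c i) j)) (exv M x)) = _
        rw [hdotM, hfe]
      rw [e3, e3]
      rcases le_total (av w (dot (fs (c i) 0) (exv K x))) (av w (dot (fs (c i) 1) (exv K x)))
        with h | h
      · rw [max_eq_right h, max_eq_right (Real.rpow_le_rpow ((av w).nonneg _) h ht.le)]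
      · rw [max_eq_left h, max_eq_left (Real.rpow_le_rpow ((av w).nonneg _) h ht.le)]
    have hpos2 : 0 < nn (av w) (fs (c i)) (exv K x) := by
      obtain ⟨j, hj⟩ := hoff i
      exact nn_pos hj
    unfold lm
    rw [e1, e2, Real.log_rpow (nrm_pos _ (exv_ne hx)), Real.log_rpow hpos2]
    ring
  have hle : ∀ i, wt v * (t * lm (av w) (fs (c i)) (exv K x)) ≤
      wt v * lm f (fm E (ty i)) (exv M x) + wt v * C1 i := by
    intro i
    rw [← hrel, ← mul_add]
    exact mul_le_mul_of_nonneg_left (h1 i (exv M x) (exv_ne hx) (hgpos i) (hp i)) hwv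
  refine (Finset.sum_le_sum fun i _ => hle i).trans ?_
  rw [Finset.sum_add_distrib, ← Finset.mul_sum, ← Finset.mul_sum]
  linarith

end Pool.Agent.R405.QS
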