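import Mathlib
import Pool.Agent.R405.IQ2

/-!
Two flags have a common adapted basis; selection of bases with explicit constants.
-/

set_option autoImplicit false
set_option linter.unusedSectionVars false

open Finset

namespace Pool.Agent.R405.TP

open Module
open Pool.Agent.W180.OP (nrm le_nrm nrm_pos nrm_nonneg exists_nrm)
open Pool.Agent.R405.IQ (wc extend det_coord)

section flags

variable {k V : Type} [Field k] [AddCommGroup V] [Module k V] {N : ℕ}

/-- the flag of a family of vectors -/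
def Fl (a : Fin N → V) (i : ℕ) : Submodule k V where
  carrier := {v | ∃ c : Fin N → k, (∀ l : Fin N, i ≤ l.val → c l = 0) ∧ ∑ l, c l • a l = v}
  add_mem' := by
    rintro u v ⟨c, hc, rfl⟩ ⟨d, hd, rfl⟩
    refine ⟨c + d, fun l hl => by rw [Pi.add_apply, hc l hl, hd l hl, add_zero], ?_⟩
    simp [add_smul, Finset.sum_add_distrib]
  zero_mem' := ⟨0, fun _ _ => rfl, by simp⟩
  smul_mem' := by
    rintro r v ⟨c, hc, rfl⟩
    refine ⟨r • c, fun l hl => by rw [Pi.smul_apply, hc l hl, smul_zero], ?_⟩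
    simp [Finset.smul_sum, mul_smul]

theorem mem_Fl {a : Fin N → V} {i : ℕ} {v : V} : v ∈ Fl (k := k) a i ↔
    ∃ c : Fin N → k, (∀ l : Fin N, i ≤ l.val → c l = 0) ∧ ∑ l, c l • a l = v := Iff.rfl

theorem Fl_mono (a : Fin N → V) {i j : ℕ} (h : i ≤ j) : Fl (k := k) a i ≤ Fl a j := by
  rintro v ⟨c, hc, rfl⟩
  exact ⟨c, fun l hl => hc l (h.trans hl), rfl⟩

theorem Fl_zero {a : Fin N → V} {v : V} (h : v ∈ Fl (k := k) a 0) : v = 0 := by
  obtain ⟨c, hc, rfl⟩ := h
  exact Finset.sum_eq_zero fun l _ => by rw [hc l (Nat.zero_le _), zero_smul]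

theorem Fl_step (a : Fin N → V) (i : Fin N) {v : V} (h : v ∈ Fl (k := k) a (i.val + 1)) :
    ∃ c : k, v - c • a i ∈ Fl (k := k) a i.val := by
  classical
  obtain ⟨c, hc, rfl⟩ := h
  refine ⟨c i, Function.update c i 0, fun l hl => ?_, ?_⟩
  · by_cases h : l = i
    · rw [h, Function.update_self]
    · rw [Function.update_of_ne h]
      refine hc l ?_
      have : l.val ≠ i.val := fun h' => h (Fin.ext h')
      omega
  · rw [eq_sub_iff_add_eq, ← Finset.add_sum_erase _ _ (Finset.mem_univ i),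
      ← Finset.add_sum_erase _ (fun l => c l • a l) (Finset.mem_univ i), Function.update_self,
      zero_smul, zero_add, add_comm]
    congr 1
    exact Finset.sum_congr rfl fun l hl => by
      rw [Function.update_of_ne (Finset.ne_of_mem_erase hl)]

theorem self_mem_Fl (a : Fin N → V) (i : Fin N) : a i ∈ Fl (k := k) a (i.val + 1) := by
  classical
  refine ⟨Pi.single i 1, fun l hl => ?_, ?_⟩
  · rw [Pi.single_eq_of_ne]
    rintro rfl
    omega
  · rw [Finset.sum_eq_single i]
    · simp
    · intro l _ hl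
      rw [Pi.single_eq_of_ne hl, zero_smul]
    · simp

theorem notMem_Fl {a : Fin N → V} (ha : LinearIndependent k a) (i : Fin N) :
    a i ∉ Fl (k := k) a i.val := by
  classical
  rintro ⟨c, hc, h⟩
  have h1 := Fintype.linearIndependent_iff.1 ha (c - Pi.single i 1) (by
    simp only [Pi.sub_apply, sub_smul, Finset.sum_sub_distrib]
    rw [h, Finset.sum_eq_single (s := Finset.univ) (f := fun l => (Pi.single i (1 : k) : Fin N → k) l • a l) i]
    · simp
    · intro l _ hl
      rw [Pi.single_eq_of_ne hl, zero_smul]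
    · simp) i
  rw [Pi.sub_apply, hc i le_rfl, Pi.single_eq_same] at h1
  simp at h1

/-- **Bruhat decomposition**: vectors adapted to two flags -/
theorem bruhat (a b : Fin N → V) (ha : Submodule.span k (Set.range a) = ⊤)
    (hb : LinearIndependent k b) :
    ∃ (n : Fin N → V) (π : Fin N → Fin N), Function.Injective π ∧ ∀ j, n j ≠ 0 ∧
      n j ∈ Fl (k := k) b (j.val + 1) ∧ n j ∈ Fl (k := k) a ((π j).val + 1) := by
  classical
  have htop : ∀ v : V, v ∈ Fl (k := k) a N := by
    intro v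
    have h1 : v ∈ Submodule.span k (Set.range a) := by rw [ha]; trivial
    obtain ⟨c, hc⟩ := (Submodule.mem_span_range_iff_exists_fun k).1 h1
    exact ⟨c, fun l hl => absurd l.2 (by omega), hc⟩
  set P : Fin N → ℕ → Prop := fun j i => ∃ v : V, v ∈ Fl (k := k) a i ∧
    v ∈ Fl (k := k) b (j.val + 1) ∧ v ∉ Fl (k := k) b j.val with hP
  have hex : ∀ j, ∃ i, P j i := fun j => ⟨N, b j, htop _, self_mem_Fl b j, notMem_Fl hb j⟩
  have hfind : ∀ j, Nat.find (hex j) ≤ N := fun j =>
    Nat.find_min' _ ⟨b j, htop _, self_mem_Fl b j, notMem_Fl hb j⟩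
  have hpos : ∀ j, 1 ≤ Nat.find (hex j) := by
    intro j
    by_contra h
    push Not at h
    have h0 : Nat.find (hex j) = 0 := by omega
    obtain ⟨v, hv1, hv2, hv3⟩ := Nat.find_spec (hex j)
    rw [h0] at hv1
    rw [Fl_zero hv1] at hv3
    exact hv3 (Submodule.zero_mem _)
  choose n hn1 hn2 hn3 using fun j => Nat.find_spec (hex j)
  set π : Fin N → Fin N := fun j => ⟨Nat.find (hex j) - 1, by
    have := hfind j
    have := hpos j
    omega⟩ with hπ
  have hπv : ∀ j, (π j).val + 1 = Nat.find (hex j) := by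
    intro j
    have := hpos j
    show Nat.find (hex j) - 1 + 1 = _
    omega
  have key : ∀ j j' : Fin N, j.val < j'.val → π j ≠ π j' := by
    intro j j' hjj h
    have h1 : n j ∈ Fl (k := k) a ((π j').val + 1) := by
      rw [← h, hπv]
      exact hn1 j
    have h2 : n j' ∈ Fl (k := k) a ((π j').val + 1) := by
      rw [hπv]
      exact hn1 j'
    obtain ⟨c, hc⟩ := Fl_step a _ h1
    obtain ⟨c', hc'⟩ := Fl_step a _ h2
    have hc0 : c ≠ 0 := by
      rintro rfl
      rw [zero_smul, sub_zero] at hc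
      have := Nat.find_min (hex j) (m := (π j').val) (by rw [← h, ← hπv j]; omega)
      exact this ⟨n j, hc, hn2 j, hn3 j⟩
    have h3 : n j' - (c' / c) • n j ∈ Fl (k := k) a (π j').val := by
      have h4 : n j' - (c' / c) • n j =
          (n j' - c' • a (π j')) - (c' / c) • (n j - c • a (π j')) := by
        rw [smul_sub, smul_smul, div_mul_cancel₀ _ hc0]
        abel
      rw [h4]
      exact Submodule.sub_mem _ hc' (Submodule.smul_mem _ _ hc)
    have h5 : n j ∈ Fl (k := k) b j'.val := Fl_mono b (by omega) (hn2 j)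
    have h6 := Nat.find_min (hex j') (m := (π j').val) (by rw [← hπv j']; omega)
    refine h6 ⟨_, h3, Submodule.sub_mem _ (hn2 j') (Submodule.smul_mem _ _
      (Fl_mono b (by omega) h5)), fun h7 => hn3 j' ?_⟩
    have h8 := Submodule.add_mem _ h7 (Submodule.smul_mem _ (c' / c) h5)
    rwa [sub_add_cancel] at h8
  refine ⟨n, π, fun j j' h => ?_, fun j => ⟨?_, hn2 j, ?_⟩⟩
  · by_contra hne
    rcases lt_or_gt_of_ne (fun h' => hne (Fin.ext h') : j.val ≠ j'.val) with h1 | h1
    · exact key j j' h1 h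
    · exact key j' j h1 h.symm
  · intro h0
    apply hn3 j
    rw [h0]
    exact Submodule.zero_mem _
  · rw [hπv]
    exact hn1 j

end flags

variable {k : Type} [Field k] {N q : ℕ} {F : Type} [Field F] [Algebra k F]

/-- combinations with coefficients in a finite set are bounded with the constant `κ` -/
def Cb (N : ℕ) (f : AbsoluteValue F ℝ) (Γ : Finset k) (κ : ℝ) : Prop :=
  ∀ (c : Fin N → k) (y : Fin N → F) (t : ℝ), 0 ≤ t → (∀ i, c i ∈ Γ) →
    (∀ i, c i ≠ 0 → f (y i) ≤ t) → f (∑ i, algebraMap k F (c i) * y i) ≤ κ * t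

theorem Cb.form {f : AbsoluteValue F ℝ} {Γ : Finset k} {κ : ℝ} (h : Cb N f Γ κ) (v : Fin N → k)
    (hv : ∀ i, v i ∈ Γ) (x : Fin N → F) : f (dot (exv F v) x) ≤ κ * nrm f x :=
  h v x (nrm f x) (nrm_nonneg f x) hv fun i _ => le_nrm f x i

theorem Cb.comb {f : AbsoluteValue F ℝ} {Γ : Finset k} {κ : ℝ} (h : Cb N f Γ κ)
    (a : Fin N → Fin N → k) (c : Fin N → k) (hc : ∀ i, c i ∈ Γ) (v : Fin N → k)
    (hv : ∑ l, c l • a l = v) (x : Fin N → F) (t : ℝ) (ht : 0 ≤ t)
    (hx : ∀ l, c l ≠ 0 → f (dot (exv F (a l)) x) ≤ t) : f (dot (exv F v) x) ≤ κ * t := by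
  have h1 : dot (exv F v) x = ∑ l, algebraMap k F (c l) * dot (exv F (a l)) x := by
    rw [← hv]
    unfold dot exv
    simp only [Finset.mul_sum]
    rw [Finset.sum_comm]
    refine Finset.sum_congr rfl fun j _ => ?_
    rw [Finset.sum_apply, map_sum, Finset.sum_mul]
    exact Finset.sum_congr rfl fun l _ => by
      rw [Pi.smul_apply, smul_eq_mul, map_mul, mul_assoc]
  rw [h1]
  exact h c _ t ht hc hx

theorem Cb.inv {f : AbsoluteValue F ℝ} {Γ : Finset k} {κ : ℝ} (h : Cb N f Γ κ) (hκ : 0 ≤ κ)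
    (H : Fin q → Fin N → k) (β : Fin N → Fin q ⊕ Fin N)
    (hβ : (Matrix.of fun a => wc H (β a)).det ≠ 0)
    (hΓ : ∀ i j, (Matrix.of fun a => wc H (β a))⁻¹ i j ∈ Γ) (x : Fin N → F) (t : ℝ) (ht : 0 ≤ t)
    (hx : ∀ a, f (dot (exv F (wc H (β a))) x) ≤ t) : nrm f x ≤ κ * t := by
  classical
  set A : Matrix (Fin N) (Fin N) k := Matrix.of fun a => wc H (β a) with hA
  have hu : IsUnit A.det := IsUnit.mk0 _ hβ
  have hB : A⁻¹ * A = 1 := Matrix.nonsing_inv_mul _ hu
  refine Pool.Agent.W180.OP.nrm_le (by positivity) fun i => ?_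
  have h1 := h.comb (fun a => wc H (β a)) (A⁻¹ i) (hΓ i) (Pi.single i 1) (by
    funext j
    have h3 := congrArg (fun B : Matrix (Fin N) (Fin N) k => B i j) hB
    simp only [Matrix.mul_apply, Matrix.one_apply] at h3
    rw [Finset.sum_apply]
    simp only [Pi.smul_apply, smul_eq_mul]
    rw [Pi.single_apply]
    have h4 : (if j = i then (1 : k) else 0) = if i = j then 1 else 0 := by
      by_cases hij : i = j
      · rw [if_pos hij, if_pos hij.symm]
      · rw [if_neg hij, if_neg (Ne.symm hij)]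
    rw [h4]
    exact h3) x t ht (fun l _ => hx l)
  have h2 : dot (exv F (Pi.single i (1 : k))) x = x i := by
    unfold dot exv
    rw [Finset.sum_eq_single i]
    · simp
    · intro j _ hj
      rw [Pi.single_eq_of_ne hj, map_zero, zero_mul]
    · simp
  rwa [h2] at h1

/-- the local heights of forms in general position are bounded by those of a basis, which is sorted -/
theorem select' {f : AbsoluteValue F ℝ} {Γ : Finset k} {κ : ℝ} (h : Cb N f Γ κ) (hκ : 1 ≤ κ)
    (H : Fin q → Fin N → k)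
    (hgp : ∀ I : Finset (Fin q), I.card ≤ N → LinearIndependent k (fun i : I => H i))
    (hΓ1 : ∀ l i, wc H l i ∈ Γ)
    (hΓ2 : ∀ β : Fin N → Fin q ⊕ Fin N, (Matrix.of fun a => wc H (β a)).det ≠ 0 → ∀ i j,
      (Matrix.of fun a => wc H (β a))⁻¹ i j ∈ Γ)
    (x : Fin N → F) (hx : x ≠ 0) (hl : ∀ l, dot (exv F (wc H l)) x ≠ 0) :
    ∃ β : Fin N → Fin q ⊕ Fin N, (Matrix.of fun a => wc H (β a)).det ≠ 0 ∧
      (∀ a b, a ≤ b → f (dot (exv F (wc H (β a))) x) ≤ f (dot (exv F (wc H (β b))) x)) ∧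
        ∑ l, (Real.log (nrm f x) - Real.log (f (dot (exv F (H l)) x))) ≤
          ∑ a, (Real.log (nrm f x) - Real.log (f (dot (exv F (wc H (β a))) x))) +
            (q + N) * Real.log κ := by
  classical
  have hlogκ := Real.log_nonneg hκ
  have hN := nrm_pos f hx
  obtain ⟨j0, -⟩ := Function.ne_iff.1 hx
  have : Nonempty (Fin N) := ⟨j0⟩
  have hfl : ∀ l, 0 < f (dot (exv F (wc H l)) x) := fun l => f.pos_iff.2 (hl l)
  have hlow : ∀ l, -Real.log κ ≤ Real.log (nrm f x) - Real.log (f (dot (exv F (wc H l)) x)) := by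
    intro l
    have h1 := Real.log_le_log (hfl l) (h.form (wc H l) (hΓ1 l) x)
    rw [Real.log_mul (by linarith) hN.ne'] at h1
    linarith
  set J : Finset (Fin q) := Finset.univ.filter fun l =>
    f (dot (exv F (H l)) x) < nrm f x / κ with hJ
  have hJc : J.card ≤ N := by
    by_contra hcon
    push Not at hcon
    obtain ⟨I, hIJ, hIc⟩ := Finset.exists_subset_card_eq hcon.le
    obtain ⟨β, hβ, hcov⟩ := extend H I (hgp I hIc.le)
    have hsurj : ∀ a, ∃ l ∈ I, β a = Sum.inl l := by
      have h1 : (I.image fun l => (Sum.inl l : Fin q ⊕ Fin N)) ⊆ Finset.univ.image β := by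
        intro y hy
        obtain ⟨l, hl, rfl⟩ := Finset.mem_image.1 hy
        obtain ⟨a, ha⟩ := hcov l hl
        exact Finset.mem_image.2 ⟨a, Finset.mem_univ _, ha⟩
      have h2 : (I.image fun l => (Sum.inl l : Fin q ⊕ Fin N)).card = N := by
        rw [Finset.card_image_of_injective _ Sum.inl_injective, hIc]
      have h3 : (Finset.univ.image β).card ≤ N := by
        refine Finset.card_image_le.trans ?_
        simp
      have h4 := Finset.eq_of_subset_of_card_le h1 (by rw [h2]; exact h3)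
      intro a
      have h5 : β a ∈ Finset.univ.image β := Finset.mem_image_of_mem _ (Finset.mem_univ a)
      rw [← h4] at h5
      obtain ⟨l, hl, h6⟩ := Finset.mem_image.1 h5
      exact ⟨l, hl, h6.symm⟩
    obtain ⟨am, -, ham⟩ := Finset.exists_max_image Finset.univ
      (fun a => f (dot (exv F (wc H (β a))) x)) Finset.univ_nonempty
    have h1 := h.inv (by linarith) H β hβ (hΓ2 β hβ) x _ (f.nonneg _)
      (fun a => ham a (Finset.mem_univ a))
    obtain ⟨l, hlI, hla⟩ := hsurj am
    have h2 : f (dot (exv F (wc H (β am))) x) < nrm f x / κ := by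
      rw [hla]
      exact (Finset.mem_filter.1 (hIJ hlI)).2
    rw [lt_div_iff₀ (by linarith)] at h2
    linarith
  obtain ⟨β', hβ', hcov⟩ := extend H J (hgp J hJc)
  -- sort
  set σ := Tuple.sort (fun a => f (dot (exv F (wc H (β' a))) x)) with hσ
  have hmono := Tuple.monotone_sort (fun a => f (dot (exv F (wc H (β' a))) x))
  set β : Fin N → Fin q ⊕ Fin N := fun a => β' (σ a) with hβdef
  have hβ : (Matrix.of fun a => wc H (β a)).det ≠ 0 := by
    have h1 : (Matrix.of fun a => wc H (β a)) =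
        (Matrix.of fun a => wc H (β' a)).submatrix σ id := rfl
    rw [h1, Matrix.det_permute]
    refine mul_ne_zero ?_ hβ'
    rcases Int.units_eq_one_or (Equiv.Perm.sign σ) with h2 | h2 <;> rw [h2] <;> simp
  have hcov' : ∀ l ∈ J, ∃ a, β a = Sum.inl l := by
    intro l hl
    obtain ⟨a, ha⟩ := hcov l hl
    exact ⟨σ.symm a, by rw [hβdef]; simpa using ha⟩
  refine ⟨β, hβ, fun a b hab => hmono hab, ?_⟩
  set g : Fin q ⊕ Fin N → ℝ := fun l =>
    Real.log (nrm f x) - Real.log (f (dot (exv F (wc H l)) x)) with hg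
  have hg1 : ∀ l ∉ J, g (Sum.inl l) ≤ Real.log κ := by
    intro l hlJ
    have h1 : nrm f x / κ ≤ f (dot (exv F (H l)) x) := by
      by_contra hcon
      push Not at hcon
      exact hlJ (Finset.mem_filter.2 ⟨Finset.mem_univ _, hcon⟩)
    have h2 := Real.log_le_log (by positivity) h1
    rw [Real.log_div hN.ne' (by positivity)] at h2
    show Real.log (nrm f x) - Real.log (f (dot (exv F (H l)) x)) ≤ _
    linarith
  choose! a0 ha0 using hcov'
  have hinj : Set.InjOn a0 J := by
    intro l hl l' hl' h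
    have h1 := ha0 l hl
    rw [h, ha0 l' hl'] at h1
    exact (Sum.inl_injective h1).symm
  have hsum1 : ∑ l ∈ J, g (Sum.inl l) ≤ ∑ a, g (β a) + N * Real.log κ := by
    have h1 : ∑ l ∈ J, g (Sum.inl l) = ∑ a ∈ J.image a0, g (β a) := by
      rw [Finset.sum_image hinj]
      exact Finset.sum_congr rfl fun l hl => by rw [ha0 l hl]
    have h2 : ∑ a ∈ J.image a0, g (β a) ≤ ∑ a ∈ J.image a0, (g (β a) + Real.log κ) :=
      Finset.sum_le_sum fun a _ => by linarith
    have h3 : ∑ a ∈ J.image a0, (g (β a) + Real.log κ) ≤ ∑ a, (g (β a) + Real.log κ) :=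
      Finset.sum_le_sum_of_subset_of_nonneg (Finset.subset_univ _) fun a _ _ => by
        have h4 := hlow (β a)
        have h6 : g (β a) = Real.log (nrm f x) - Real.log (f (dot (exv F (wc H (β a))) x)) := rfl
        linarith
    rw [Finset.sum_add_distrib (s := Finset.univ), Finset.sum_const, Finset.card_univ,
      Fintype.card_fin, nsmul_eq_mul] at h3
    rw [h1]
    exact h2.trans h3
  have hsum2 : ∑ l ∈ Finset.univ.filter (· ∉ J), g (Sum.inl l) ≤ q * Real.log κ := by
    calc _ ≤ ∑ l ∈ Finset.univ.filter (· ∉ J), Real.log κ :=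
          Finset.sum_le_sum fun l hl => hg1 l (Finset.mem_filter.1 hl).2
      _ = ((Finset.univ.filter (· ∉ J)).card : ℝ) * Real.log κ := by
          rw [Finset.sum_const, nsmul_eq_mul]
      _ ≤ q * Real.log κ := by
          refine mul_le_mul_of_nonneg_right ?_ hlogκ
          have := Finset.card_le_univ (Finset.univ.filter fun l : Fin q => l ∉ J)
          rw [Fintype.card_fin] at this
          exact_mod_cast this
  have hsplit : ∑ l, g (Sum.inl l) = ∑ l ∈ J, g (Sum.inl l) +
      ∑ l ∈ Finset.univ.filter (· ∉ J), g (Sum.inl l) := by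
    rw [← Finset.sum_filter_add_sum_filter_not Finset.univ (· ∈ J) (fun l => g (Sum.inl l))]
    congr 1
    congr 1
    ext l
    simp
  have h7 : ∑ l, (Real.log (nrm f x) - Real.log (f (dot (exv F (H l)) x))) =
      ∑ l, g (Sum.inl l) := rfl
  rw [h7, hsplit]
  show _ ≤ ∑ a, g (β a) + _
  linarith

end Pool.Agent.R405.TP
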