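import Mathlib
import Pool.Agent.R405.TP1
import Pool.Agent.R405.ProjH

/-!
Points with few places above `S` and rational hyperplanes.
-/

set_option autoImplicit false
set_option linter.unusedSectionVars false

open Finset

namespace Pool.Agent.R405.TP

open NumberField IsDedekindDomain Height Module
open Pool.Agent.W180.OP (Pl av wt nrm le_nrm nrm_pos nrm_nonneg exists_nrm wt_nonneg)
open Pool.Agent.R405.IQ (wc extend det_coord)

/-- sums over pairs -/
theorem pair_sum {α : Type} [DecidableEq α] (W : Finset α) (m : α → ℝ) (R : ℝ) (hW : 2 ≤ W.card)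
    (h : ∀ p ∈ W, ∀ p' ∈ W, p ≠ p' → m p + m p' ≤ R) : ∑ p ∈ W, m p ≤ W.card / 2 * R := by
  have h1 : ∀ p ∈ W, ((W.card : ℝ) - 1) * m p + (∑ p' ∈ W, m p' - m p) ≤
      ((W.card : ℝ) - 1) * R := by
    intro p hp
    have h2 : ∑ p' ∈ W.erase p, (m p + m p') ≤ ∑ _p' ∈ W.erase p, R :=
      Finset.sum_le_sum fun p' hp' => h p hp p' (Finset.mem_of_mem_erase hp')
        (Finset.ne_of_mem_erase hp').symm
    rw [Finset.sum_add_distrib, Finset.sum_const, Finset.sum_const, Finset.card_erase_of_mem hp,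
      nsmul_eq_mul, nsmul_eq_mul, Nat.cast_sub (by omega), Nat.cast_one] at h2
    have h3 := Finset.add_sum_erase W m hp
    linarith
  have h2 := Finset.sum_le_sum h1
  rw [Finset.sum_add_distrib, ← Finset.mul_sum, Finset.sum_sub_distrib, Finset.sum_const,
    Finset.sum_const, nsmul_eq_mul, nsmul_eq_mul] at h2
  have h3 : (2 : ℝ) ≤ W.card := by exact_mod_cast hW
  have h4 : 0 < (W.card : ℝ) - 1 := by linarith
  have h5 : ((W.card : ℝ) - 1) * (2 * ∑ p ∈ W, m p) ≤ ((W.card : ℝ) - 1) * (W.card * R) := by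
    nlinarith
  have h6 := le_of_mul_le_mul_left h5 h4
  linarith

/-- the constant at a place -/
noncomputable def kap {L : Type} [Field L] [NumberField L] (B : ℝ) {m : ℕ} (g : Fin m → L)
    (p : Pl L) : ℝ :=
  match p with
  | Sum.inl w => B * nrm (av (Sum.inl w)) g
  | Sum.inr v => nrm (av (Sum.inr v)) g

theorem liouU {L : Type} [Field L] [NumberField L] {N m : ℕ} (x : Fin N → L) (hx : x ≠ 0) (y : L)
    (hy : y ≠ 0) (g : Fin m → L) (hg : g ≠ 0) (B : ℝ) (hB : 1 ≤ B)
    (hg1 : ∀ p : Pl L, 1 ≤ nrm (av p) g)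
    (hκ : ∀ p : Pl L, av p y ≤ kap B g p * nrm (av p) x) (W : Finset (Pl L)) :
    ∑ p ∈ W, wt p * (Real.log (nrm (av p) x) - Real.log (av p y)) ≤
      logHeight x + (logHeight g + finrank ℚ L * Real.log B) ∧
    ∑ p ∈ W, wt p * Real.log (kap B g p) ≤ logHeight g + finrank ℚ L * Real.log B := by
  classical
  have hy' : (fun _ : Fin 1 => y) ≠ 0 := fun h => hy (congrFun h 0)
  set T : Finset (HeightOneSpectrum (𝓞 L)) := (nrm_finite x hx).toFinset ∪
    ((nrm_finite _ hy').toFinset ∪ ((nrm_finite g hg).toFinset ∪ W.toRight)) with hT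
  have hTm : ∀ v, v ∉ T → nrm (Pool.Agent.W180.OP.fv v) x = 1 ∧
      nrm (Pool.Agent.W180.OP.fv v) (fun _ : Fin 1 => y) = 1 ∧
      nrm (Pool.Agent.W180.OP.fv v) g = 1 := by
    intro v hv
    simp only [hT, Finset.mem_union, Set.Finite.mem_toFinset, Set.mem_ofPred_eq, not_or,
      not_not] at hv
    exact ⟨hv.1, hv.2.1, hv.2.2.1⟩
  have h1 := logHeight_sum x hx T fun v hv => (hTm v hv).1
  have h2 := logHeight_sum _ hy' T fun v hv => (hTm v hv).2.1
  have h3 := logHeight_sum g hg T fun v hv => (hTm v hv).2.2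
  rw [Height.logHeight_eq_zero_of_subsingleton] at h2
  have hn1 : ∀ f : AbsoluteValue L ℝ, nrm f (fun _ : Fin 1 => y) = f y := fun f => by
    unfold nrm
    exact ciSup_const
  simp only [hn1] at h2
  set 𝒜 : Finset (Pl L) := (Finset.univ : Finset (InfinitePlace L)).disjSum T with h𝒜
  have hsum : ∀ h : Pl L → ℝ, ∑ p ∈ 𝒜, wt p * h p =
      ∑ w : InfinitePlace L, (w.mult : ℝ) * h (Sum.inl w) + ∑ v ∈ T, h (Sum.inr v) := by
    intro h
    rw [h𝒜, Finset.sum_disjSum]
    congr 1
    exact Finset.sum_congr rfl fun v _ => one_mul _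
  have hWA : W ⊆ 𝒜 := by
    intro p hp
    rw [h𝒜, Finset.mem_disjSum]
    rcases p with w | v
    · exact Or.inl ⟨w, Finset.mem_univ _, rfl⟩
    · refine Or.inr ⟨v, ?_, rfl⟩
      simp only [hT, Finset.mem_union]
      exact Or.inr (Or.inr (Or.inr (Finset.mem_toRight.2 hp)))
  have hk1 : ∀ p : Pl L, 1 ≤ kap B g p := by
    intro p
    rcases p with w | v
    · exact one_le_mul_of_one_le_of_one_le hB (hg1 _)
    · exact hg1 _
  have hk0 : ∀ p : Pl L, 0 ≤ Real.log (kap B g p) := fun p => Real.log_nonneg (hk1 p)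
  have hyp : ∀ p : Pl L, 0 < av p y := fun p => (av p).pos_iff.2 hy
  have hxp : ∀ p : Pl L, 0 < nrm (av p) x := fun p => nrm_pos _ hx
  have hlow : ∀ p : Pl L, 0 ≤ Real.log (nrm (av p) x) - Real.log (av p y) +
      Real.log (kap B g p) := by
    intro p
    have h4 := Real.log_le_log (hyp p) (hκ p)
    rw [Real.log_mul (by linarith [hk1 p]) (hxp p).ne'] at h4
    linarith
  have hkap : ∑ p ∈ 𝒜, wt p * Real.log (kap B g p) = logHeight g + finrank ℚ L * Real.log B := by
    rw [hsum, h3]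
    have h4 : ∀ w : InfinitePlace L, (w.mult : ℝ) * Real.log (kap B g (Sum.inl w)) =
        w.mult * Real.log B + w.mult * Real.log (nrm w.1 g) := by
      intro w
      rw [← mul_add, ← Real.log_mul (by linarith) (by
        have := hg1 (Sum.inl w)
        have h5 : nrm (av (Sum.inl w)) g = nrm w.1 g := rfl
        rw [h5] at this
        linarith)]
      rfl
    rw [Finset.sum_congr rfl fun w _ => h4 w, Finset.sum_add_distrib, ← Finset.sum_mul]
    have h5 : (∑ w : InfinitePlace L, (w.mult : ℝ)) = finrank ℚ L := by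
      rw [← NumberField.totalWeight_eq_finrank, NumberField.totalWeight_eq_sum_mult]
      push_cast
      rfl
    rw [h5]
    have h6 : ∑ v ∈ T, Real.log (kap B g (Sum.inr v)) =
        ∑ v ∈ T, Real.log (nrm (Pool.Agent.W180.OP.fv v) g) := rfl
    rw [h6]
    ring
  have hx𝒜 : ∑ p ∈ 𝒜, wt p * (Real.log (nrm (av p) x) - Real.log (av p y)) = logHeight x := by
    rw [hsum]
    have h4 : ∀ w : InfinitePlace L, (w.mult : ℝ) * (Real.log (nrm (av (Sum.inl w)) x) -
        Real.log (av (Sum.inl w) y)) =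
        w.mult * Real.log (nrm w.1 x) - w.mult * Real.log (w.1 y) := fun w => mul_sub _ _ _
    rw [Finset.sum_congr rfl fun w _ => h4 w, Finset.sum_sub_distrib, Finset.sum_sub_distrib, h1]
    have h5 : ∑ v ∈ T, Real.log (nrm (av (Sum.inr v)) x) =
      ∑ v ∈ T, Real.log (nrm (Pool.Agent.W180.OP.fv v) x) := rfl
    have h6 : ∑ v ∈ T, Real.log (av (Sum.inr v) y) =
      ∑ v ∈ T, Real.log (Pool.Agent.W180.OP.fv v y) := rfl
    rw [h5, h6]
    linarith
  constructor
  · rw [← hx𝒜, ← hkap, ← Finset.sum_add_distrib]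
    refine (Finset.sum_le_sum fun p _ => ?_).trans (Finset.sum_le_sum_of_subset_of_nonneg hWA
      fun p _ _ => ?_)
    · have := mul_nonneg (wt_nonneg p) (hk0 p)
      linarith
    · rw [← mul_add]
      exact mul_nonneg (wt_nonneg p) (hlow p)
  · rw [← hkap]
    exact Finset.sum_le_sum_of_subset_of_nonneg hWA fun p _ _ => mul_nonneg (wt_nonneg p) (hk0 p)

variable {k : Type} [Field k] [NumberField k] {N q : ℕ}

/-- the places of `L` satisfy the bounds -/
theorem cb_place {L : Type} [Field L] [NumberField L] [Algebra k L] (hN : 1 ≤ N) (Γ : Finset k)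
    {m : ℕ} (g : Fin m → k) (hg : ∀ γ ∈ Γ, ∃ i, g i = γ) (p : Pl L) :
    Cb N (av p) Γ (kap N (fun i => algebraMap k L (g i)) p) := by
  intro c y t ht hc hy
  have : Nonempty (Fin N) := ⟨⟨0, hN⟩⟩
  have hci : ∀ i, av p (algebraMap k L (c i)) ≤ nrm (av p) (fun i => algebraMap k L (g i)) := by
    intro i
    obtain ⟨j, hj⟩ := hg _ (hc i)
    rw [← hj]
    exact le_nrm (av p) (fun i => algebraMap k L (g i)) j
  have hterm : ∀ i, av p (algebraMap k L (c i) * y i) ≤
      nrm (av p) (fun i => algebraMap k L (g i)) * t := by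
    intro i
    by_cases h0 : c i = 0
    · rw [h0, map_zero, zero_mul, map_zero]
      exact mul_nonneg (nrm_nonneg _ _) ht
    · rw [map_mul]
      exact mul_le_mul (hci i) (hy i h0) ((av p).nonneg _) (nrm_nonneg _ _)
  rcases p with w | v
  · show av (Sum.inl w) _ ≤ N * nrm _ _ * t
    refine ((av (Sum.inl w)).sum_le _ _).trans ((Finset.sum_le_sum fun i _ => hterm i).trans ?_)
    rw [Finset.sum_const, Finset.card_univ, Fintype.card_fin, nsmul_eq_mul, mul_assoc]
  · show Pool.Agent.W180.OP.fv v _ ≤ _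
    have hna : IsNonarchimedean (Pool.Agent.W180.OP.fv v) := by
      intro a b
      exact FinitePlace.add_le (FinitePlace.mk v) a b
    obtain ⟨j, -, hj⟩ := IsNonarchimedean.finset_image_add_of_nonempty
      hna (fun i => algebraMap k L (c i) * y i) (t := Finset.univ) Finset.univ_nonempty
    exact hj.trans (hterm j)

/-- the comparison at one place -/
theorem flag_le {F : Type} [Field F] [Algebra k F] {f : AbsoluteValue F ℝ} {Γ : Finset k} {κ : ℝ}
    (h : Cb N f Γ κ) (hκ : 1 ≤ κ) (a n : Fin N → Fin N → k) (π : Fin N → Fin N)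
    (hπ : Function.Injective π) (c : Fin N → Fin N → k) (hc : ∀ j l, c j l ∈ Γ)
    (hc0 : ∀ j l, (π j).val + 1 ≤ l.val → c j l = 0) (hn : ∀ j, ∑ l, c j l • a l = n j)
    (x : Fin N → F) (ha : ∀ l, dot (exv F (a l)) x ≠ 0) (hnx : ∀ j, dot (exv F (n j)) x ≠ 0)
    (hs : ∀ i j, i ≤ j → f (dot (exv F (a i)) x) ≤ f (dot (exv F (a j)) x)) :
    ∑ i, (Real.log (nrm f x) - Real.log (f (dot (exv F (a i)) x))) ≤
      ∑ j, (Real.log (nrm f x) - Real.log (f (dot (exv F (n j)) x))) + N * Real.log κ := by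
  have hbij : Function.Bijective π := Finite.injective_iff_bijective.1 hπ
  rw [← (Equiv.ofBijective π hbij).sum_comp
    (fun i => Real.log (nrm f x) - Real.log (f (dot (exv F (a i)) x)))]
  have h1 : ∀ j, Real.log (nrm f x) - Real.log (f (dot (exv F (a (π j))) x)) ≤
      (Real.log (nrm f x) - Real.log (f (dot (exv F (n j)) x))) + Real.log κ := by
    intro j
    have h2 := h.comb a (c j) (hc j) (n j) (hn j) x (f (dot (exv F (a (π j))) x)) (f.nonneg _)
      (fun l hl => hs l (π j) (by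
        rw [Fin.le_def]
        by_contra hlt
        push Not at hlt
        exact hl (hc0 j l hlt)))
    have h3 := Real.log_le_log (f.pos_iff.2 (hnx j)) h2
    rw [Real.log_mul (by linarith) (f.pos_iff.2 (ha _)).ne'] at h3
    linarith
  refine (Finset.sum_le_sum fun j _ => h1 j).trans (le_of_eq ?_)
  rw [Finset.sum_add_distrib, Finset.sum_const, Finset.card_univ, Fintype.card_fin, nsmul_eq_mul]

theorem table (H : Fin q → Fin N → k) (β γ : Fin N → Fin q ⊕ Fin N) :
    ∃ (n : Fin N → Fin N → k) (π : Fin N → Fin N) (c c' : Fin N → Fin N → k),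
      (Matrix.of fun a => wc H (β a)).det ≠ 0 → (Matrix.of fun a => wc H (γ a)).det ≠ 0 →
      Function.Injective π ∧ (∀ j, n j ≠ 0) ∧
      (∀ j l, (π j).val + 1 ≤ l.val → c j l = 0) ∧ (∀ j, ∑ l, c j l • wc H (β l) = n j) ∧
      (∀ j l, j.val + 1 ≤ l.val → c' j l = 0) ∧ (∀ j, ∑ l, c' j l • wc H (γ l) = n j) := by
  classical
  by_cases hβ : (Matrix.of fun a => wc H (β a)).det ≠ 0
  · by_cases hγ : (Matrix.of fun a => wc H (γ a)).det ≠ 0
    · have h1 : LinearIndependent k fun a => wc H (β a) :=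
        Matrix.linearIndependent_rows_of_det_ne_zero hβ
      have h2 : LinearIndependent k fun a => wc H (γ a) :=
        Matrix.linearIndependent_rows_of_det_ne_zero hγ
      have h3 : Submodule.span k (Set.range fun a => wc H (β a)) = ⊤ :=
        h1.span_eq_top_of_card_eq_finrank' (by simp)
      obtain ⟨n, π, hπ, hn⟩ := bruhat (fun a => wc H (β a)) (fun a => wc H (γ a)) h3 h2
      choose hn0 hnb hna using hn
      choose c' hc'0 hc' using hnb
      choose c hc0 hc using hna
      exact ⟨n, π, c, c', fun _ _ => ⟨hπ, hn0, hc0, hc, hc'0, hc'⟩⟩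
    · exact ⟨0, id, 0, 0, fun _ h => absurd h hγ⟩
  · exact ⟨0, id, 0, 0, fun h => absurd h hβ⟩

end Pool.Agent.R405.TP
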