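import Mathlib
import Pool.Agent.R405.TP2
import Pool.Agent.Helper259.HtExt

/-!
Points with few places above `S` and rational hyperplanes: the inequality for two sorted bases.
-/

set_option autoImplicit false
set_option linter.unusedSectionVars false

open Finset

namespace Pool.Agent.R405.TP

open NumberField IsDedekindDomain Height Module
open Pool.Agent.W180.OP (Pl av wt nrm le_nrm nrm_pos nrm_nonneg exists_nrm wt_nonneg)
open Pool.Agent.R405.IQ (wc extend det_coord)

variable {k : Type} [Field k] [NumberField k] {N q : ℕ}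

theorem tpB (hN : 1 ≤ N) (H : Fin q → Fin N → k) :
    ∃ Z : Finset (Fin N → k), (∀ z ∈ Z, z ≠ 0) ∧ ∃ C : ℝ, 0 ≤ C ∧
      ∀ (L : Type) [Field L] [NumberField L] [Algebra k L] (x : Fin N → L),
        x ≠ 0 → (∀ z ∈ Z, dot (exv L z) x ≠ 0) → (∀ l, dot (exv L (H l)) x ≠ 0) →
        (∀ l, dot (exv L (wc H l)) x ≠ 0) ∧
        ∀ β : Pl L → Fin N → Fin q ⊕ Fin N, (∀ p, (Matrix.of fun a => wc H (β p a)).det ≠ 0) →
        (∀ p a b, a ≤ b → av p (dot (exv L (wc H (β p a))) x) ≤ av p (dot (exv L (wc H (β p b))) x)) →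
        (∀ p, wt p * ∑ a, (Real.log (nrm (av p) x) -
          Real.log (av p (dot (exv L (wc H (β p a))) x))) ≤
            N * logHeight x + finrank k L * C) ∧
        ∀ p p', p ≠ p' → wt p * ∑ a, (Real.log (nrm (av p) x) -
          Real.log (av p (dot (exv L (wc H (β p a))) x))) +
          wt p' * ∑ a, (Real.log (nrm (av p') x) -
          Real.log (av p' (dot (exv L (wc H (β p' a))) x))) ≤
            N * logHeight x + finrank k L * C := by
  classical
  choose n π c c' htab using table H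
  -- the finite set of all coefficients
  set Γ0 : Finset k := insert 1 ((Finset.univ.biUnion fun l : Fin q ⊕ Fin N =>
      Finset.univ.image fun i => wc H l i) ∪
    ((Finset.univ.biUnion fun β : Fin N → Fin q ⊕ Fin N =>
      Finset.univ.image fun ij : Fin N × Fin N => (Matrix.of fun a => wc H (β a))⁻¹ ij.1 ij.2) ∪
    (Finset.univ.biUnion fun βγ : (Fin N → Fin q ⊕ Fin N) × (Fin N → Fin q ⊕ Fin N) =>
      Finset.univ.biUnion fun ij : Fin N × Fin N =>
        {c βγ.1 βγ.2 ij.1 ij.2, c' βγ.1 βγ.2 ij.1 ij.2, n βγ.1 βγ.2 ij.1 ij.2}))) with hΓ0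
  have hΓ1 : ∀ l i, wc H l i ∈ Γ0 := by
    intro l i
    refine Finset.mem_insert_of_mem (Finset.mem_union_left _ (Finset.mem_biUnion.2
      ⟨l, Finset.mem_univ _, Finset.mem_image_of_mem _ (Finset.mem_univ i)⟩))
  have hΓ2 : ∀ (β : Fin N → Fin q ⊕ Fin N) (i j), (Matrix.of fun a => wc H (β a))⁻¹ i j ∈ Γ0 := by
    intro β i j
    refine Finset.mem_insert_of_mem (Finset.mem_union_right _ (Finset.mem_union_left _
      (Finset.mem_biUnion.2 ⟨β, Finset.mem_univ _, Finset.mem_image.2 ⟨(i, j), Finset.mem_univ _,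
        rfl⟩⟩)))
  have hΓ3 : ∀ (β γ : Fin N → Fin q ⊕ Fin N) (i j), c β γ i j ∈ Γ0 ∧ c' β γ i j ∈ Γ0 ∧
      n β γ i j ∈ Γ0 := by
    intro β γ i j
    have h1 : ∀ e ∈ ({c β γ i j, c' β γ i j, n β γ i j} : Finset k), e ∈ Γ0 := by
      intro e he
      refine Finset.mem_insert_of_mem (Finset.mem_union_right _ (Finset.mem_union_right _
        (Finset.mem_biUnion.2 ⟨(β, γ), Finset.mem_univ _, Finset.mem_biUnion.2 ⟨(i, j),
          Finset.mem_univ _, he⟩⟩)))
    exact ⟨h1 _ (by simp), h1 _ (by simp), h1 _ (by simp)⟩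
  set m := Γ0.card with hm
  set g : Fin m → k := fun i => (Γ0.equivFin.symm i : k) with hg
  have hgΓ : ∀ γ ∈ Γ0, ∃ i, g i = γ := by
    intro γ hγ
    exact ⟨Γ0.equivFin ⟨γ, hγ⟩, by rw [hg]; simp⟩
  set C1 : ℝ := logHeight g + finrank ℚ k * Real.log N with hC1
  have hlogN : 0 ≤ Real.log N := Real.log_nonneg (by exact_mod_cast hN)
  have hC10 : 0 ≤ C1 := by
    have h1 := logHeight_nonneg g
    positivity
  set Z : Finset (Fin N → k) := (Finset.univ.image fun i : Fin N => (Pi.single i 1 : Fin N → k)) ∪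
    ((Finset.univ.biUnion fun βγ : (Fin N → Fin q ⊕ Fin N) × (Fin N → Fin q ⊕ Fin N) =>
      Finset.univ.image fun j => n βγ.1 βγ.2 j).filter (· ≠ 0)) with hZ
  set A : ℝ := 3 * N with hA
  have hA0 : 0 ≤ A := by positivity
  refine ⟨Z, ?_, A * C1, mul_nonneg hA0 hC10, ?_⟩
  · intro z hz
    rcases Finset.mem_union.1 hz with hz | hz
    · obtain ⟨i, -, rfl⟩ := Finset.mem_image.1 hz
      intro h
      have := congrFun h i
      simp at this
    · exact (Finset.mem_filter.1 hz).2
  intro L _ _ _ x hx hZx hHx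
  set gL : Fin m → L := fun i => algebraMap k L (g i) with hgL
  have hgL1 : ∀ p : Pl L, 1 ≤ nrm (av p) gL := by
    intro p
    obtain ⟨i, hi⟩ := hgΓ 1 (Finset.mem_insert_self _ _)
    have h1 := le_nrm (av p) gL i
    have h2 : gL i = 1 := by rw [hgL]; simp [hi]
    rw [h2, map_one] at h1
    exact h1
  have hgL0 : gL ≠ 0 := by
    intro h
    obtain ⟨i, hi⟩ := hgΓ 1 (Finset.mem_insert_self _ _)
    have h2 : gL i = 1 := by rw [hgL]; simp [hi]
    rw [h] at h2
    simp at h2
  have hB : (1 : ℝ) ≤ N := by exact_mod_cast hN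
  set κ : Pl L → ℝ := kap N gL with hκ
  have hκ1 : ∀ p, 1 ≤ κ p := by
    intro p
    rcases p with w | v
    · exact one_le_mul_of_one_le_of_one_le hB (hgL1 _)
    · exact hgL1 _
  have hcb : ∀ p : Pl L, Cb N (av p) Γ0 (κ p) := fun p => cb_place hN Γ0 g hgΓ p
  have hwx : ∀ l, dot (exv L (wc H l)) x ≠ 0 := by
    intro l
    rcases l with l | i
    · exact hHx l
    · exact hZx _ (Finset.mem_union_left _ (Finset.mem_image_of_mem _ (Finset.mem_univ i)))
  have hnx : ∀ β γ : Fin N → Fin q ⊕ Fin N, (∀ j, n β γ j ≠ 0) →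
      ∀ j, dot (exv L (n β γ j)) x ≠ 0 := by
    intro β γ h j
    refine hZx _ (Finset.mem_union_right _ (Finset.mem_filter.2 ⟨?_, h j⟩))
    exact Finset.mem_biUnion.2 ⟨(β, γ), Finset.mem_univ _,
      Finset.mem_image_of_mem _ (Finset.mem_univ j)⟩
  -- the total constant
  have hfin : (finrank ℚ L : ℝ) = finrank k L * finrank ℚ k := by
    rw [← Nat.cast_mul, mul_comm, Module.finrank_mul_finrank]
  have hKL : logHeight gL + finrank ℚ L * Real.log N = finrank k L * C1 := by
    rw [hgL, Pool.Agent.Helper259.HtExt.logHeight_ext, hfin, hC1]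
    ring
  set KL : ℝ := finrank k L * C1 with hKLdef
  have hKL0 : 0 ≤ KL := mul_nonneg (Nat.cast_nonneg _) hC10
  have hh0 := logHeight_nonneg x
  have hliou : ∀ (y : L), y ≠ 0 → (∀ p : Pl L, av p y ≤ κ p * nrm (av p) x) →
      ∀ W : Finset (Pl L), ∑ p ∈ W, wt p * (Real.log (nrm (av p) x) - Real.log (av p y)) ≤
        logHeight x + KL ∧ ∑ p ∈ W, wt p * Real.log (κ p) ≤ KL := by
    intro y hy hyk W
    have h1 := liouU x hx y hy gL hgL0 N hB hgL1 hyk W
    rw [hKL] at h1
    exact h1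
  have hκsum : ∀ W : Finset (Pl L), ∑ p ∈ W, wt p * Real.log (κ p) ≤ KL := by
    intro W
    exact (hliou _ (hwx (Sum.inr ⟨0, hN⟩)) (fun p => (hcb p).form _ (hΓ1 _) x) W).2
  have hκp : ∀ p : Pl L, 0 ≤ wt p * Real.log (κ p) := fun p =>
    mul_nonneg (wt_nonneg p) (Real.log_nonneg (hκ1 p))
  refine ⟨hwx, fun β hβ hβs => ?_⟩
  set M : Pl L → ℝ := fun p => wt p * ∑ a, (Real.log (nrm (av p) x) -
      Real.log (av p (dot (exv L (wc H (β p a))) x))) with hM
  set R : ℝ := N * logHeight x + A * KL with hR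
  have hR0 : 0 ≤ R := by positivity
  -- one place
  have hone : ∀ p, M p ≤ R := by
    intro p
    have h2 : ∑ a, wt p * (Real.log (nrm (av p) x) -
        Real.log (av p (dot (exv L (wc H (β p a))) x))) ≤ ∑ _a : Fin N, (logHeight x + KL) := by
      refine Finset.sum_le_sum fun a _ => ?_
      have h3 := (hliou _ (hwx (β p a)) (fun p' => (hcb p').form _ (hΓ1 _) x) {p}).1
      rw [Finset.sum_singleton] at h3
      exact h3
    rw [Finset.sum_const, Finset.card_univ, Fintype.card_fin, nsmul_eq_mul, ← Finset.mul_sum] at h2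
    have h5 : (0 : ℝ) ≤ N * KL := by positivity
    rw [hR, hA]
    simp only [hM]
    linarith
  -- two places
  have htwo : ∀ p p', p ≠ p' → M p + M p' ≤ R := by
    intro p p' hpp
    obtain ⟨hπ, hn0, hc0, hc, hc'0, hc'⟩ := htab (β p) (β p') (hβ p) (hβ p')
    have hnxx := hnx (β p) (β p') hn0
    have h1 := flag_le (hcb p) (hκ1 p) (fun a => wc H (β p a)) (n (β p) (β p')) (π (β p) (β p'))
      hπ (c (β p) (β p')) (fun j l => (hΓ3 _ _ j l).1) hc0 hc x (fun l => hwx _) hnxx (hβs p)
    have h2 := flag_le (hcb p') (hκ1 p') (fun a => wc H (β p' a)) (n (β p) (β p')) id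
      Function.injective_id (c' (β p) (β p')) (fun j l => (hΓ3 _ _ j l).2.1) hc'0 hc' x
      (fun l => hwx _) hnxx (hβs p')
    have h3 := mul_le_mul_of_nonneg_left h1 (wt_nonneg p)
    have h4 := mul_le_mul_of_nonneg_left h2 (wt_nonneg p')
    have h5 : wt p * ∑ j, (Real.log (nrm (av p) x) -
        Real.log (av p (dot (exv L (n (β p) (β p') j)) x))) +
        wt p' * ∑ j, (Real.log (nrm (av p') x) -
        Real.log (av p' (dot (exv L (n (β p) (β p') j)) x))) ≤ N * (logHeight x + KL) := by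
      rw [Finset.mul_sum, Finset.mul_sum, ← Finset.sum_add_distrib]
      have h6 : ∀ j : Fin N, wt p * (Real.log (nrm (av p) x) -
          Real.log (av p (dot (exv L (n (β p) (β p') j)) x))) +
          wt p' * (Real.log (nrm (av p') x) -
          Real.log (av p' (dot (exv L (n (β p) (β p') j)) x))) ≤ logHeight x + KL := by
        intro j
        have h7 := (hliou _ (hnxx j) (fun p' => (hcb p').form _
          (fun i => (hΓ3 _ _ j i).2.2) x) {p, p'}).1
        rw [Finset.sum_pair hpp] at h7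
        exact h7
      refine (Finset.sum_le_sum fun j _ => h6 j).trans (le_of_eq ?_)
      rw [Finset.sum_const, Finset.card_univ, Fintype.card_fin, nsmul_eq_mul]
    have h8 := hκsum {p, p'}
    rw [Finset.sum_pair hpp] at h8
    have h9 : (N : ℝ) * (wt p * Real.log (κ p) + wt p' * Real.log (κ p')) ≤
        N * KL := mul_le_mul_of_nonneg_left h8 (by positivity)
    have h12 : (0 : ℝ) ≤ N * KL := by positivity
    rw [hR, hA]
    simp only [hM]
    nlinarith
  have hgoal : N * logHeight x + finrank k L * (A * C1) = R := by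
    rw [hR, hKLdef]; ring
  rw [hgoal]
  exact ⟨hone, htwo⟩

end Pool.Agent.R405.TP
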