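import Mathlib
import Pool.Agent.R405.TP4
import Pool.Agent.R405.IQ5

/-!
Multiplier ideals of rational arrangements at points with few archimedean places.
-/

set_option autoImplicit false
set_option linter.unusedSectionVars false

open Finset

namespace Pool.Agent.R405.TP

open NumberField IsDedekindDomain Height Module MvPolynomial
open Pool.Agent.W180.OP (Pl av wt nrm le_nrm nrm_pos nrm_nonneg exists_nrm wt_nonneg)
open Pool.Agent.R405.IQ (wc cabs cabs_apply)

/-- a sorted greedy basis -/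
theorem greedyQ {k : Type} [Field k] {E : Type} [Field E] [Algebra k E] {n : ℕ} {ι : Type}
    [Fintype ι] [DecidableEq ι] (f : AbsoluteValue E ℝ) (G : ι → Fin n → k)
    (hspan : ∃ β : Fin n → ι, (Matrix.of fun a => G (β a)).det ≠ 0) (x : Fin n → E)
    (hx : ∀ l, dot (exv E (G l)) x ≠ 0) :
    ∃ β : Fin n → ι, (Matrix.of fun a => G (β a)).det ≠ 0 ∧
      (∀ a b, a ≤ b → f (dot (exv E (G (β a))) x) ≤ f (dot (exv E (G (β b))) x)) ∧
      ∀ l i, Matrix.vecMul (G l) (Matrix.of fun a => G (β a))⁻¹ i ≠ 0 →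
        f (dot (exv E (G (β i))) x) ≤ f (dot (exv E (G l)) x) := by
  classical
  have hmap : ∀ β : Fin n → ι, (Matrix.of fun a => exv E (G (β a))) =
      (algebraMap k E).mapMatrix (Matrix.of fun a => G (β a)) := by
    intro β
    ext a j
    rfl
  obtain ⟨β0, hβ0⟩ := hspan
  obtain ⟨β, hβ, hgr⟩ := greedy f (fun l => exv E (G l)) ⟨β0, by
    rw [hmap, ← RingHom.map_det]
    exact (map_ne_zero _).2 hβ0⟩ x hx
  rw [hmap, ← RingHom.map_det, map_ne_zero] at hβ
  set A : Matrix (Fin n) (Fin n) k := Matrix.of fun a => G (β a) with hA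
  have hu : IsUnit A.det := IsUnit.mk0 _ hβ
  have hgr' : ∀ l i, Matrix.vecMul (G l) A⁻¹ i ≠ 0 →
      f (dot (exv E (G (β i))) x) ≤ f (dot (exv E (G l)) x) := by
    intro l i hli
    refine hgr ((algebraMap k E).mapMatrix A⁻¹) ?_ l i ?_
    · rw [hmap, ← map_mul, Matrix.nonsing_inv_mul _ hu, map_one]
    · have h1 : Matrix.vecMul (exv E (G l)) ((algebraMap k E).mapMatrix A⁻¹) i =
          algebraMap k E (Matrix.vecMul (G l) A⁻¹ i) := by
        simp only [Matrix.vecMul, dotProduct, map_sum, map_mul]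
        rfl
      rw [h1]
      exact (map_ne_zero _).2 hli
  set π : Equiv.Perm (Fin n) := Tuple.sort (fun a => f (dot (exv E (G (β a))) x)) with hπ
  have hmono := Tuple.monotone_sort (fun a => f (dot (exv E (G (β a))) x))
  have hA' : (Matrix.of fun a => G (β (π a))) = A.submatrix π (Equiv.refl _) := by
    ext a j
    rfl
  refine ⟨fun a => β (π a), ?_, fun a b hab => hmono hab, fun l i hli => ?_⟩
  · rw [hA', Equiv.coe_refl, Matrix.det_permute]
    refine mul_ne_zero ?_ hβ
    rcases Int.units_eq_one_or (Equiv.Perm.sign π) with h | h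
    · rw [h]; simp
    · rw [h]; simp
  · apply hgr' l (π i)
    rw [hA', Matrix.inv_submatrix_equiv] at hli
    exact hli

variable {N q : ℕ}

theorem tpI (hN : 1 ≤ N) (H : Fin q → Fin N → ℚ) (hH : ∀ l, H l ≠ 0) :
    ∃ Z : Finset (Fin N → ℚ), (∀ z ∈ Z, z ≠ 0) ∧
      ∀ (a : ℕ) (Fs : Fin a → MvPolynomial (Fin N) ℚ) (c : Fin a → ℚ) (d : Fin a → ℕ)
        (σ : ∀ j, Fin (d j) → Fin q), (∀ j, Fs j = C (c j) * ∏ s, lff (H (σ j s))) →
        (∃ j, Fs j ≠ 0) →
      ∀ (b : ℕ) (us : Fin b → MvPolynomial (Fin N) ℚ) (e : Fin b → ℕ),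
        (∀ i, (us i).IsHomogeneous (e i)) → (∀ i, InMultV Fs (us i)) →
      ∃ C : ℝ, 0 ≤ C ∧ ∀ (E : Type) [Field E] [NumberField E] (x : Fin N → E), x ≠ 0 →
        (∀ z ∈ Z, ∑ j, algebraMap ℚ E (z j) * x j ≠ 0) → (∃ i, aeval x (us i) ≠ 0) →
        ∑ w : InfinitePlace E, (w.mult : ℝ) *
          (-Real.log (⨆ j, w (aeval x (Fs j)) / (⨆ i, w (x i)) ^ d j) -
            -Real.log (⨆ j, w (aeval x (us j)) / (⨆ i, w (x i)) ^ e j)) ≤
          max 1 ((Fintype.card (InfinitePlace E) : ℝ) / 2) *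
            (N * logHeight x + finrank ℚ E * C) := by
  classical
  obtain ⟨Z, hZ, C0, hC0, hmain⟩ := tpB hN H
  refine ⟨Z ∪ Finset.univ.image H, ?_, fun a Fs c d σ hfac hne b us e hus hm => ?_⟩
  · intro z hz
    rcases Finset.mem_union.1 hz with hz | hz
    · exact hZ z hz
    · obtain ⟨l, -, rfl⟩ := Finset.mem_image.1 hz
      exact hH l
  set LC : Fin q ⊕ Fin N → Fin N → ℂ := fun l => exv ℂ (wc H l) with hLC
  have hspan : ∃ β : Fin N → Fin q ⊕ Fin N, (Matrix.of fun a => wc H (β a)).det ≠ 0 := by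
    refine ⟨fun i => Sum.inr i, ?_⟩
    have h1 : (Matrix.of fun a => wc H (Sum.inr a)) = (1 : Matrix (Fin N) (Fin N) ℚ) := by
      ext i j
      simp only [wc, Matrix.of_apply, Sum.elim_inr]
      by_cases h : i = j
      · subst h; simp
      · rw [Pi.single_eq_of_ne (Ne.symm h), Matrix.one_apply_ne h]
    rw [h1, Matrix.det_one]
    exact one_ne_zero
  have hfacC : ∀ j, map (algebraMap ℚ ℂ) (Fs j) =
      C (algebraMap ℚ ℂ (c j)) * ∏ s, lff (LC (Sum.inl (σ j s))) := by
    intro j
    rw [hfac, map_mul, map_prod, map_C]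
    congr 1
    exact Finset.prod_congr rfl fun s _ => map_lff _
  -- the local constants
  have hloc : ∀ (β : Fin N → Fin q ⊕ Fin N) (i : Fin b), ∃ C : ℝ, 0 ≤ C ∧
      ((Matrix.of fun a => wc H (β a)).det ≠ 0 → ∀ x : Fin N → ℂ, x ≠ 0 →
      (∀ l, dot (LC l) x ≠ 0) →
      (∀ l i, Matrix.vecMul (wc H l) (Matrix.of fun a => wc H (β a))⁻¹ i ≠ 0 →
        cabs (dot (LC (β i)) x) ≤ cabs (dot (LC l) x)) →
      aeval x (us i) ≠ 0 → 0 < ⨆ j, cabs (aeval x (Fs j)) / nrm cabs x ^ d j →
      -Real.log (⨆ j, cabs (aeval x (Fs j)) / nrm cabs x ^ d j) ≤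
        -Real.log (cabs (aeval x (us i)) / nrm cabs x ^ e i) +
        ∑ i, (Real.log (nrm cabs x) - Real.log (cabs (dot (LC (β i)) x))) + C) := by
    intro β i
    by_cases hβ : (Matrix.of fun a => wc H (β a)).det ≠ 0
    · set A : Matrix (Fin N) (Fin N) ℚ := Matrix.of fun a => wc H (β a) with hA
      have hu : IsUnit A.det := IsUnit.mk0 _ hβ
      have hB : (algebraMap ℚ ℂ).mapMatrix A * (algebraMap ℚ ℂ).mapMatrix A⁻¹ = 1 := by
        rw [← map_mul, Matrix.mul_nonsing_inv _ hu, map_one]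
      have hB2 : (algebraMap ℚ ℂ).mapMatrix A⁻¹ * (algebraMap ℚ ℂ).mapMatrix A = 1 := by
        rw [← map_mul, Matrix.nonsing_inv_mul _ hu, map_one]
      obtain ⟨C, hC, h⟩ := toricIneq (k := ℚ) cabs _ _ hB hB2 LC Fs
        (fun j => algebraMap ℚ ℂ (c j)) d (fun j s => Sum.inl (σ j s)) hfacC (us i) (e i) (hus i)
        (hm i)
      refine ⟨C, hC, fun _ x hx hL hgr hux hs => h x hx (fun i => hL _)
        (fun l i hli => hgr l i fun h0 => hli ?_) hux hs⟩
      have h1 : Matrix.vecMul (LC l) ((algebraMap ℚ ℂ).mapMatrix A⁻¹) i =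
          algebraMap ℚ ℂ (Matrix.vecMul (wc H l) A⁻¹ i) := by
        simp only [Matrix.vecMul, dotProduct, map_sum, map_mul]
        rfl
      rw [h1, h0, map_zero]
    · exact ⟨0, le_rfl, fun h => absurd h hβ⟩
  choose C1 hC1' hC1 using hloc
  set CT : ℝ := ∑ β, ∑ i, C1 β i with hCT
  have hCT0 : 0 ≤ CT := Finset.sum_nonneg fun β _ => Finset.sum_nonneg fun i _ => hC1' β i
  refine ⟨C0 + CT, by positivity, ?_⟩
  intro E _ _ x hx hZx hux
  have hHx : ∀ l, dot (exv E (H l)) x ≠ 0 := fun l =>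
    hZx _ (Finset.mem_union_right _ (Finset.mem_image_of_mem _ (Finset.mem_univ l)))
  obtain ⟨hwx, hpl⟩ := hmain E x hx (fun z hz => hZx z (Finset.mem_union_left _ hz)) hHx
  choose β hβ hβs hβg using fun p : Pl E => greedyQ (av p) (wc H) hspan x hwx
  obtain ⟨hone, htwo⟩ := hpl β hβ hβs
  set M : Pl E → ℝ := fun p => wt p * ∑ a, (Real.log (nrm (av p) x) -
      Real.log (av p (dot (exv E (wc H (β p a))) x))) with hM
  set R : ℝ := N * logHeight x + finrank ℚ E * C0 with hR
  have hR0 : 0 ≤ R := by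
    have := logHeight_nonneg x
    positivity
  set W : Finset (Pl E) := (Finset.univ : Finset (InfinitePlace E)).image Sum.inl with hW
  have hWc : W.card = Fintype.card (InfinitePlace E) := by
    rw [hW, Finset.card_image_of_injective _ Sum.inl_injective, Finset.card_univ]
  have hsumW : ∑ p ∈ W, M p ≤ max 1 ((W.card : ℝ) / 2) * R := by
    rcases Nat.lt_or_ge W.card 2 with h2 | h2
    · have h3 : ∑ p ∈ W, M p ≤ R := by
        rcases Nat.lt_or_ge W.card 1 with h1 | h1
        · rw [Finset.card_eq_zero.1 (by omega : W.card = 0), Finset.sum_empty]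
          exact hR0
        · obtain ⟨p, hp⟩ := Finset.card_eq_one.1 (by omega : W.card = 1)
          rw [hp, Finset.sum_singleton]
          exact hone p
      exact h3.trans (le_mul_of_one_le_left hR0 (le_max_left _ _))
    · refine (pair_sum W M R h2 fun p _ p' _ h => htwo p p' h).trans ?_
      exact mul_le_mul_of_nonneg_right (le_max_right _ _) hR0
  rw [hW, Finset.sum_image fun a _ b _ h => Sum.inl_injective h] at hsumW
  rw [← hW, hWc] at hsumW
  -- the local inequality
  have hlocal : ∀ w : InfinitePlace E,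
      (-Real.log (⨆ j, w (aeval x (Fs j)) / (⨆ i, w (x i)) ^ d j) -
        -Real.log (⨆ j, w (aeval x (us j)) / (⨆ i, w (x i)) ^ e j)) ≤
      ∑ a, (Real.log (nrm (av (Sum.inl w)) x) -
      Real.log (av (Sum.inl w) (dot (exv E (wc H (β (Sum.inl w) a))) x))) + CT := by
    intro w
    set X : Fin N → ℂ := fun j => w.embedding (x j) with hXdef
    have hwx' : ∀ y : E, w y = ‖w.embedding y‖ := fun y => (InfinitePlace.norm_embedding_eq w y).symm
    have hX0 : X ≠ 0 := by
      intro h
      apply hx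
      funext j
      exact (map_eq_zero _).1 (congrFun h j)
    have hdot : ∀ l, dot (LC l) X = w.embedding (dot (exv E (wc H l)) x) := by
      intro l
      simp only [hLC, hXdef, dot, exv, map_sum, map_mul]
      refine Finset.sum_congr rfl fun j _ => ?_
      congr 1
      exact (map_ratCast w.embedding _).symm
    have hval' : ∀ l, cabs (dot (LC l) X) = av (Sum.inl w) (dot (exv E (wc H l)) x) := by
      intro l
      rw [hdot, cabs_apply]
      exact (hwx' _).symm
    have hXl : ∀ l, dot (LC l) X ≠ 0 := by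
      intro l
      rw [hdot]
      exact (map_ne_zero _).2 (hwx l)
    have hval : ∀ P : MvPolynomial (Fin N) ℚ, w (aeval x P) = cabs (aeval X P) := by
      intro P
      rw [hwx', cabs_apply]
      have h2 : w.embedding (aeval x P) = aeval X P := by
        rw [aeval_def, aeval_def, eval₂_comp_left w.embedding]
        congr 1
        exact Subsingleton.elim _ _
      rw [h2]
    have hsup : (⨆ j, w (x j)) = nrm cabs X := iSup_congr fun j => hwx' (x j)
    have hsup' : nrm (av (Sum.inl w)) x = nrm cabs X := hsup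
    simp only [hval, hsup]
    have hXN := nrm_pos cabs hX0
    have hFx : ∃ j, aeval X (Fs j) ≠ 0 := by
      obtain ⟨j, hj⟩ := hne
      refine ⟨j, ?_⟩
      have h2 : aeval X (Fs j) = algebraMap ℚ ℂ (c j) * ∏ s, dot (LC (Sum.inl (σ j s))) X := by
        have h3 : aeval X (Fs j) = eval X (map (algebraMap ℚ ℂ) (Fs j)) := by
          rw [eval_map, aeval_def]
        rw [h3, hfacC, map_mul, eval_C, map_prod]
        congr 1
        exact Finset.prod_congr rfl fun s _ => eval_lff _ _
      have h4 : c j ≠ 0 := by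
        intro h5
        apply hj
        rw [hfac, h5, C_0, zero_mul]
      rw [h2]
      exact mul_ne_zero ((map_ne_zero _).2 h4) (Finset.prod_ne_zero_iff.2 fun s _ => hXl _)
    have hb : 0 < b := by
      obtain ⟨i, _⟩ := hux
      exact Fin.pos i
    have : Nonempty (Fin b) := ⟨⟨0, hb⟩⟩
    obtain ⟨i, hi'⟩ := exists_eq_ciSup_of_finite
      (f := fun i : Fin b => cabs (aeval X (us i)) / nrm cabs X ^ e i)
    have hbdd : BddAbove (Set.range fun i : Fin b => cabs (aeval X (us i)) / nrm cabs X ^ e i) :=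
      (Set.finite_range _).bddAbove
    have hpos : 0 < cabs (aeval X (us i)) / nrm cabs X ^ e i := by
      obtain ⟨i1, hi1⟩ := hux
      have h2 : 0 < cabs (aeval X (us i1)) / nrm cabs X ^ e i1 := by
        refine div_pos ?_ (pow_pos hXN _)
        rw [← hval]
        exact w.pos_iff.2 hi1
      have h3 := le_ciSup hbdd i1
      rw [← hi'] at h3
      exact h2.trans_le h3
    have hui : aeval X (us i) ≠ 0 := by
      intro h0
      rw [h0, map_zero, zero_div] at hpos
      exact lt_irrefl _ hpos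
    have hbddF : BddAbove (Set.range fun j : Fin a => cabs (aeval X (Fs j)) / nrm cabs X ^ d j) :=
      (Set.finite_range _).bddAbove
    have hFpos : 0 < ⨆ j, cabs (aeval X (Fs j)) / nrm cabs X ^ d j := by
      obtain ⟨j, hj⟩ := hFx
      exact (div_pos (cabs.pos_iff.2 hj) (pow_pos hXN _)).trans_le (le_ciSup hbddF j)
    have h2 := hC1 (β (Sum.inl w)) i (hβ _) X hX0 hXl (fun l i hli => by
      rw [hval', hval']
      exact hβg (Sum.inl w) l i hli) hui hFpos
    rw [← hi']
    have h3 : C1 (β (Sum.inl w)) i ≤ CT := by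
      have h4 : C1 (β (Sum.inl w)) i ≤ ∑ i, C1 (β (Sum.inl w)) i :=
        Finset.single_le_sum (f := fun i => C1 (β (Sum.inl w)) i) (fun i _ => hC1' _ i)
          (Finset.mem_univ i)
      exact h4.trans (Finset.single_le_sum (f := fun β => ∑ i, C1 β i)
        (fun β _ => Finset.sum_nonneg fun i _ => hC1' β i) (Finset.mem_univ (β (Sum.inl w))))
    simp only [hval'] at h2
    rw [hsup']
    linarith
  -- the sum
  have hmult : ∑ w : InfinitePlace E, (w.mult : ℝ) = finrank ℚ E := by
    exact_mod_cast InfinitePlace.sum_mult_eq (K := E)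
  have h1 : ∑ w : InfinitePlace E, (w.mult : ℝ) *
      (-Real.log (⨆ j, w (aeval x (Fs j)) / (⨆ i, w (x i)) ^ d j) -
        -Real.log (⨆ j, w (aeval x (us j)) / (⨆ i, w (x i)) ^ e j)) ≤
      ∑ w : InfinitePlace E, (M (Sum.inl w) + w.mult * CT) := by
    refine Finset.sum_le_sum fun w _ => ?_
    refine (mul_le_mul_of_nonneg_left (hlocal w) (Nat.cast_nonneg _)).trans (le_of_eq ?_)
    rw [mul_add]
    rfl
  rw [Finset.sum_add_distrib, ← Finset.sum_mul, hmult] at h1
  refine h1.trans ((add_le_add_left hsumW _).trans ?_)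
  have h2 : (1 : ℝ) ≤ max 1 ((Fintype.card (InfinitePlace E) : ℝ) / 2) := le_max_left _ _
  have h3 : (0 : ℝ) ≤ finrank ℚ E * CT := by positivity
  have h4 := mul_le_mul_of_nonneg_right h2 h3
  rw [one_mul] at h4
  calc _ ≤ max 1 ((Fintype.card (InfinitePlace E) : ℝ) / 2) * R +
        max 1 ((Fintype.card (InfinitePlace E) : ℝ) / 2) * (finrank ℚ E * CT) := by linarith
    _ = _ := by rw [hR]; ring

end Pool.Agent.R405.TP
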